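import Pool.Agent.H10.AcDefs

/-!
An uncountable closed set of 0-1 sequences contains uncountably many sequences that are constant
on a common infinite set of coordinates.
-/

set_option autoImplicit false

namespace H10Ac

open Cardinal Filter Topology

lemma mk_cantor : #(ℕ → Bool) = 𝔠 := by
  rw [← Cardinal.power_def]
  simp

lemma nhds_cyl (x : ℕ → Bool) (U : Set (ℕ → Bool)) (hU : U ∈ 𝓝 x) :
    ∃ N : ℕ, ∀ y : ℕ → Bool, (∀ i < N, y i = x i) → y ∈ U := by
  obtain ⟨V, hVU, hV, hx⟩ := mem_nhds_iff.mp hU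
  obtain ⟨I, u, h1, h2⟩ := isOpen_pi_iff.mp hV x hx
  refine ⟨I.sup id + 1, fun y hy => hVU (h2 ?_)⟩
  intro i hi
  have : i ≤ I.sup id := Finset.le_sup (f := id) hi
  rw [hy i (by omega)]
  exact (h1 i hi).2

/-- condensation points of `A` -/
def Cond (A : Set (ℕ → Bool)) : Set (ℕ → Bool) :=
  {a | a ∈ A ∧ ∀ N : ℕ, ¬ (A ∩ {e | ∀ i < N, e i = a i}).Countable}

lemma diff_cond_countable (A : Set (ℕ → Bool)) : (A \ Cond A).Countable := by
  classical
  have hsub : A \ Cond A ⊆ ⋃ p : (Σ N : ℕ, (Fin N → Bool)),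
      (if (A ∩ {e | ∀ i : Fin p.1, e i = p.2 i}).Countable then (A ∩ {e | ∀ i : Fin p.1, e i = p.2 i}) else ∅) := by
    rintro a ⟨haA, haC⟩
    have : ∃ N : ℕ, (A ∩ {e | ∀ i < N, e i = a i}).Countable := by
      by_contra hc
      push Not at hc
      exact haC ⟨haA, hc⟩
    obtain ⟨N, hN⟩ := this
    rw [Set.mem_iUnion]
    refine ⟨⟨N, fun i => a i⟩, ?_⟩
    have he : (A ∩ {e | ∀ i : Fin N, e i = a i}) = (A ∩ {e | ∀ i < N, e i = a i}) := by
      ext e
      constructor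
      · rintro ⟨h1, h2⟩; exact ⟨h1, fun i hi => h2 ⟨i, hi⟩⟩
      · rintro ⟨h1, h2⟩; exact ⟨h1, fun i => h2 i i.2⟩
    simp only
    rw [he, if_pos hN]
    exact ⟨haA, fun i _ => rfl⟩
  refine Set.Countable.mono hsub (Set.countable_iUnion fun p => ?_)
  split_ifs with h
  · exact h
  · exact Set.countable_empty

lemma cond_acc (A : Set (ℕ → Bool)) (a : ℕ → Bool) (ha : a ∈ Cond A) (N : ℕ) :
    ∃ b ∈ Cond A, b ≠ a ∧ ∀ i < N, b i = a i := by
  by_contra hc
  push Not at hc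
  apply ha.2 N
  have hsub : (A ∩ {e | ∀ i < N, e i = a i}) ⊆ (A \ Cond A) ∪ {a} := by
    rintro e ⟨h1, h2⟩
    by_cases h3 : e ∈ Cond A
    · right
      by_contra h4
      obtain ⟨i, hi, h5⟩ := hc e h3 h4
      exact h5 (h2 i hi)
    · left; exact ⟨h1, h3⟩
  exact ((diff_cond_countable A).union (Set.countable_singleton a)).mono hsub

/-- states of the construction -/
def St (A : Set (ℕ → Bool)) (c : Bool) : Type :=
  {s : Set (ℕ → Bool) × Set ℕ // s.1.Finite ∧ s.1.Nonempty ∧ s.1 ⊆ Cond A ∧ s.2.Finite ∧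
    ∀ d ∈ s.1, ∀ m ∈ s.2, d m = c}

def Rel {A : Set (ℕ → Bool)} {c : Bool} (n : ℕ) (s s' : St A c) : Prop :=
  s.1.1 ⊆ s'.1.1 ∧ s.1.2 ⊆ s'.1.2 ∧ (∃ m ∈ s'.1.2, n < m) ∧
    ∀ d ∈ s.1.1, ∃ d' ∈ s'.1.1, d' ≠ d ∧ ∀ i < n, d' i = d i

lemma step_exists (A : Set (ℕ → Bool)) (c : Bool)
    (hA : ∀ d ∈ A, ∀ᶠ m in (hyperfilter ℕ : Filter ℕ), d m = c) (n : ℕ) (s : St A c) :
    ∃ s' : St A c, Rel n s s' := by
  classical
  obtain ⟨⟨D, M⟩, hDf, hDn, hDA, hMf, hDM⟩ := s
  -- a new coordinate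
  have h1 : ∀ᶠ m in (hyperfilter ℕ : Filter ℕ), ∀ d ∈ D, d m = c := by
    rw [Filter.eventually_all_finite hDf]
    intro d hd
    exact hA d (hDA hd).1
  have h2 : ∀ᶠ m in (hyperfilter ℕ : Filter ℕ), n < m := by
    have : ∀ᶠ m in (cofinite : Filter ℕ), n < m := by
      rw [Nat.cofinite_eq_atTop]; exact eventually_gt_atTop n
    exact this.filter_mono hyperfilter_le_cofinite
  obtain ⟨m, hm1, hm2⟩ := (h1.and h2).exists
  obtain ⟨B, hB⟩ := (hMf.insert m).bddAbove
  set N := max (B + 1) n with hN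
  have hch : ∀ d : ℕ → Bool, ∃ e : ℕ → Bool, d ∈ Cond A → (e ∈ Cond A ∧ e ≠ d ∧ ∀ i < N, e i = d i) := by
    intro d
    by_cases hd : d ∈ Cond A
    · obtain ⟨b, hb1, hb2, hb3⟩ := cond_acc A d hd N
      exact ⟨b, fun _ => ⟨hb1, hb2, hb3⟩⟩
    · exact ⟨d, fun h => absurd h hd⟩
  choose g hg using hch
  have hconst : ∀ d ∈ D, ∀ k ∈ insert m M, d k = c := by
    intro d hd k hk
    rcases hk with rfl | hk
    · exact hm1 d hd
    · exact hDM d hd k hk
  refine ⟨⟨(D ∪ g '' D, insert m M), hDf.union (hDf.image g), hDn.mono Set.subset_union_left, ?_,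
    hMf.insert m, ?_⟩, Set.subset_union_left, Set.subset_insert m M, ⟨m, Set.mem_insert m M, hm2⟩, ?_⟩
  · rintro d (hd | ⟨d', hd', rfl⟩)
    · exact hDA hd
    · exact (hg d' (hDA hd')).1
  · rintro d (hd | ⟨d', hd', rfl⟩) k hk
    · exact hconst d hd k hk
    · have hkB : k ≤ B := hB hk
      have : k < N := lt_of_lt_of_le (by omega) (le_max_left _ _)
      rw [(hg d' (hDA hd')).2.2 k this]
      exact hconst d' hd' k hk
  · intro d hd
    refine ⟨g d, Or.inr ⟨d, hd, rfl⟩, (hg d (hDA hd)).2.1, fun i hi => ?_⟩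
    exact (hg d (hDA hd)).2.2 i (lt_of_lt_of_le hi (le_max_right _ _))

lemma perfect_uncountable (P : Set (ℕ → Bool)) (hP : Perfect P) (hne : P.Nonempty) : ¬ P.Countable := by
  letI := TopologicalSpace.upgradeIsCompletelyMetrizable (ℕ → Bool)
  obtain ⟨f, hf1, _, hf3⟩ := hP.exists_nat_bool_injection hne
  intro hc
  have h1 : (Set.range f).Countable := hc.mono hf1
  have h2 : (Set.univ : Set (ℕ → Bool)).Countable := by
    have := Set.Countable.preimage_of_injOn (f := f) (s := Set.range f) h1 (hf3.injOn)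
    rwa [Set.preimage_range] at this
  have h3 : Countable (ℕ → Bool) := Set.countable_univ_iff.mp h2
  have h4 := Cardinal.mk_le_aleph0_iff.mpr h3
  rw [mk_cantor] at h4
  exact absurd Cardinal.aleph0_lt_continuum (not_lt.mpr h4)

theorem exists_const (K : Set (ℕ → Bool)) (hK : IsClosed K) (hunc : ¬ K.Countable) :
    ∃ (c : Bool) (M : Set ℕ), M.Infinite ∧ ¬ ({e | e ∈ K ∧ ∀ m ∈ M, e m = c}).Countable := by
  classical
  -- split by the limit along the ultrafilter
  have hsplit : K ⊆ {e | e ∈ K ∧ ∀ᶠ m in (hyperfilter ℕ : Filter ℕ), e m = true} ∪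
      {e | e ∈ K ∧ ∀ᶠ m in (hyperfilter ℕ : Filter ℕ), e m = false} := by
    intro e he
    have : (∀ᶠ m in (hyperfilter ℕ : Filter ℕ), (e m = true ∨ e m = false)) :=
      Eventually.of_forall fun m => by cases e m <;> simp
    rcases Ultrafilter.eventually_or.mp this with h | h
    · exact Or.inl ⟨he, h⟩
    · exact Or.inr ⟨he, h⟩
  have hex : ∃ c : Bool, ¬ ({e | e ∈ K ∧ ∀ᶠ m in (hyperfilter ℕ : Filter ℕ), e m = c}).Countable := by
    by_contra hc
    push Not at hc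
    exact hunc (((hc true).union (hc false)).mono hsplit)
  obtain ⟨c, hc⟩ := hex
  set A := {e | e ∈ K ∧ ∀ᶠ m in (hyperfilter ℕ : Filter ℕ), e m = c} with hA
  have hA' : ∀ d ∈ A, ∀ᶠ m in (hyperfilter ℕ : Filter ℕ), d m = c := fun d hd => hd.2
  -- starting point
  have hne : (Cond A).Nonempty := by
    by_contra hcon
    rw [Set.not_nonempty_iff_eq_empty] at hcon
    have := diff_cond_countable A
    rw [hcon, Set.diff_empty] at this
    exact hc this
  obtain ⟨d0, hd0⟩ := hne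
  choose next hnext using step_exists A c hA'
  let s0 : St A c := ⟨({d0}, ∅), Set.finite_singleton d0, Set.singleton_nonempty d0, by simpa using hd0,
    Set.finite_empty, by simp⟩
  let S : ℕ → St A c := fun n => Nat.rec s0 (fun n s => next n s) n
  have hS : ∀ n, Rel n (S n) (S (n+1)) := fun n => hnext n (S n)
  have hmono1 : Monotone (fun n => (S n).1.1) := monotone_nat_of_le_succ fun n => (hS n).1
  have hmono2 : Monotone (fun n => (S n).1.2) := monotone_nat_of_le_succ fun n => (hS n).2.1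
  set D := ⋃ n, (S n).1.1 with hD
  set M := ⋃ n, (S n).1.2 with hM
  have hDM : ∀ d ∈ D, ∀ m ∈ M, d m = c := by
    intro d hd m hm
    obtain ⟨i, hi⟩ := Set.mem_iUnion.mp hd
    obtain ⟨j, hj⟩ := Set.mem_iUnion.mp hm
    exact (S (max i j)).2.2.2.2.2 d (hmono1 (le_max_left i j) hi) m (hmono2 (le_max_right i j) hj)
  refine ⟨c, M, ?_, ?_⟩
  · apply Set.infinite_of_forall_exists_gt
    intro n
    obtain ⟨m, hm, hlt⟩ := (hS n).2.2.1
    exact ⟨m, Set.mem_iUnion.mpr ⟨n+1, hm⟩, hlt⟩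
  · have hDK : D ⊆ {e | e ∈ K ∧ ∀ m ∈ M, e m = c} := by
      intro d hd
      refine ⟨?_, hDM d hd⟩
      obtain ⟨i, hi⟩ := Set.mem_iUnion.mp hd
      exact ((S i).2.2.2.1 hi).1.1
    have hcl : IsClosed {e : ℕ → Bool | e ∈ K ∧ ∀ m ∈ M, e m = c} := by
      have : {e : ℕ → Bool | e ∈ K ∧ ∀ m ∈ M, e m = c} = K ∩ ⋂ m ∈ M, {e : ℕ → Bool | e m = c} := by
        ext e; simp
      rw [this]
      apply hK.inter
      apply isClosed_biInter
      intro m _
      exact isClosed_eq (continuous_apply m) continuous_const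
    have hpre : Preperfect D := by
      rw [preperfect_iff_nhds]
      intro x hx U hU
      obtain ⟨N, hN⟩ := nhds_cyl x U hU
      obtain ⟨i, hi⟩ := Set.mem_iUnion.mp hx
      have hi' := hmono1 (le_max_left i N) hi
      obtain ⟨d', hd', hne', hag⟩ := (hS (max i N)).2.2.2 x hi'
      refine ⟨d', ⟨hN d' (fun k hk => hag k (lt_of_lt_of_le hk (le_max_right _ _))), ?_⟩, hne'⟩
      exact Set.mem_iUnion.mpr ⟨max i N + 1, hd'⟩
    have hperf := hpre.perfect_closure
    have hDne : D.Nonempty := ⟨d0, Set.mem_iUnion.mpr ⟨0, Set.mem_singleton d0⟩⟩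
    intro hcount
    exact perfect_uncountable _ hperf hDne.closure (hcount.mono (closure_minimal hDK hcl))

end H10Ac
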