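import Pool.Agent.H10.AcA

/-!
Q1: the level set of cardinality continuum is empty or contains a Cantor set.
-/

set_option autoImplicit false

namespace H10Ac

open Cardinal Filter Topology

variable {x : ℕ → ℝ}

lemma summ_ite (hx : ∀ n, 0 < x n) (hs : Summable x) (e : ℕ → Bool) :
    Summable fun n => if e n then x n else 0 := by
  refine Summable.of_nonneg_of_le (fun n => ?_) (fun n => ?_) hs
  · split_ifs
    · exact (hx n).le
    · exact le_rfl
  · split_ifs
    · exact le_rfl
    · exact (hx n).le

lemma subsum_cont (hx : ∀ n, 0 < x n) (hs : Summable x) : Continuous (subsum x) := by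
  unfold subsum
  apply continuous_tsum (u := x)
  · intro n
    have : (fun e : ℕ → Bool => if e n then x n else 0) = (fun b : Bool => if b then x n else 0) ∘ (fun e => e n) := rfl
    rw [this]
    exact continuous_of_discreteTopology.comp (continuous_apply n)
  · exact hs
  · intro n e
    rw [Real.norm_eq_abs]
    split_ifs
    · rw [abs_of_pos (hx n)]
    · simp [(hx n).le]

lemma fibre_closed (hx : ∀ n, 0 < x n) (hs : Summable x) (t : ℝ) : IsClosed (fibre x t) :=
  isClosed_eq (subsum_cont hx hs) continuous_const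

lemma mk_of_uncountable (hx : ∀ n, 0 < x n) (hs : Summable x) (t : ℝ) (h : ¬ (fibre x t).Countable) :
    #(fibre x t) = 𝔠 := by
  apply le_antisymm
  · rw [← mk_cantor]; exact Cardinal.mk_set_le _
  · haveI : PolishSpace (ℕ → Bool) := ⟨⟩
    obtain ⟨f, hf1, _, hf3⟩ := (fibre_closed hx hs t).exists_nat_bool_injection_of_not_countable h
    rw [← mk_cantor]
    apply Cardinal.mk_le_of_injective (f := fun e => (⟨f e, hf1 ⟨e, rfl⟩⟩ : fibre x t))
    intro a b hab
    exact hf3 (Subtype.ext_iff.mp hab)

lemma uncountable_of_mk (t : ℝ) (h : #(fibre x t) = 𝔠) : ¬ (fibre x t).Countable := by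
  intro hc
  have h4 := Cardinal.le_aleph0_iff_set_countable.mpr hc
  rw [h] at h4
  exact absurd Cardinal.aleph0_lt_continuum (not_lt.mpr h4)

/-- rapidly decreasing sequences have injective subsum maps -/
lemma rapid_bound : ∀ (a : ℕ → ℝ), (∀ n, 0 < a n) → (∀ n, a (n+1) ≤ a n / 3) →
    ∀ e, subsum a e ≤ 3/2 * a 0 := by
  intro a ha hr e
  have hle : ∀ n, a n ≤ a 0 * (1/3)^n := by
    intro n
    induction n with
    | zero => simp
    | succ n ih =>
      have := hr n
      rw [pow_succ]
      linarith
  have hg : Summable fun n : ℕ => a 0 * (1/3 : ℝ)^n :=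
    (summable_geometric_of_lt_one (by norm_num) (by norm_num)).mul_left _
  have hs : Summable a := Summable.of_nonneg_of_le (fun n => (ha n).le) hle hg
  have h1 : subsum a e ≤ ∑' n : ℕ, a 0 * (1/3 : ℝ)^n := by
    apply (summ_ite ha hs e).tsum_le_tsum _ hg
    intro n
    split_ifs
    · exact hle n
    · have := ha 0; positivity
  rw [tsum_mul_left, tsum_geometric_of_lt_one (by norm_num) (by norm_num)] at h1
  linarith

lemma rapid_summ (a : ℕ → ℝ) (ha : ∀ n, 0 < a n) (hr : ∀ n, a (n+1) ≤ a n / 3) : Summable a := by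
  have hle : ∀ n, a n ≤ a 0 * (1/3)^n := by
    intro n
    induction n with
    | zero => simp
    | succ n ih =>
      have := hr n
      rw [pow_succ]
      linarith
  have hg : Summable fun n : ℕ => a 0 * (1/3 : ℝ)^n :=
    (summable_geometric_of_lt_one (by norm_num) (by norm_num)).mul_left _
  exact Summable.of_nonneg_of_le (fun n => (ha n).le) hle hg

lemma subsum_nonneg (a : ℕ → ℝ) (ha : ∀ n, 0 < a n) (e : ℕ → Bool) : 0 ≤ subsum a e := by
  apply tsum_nonneg
  intro n
  split_ifs
  · exact (ha n).le
  · exact le_rfl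

lemma subsum_shift (a : ℕ → ℝ) (ha : ∀ n, 0 < a n) (hs : Summable a) (e : ℕ → Bool) :
    subsum a e = (if e 0 then a 0 else 0) + subsum (fun n => a (n+1)) (fun n => e (n+1)) := by
  unfold subsum
  rw [(summ_ite ha hs e).tsum_eq_zero_add]

lemma rapid_inj : ∀ (n : ℕ) (a : ℕ → ℝ), (∀ n, 0 < a n) → (∀ n, a (n+1) ≤ a n / 3) →
    ∀ d e, subsum a d = subsum a e → d n = e n := by
  have key : ∀ (a : ℕ → ℝ), (∀ n, 0 < a n) → (∀ n, a (n+1) ≤ a n / 3) →
      ∀ d e, subsum a d = subsum a e → d 0 = e 0 := by
    intro a ha hr d e h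
    have hs := rapid_summ a ha hr
    rw [subsum_shift a ha hs d, subsum_shift a ha hs e] at h
    have b1 := rapid_bound (fun n => a (n+1)) (fun n => ha _) (fun n => hr _) (fun n => d (n+1))
    have b2 := rapid_bound (fun n => a (n+1)) (fun n => ha _) (fun n => hr _) (fun n => e (n+1))
    have c1 := subsum_nonneg (fun n => a (n+1)) (fun n => ha _) (fun n => d (n+1))
    have c2 := subsum_nonneg (fun n => a (n+1)) (fun n => ha _) (fun n => e (n+1))
    have h3 := hr 0
    have h0 := ha 0
    simp only [zero_add] at b1 b2 h3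
    by_contra hne
    cases hd : d 0 <;> cases he : e 0 <;> simp [hd, he] at h hne
    · linarith
    · linarith
  intro n
  induction n with
  | zero => exact key
  | succ n ih =>
    intro a ha hr d e h
    have hs := rapid_summ a ha hr
    have h0 := key a ha hr d e h
    rw [subsum_shift a ha hs d, subsum_shift a ha hs e, h0] at h
    have h' := add_left_cancel h
    exact ih (fun n => a (n+1)) (fun n => ha _) (fun n => hr _) _ _ h'

theorem q1 (x : ℕ → ℝ) (hx : ∀ n, 0 < x n) (hs : Summable x) :
    level x 𝔠 = ∅ ∨ ContainsCantorSet (level x 𝔠) := by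
  classical
  rcases Set.eq_empty_or_nonempty (level x 𝔠) with h | ⟨t, ht⟩
  · exact Or.inl h
  right
  obtain ⟨c, M, hM, hunc⟩ := exists_const _ (fibre_closed hx hs t) (uncountable_of_mk t ht)
  -- a rapidly decreasing subsequence in M
  have hstep : ∀ m : M, ∃ m' : M, m.1 < m'.1 ∧ x m'.1 ≤ x m.1 / 3 := by
    intro m
    have h1 : ∀ᶠ n in atTop, x n < x m.1 / 3 :=
      hs.tendsto_atTop_zero.eventually (gt_mem_nhds (by have := hx m.1; positivity))
    obtain ⟨B, hB⟩ := (h1.and (eventually_gt_atTop m.1)).exists_forall_of_atTop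
    obtain ⟨m', hm', hlt⟩ := hM.exists_gt B
    have := hB m' hlt.le
    exact ⟨⟨m', hm'⟩, this.2, this.1.le⟩
  choose g hg1 hg2 using hstep
  obtain ⟨m0, hm0⟩ := hM.nonempty
  let q : ℕ → M := fun k => g^[k] ⟨m0, hm0⟩
  have hq : ∀ k, q (k+1) = g (q k) := fun k => Function.iterate_succ_apply' g k _
  let m : ℕ → ℕ := fun k => (q k).1
  have hmM : ∀ k, m k ∈ M := fun k => (q k).2
  have hmono : StrictMono m := strictMono_nat_of_lt_succ fun k => by
    show (q k).1 < (q (k+1)).1
    rw [hq]; exact hg1 _
  have hinj : Function.Injective m := hmono.injective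
  have hrap : ∀ k, x (m (k+1)) ≤ x (m k) / 3 := fun k => by
    show x (q (k+1)).1 ≤ x (q k).1 / 3
    rw [hq]; exact hg2 _
  set a : ℕ → ℝ := fun k => x (m k) with ha
  have hapos : ∀ k, 0 < a k := fun k => hx _
  set s : ℝ := if c then -1 else 1 with hsdef
  have hs0 : s ≠ 0 := by rw [hsdef]; split_ifs <;> norm_num
  set T : (ℕ → Bool) → ℝ := fun d => t + s * subsum a d with hT
  have hTcont : Continuous T := by
    have := subsum_cont hapos (rapid_summ a hapos hrap)
    rw [hT]; fun_prop
  have hTinj : Function.Injective T := by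
    intro d e hde
    have h1 : s * subsum a d = s * subsum a e := add_left_cancel hde
    have h2 := mul_left_cancel₀ hs0 h1
    funext n
    exact rapid_inj n a hapos hrap d e h2
  have hTlevel : ∀ d, T d ∈ level x 𝔠 := by
    intro d
    apply mk_of_uncountable hx hs
    intro hcount
    apply hunc
    -- the modification map
    set φ : (ℕ → Bool) → (ℕ → Bool) := fun e => Function.extend m (fun k => xor c (d k)) e with hφ
    have hφin : ∀ e, e ∈ fibre x t → (∀ m' ∈ M, e m' = c) → φ e ∈ fibre x (T d) := by
      intro e he hec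
      show subsum x (φ e) = t + s * subsum a d
      have he' : subsum x e = t := he
      rw [← he']
      have h1 := summ_ite hx hs (φ e)
      have h2 := summ_ite hx hs e
      have h3 : subsum x (φ e) - subsum x e = s * subsum a d := by
        unfold subsum
        rw [← h1.tsum_sub h2, ← tsum_mul_left]
        have hsupp : Function.support (fun n => (if φ e n then x n else 0) - (if e n then x n else 0))
            ⊆ Set.range m := by
          intro n hn
          by_contra hnr
          apply hn
          have : φ e n = e n := Function.extend_apply' _ _ _ (fun ⟨k, hk⟩ => hnr ⟨k, hk⟩)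
          simp only [this, sub_self]
        rw [← hinj.tsum_eq hsupp]
        apply tsum_congr
        intro k
        have hk : φ e (m k) = xor c (d k) := hinj.extend_apply _ _ _
        rw [hk, hec (m k) (hmM k), hsdef]
        cases c <;> cases d k <;> simp [ha]
      linarith
    have hφinj : Set.InjOn φ {e | e ∈ fibre x t ∧ ∀ m' ∈ M, e m' = c} := by
      intro e he e' he' hee
      funext n
      by_cases hn : n ∈ Set.range m
      · obtain ⟨k, rfl⟩ := hn
        rw [he.2 _ (hmM k), he'.2 _ (hmM k)]
      · have h1 : φ e n = e n := Function.extend_apply' _ _ _ (fun ⟨k, hk⟩ => hn ⟨k, hk⟩)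
        have h2 : φ e' n = e' n := Function.extend_apply' _ _ _ (fun ⟨k, hk⟩ => hn ⟨k, hk⟩)
        rw [← h1, ← h2, hee]
    have himg : (φ '' {e | e ∈ fibre x t ∧ ∀ m' ∈ M, e m' = c}).Countable := by
      apply hcount.mono
      rintro _ ⟨e, he, rfl⟩
      exact hφin e he.1 he.2
    exact Set.countable_of_injective_of_countable_image hφinj himg
  refine ⟨Set.range T, ?_, ?_⟩
  · rintro _ ⟨d, rfl⟩
    exact hTlevel d
  · have hemb := (hTcont.isClosedEmbedding hTinj).isEmbedding
    exact ⟨hemb.toHomeomorph.symm.trans cantorSetHomeomorphNatToBool.symm⟩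

end H10Ac
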