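import Pool.Agent.H10.AcB

/-!
Q2: for the powers of the reciprocal of the golden ratio, the level set of cardinality aleph zero
is nonempty and countable.
-/

set_option autoImplicit false

namespace H10Ac

open Cardinal Filter Topology

/-- reciprocal of the golden ratio -/
noncomputable def rr : ℝ := (Real.goldenRatio)⁻¹

lemma rr_pos : 0 < rr := inv_pos.mpr Real.goldenRatio_pos

lemma inv_sq_aux (p : ℝ) (h0 : p ≠ 0) (h : p ^ 2 = p + 1) : p⁻¹ * p⁻¹ = 1 - p⁻¹ := by
  field_simp
  linarith

lemma rr_sq : rr * rr = 1 - rr := inv_sq_aux _ Real.goldenRatio_ne_zero Real.goldenRatio_sq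

lemma rr_lt : rr < 1 := by
  unfold rr
  exact inv_lt_one_of_one_lt₀ Real.one_lt_goldenRatio

lemma rr_inv : rr * (1 + rr) = 1 := by
  have := rr_sq
  linarith

/-- the series -/
noncomputable def gx (n : ℕ) : ℝ := rr ^ (n+1)

lemma gx_pos (n : ℕ) : 0 < gx n := pow_pos rr_pos _

lemma gx_summ : Summable gx := by
  unfold gx
  have := (summable_geometric_of_lt_one rr_pos.le rr_lt).mul_left rr
  refine this.congr fun n => ?_
  rw [pow_succ]; ring

noncomputable def v (e : ℕ → Bool) : ℝ := subsum gx e

def bt (b : Bool) : ℝ := if b then 1 else 0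

lemma v_shift (e : ℕ → Bool) : v e = rr * (bt (e 0) + v (fun n => e (n+1))) := by
  unfold v
  rw [subsum_shift gx gx_pos gx_summ e]
  have h1 : subsum (fun n => gx (n+1)) (fun n => e (n+1)) = rr * subsum gx (fun n => e (n+1)) := by
    unfold subsum
    rw [← tsum_mul_left]
    apply tsum_congr
    intro n
    unfold gx
    split_ifs
    · ring
    · ring
  rw [h1]
  unfold gx bt
  split_ifs <;> simp <;> ring

lemma v_nonneg (e : ℕ → Bool) : 0 ≤ v e := subsum_nonneg gx gx_pos e

lemma gx_sum : ∑' n, gx n = 1 + rr := by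
  have h1 : ∑' n, gx n = rr * ∑' n : ℕ, rr ^ n := by
    rw [← tsum_mul_left]
    apply tsum_congr
    intro n
    unfold gx
    rw [pow_succ]; ring
  rw [h1, tsum_geometric_of_lt_one rr_pos.le rr_lt]
  have h2 : 1 - rr ≠ 0 := by have := rr_lt; linarith
  have := rr_sq
  field_simp
  linarith

lemma v_compl (e : ℕ → Bool) : v (fun n => !(e n)) = 1 + rr - v e := by
  unfold v subsum
  rw [← gx_sum, ← gx_summ.tsum_sub (summ_ite gx_pos gx_summ e)]
  apply tsum_congr
  intro n
  cases h : e n <;> simp [h]

lemma v_le (e : ℕ → Bool) : v e ≤ 1 + rr := by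
  have h1 := v_compl e
  have h2 := v_nonneg (fun n => !(e n))
  linarith

lemma v_zero (e : ℕ → Bool) (h : v e = 0) : ∀ n, e n = false := by
  intro n
  by_contra hc
  have hn : e n = true := by simpa using hc
  have h1 : gx n ≤ v e := by
    have := (summ_ite gx_pos gx_summ e).le_tsum n (fun j _ => by
      split_ifs
      · exact (gx_pos j).le
      · exact le_rfl)
    simp only [hn, if_true] at this
    exact this
  have := gx_pos n
  linarith

lemma v_max (e : ℕ → Bool) (h : v e = 1 + rr) : ∀ n, e n = true := by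
  intro n
  have h1 := v_zero (fun n => !(e n)) (by rw [v_compl, h]; ring) n
  simpa using h1

/-- unrolling -/
lemma v_unroll (m : ℕ) : ∀ e : ℕ → Bool, v e = (∑ i ∈ Finset.range m, bt (e i) * rr ^ (i+1)) + rr ^ m * v (fun k => e (k+m)) := by
  induction m with
  | zero => intro e; simp
  | succ m ih =>
    intro e
    rw [ih e, v_shift (fun k => e (k+m)), Finset.sum_range_succ, pow_succ]
    have : (fun n => (fun k => e (k+m)) (n+1)) = (fun k => e (k + (m+1))) := by
      funext n; simp only; congr 1; ring
    rw [this]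
    simp only [zero_add]
    ring

lemma v_congr (m : ℕ) (e e' : ℕ → Bool) (h : ∀ i < m, e i = e' i)
    (h' : v (fun k => e (k+m)) = v (fun k => e' (k+m))) : v e = v e' := by
  rw [v_unroll m e, v_unroll m e', h']
  congr 1
  apply Finset.sum_congr rfl
  intro i hi
  rw [h i (Finset.mem_range.mp hi)]

/-- every value between 0 and the total is a subsum -/
noncomputable def stp (y : ℝ) : ℝ := if 1 < y then y / rr - 1 else y / rr

lemma one_div_rr (y : ℝ) : y / rr = y * (1 + rr) := by
  have h := rr_inv
  have h0 := rr_pos.ne'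
  rw [div_eq_iff h0]
  linear_combination (-y) * h

lemma stp_mem (y : ℝ) (h0 : 0 ≤ y) (h1 : y ≤ 1 + rr) : 0 ≤ stp y ∧ stp y ≤ 1 + rr := by
  unfold stp
  have hr := rr_pos
  have hs := rr_sq
  rw [one_div_rr]
  split_ifs with h
  · constructor
    · nlinarith
    · nlinarith
  · push Not at h
    constructor
    · nlinarith
    · nlinarith

lemma v_surj (y : ℝ) (h0 : 0 ≤ y) (h1 : y ≤ 1 + rr) : ∃ e, v e = y := by
  set z : ℕ → ℝ := fun n => stp^[n] y with hz
  have hzs : ∀ n, z (n+1) = stp (z n) := fun n => Function.iterate_succ_apply' stp n y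
  have hmem : ∀ n, 0 ≤ z n ∧ z n ≤ 1 + rr := by
    intro n
    induction n with
    | zero => exact ⟨h0, h1⟩
    | succ n ih => rw [hzs]; exact stp_mem _ ih.1 ih.2
  set e : ℕ → Bool := fun n => decide (1 < z n) with he
  have hrec : ∀ n, z n = rr * (bt (e n) + z (n+1)) := by
    intro n
    rw [hzs]
    unfold stp bt
    have h0 := rr_pos.ne'
    by_cases h : 1 < z n
    · simp only [he, h, decide_true, if_true]
      field_simp
      ring
    · simp only [he, h, decide_false, if_false]
      simp only [Bool.false_eq_true, if_false]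
      field_simp
      ring
  have hsum : ∀ n, y = (∑ i ∈ Finset.range n, bt (e i) * rr ^ (i+1)) + rr ^ n * z n := by
    intro n
    induction n with
    | zero => simp [hz]
    | succ n ih =>
      rw [Finset.sum_range_succ, pow_succ]
      calc y = (∑ i ∈ Finset.range n, bt (e i) * rr ^ (i+1)) + rr ^ n * z n := ih
        _ = _ := by rw [hrec n]; ring
  refine ⟨e, ?_⟩
  have hdiff : ∀ n, |v e - y| ≤ rr ^ n * (1 + rr) := by
    intro n
    rw [v_unroll n e, hsum n]
    have e1 : (∑ i ∈ Finset.range n, bt (e i) * rr ^ (i+1)) + rr ^ n * v (fun k => e (k+n))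
        - ((∑ i ∈ Finset.range n, bt (e i) * rr ^ (i+1)) + rr ^ n * z n)
        = rr ^ n * (v (fun k => e (k+n)) - z n) := by ring
    rw [e1, abs_mul, abs_of_pos (pow_pos rr_pos n)]
    apply mul_le_mul_of_nonneg_left _ (pow_pos rr_pos n).le
    have a1 := v_nonneg (fun k => e (k+n))
    have a2 := v_le (fun k => e (k+n))
    have a3 := hmem n
    rw [abs_le]
    constructor <;> linarith
  have hlim : Tendsto (fun n : ℕ => rr ^ n * (1 + rr)) atTop (𝓝 0) := by
    have := (tendsto_pow_atTop_nhds_zero_of_lt_one rr_pos.le rr_lt).mul_const (1 + rr)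
    simpa using this
  have := ge_of_tendsto' hlim hdiff
  have h2 := abs_nonneg (v e - y)
  have h3 : |v e - y| = 0 := le_antisymm this h2
  linarith [abs_eq_zero.mp h3]

/-- the ring of integers -/
def Z : Set ℝ := {t | ∃ a b : ℤ, t = a + b * rr}

lemma Z_countable : Z.Countable := by
  have : Z = Set.range (fun p : ℤ × ℤ => (p.1 : ℝ) + p.2 * rr) := by
    ext t
    constructor
    · rintro ⟨a, b, rfl⟩; exact ⟨(a, b), rfl⟩
    · rintro ⟨⟨a, b⟩, rfl⟩; exact ⟨a, b, rfl⟩
  rw [this]
  exact Set.countable_range _

lemma Z_step (b : Bool) (w : ℝ) (h : w ∈ Z) : rr * (bt b + w) ∈ Z := by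
  obtain ⟨p, q, rfl⟩ := h
  unfold bt
  have hs := rr_sq
  cases b
  · refine ⟨q, p - q, ?_⟩
    push_cast
    linear_combination (q:ℝ) * hs
  · refine ⟨q, p + 1 - q, ?_⟩
    push_cast
    rw [if_pos rfl]
    linear_combination (q:ℝ) * hs

lemma Z_tail (e : ℕ → Bool) (h : v e ∉ Z) : ∀ m, v (fun k => e (k+m)) ∉ Z := by
  intro m
  induction m with
  | zero => simpa using h
  | succ m ih =>
    intro hc
    apply ih
    rw [v_shift (fun k => e (k+m))]
    have : (fun n => (fun k => e (k+m)) (n+1)) = (fun k => e (k + (m+1))) := by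
      funext n; simp only; congr 1; ring
    rw [this]
    exact Z_step _ _ hc

/-- from a small value one reaches the switch region -/
lemma reach_low (e : ℕ → Bool) (hZ : v e ∉ Z) (n : ℕ) (hlow : v (fun k => e (k+n)) < rr) :
    ∃ m, n ≤ m ∧ rr < v (fun k => e (k+m)) ∧ v (fun k => e (k+m)) < 1 := by
  by_contra hc
  push Not at hc
  have hr := rr_pos
  have hs := rr_sq
  have key : ∀ k, v (fun j => e (j+(n+k))) < rr ∧ v (fun j => e (j+n)) = rr ^ k * v (fun j => e (j+(n+k))) := by
    intro k
    induction k with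
    | zero => simpa using hlow
    | succ k ih =>
      obtain ⟨ih1, ih2⟩ := ih
      have hsh := v_shift (fun j => e (j+(n+k)))
      have hfun : (fun i => (fun j => e (j+(n+k))) (i+1)) = (fun j => e (j + (n+(k+1)))) := by
        funext i; simp only; congr 1; ring
      rw [hfun] at hsh
      set w := v (fun j => e (j+(n+k))) with hw
      set w' := v (fun j => e (j + (n+(k+1)))) with hw'
      have hw'0 : 0 ≤ w' := v_nonneg _
      have hb : bt ((fun j => e (j+(n+k))) 0) = 0 := by
        by_contra hb
        have : bt ((fun j => e (j+(n+k))) 0) = 1 := by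
          unfold bt at hb ⊢
          by_contra h2
          split_ifs at hb h2 <;> simp_all
        rw [this] at hsh
        nlinarith
      rw [hb] at hsh
      have hw'1 : w' < 1 := by nlinarith
      have hne : w' ≠ rr := by
        intro h
        have := Z_tail e hZ (n+(k+1))
        apply this
        rw [← hw', h]
        exact ⟨0, 1, by push_cast; ring⟩
      refine ⟨?_, ?_⟩
      · rcases lt_or_ge w' rr with h | h
        · exact h
        · exfalso
          have := hc (n+(k+1)) (by omega) (lt_of_le_of_ne h (Ne.symm hne))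
          linarith
      · rw [ih2, hsh, pow_succ]; ring
  have h0 : v (fun j => e (j+n)) ≤ 0 := by
    have hlim : Tendsto (fun k : ℕ => rr ^ k * rr) atTop (𝓝 0) := by
      have := (tendsto_pow_atTop_nhds_zero_of_lt_one rr_pos.le rr_lt).mul_const rr
      simpa using this
    apply ge_of_tendsto' hlim
    intro k
    rw [(key k).2]
    exact mul_le_mul_of_nonneg_left (key k).1.le (pow_pos hr k).le
  have h1 : v (fun j => e (j+n)) = 0 := le_antisymm h0 (v_nonneg _)
  exact Z_tail e hZ n (by rw [h1]; exact ⟨0, 0, by push_cast; ring⟩)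

lemma Z_compl (w : ℝ) (h : 1 + rr - w ∈ Z) : w ∈ Z := by
  obtain ⟨a, b, hab⟩ := h
  exact ⟨1 - a, 1 - b, by push_cast; linarith⟩

lemma reach (e : ℕ → Bool) (hZ : v e ∉ Z) (n : ℕ) :
    ∃ m, n ≤ m ∧ rr < v (fun k => e (k+m)) ∧ v (fun k => e (k+m)) < 1 := by
  have hn := Z_tail e hZ n
  rcases lt_trichotomy (v (fun k => e (k+n))) rr with h | h | h
  · exact reach_low e hZ n h
  · exact absurd ⟨0, 1, by push_cast; rw [h]; ring⟩ hn
  · rcases lt_trichotomy (v (fun k => e (k+n))) 1 with h2 | h2 | h2
    · exact ⟨n, le_rfl, h, h2⟩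
    · exact absurd ⟨1, 0, by push_cast; rw [h2]; ring⟩ hn
    · -- complement
      have hZ' : v (fun k => !(e k)) ∉ Z := by
        rw [v_compl]
        intro hc
        exact hZ (Z_compl _ hc)
      have hv : ∀ m, v (fun k => (fun k => !(e k)) (k+m)) = 1 + rr - v (fun k => e (k+m)) := fun m =>
        v_compl (fun k => e (k+m))
      obtain ⟨m, hm, h3, h4⟩ := reach_low (fun k => !(e k)) hZ' n (by rw [hv]; linarith)
      rw [hv] at h3 h4
      exact ⟨m, hm, by linarith, by linarith⟩

lemma fibre_perfect (t : ℝ) (ht : t ∉ Z) : Preperfect (fibre gx t) := by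
  rw [preperfect_iff_nhds]
  intro e he U hU
  have hve : v e = t := he
  obtain ⟨N, hN⟩ := nhds_cyl e U hU
  obtain ⟨m, hm, h1, h2⟩ := reach e (by rw [hve]; exact ht) N
  set w := v (fun k => e (k+m)) with hw
  have hr := rr_pos
  have hs := rr_sq
  have hdiv := one_div_rr w
  -- other digit
  have hy : ∃ y, v y = w / rr - bt (!(e m)) := by
    apply v_surj
    · unfold bt
      split_ifs
      · rw [hdiv]; nlinarith
      · rw [hdiv]; nlinarith
    · unfold bt
      split_ifs
      · rw [hdiv]; nlinarith
      · rw [hdiv]; nlinarith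
  obtain ⟨y, hy⟩ := hy
  set E : ℕ → Bool := fun k => if k < m then e k else if k = m then !(e m) else y (k - m - 1) with hE
  have hElt : ∀ i < m, E i = e i := fun i hi => by simp [hE, hi]
  have hEm : E m = !(e m) := by simp [hE]
  have hEgt : (fun n => (fun k => E (k+m)) (n+1)) = y := by
    funext n
    have a1 : ¬ (n + 1 + m < m) := by omega
    have a2 : ¬ (n + 1 + m = m) := by omega
    have a3 : n + 1 + m - m - 1 = n := by omega
    simp only [hE, if_neg a1, if_neg a2, a3]
  have hvE : v (fun k => E (k+m)) = w := by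
    rw [v_shift, hEgt, hy]
    simp only [zero_add, hEm]
    have := rr_pos.ne'
    field_simp
    ring
  refine ⟨E, ⟨hN E (fun i hi => hElt i (lt_of_lt_of_le hi hm)), ?_⟩, ?_⟩
  · show v E = t
    rw [← hve]
    exact v_congr m E e hElt hvE
  · intro hc
    have := congrFun hc m
    rw [hEm] at this
    cases e m <;> simp at this

lemma level_sub : level gx ℵ₀ ⊆ Z := by
  intro t ht
  by_contra hZ
  have ht' : #(fibre gx t) = ℵ₀ := ht
  have hcl := fibre_closed gx_pos gx_summ t
  have hperf : Perfect (fibre gx t) := ⟨hcl, fibre_perfect t hZ⟩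
  have hne : (fibre gx t).Nonempty := by
    by_contra hc
    rw [Set.not_nonempty_iff_eq_empty] at hc
    rw [hc, Cardinal.mk_emptyCollection] at ht'
    exact Cardinal.aleph0_ne_zero ht'.symm
  apply perfect_uncountable _ hperf hne
  exact Cardinal.le_aleph0_iff_set_countable.mp ht'.le

/-- cons -/
def cons (b : Bool) (e : ℕ → Bool) : ℕ → Bool
  | 0 => b
  | (n+1) => e n

lemma v_cons (b : Bool) (e : ℕ → Bool) : v (cons b e) = rr * (bt b + v e) := by
  rw [v_shift]
  rfl

def Ek : ℕ → (ℕ → Bool)
  | 0 => cons false (fun _ => true)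
  | (k+1) => cons true (cons false (Ek k))

lemma v_ones : v (fun _ => true) = 1 + rr := by
  unfold v subsum
  simp only [if_true]
  exact gx_sum

lemma v_Ek (k : ℕ) : v (Ek k) = 1 := by
  induction k with
  | zero =>
    show v (cons false (fun _ => true)) = 1
    rw [v_cons, v_ones]
    simp only [bt, Bool.false_eq_true, if_false]
    have := rr_inv
    linarith
  | succ k ih =>
    show v (cons true (cons false (Ek k))) = 1
    rw [v_cons, v_cons, ih]
    simp only [bt, Bool.false_eq_true, if_false, if_true]
    have := rr_inv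
    linarith

lemma Ek_lt : ∀ k j, j < k → Ek k (2*j) = true := by
  intro k
  induction k with
  | zero => intro j hj; omega
  | succ k ih =>
    intro j hj
    cases j with
    | zero => rfl
    | succ j =>
      have : 2 * (j+1) = 2*j + 1 + 1 := by ring
      rw [this]
      exact ih j (by omega)

lemma Ek_eq : ∀ k, Ek k (2*k) = false := by
  intro k
  induction k with
  | zero => rfl
  | succ k ih =>
    have : 2 * (k+1) = 2*k + 1 + 1 := by ring
    rw [this]
    exact ih

lemma Ek_inj : Function.Injective Ek := by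
  intro j k hjk
  rcases lt_trichotomy j k with h | h | h
  · have h1 := Ek_lt k j h
    rw [← hjk, Ek_eq] at h1
    exact absurd h1 (by simp)
  · exact h
  · have h1 := Ek_lt j k h
    rw [hjk, Ek_eq] at h1
    exact absurd h1 (by simp)

lemma one_cases (e : ℕ → Bool) (h : v e = 1) :
    (∃ N c, ∀ n, N ≤ n → e n = c) ∨ (e 0 = true ∧ e 1 = false ∧ v (fun k => e (k+2)) = 1) := by
  have hr := rr_pos
  have hi := rr_inv
  have h1 := v_shift e
  rw [h] at h1
  cases he : e 0 with
  | false =>
    left
    rw [he] at h1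
    simp only [bt, Bool.false_eq_true, if_false] at h1
    have h2 : v (fun n => e (n+1)) = 1 + rr := by
      have : rr * v (fun n => e (n+1)) = rr * (1 + rr) := by linarith
      exact mul_left_cancel₀ hr.ne' this
    refine ⟨1, true, fun n hn => ?_⟩
    have := v_max _ h2 (n-1)
    simpa [Nat.sub_add_cancel hn] using this
  | true =>
    rw [he] at h1
    simp only [bt, if_true] at h1
    have h2 : v (fun n => e (n+1)) = rr := by
      have : rr * (1 + v (fun n => e (n+1))) = rr * (1 + rr) := by linarith
      have := mul_left_cancel₀ hr.ne' this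
      linarith
    have h3 := v_shift (fun n => e (n+1))
    rw [h2] at h3
    simp only [zero_add] at h3
    cases he1 : e 1 with
    | false =>
      right
      rw [he1] at h3
      simp only [bt, Bool.false_eq_true, if_false, zero_add] at h3
      refine ⟨rfl, rfl, ?_⟩
      have : rr * v (fun n => e (n+1+1)) = rr * 1 := by linarith
      exact mul_left_cancel₀ hr.ne' this
    | true =>
      left
      rw [he1] at h3
      simp only [bt, if_true] at h3
      have h4 : v (fun n => e (n+1+1)) = 0 := by
        have : rr * (1 + v (fun n => e (n+1+1))) = rr * 1 := by linarith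
        have := mul_left_cancel₀ hr.ne' this
        linarith
      refine ⟨2, false, fun n hn => ?_⟩
      have := v_zero _ h4 (n-2)
      simpa [show n - 2 + 1 + 1 = n by omega] using this

lemma evconst_countable : {e : ℕ → Bool | ∃ N c, ∀ n, N ≤ n → e n = c}.Countable := by
  have : {e : ℕ → Bool | ∃ N c, ∀ n, N ≤ n → e n = c} ⊆
      Set.range (fun p : (Σ N : ℕ, (Fin N → Bool) × Bool) => (fun n => if h : n < p.1 then p.2.1 ⟨n, h⟩ else p.2.2 : ℕ → Bool)) := by
    rintro e ⟨N, c, h⟩
    refine ⟨⟨N, (fun i => e i, c)⟩, ?_⟩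
    funext n
    by_cases hn : n < N
    · simp [hn]
    · simp only [hn, dite_false]
      exact (h n (not_lt.mp hn)).symm
  exact (Set.countable_range _).mono this

lemma fibre_one_countable : (fibre gx 1).Countable := by
  have hsub : fibre gx 1 ⊆ {e : ℕ → Bool | ∃ N c, ∀ n, N ≤ n → e n = c} ∪ {fun n => decide (Even n)} := by
    intro e he
    by_cases hc : ∃ N c, ∀ n, N ≤ n → e n = c
    · exact Or.inl hc
    right
    have hve : v e = 1 := he
    have key : ∀ k, v (fun j => e (j + 2*k)) = 1 := by
      intro k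
      induction k with
      | zero => simpa using hve
      | succ k ih =>
        rcases one_cases _ ih with ⟨N, c, hN⟩ | ⟨_, _, h3⟩
        · exfalso
          apply hc
          refine ⟨N + 2*k, c, fun n hn => ?_⟩
          have := hN (n - 2*k) (by omega)
          simpa [Nat.sub_add_cancel (by omega : 2*k ≤ n)] using this
        · have : (fun k_1 => (fun j => e (j + 2*k)) (k_1+2)) = (fun j => e (j + 2*(k+1))) := by
            funext i; simp only; congr 1; ring
          rw [this] at h3
          exact h3
    have key2 : ∀ k, e (2*k) = true ∧ e (2*k+1) = false := by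
      intro k
      rcases one_cases _ (key k) with ⟨N, c, hN⟩ | ⟨h1, h2, _⟩
      · exfalso
        apply hc
        refine ⟨N + 2*k, c, fun n hn => ?_⟩
        have := hN (n - 2*k) (by omega)
        simpa [Nat.sub_add_cancel (by omega : 2*k ≤ n)] using this
      · refine ⟨by simpa using h1, ?_⟩
        have : 2*k + 1 = 1 + 2*k := by ring
        rw [this]; exact h2
    show e = _
    funext n
    rcases Nat.even_or_odd' n with ⟨k, hk | hk⟩
    · rw [hk, (key2 k).1]; simp
    · rw [hk, (key2 k).2]
      symm
      rw [decide_eq_false_iff_not, Nat.not_even_iff_odd]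
      exact ⟨k, rfl⟩
  exact (evconst_countable.union (Set.countable_singleton _)).mono hsub

lemma one_mem_level : (1:ℝ) ∈ level gx ℵ₀ := by
  show #(fibre gx 1) = ℵ₀
  have hinf : (fibre gx 1).Infinite :=
    Set.infinite_of_injective_forall_mem Ek_inj (fun k => v_Ek k)
  haveI : Infinite (fibre gx 1) := hinf.to_subtype
  haveI : Countable (fibre gx 1) := fibre_one_countable.to_subtype
  exact Cardinal.mk_eq_aleph0 _

theorem q2 : ∃ x : ℕ → ℝ, (∀ n, 0 < x n) ∧ Summable x ∧ (level x ℵ₀).Nonempty ∧
    ¬ ContainsCantorSet (level x ℵ₀) := by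
  refine ⟨gx, gx_pos, gx_summ, ⟨1, one_mem_level⟩, ?_⟩
  rintro ⟨C, hC, ⟨h⟩⟩
  have h1 : C.Countable := Z_countable.mono (hC.trans level_sub)
  haveI : Countable C := h1.to_subtype
  have h2 : Countable (ℕ → Bool) := (h.trans cantorSetHomeomorphNatToBool).symm.toEquiv.countable_iff.mpr inferInstance
  have h4 := Cardinal.mk_le_aleph0_iff.mpr h2
  rw [mk_cantor] at h4
  exact absurd Cardinal.aleph0_lt_continuum (not_lt.mpr h4)

end H10Ac
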