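import Mathlib

/-!
Definitions for MP_c42e77_an: subsums of a series and their cardinality function.
-/

set_option autoImplicit false

namespace H10Ac

open Cardinal

/-- The subsum `f(e)` of the series `x` selected by `e`. -/
noncomputable def subsum (x : ℕ → ℝ) (e : ℕ → Bool) : ℝ := ∑' n, if e n then x n else 0

/-- The fibre of the subsum map over `t`. -/
def fibre (x : ℕ → ℝ) (t : ℝ) : Set (ℕ → Bool) := {e | subsum x e = t}

/-- The level set of the cardinality function: all `t` with exactly `κ` representations. -/
def level (x : ℕ → ℝ) (κ : Cardinal.{0}) : Set ℝ := {t | #(fibre x t) = κ}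

/-- `S` has a subset homeomorphic to the middle-thirds Cantor set. -/
def ContainsCantorSet (S : Set ℝ) : Prop := ∃ C : Set ℝ, C ⊆ S ∧ Nonempty (C ≃ₜ cantorSet)

end H10Ac
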