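import Mathlib

set_option autoImplicit false

/-! Definitions for MP_29e051_nt, Q2: the number `A k = ∑ 1/(k^n - 1)` and automatic sequences. -/

namespace Pool.Agent.H10.Aut

/-- `A_k = ∑_{n ≥ 1} 1/(k^n - 1)`. -/
noncomputable def A (k : ℕ) : ℝ := ∑' n : ℕ, 1 / ((k : ℝ) ^ (n + 1) - 1)

/-- The `i`-th digit after the radix point (`i ≥ 1`) of the base-`k` expansion of `x`. -/
noncomputable def digit (k : ℕ) (x : ℝ) (i : ℕ) : ℤ := ⌊(k : ℝ) ^ i * x⌋ % (k : ℤ)

/-- `a` is produced by a finite automaton with output which reads the base-`k` representation of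
`n`, most significant digit first. -/
def AutomaticMSD (k : ℕ) (a : ℕ → ℤ) : Prop :=
  ∃ (σ : Type) (_ : Fintype σ) (δ : σ → ℕ → σ) (q₀ : σ) (out : σ → ℤ),
    ∀ n, a n = out ((Nat.digits k n).reverse.foldl δ q₀)

/-- `a` is produced by a finite automaton with output which reads the base-`k` representation of
`n`, least significant digit first. -/
def AutomaticLSD (k : ℕ) (a : ℕ → ℤ) : Prop :=
  ∃ (σ : Type) (_ : Fintype σ) (δ : σ → ℕ → σ) (q₀ : σ) (out : σ → ℤ),
    ∀ n, a n = out ((Nat.digits k n).foldl δ q₀)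

end Pool.Agent.H10.Aut
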