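import Mathlib
import Pool.Agent.H10.AutDefs

set_option autoImplicit false

namespace Pool.Agent.H10.Aut

namespace Cst

theorem primes (R : ℕ) (hR : 0 < R) :
    ∃ p : ℕ → ℕ, ∀ i, (p i).Prime ∧ R * 2 ^ i < p i ∧ p i ≤ R * 2 ^ (i + 1) := by
  have h : ∀ i, ∃ q : ℕ, q.Prime ∧ R * 2 ^ i < q ∧ q ≤ R * 2 ^ (i + 1) := by
    intro i
    obtain ⟨q, h1, h2, h3⟩ := Nat.exists_prime_lt_and_le_two_mul (R * 2 ^ i) (by positivity)
    refine ⟨q, h1, h2, ?_⟩
    rw [pow_succ]
    linarith
  choose p hp using h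
  exact ⟨p, hp⟩

theorem prod_dvd {ι : Type} (S : Finset ι) (f : ι → ℕ) (z : ℕ)
    (hc : ∀ i ∈ S, ∀ j ∈ S, i ≠ j → Nat.Coprime (f i) (f j)) (hd : ∀ i ∈ S, f i ∣ z) :
    ∏ i ∈ S, f i ∣ z := by
  classical
  induction S using Finset.induction_on with
  | empty => simp
  | insert a S ha ih =>
    rw [Finset.prod_insert ha]
    apply Nat.Coprime.mul_dvd_of_dvd_of_dvd
    · apply Nat.Coprime.prod_right
      intro i hi
      exact hc a (Finset.mem_insert_self _ _) i (Finset.mem_insert_of_mem hi)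
        (fun h => ha (h ▸ hi))
    · exact hd a (Finset.mem_insert_self _ _)
    · exact ih (fun i hi j hj => hc i (Finset.mem_insert_of_mem hi) j (Finset.mem_insert_of_mem hj))
        (fun i hi => hd i (Finset.mem_insert_of_mem hi))

theorem card_div_prod (k : ℕ) (hk : 1 ≤ k) (S : Finset ℕ) (p : ℕ → ℕ) (hp : ∀ i, (p i).Prime)
    (hinj : Function.Injective p) : (Nat.divisors (∏ i ∈ S, p i ^ (k - 1))).card = k ^ S.card := by
  classical
  induction S using Finset.induction_on with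
  | empty => simp
  | insert a S ha ih =>
    rw [Finset.prod_insert ha, Finset.card_insert_of_notMem ha, Nat.Coprime.card_divisors_mul, ih,
      Nat.divisors_prime_pow (hp a), Finset.card_map, Finset.card_range, pow_succ,
      Nat.sub_add_cancel hk, mul_comm]
    apply Nat.Coprime.prod_right
    intro i hi
    apply Nat.Coprime.pow
    exact (Nat.coprime_primes (hp a) (hp i)).mpr (fun h => ha (hinj h ▸ hi))

theorem le_of_coprime (k m : ℕ) (hk : 0 < k) (S : Finset ℕ) (p : ℕ → ℕ) (hp : ∀ i, (p i).Prime)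
    (g : ℕ) (hg : g ∣ k ^ m * ∏ i ∈ S, p i ^ k) (hc : ∀ i ∈ S, ¬ p i ∣ g) : g ≤ k ^ m := by
  apply Nat.le_of_dvd (by positivity)
  apply Nat.Coprime.dvd_of_dvd_mul_right _ hg
  apply Nat.Coprime.prod_right
  intro i hi
  apply Nat.Coprime.pow_right
  exact ((Nat.Prime.coprime_iff_not_dvd (hp i)).mpr (hc i hi)).symm

end Cst

open Cst in
/-- PART C -/
theorem construct (k m J R s c ρ : ℕ) (hk : 2 ≤ k) (hs1 : 1 ≤ s) (hs : s ≤ J) (hc : c ≤ J)
    (hJ : J < R) (hkR : k < R) :
    ∃ a M P : ℕ, 0 < M ∧ M ≤ k ^ m * (R * 2 ^ (J ^ 2)) ^ (k * J ^ 2) ∧ a ≤ M ∧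
      a % k ^ m = ρ % k ^ m ∧ k ^ m ∣ M ∧ 0 < P ∧ P ∣ M ∧ P ∣ a + s ∧
      (∀ t j, 1 ≤ j → j ≤ J → j ≠ s → k ^ J ∣ (Nat.divisors (a + M * t + j)).card) ∧
      (∀ t, (Nat.divisors (a + M * t + s)).card =
        k ^ c * (Nat.divisors ((a + s) / P + (M / P) * t)).card) ∧
      (∀ t d, d ∣ (a + s) / P + (M / P) * t → Nat.gcd d (M / P) ≤ k ^ m) ∧
      (∀ j, J < j → j ≤ R → ∀ t d, d ∣ a + j + M * t → Nat.gcd d M ≤ k ^ m) := by
  classical
  obtain ⟨p, hpp⟩ := primes R (by omega)
  have hp : ∀ i, (p i).Prime := fun i => (hpp i).1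
  have hpR : ∀ i, R < p i := fun i => by
    have h1 := (hpp i).2.1
    have h2 : R * 1 ≤ R * 2 ^ i := Nat.mul_le_mul_left _ Nat.one_le_two_pow
    omega
  have hinj : Function.Injective p :=
    (strictMono_nat_of_lt_succ (fun i => lt_of_le_of_lt (hpp i).2.2 (hpp (i + 1)).2.1)).injective
  have hJ0 : 0 < J := by omega
  let jj : ℕ → ℕ := fun i => i / J + 1
  have hdiv : ∀ j l, 1 ≤ j → j ≤ J → l < J → jj ((j - 1) * J + l) = j ∧
      ((j - 1) * J + l) % J = l ∧ (j - 1) * J + l < J ^ 2 := by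
    intro j l hj1 hj2 hl
    refine ⟨?_, ?_, ?_⟩
    · show ((j - 1) * J + l) / J + 1 = j
      rw [Nat.add_comm ((j - 1) * J) l, Nat.add_mul_div_right _ _ hJ0, Nat.div_eq_of_lt hl]
      omega
    · rw [Nat.add_comm, Nat.add_mul_mod_self_right, Nat.mod_eq_of_lt hl]
    · calc (j - 1) * J + l < (j - 1) * J + J := by omega
        _ = ((j - 1) + 1) * J := by ring
        _ ≤ J * J := Nat.mul_le_mul_right _ (by omega)
        _ = J ^ 2 := by ring
  let S : Finset ℕ := (Finset.range (J ^ 2)).filter (fun i => jj i = s → i % J < c)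
  have hjj : ∀ i ∈ S, 1 ≤ jj i ∧ jj i ≤ J := by
    intro i hi
    have h1 := (Finset.mem_filter.mp hi).1
    rw [Finset.mem_range] at h1
    refine ⟨Nat.succ_pos _, ?_⟩
    show i / J + 1 ≤ J
    have : i / J < J := Nat.div_lt_of_lt_mul (by rw [← sq]; exact h1)
    omega
  let row : ℕ → ℕ → Finset ℕ := fun j n => (Finset.range n).image (fun l => (j - 1) * J + l)
  have hrowc : ∀ j n, (row j n).card = n := by
    intro j n
    rw [Finset.card_image_of_injective _ (fun x y h => by simpa using h), Finset.card_range]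
  have hrowS : ∀ j n, 1 ≤ j → j ≤ J → (j ≠ s ∧ n ≤ J ∨ n ≤ c) → ∀ i ∈ row j n, i ∈ S ∧ jj i = j := by
    intro j n hj1 hj2 hn i hi
    obtain ⟨l, hl, rfl⟩ := Finset.mem_image.mp hi
    rw [Finset.mem_range] at hl
    have hlJ : l < J := by omega
    obtain ⟨h1, h2, h3⟩ := hdiv j l hj1 hj2 hlJ
    refine ⟨Finset.mem_filter.mpr ⟨Finset.mem_range.mpr h3, ?_⟩, h1⟩
    intro hjs
    rw [h1] at hjs
    rw [h2]
    rcases hn with hn | hn
    · exact absurd hjs hn.1
    · omega
  have hSs : ∀ i ∈ S, jj i = s → i ∈ row s c := by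
    intro i hi his
    have h1 := (Finset.mem_filter.mp hi).2 his
    refine Finset.mem_image.mpr ⟨i % J, Finset.mem_range.mpr h1, ?_⟩
    have h2 : i / J + 1 = s := his
    have h3 : s - 1 = i / J := by omega
    show (s - 1) * J + i % J = i
    rw [h3]
    exact Nat.div_add_mod' i J
  set M : ℕ := k ^ m * ∏ i ∈ S, p i ^ k with hM
  set P : ℕ := ∏ i ∈ row s c, p i ^ (k - 1) with hP
  have hM0 : 0 < M := Nat.mul_pos (by positivity) (Finset.prod_pos fun i _ => pow_pos (hp i).pos _)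
  have hP0 : 0 < P := Finset.prod_pos fun i _ => pow_pos (hp i).pos _
  have hkp : ∀ i, Nat.Coprime (k ^ m) (p i ^ k) := by
    intro i
    apply Nat.Coprime.pow
    apply Nat.Coprime.symm
    rw [Nat.Prime.coprime_iff_not_dvd (hp i)]
    intro h
    have := Nat.le_of_dvd (by omega) h
    have := hpR i
    omega
  have hpi : ∀ i j, i ≠ j → Nat.Coprime (p i) (p j) := fun i j hij =>
    (Nat.coprime_primes (hp i) (hp j)).mpr (fun h => hij (hinj h))
  -- CRT
  obtain ⟨a0, ha0, ha1⟩ : ∃ a0 : ℕ, a0 ≡ ρ [MOD k ^ m] ∧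
      ∀ i ∈ S, a0 + jj i ≡ p i ^ (k - 1) [MOD p i ^ k] := by
    obtain ⟨b, hb⟩ := Nat.chineseRemainderOfFinset (fun i => p i ^ (k - 1) + (p i ^ k - jj i))
      (fun i => p i ^ k) S (fun i _ => (pow_pos (hp i).pos _).ne')
      (fun i _ j _ hij => Nat.Coprime.pow _ _ (hpi i j hij))
    obtain ⟨a0, h1, h2⟩ := Nat.chineseRemainder (n := k ^ m) (m := ∏ i ∈ S, p i ^ k)
      (Nat.Coprime.prod_right fun i _ => hkp i) ρ b
    refine ⟨a0, h1, fun i hi => ?_⟩
    have h3 : a0 ≡ b [MOD p i ^ k] := h2.of_dvd (Finset.dvd_prod_of_mem (fun i => p i ^ k) hi)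
    have h4 := (h3.trans (hb i hi)).add_right (jj i)
    have h5 : jj i ≤ p i ^ k := by
      have e1 := (hjj i hi).2
      have e2 := hpR i
      have e3 : p i ^ 1 ≤ p i ^ k := Nat.pow_le_pow_right (hp i).pos (by omega)
      rw [pow_one] at e3
      omega
    have h6 : p i ^ (k - 1) + (p i ^ k - jj i) + jj i = p i ^ (k - 1) + p i ^ k := by omega
    rw [h6] at h4
    refine h4.trans ?_
    unfold Nat.ModEq
    rw [Nat.add_mod_right]
  set a : ℕ := a0 % M with ha
  have haM : a ≡ a0 [MOD M] := Nat.mod_modEq a0 M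
  have hcong : ∀ t, ∀ i ∈ S, a + M * t + jj i ≡ p i ^ (k - 1) [MOD p i ^ k] := by
    intro t i hi
    have h1 : p i ^ k ∣ M := Dvd.dvd.mul_left (Finset.dvd_prod_of_mem (fun i => p i ^ k) hi) _
    have h2 : a + M * t ≡ a0 [MOD p i ^ k] := by
      have h3 : a + M * t ≡ a [MOD M] := by
        unfold Nat.ModEq
        rw [Nat.add_mul_mod_self_left]
      exact (h3.trans haM).of_dvd h1
    exact (h2.add_right _).trans (ha1 i hi)
  have hd1 : ∀ t, ∀ i ∈ S, p i ^ (k - 1) ∣ a + M * t + jj i := fun t i hi =>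
    ((hcong t i hi).dvd_iff (pow_dvd_pow _ (by omega))).mpr dvd_rfl
  have hd2 : ∀ t, ∀ i ∈ S, ¬ p i ^ k ∣ a + M * t + jj i := by
    intro t i hi h
    have h1 := ((hcong t i hi).dvd_iff dvd_rfl).mp h
    have := (Nat.pow_dvd_pow_iff_le_right (hp i).one_lt).mp h1
    omega
  have hd3 : ∀ t, ∀ i ∈ S, p i ∣ a + M * t + jj i := fun t i hi =>
    (dvd_pow_self _ (by omega)).trans (hd1 t i hi)
  -- p i does not divide a + M t + j for other j ≤ R
  have hnd : ∀ t, ∀ i ∈ S, ∀ j, j ≤ R → j ≠ jj i → ¬ p i ∣ a + M * t + j := by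
    intro t i hi j hjR hj h
    have h1 := hd3 t i hi
    have e1 := hjj i hi
    have e2 := hpR i
    rcases lt_or_gt_of_ne hj with hlt | hlt
    · have h2 := (Nat.dvd_sub h1 h)
      have h3 : a + M * t + jj i - (a + M * t + j) = jj i - j := by omega
      rw [h3] at h2
      have := Nat.le_of_dvd (by omega) h2
      omega
    · have h2 := (Nat.dvd_sub h h1)
      have h3 : a + M * t + j - (a + M * t + jj i) = j - jj i := by omega
      rw [h3] at h2
      have := Nat.le_of_dvd (by omega) h2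
      omega
  have hPM : P ∣ M := by
    refine Dvd.dvd.mul_left ?_ _
    apply prod_dvd
    · intro i _ j _ hij
      exact Nat.Coprime.pow _ _ (hpi i j hij)
    · intro i hi
      have := (hrowS s c hs1 hs (Or.inr le_rfl) i hi).1
      exact (pow_dvd_pow _ (by omega)).trans (Finset.dvd_prod_of_mem (fun i => p i ^ k) this)
  have hPn : ∀ t, P ∣ a + M * t + s := by
    intro t
    apply prod_dvd
    · intro i _ j _ hij
      exact Nat.Coprime.pow _ _ (hpi i j hij)
    · intro i hi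
      obtain ⟨h1, h2⟩ := hrowS s c hs1 hs (Or.inr le_rfl) i hi
      have := hd1 t i h1
      rwa [h2] at this
  have hPa : P ∣ a + s := by simpa using hPn 0
  have hcof : ∀ t, a + M * t + s = P * ((a + s) / P + (M / P) * t) := by
    intro t
    rw [mul_add, Nat.mul_div_cancel' hPa, ← mul_assoc, Nat.mul_div_cancel' hPM]
    ring
  have hcofc : ∀ t, ∀ i ∈ S, ¬ p i ∣ (a + s) / P + (M / P) * t := by
    intro t i hi h
    by_cases his : jj i = s
    · have h1 : p i ^ (k - 1) ∣ P := Finset.dvd_prod_of_mem (fun i => p i ^ (k - 1)) (hSs i hi his)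
      have h2 : p i ^ (k - 1) * p i ∣ P * ((a + s) / P + (M / P) * t) := mul_dvd_mul h1 h
      rw [← hcof t, ← pow_succ, Nat.sub_add_cancel (by omega)] at h2
      apply hd2 t i hi
      rw [his]
      exact h2
    · apply hnd t i hi s (by omega) (fun h' => his h'.symm)
      rw [hcof t]
      exact Dvd.dvd.mul_left h _
  refine ⟨a, M, P, hM0, ?_, (Nat.mod_lt _ hM0).le, ?_, Dvd.intro _ rfl, hP0, hPM, hPa, ?_, ?_, ?_, ?_⟩
  · -- bound
    apply Nat.mul_le_mul_left
    calc ∏ i ∈ S, p i ^ k ≤ ∏ i ∈ S, (R * 2 ^ (J ^ 2)) ^ k := by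
          apply Finset.prod_le_prod' 
          intro i hi
          apply Nat.pow_le_pow_left
          refine (hpp i).2.2.trans ?_
          apply Nat.mul_le_mul_left
          apply Nat.pow_le_pow_right (by norm_num)
          have := Finset.mem_range.mp (Finset.mem_filter.mp hi).1
          omega
      _ = (R * 2 ^ (J ^ 2)) ^ (k * S.card) := by
          rw [Finset.prod_const, ← pow_mul]
      _ ≤ _ := by
          apply Nat.pow_le_pow_right
          · have : 0 < R := by omega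
            positivity
          · apply Nat.mul_le_mul_left
            calc S.card ≤ (Finset.range (J ^ 2)).card := Finset.card_filter_le _ _
              _ = J ^ 2 := Finset.card_range _
  · have h1 : a ≡ a0 [MOD k ^ m] := haM.of_dvd (Dvd.intro _ rfl)
    exact h1.trans ha0
  · intro t j hj1 hj2 hjs
    have hn0 : a + M * t + j ≠ 0 := by omega
    rw [Nat.card_divisors hn0]
    have hf : ∀ i ∈ row j J, (a + M * t + j).factorization (p i) + 1 = k := by
      intro i hi
      obtain ⟨h1, h2⟩ := hrowS j J hj1 hj2 (Or.inl ⟨hjs, le_rfl⟩) i hi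
      have e1 := hd1 t i h1
      have e2 := hd2 t i h1
      rw [h2] at e1 e2
      rw [(hp i).pow_dvd_iff_le_factorization hn0] at e1 e2
      omega
    have hsub : (row j J).image p ⊆ (a + M * t + j).primeFactors := by
      intro x hx
      obtain ⟨i, hi, rfl⟩ := Finset.mem_image.mp hx
      obtain ⟨h1, h2⟩ := hrowS j J hj1 hj2 (Or.inl ⟨hjs, le_rfl⟩) i hi
      have e1 := hd3 t i h1
      rw [h2] at e1
      exact Nat.mem_primeFactors.mpr ⟨hp i, e1, hn0⟩
    refine dvd_trans ?_ (Finset.prod_dvd_prod_of_subset _ _ _ hsub)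
    rw [Finset.prod_image (fun x _ y _ h => hinj h), Finset.prod_congr rfl hf, Finset.prod_const,
      hrowc]
  · intro t
    rw [hcof t, Nat.Coprime.card_divisors_mul, card_div_prod k (by omega) _ p hp hinj, hrowc]
    apply Nat.Coprime.prod_left
    intro i hi
    apply Nat.Coprime.pow_left
    rw [Nat.Prime.coprime_iff_not_dvd (hp i)]
    exact hcofc t i (hrowS s c hs1 hs (Or.inr le_rfl) i hi).1
  · intro t d hd
    apply le_of_coprime k m (by omega) S p hp
    · exact (Nat.gcd_dvd_right _ _).trans (Nat.div_dvd_of_dvd hPM)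
    · intro i hi h
      exact hcofc t i hi ((h.trans (Nat.gcd_dvd_left _ _)).trans hd)
  · intro j hj1 hj2 t d hd
    apply le_of_coprime k m (by omega) S p hp
    · exact Nat.gcd_dvd_right _ _
    · intro i hi h
      apply hnd t i hi j hj2 (by have := (hjj i hi).2; omega)
      have h1 := (h.trans (Nat.gcd_dvd_left _ _)).trans hd
      have h2 : a + j + M * t = a + M * t + j := by ring
      rwa [h2] at h1

end Pool.Agent.H10.Aut
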