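import Mathlib

set_option autoImplicit false

namespace Pool.Agent.H10.Aut

theorem exists_primes (R n : ℕ) (hR : 2 ≤ R) : ∃ p : ℕ → ℕ,
    (∀ i < n, (p i).Prime ∧ R < p i ∧ p i ≤ R * 2 ^ (i + 1)) ∧ Set.InjOn p (Set.Iio n) := by
  have h : ∀ i : ℕ, ∃ q : ℕ, q.Prime ∧ R * 2 ^ i < q ∧ q ≤ 2 * (R * 2 ^ i) := fun i =>
    Nat.exists_prime_lt_and_le_two_mul (R * 2 ^ i) (by positivity)
  choose p hp1 hp2 hp3 using h
  have hmono : StrictMono p := strictMono_nat_of_lt_succ fun i => by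
    have h1 := hp3 i
    have h2 := hp2 (i + 1)
    rw [pow_succ] at h2
    nlinarith
  refine ⟨p, fun i _ => ⟨hp1 i, ?_, ?_⟩, hmono.injective.injOn⟩
  · refine lt_of_le_of_lt ?_ (hp2 i)
    exact Nat.le_mul_of_pos_right R (by positivity)
  · refine (hp3 i).trans (le_of_eq ?_)
    rw [pow_succ]
    ring

end Pool.Agent.H10.Aut
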