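import Mathlib
import Pool.Agent.H10.AutDefs

set_option autoImplicit false

namespace Pool.Agent.H10.Aut

lemma D_summable {k : ℕ} (hk : 2 ≤ k) :
    Summable (fun n : ℕ => ((Nat.divisors (n + 1)).card : ℝ) / (k : ℝ) ^ (n + 1)) := by
  have hk' : (2:ℝ) ≤ k := by exact_mod_cast hk
  have hr : ‖(1 / (k:ℝ))‖ < 1 := by
    rw [Real.norm_of_nonneg (by positivity), div_lt_one (by linarith)]; linarith
  have h1 := summable_pow_mul_geometric_of_norm_lt_one 1 hr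
  have h2 := (summable_nat_add_iff 1).2 h1
  refine Summable.of_nonneg_of_le (fun n => by positivity) (fun n => ?_) h2
  have h3 : ((Nat.divisors (n + 1)).card : ℝ) ≤ ((n + 1 : ℕ) : ℝ) := by
    exact_mod_cast Nat.card_divisors_le_self (n + 1)
  rw [pow_one, one_div, inv_pow, div_eq_mul_inv]
  exact mul_le_mul_of_nonneg_right h3 (by positivity)

lemma A_eq {k : ℕ} (hk : 2 ≤ k) :
    A k = ∑' n : ℕ, ((Nat.divisors (n + 1)).card : ℝ) / (k : ℝ) ^ (n + 1) := by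
  have hk' : (2:ℝ) ≤ k := by exact_mod_cast hk
  have hr : ‖(1 / (k:ℝ))‖ < 1 := by
    rw [Real.norm_of_nonneg (by positivity), div_lt_one (by linarith)]; linarith
  have h := tsum_pow_div_one_sub_eq_tsum_sigma hr 0
  have e1 := tsum_pnat_eq_tsum_succ (f := fun n : ℕ => (n:ℝ) ^ 0 * (1 / (k:ℝ)) ^ n / (1 - (1 / (k:ℝ)) ^ n))
  have e2 := tsum_pnat_eq_tsum_succ (f := fun n : ℕ => (ArithmeticFunction.sigma 0 n : ℝ) * (1 / (k:ℝ)) ^ n)
  rw [e1, e2] at h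
  unfold A
  have l1 : ∀ n : ℕ, ((n + 1 : ℕ):ℝ) ^ 0 * (1 / (k:ℝ)) ^ (n + 1) / (1 - (1 / (k:ℝ)) ^ (n + 1)) =
      1 / ((k:ℝ) ^ (n + 1) - 1) := by
    intro n
    have h1 : (1:ℝ) < (k:ℝ) ^ (n + 1) := one_lt_pow₀ (by linarith) (Nat.succ_ne_zero n)
    have h2 : (k:ℝ) ^ (n + 1) - 1 ≠ 0 := by linarith
    have h3 : (k:ℝ) ^ (n + 1) ≠ 0 := by positivity
    rw [pow_zero, one_mul, one_div, inv_pow]
    have h4 : 1 - ((k:ℝ) ^ (n + 1))⁻¹ = ((k:ℝ) ^ (n + 1) - 1) * ((k:ℝ) ^ (n + 1))⁻¹ := by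
      field_simp
    rw [h4, one_div]
    field_simp
  have l2 : ∀ n : ℕ, (ArithmeticFunction.sigma 0 (n + 1) : ℝ) * (1 / (k:ℝ)) ^ (n + 1) =
      ((Nat.divisors (n + 1)).card : ℝ) / (k : ℝ) ^ (n + 1) := by
    intro n
    rw [ArithmeticFunction.sigma_zero_apply, one_div, inv_pow, div_eq_mul_inv]
  rw [← tsum_congr l2, ← tsum_congr l1]
  exact h

/-- PART D -/
theorem A_fract {k : ℕ} (hk : 2 ≤ k) (N : ℕ) :
    Summable (fun j : ℕ => ((Nat.divisors (N + (j + 1))).card : ℝ) / (k : ℝ) ^ (j + 1)) ∧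
    Int.fract ((k : ℝ) ^ N * A k) =
      Int.fract (∑' j : ℕ, ((Nat.divisors (N + (j + 1))).card : ℝ) / (k : ℝ) ^ (j + 1)) := by
  have hk' : (2:ℝ) ≤ k := by exact_mod_cast hk
  have hk0 : (k:ℝ) ≠ 0 := by positivity
  have hs := D_summable hk
  have hs2 := ((summable_nat_add_iff N).2 hs).mul_left ((k:ℝ) ^ N)
  have e : ∀ j : ℕ, (k:ℝ) ^ N * (((Nat.divisors (j + N + 1)).card : ℝ) / (k : ℝ) ^ (j + N + 1)) =
      ((Nat.divisors (N + (j + 1))).card : ℝ) / (k : ℝ) ^ (j + 1) := by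
    intro j
    rw [show j + N + 1 = N + (j + 1) by ring, pow_add]
    field_simp
  have hs3 : Summable (fun j : ℕ => ((Nat.divisors (N + (j + 1))).card : ℝ) / (k : ℝ) ^ (j + 1)) := by
    refine hs2.congr fun j => ?_
    exact e j
  refine ⟨hs3, ?_⟩
  rw [A_eq hk, ← hs.sum_add_tsum_nat_add N, mul_add, ← tsum_mul_left, tsum_congr e, Finset.mul_sum]
  have hz : ∑ i ∈ Finset.range N, (k:ℝ) ^ N * (((Nat.divisors (i + 1)).card : ℝ) / (k : ℝ) ^ (i + 1)) =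
      ((∑ i ∈ Finset.range N, ((Nat.divisors (i + 1)).card : ℤ) * (k:ℤ) ^ (N - (i + 1)) : ℤ) : ℝ) := by
    push_cast
    refine Finset.sum_congr rfl fun i hi => ?_
    have hi' : i + 1 ≤ N := by have := Finset.mem_range.1 hi; omega
    obtain ⟨m, rfl⟩ := Nat.exists_eq_add_of_le hi'
    rw [Nat.add_sub_cancel_left, pow_add]
    field_simp
  rw [hz, Int.fract_intCast_add]

end Pool.Agent.H10.Aut
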