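import Mathlib
import Pool.Agent.H10.AutDefs

set_option autoImplicit false

namespace Pool.Agent.H10.Aut

/-- the `m` lowest base-`k` digits of `r`, least significant first -/
def padE (k : ℕ) : ℕ → ℕ → List ℕ
  | 0, _ => []
  | m + 1, r => (r % k) :: padE k m (r / k)

theorem digits_padE {k : ℕ} (hk : 2 ≤ k) (m : ℕ) : ∀ n r : ℕ, 1 ≤ n → r < k ^ m →
    Nat.digits k (k ^ m * n + r) = padE k m r ++ Nat.digits k n := by
  induction m with
  | zero =>
    intro n r _ hr
    have : r = 0 := by simpa using hr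
    subst this
    simp [padE]
  | succ m ih =>
    intro n r hn hr
    have hpos : 0 < k ^ (m + 1) * n + r := by
      have : 0 < k ^ (m + 1) * n := Nat.mul_pos (by positivity) hn
      omega
    have h0 : k ^ (m + 1) * n + r = r + k * (k ^ m * n) := by rw [pow_succ]; ring
    have h1 : (k ^ (m + 1) * n + r) % k = r % k := by
      rw [h0, Nat.add_mul_mod_self_left]
    have h2 : (k ^ (m + 1) * n + r) / k = k ^ m * n + r / k := by
      rw [h0, Nat.add_mul_div_left _ _ (by omega : 0 < k), Nat.add_comm]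
    rw [Nat.digits_def' (by omega) hpos, h1, h2, ih n (r / k) hn (by
      apply Nat.div_lt_of_lt_mul
      rw [pow_succ, mul_comm] at hr
      exact hr)]
    rfl

/-- PART E -/
theorem few_blocks {k : ℕ} (hk : 2 ≤ k) {a : ℕ → ℤ} (h : AutomaticMSD k a ∨ AutomaticLSD k a) :
    ∃ Q : ℕ, ∀ m : ℕ, ∀ f : Fin (Q + 1) → ℕ, (∀ i, 1 ≤ f i) →
      ∃ i j : Fin (Q + 1), i ≠ j ∧ ∀ r < k ^ m, a (k ^ m * f i + r) = a (k ^ m * f j + r) := by
  classical
  rcases h with ⟨σ, hσ, δ, q₀, out, ha⟩ | ⟨σ, hσ, δ, q₀, out, ha⟩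
  · refine ⟨Fintype.card σ, fun m f hf => ?_⟩
    obtain ⟨i, j, hij, he⟩ := Fintype.exists_ne_map_eq_of_card_lt
      (fun i : Fin (Fintype.card σ + 1) => (Nat.digits k (f i)).reverse.foldl δ q₀)
      (by rw [Fintype.card_fin]; omega)
    refine ⟨i, j, hij, fun r hr => ?_⟩
    rw [ha, ha, digits_padE hk m _ _ (hf i) hr, digits_padE hk m _ _ (hf j) hr,
      List.reverse_append, List.reverse_append, List.foldl_append, List.foldl_append]
    have he' : (Nat.digits k (f i)).reverse.foldl δ q₀ = (Nat.digits k (f j)).reverse.foldl δ q₀ := he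
    rw [he']
  · refine ⟨Fintype.card (σ → σ), fun m f hf => ?_⟩
    obtain ⟨i, j, hij, he⟩ := Fintype.exists_ne_map_eq_of_card_lt
      (fun (i : Fin (Fintype.card (σ → σ) + 1)) (q : σ) => (Nat.digits k (f i)).foldl δ q)
      (by rw [Fintype.card_fin]; omega)
    refine ⟨i, j, hij, fun r hr => ?_⟩
    rw [ha, ha, digits_padE hk m _ _ (hf i) hr, digits_padE hk m _ _ (hf j) hr,
      List.foldl_append, List.foldl_append]
    have he' : ∀ q, (Nat.digits k (f i)).foldl δ q = (Nat.digits k (f j)).foldl δ q :=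
      fun q => congrFun he q
    rw [he']

end Pool.Agent.H10.Aut
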