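import Pool.Agent.H10.AutX

set_option autoImplicit false

namespace Pool.Agent.H10.Aut

theorem not_automatic {k : ℕ} (hk : 2 ≤ k) (h : ℕ) :
    ¬ (AutomaticMSD k (fun n => digit k (A k) (n + h)) ∨
       AutomaticLSD k (fun n => digit k (A k) (n + h))) := by
  intro hA
  obtain ⟨Q, hQ⟩ := few_blocks hk hA
  obtain ⟨m, hm⟩ : ∃ m, m = Q + h + 20 := ⟨_, rfl⟩
  have hkm : 2 ^ m ≤ k ^ m := Nat.pow_le_pow_left hk m
  have hn1 := num1 (Q + h)
  rw [← hm] at hn1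
  have hk' : (2 : ℝ) ≤ k := by exact_mod_cast hk
  have hc : ∀ i : ℕ, i ≤ Q → i * (10 * m + 1) + 10 * m < k ^ m := by
    intro i hi
    have e1 : (i + 1) * (10 * m + 1) ≤ (Q + h + 1) * (10 * m + 1) := Nat.mul_le_mul_right _ (by omega)
    have e2 : (i + 1) * (10 * m + 1) = i * (10 * m + 1) + 10 * m + 1 := by ring
    omega
  have hh : h ≤ k ^ m := by
    have e1 : (Q + h + 1) * 1 ≤ (Q + h + 1) * (10 * m + 1) := Nat.mul_le_mul_left _ (by omega)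
    omega
  have hex : ∀ i : Fin (Q + 1), ∃ N f : ℕ, 1 ≤ f ∧ N + 1 = k ^ m * f + h ∧
      (k : ℝ) ^ ((i : ℕ) * (10 * m + 1)) ≤ (k : ℝ) ^ (k ^ m) * Int.fract ((k : ℝ) ^ N * A k) ∧
      (k : ℝ) ^ (k ^ m) * Int.fract ((k : ℝ) ^ N * A k) ≤ (k : ℝ) ^ ((i : ℕ) * (10 * m + 1) + 10 * m) := by
    intro i
    exact good_N hk m ((i : ℕ) * (10 * m + 1)) h (by omega) (by omega) hh (hc i (by omega))
  choose N f hf1 hf2 hlow hup using hex
  obtain ⟨i, j, hij, hblock⟩ := hQ m f hf1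
  have hfl : ⌊(k : ℝ) ^ (k ^ m) * Int.fract ((k : ℝ) ^ (N i) * A k)⌋ =
      ⌊(k : ℝ) ^ (k ^ m) * Int.fract ((k : ℝ) ^ (N j) * A k)⌋ := by
    apply floor_eq hk (A k) (N i) (N j) (k ^ m)
    intro r hr
    have e := hblock r hr
    rw [show k ^ m * f i + r + h = N i + 1 + r by rw [hf2 i]; ring,
      show k ^ m * f j + r + h = N j + 1 + r by rw [hf2 j]; ring] at e
    exact e
  have key : ∀ i j : Fin (Q + 1), i < j →
      ⌊(k : ℝ) ^ (k ^ m) * Int.fract ((k : ℝ) ^ (N i) * A k)⌋ =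
      ⌊(k : ℝ) ^ (k ^ m) * Int.fract ((k : ℝ) ^ (N j) * A k)⌋ → False := by
    intro i j hij hfl
    have e1 : ((k : ℤ) ^ ((j : ℕ) * (10 * m + 1))) ≤
        ⌊(k : ℝ) ^ (k ^ m) * Int.fract ((k : ℝ) ^ (N j) * A k)⌋ := by
      rw [Int.le_floor]
      push_cast
      exact hlow j
    rw [← hfl] at e1
    have e2 : (((k : ℤ) ^ ((j : ℕ) * (10 * m + 1)) : ℤ) : ℝ) ≤ (k : ℝ) ^ ((i : ℕ) * (10 * m + 1) + 10 * m) := by
      refine le_trans ?_ (hup i)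
      exact Int.le_floor.1 e1
    push_cast at e2
    have e3 : (k : ℝ) ^ ((i : ℕ) * (10 * m + 1) + 10 * m) < (k : ℝ) ^ ((j : ℕ) * (10 * m + 1)) := by
      apply pow_lt_pow_right₀ (by linarith)
      have e4 : (i : ℕ) + 1 ≤ j := hij
      have e5 : ((i : ℕ) + 1) * (10 * m + 1) ≤ (j : ℕ) * (10 * m + 1) := Nat.mul_le_mul_right _ e4
      have e6 : ((i : ℕ) + 1) * (10 * m + 1) = (i : ℕ) * (10 * m + 1) + 10 * m + 1 := by ring
      omega
    linarith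
  rcases lt_or_gt_of_ne hij with h1 | h1
  · exact key i j h1 hfl
  · exact key j i h1 hfl.symm

end Pool.Agent.H10.Aut
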