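import Mathlib
import Pool.Agent.H10.AutDefs

set_option autoImplicit false

namespace Pool.Agent.H10.Aut

lemma P_step {k : ℕ} (hk : 2 ≤ k) (x : ℝ) (N W : ℕ) :
    ⌊(k : ℝ) ^ (W + 1) * Int.fract ((k : ℝ) ^ N * x)⌋ =
      k * ⌊(k : ℝ) ^ W * Int.fract ((k : ℝ) ^ N * x)⌋ + digit k x (N + 1 + W) := by
  have hk0 : (0:ℝ) < k := by positivity
  have hkz : (0:ℤ) < k := by positivity
  have e : ∀ V : ℕ, ⌊(k : ℝ) ^ V * Int.fract ((k : ℝ) ^ N * x)⌋ =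
      ⌊(k:ℝ) ^ (N + V) * x⌋ - (k:ℤ) ^ V * ⌊(k:ℝ) ^ N * x⌋ := by
    intro V
    rw [Int.fract, mul_sub]
    have : (k:ℝ) ^ V * ((⌊(k:ℝ) ^ N * x⌋ : ℤ) : ℝ) = (((k:ℤ) ^ V * ⌊(k:ℝ) ^ N * x⌋ : ℤ) : ℝ) := by
      push_cast; ring
    rw [this, Int.floor_sub_intCast, pow_add]
    congr 2
    ring
  rw [e, e, digit]
  have h1 : ⌊(k:ℝ) ^ (N + W) * x⌋ = ⌊(k:ℝ) ^ (N + (W + 1)) * x⌋ / (k:ℤ) := by
    have : (k:ℝ) ^ (N + W) * x = ((k:ℝ) ^ (N + (W + 1)) * x) / ((k:ℕ):ℝ) := by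
      rw [← add_assoc, pow_succ]; field_simp
    rw [this, Int.floor_div_natCast]
  have h2 := Int.mul_ediv_add_emod ⌊(k:ℝ) ^ (N + (W + 1)) * x⌋ (k:ℤ)
  rw [show N + 1 + W = N + (W + 1) by ring, h1]
  rw [pow_succ]
  linear_combination -h2

/-- PART P -/
theorem floor_eq {k : ℕ} (hk : 2 ≤ k) (x : ℝ) (N₁ N₂ W : ℕ)
    (h : ∀ i < W, digit k x (N₁ + 1 + i) = digit k x (N₂ + 1 + i)) :
    ⌊(k : ℝ) ^ W * Int.fract ((k : ℝ) ^ N₁ * x)⌋ = ⌊(k : ℝ) ^ W * Int.fract ((k : ℝ) ^ N₂ * x)⌋ := by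
  induction W with
  | zero => simp
  | succ W ih =>
    rw [P_step hk, P_step hk, ih (fun i hi => h i (by omega)), h W (by omega)]

end Pool.Agent.H10.Aut
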