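import Mathlib
import Pool.Agent.H10.AutDefs

set_option autoImplicit false

namespace Pool.Agent.H10.Aut

theorem tau_le_two_mul (n T : ℕ) (hn : 0 < n) (hT : n ≤ T ^ 2) :
    (Nat.divisors n).card ≤ 2 * ((Finset.Icc 1 T).filter (fun d => d ∣ n)).card := by
  classical
  have h1 : ((Nat.divisors n).filter (fun d => d ≤ T)).card ≤
      ((Finset.Icc 1 T).filter (fun d => d ∣ n)).card := by
    refine Finset.card_le_card fun d hd => ?_
    rw [Finset.mem_filter, Nat.mem_divisors] at hd
    rw [Finset.mem_filter, Finset.mem_Icc]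
    exact ⟨⟨Nat.pos_of_dvd_of_pos hd.1.1 hn, hd.2⟩, hd.1.1⟩
  have h2 : ((Nat.divisors n).filter (fun d => ¬ d ≤ T)).card ≤
      ((Finset.Icc 1 T).filter (fun d => d ∣ n)).card := by
    refine Finset.card_le_card_of_injOn (fun d => n / d) ?_ ?_
    · intro d hd
      rw [Finset.mem_coe, Finset.mem_filter, Nat.mem_divisors] at hd
      rw [Finset.mem_coe, Finset.mem_filter, Finset.mem_Icc]
      have hdp : 0 < d := Nat.pos_of_dvd_of_pos hd.1.1 hn
      refine ⟨⟨Nat.div_pos (Nat.le_of_dvd hn hd.1.1) hdp, ?_⟩, Nat.div_dvd_of_dvd hd.1.1⟩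
      have hdT : T < d := not_le.1 hd.2
      refine Nat.div_le_of_le_mul ?_
      nlinarith
    · intro a ha b hb hab
      rw [Finset.mem_coe, Finset.mem_filter, Nat.mem_divisors] at ha hb
      have e1 : n / (n / a) = a := Nat.div_div_self ha.1.1 hn.ne'
      have e2 : n / (n / b) = b := Nat.div_div_self hb.1.1 hn.ne'
      have h : n / a = n / b := hab
      rw [← e1, ← e2, h]
  have h3 := Finset.card_filter_add_card_filter_not (s := Nat.divisors n) (fun d => d ≤ T)
  omega

theorem count_prog (B M T W d : ℕ) (hd : 0 < d)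
    (hW : ∀ t d, d ∣ B + M * t → Nat.gcd d M ≤ W) :
    (((Finset.range T).filter (fun t => d ∣ B + M * t)).card : ℝ) ≤ W * T * (d : ℝ)⁻¹ + 1 := by
  classical
  rcases ((Finset.range T).filter (fun t => d ∣ B + M * t)).eq_empty_or_nonempty with h | h
  · rw [h, Finset.card_empty, Nat.cast_zero]
    positivity
  · obtain ⟨t0, ht0⟩ := h
    rw [Finset.mem_filter] at ht0
    have hg := hW t0 d ht0.2
    set g := Nat.gcd d M with hgdef
    have hgpos : 0 < g := Nat.gcd_pos_of_pos_left _ hd
    obtain ⟨e, he⟩ : g ∣ d := Nat.gcd_dvd_left d M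
    have hepos : 0 < e := by
      rcases Nat.eq_zero_or_pos e with h | h
      · rw [h] at he
        omega
      · exact h
    have hco : Nat.Coprime e (M / g) := by
      have h1 := Nat.coprime_div_gcd_div_gcd (m := d) (n := M) hgpos
      rw [← hgdef] at h1
      rwa [he, Nat.mul_div_cancel_left _ hgpos] at h1
    have hcard : ((Finset.range T).filter (fun t => d ∣ B + M * t)).card ≤ T / e + 1 := by
      rw [← Finset.card_range (T / e + 1)]
      refine Finset.card_le_card_of_injOn (fun t => t / e) ?_ ?_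
      · intro t ht
        rw [Finset.mem_coe, Finset.mem_filter, Finset.mem_range] at ht
        rw [Finset.mem_coe, Finset.mem_range]
        exact Nat.lt_succ_of_le (Nat.div_le_div_right ht.1.le)
      · intro a ha b hb hab
        rw [Finset.mem_coe, Finset.mem_filter] at ha hb
        have h : a / e = b / e := hab
        have hmod : a % e = b % e := by
          have h1 : (d : ℤ) ∣ (B + M * a : ℤ) := by exact_mod_cast ha.2
          have h2 : (d : ℤ) ∣ (B + M * b : ℤ) := by exact_mod_cast hb.2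
          have h3 : (d : ℤ) ∣ (M : ℤ) * (a - b) := by
            have h9 : (M : ℤ) * (a - b) = (B + M * a : ℤ) - (B + M * b : ℤ) := by ring
            rw [h9]
            exact dvd_sub h1 h2
          have hM : (M : ℤ) = g * (M / g : ℕ) := by
            rw [← Nat.cast_mul, Nat.mul_div_cancel' (Nat.gcd_dvd_right d M)]
          rw [he, hM] at h3
          have h4 : (e : ℤ) ∣ ((M / g : ℕ) : ℤ) * (a - b) := by
            have h5 : (g : ℤ) * e ∣ g * (((M / g : ℕ) : ℤ) * (a - b)) := by
              convert h3 using 1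
              · push_cast
                ring
              · ring
            exact (mul_dvd_mul_iff_left (by exact_mod_cast hgpos.ne')).1 h5
          have h6 : (e : ℤ) ∣ (a - b : ℤ) := by
            refine IsCoprime.dvd_of_dvd_mul_left ?_ h4
            exact Nat.isCoprime_iff_coprime.2 hco
          have h7 : (b : ℤ) ≡ a [ZMOD e] := (Int.modEq_iff_dvd).2 h6
          have h8 : b ≡ a [MOD e] := Int.natCast_modEq_iff.1 h7
          exact h8.symm
        rw [← Nat.div_add_mod a e, ← Nat.div_add_mod b e, h, hmod]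
    have h1 : (((Finset.range T).filter (fun t => d ∣ B + M * t)).card : ℝ) ≤
        ((T / e : ℕ) : ℝ) + 1 := by exact_mod_cast hcard
    have h2 : ((T / e : ℕ) : ℝ) ≤ (T : ℝ) / e := Nat.cast_div_le
    have h3 : (T : ℝ) / e ≤ W * T * (d : ℝ)⁻¹ := by
      rw [he, Nat.cast_mul, mul_inv, div_eq_mul_inv]
      have hgR : (0 : ℝ) < g := by exact_mod_cast hgpos
      have heR : (0 : ℝ) < (e : ℝ)⁻¹ := by
        have : (0 : ℝ) < e := by exact_mod_cast hepos
        positivity
      have hWg : (1 : ℝ) ≤ W * (g : ℝ)⁻¹ := by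
        rw [← div_eq_mul_inv, le_div_iff₀ hgR, one_mul]
        exact_mod_cast hg
      have hT0 : (0 : ℝ) ≤ T := Nat.cast_nonneg _
      calc (T : ℝ) * (e : ℝ)⁻¹ = 1 * (T * (e : ℝ)⁻¹) := by ring
        _ ≤ (W * (g : ℝ)⁻¹) * (T * (e : ℝ)⁻¹) :=
          mul_le_mul_of_nonneg_right hWg (mul_nonneg hT0 heR.le)
        _ = W * T * ((g : ℝ)⁻¹ * (e : ℝ)⁻¹) := by ring
    linarith

/-- PART T -/
theorem avg_tau (B M T W : ℕ) (hB : 0 < B) (hM : 0 < M) (hT : B + M * T ≤ T ^ 2)
    (hW : ∀ t d, d ∣ B + M * t → Nat.gcd d M ≤ W) :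
    (∑ t ∈ Finset.range T, ((Nat.divisors (B + M * t)).card : ℝ)) ≤
      T * (2 * W * (1 + Real.log T) + 2) := by
  classical
  have h1 : ∀ t ∈ Finset.range T, ((Nat.divisors (B + M * t)).card : ℝ) ≤
      2 * ∑ d ∈ Finset.Icc 1 T, if d ∣ B + M * t then (1 : ℝ) else 0 := by
    intro t ht
    rw [Finset.mem_range] at ht
    have h2 := tau_le_two_mul (B + M * t) T (by omega)
      (le_trans (Nat.add_le_add_left (Nat.mul_le_mul_left M ht.le) B) hT)
    rw [Finset.sum_ite, Finset.sum_const_zero, add_zero, Finset.sum_const, nsmul_eq_mul, mul_one]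
    exact_mod_cast h2
  have h2 : (∑ t ∈ Finset.range T, ((Nat.divisors (B + M * t)).card : ℝ)) ≤
      2 * ∑ d ∈ Finset.Icc 1 T, (((Finset.range T).filter (fun t => d ∣ B + M * t)).card : ℝ) := by
    refine (Finset.sum_le_sum h1).trans ?_
    rw [← Finset.mul_sum, Finset.sum_comm]
    refine le_of_eq ?_
    congr 1
    refine Finset.sum_congr rfl fun d _ => ?_
    rw [Finset.sum_ite, Finset.sum_const_zero, add_zero, Finset.sum_const, nsmul_eq_mul, mul_one]
  have h3 : ∑ d ∈ Finset.Icc 1 T, (((Finset.range T).filter (fun t => d ∣ B + M * t)).card : ℝ) ≤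
      ∑ d ∈ Finset.Icc 1 T, (W * T * (d : ℝ)⁻¹ + 1) := by
    refine Finset.sum_le_sum fun d hd => ?_
    rw [Finset.mem_Icc] at hd
    exact count_prog B M T W d (by omega) hW
  have h4 : ∑ d ∈ Finset.Icc 1 T, (W * T * (d : ℝ)⁻¹ + 1) ≤ W * T * (1 + Real.log T) + T := by
    rw [Finset.sum_add_distrib, ← Finset.mul_sum, Finset.sum_const, Nat.card_Icc, nsmul_eq_mul,
      mul_one, Nat.add_sub_cancel]
    have h5 := harmonic_le_one_add_log T
    rw [harmonic_eq_sum_Icc] at h5
    push_cast at h5
    have h6 : (0 : ℝ) ≤ W * T := by positivity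
    have := mul_le_mul_of_nonneg_left h5 h6
    linarith
  calc (∑ t ∈ Finset.range T, ((Nat.divisors (B + M * t)).card : ℝ))
      ≤ 2 * (W * T * (1 + Real.log T) + T) := by linarith
    _ = T * (2 * W * (1 + Real.log T) + 2) := by ring

end Pool.Agent.H10.Aut
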