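import Pool.Agent.H10.AutT
import Pool.Agent.H10.AutC
import Pool.Agent.H10.AutD
import Pool.Agent.H10.AutE
import Pool.Agent.H10.AutP

set_option autoImplicit false

namespace Pool.Agent.H10.Aut

theorem num1 (Q : ℕ) : (Q + 1) * (10 * (Q + 20) + 1) + 1000 ≤ 2 ^ (Q + 20) := by
  induction Q with
  | zero => norm_num
  | succ n ih =>
    have h : 2 ^ (n + 1 + 20) = 2 * 2 ^ (n + 20) := by ring
    rw [h]
    nlinarith [ih]

/-- bound on M -/
theorem num2 (k W M : ℕ) (hW : 8 ≤ W) (hkW : k ≤ W)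
    (hM : M ≤ W * (W ^ 8 * 2 ^ (W ^ 2)) ^ (k * W ^ 2)) : M ≤ 2 ^ (W ^ 7) := by
  have h1 : W ≤ 2 ^ W := (Nat.lt_two_pow_self).le
  have h2 : W ^ 8 * 2 ^ (W ^ 2) ≤ 2 ^ (8 * W + W ^ 2) := by
    rw [pow_add]
    apply Nat.mul_le_mul_right
    calc W ^ 8 ≤ (2 ^ W) ^ 8 := Nat.pow_le_pow_left h1 8
      _ = 2 ^ (8 * W) := by rw [← pow_mul, mul_comm]
  have h3 : (W ^ 8 * 2 ^ (W ^ 2)) ^ (k * W ^ 2) ≤ 2 ^ ((8 * W + W ^ 2) * (W * W ^ 2)) := by
    calc (W ^ 8 * 2 ^ (W ^ 2)) ^ (k * W ^ 2) ≤ (2 ^ (8 * W + W ^ 2)) ^ (k * W ^ 2) :=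
          Nat.pow_le_pow_left h2 _
      _ = 2 ^ ((8 * W + W ^ 2) * (k * W ^ 2)) := by rw [← pow_mul]
      _ ≤ 2 ^ ((8 * W + W ^ 2) * (W * W ^ 2)) := by
          apply Nat.pow_le_pow_right (by norm_num)
          apply Nat.mul_le_mul_left
          exact Nat.mul_le_mul_right _ hkW
  calc M ≤ W * (W ^ 8 * 2 ^ (W ^ 2)) ^ (k * W ^ 2) := hM
    _ ≤ 2 ^ W * 2 ^ ((8 * W + W ^ 2) * (W * W ^ 2)) := Nat.mul_le_mul h1 h3
    _ = 2 ^ (W + (8 * W + W ^ 2) * (W * W ^ 2)) := by rw [pow_add]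
    _ ≤ 2 ^ (W ^ 7) := by
      apply Nat.pow_le_pow_right (by norm_num)
      obtain ⟨v, rfl⟩ := Nat.exists_eq_add_of_le hW
      ring_nf
      nlinarith [Nat.zero_le v, Nat.zero_le (v^2), Nat.zero_le (v^3), Nat.zero_le (v^4), Nat.zero_le (v^5), Nat.zero_le (v^6), Nat.zero_le (v^7)]

theorem num3 (W : ℕ) (hW : 8 ≤ W) : W ^ 8 + W + 2 ≤ 2 ^ (W ^ 7) := by
  have h1 : W ≤ 2 ^ W := (Nat.lt_two_pow_self).le
  have h2 : W ^ 8 ≤ 2 ^ (8 * W) := by
    calc W ^ 8 ≤ (2 ^ W) ^ 8 := Nat.pow_le_pow_left h1 8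
      _ = 2 ^ (8 * W) := by rw [← pow_mul, mul_comm]
  have h3 : W + 2 ≤ 2 ^ (8 * W) := by
    refine le_trans ?_ h2
    have : W * 8 ≤ W * W := Nat.mul_le_mul_left _ hW
    calc W + 2 ≤ W * W := by nlinarith
      _ = W ^ 2 := by ring
      _ ≤ W ^ 8 := Nat.pow_le_pow_right (by omega) (by norm_num)
  have h4 : 8 * W + 1 ≤ W ^ 7 := by
    calc 8 * W + 1 ≤ W * W * W := by nlinarith
      _ = W ^ 3 := by ring
      _ ≤ W ^ 7 := Nat.pow_le_pow_right (by omega) (by norm_num)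
  calc W ^ 8 + W + 2 ≤ 2 ^ (8 * W) + 2 ^ (8 * W) := by omega
    _ = 2 ^ (8 * W + 1) := by ring
    _ ≤ 2 ^ (W ^ 7) := Nat.pow_le_pow_right (by norm_num) h4

/-- the tail -/
theorem tail2 {k : ℕ} (hk : 2 ≤ k) (N R : ℕ) :
    ∑' j : ℕ, ((Nat.divisors (N + (j + R + 1))).card : ℝ) / (k : ℝ) ^ (j + R + 1) ≤
      ((N : ℝ) + R + 2) / (k : ℝ) ^ R := by
  have hk' : (2 : ℝ) ≤ k := by exact_mod_cast hk
  have hk0 : (0 : ℝ) < k := by linarith
  apply Real.tsum_le_of_sum_range_le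
  · intro j; positivity
  intro n
  have key : ∑ j ∈ Finset.range n, ((Nat.divisors (N + (j + R + 1))).card : ℝ) / (k : ℝ) ^ (j + R + 1) ≤
      ((N : ℝ) + R + 2) / (k : ℝ) ^ R - ((N : ℝ) + R + n + 2) / (k : ℝ) ^ (R + n) := by
    induction n with
    | zero => simp
    | succ n ih =>
      rw [Finset.sum_range_succ]
      have h1 : ((Nat.divisors (N + (n + R + 1))).card : ℝ) ≤ (N : ℝ) + R + n + 1 := by
        have := Nat.card_divisors_le_self (N + (n + R + 1))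
        have h2 : ((Nat.divisors (N + (n + R + 1))).card : ℝ) ≤ ((N + (n + R + 1) : ℕ) : ℝ) := by
          exact_mod_cast this
        push_cast at h2
        linarith
      have h3 : ((Nat.divisors (N + (n + R + 1))).card : ℝ) / (k : ℝ) ^ (n + R + 1) ≤
          ((N : ℝ) + R + n + 2) / (k : ℝ) ^ (R + n) - ((N : ℝ) + R + (n + 1 : ℕ) + 2) / (k : ℝ) ^ (R + (n + 1)) := by
        have h4 : (k : ℝ) ^ (n + R + 1) = (k : ℝ) ^ (R + n) * k := by
          rw [← pow_succ]; congr 1; omega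
        have h5 : (k : ℝ) ^ (R + (n + 1)) = (k : ℝ) ^ (R + n) * k := by
          rw [← pow_succ]; congr 1
        rw [h4, h5, div_sub_div _ _ (by positivity) (by positivity), div_le_div_iff₀ (by positivity) (by positivity)]
        have h6 : (0 : ℝ) < (k : ℝ) ^ (R + n) := by positivity
        push_cast
        have h7 : ((Nat.divisors (N + (n + R + 1))).card : ℝ) ≤
            ((N : ℝ) + R + n + 2) * k - ((N : ℝ) + R + (n + 1) + 2) := by
          have hn0 : (0 : ℝ) ≤ (N : ℝ) + R + n := by positivity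
          nlinarith
        have h8 : 0 < (k : ℝ) ^ (R + n) * ((k : ℝ) ^ (R + n) * k) := by positivity
        nlinarith [mul_le_mul_of_nonneg_right h7 h8.le]
      linarith
  refine key.trans ?_
  have : (0 : ℝ) ≤ ((N : ℝ) + R + n + 2) / (k : ℝ) ^ (R + n) := by positivity
  linarith

theorem geo {k : ℕ} (hk : 2 ≤ k) (n : ℕ) : ∑ i ∈ Finset.range n, 1 / (k : ℝ) ^ (i + 1) ≤ 1 := by
  have hk' : (2 : ℝ) ≤ k := by exact_mod_cast hk
  have hk0 : (0 : ℝ) < k := by linarith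
  have key : ∑ i ∈ Finset.range n, 1 / (k : ℝ) ^ (i + 1) ≤ 1 - 1 / (k : ℝ) ^ n := by
    induction n with
    | zero => simp
    | succ n ih =>
      rw [Finset.sum_range_succ]
      have h1 : 1 / (k : ℝ) ^ (n + 1) ≤ 1 / (k : ℝ) ^ n - 1 / (k : ℝ) ^ (n + 1) := by
        have h2 : 1 / (k : ℝ) ^ n = k * (1 / (k : ℝ) ^ (n + 1)) := by
          rw [pow_succ]; field_simp
        have h3 : 0 < 1 / (k : ℝ) ^ (n + 1) := by positivity
        nlinarith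
      linarith
  have : 0 < 1 / (k : ℝ) ^ n := by positivity
  linarith

theorem num4 (W M T : ℕ) (hW : 8 ≤ W) (hM : M ≤ 2 ^ (W ^ 7)) (hT : T ≤ 2 ^ (W ^ 7 + 1)) :
    M * (W + 2 + T) + W ^ 8 + 2 ≤ 2 ^ (W ^ 8 - W) := by
  have h0 := num3 W hW
  have h1 : W + 2 + T ≤ 2 ^ (W ^ 7) + 2 ^ (W ^ 7 + 1) := by
    have : W + 2 ≤ 2 ^ (W ^ 7) := by
      have : 0 ≤ W ^ 8 := Nat.zero_le _
      omega
    omega
  have h2 : M * (W + 2 + T) ≤ 2 ^ (W ^ 7) * (2 ^ (W ^ 7) + 2 ^ (W ^ 7 + 1)) := Nat.mul_le_mul hM h1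
  have h3 : W ^ 8 + 2 ≤ 2 ^ (W ^ 7) := by omega
  have h4 : 1 ≤ 2 ^ (W ^ 7) := Nat.one_le_two_pow
  have h5 : 2 ^ (W ^ 7) * (2 ^ (W ^ 7) + 2 ^ (W ^ 7 + 1)) + 2 ^ (W ^ 7) ≤ 2 ^ (2 * W ^ 7 + 2) := by
    have : 2 ^ (2 * W ^ 7 + 2) = 4 * (2 ^ (W ^ 7) * 2 ^ (W ^ 7)) := by
      rw [pow_add, two_mul, pow_add]; ring
    rw [this, pow_succ 2 (W ^ 7)]
    generalize 2 ^ (W ^ 7) = X at h4
    nlinarith [Nat.mul_le_mul h4 (le_refl X)]
  have h6 : 2 * W ^ 7 + 2 ≤ W ^ 8 - W := by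
    apply Nat.le_sub_of_add_le
    have h7 : W ≤ W ^ 7 := Nat.le_self_pow (by norm_num) W
    have h8 : W ^ 8 = W ^ 7 * W := by ring
    rw [h8]
    have h9 : W ^ 7 * 8 ≤ W ^ 7 * W := Nat.mul_le_mul_left _ hW
    omega
  calc M * (W + 2 + T) + W ^ 8 + 2 ≤ 2 ^ (W ^ 7) * (2 ^ (W ^ 7) + 2 ^ (W ^ 7 + 1)) + 2 ^ (W ^ 7) := by omega
    _ ≤ 2 ^ (2 * W ^ 7 + 2) := h5
    _ ≤ 2 ^ (W ^ 8 - W) := Nat.pow_le_pow_right (by norm_num) h6

theorem num5 (W T : ℕ) (hW : 8 ≤ W) (hT0 : 0 < T) (hT : T ≤ 2 ^ (W ^ 7 + 1)) :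
    2 * (2 * (W : ℝ) * (1 + Real.log T) + 2) + 1 ≤ (W : ℝ) ^ 10 := by
  have h1 : Real.log T ≤ (W : ℝ) ^ 7 + 1 := by
    have h2 : Real.log T ≤ Real.log ((2 : ℝ) ^ (W ^ 7 + 1)) := by
      apply Real.log_le_log (by exact_mod_cast hT0)
      exact_mod_cast hT
    rw [Real.log_pow] at h2
    have h3 : Real.log 2 ≤ 1 := by linarith [Real.log_two_lt_d9]
    push_cast at h2
    have h4 : (0 : ℝ) ≤ (W : ℝ) ^ 7 + 1 := by positivity
    nlinarith
  have hW' : (8 : ℝ) ≤ W := by exact_mod_cast hW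
  have h5 : 2 * (2 * (W : ℝ) * (1 + Real.log T) + 2) + 1 ≤ 2 * (2 * (W : ℝ) * (1 + ((W : ℝ) ^ 7 + 1)) + 2) + 1 := by
    nlinarith
  refine h5.trans ?_
  have h6 : 2 * (2 * (W : ℝ) * (1 + ((W : ℝ) ^ 7 + 1)) + 2) + 1 = 4 * (W : ℝ) ^ 8 + 8 * W + 5 := by ring
  rw [h6]
  have h7 : (64 : ℝ) ≤ (W : ℝ) ^ 2 := by nlinarith
  have h8 : (1 : ℝ) ≤ (W : ℝ) ^ 7 := one_le_pow₀ (by linarith)
  have h9 : (W : ℝ) ≤ (W : ℝ) ^ 8 := by
    have : (W : ℝ) ^ 8 = (W : ℝ) ^ 7 * W := by ring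
    rw [this]; nlinarith
  have h10 : (W : ℝ) ^ 10 = (W : ℝ) ^ 8 * (W : ℝ) ^ 2 := by ring
  rw [h10]
  nlinarith

theorem good_N {k : ℕ} (hk : 2 ≤ k) (m c h : ℕ) (hm : 1 ≤ m) (hW8 : 8 ≤ k ^ m) (hh : h ≤ k ^ m)
    (hc : c + 10 * m < k ^ m) :
    ∃ N f : ℕ, 1 ≤ f ∧ N + 1 = k ^ m * f + h ∧
      (k : ℝ) ^ c ≤ (k : ℝ) ^ (k ^ m) * Int.fract ((k : ℝ) ^ N * A k) ∧
      (k : ℝ) ^ (k ^ m) * Int.fract ((k : ℝ) ^ N * A k) ≤ (k : ℝ) ^ (c + 10 * m) := by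
  have hk' : (2 : ℝ) ≤ k := by exact_mod_cast hk
  have hk0 : (0 : ℝ) < k := by linarith
  have hkm : k ≤ k ^ m := Nat.le_self_pow (by omega) k
  obtain ⟨W, hWdef⟩ : ∃ W, W = k ^ m := ⟨_, rfl⟩
  have hW10 : (W : ℝ) ^ 10 = (k : ℝ) ^ (10 * m) := by
    rw [hWdef]; push_cast; rw [← pow_mul]; congr 1; ring
  rw [← hWdef] at hkm hW8 hh hc ⊢
  have hWR : W < W ^ 8 := by
    have : W ^ 8 = W * W ^ 7 := by ring
    rw [this]
    have h7 : 2 ≤ W ^ 7 := by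
      calc 2 ≤ W := by omega
        _ ≤ W ^ 7 := Nat.le_self_pow (by norm_num) W
    nlinarith
  obtain ⟨a, M, P, hM0, hMb, haM, hmod, hdvd, hP0, hPM, hPa, h1, h2, h3, h4⟩ :=
    construct k m W (W ^ 8) W c (h + (W - 1)) hk (by omega) le_rfl (by omega) hWR (by omega)
  simp only [← hWdef] at hMb hmod hdvd h3 h4
  have hMle : M ≤ 2 ^ (W ^ 7) := num2 k W M hW8 hkm hMb
  obtain ⟨T, hTdef⟩ : ∃ T, T = M + W ^ 8 + h + 2 := ⟨_, rfl⟩
  have hT0 : 0 < T := by omega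
  have hTle : T ≤ 2 ^ (W ^ 7 + 1) := by
    have := num3 W hW8
    rw [pow_succ]
    omega
  -- the shifted averages
  have hM' : 0 < M / P := Nat.div_pos (Nat.le_of_dvd hM0 hPM) hP0
  have avc := avg_tau ((a + W) / P + (M / P) * (h + 1)) (M / P) T W (by positivity) hM' (by
      have e1 : (a + W) / P ≤ a + W := Nat.div_le_self _ _
      have e2 : M / P ≤ M := Nat.div_le_self _ _
      have e3 : (M / P) * (h + 1) ≤ M * (h + 1) := Nat.mul_le_mul_right _ e2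
      have e4 : (M / P) * T ≤ M * T := Nat.mul_le_mul_right _ e2
      have e5 : a + W + M * (h + 1) + M * T ≤ T ^ 2 := by
        have e6 : T ^ 2 = M * T + (W ^ 8 + h + 2) * T := by
          rw [pow_two]; nth_rewrite 1 [hTdef]; ring
        have e7 : (W ^ 8 + h + 2) * T ≥ W ^ 8 * 1 + (h + 2) * M := by
          have e8 : M ≤ T := by omega
          have e9 : 1 ≤ T := hT0
          nlinarith [Nat.mul_le_mul_left (W ^ 8) e9, Nat.mul_le_mul_left (h + 2) e8]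
        nlinarith
      omega) (by
      intro t d hd
      apply h3 (h + 1 + t) d
      have : (a + W) / P + (M / P) * (h + 1) + (M / P) * t = (a + W) / P + (M / P) * (h + 1 + t) := by ring
      rw [← this]; exact hd)
  have avj : ∀ j, W < j → j ≤ W ^ 8 → ∑ t ∈ Finset.range T,
      ((Nat.divisors (a + M * (h + 1 + t) + j)).card : ℝ) ≤ T * (2 * W * (1 + Real.log T) + 2) := by
    intro j hj1 hj2
    have := avg_tau (a + j + M * (h + 1)) M T W (by omega) hM0 (by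
      have e6 : T ^ 2 = M * T + (W ^ 8 + h + 2) * T := by
        rw [pow_two]; nth_rewrite 1 [hTdef]; ring
      have e7 : (W ^ 8 + h + 2) * T ≥ W ^ 8 * 1 + (h + 2) * M := by
        have e8 : M ≤ T := by omega
        have e9 : 1 ≤ T := hT0
        nlinarith [Nat.mul_le_mul_left (W ^ 8) e9, Nat.mul_le_mul_left (h + 2) e8]
      nlinarith) (by
      intro t d hd
      apply h4 j hj1 hj2 (h + 1 + t) d
      have : a + j + M * (h + 1) + M * t = a + j + M * (h + 1 + t) := by ring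
      rw [← this]; exact hd)
    refine le_trans (le_of_eq ?_) this
    apply Finset.sum_congr rfl
    intro t _
    congr 3
    ring
  obtain ⟨E, hE⟩ : ∃ E : ℝ, E = 2 * W * (1 + Real.log T) + 2 := ⟨_, rfl⟩
  have hEle : 2 * E + 1 ≤ (k : ℝ) ^ (10 * m) := by
    rw [← hW10, hE]; exact num5 W T hW8 hT0 hTle
  rw [← hE] at avc avj
  have hE0 : 0 ≤ E := by
    rw [hE]
    have : 0 ≤ Real.log T := Real.log_nonneg (by exact_mod_cast hT0)
    positivity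
  -- choice of t
  have avc' : ∑ t ∈ Finset.range T, ((Nat.divisors ((a + W) / P + (M / P) * (h + 1 + t))).card : ℝ) ≤ T * E := by
    refine le_trans (le_of_eq ?_) avc
    apply Finset.sum_congr rfl
    intro t _
    congr 3
    ring
  obtain ⟨t, htT, ht⟩ : ∃ t ∈ Finset.range T,
      ((Nat.divisors ((a + W) / P + (M / P) * (h + 1 + t))).card : ℝ) +
      ∑ j ∈ Finset.Ico W (W ^ 8), ((Nat.divisors (a + M * (h + 1 + t) + (j + 1))).card : ℝ) / (k : ℝ) ^ (j + 1 - W)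
      ≤ 2 * E := by
    apply Finset.exists_le_of_sum_le (by simpa using (by omega : T ≠ 0))
    rw [Finset.sum_add_distrib, Finset.sum_comm]
    have e1 : ∑ j ∈ Finset.Ico W (W ^ 8), ∑ t ∈ Finset.range T,
        ((Nat.divisors (a + M * (h + 1 + t) + (j + 1))).card : ℝ) / (k : ℝ) ^ (j + 1 - W) ≤
        ∑ j ∈ Finset.Ico W (W ^ 8), (T * E) * (1 / (k : ℝ) ^ (j + 1 - W)) := by
      apply Finset.sum_le_sum
      intro j hj
      rw [Finset.mem_Ico] at hj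
      rw [← Finset.sum_div, div_eq_mul_one_div]
      exact mul_le_mul_of_nonneg_right (avj (j + 1) (by omega) (by omega)) (by positivity)
    have e2 : ∑ j ∈ Finset.Ico W (W ^ 8), (T * E) * (1 / (k : ℝ) ^ (j + 1 - W)) ≤ T * E := by
      rw [← Finset.mul_sum, Finset.sum_Ico_eq_sum_range]
      have e3 : ∑ i ∈ Finset.range (W ^ 8 - W), 1 / (k : ℝ) ^ (W + i + 1 - W) =
          ∑ i ∈ Finset.range (W ^ 8 - W), 1 / (k : ℝ) ^ (i + 1) := by
        apply Finset.sum_congr rfl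
        intro i _
        congr 2
        omega
      rw [e3]
      have e4 := geo hk (W ^ 8 - W)
      have e5 : 0 ≤ (T : ℝ) * E := by positivity
      nlinarith
    rw [Finset.sum_const, Finset.card_range, nsmul_eq_mul]
    nlinarith
  rw [Finset.mem_range] at htT
  obtain ⟨N, hN⟩ : ∃ N, N = a + M * (h + 1 + t) := ⟨_, rfl⟩
  obtain ⟨τc, hτc⟩ : ∃ τc : ℝ, τc = ((Nat.divisors ((a + W) / P + (M / P) * (h + 1 + t))).card : ℝ) := ⟨_, rfl⟩
  have hτc1 : 1 ≤ τc := by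
    rw [hτc]
    have : 0 < (Nat.divisors ((a + W) / P + (M / P) * (h + 1 + t))).card := by
      rw [Finset.card_pos]
      refine ⟨1, ?_⟩
      rw [Nat.mem_divisors]
      exact ⟨one_dvd _, by positivity⟩
    exact_mod_cast this
  rw [← hN, ← hτc] at ht
  -- N + 1 = W f + h
  obtain ⟨f, hf1, hf2⟩ : ∃ f, 1 ≤ f ∧ N + 1 = W * f + h := by
    obtain ⟨M1, hM1⟩ := hdvd
    have hM1pos : 1 ≤ M1 := by
      rcases Nat.eq_zero_or_pos M1 with h0 | h0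
      · rw [h0, mul_zero] at hM1; omega
      · exact h0
    have hNge : W + h ≤ N := by
      rw [hN, hM1]
      have e1 : W * 1 ≤ W * M1 := Nat.mul_le_mul_left _ hM1pos
      have e2 : W * M1 * (h + 1) ≤ W * M1 * (h + 1 + t) := Nat.mul_le_mul_left _ (by omega)
      have e3 : W * 1 * (h + 1) ≤ W * M1 * (h + 1) := Nat.mul_le_mul_right _ e1
      have e4 : W + h ≤ W * 1 * (h + 1) := by nlinarith
      omega
    have hmod2 : h ≡ N + 1 [MOD W] := by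
      have e1 : a ≡ h + (W - 1) [MOD W] := hmod
      have e2 : N ≡ h + (W - 1) + 0 [MOD W] := by
        rw [hN]
        apply Nat.ModEq.add e1
        rw [Nat.modEq_zero_iff_dvd, hM1, mul_assoc]
        exact dvd_mul_right _ _
      have e3 : N + 1 ≡ h + (W - 1) + 0 + 1 [MOD W] := Nat.ModEq.add_right 1 e2
      have e4 : h + (W - 1) + 0 + 1 = h + W := by omega
      rw [e4] at e3
      have e5 : h + W ≡ h [MOD W] := by
        have := (Nat.ModEq.refl h (n := W)).add (show W ≡ 0 [MOD W] by simp [Nat.ModEq])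
        simpa using this
      exact (e3.trans e5).symm
    obtain ⟨f, hf⟩ := (Nat.modEq_iff_dvd' (by omega : h ≤ N + 1)).1 hmod2
    refine ⟨f, ?_, by omega⟩
    rcases Nat.eq_zero_or_pos f with h0 | h0
    · rw [h0, mul_zero] at hf; omega
    · exact h0
  refine ⟨N, f, hf1, hf2, ?_⟩
  obtain ⟨hS, hfr⟩ := A_fract hk N
  rw [hfr]
  -- decomposition
  have hfirst : ∃ z : ℤ, ∑ j ∈ Finset.range W, ((Nat.divisors (N + (j + 1))).card : ℝ) / (k : ℝ) ^ (j + 1) =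
      z + (k : ℝ) ^ c * τc / (k : ℝ) ^ W := by
    obtain ⟨V, hV⟩ : ∃ V, W = V + 1 := ⟨W - 1, by omega⟩
    have e1 : ∑ j ∈ Finset.range W, ((Nat.divisors (N + (j + 1))).card : ℝ) / (k : ℝ) ^ (j + 1) =
        ∑ j ∈ Finset.range V, ((Nat.divisors (N + (j + 1))).card : ℝ) / (k : ℝ) ^ (j + 1) +
        ((Nat.divisors (N + (V + 1))).card : ℝ) / (k : ℝ) ^ (V + 1) := by
      rw [show Finset.range W = Finset.range (V + 1) by rw [hV], Finset.sum_range_succ]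
    have e2 : ((Nat.divisors (N + (V + 1))).card : ℝ) = (k : ℝ) ^ c * τc := by
      rw [← hV, hN, h2 (h + 1 + t), hτc]
      push_cast
      ring
    have e3 : ∀ j, ∃ z : ℤ, j < V → ((Nat.divisors (N + (j + 1))).card : ℝ) / (k : ℝ) ^ (j + 1) = z := by
      intro j
      by_cases hj : j < V
      · obtain ⟨q, hq⟩ := h1 (h + 1 + t) (j + 1) (by omega) (by omega) (by omega)
        refine ⟨(k : ℤ) ^ (W - (j + 1)) * q, fun _ => ?_⟩
        rw [hN, hq]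
        have e4 : (k : ℝ) ^ W = (k : ℝ) ^ (W - (j + 1)) * (k : ℝ) ^ (j + 1) := by
          rw [← pow_add]; congr 1; omega
        push_cast
        rw [e4]
        field_simp
      · exact ⟨0, fun h' => absurd h' hj⟩
    choose zz hzz using e3
    refine ⟨∑ j ∈ Finset.range V, zz j, ?_⟩
    rw [e1, e2, ← hV]
    congr 1
    push_cast
    apply Finset.sum_congr rfl
    intro j hj
    exact hzz j (Finset.mem_range.1 hj)
  obtain ⟨z, hz⟩ := hfirst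
  have hsplit := hS.sum_add_tsum_nat_add (W ^ 8)
  rw [← Finset.sum_range_add_sum_Ico _ hWR.le, hz] at hsplit
  obtain ⟨t1, ht1⟩ : ∃ t1 : ℝ, t1 = ∑ j ∈ Finset.Ico W (W ^ 8), ((Nat.divisors (N + (j + 1))).card : ℝ) / (k : ℝ) ^ (j + 1) := ⟨_, rfl⟩
  obtain ⟨t2, ht2⟩ : ∃ t2 : ℝ, t2 = ∑' j : ℕ, ((Nat.divisors (N + (j + W ^ 8 + 1))).card : ℝ) / (k : ℝ) ^ (j + W ^ 8 + 1) := ⟨_, rfl⟩
  rw [← ht1, ← ht2] at hsplit
  have ht10 : 0 ≤ t1 := by rw [ht1]; positivity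
  have ht20 : 0 ≤ t2 := by rw [ht2]; positivity
  have hWpos : (0 : ℝ) < (k : ℝ) ^ W := by positivity
  have hb1 : (k : ℝ) ^ W * t1 = ∑ j ∈ Finset.Ico W (W ^ 8), ((Nat.divisors (N + (j + 1))).card : ℝ) / (k : ℝ) ^ (j + 1 - W) := by
    rw [ht1, Finset.mul_sum]
    apply Finset.sum_congr rfl
    intro j hj
    rw [Finset.mem_Ico] at hj
    have e : (k : ℝ) ^ (j + 1) = (k : ℝ) ^ W * (k : ℝ) ^ (j + 1 - W) := by
      rw [← pow_add]; congr 1; omega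
    rw [e]; field_simp
  have hb2 : (k : ℝ) ^ W * t2 ≤ 1 := by
    have e1 := tail2 hk N (W ^ 8)
    rw [← ht2] at e1
    have e2 : (k : ℝ) ^ (W ^ 8) = (k : ℝ) ^ W * (k : ℝ) ^ (W ^ 8 - W) := by
      rw [← pow_add]; congr 1; omega
    have e3 : ((N : ℝ) + (W ^ 8 : ℕ) + 2) ≤ (k : ℝ) ^ (W ^ 8 - W) := by
      have e4 := num4 W M T hW8 hMle hTle
      have e5 : N + W ^ 8 + 2 ≤ 2 ^ (W ^ 8 - W) := by
        refine le_trans ?_ e4
        rw [hN]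
        have e6 : a + M * (h + 1 + t) ≤ M * (W + 2 + T) := by
          calc a + M * (h + 1 + t) ≤ M * 1 + M * (h + 1 + t) := by omega
            _ = M * (1 + (h + 1 + t)) := by ring
            _ ≤ M * (W + 2 + T) := Nat.mul_le_mul_left _ (by omega)
        omega
      have e7 : ((N + W ^ 8 + 2 : ℕ) : ℝ) ≤ ((2 ^ (W ^ 8 - W) : ℕ) : ℝ) := by exact_mod_cast e5
      push_cast at e7 ⊢
      refine e7.trans ?_
      exact pow_le_pow_left₀ (by norm_num) hk' _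
    rw [e2] at e1
    have e8 : (0 : ℝ) < (k : ℝ) ^ (W ^ 8 - W) := by positivity
    calc (k : ℝ) ^ W * t2 ≤ (k : ℝ) ^ W * (((N : ℝ) + (W ^ 8 : ℕ) + 2) / ((k : ℝ) ^ W * (k : ℝ) ^ (W ^ 8 - W))) :=
          mul_le_mul_of_nonneg_left e1 hWpos.le
      _ = ((N : ℝ) + (W ^ 8 : ℕ) + 2) / (k : ℝ) ^ (W ^ 8 - W) := by field_simp
      _ ≤ 1 := by rw [div_le_one e8]; exact e3
  obtain ⟨x, hx⟩ : ∃ x : ℝ, x = (k : ℝ) ^ c * τc / (k : ℝ) ^ W + t1 + t2 := ⟨_, rfl⟩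
  have hy : ∑' j : ℕ, ((Nat.divisors (N + (j + 1))).card : ℝ) / (k : ℝ) ^ (j + 1) = z + x := by
    rw [← hsplit, hx]; ring
  have hkc : (1 : ℝ) ≤ (k : ℝ) ^ c := one_le_pow₀ (by linarith)
  have hx1 : (k : ℝ) ^ W * x = (k : ℝ) ^ c * τc + (k : ℝ) ^ W * t1 + (k : ℝ) ^ W * t2 := by
    rw [hx]; field_simp
  have hxlow : (k : ℝ) ^ c ≤ (k : ℝ) ^ W * x := by
    rw [hx1]
    have : 0 ≤ (k : ℝ) ^ W * t1 + (k : ℝ) ^ W * t2 := by positivity
    nlinarith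
  have hxup : (k : ℝ) ^ W * x ≤ (k : ℝ) ^ (c + 10 * m) := by
    rw [hx1, hb1]
    have e1 : (k : ℝ) ^ c * τc + ∑ j ∈ Finset.Ico W (W ^ 8), ((Nat.divisors (N + (j + 1))).card : ℝ) / (k : ℝ) ^ (j + 1 - W)
        + (k : ℝ) ^ W * t2 ≤ (k : ℝ) ^ c * (2 * E + 1) := by
      have e2 : 0 ≤ ∑ j ∈ Finset.Ico W (W ^ 8), ((Nat.divisors (N + (j + 1))).card : ℝ) / (k : ℝ) ^ (j + 1 - W) := by positivity
      have e3 : 0 ≤ 2 * E + 1 - τc := by linarith
      nlinarith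
    refine e1.trans ?_
    rw [pow_add]
    exact mul_le_mul_of_nonneg_left hEle (by positivity)
  have hx0 : 0 ≤ x := by rw [hx]; positivity
  have hxlt : x < 1 := by
    have e1 : (k : ℝ) ^ (c + 10 * m) < (k : ℝ) ^ W := pow_lt_pow_right₀ (by linarith) hc
    have e2 : (k : ℝ) ^ W * x < (k : ℝ) ^ W * 1 := by linarith
    exact lt_of_mul_lt_mul_left e2 hWpos.le
  have hfx : Int.fract ((z : ℝ) + x) = x := by
    rw [Int.fract_intCast_add, Int.fract_eq_self.2 ⟨hx0, hxlt⟩]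
  rw [hy, hfx]
  exact ⟨hxlow, hxup⟩

end Pool.Agent.H10.Aut
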