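import Mathlib

namespace Pool.Agent.H10.C74

/-- Causal matrix sequences `X(k)`, `k ≥ 0`. -/
abbrev MatSeq (p q : ℕ) : Type := ℕ → Matrix (Fin p) (Fin q) ℝ

/-- Membership in `ℓ₁^{p×q}`. -/
def IsL1 {p q : ℕ} (X : MatSeq p q) : Prop := ∀ i j, Summable fun k => |X k i j|

/-- The product of matrix sequences is convolution. -/
def conv {p q r : ℕ} (X : MatSeq p q) (Y : MatSeq q r) : MatSeq p r :=
  fun k => ∑ t ∈ Finset.range (k + 1), X t * Y (k - t)

/-- The `ℓ_∞`-induced norm `max_i ∑_j ∑_k |X_ij(k)|`. -/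
noncomputable def norm1 {p q : ℕ} (X : MatSeq p q) : ℝ := ⨆ i, ∑ j, ∑' k, |X k i j|

/-- The `(i,j)` entry of the `λ`-transform, as a formal power series. -/
noncomputable def hat {p q : ℕ} (X : MatSeq p q) (i : Fin p) (j : Fin q) : PowerSeries ℝ :=
  PowerSeries.mk fun k => X k i j

/-- `X` is rational: every entry of its transform is a quotient of polynomials. -/
def IsRational {p q : ℕ} (X : MatSeq p q) : Prop :=
  ∀ i j, ∃ N D : Polynomial ℝ, D ≠ 0 ∧ (D : PowerSeries ℝ) * hat X i j = (N : PowerSeries ℝ)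

/-- Full row normal rank: the rows of the transform are linearly independent over the
polynomials (equivalently over the field of rational functions). -/
def FullRowRank {p q : ℕ} (X : MatSeq p q) : Prop :=
  ∀ c : Fin p → Polynomial ℝ, (∀ j, ∑ i, (c i : PowerSeries ℝ) * hat X i j = 0) → c = 0

/-- Full column normal rank. -/
def FullColRank {p q : ℕ} (X : MatSeq p q) : Prop :=
  ∀ c : Fin q → Polynomial ℝ, (∀ i, ∑ j, (c j : PowerSeries ℝ) * hat X i j = 0) → c = 0

/-- The cost `‖H - U Q V‖₁`. -/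
noncomputable def cost {nz nw nu ny : ℕ} (H : MatSeq nz nw) (U : MatSeq nz nu)
    (V : MatSeq ny nw) (Q : MatSeq nu ny) : ℝ :=
  norm1 fun k => H k - conv (conv U Q) V k

/-- `Q` is an optimal solution of `inf_{Q ∈ ℓ₁} ‖H - U Q V‖₁`. -/
def IsOptimal {nz nw nu ny : ℕ} (H : MatSeq nz nw) (U : MatSeq nz nu)
    (V : MatSeq ny nw) (Q : MatSeq nu ny) : Prop :=
  IsL1 Q ∧ ∀ Q' : MatSeq nu ny, IsL1 Q' → cost H U V Q ≤ cost H U V Q'

end Pool.Agent.H10.C74
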