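import Mathlib
import Pool.Agent.H10.C74Defs

namespace Pool.Agent.H10.C74

/-! ### the integer sequence `a k = Re (3+4i)^k` -/

/-- `(3+4i)^k` -/
def z (k : ℕ) : GaussianInt := (⟨3, 4⟩ : GaussianInt) ^ k

/-- real part -/
def a (k : ℕ) : ℤ := (z k).re

/-- imaginary part -/
def b (k : ℕ) : ℤ := (z k).im

lemma a_zero : a 0 = 1 := rfl
lemma b_zero : b 0 = 0 := rfl

lemma a_add (m n : ℕ) : a (m + n) = a m * a n - b m * b n := by
  simp only [a, b, z, pow_add, Zsqrtd.re_mul]
  ring

lemma b_add (m n : ℕ) : b (m + n) = a m * b n + b m * a n := by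
  simp only [a, b, z, pow_add, Zsqrtd.im_mul]

lemma a_succ (n : ℕ) : a (n + 1) = 3 * a n - 4 * b n := by
  rw [a_add]
  have h1 : a 1 = 3 := rfl
  have h2 : b 1 = 4 := rfl
  rw [h1, h2]; ring

lemma b_succ (n : ℕ) : b (n + 1) = 4 * a n + 3 * b n := by
  rw [b_add]
  have h1 : a 1 = 3 := rfl
  have h2 : b 1 = 4 := rfl
  rw [h1, h2]; ring

lemma sq_add_sq (n : ℕ) : a n ^ 2 + b n ^ 2 = 25 ^ n := by
  induction n with
  | zero => simp [a_zero, b_zero]
  | succ n ih =>
    rw [a_succ, b_succ, pow_succ (25 : ℤ), ← ih]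
    ring

/-- `a` is not divisible by 5 -/
lemma a_mod (n : ℕ) : a (n + 1) % 5 = 3 ∧ b (n + 1) % 5 = 4 := by
  induction n with
  | zero => decide
  | succ n ih =>
    obtain ⟨h1, h2⟩ := ih
    rw [a_succ (n + 1), b_succ (n + 1)]
    omega

lemma a_ne_zero (n : ℕ) : a n ≠ 0 := by
  cases n with
  | zero => decide
  | succ n => have := (a_mod n).1; omega

lemma double (k : ℕ) : a (2 * k) = 2 * a k ^ 2 - 25 ^ k := by
  rw [two_mul, a_add, ← sq_add_sq]
  ring

lemma triple (k : ℕ) : a (3 * k) + 25 ^ k * a k = 2 * a (2 * k) * a k := by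
  have h3 : 3 * k = 2 * k + k := by ring
  rw [h3, a_add, ← sq_add_sq]
  have h2 : a (2 * k) = a k * a k - b k * b k := by rw [two_mul, a_add]
  have h2' : b (2 * k) = a k * b k + b k * a k := by rw [two_mul, b_add]
  rw [h2, h2']
  ring

/-- the signs along multiples of `k ≥ 1` are not all positive -/
lemma not_all_pos (k : ℕ) (hk : 1 ≤ k) (h : ∀ j, 0 < a (2 ^ j * k)) : False := by
  have hx : ∀ j, 2 ^ j * (5 ^ k - a k) * 5 ^ (2 ^ j * k) ≤ (5 ^ (2 ^ j * k) - a (2 ^ j * k)) * 5 ^ k := by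
    intro j
    induction j with
    | zero => simp
    | succ j ih =>
      set m := 2 ^ j * k with hm
      have hm2 : 2 ^ (j + 1) * k = 2 * m := by rw [hm]; ring
      rw [hm2, double]
      have h5 : (5 : ℤ) ^ (2 * m) = 5 ^ m * 5 ^ m := by rw [two_mul, pow_add]
      have h25 : (25 : ℤ) ^ m = 5 ^ m * 5 ^ m := by
        rw [← mul_pow]; norm_num
      rw [h5, h25]
      have hpos := h j
      have h5m : (0 : ℤ) < 5 ^ m := by positivity
      have h5k : (0 : ℤ) < 5 ^ k := by positivity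
      have hle : a m ≤ 5 ^ m := by
        have h1 := sq_add_sq m
        have h2 : a m ^ 2 ≤ (5 ^ m) ^ 2 := by
          rw [← pow_mul, mul_comm m 2, pow_mul]
          norm_num
          nlinarith [sq_nonneg (b m)]
        exact abs_le_of_sq_le_sq' h2 h5m.le |>.2
      calc 2 ^ (j + 1) * (5 ^ k - a k) * (5 ^ m * 5 ^ m)
          = 2 * 5 ^ m * (2 ^ j * (5 ^ k - a k) * 5 ^ m) := by ring
        _ ≤ 2 * 5 ^ m * ((5 ^ m - a m) * 5 ^ k) := by
            apply mul_le_mul_of_nonneg_left ih (by positivity)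
        _ ≤ (5 ^ m * 5 ^ m - (2 * a m ^ 2 - 5 ^ m * 5 ^ m)) * 5 ^ k := by
            have : 0 ≤ 2 * (5 ^ m - a m) * a m * 5 ^ k := by
              have := sub_nonneg.2 hle
              positivity
            nlinarith
  have hlt : 1 ≤ 5 ^ k - a k := by
    have h1 := sq_add_sq k
    have h5k : (0 : ℤ) < 5 ^ k := by positivity
    have h2 : a k ^ 2 ≤ (5 ^ k) ^ 2 := by
      rw [← pow_mul, mul_comm k 2, pow_mul]
      norm_num
      nlinarith [sq_nonneg (b k)]
    have h3 := (abs_le_of_sq_le_sq' h2 h5k.le).2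
    obtain ⟨n, rfl⟩ : ∃ n, k = n + 1 := ⟨k - 1, by omega⟩
    have h4 := (a_mod n).1
    have h5 : (5 : ℤ) ^ (n + 1) = 5 * 5 ^ n := by ring
    omega
  -- choose `j` with `2^j ≥ 5^k`
  obtain ⟨j, hj⟩ := pow_unbounded_of_one_lt ((5 : ℤ) ^ k) (one_lt_two)
  have h1 := hx j
  have h2 := h j
  have h5 : (0 : ℤ) < 5 ^ (2 ^ j * k) := by positivity
  have h5k : (0 : ℤ) < 5 ^ k := by positivity
  have h3 : 2 ^ j * 5 ^ (2 ^ j * k) ≤ (2 : ℤ) ^ j * (5 ^ k - a k) * 5 ^ (2 ^ j * k) := by
    have : (0 : ℤ) ≤ 2 ^ j * 5 ^ (2 ^ j * k) := by positivity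
    nlinarith
  nlinarith

/-- the sign sequence -/
noncomputable def eps (k : ℕ) : ℝ := if 0 < a k then 1 else 0

/-- the sign sequence is not eventually periodic -/
lemma not_periodic (N p : ℕ) (hp : 0 < p) (h : ∀ k, N ≤ k → eps (k + p) = eps k) : False := by
  have hmul : ∀ m k, N ≤ k → eps (k + m * p) = eps k := by
    intro m
    induction m with
    | zero => intro k _; simp
    | succ m ih =>
      intro k hk
      have : k + (m + 1) * p = (k + m * p) + p := by ring
      rw [this, h _ (by omega), ih k hk]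
  set K := (N + 1) * p with hK
  have hKN : N ≤ K := by
    have : N + 1 ≤ (N + 1) * p := Nat.le_mul_of_pos_right _ hp
    omega
  have hK1 : 1 ≤ K := by
    have : N + 1 ≤ (N + 1) * p := Nat.le_mul_of_pos_right _ hp
    omega
  have hs : ∀ m, 1 ≤ m → eps (m * K) = eps K := by
    intro m hm
    obtain ⟨m', rfl⟩ : ∃ m', m = m' + 1 := ⟨m - 1, by omega⟩
    have : (m' + 1) * K = K + (m' * (N + 1)) * p := by rw [hK]; ring
    rw [this, hmul _ _ hKN]
  by_cases hpos : 0 < a K
  · apply not_all_pos K hK1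
    intro j
    have h1 := hs (2 ^ j) Nat.one_le_two_pow
    simp only [eps, hpos, if_true] at h1
    by_contra hneg
    rw [if_neg hneg] at h1
    norm_num at h1
  · have hneg : ∀ m, 1 ≤ m → a (m * K) < 0 := by
      intro m hm
      have h1 := hs m hm
      simp only [eps, hpos, if_false] at h1
      have h2 : ¬ 0 < a (m * K) := by
        intro h3
        rw [if_pos h3] at h1
        norm_num at h1
      exact lt_of_le_of_ne (not_lt.1 h2) (a_ne_zero _)
    have h1 := hneg 1 le_rfl
    rw [one_mul] at h1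
    have h2 := hneg 2 (by norm_num)
    have h3 := hneg 3 (by norm_num)
    have ht := triple K
    have h25 : (0 : ℤ) < 25 ^ K := by positivity
    nlinarith

/-- A series whose coefficients are `ρ^k ε_k` with `ε_k ∈ {0,1}` and which is rational has
eventually periodic `ε`. -/
lemma periodic_of_rational (ε : ℕ → ℝ) (hε : ∀ k, ε k = 0 ∨ ε k = 1) (ρ : ℝ) (hρ : ρ ≠ 0)
    (N D : Polynomial ℝ) (hD : D ≠ 0)
    (h : (D : PowerSeries ℝ) * PowerSeries.mk (fun k => ρ ^ k * ε k) = (N : PowerSeries ℝ)) :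
    ∃ M p : ℕ, 0 < p ∧ ∀ k, M ≤ k → ε (k + p) = ε k := by
  set i0 := D.natTrailingDegree with hi0
  set L := D.natDegree with hL
  have hi0L : i0 ≤ L := Polynomial.natTrailingDegree_le_natDegree D
  have hD0 : D.coeff i0 ≠ 0 := by
    rw [hi0]
    exact Polynomial.coeff_natTrailingDegree_ne_zero.2 hD
  set W := L - i0 with hW
  set M0 := N.natDegree + L + 1 with hM0
  -- the recurrence
  have hrec : ∀ m, M0 ≤ m → D.coeff i0 * ε (m + W) =
      - ∑ k ∈ Finset.range W, D.coeff (i0 + (k + 1)) * (ρ ^ (k + 1))⁻¹ * ε (m + W - (k + 1)) := by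
    intro m hm
    set n := m + L with hn
    have hc := congrArg (PowerSeries.coeff n) h
    rw [Polynomial.coeff_coe, Polynomial.coeff_eq_zero_of_natDegree_lt (by omega : N.natDegree < n),
      PowerSeries.coeff_mul,
      Finset.Nat.sum_antidiagonal_eq_sum_range_succ (fun i j => PowerSeries.coeff i
        (D : PowerSeries ℝ) * PowerSeries.coeff j (PowerSeries.mk fun k => ρ ^ k * ε k)) n] at hc
    simp only [Polynomial.coeff_coe, PowerSeries.coeff_mk] at hc
    have hn1 : n.succ = i0 + (W + 1) + m := by omega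
    rw [hn1, Finset.sum_range_add, Finset.sum_range_add] at hc
    have hz1 : ∑ x ∈ Finset.range i0, D.coeff x * (ρ ^ (n - x) * ε (n - x)) = 0 := by
      apply Finset.sum_eq_zero
      intro x hx
      rw [Polynomial.coeff_eq_zero_of_lt_natTrailingDegree (Finset.mem_range.1 hx), zero_mul]
    have hz2 : ∑ x ∈ Finset.range m, D.coeff (i0 + (W + 1) + x) *
        (ρ ^ (n - (i0 + (W + 1) + x)) * ε (n - (i0 + (W + 1) + x))) = 0 := by
      apply Finset.sum_eq_zero
      intro x _
      rw [Polynomial.coeff_eq_zero_of_natDegree_lt (by omega), zero_mul]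
    rw [hz1, hz2, zero_add, add_zero, Finset.sum_range_succ'] at hc
    have hρ' : ρ ^ (m + W) ≠ 0 := pow_ne_zero _ hρ
    have e0 : D.coeff (i0 + 0) * (ρ ^ (n - (i0 + 0)) * ε (n - (i0 + 0)))
        = ρ ^ (m + W) * (D.coeff i0 * ε (m + W)) := by
      have : n - (i0 + 0) = m + W := by omega
      rw [this, add_zero]; ring
    have e1 : ∑ k ∈ Finset.range W, D.coeff (i0 + (k + 1)) *
        (ρ ^ (n - (i0 + (k + 1))) * ε (n - (i0 + (k + 1))))
        = ρ ^ (m + W) * ∑ k ∈ Finset.range W,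
          D.coeff (i0 + (k + 1)) * (ρ ^ (k + 1))⁻¹ * ε (m + W - (k + 1)) := by
      rw [Finset.mul_sum]
      refine Finset.sum_congr rfl fun k hk => ?_
      have hk' := Finset.mem_range.1 hk
      have h1 : n - (i0 + (k + 1)) = m + W - (k + 1) := by omega
      have h2 : ρ ^ (m + W) = ρ ^ (m + W - (k + 1)) * ρ ^ (k + 1) := by
        rw [← pow_add]; congr 1; omega
      rw [h1, h2]
      have h3 : ρ ^ (k + 1) ≠ 0 := pow_ne_zero _ hρ
      field_simp
    rw [e0, e1, ← mul_add] at hc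
    have := (mul_eq_zero.1 hc.symm.symm).resolve_left hρ'
    linarith
  -- windows determine the next value
  have hstep : ∀ m m', M0 ≤ m → M0 ≤ m' → (∀ i < W, ε (m + i) = ε (m' + i)) →
      ε (m + W) = ε (m' + W) := by
    intro m m' hm hm' hw
    have h1 := hrec m hm
    have h2 := hrec m' hm'
    have h3 : ∑ k ∈ Finset.range W, D.coeff (i0 + (k + 1)) * (ρ ^ (k + 1))⁻¹ * ε (m + W - (k + 1))
        = ∑ k ∈ Finset.range W, D.coeff (i0 + (k + 1)) * (ρ ^ (k + 1))⁻¹ *
          ε (m' + W - (k + 1)) := by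
      refine Finset.sum_congr rfl fun k hk => ?_
      have hk' := Finset.mem_range.1 hk
      have h1 : m + W - (k + 1) = m + (W - (k + 1)) := by omega
      have h2 : m' + W - (k + 1) = m' + (W - (k + 1)) := by omega
      rw [h1, h2, hw _ (by omega)]
    rw [h3, ← h2] at h1
    exact mul_left_cancel₀ hD0 h1
  have hall : ∀ m m', M0 ≤ m → M0 ≤ m' → (∀ i < W, ε (m + i) = ε (m' + i)) →
      ∀ t, ε (m + t) = ε (m' + t) := by
    intro m m' hm hm' hw t
    induction t using Nat.strong_induction_on with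
    | _ t ih =>
      by_cases ht : t < W
      · exact hw t ht
      · have h1 := hstep (m + (t - W)) (m' + (t - W)) (by omega) (by omega) (by
          intro i hi
          have := ih (t - W + i) (by omega)
          rwa [← add_assoc, ← add_assoc] at this)
        have h2 : m + (t - W) + W = m + t := by omega
        have h3 : m' + (t - W) + W = m' + t := by omega
        rwa [h2, h3] at h1
  classical
  let w : ℕ → (Fin W → Bool) := fun m i => decide (ε (M0 + m + i) = 1)
  obtain ⟨m, m', hne, hww⟩ := Finite.exists_ne_map_eq_of_infinite w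
  have hwin : ∀ i < W, ε (M0 + m + i) = ε (M0 + m' + i) := by
    intro i hi
    have := congrFun hww ⟨i, hi⟩
    simp only [w, decide_eq_decide] at this
    rcases hε (M0 + m + i) with h0 | h0 <;> rcases hε (M0 + m' + i) with h1 | h1 <;>
      simp_all
  rcases lt_or_gt_of_ne hne with hlt | hlt
  · refine ⟨M0 + m, m' - m, by omega, fun k hk => ?_⟩
    have := hall (M0 + m) (M0 + m') (by omega) (by omega) hwin (k - (M0 + m))
    have h1 : M0 + m + (k - (M0 + m)) = k := by omega
    have h2 : M0 + m' + (k - (M0 + m)) = k + (m' - m) := by omega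
    rw [h1, h2] at this
    exact this.symm
  · refine ⟨M0 + m', m - m', by omega, fun k hk => ?_⟩
    have := hall (M0 + m) (M0 + m') (by omega) (by omega) hwin (k - (M0 + m'))
    have h1 : M0 + m' + (k - (M0 + m')) = k := by omega
    have h2 : M0 + m + (k - (M0 + m')) = k + (m - m') := by omega
    rw [h1, h2] at this
    exact this

/-- the data `H` -/
noncomputable def H0 : MatSeq 1 3 := fun k => !![0, (1/10 : ℝ) ^ k, (1/10 : ℝ) ^ k * (a k : ℝ)]

/-- the data `U` -/
noncomputable def U0 : MatSeq 1 1 := fun k => if k = 0 then 1 else 0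

/-- the data `V` -/
noncomputable def V0 : MatSeq 1 3 := fun k => if k = 0 then !![1, 1, 1] else 0

lemma abs_a_le (k : ℕ) : |(a k : ℝ)| ≤ 5 ^ k := by
  have h1 := sq_add_sq k
  have h5k : (0 : ℤ) < 5 ^ k := by positivity
  have h2 : a k ^ 2 ≤ (5 ^ k) ^ 2 := by
    rw [← pow_mul, mul_comm k 2, pow_mul]
    norm_num
    nlinarith [sq_nonneg (b k)]
  have h3 : |a k| ≤ 5 ^ k := abs_le_of_sq_le_sq h2 h5k.le
  exact_mod_cast h3

lemma summ_u : Summable fun k : ℕ => |(1/10 : ℝ) ^ k| := by
  have : (fun k : ℕ => |(1/10 : ℝ) ^ k|) = fun k => (1/10 : ℝ) ^ k := by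
    ext k; exact abs_of_pos (by positivity)
  rw [this]
  exact summable_geometric_of_lt_one (by norm_num) (by norm_num)

lemma summ_v : Summable fun k : ℕ => |(1/10 : ℝ) ^ k * (a k : ℝ)| := by
  apply Summable.of_nonneg_of_le (fun k => abs_nonneg _) (fun k => ?_)
    (summable_geometric_of_lt_one (r := (1/2 : ℝ)) (by norm_num) (by norm_num))
  rw [abs_mul, abs_of_pos (by positivity : (0:ℝ) < (1/10) ^ k)]
  calc (1/10 : ℝ) ^ k * |(a k : ℝ)| ≤ (1/10) ^ k * 5 ^ k :=
        mul_le_mul_of_nonneg_left (abs_a_le k) (by positivity)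
    _ = (1/2) ^ k := by rw [← mul_pow]; norm_num

lemma H0_L1 : IsL1 H0 := by
  intro i j
  fin_cases i
  fin_cases j
  · simp [H0]
  · simpa [H0] using summ_u
  · simpa [H0] using summ_v

lemma L1_of_support {p q : ℕ} (X : MatSeq p q) (h : ∀ k, k ≠ 0 → X k = 0) : IsL1 X := by
  intro i j
  apply summable_of_ne_finset_zero (s := {0})
  intro k hk
  rw [h k (by simpa using hk)]
  simp

lemma U0_L1 : IsL1 U0 := L1_of_support _ fun k hk => by simp [U0, hk]
lemma V0_L1 : IsL1 V0 := L1_of_support _ fun k hk => by simp [V0, hk]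

lemma rational_of_support {p q : ℕ} (X : MatSeq p q) (h : ∀ k, k ≠ 0 → X k = 0) :
    IsRational X := by
  intro i j
  refine ⟨Polynomial.C (X 0 i j), 1, one_ne_zero, ?_⟩
  rw [Polynomial.coe_one, one_mul, Polynomial.coe_C]
  ext n
  cases n with
  | zero => simp [hat]
  | succ n => simp [hat, h (n + 1) (by simp)]

lemma U0_rat : IsRational U0 := rational_of_support _ fun k hk => by simp [U0, hk]
lemma V0_rat : IsRational V0 := rational_of_support _ fun k hk => by simp [V0, hk]

lemma a_rec (n : ℕ) : a (n + 2) = 6 * a (n + 1) - 25 * a n := by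
  have h1 := a_succ (n + 1)
  have h2 := b_succ n
  have h3 := a_succ n
  have h4 : n + 2 = n + 1 + 1 := rfl
  rw [h4]
  linarith

lemma H0_rat : IsRational H0 := by
  intro i j
  fin_cases i
  fin_cases j
  · refine ⟨0, 1, one_ne_zero, ?_⟩
    rw [Polynomial.coe_one, one_mul, Polynomial.coe_zero]
    ext n
    simp [hat, H0]
  · refine ⟨1, 1 - Polynomial.C (1/10) * Polynomial.X, ?_, ?_⟩
    · intro h
      have := congrArg (Polynomial.eval 0) h
      simp at this
    · rw [Polynomial.coe_sub, Polynomial.coe_mul, Polynomial.coe_one, Polynomial.coe_C,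
        Polynomial.coe_X, sub_mul, one_mul, mul_assoc]
      ext n
      cases n with
      | zero => simp [hat, H0]
      | succ n =>
        simp only [map_sub, PowerSeries.coeff_C_mul, PowerSeries.coeff_succ_X_mul, hat,
          PowerSeries.coeff_mk]
        simp [H0, PowerSeries.coeff_one, pow_succ]
        ring
  · refine ⟨1 - Polynomial.C (3/10) * Polynomial.X,
      1 - Polynomial.C (6/10) * Polynomial.X + Polynomial.C (25/100) * Polynomial.X ^ 2, ?_, ?_⟩
    · intro h
      have := congrArg (Polynomial.eval 0) h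
      simp at this
    · rw [Polynomial.coe_add, Polynomial.coe_sub, Polynomial.coe_sub, Polynomial.coe_mul,
        Polynomial.coe_mul, Polynomial.coe_mul, Polynomial.coe_one, Polynomial.coe_C,
        Polynomial.coe_C, Polynomial.coe_C, Polynomial.coe_pow,
        Polynomial.coe_X, add_mul, sub_mul, one_mul, mul_assoc, mul_assoc]
      ext n
      match n with
      | 0 => simp [hat, H0, a_zero]
      | 1 =>
        simp only [map_sub, map_add, PowerSeries.coeff_C_mul, PowerSeries.coeff_succ_X_mul, hat,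
          PowerSeries.coeff_mk, pow_two, mul_assoc]
        have h1 : a 1 = 3 := rfl
        simp [H0, PowerSeries.coeff_one, a_zero, h1]
        norm_num
      | (n + 2) =>
        have h4 := a_rec n
        simp only [map_sub, map_add, PowerSeries.coeff_C_mul, PowerSeries.coeff_succ_X_mul, hat,
          PowerSeries.coeff_mk, pow_two, mul_assoc]
        simp [H0, PowerSeries.coeff_one, PowerSeries.coeff_X, h4, pow_succ]
        ring

lemma V0_not_full : ¬ FullColRank V0 := by
  intro h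
  have := h ![1, -1, 0] (by
    intro i
    fin_cases i
    rw [Fin.sum_univ_three]
    have h01 : hat V0 0 0 = hat V0 0 1 := by
      ext n
      simp [hat, V0]
      split_ifs <;> simp
    simp [h01])
  have := congrFun this 0
  simp at this

lemma conv_U0 (Q : MatSeq 1 1) : conv U0 Q = Q := by
  funext k
  rw [conv, Finset.sum_eq_single 0]
  · simp [U0]
  · intro t _ ht
    simp [U0, ht]
  · simp

lemma conv_V0 (Q : MatSeq 1 1) (k : ℕ) : conv Q V0 k = Q k * (!![1, 1, 1] : Matrix (Fin 1) (Fin 3) ℝ) := by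
  rw [conv, Finset.sum_eq_single k]
  · simp [V0]
  · intro t ht htk
    have : k - t ≠ 0 := by
      have := Finset.mem_range.1 ht
      omega
    simp [V0, this]
  · simp

/-- cost at time `k` as a function of `Q(k)` -/
noncomputable def F (k : ℕ) (x : ℝ) : ℝ :=
  |0 - x| + |(1/10 : ℝ) ^ k - x| + |(1/10 : ℝ) ^ k * (a k : ℝ) - x|

lemma F_bound (k : ℕ) (x : ℝ) :
    F k ((1/10) ^ k * eps k) + |x - (1/10) ^ k * eps k| ≤ F k x := by
  have hu : (0:ℝ) < (1/10) ^ k := by positivity
  unfold F eps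
  set u : ℝ := (1/10) ^ k with hudef
  by_cases ha : 0 < a k
  · rw [if_pos ha, mul_one]
    have h1 : (1:ℝ) ≤ (a k : ℝ) := by exact_mod_cast ha
    have hv : u ≤ u * (a k : ℝ) := by nlinarith
    set v : ℝ := u * (a k : ℝ) with hvdef
    rw [abs_of_nonpos (by linarith : 0 - u ≤ 0), sub_self, abs_zero,
      abs_of_nonneg (by linarith : 0 ≤ v - u), abs_sub_comm x u]
    have h2 : -(0 - x) ≤ |0 - x| := neg_le_abs _
    have h3 : v - x ≤ |v - x| := le_abs_self _
    linarith
  · rw [if_neg ha, mul_zero]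
    have h1 : (a k : ℝ) ≤ 0 := by exact_mod_cast not_lt.1 ha
    have hv : u * (a k : ℝ) ≤ 0 := by nlinarith
    set v : ℝ := u * (a k : ℝ) with hvdef
    rw [sub_zero, sub_zero, sub_zero, sub_zero, abs_zero, abs_of_pos hu, abs_of_nonpos hv]
    have h0 : |0 - x| = |x| := by rw [zero_sub, abs_neg]
    have h2 : u - x ≤ |u - x| := le_abs_self _
    have h3 : -(v - x) ≤ |v - x| := neg_le_abs _
    rw [h0]
    linarith

lemma cost_eq (Q : MatSeq 1 1) (hQ : IsL1 Q) :
    cost H0 U0 V0 Q = ∑' k, F k (Q k 0 0) ∧ Summable fun k => F k (Q k 0 0) := by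
  have hq : Summable fun k => |Q k 0 0| := hQ 0 0
  have s0 : Summable fun k => |0 - Q k 0 0| := by simpa using hq
  have s1 : Summable fun k => |(1/10 : ℝ) ^ k - Q k 0 0| :=
    Summable.of_nonneg_of_le (fun k => abs_nonneg _) (fun k => abs_sub _ _) (summ_u.add hq)
  have s2 : Summable fun k => |(1/10 : ℝ) ^ k * (a k : ℝ) - Q k 0 0| :=
    Summable.of_nonneg_of_le (fun k => abs_nonneg _) (fun k => abs_sub _ _) (summ_v.add hq)
  refine ⟨?_, (s0.add s1).add s2⟩
  unfold cost norm1 F
  rw [ciSup_unique, Fin.sum_univ_three, (s0.add s1).tsum_add s2, s0.tsum_add s1, conv_U0]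
  simp [conv_V0, H0, Matrix.mul_apply]

/-- the optimal solution -/
noncomputable def qstar : MatSeq 1 1 := fun k => !![(1/10 : ℝ) ^ k * eps k]

lemma qstar_L1 : IsL1 qstar := by
  intro i j
  fin_cases i
  fin_cases j
  apply Summable.of_nonneg_of_le (fun k => abs_nonneg _) (fun k => ?_) summ_u
  simp only [qstar]
  change |(1/10 : ℝ) ^ k * eps k| ≤ |(1/10 : ℝ) ^ k|
  rw [abs_mul]
  have : |eps k| ≤ 1 := by
    unfold eps
    split_ifs <;> simp
  exact mul_le_of_le_one_right (abs_nonneg _) this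

lemma qstar_opt (Q' : MatSeq 1 1) (hQ' : IsL1 Q') :
    cost H0 U0 V0 qstar ≤ cost H0 U0 V0 Q' := by
  obtain ⟨c1, s1⟩ := cost_eq Q' hQ'
  obtain ⟨c2, s2⟩ := cost_eq qstar qstar_L1
  rw [c1, c2]
  apply s2.tsum_le_tsum _ s1
  intro k
  have h1 := F_bound k (Q' k 0 0)
  have h2 : qstar k 0 0 = (1/10) ^ k * eps k := rfl
  rw [h2]
  have := abs_nonneg (Q' k 0 0 - (1/10) ^ k * eps k)
  linarith

theorem main : ∃ (nz nw nu ny : ℕ) (H : MatSeq nz nw) (U : MatSeq nz nu) (V : MatSeq ny nw),
    1 ≤ nz ∧ 1 ≤ nw ∧ 1 ≤ nu ∧ 1 ≤ ny ∧ IsL1 H ∧ IsL1 U ∧ IsL1 V ∧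
    IsRational H ∧ IsRational U ∧ IsRational V ∧
    ¬ (FullRowRank U ∧ FullColRank V) ∧
    (∃ Q, IsOptimal H U V Q) ∧ ∀ Q, IsOptimal H U V Q → ¬ IsRational Q := by
  refine ⟨1, 3, 1, 1, H0, U0, V0, le_rfl, by norm_num, le_rfl, le_rfl, H0_L1, U0_L1, V0_L1,
    H0_rat, U0_rat, V0_rat, fun h => V0_not_full h.2, ?_, ?_⟩
  · exact ⟨qstar, qstar_L1, fun Q' hQ' => qstar_opt Q' hQ'⟩
  · rintro Q ⟨hQ, hopt⟩ hrat
    -- `Q = qstar`
    obtain ⟨c1, s1⟩ := cost_eq Q hQ
    obtain ⟨c2, s2⟩ := cost_eq qstar qstar_L1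
    have hle := hopt qstar qstar_L1
    rw [c1, c2] at hle
    have hq : ∀ k, qstar k 0 0 = (1/10) ^ k * eps k := fun k => rfl
    have hdsum : Summable fun k => |Q k 0 0 - (1/10) ^ k * eps k| := by
      have h1 : Summable fun k => |Q k 0 0| := hQ 0 0
      have h2 : Summable fun k => |(1/10 : ℝ) ^ k * eps k| := qstar_L1 0 0
      exact Summable.of_nonneg_of_le (fun k => abs_nonneg _) (fun k => abs_sub _ _) (h1.add h2)
    have hsum : ∑' k, |Q k 0 0 - (1/10) ^ k * eps k| ≤ 0 := by
      have h1 : ∑' k, (F k (qstar k 0 0) + |Q k 0 0 - (1/10) ^ k * eps k|)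
          ≤ ∑' k, F k (Q k 0 0) :=
        (s2.add hdsum).tsum_le_tsum (fun k => F_bound k (Q k 0 0)) s1
      rw [s2.tsum_add hdsum] at h1
      linarith
    have hQeq : ∀ k, Q k 0 0 = (1/10) ^ k * eps k := by
      intro k
      have h1 : |Q k 0 0 - (1/10) ^ k * eps k| ≤ 0 :=
        (hdsum.le_tsum k (fun j _ => abs_nonneg _)).trans hsum
      have h2 := abs_nonpos_iff.1 h1
      linarith
    obtain ⟨N, D, hD, hND⟩ := hrat 0 0
    have hhat : hat Q 0 0 = PowerSeries.mk (fun k => (1/10 : ℝ) ^ k * eps k) := by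
      ext n
      simp only [hat, PowerSeries.coeff_mk]
      exact hQeq n
    rw [hhat] at hND
    obtain ⟨M, p, hp, hper⟩ := periodic_of_rational eps (fun k => by
      unfold eps
      split_ifs
      · exact Or.inr rfl
      · exact Or.inl rfl) (1/10) (by norm_num) N D hD hND
    exact not_periodic M p hp hper


end Pool.Agent.H10.C74
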