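import Mathlib

open Complex MvPolynomial

namespace H10.Dau

/-- denominator symbol -/
noncomputable def q (z : ℂ) : ℂ := (1 - z) ^ 2 - 4 * I * (1 - z) + 4
/-- numerator symbol -/
noncomputable def p (z : ℂ) : ℂ := (1 - z) ^ 2 - (4 + 4 * I) * (1 - z) + 4

lemma key (z : ℂ) :
    ‖q z‖ ^ 2 - ‖p z‖ ^ 2 = 16 * (1 - ‖z‖ ^ 2) + 8 * ‖1 - z‖ ^ 2 * (1 - z.re) := by
  simp only [← Complex.normSq_eq_norm_sq, Complex.normSq_apply, q, p]
  simp [pow_two]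
  ring

lemma usq (z : ℂ) : ‖1 - z‖ ^ 2 = 2 * (1 - z.re) - (1 - ‖z‖ ^ 2) := by
  simp only [← Complex.normSq_eq_norm_sq, Complex.normSq_apply]
  simp
  ring

lemma u_le {z : ℂ} (hz : ‖z‖ ≤ 1) : ‖1 - z‖ ≤ 2 := by
  have := norm_sub_le (1 : ℂ) z
  rw [norm_one] at this
  linarith

lemma gap {z : ℂ} (hz : ‖z‖ ≤ 1) : ‖p z‖ ^ 2 + 4 * ‖1 - z‖ ^ 4 ≤ ‖q z‖ ^ 2 := by
  have h1 := key z
  have h2 := usq z
  have h3 : 0 ≤ 1 - ‖z‖ ^ 2 := by nlinarith [norm_nonneg z]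
  have h4 : ‖1 - z‖ ^ 2 ≤ 2 * (1 - z.re) := by linarith
  nlinarith [mul_le_mul_of_nonneg_left h4 (sq_nonneg ‖1 - z‖)]

lemma gap_eq {z : ℂ} (hz : ‖z‖ = 1) : ‖p z‖ ^ 2 + 4 * ‖1 - z‖ ^ 4 = ‖q z‖ ^ 2 := by
  have h1 := key z
  have h2 := usq z
  rw [hz] at h1 h2
  have h4 : 1 - z.re = ‖1 - z‖ ^ 2 / 2 := by linarith
  rw [h4] at h1
  nlinarith

lemma q_le {z : ℂ} (hz : ‖z‖ ≤ 1) : ‖q z‖ ≤ 16 := by
  have h := u_le hz
  have h0 := norm_nonneg (1 - z)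
  calc ‖q z‖ ≤ ‖(1 - z) ^ 2 - 4 * I * (1 - z)‖ + ‖(4 : ℂ)‖ := norm_add_le _ _
    _ ≤ ‖(1 - z) ^ 2‖ + ‖4 * I * (1 - z)‖ + ‖(4 : ℂ)‖ := by gcongr; exact norm_sub_le _ _
    _ = ‖1 - z‖ ^ 2 + 4 * ‖1 - z‖ + 4 := by simp
    _ ≤ 16 := by nlinarith

lemma q_ge_small {z : ℂ} (hu : ‖1 - z‖ ≤ 1 / 3) : 2 ≤ ‖q z‖ := by
  have h0 := norm_nonneg (1 - z)
  have h1 : ‖(4 : ℂ)‖ ≤ ‖q z‖ + ‖4 * I * (1 - z) - (1 - z) ^ 2‖ := by
    have : (4 : ℂ) = q z + (4 * I * (1 - z) - (1 - z) ^ 2) := by unfold q; ring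
    calc ‖(4 : ℂ)‖ = ‖q z + (4 * I * (1 - z) - (1 - z) ^ 2)‖ := by rw [← this]
      _ ≤ _ := norm_add_le _ _
  have h2 : ‖4 * I * (1 - z) - (1 - z) ^ 2‖ ≤ 4 * ‖1 - z‖ + ‖1 - z‖ ^ 2 := by
    refine (norm_sub_le _ _).trans ?_
    simp
  have h3 : ‖(4 : ℂ)‖ = 4 := by simp
  nlinarith

lemma q_ge {z : ℂ} (hz : ‖z‖ ≤ 1) : 2 / 9 ≤ ‖q z‖ := by
  rcases le_total ‖1 - z‖ (1 / 3) with h | h
  · linarith [q_ge_small h]
  · have h1 := gap hz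
    have h2 : (1 / 3 : ℝ) ^ 4 ≤ ‖1 - z‖ ^ 4 := by gcongr
    have h3 : (2 / 9 : ℝ) ^ 2 ≤ ‖q z‖ ^ 2 := by nlinarith [sq_nonneg ‖p z‖]
    exact le_of_sq_le_sq h3 (norm_nonneg _) |> fun h => h

lemma q_pos {z : ℂ} (hz : ‖z‖ ≤ 1) : 0 < ‖q z‖ := by linarith [q_ge hz]

lemma q_ne {z : ℂ} (hz : ‖z‖ ≤ 1) : q z ≠ 0 := norm_pos_iff.1 (q_pos hz)

lemma p_le {z : ℂ} (hz : ‖z‖ ≤ 1) : ‖p z‖ ≤ ‖q z‖ := by
  have h1 := gap hz
  have h2 : ‖p z‖ ^ 2 ≤ ‖q z‖ ^ 2 := by nlinarith [pow_nonneg (norm_nonneg (1 - z)) 4]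
  exact le_of_sq_le_sq h2 (norm_nonneg _)

lemma B_ge {z w : ℂ} (hz : ‖z‖ ≤ 1) (hw : ‖w‖ ≤ 1) :
    ‖1 - z‖ ^ 4 / 8 ≤ ‖q z - w * p z‖ := by
  have h1 := gap hz
  have h2 := p_le hz
  have h3 := q_le hz
  have h4 := q_pos hz
  have h5 : ‖q z‖ - ‖p z‖ ≤ ‖q z - w * p z‖ := by
    have h6 := norm_sub_norm_le (q z) (w * p z)
    have h7 : ‖w * p z‖ ≤ ‖p z‖ := by
      rw [norm_mul]
      exact mul_le_of_le_one_left (norm_nonneg _) hw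
    linarith
  refine le_trans ?_ h5
  have h8 : 4 * ‖1 - z‖ ^ 4 ≤ (‖q z‖ - ‖p z‖) * (‖q z‖ + ‖p z‖) := by nlinarith
  have h9 : (‖q z‖ - ‖p z‖) * (‖q z‖ + ‖p z‖) ≤ (‖q z‖ - ‖p z‖) * 32 := by
    apply mul_le_mul_of_nonneg_left _ (by linarith)
    linarith
  linarith

/-- numerator polynomial -/
noncomputable def PA : MvPolynomial (Fin 2) ℂ := (1 - X 0) ^ 5
/-- denominator polynomial -/
noncomputable def PB : MvPolynomial (Fin 2) ℂ :=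
  ((1 - X 0) ^ 2 - C (4 * I) * (1 - X 0) + C 4)
    - X 1 * ((1 - X 0) ^ 2 - C (4 + 4 * I) * (1 - X 0) + C 4)

lemma evalA (z : Fin 2 → ℂ) : eval z PA = (1 - z 0) ^ 5 := by simp [PA]

lemma evalB (z : Fin 2 → ℂ) : eval z PB = q (z 0) - z 1 * p (z 0) := by
  simp [PB, p, q]

lemma irr : Irreducible (1 - X 0 : MvPolynomial (Fin 2) ℂ) := by
  apply MvPolynomial.irreducible_of_totalDegree_eq_one
  · apply le_antisymm
    · refine (MvPolynomial.totalDegree_sub _ _).trans ?_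
      simp
    · by_contra h
      have h0 : totalDegree (1 - X 0 : MvPolynomial (Fin 2) ℂ) = 0 := by omega
      rw [totalDegree_eq_zero_iff_eq_C] at h0
      have h1 := congrArg (eval (fun _ => (1 : ℂ))) h0
      have h2 := congrArg (eval (fun _ => (0 : ℂ))) h0
      simp only [map_sub, map_one, eval_X, eval_C, sub_self, sub_zero] at h1 h2
      rw [← h1] at h2
      exact one_ne_zero h2
  · intro x hx
    have h := hx 0
    simp at h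
    exact isUnit_iff_ne_zero.2 h

lemma relprime : IsRelPrime PA PB := by
  apply IsRelPrime.pow_left
  rw [Irreducible.isRelPrime_iff_not_dvd irr]
  rintro ⟨c, hc⟩
  have h := congrArg (eval (fun i : Fin 2 => if i = 0 then (1 : ℂ) else 0)) hc
  rw [evalB] at h
  simp [q, p] at h

lemma zeros (z : Fin 2 → ℂ) (hz : ∀ i, ‖z i‖ ≤ 1) (h : eval z PB = 0) :
    (∀ i, ‖z i‖ = 1) ∧ eval z PA = 0 := by
  rw [evalB] at h
  have h1 := B_ge (hz 0) (hz 1)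
  rw [h, norm_zero] at h1
  have h2 : ‖1 - z 0‖ ^ 4 = 0 := le_antisymm (by linarith) (by positivity)
  have h3 : 1 - z 0 = 0 := norm_eq_zero.1 (pow_eq_zero_iff (by norm_num) |>.1 h2)
  have h4 : z 0 = 1 := (sub_eq_zero.1 h3).symm
  have h5 : z 1 = 1 := by
    rw [h4] at h
    simp [q, p] at h
    have h6 : (4 : ℂ) * (1 - z 1) = 0 := by linear_combination h
    have h7 := (mul_eq_zero.1 h6).resolve_left (by norm_num)
    exact (sub_eq_zero.1 h7).symm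
  refine ⟨fun i => ?_, ?_⟩
  · fin_cases i
    · simp [h4]
    · simp [h5]
  · rw [evalA, h3]; simp

/-- the extension -/
noncomputable def FF (z : Fin 2 → ℂ) : ℂ := (1 - z 0) ^ 5 / (q (z 0) - z 1 * p (z 0))

lemma FF_bound (z : Fin 2 → ℂ) (hz : ∀ i, ‖z i‖ ≤ 1) : ‖FF z‖ ≤ 8 * ‖1 - z 0‖ := by
  unfold FF
  have h1 := B_ge (hz 0) (hz 1)
  rcases eq_or_ne (1 - z 0) 0 with h | h
  · rw [h]; simp
  · have h2 : 0 < ‖1 - z 0‖ := norm_pos_iff.2 h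
    rw [norm_div, norm_pow, div_le_iff₀ (lt_of_lt_of_le (by positivity) h1)]
    calc ‖1 - z 0‖ ^ 5 = 8 * ‖1 - z 0‖ * (‖1 - z 0‖ ^ 4 / 8) := by ring
      _ ≤ _ := by gcongr

lemma q_cont : Continuous q := by unfold q; fun_prop
lemma p_cont : Continuous p := by unfold p; fun_prop

lemma FF_cont : ContinuousOn FF {z : Fin 2 → ℂ | ∀ i, ‖z i‖ ≤ 1} := by
  intro z hz
  by_cases h : q (z 0) - z 1 * p (z 0) = 0
  · have h1 := zeros z hz (by rw [evalB]; exact h)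
    have h2 : 1 - z 0 = 0 := by
      have := h1.2
      rw [evalA] at this
      exact pow_eq_zero_iff (by norm_num) |>.1 this
    have hF : FF z = 0 := by unfold FF; rw [h2]; simp
    rw [ContinuousWithinAt, hF]
    have h3 : Filter.Tendsto (fun w : Fin 2 → ℂ => 8 * ‖1 - w 0‖)
        (nhdsWithin z {z : Fin 2 → ℂ | ∀ i, ‖z i‖ ≤ 1}) (nhds 0) := by
      have h4 : Continuous (fun w : Fin 2 → ℂ => 8 * ‖1 - w 0‖) := by fun_prop
      have h5 := h4.tendsto z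
      simp only [h2, norm_zero, mul_zero] at h5
      exact h5.mono_left nhdsWithin_le_nhds
    apply squeeze_zero_norm' _ h3
    filter_upwards [self_mem_nhdsWithin] with w hw
    exact FF_bound w hw
  · apply ContinuousAt.continuousWithinAt
    have c1 : Continuous (fun z : Fin 2 → ℂ => (1 - z 0) ^ 5) := by fun_prop
    have c2 : Continuous (fun z : Fin 2 → ℂ => q (z 0) - z 1 * p (z 0)) :=
      (q_cont.comp (continuous_apply 0)).sub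
        ((continuous_apply 1).mul (p_cont.comp (continuous_apply 0)))
    exact c1.continuousAt.div c2.continuousAt h

end H10.Dau
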