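import Pool.Agent.H10.DauA

open Complex MeasureTheory Metric Set
open scoped Real

namespace H10.Dau

/-- slices of the rational function -/
noncomputable def fn (n : ℕ) (z : ℂ) : ℂ := (1 - z) ^ 5 * p z ^ n / q z ^ (n + 1)

lemma fn_contAt (n : ℕ) {z : ℂ} (hz : ‖z‖ ≤ 1) : ContinuousAt (fn n) z := by
  unfold fn
  have c1 : Continuous (fun z : ℂ => (1 - z) ^ 5 * p z ^ n) :=
    (by fun_prop : Continuous fun z : ℂ => (1 - z) ^ 5).mul (p_cont.pow n)
  exact c1.continuousAt.div (q_cont.pow (n + 1)).continuousAt (pow_ne_zero _ (q_ne hz))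

lemma fn_diffAt (n : ℕ) {z : ℂ} (hz : ‖z‖ ≤ 1) : DifferentiableAt ℂ (fn n) z := by
  have h1 : Differentiable ℂ q := by unfold q; fun_prop
  have h2 : Differentiable ℂ p := by unfold p; fun_prop
  unfold fn
  apply DifferentiableAt.div
  · exact (by fun_prop : Differentiable ℂ fun z : ℂ => (1 - z) ^ 5).differentiableAt.mul
      ((h2 z).pow n)
  · exact (h1 z).pow (n + 1)
  · exact pow_ne_zero _ (q_ne hz)

lemma fn_dc (n : ℕ) : DiffContOnCl ℂ (fn n) (ball 0 1) := by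
  apply DifferentiableOn.diffContOnCl
  rw [closure_ball _ one_ne_zero]
  intro z hz
  rw [mem_closedBall, dist_zero_right] at hz
  exact (fn_diffAt n hz).differentiableWithinAt

lemma fn_eq (n : ℕ) {z : ℂ} (hz : ‖z‖ ≤ 1) : fn n z = (1 - z) ^ 5 / q z * (p z / q z) ^ n := by
  unfold fn
  have := q_ne hz
  rw [div_pow, pow_succ]
  field_simp
  ring

lemma fn_bound0 (n : ℕ) {z : ℂ} (hz : ‖z‖ ≤ 1) :
    ‖fn n z‖ ≤ 9 / 2 * ‖1 - z‖ ^ 5 * ‖p z / q z‖ ^ n := by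
  rw [fn_eq n hz, norm_mul, norm_pow, norm_div, norm_pow]
  have h1 := q_ge hz
  have h2 := q_pos hz
  apply mul_le_mul_of_nonneg_right _ (by positivity)
  rw [div_le_iff₀ h2]
  have h3 : 0 ≤ ‖1 - z‖ ^ 5 := by positivity
  nlinarith

lemma g_le {z : ℂ} (hz : ‖z‖ ≤ 1) : ‖p z / q z‖ ≤ 1 := by
  rw [norm_div]
  exact div_le_one_of_le₀ (p_le hz) (norm_nonneg _)

lemma fn_bound (n : ℕ) {z : ℂ} (hz : ‖z‖ ≤ 1) : ‖fn n z‖ ≤ 144 := by
  have h1 := fn_bound0 n hz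
  have h2 := u_le hz
  have h3 : ‖p z / q z‖ ^ n ≤ 1 := pow_le_one₀ (norm_nonneg _) (g_le hz)
  have h4 : ‖1 - z‖ ^ 5 ≤ 2 ^ 5 := by gcongr
  calc ‖fn n z‖ ≤ 9 / 2 * ‖1 - z‖ ^ 5 * ‖p z / q z‖ ^ n := h1
    _ ≤ 9 / 2 * 2 ^ 5 * 1 := by gcongr
    _ = 144 := by norm_num

/-- Taylor coefficients as Fourier integrals -/
noncomputable def hh (k n : ℕ) : ℂ :=
  (1 / (2 * π) : ℂ) * ∫ θ in (0 : ℝ)..2 * π, exp (-(k * θ * I)) * fn n (exp (θ * I))

lemma cps (n k : ℕ) (z : ℂ) :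
    (cauchyPowerSeries (fn n) 0 1 k fun _ => z) = hh k n * z ^ k := by
  rw [cauchyPowerSeries_apply, circleIntegral, hh, smul_eq_mul]
  have e : ∀ θ : ℝ, deriv (circleMap 0 1) θ • ((z / (circleMap 0 1 θ - 0)) ^ k •
      (circleMap 0 1 θ - 0)⁻¹ • fn n (circleMap 0 1 θ))
      = (I * z ^ k) * (exp (-(k * θ * I)) * fn n (exp (θ * I))) := by
    intro θ
    have h1 : exp (-(k * θ * I)) = (exp (θ * I) ^ k)⁻¹ := by
      rw [Complex.exp_neg, ← Complex.exp_nat_mul]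
      congr 2
      ring
    have h2 : exp (θ * I) ≠ 0 := Complex.exp_ne_zero _
    rw [h1, deriv_circleMap]
    simp only [circleMap_zero, sub_zero, smul_eq_mul, ofReal_one, one_mul]
    rw [div_pow]
    field_simp
  simp_rw [e]
  rw [intervalIntegral.integral_const_mul]
  have hpi : (π : ℂ) ≠ 0 := by exact_mod_cast Real.pi_ne_zero
  field_simp

lemma hs1 (n : ℕ) {z : ℂ} (hz : ‖z‖ < 1) : HasSum (fun k => hh k n * z ^ k) (fn n z) := by
  have h := (fn_dc n).hasFPowerSeriesOnBall (R := 1) (by norm_num)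
  have h1 := h.hasSum (y := z) (by simpa [Metric.mem_eball, edist_zero_right, enorm_eq_nnnorm] using
    (by exact_mod_cast hz))
  simp only [zero_add, NNReal.coe_one, cps] at h1
  exact h1

lemma norm_exp_I (θ : ℝ) : ‖exp (θ * I)‖ = 1 := Complex.norm_exp_ofReal_mul_I θ

lemma norm_exp_k (k : ℕ) (θ : ℝ) : ‖exp (-(k * θ * I))‖ = 1 := by
  have : (-(k * θ * I) : ℂ) = ((-(k * θ) : ℝ) : ℂ) * I := by push_cast; ring
  rw [this]; exact Complex.norm_exp_ofReal_mul_I _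

lemma hh_bound (k n : ℕ) : ‖hh k n‖ ≤ 144 := by
  unfold hh
  rw [norm_mul]
  have h1 : ‖∫ θ in (0 : ℝ)..2 * π, exp (-(k * θ * I)) * fn n (exp (θ * I))‖
      ≤ 144 * |2 * π - 0| := by
    apply intervalIntegral.norm_integral_le_of_norm_le_const
    intro θ _
    rw [norm_mul, norm_exp_k, one_mul]
    exact fn_bound n (norm_exp_I θ).le
  have hp := Real.pi_pos
  have h2 : ‖(1 / (2 * π) : ℂ)‖ = 1 / (2 * π) := by
    rw [norm_div, norm_mul, Complex.norm_real, norm_one, Real.norm_of_nonneg hp.le]; simp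
  rw [h2]
  rw [sub_zero, abs_of_pos (by positivity)] at h1
  calc 1 / (2 * π) * _ ≤ 1 / (2 * π) * (144 * (2 * π)) := by gcongr
    _ = 144 := by field_simp

lemma hs2 (z : Fin 2 → ℂ) (hz : ∀ i, ‖z i‖ < 1) :
    HasSum (fun p : ℕ × ℕ => hh p.1 p.2 * z 0 ^ p.1 * z 1 ^ p.2)
      ((1 - z 0) ^ 5 / (q (z 0) - z 1 * p (z 0))) := by
  have hz0 := (hz 0).le
  have hsum : Summable (fun p : ℕ × ℕ => hh p.1 p.2 * z 0 ^ p.1 * z 1 ^ p.2) := by
    have h1 : Summable (fun x : ℕ × ℕ => ‖z 0‖ ^ x.1 * ‖z 1‖ ^ x.2) :=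
      (summable_geometric_of_lt_one (norm_nonneg _) (hz 0)).mul_of_nonneg
        (summable_geometric_of_lt_one (norm_nonneg _) (hz 1))
        (fun _ => by positivity) (fun _ => by positivity)
    apply Summable.of_norm_bounded (h1.mul_left 144)
    intro x
    rw [norm_mul, norm_mul, norm_pow, norm_pow, mul_assoc]
    gcongr
    exact hh_bound _ _
  have hs : Summable (fun p : ℕ × ℕ => hh p.2 p.1 * z 0 ^ p.2 * z 1 ^ p.1) :=
    (Equiv.prodComm ℕ ℕ).summable_iff.2 hsum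
  have h2 : HasSum (fun n => fn n (z 0) * z 1 ^ n)
      (∑' p : ℕ × ℕ, hh p.2 p.1 * z 0 ^ p.2 * z 1 ^ p.1) := by
    apply hs.hasSum.prod_fiberwise
    intro n
    exact (hs1 n (hz 0)).mul_right (z 1 ^ n)
  have h3 : HasSum (fun n => fn n (z 0) * z 1 ^ n)
      ((1 - z 0) ^ 5 / (q (z 0) - z 1 * p (z 0))) := by
    have hq := q_ne hz0
    have hr : ‖z 1 * (p (z 0) / q (z 0))‖ < 1 := by
      rw [norm_mul]
      have := g_le hz0
      have := hz 1
      nlinarith [norm_nonneg (z 1), norm_nonneg (p (z 0) / q (z 0))]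
    have h4 := (hasSum_geometric_of_norm_lt_one hr).mul_left ((1 - z 0) ^ 5 / q (z 0))
    have e1 : (1 - z 0) ^ 5 / q (z 0) * (1 - z 1 * (p (z 0) / q (z 0)))⁻¹
        = (1 - z 0) ^ 5 / (q (z 0) - z 1 * p (z 0)) := by
      rw [← div_eq_mul_inv, div_div]
      congr 1
      field_simp
    rw [e1] at h4
    have e2 : (fun n => fn n (z 0) * z 1 ^ n)
        = fun n => (1 - z 0) ^ 5 / q (z 0) * (z 1 * (p (z 0) / q (z 0))) ^ n := by
      funext n
      rw [fn_eq n hz0, mul_pow]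
      ring
    rw [e2]
    exact h4
  have h5 := h2.unique h3
  rw [← h5]
  exact (Equiv.prodComm ℕ ℕ).hasSum_iff.1
    (show HasSum ((fun p : ℕ × ℕ => hh p.1 p.2 * z 0 ^ p.1 * z 1 ^ p.2) ∘ Equiv.prodComm ℕ ℕ) _
      from hs.hasSum)

end H10.Dau
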