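import Pool.Agent.H10.DauP

open Complex MeasureTheory Metric Set
open scoped Real ComplexConjugate

namespace H10.Dau

/-- distance from 1 along the circle -/
noncomputable def uu (θ : ℝ) : ℝ := ‖1 - exp (θ * I)‖

lemma uu_nonneg (θ : ℝ) : 0 ≤ uu θ := norm_nonneg _

lemma uu_eq (θ : ℝ) : uu θ = 2 * |Real.sin (θ / 2)| := by
  unfold uu
  rw [norm_sub_rev, mul_comm (θ : ℂ) I, Complex.norm_exp_I_mul_ofReal_sub_one, Real.norm_eq_abs,
    abs_mul]
  simp

lemma uu_le (θ : ℝ) : uu θ ≤ |θ| := by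
  unfold uu
  rw [norm_sub_rev, mul_comm (θ : ℂ) I]
  exact Real.norm_exp_I_mul_ofReal_sub_one_le

lemma uu_ge {θ : ℝ} (h : |θ| ≤ π) : |θ| / 2 ≤ uu θ := by
  rw [uu_eq]
  have h1 : |θ / 2| ≤ π / 2 := by rw [abs_div, abs_two]; linarith
  have h2 := Real.mul_abs_le_abs_sin h1
  have hp := Real.pi_pos
  have hp4 := Real.pi_le_four
  have h3 : (1 : ℝ) / 2 ≤ 2 / π := by
    rw [div_le_div_iff₀ (by norm_num) hp]; linarith
  have h4 : |θ / 2| = |θ| / 2 := by rw [abs_div, abs_two]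
  rw [h4] at h2
  have h5 : 1 / 2 * (|θ| / 2) ≤ 2 / π * (|θ| / 2) := by gcongr
  linarith

lemma uu_le_two (θ : ℝ) : uu θ ≤ 2 := u_le (norm_exp_I θ).le

lemma g_sq {θ : ℝ} : ‖p (exp (θ * I)) / q (exp (θ * I))‖ ^ 2
    = 1 - 4 * uu θ ^ 4 / ‖q (exp (θ * I))‖ ^ 2 := by
  have h1 := gap_eq (norm_exp_I θ)
  have h2 := q_pos (norm_exp_I θ).le
  rw [norm_div, div_pow, eq_sub_iff_add_eq, ← add_div, div_eq_one_iff_eq (by positivity)]
  exact h1

lemma g_pow_le (n : ℕ) (θ : ℝ) : ‖p (exp (θ * I)) / q (exp (θ * I))‖ ^ n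
    ≤ Real.exp (-(n * uu θ ^ 4 / 128)) := by
  have h0 := norm_nonneg (p (exp (θ * I)) / q (exp (θ * I)))
  have h2 := q_pos (norm_exp_I θ).le
  have h3 := q_le (norm_exp_I θ).le
  have h4 : uu θ ^ 4 / 64 ≤ 4 * uu θ ^ 4 / ‖q (exp (θ * I))‖ ^ 2 := by
    rw [div_le_div_iff₀ (by norm_num) (by positivity)]
    have h5 : ‖q (exp (θ * I))‖ ^ 2 ≤ 16 ^ 2 := by gcongr
    have := pow_nonneg (uu_nonneg θ) 4
    nlinarith
  have h6 : ‖p (exp (θ * I)) / q (exp (θ * I))‖ ^ 2 ≤ Real.exp (-(uu θ ^ 4 / 64)) := by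
    rw [g_sq]
    have := Real.add_one_le_exp (-(uu θ ^ 4 / 64))
    linarith
  have h7 : ‖p (exp (θ * I)) / q (exp (θ * I))‖ ≤ Real.exp (-(uu θ ^ 4 / 128)) := by
    apply le_of_sq_le_sq _ (Real.exp_nonneg _)
    rw [← Real.exp_nat_mul]
    refine h6.trans (le_of_eq ?_)
    congr 1
    push_cast
    ring
  calc _ ≤ Real.exp (-(uu θ ^ 4 / 128)) ^ n := by gcongr
    _ = _ := by
      rw [← Real.exp_nat_mul]
      congr 1
      ring

lemma expb {x : ℝ} (hx : 0 ≤ x) {j : ℕ} (hj : j ≤ 8) :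
    x ^ j * Real.exp (-(x ^ 4 / 128)) ≤ 32769 := by
  have h1 : x ^ j ≤ 1 + x ^ 8 := by
    rcases le_total x 1 with h | h
    · have := pow_le_one₀ (n := j) hx h
      have : 0 ≤ x ^ 8 := by positivity
      linarith
    · have := pow_le_pow_right₀ h hj
      linarith
  have he := Real.exp_pos (-(x ^ 4 / 128))
  have h2 : Real.exp (-(x ^ 4 / 128)) ≤ 1 := Real.exp_le_one_iff.2 (by
    have : 0 ≤ x ^ 4 := by positivity
    linarith)
  have h3 : x ^ 8 * Real.exp (-(x ^ 4 / 128)) ≤ 32768 := by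
    have h4 : (x ^ 4 / 128) ^ 2 / 2 ≤ Real.exp (x ^ 4 / 128) := by
      have := Real.quadratic_le_exp_of_nonneg (x := x ^ 4 / 128) (by positivity)
      have : 0 ≤ x ^ 4 / 128 := by positivity
      linarith
    rw [Real.exp_neg, ← div_eq_mul_inv, div_le_iff₀ (Real.exp_pos _)]
    calc x ^ 8 = 32768 * ((x ^ 4 / 128) ^ 2 / 2) := by ring
      _ ≤ _ := by gcongr
  calc x ^ j * Real.exp (-(x ^ 4 / 128)) ≤ (1 + x ^ 8) * Real.exp (-(x ^ 4 / 128)) := by gcongr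
    _ = Real.exp (-(x ^ 4 / 128)) + x ^ 8 * Real.exp (-(x ^ 4 / 128)) := by ring
    _ ≤ 32769 := by linarith

/-- lower bound for the energy of a slice -/
lemma energy_lower {n : ℕ} {N : ℝ} (hN : 2 ≤ N) (hn : N ^ 4 = n) :
    (1 / (4 * 8 ^ 10 * 512)) / N ^ 11 ≤ ∫ θ in (0 : ℝ)..2 * π, ‖fn n (exp (θ * I))‖ ^ 2 := by
  have hp := Real.pi_gt_three
  have hN0 : 0 < N := by linarith
  have ha : 1 / (4 * N) ≤ 1 / (2 * N) := by
    apply one_div_le_one_div_of_le (by positivity); linarith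
  have hb : 1 / (2 * N) ≤ 1 / 4 := by
    apply one_div_le_one_div_of_le (by norm_num); linarith
  have ha0 : 0 < 1 / (4 * N) := by positivity
  have hcont : Continuous (fun θ : ℝ => ‖fn n (exp (θ * I))‖ ^ 2) := (fnexp_cont n).norm.pow 2
  have h1 : ∫ θ in (1 / (4 * N))..(1 / (2 * N)), ‖fn n (exp (θ * I))‖ ^ 2
      ≤ ∫ θ in (0 : ℝ)..2 * π, ‖fn n (exp (θ * I))‖ ^ 2 := by
    apply intervalIntegral.integral_mono_interval ha0.le ha (by linarith)
    · exact Filter.Eventually.of_forall fun θ => by positivity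
    · exact hcont.intervalIntegrable _ _
  refine le_trans ?_ h1
  have h2 : ∫ _θ in (1 / (4 * N))..(1 / (2 * N)), ((1 / (8 * N)) ^ 10 / 512 : ℝ)
      ≤ ∫ θ in (1 / (4 * N))..(1 / (2 * N)), ‖fn n (exp (θ * I))‖ ^ 2 := by
    apply intervalIntegral.integral_mono_on ha intervalIntegrable_const
      (hcont.intervalIntegrable _ _)
    intro θ hθ
    have hθ0 : 0 < θ := lt_of_lt_of_le ha0 hθ.1
    have habs : |θ| = θ := abs_of_pos hθ0
    have hθπ : |θ| ≤ π := by rw [habs]; linarith [hθ.2]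
    have u1 := uu_ge hθπ
    have u2 := uu_le θ
    rw [habs] at u1 u2
    have u3 : 1 / (8 * N) ≤ uu θ := by
      have : 1 / (8 * N) = 1 / (4 * N) / 2 := by field_simp; norm_num
      rw [this]; linarith [hθ.1]
    have u4 : uu θ ≤ 1 / (2 * N) := u2.trans hθ.2
    have u5 : uu θ ≤ 1 / 3 := by linarith
    have hq1 := q_ge_small (z := exp (θ * I)) u5
    have hq2 := q_le (norm_exp_I θ).le
    have hq0 : 0 < ‖q (exp (θ * I))‖ := by linarith
    have e0 : ‖fn n (exp (θ * I))‖ ^ 2 = uu θ ^ 10 / ‖q (exp (θ * I))‖ ^ 2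
        * (1 - 4 * uu θ ^ 4 / ‖q (exp (θ * I))‖ ^ 2) ^ n := by
      have e1 : ‖1 - exp (θ * I)‖ = uu θ := rfl
      rw [fn_eq n (norm_exp_I θ).le, norm_mul, norm_pow, norm_div, norm_pow, e1, ← g_sq]
      ring
    rw [e0]
    have b1 : 4 * uu θ ^ 4 / ‖q (exp (θ * I))‖ ^ 2 ≤ 1 / (16 * n) := by
      have hn0 : (0 : ℝ) < n := by rw [← hn]; positivity
      have c1 : uu θ ^ 4 ≤ (1 / (2 * N)) ^ 4 := by
        have := uu_nonneg θ
        gcongr
      have c2 : (1 / (2 * N)) ^ 4 = 1 / (16 * n) := by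
        rw [div_pow, mul_pow, hn]; norm_num
      have c3 : (2 : ℝ) ^ 2 ≤ ‖q (exp (θ * I))‖ ^ 2 := by gcongr
      rw [div_le_iff₀ (by positivity)]
      have c4 : 0 < 1 / (16 * (n : ℝ)) := by positivity
      rw [c2] at c1
      nlinarith
    have b2 : (1 / 2 : ℝ) ≤ (1 - 4 * uu θ ^ 4 / ‖q (exp (θ * I))‖ ^ 2) ^ n := by
      have hn0 : (0 : ℝ) < n := by rw [← hn]; positivity
      have hn1 : (1 : ℝ) ≤ n := by
        have : 0 < n := by exact_mod_cast hn0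
        exact_mod_cast this
      have d0 : 1 / (16 * (n : ℝ)) ≤ 1 / 16 := by
        apply one_div_le_one_div_of_le (by norm_num); linarith
      have d1 := one_add_mul_le_pow (a := -(1 / (16 * (n : ℝ)))) (by linarith) n
      have d2 : 1 + (n : ℝ) * -(1 / (16 * (n : ℝ))) = 15 / 16 := by field_simp; norm_num
      rw [d2] at d1
      have d3 : (1 + -(1 / (16 * (n : ℝ)))) ^ n
          ≤ (1 - 4 * uu θ ^ 4 / ‖q (exp (θ * I))‖ ^ 2) ^ n := by
        apply pow_le_pow_left₀ (by linarith)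
        linarith
      linarith
    have b3 : (1 / (8 * N)) ^ 10 / 256 ≤ uu θ ^ 10 / ‖q (exp (θ * I))‖ ^ 2 := by
      apply div_le_div₀ (by positivity)
      · have : 0 < 1 / (8 * N) := by positivity
        exact pow_le_pow_left₀ this.le u3 10
      · positivity
      · calc ‖q (exp (θ * I))‖ ^ 2 ≤ 16 ^ 2 := by gcongr
          _ = 256 := by norm_num
    calc (1 / (8 * N)) ^ 10 / 512 = (1 / (8 * N)) ^ 10 / 256 * (1 / 2) := by ring
      _ ≤ _ := by gcongr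
  refine le_trans (le_of_eq ?_) h2
  rw [intervalIntegral.integral_const, smul_eq_mul]
  field_simp
  norm_num

end H10.Dau
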