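import Pool.Agent.H10.DauU

open Complex MeasureTheory Metric Set
open scoped Real ComplexConjugate

namespace H10.Dau

lemma slice_lower {C : ℝ} (hC : 0 < C)
    (hd : ∀ (k n : ℕ) (N : ℝ), 1 ≤ N → N ^ 4 = n → ‖hh k n‖ ≤ C / N ^ 7)
    {n : ℕ} (hn : 16 ≤ n) (hS : Summable (fun k => ‖hh k n‖)) :
    (1 / (4 * 8 ^ 10 * 512)) / (2 * π * C) * (1 / n) ≤ ∑' k, ‖hh k n‖ := by
  have hpi := Real.pi_pos
  set N : ℝ := Real.sqrt (Real.sqrt n) with hNdef
  have hN4 : N ^ 4 = n := by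
    have h1 : N ^ 2 = Real.sqrt n := Real.sq_sqrt (Real.sqrt_nonneg _)
    calc N ^ 4 = (N ^ 2) ^ 2 := by ring
      _ = Real.sqrt n ^ 2 := by rw [h1]
      _ = n := Real.sq_sqrt (Nat.cast_nonneg n)
  have hN2 : 2 ≤ N := by
    have h16 : (16 : ℝ) ≤ n := by exact_mod_cast hn
    apply Real.le_sqrt_of_sq_le
    apply Real.le_sqrt_of_sq_le
    linarith
  have hN0 : 0 < N := by linarith
  have h1 := parseval_le hS (fun k => hd k n N (by linarith) hN4)
  have h2 := energy_lower hN2 hN4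
  have h3 := h2.trans h1
  rw [← hN4]
  rw [div_le_iff₀ (by positivity)] at h3
  have h4 : 2 * π * (C / N ^ 7) * (∑' k, ‖hh k n‖) * N ^ 11
      = (∑' k, ‖hh k n‖) * (2 * π * C * N ^ 4) := by
    field_simp
  rw [h4] at h3
  rw [div_mul_div_comm, mul_one, div_le_iff₀ (by positivity)]
  exact h3

lemma not_summable : ¬ Summable (fun p : ℕ × ℕ => ‖hh p.1 p.2‖) := by
  intro h
  have hs : Summable (fun p : ℕ × ℕ => ‖hh p.2 p.1‖) := (Equiv.prodComm ℕ ℕ).summable_iff.2 h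
  have hS : ∀ n, Summable (fun k => ‖hh k n‖) := fun n => hs.prod_factor n
  have hT : Summable (fun n => ∑' k, ‖hh k n‖) := hs.prod
  obtain ⟨C, hC, hd⟩ := sup_decay
  have hpi := Real.pi_pos
  set c : ℝ := (1 / (4 * 8 ^ 10 * 512)) / (2 * π * C) with hc
  have hc0 : 0 < c := by positivity
  have h1 : Summable (fun n : ℕ => c * (1 / ((n + 16 : ℕ) : ℝ))) := by
    refine Summable.of_nonneg_of_le (fun n => by positivity) (fun n => ?_)
      ((summable_nat_add_iff 16).2 hT)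
    exact slice_lower hC hd (by omega) (hS _)
  have h2 : Summable (fun n : ℕ => (1 / ((n + 16 : ℕ) : ℝ))) := by
    have := h1.mul_left c⁻¹
    refine this.congr fun n => ?_
    field_simp
  have h3 := (summable_nat_add_iff (f := fun n : ℕ => (1 / (n : ℝ))) 16).1 h2
  exact Real.not_summable_one_div_natCast h3

lemma hs3 (z : Fin 2 → ℂ) (hz : ∀ i, ‖z i‖ < 1) :
    HasSum (fun p : ℕ × ℕ => hh p.1 p.2 * z 0 ^ p.1 * z 1 ^ p.2)
      (MvPolynomial.eval z PA / MvPolynomial.eval z PB) := by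
  rw [evalA, evalB]
  exact hs2 z hz

lemma FF_eq (z : Fin 2 → ℂ) : FF z = MvPolynomial.eval z PA / MvPolynomial.eval z PB := by
  rw [evalA, evalB]
  rfl

end H10.Dau
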