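import Pool.Agent.H10.DauH

open Complex MeasureTheory Metric Set
open scoped Real ComplexConjugate

namespace H10.Dau

lemma hsum_closed {n : ℕ} (hS : Summable (fun k => ‖hh k n‖)) {z : ℂ} (hz : ‖z‖ ≤ 1) :
    HasSum (fun k => hh k n * z ^ k) (fn n z) := by
  have hb : ∀ k, ∀ z ∈ closedBall (0 : ℂ) 1, ‖hh k n * z ^ k‖ ≤ ‖hh k n‖ := by
    intro k z hz
    rw [mem_closedBall, dist_zero_right] at hz
    rw [norm_mul, norm_pow]
    exact mul_le_of_le_one_right (norm_nonneg _) (pow_le_one₀ (norm_nonneg _) hz)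
  have hc : ContinuousOn (fun z => ∑' k, hh k n * z ^ k) (closedBall (0 : ℂ) 1) :=
    continuousOn_tsum (fun k => by fun_prop) hS hb
  have hf : ContinuousOn (fn n) (closedBall (0 : ℂ) 1) := fun z hz => by
    rw [mem_closedBall, dist_zero_right] at hz
    exact (fn_contAt n hz).continuousWithinAt
  have he : EqOn (fun z => ∑' k, hh k n * z ^ k) (fn n) (ball (0 : ℂ) 1) := by
    intro z hz
    rw [mem_ball, dist_zero_right] at hz
    exact (hs1 n hz).tsum_eq
  have he2 := he.of_subset_closure hc hf ball_subset_closedBall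
    (by rw [closure_ball _ one_ne_zero])
  have hz' : z ∈ closedBall (0 : ℂ) 1 := by rwa [mem_closedBall, dist_zero_right]
  have hsm : Summable (fun k => hh k n * z ^ k) :=
    Summable.of_norm_bounded hS (fun k => hb k z hz')
  have := he2 hz'
  simp only at this
  rw [← this]
  exact hsm.hasSum

lemma exp_cont : Continuous (fun θ : ℝ => exp (θ * I)) := by fun_prop

lemma fnexp_cont (n : ℕ) : Continuous (fun θ : ℝ => fn n (exp (θ * I))) := by
  rw [continuous_iff_continuousAt]
  intro θ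
  exact (fn_contAt n (norm_exp_I θ).le).comp (f := fun θ : ℝ => exp (θ * I)) exp_cont.continuousAt

lemma coef_int (k n : ℕ) :
    ∫ θ in (0 : ℝ)..2 * π, conj (fn n (exp (θ * I))) * (hh k n * exp (θ * I) ^ k)
      = ((2 * π * ‖hh k n‖ ^ 2 : ℝ) : ℂ) := by
  have hp := Real.pi_pos
  have h1 : ∫ θ in (0 : ℝ)..2 * π, exp (-(k * θ * I)) * fn n (exp (θ * I)) = 2 * π * hh k n := by
    have hpi : (π : ℂ) ≠ 0 := by exact_mod_cast Real.pi_ne_zero
    have hpi2 : (2 * π : ℂ) * (1 / (2 * π)) = 1 := by field_simp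
    unfold hh
    rw [← mul_assoc, hpi2, one_mul]
  have h2 : ∀ θ : ℝ, conj (fn n (exp (θ * I))) * (hh k n * exp (θ * I) ^ k)
      = hh k n * conj (exp (-(k * θ * I)) * fn n (exp (θ * I))) := by
    intro θ
    rw [map_mul, ← Complex.exp_conj]
    have : conj (-(k * θ * I) : ℂ) = k * (θ * I) := by
      simp
      ring
    rw [this, Complex.exp_nat_mul]
    ring
  simp_rw [h2]
  rw [intervalIntegral.integral_const_mul, intervalIntegral.integral_of_le (by positivity),
    integral_conj, ← intervalIntegral.integral_of_le (by positivity), h1]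
  rw [map_mul, map_mul]
  have h3 : conj (2 : ℂ) = 2 := map_ofNat _ 2
  have h4 : hh k n * conj (hh k n) = ((‖hh k n‖ ^ 2 : ℝ) : ℂ) := by
    rw [Complex.mul_conj, Complex.normSq_eq_norm_sq]
  rw [h3, Complex.conj_ofReal]
  push_cast at h4 ⊢
  linear_combination (2 * π : ℂ) * h4

lemma parseval {n : ℕ} (hS : Summable (fun k => ‖hh k n‖)) :
    HasSum (fun k => 2 * π * ‖hh k n‖ ^ 2) (∫ θ in (0 : ℝ)..2 * π, ‖fn n (exp (θ * I))‖ ^ 2) := by
  have hp := Real.pi_pos
  have h : HasSum (fun k => ∫ θ in (0 : ℝ)..2 * π,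
      conj (fn n (exp (θ * I))) * (hh k n * exp (θ * I) ^ k))
      (∫ θ in (0 : ℝ)..2 * π, conj (fn n (exp (θ * I))) * fn n (exp (θ * I))) := by
    apply intervalIntegral.hasSum_integral_of_dominated_convergence
      (fun k _ => 144 * ‖hh k n‖)
    · intro k
      apply Continuous.aestronglyMeasurable
      have := fnexp_cont n
      have := exp_cont
      fun_prop
    · intro k
      refine Filter.Eventually.of_forall fun θ _ => ?_
      rw [norm_mul, norm_mul, norm_pow, norm_exp_I, one_pow, mul_one, RCLike.norm_conj]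
      have := fn_bound n (norm_exp_I θ).le
      gcongr
    · exact Filter.Eventually.of_forall fun θ _ => hS.mul_left 144
    · exact intervalIntegrable_const
    · refine Filter.Eventually.of_forall fun θ _ => ?_
      exact (hsum_closed hS (norm_exp_I θ).le).mul_left _
  simp_rw [coef_int] at h
  have e : ∀ θ : ℝ, conj (fn n (exp (θ * I))) * fn n (exp (θ * I))
      = ((‖fn n (exp (θ * I))‖ ^ 2 : ℝ) : ℂ) := by
    intro θ
    rw [mul_comm, Complex.mul_conj, Complex.normSq_eq_norm_sq]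
  simp_rw [e] at h
  rw [intervalIntegral.integral_ofReal] at h
  exact Complex.hasSum_ofReal.1 h

lemma parseval_le {n : ℕ} {M : ℝ} (hS : Summable (fun k => ‖hh k n‖))
    (hM : ∀ k, ‖hh k n‖ ≤ M) :
    ∫ θ in (0 : ℝ)..2 * π, ‖fn n (exp (θ * I))‖ ^ 2 ≤ 2 * π * M * ∑' k, ‖hh k n‖ := by
  have hp := Real.pi_pos
  have h1 := parseval hS
  have h2 := hS.hasSum.mul_left (2 * π * M)
  apply hasSum_le _ h1 h2
  intro k
  have := hM k
  have h3 := norm_nonneg (hh k n)
  calc 2 * π * ‖hh k n‖ ^ 2 = 2 * π * (‖hh k n‖ * ‖hh k n‖) := by ring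
    _ ≤ 2 * π * (M * ‖hh k n‖) := by gcongr
    _ = _ := by ring

end H10.Dau
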