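import Mathlib

open Set Filter MeasureTheory Topology intervalIntegral

namespace H10.Dau

/-- one side of the van der Corput estimate -/
lemma side {a b x0 lam h K A0 A1 : ℝ} (hab : a ≤ b) (hlam : 0 < lam) (hh : 0 < h) (hK : 0 ≤ K)
    (hA0 : 0 ≤ A0)
    {Ψ Ψ' G ω ω' : ℝ → ℂ}
    (hΨ : ∀ x ∈ Icc a b, HasDerivAt Ψ (Ψ' x) x)
    (hG : ∀ x ∈ Icc a b, HasDerivAt G (ω x * G x) x)
    (hω : ∀ x ∈ Icc a b, HasDerivAt ω (ω' x) x)
    (hΨ'c : ContinuousOn Ψ' (Icc a b)) (hω'c : ContinuousOn ω' (Icc a b))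
    (hbig : ∀ x ∈ Icc a b, lam * |x - x0| ≤ ‖ω x‖)
    (hfar : ∀ x ∈ Icc a b, h ≤ |x - x0|) (hx0 : x0 ∉ Icc a b)
    (hω'b : ∀ x ∈ Icc a b, ‖ω' x‖ ≤ K * lam)
    (hA : ∀ x ∈ Icc a b, ‖Ψ x * G x‖ ≤ A0)
    (hA1 : ∫ x in a..b, ‖Ψ' x * G x‖ ≤ A1) :
    ‖∫ x in a..b, Ψ x * G x‖ ≤ (2 * A0 + A1 + K * A0) / (lam * h) := by
  have hω0 : ∀ x ∈ Icc a b, lam * h ≤ ‖ω x‖ := fun x hx =>
    (mul_le_mul_of_nonneg_left (hfar x hx) hlam.le).trans (hbig x hx)
  have hlh : 0 < lam * h := by positivity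
  have hωne : ∀ x ∈ Icc a b, ω x ≠ 0 := fun x hx => by
    have := hω0 x hx
    rw [← norm_pos_iff]; linarith
  have hΨc : ContinuousOn Ψ (Icc a b) := fun x hx => (hΨ x hx).continuousAt.continuousWithinAt
  have hGc : ContinuousOn G (Icc a b) := fun x hx => (hG x hx).continuousAt.continuousWithinAt
  have hωc : ContinuousOn ω (Icc a b) := fun x hx => (hω x hx).continuousAt.continuousWithinAt
  have hΨGc : ContinuousOn (fun x => Ψ x * G x) (Icc a b) := hΨc.mul hGc
  have hΨ'Gc : ContinuousOn (fun x => Ψ' x * G x) (Icc a b) := hΨ'c.mul hGc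
  have hc1 : ContinuousOn (fun x => Ψ' x * G x / ω x) (Icc a b) := hΨ'Gc.div hωc hωne
  have hc2 : ContinuousOn (fun x => Ψ x * G x * ω' x / ω x ^ 2) (Icc a b) :=
    (hΨGc.mul hω'c).div (hωc.pow 2) (fun x hx => pow_ne_zero 2 (hωne x hx))
  have hu : uIcc a b = Icc a b := uIcc_of_le hab
  have i0 : IntervalIntegrable (fun x => Ψ x * G x) volume a b := by
    apply ContinuousOn.intervalIntegrable; rwa [hu]
  have i1 : IntervalIntegrable (fun x => Ψ' x * G x / ω x) volume a b := by
    apply ContinuousOn.intervalIntegrable; rwa [hu]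
  have i2 : IntervalIntegrable (fun x => Ψ x * G x * ω' x / ω x ^ 2) volume a b := by
    apply ContinuousOn.intervalIntegrable; rwa [hu]
  have hftc : ∫ x in a..b, (Ψ' x * G x / ω x + Ψ x * G x - Ψ x * G x * ω' x / ω x ^ 2)
      = Ψ b * G b / ω b - Ψ a * G a / ω a := by
    apply intervalIntegral.integral_eq_sub_of_hasDerivAt (f := fun x => Ψ x * G x / ω x)
    · intro x hx
      rw [hu] at hx
      have h1 : HasDerivAt (fun y => Ψ y * G y / ω y)
          (((Ψ' x * G x + Ψ x * (ω x * G x)) * ω x - Ψ x * G x * ω' x) / ω x ^ 2) x :=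
        (((hΨ x hx).mul (hG x hx)).div (hω x hx) (hωne x hx))
      refine h1.congr_deriv ?_
      have := hωne x hx
      field_simp
    · exact (i1.add i0).sub i2
  rw [intervalIntegral.integral_sub (i1.add i0) i2, intervalIntegral.integral_add i1 i0] at hftc
  have e : ∫ x in a..b, Ψ x * G x = (Ψ b * G b / ω b - Ψ a * G a / ω a)
      - (∫ x in a..b, Ψ' x * G x / ω x) + ∫ x in a..b, Ψ x * G x * ω' x / ω x ^ 2 := by
    rw [← hftc]; ring
  have hbd : ∀ x ∈ Icc a b, ‖Ψ x * G x / ω x‖ ≤ A0 / (lam * h) := by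
    intro x hx
    rw [norm_div]
    exact div_le_div₀ hA0 (hA x hx) hlh (hω0 x hx)
  have b1 : ‖∫ x in a..b, Ψ' x * G x / ω x‖ ≤ A1 / (lam * h) := by
    calc ‖∫ x in a..b, Ψ' x * G x / ω x‖ ≤ ∫ x in a..b, ‖Ψ' x * G x / ω x‖ :=
          intervalIntegral.norm_integral_le_integral_norm hab
      _ ≤ ∫ x in a..b, ‖Ψ' x * G x‖ / (lam * h) := by
          apply intervalIntegral.integral_mono_on hab i1.norm
          · apply ContinuousOn.intervalIntegrable
            rw [hu]; exact hΨ'Gc.norm.div_const _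
          · intro x hx
            rw [norm_div]
            exact div_le_div_of_nonneg_left (norm_nonneg _) hlh (hω0 x hx)
      _ = (∫ x in a..b, ‖Ψ' x * G x‖) / (lam * h) := by
          rw [intervalIntegral.integral_div]
      _ ≤ A1 / (lam * h) := by gcongr
  have hxne : ∀ x ∈ Icc a b, x - x0 ≠ 0 := fun x hx h0 => by
    apply hx0; rw [← sub_eq_zero.1 h0]; exact hx
  have b2 : ‖∫ x in a..b, Ψ x * G x * ω' x / ω x ^ 2‖ ≤ K * A0 / (lam * h) := by
    calc ‖∫ x in a..b, Ψ x * G x * ω' x / ω x ^ 2‖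
        ≤ ∫ x in a..b, ‖Ψ x * G x * ω' x / ω x ^ 2‖ :=
          intervalIntegral.norm_integral_le_integral_norm hab
      _ ≤ ∫ x in a..b, (A0 * K / lam) * ((x - x0) ^ 2)⁻¹ := by
          apply intervalIntegral.integral_mono_on hab i2.norm
          · apply ContinuousOn.intervalIntegrable
            rw [hu]
            apply ContinuousOn.mul continuousOn_const
            apply ContinuousOn.inv₀ (by fun_prop)
            intro x hx
            exact pow_ne_zero 2 (hxne x hx)
          · intro x hx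
            rw [norm_div, norm_mul, norm_pow]
            have h1 : 0 < (lam * |x - x0|) ^ 2 := by
              have := abs_pos.2 (hxne x hx)
              positivity
            have h2 : (lam * |x - x0|) ^ 2 ≤ ‖ω x‖ ^ 2 := by
              have := hbig x hx
              gcongr
            calc ‖Ψ x * G x‖ * ‖ω' x‖ / ‖ω x‖ ^ 2 ≤ A0 * (K * lam) / (lam * |x - x0|) ^ 2 := by
                  apply div_le_div₀ (by positivity) _ h1 h2
                  exact mul_le_mul (hA x hx) (hω'b x hx) (norm_nonneg _) hA0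
              _ = (A0 * K / lam) * ((x - x0) ^ 2)⁻¹ := by
                  rw [mul_pow, sq_abs]
                  have := hxne x hx
                  field_simp
      _ = (A0 * K / lam) * ∫ x in a..b, ((x - x0) ^ 2)⁻¹ := by
          rw [intervalIntegral.integral_const_mul]
      _ ≤ (A0 * K / lam) * (1 / h) := by
          gcongr
          have hint : ∫ x in a..b, ((x - x0) ^ 2)⁻¹ = -(b - x0)⁻¹ - -(a - x0)⁻¹ := by
            apply intervalIntegral.integral_eq_sub_of_hasDerivAt (f := fun x => -(x - x0)⁻¹)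
            · intro x hx
              rw [hu] at hx
              have h1 : HasDerivAt (fun y : ℝ => -(y - x0)⁻¹) (-(-1 / (x - x0) ^ 2)) x :=
                (((hasDerivAt_id x).sub_const x0).inv (hxne x hx)).neg
              refine h1.congr_deriv ?_
              simp [div_eq_mul_inv]
            · apply ContinuousOn.intervalIntegrable
              rw [hu]
              apply ContinuousOn.inv₀ (by fun_prop)
              intro x hx
              exact pow_ne_zero 2 (hxne x hx)
          rw [hint]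
          have ha := hfar a (left_mem_Icc.2 hab)
          have hb := hfar b (right_mem_Icc.2 hab)
          rw [mem_Icc, not_and_or, not_le, not_le] at hx0
          rcases hx0 with h' | h'
          · -- x0 < a
            have h1 : 0 < a - x0 := by linarith
            have h2 : 0 < b - x0 := by linarith
            rw [abs_of_pos h1] at ha
            have h3 : (a - x0)⁻¹ ≤ h⁻¹ := by gcongr
            have h4 : 0 < (b - x0)⁻¹ := by positivity
            rw [one_div]; linarith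
          · have h1 : 0 < x0 - a := by linarith
            have h2 : 0 < x0 - b := by linarith
            have hb' : |b - x0| = x0 - b := by rw [abs_sub_comm, abs_of_pos h2]
            rw [hb'] at hb
            have h3 : (x0 - b)⁻¹ ≤ h⁻¹ := by gcongr
            have h4 : 0 < (x0 - a)⁻¹ := by positivity
            have e1 : (b - x0)⁻¹ = -(x0 - b)⁻¹ := by rw [← inv_neg, neg_sub]
            have e2 : (a - x0)⁻¹ = -(x0 - a)⁻¹ := by rw [← inv_neg, neg_sub]
            rw [one_div, e1, e2]; linarith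
      _ = K * A0 / (lam * h) := by field_simp
  rw [e]
  calc _ ≤ ‖(Ψ b * G b / ω b - Ψ a * G a / ω a) - (∫ x in a..b, Ψ' x * G x / ω x)‖
        + ‖∫ x in a..b, Ψ x * G x * ω' x / ω x ^ 2‖ := norm_add_le _ _
    _ ≤ ‖Ψ b * G b / ω b - Ψ a * G a / ω a‖ + ‖∫ x in a..b, Ψ' x * G x / ω x‖
        + ‖∫ x in a..b, Ψ x * G x * ω' x / ω x ^ 2‖ := by gcongr; exact norm_sub_le _ _
    _ ≤ (‖Ψ b * G b / ω b‖ + ‖Ψ a * G a / ω a‖) + ‖∫ x in a..b, Ψ' x * G x / ω x‖
        + ‖∫ x in a..b, Ψ x * G x * ω' x / ω x ^ 2‖ := by gcongr; exact norm_sub_le _ _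
    _ ≤ (A0 / (lam * h) + A0 / (lam * h)) + A1 / (lam * h) + K * A0 / (lam * h) := by
        gcongr
        · exact hbd b (right_mem_Icc.2 hab)
        · exact hbd a (left_mem_Icc.2 hab)
    _ = _ := by ring

/-- van der Corput estimate (second derivative test with amplitude) -/
lemma corput {a b lam h K A0 A1 : ℝ} (hab : a ≤ b) (hlam : 0 < lam) (hh : 0 < h) (hK : 0 ≤ K)
    (hA0 : 0 ≤ A0) (hlh : lam * h ^ 2 = 1)
    {Ψ Ψ' G ω ω' : ℝ → ℂ}
    (hΨ : ∀ x ∈ Icc a b, HasDerivAt Ψ (Ψ' x) x)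
    (hG : ∀ x ∈ Icc a b, HasDerivAt G (ω x * G x) x)
    (hω : ∀ x ∈ Icc a b, HasDerivAt ω (ω' x) x)
    (hΨ'c : ContinuousOn Ψ' (Icc a b)) (hω'c : ContinuousOn ω' (Icc a b))
    (hmono : ∀ x ∈ Icc a b, ∀ y ∈ Icc a b, x ≤ y → lam * (y - x) ≤ (ω y).im - (ω x).im)
    (hω'b : ∀ x ∈ Icc a b, ‖ω' x‖ ≤ K * lam)
    (hA : ∀ x ∈ Icc a b, ‖Ψ x * G x‖ ≤ A0)
    (hA1 : ∫ x in a..b, ‖Ψ' x * G x‖ ≤ A1) :
    ‖∫ x in a..b, Ψ x * G x‖ ≤ (6 * A0 + 2 * A1 + 2 * K * A0) * h := by
  have hΨc : ContinuousOn Ψ (Icc a b) := fun x hx => (hΨ x hx).continuousAt.continuousWithinAt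
  have hGc : ContinuousOn G (Icc a b) := fun x hx => (hG x hx).continuousAt.continuousWithinAt
  have hωc : ContinuousOn ω (Icc a b) := fun x hx => (hω x hx).continuousAt.continuousWithinAt
  have hΨGc : ContinuousOn (fun x => Ψ x * G x) (Icc a b) := hΨc.mul hGc
  have hΨ'Gc : ContinuousOn (fun x => Ψ' x * G x) (Icc a b) := hΨ'c.mul hGc
  have hI : ∀ c d, a ≤ c → c ≤ d → d ≤ b →
      IntervalIntegrable (fun x => Ψ x * G x) volume c d := by
    intro c d h1 h2 h3
    apply ContinuousOn.intervalIntegrable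
    rw [uIcc_of_le h2]
    exact hΨGc.mono (Icc_subset_Icc h1 h3)
  have hI' : ∀ c d, a ≤ c → c ≤ d → d ≤ b →
      IntervalIntegrable (fun x => ‖Ψ' x * G x‖) volume c d := by
    intro c d h1 h2 h3
    apply ContinuousOn.intervalIntegrable
    rw [uIcc_of_le h2]
    exact hΨ'Gc.norm.mono (Icc_subset_Icc h1 h3)
  have hA1' : ∀ c d, a ≤ c → c ≤ d → d ≤ b → ∫ x in c..d, ‖Ψ' x * G x‖ ≤ A1 := by
    intro c d h1 h2 h3
    refine le_trans ?_ hA1
    have e1 := intervalIntegral.integral_add_adjacent_intervals (hI' a c le_rfl h1 (h2.trans h3))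
      (hI' c b h1 (h2.trans h3) le_rfl)
    have e2 := intervalIntegral.integral_add_adjacent_intervals (hI' c d h1 h2 h3)
      (hI' d b (h1.trans h2) h3 le_rfl)
    have p1 : 0 ≤ ∫ x in a..c, ‖Ψ' x * G x‖ :=
      intervalIntegral.integral_nonneg h1 fun _ _ => norm_nonneg _
    have p2 : 0 ≤ ∫ x in d..b, ‖Ψ' x * G x‖ :=
      intervalIntegral.integral_nonneg h3 fun _ _ => norm_nonneg _
    linarith
  have hA1nn : 0 ≤ A1 := le_trans (intervalIntegral.integral_nonneg hab fun _ _ => norm_nonneg _) hA1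
  -- the stationary point
  obtain ⟨x0, hx0, hbig⟩ : ∃ x0 ∈ Icc a b, ∀ x ∈ Icc a b, lam * |x - x0| ≤ ‖ω x‖ := by
    have hle : ∀ x, |(ω x).im| ≤ ‖ω x‖ := fun x => Complex.abs_im_le_norm _
    by_cases h1 : 0 ≤ (ω a).im
    · refine ⟨a, left_mem_Icc.2 hab, fun x hx => ?_⟩
      have := hmono a (left_mem_Icc.2 hab) x hx hx.1
      rw [abs_of_nonneg (sub_nonneg.2 hx.1)]
      exact (by linarith [le_abs_self (ω x).im] : lam * (x - a) ≤ |(ω x).im|).trans (hle x)
    by_cases h2 : (ω b).im ≤ 0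
    · refine ⟨b, right_mem_Icc.2 hab, fun x hx => ?_⟩
      have := hmono x hx b (right_mem_Icc.2 hab) hx.2
      rw [abs_sub_comm, abs_of_nonneg (sub_nonneg.2 hx.2)]
      exact (by linarith [neg_le_abs (ω x).im] : lam * (b - x) ≤ |(ω x).im|).trans (hle x)
    · push Not at h1 h2
      have hcont : ContinuousOn (fun x => (ω x).im) (Icc a b) :=
        Complex.continuous_im.comp_continuousOn hωc
      obtain ⟨x0, hx0, h0⟩ := intermediate_value_Icc hab hcont ⟨h1.le, h2.le⟩
      refine ⟨x0, hx0, fun x hx => ?_⟩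
      have h0' : (ω x0).im = 0 := h0
      rcases le_total x0 x with h | h
      · have := hmono x0 hx0 x hx h
        rw [abs_of_nonneg (sub_nonneg.2 h)]
        exact (by linarith [le_abs_self (ω x).im] : lam * (x - x0) ≤ |(ω x).im|).trans (hle x)
      · have := hmono x hx x0 hx0 h
        rw [abs_sub_comm, abs_of_nonneg (sub_nonneg.2 h)]
        exact (by linarith [neg_le_abs (ω x).im] : lam * (x0 - x) ≤ |(ω x).im|).trans (hle x)
  have hlh' : 1 / (lam * h) = h := by
    have : lam * h ≠ 0 := by positivity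
    field_simp
    linarith
  have hS : (2 * A0 + A1 + K * A0) / (lam * h) = (2 * A0 + A1 + K * A0) * h := by
    rw [div_eq_mul_one_div, hlh']
  have hSnn : 0 ≤ (2 * A0 + A1 + K * A0) * h := by positivity
  set c1 := max a (x0 - h) with hc1
  set c2 := min b (x0 + h) with hc2
  have ac1 : a ≤ c1 := le_max_left _ _
  have c1x : c1 ≤ x0 := max_le hx0.1 (by linarith)
  have xc2 : x0 ≤ c2 := le_min hx0.2 (by linarith)
  have c2b : c2 ≤ b := min_le_left _ _
  have left : ‖∫ x in a..c1, Ψ x * G x‖ ≤ (2 * A0 + A1 + K * A0) * h := by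
    rcases le_total (x0 - h) a with h' | h'
    · have : c1 = a := max_eq_left h'
      rw [this, intervalIntegral.integral_same, norm_zero]; exact hSnn
    · have hc : c1 = x0 - h := max_eq_right h'
      rw [← hS]
      have hsub : Icc a c1 ⊆ Icc a b := Icc_subset_Icc le_rfl (c1x.trans hx0.2)
      apply side (x0 := x0) ac1 hlam hh hK hA0 (fun x hx => hΨ x (hsub hx))
        (fun x hx => hG x (hsub hx)) (fun x hx => hω x (hsub hx)) (hΨ'c.mono hsub)
        (hω'c.mono hsub) (fun x hx => hbig x (hsub hx)) _ _ (fun x hx => hω'b x (hsub hx))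
        (fun x hx => hA x (hsub hx)) (hA1' a c1 le_rfl ac1 (c1x.trans hx0.2))
      · intro x hx
        have h2 : x ≤ x0 - h := by rw [← hc]; exact hx.2
        rw [abs_sub_comm, abs_of_nonneg (by linarith)]; linarith
      · intro hx
        have h2 : x0 ≤ x0 - h := by
          have := hx.2
          rwa [hc] at this
        linarith
  have right : ‖∫ x in c2..b, Ψ x * G x‖ ≤ (2 * A0 + A1 + K * A0) * h := by
    rcases le_total b (x0 + h) with h' | h'
    · have : c2 = b := min_eq_left h'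
      rw [this, intervalIntegral.integral_same, norm_zero]; exact hSnn
    · have hc : c2 = x0 + h := min_eq_right h'
      rw [← hS]
      have hsub : Icc c2 b ⊆ Icc a b := Icc_subset_Icc (hx0.1.trans xc2) le_rfl
      apply side (x0 := x0) c2b hlam hh hK hA0 (fun x hx => hΨ x (hsub hx))
        (fun x hx => hG x (hsub hx)) (fun x hx => hω x (hsub hx)) (hΨ'c.mono hsub)
        (hω'c.mono hsub) (fun x hx => hbig x (hsub hx)) _ _ (fun x hx => hω'b x (hsub hx))
        (fun x hx => hA x (hsub hx)) (hA1' c2 b (hx0.1.trans xc2) c2b le_rfl)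
      · intro x hx
        have h2 : x0 + h ≤ x := by rw [← hc]; exact hx.1
        rw [abs_of_nonneg (by linarith)]; linarith
      · intro hx
        have h2 : x0 + h ≤ x0 := by
          have := hx.1
          rwa [hc] at this
        linarith
  have mid : ‖∫ x in c1..c2, Ψ x * G x‖ ≤ A0 * (2 * h) := by
    have h1 : ‖∫ x in c1..c2, Ψ x * G x‖ ≤ A0 * |c2 - c1| := by
      apply intervalIntegral.norm_integral_le_of_norm_le_const
      intro x hx
      rw [uIoc_of_le (c1x.trans xc2)] at hx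
      exact hA x ⟨ac1.trans hx.1.le, hx.2.trans c2b⟩
    refine h1.trans ?_
    rw [abs_of_nonneg (by linarith)]
    gcongr
    have h2 : c2 ≤ x0 + h := min_le_right _ _
    have h3 : x0 - h ≤ c1 := le_max_right _ _
    linarith
  have e1 := intervalIntegral.integral_add_adjacent_intervals
    (hI a c1 le_rfl ac1 (c1x.trans hx0.2)) (hI c1 c2 ac1 (c1x.trans xc2) c2b)
  have e2 := intervalIntegral.integral_add_adjacent_intervals
    (hI a c2 le_rfl (ac1.trans (c1x.trans xc2)) c2b) (hI c2 b (hx0.1.trans xc2) c2b le_rfl)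
  rw [← e2, ← e1]
  calc _ ≤ ‖(∫ x in a..c1, Ψ x * G x) + ∫ x in c1..c2, Ψ x * G x‖ + ‖∫ x in c2..b, Ψ x * G x‖ :=
        norm_add_le _ _
    _ ≤ ‖∫ x in a..c1, Ψ x * G x‖ + ‖∫ x in c1..c2, Ψ x * G x‖ + ‖∫ x in c2..b, Ψ x * G x‖ := by
        gcongr; exact norm_add_le _ _
    _ ≤ (2 * A0 + A1 + K * A0) * h + A0 * (2 * h) + (2 * A0 + A1 + K * A0) * h := by
        gcongr
    _ = _ := by ring

end H10.Dau
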