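import Pool.Agent.H10.DauL
import Pool.Agent.H10.DauV

open Complex MeasureTheory Metric Set
open scoped Real ComplexConjugate

namespace H10.Dau

noncomputable def EE (θ : ℝ) : ℂ := exp (θ * I)
noncomputable def UU (θ : ℝ) : ℂ := 1 - EE θ
noncomputable def QQ (θ : ℝ) : ℂ := q (EE θ)
noncomputable def PP (θ : ℝ) : ℂ := p (EE θ)
noncomputable def qu (θ : ℝ) : ℂ := 2 * UU θ - 4 * I
noncomputable def pu (θ : ℝ) : ℂ := 2 * UU θ - (4 + 4 * I)

lemma dE (θ : ℝ) : HasDerivAt EE (I * EE θ) θ := by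
  have h1 : HasDerivAt (fun θ : ℝ => (θ : ℂ) * I) (1 * I) θ :=
    (Complex.ofRealCLM.hasDerivAt (x := θ)).mul_const I
  have h2 := h1.cexp
  refine h2.congr_deriv ?_
  unfold EE
  ring

lemma dU (θ : ℝ) : HasDerivAt UU (-(I * EE θ)) θ := by
  have := (dE θ).const_sub 1
  exact this

lemma dQ (θ : ℝ) : HasDerivAt QQ (-(I * EE θ) * qu θ) θ := by
  have h : QQ = fun θ => UU θ ^ 2 - 4 * I * UU θ + 4 := rfl
  rw [h]
  have h1 := (((dU θ).pow 2).sub ((dU θ).const_mul (4 * I))).add_const 4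
  refine h1.congr_deriv ?_
  unfold qu
  push_cast
  ring

lemma dP (θ : ℝ) : HasDerivAt PP (-(I * EE θ) * pu θ) θ := by
  have h : PP = fun θ => UU θ ^ 2 - (4 + 4 * I) * UU θ + 4 := rfl
  rw [h]
  have h1 := (((dU θ).pow 2).sub ((dU θ).const_mul (4 + 4 * I))).add_const 4
  refine h1.congr_deriv ?_
  unfold pu
  push_cast
  ring

lemma dqu (θ : ℝ) : HasDerivAt qu (-(I * EE θ) * 2) θ := by
  have h1 := ((dU θ).const_mul 2).sub_const (4 * I)
  refine h1.congr_deriv ?_
  ring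

lemma dpu (θ : ℝ) : HasDerivAt pu (-(I * EE θ) * 2) θ := by
  have h1 := ((dU θ).const_mul 2).sub_const (4 + 4 * I)
  refine h1.congr_deriv ?_
  ring

lemma QQ_ne (θ : ℝ) : QQ θ ≠ 0 := q_ne (norm_exp_I θ).le

noncomputable def Psi (θ : ℝ) : ℂ := UU θ ^ 5 / QQ θ
noncomputable def Psi' (θ : ℝ) : ℂ :=
  (5 * UU θ ^ 4 * (-(I * EE θ)) * QQ θ - UU θ ^ 5 * (-(I * EE θ) * qu θ)) / QQ θ ^ 2
noncomputable def GG (k n : ℕ) (θ : ℝ) : ℂ := exp (-(k * θ * I)) * (PP θ / QQ θ) ^ n
noncomputable def rho (θ : ℝ) : ℂ := -(I * EE θ) * (pu θ / PP θ - qu θ / QQ θ)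
noncomputable def rho' (θ : ℝ) : ℂ :=
  EE θ * (pu θ / PP θ - qu θ / QQ θ)
    - EE θ ^ 2 * (2 / PP θ - pu θ ^ 2 / PP θ ^ 2 - 2 / QQ θ + qu θ ^ 2 / QQ θ ^ 2)

lemma dPsi (θ : ℝ) : HasDerivAt Psi (Psi' θ) θ := by
  have h1 := ((dU θ).pow 5).div (dQ θ) (QQ_ne θ)
  refine h1.congr_deriv ?_
  unfold Psi'
  push_cast
  norm_num

lemma dG (k n : ℕ) {θ : ℝ} (hP : PP θ ≠ 0) :
    HasDerivAt (GG k n) ((n * rho θ - k * I) * GG k n θ) θ := by
  have hQ := QQ_ne θ
  have h1 : HasDerivAt (fun θ : ℝ => exp (-(k * θ * I)))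
      (exp (-(k * θ * I)) * (-(k * 1 * I))) θ := by
    have h0 : HasDerivAt (fun θ : ℝ => (-(k * (θ : ℂ) * I))) (-(k * 1 * I)) θ :=
      (((Complex.ofRealCLM.hasDerivAt (x := θ)).const_mul (k : ℂ)).mul_const I).neg
    exact h0.cexp
  have h2 : HasDerivAt (fun θ => PP θ / QQ θ)
      (((-(I * EE θ) * pu θ) * QQ θ - PP θ * (-(I * EE θ) * qu θ)) / QQ θ ^ 2) θ :=
    (dP θ).div (dQ θ) hQ
  have h3 : HasDerivAt (fun θ => (PP θ / QQ θ) ^ n) (n * rho θ * (PP θ / QQ θ) ^ n) θ := by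
    refine (h2.pow n).congr_deriv ?_
    cases n with
    | zero => simp
    | succ m =>
      rw [Nat.add_sub_cancel]
      have e : (PP θ / QQ θ) ^ (m + 1) = (PP θ / QQ θ) ^ m * (PP θ / QQ θ) := pow_succ _ _
      rw [e]
      generalize (PP θ / QQ θ) ^ m = W
      unfold rho
      field_simp
      ring
  refine (h1.mul h3).congr_deriv ?_
  unfold GG
  ring

lemma drho {θ : ℝ} (hP : PP θ ≠ 0) : HasDerivAt rho (rho' θ) θ := by
  have hQ := QQ_ne θ
  have h1 := ((dE θ).const_mul I).neg.mul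
    (((dpu θ).div (dP θ) hP).sub ((dqu θ).div (dQ θ) hQ))
  refine h1.congr_deriv ?_
  unfold rho'
  simp only [Pi.neg_apply, Pi.sub_apply, Pi.div_apply]
  have hI : I ^ 2 = -1 := Complex.I_sq
  have t1 : (-(I * EE θ) * 2 * PP θ - pu θ * (-(I * EE θ) * pu θ)) / PP θ ^ 2
      = -(I * EE θ) * (2 / PP θ - pu θ ^ 2 / PP θ ^ 2) := by
    field_simp
    ring
  have t2 : (-(I * EE θ) * 2 * QQ θ - qu θ * (-(I * EE θ) * qu θ)) / QQ θ ^ 2
      = -(I * EE θ) * (2 / QQ θ - qu θ ^ 2 / QQ θ ^ 2) := by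
    field_simp
    ring
  rw [t1, t2]
  linear_combination (-(EE θ) * (pu θ / PP θ - qu θ / QQ θ)
    + EE θ ^ 2 * (2 / PP θ - pu θ ^ 2 / PP θ ^ 2 - 2 / QQ θ + qu θ ^ 2 / QQ θ ^ 2)) * hI

lemma EE0 : EE 0 = 1 := by simp [EE]

lemma rho'0 : rho' 0 = 2 * I := by
  simp only [rho', EE0, pu, qu, UU, PP, QQ, p, q, sub_self]
  have hI : I ^ 2 = -1 := Complex.I_sq
  ring_nf

lemma rho'_cont {θ : ℝ} (hP : PP θ ≠ 0) : ContinuousAt rho' θ := by
  have cE := (dE θ).continuousAt
  have cP := (dP θ).continuousAt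
  have cQ := (dQ θ).continuousAt
  have cpu := (dpu θ).continuousAt
  have cqu := (dqu θ).continuousAt
  have hQ := QQ_ne θ
  exact (cE.mul ((cpu.div cP hP).sub (cqu.div cQ hQ))).sub
    ((cE.pow 2).mul ((((continuousAt_const.div cP hP).sub
      ((cpu.pow 2).div (cP.pow 2) (pow_ne_zero 2 hP))).sub
      (continuousAt_const.div cQ hQ)).add ((cqu.pow 2).div (cQ.pow 2) (pow_ne_zero 2 hQ))))

lemma Psi'_cont (θ : ℝ) : ContinuousAt Psi' θ := by
  have cE := (dE θ).continuousAt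
  have cU := (dU θ).continuousAt
  have cQ := (dQ θ).continuousAt
  have cqu := (dqu θ).continuousAt
  have hQ := QQ_ne θ
  exact ((((continuousAt_const.mul (cU.pow 4)).mul (continuousAt_const.mul cE).neg).mul cQ).sub
    ((cU.pow 5).mul ((continuousAt_const.mul cE).neg.mul cqu))).div (cQ.pow 2)
      (pow_ne_zero 2 hQ)

lemma PP0 : PP 0 ≠ 0 := by
  simp [PP, EE0, p]

lemma exists_delta : ∃ δ : ℝ, 0 < δ ∧ δ ≤ 1 ∧
    ∀ θ ∈ Icc (-δ) δ, PP θ ≠ 0 ∧ ‖rho' θ - 2 * I‖ ≤ 1 := by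
  have h1 : ∀ᶠ θ in nhds (0 : ℝ), PP θ ≠ 0 := (dP 0).continuousAt.eventually_ne PP0
  have h2 : ∀ᶠ θ in nhds (0 : ℝ), ‖rho' θ - 2 * I‖ < 1 := by
    have hc : ContinuousAt (fun θ => ‖rho' θ - 2 * I‖) 0 :=
      ((rho'_cont PP0).sub continuousAt_const).norm
    apply hc.eventually_lt continuousAt_const
    rw [rho'0]; simp
  obtain ⟨ε, hε, hs⟩ := Metric.nhds_basis_closedBall.mem_iff.1 (h1.and h2)
  refine ⟨min ε 1, lt_min hε one_pos, min_le_right _ _, fun θ hθ => ?_⟩
  have h3 : θ ∈ closedBall (0 : ℝ) ε := by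
    rw [mem_closedBall, Real.dist_eq, sub_zero, abs_le]
    have := min_le_left ε 1
    exact ⟨by linarith [hθ.1], by linarith [hθ.2]⟩
  have h4 := hs h3
  exact ⟨h4.1, h4.2.le⟩

lemma GG_norm (k n : ℕ) (θ : ℝ) : ‖GG k n θ‖ ≤ Real.exp (-(n * uu θ ^ 4 / 128)) := by
  unfold GG
  rw [norm_mul, norm_exp_k, one_mul, norm_pow]
  exact g_pow_le n θ

lemma UU_norm (θ : ℝ) : ‖UU θ‖ = uu θ := rfl

lemma EE_norm (θ : ℝ) : ‖EE θ‖ = 1 := norm_exp_I θ

lemma QQ_ge (θ : ℝ) : 2 / 9 ≤ ‖QQ θ‖ := q_ge (norm_exp_I θ).le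

lemma Psi_norm (θ : ℝ) : ‖Psi θ‖ ≤ 9 / 2 * uu θ ^ 5 := by
  unfold Psi
  have h1 := QQ_ge θ
  rw [norm_div, norm_pow, UU_norm, div_le_iff₀ (by linarith)]
  have := pow_nonneg (uu_nonneg θ) 5
  nlinarith

lemma Psi'_norm (θ : ℝ) : ‖Psi' θ‖ ≤ 347 * uu θ ^ 4 := by
  unfold Psi'
  have h1 := QQ_ge θ
  have hQ0 : 0 < ‖QQ θ‖ := by linarith
  have hu0 := uu_nonneg θ
  have hu2 := uu_le_two θ
  have hqu : ‖qu θ‖ ≤ 8 := by
    unfold qu
    refine (norm_sub_le _ _).trans ?_
    rw [norm_mul, norm_mul, UU_norm]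
    simp
    linarith
  have h2 : ‖5 * UU θ ^ 4 * (-(I * EE θ)) * QQ θ‖ = 5 * uu θ ^ 4 * ‖QQ θ‖ := by
    rw [norm_mul, norm_mul, norm_mul, norm_neg, norm_mul, norm_pow, UU_norm, EE_norm]
    simp
  have h3 : ‖UU θ ^ 5 * (-(I * EE θ) * qu θ)‖ ≤ 16 * uu θ ^ 4 := by
    rw [norm_mul, norm_mul, norm_neg, norm_mul, norm_pow, UU_norm, EE_norm]
    simp only [Complex.norm_I, one_mul]
    calc uu θ ^ 5 * ‖qu θ‖ ≤ uu θ ^ 5 * 8 := by gcongr
      _ = 8 * uu θ * uu θ ^ 4 := by ring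
      _ ≤ 8 * 2 * uu θ ^ 4 := by gcongr
      _ = _ := by ring
  rw [norm_div, norm_pow]
  rw [div_le_iff₀ (by positivity)]
  refine (norm_sub_le _ _).trans ?_
  rw [h2]
  have h4 : 0 ≤ uu θ ^ 4 := by positivity
  have h5 : 5 * ‖QQ θ‖ + 16 ≤ 347 * ‖QQ θ‖ ^ 2 := by nlinarith
  nlinarith

lemma near {δ : ℝ} (hδ : 0 < δ) (hδ1 : δ ≤ 1)
    (hd : ∀ θ ∈ Icc (-δ) δ, PP θ ≠ 0 ∧ ‖rho' θ - 2 * I‖ ≤ 1)
    (k n : ℕ) {N : ℝ} (hN : 1 ≤ N) (hn : N ^ 4 = n) :
    ‖∫ x in (-δ)..δ, Psi x * GG k n x‖ ≤ ((54 + 2776 * π) * 32769) / N ^ 7 := by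
  have hN0 : 0 < N := by linarith
  have hn0 : (0 : ℝ) < n := by rw [← hn]; positivity
  have hpi := Real.pi_gt_three
  have key1 : ∀ θ : ℝ, Real.exp (-(n * uu θ ^ 4 / 128))
      = Real.exp (-((N * uu θ) ^ 4 / 128)) := by
    intro θ; rw [mul_pow, hn]
  have hder : ∀ x ∈ Icc (-δ) δ, HasDerivAt (fun θ => n * rho θ - k * I) (n * rho' x) x := by
    intro x hx
    exact ((drho (hd x hx).1).const_mul (n : ℂ)).sub_const _
  have hmain := corput (a := -δ) (b := δ) (lam := n) (h := 1 / N ^ 2) (K := 3)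
    (A0 := 9 / 2 * 32769 / N ^ 5) (A1 := 694 * 32769 * (2 * π) / N ^ 5)
    (Ψ := Psi) (Ψ' := Psi') (G := GG k n) (ω := fun θ => n * rho θ - k * I)
    (ω' := fun θ => n * rho' θ)
    (by linarith) hn0 (by positivity) (by norm_num) (by positivity)
    (by rw [← hn]; field_simp)
    (fun x _ => dPsi x) (fun x hx => dG k n (hd x hx).1) hder
    (fun x _ => (Psi'_cont x).continuousWithinAt)
    (fun x hx => (continuousAt_const.mul (rho'_cont (hd x hx).1)).continuousWithinAt)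
    ?_ ?_ ?_ ?_
  · refine hmain.trans (le_of_eq ?_)
    field_simp
    ring
  · -- monotone
    have hm : MonotoneOn (fun θ => (n * rho θ - k * I).im - n * θ) (Icc (-δ) δ) := by
      have hder2 : ∀ x ∈ Icc (-δ) δ, HasDerivAt (fun θ : ℝ => (n * rho θ - k * I).im - n * θ)
          ((n * rho' x).im - n * 1) x := by
        intro x hx
        have h1 := Complex.imCLM.hasFDerivAt.comp_hasDerivAt x (hder x hx)
        exact h1.sub ((hasDerivAt_id x).const_mul (n : ℝ))
      apply monotoneOn_of_hasDerivWithinAt_nonneg (convex_Icc _ _)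
        (f' := fun x => (n * rho' x).im - n * 1)
      · intro x hx
        exact (hder2 x hx).continuousAt.continuousWithinAt
      · intro x hx
        exact (hder2 x (interior_subset hx)).hasDerivWithinAt
      · intro x hx
        have h2 := (hd x (interior_subset hx)).2
        have h3 : |(rho' x - 2 * I).im| ≤ 1 := (Complex.abs_im_le_norm _).trans h2
        have h4 : (rho' x - 2 * I).im = (rho' x).im - 2 := by simp
        rw [h4, abs_le] at h3
        have h5 : ((n : ℂ) * rho' x).im = n * (rho' x).im := by simp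
        rw [h5]
        nlinarith [h3.1]
    intro x hx y hy hxy
    have := hm hx hy hxy
    simp only at this
    linarith
  · -- ω' bound
    intro x hx
    have h2 := (hd x hx).2
    have h3 : ‖rho' x‖ ≤ 3 := by
      calc ‖rho' x‖ = ‖(rho' x - 2 * I) + 2 * I‖ := by ring_nf
        _ ≤ ‖rho' x - 2 * I‖ + ‖2 * I‖ := norm_add_le _ _
        _ ≤ 1 + 2 := by gcongr; simp
        _ = 3 := by norm_num
    rw [norm_mul, Complex.norm_natCast, mul_comm]
    gcongr
  · -- sup bound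
    intro x _
    rw [norm_mul]
    have hu := uu_nonneg x
    calc ‖Psi x‖ * ‖GG k n x‖ ≤ 9 / 2 * uu x ^ 5 * Real.exp (-(n * uu x ^ 4 / 128)) := by
          gcongr
          · exact Psi_norm x
          · exact GG_norm k n x
      _ = 9 / 2 * ((N * uu x) ^ 5 * Real.exp (-((N * uu x) ^ 4 / 128))) / N ^ 5 := by
          rw [key1]; field_simp
      _ ≤ 9 / 2 * 32769 / N ^ 5 := by
          gcongr
          exact expb (by positivity) (by norm_num)
  · -- L1 bound
    have hcont : ContinuousOn (fun x => ‖Psi' x * GG k n x‖) (Icc (-δ) δ) := by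
      intro x hx
      exact ((Psi'_cont x).mul (dG k n (hd x hx).1).continuousAt).norm.continuousWithinAt
    have hc2 : Continuous (fun x : ℝ => 694 * 32769 / N ^ 4 * (1 + (N / 2 * x) ^ 2)⁻¹) := by
      apply continuous_const.mul
      apply Continuous.inv₀ (by fun_prop)
      intro x
      positivity
    calc ∫ x in (-δ)..δ, ‖Psi' x * GG k n x‖
        ≤ ∫ x in (-δ)..δ, 694 * 32769 / N ^ 4 * (1 + (N / 2 * x) ^ 2)⁻¹ := by
          apply intervalIntegral.integral_mono_on (by linarith)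
          · apply ContinuousOn.intervalIntegrable
            rw [uIcc_of_le (by linarith)]
            exact hcont
          · exact hc2.intervalIntegrable _ _
          · intro x hx
            have hu := uu_nonneg x
            have hxa : |x| ≤ π := by
              rw [abs_le]; constructor <;> linarith [hx.1, hx.2]
            have hu2 := uu_ge hxa
            have h1 : 1 + (N / 2 * x) ^ 2 ≤ 1 + (N * uu x) ^ 2 := by
              have : (N / 2 * x) ^ 2 = (N * (|x| / 2)) ^ 2 := by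
                rw [mul_pow, mul_pow, div_pow, div_pow, sq_abs]; ring
              rw [this]
              gcongr
            have h2 : 0 < 1 + (N / 2 * x) ^ 2 := by positivity
            rw [norm_mul]
            calc ‖Psi' x‖ * ‖GG k n x‖
                ≤ 347 * uu x ^ 4 * Real.exp (-(n * uu x ^ 4 / 128)) := by
                  gcongr
                  · exact Psi'_norm x
                  · exact GG_norm k n x
              _ = 347 / N ^ 4 * ((N * uu x) ^ 4 * Real.exp (-((N * uu x) ^ 4 / 128))) := by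
                  rw [key1]; field_simp
              _ ≤ 347 / N ^ 4 * (2 * 32769 * (1 + (N / 2 * x) ^ 2)⁻¹) := by
                  apply mul_le_mul_of_nonneg_left _ (by positivity)
                  rw [← div_eq_mul_inv, le_div_iff₀ h2]
                  have e4 := expb (x := N * uu x) (by positivity) (j := 4) (by norm_num)
                  have e6 := expb (x := N * uu x) (by positivity) (j := 6) (by norm_num)
                  calc (N * uu x) ^ 4 * Real.exp (-((N * uu x) ^ 4 / 128))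
                        * (1 + (N / 2 * x) ^ 2)
                      ≤ (N * uu x) ^ 4 * Real.exp (-((N * uu x) ^ 4 / 128))
                        * (1 + (N * uu x) ^ 2) := by gcongr
                    _ = (N * uu x) ^ 4 * Real.exp (-((N * uu x) ^ 4 / 128))
                      + (N * uu x) ^ 6 * Real.exp (-((N * uu x) ^ 4 / 128)) := by ring
                    _ ≤ 2 * 32769 := by linarith
              _ = _ := by ring
      _ = 694 * 32769 / N ^ 4 * ((N / 2)⁻¹ *
          (Real.arctan (N / 2 * δ) - Real.arctan (N / 2 * -δ))) := by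
          rw [intervalIntegral.integral_const_mul,
            intervalIntegral.integral_comp_mul_left (fun x => (1 + x ^ 2)⁻¹)
              (by positivity : N / 2 ≠ 0), integral_inv_one_add_sq, smul_eq_mul]
      _ ≤ 694 * 32769 / N ^ 4 * ((N / 2)⁻¹ * π) := by
          have a1 := Real.arctan_lt_pi_div_two (N / 2 * δ)
          have a2 := Real.neg_pi_div_two_lt_arctan (N / 2 * -δ)
          have a3 : Real.arctan (N / 2 * δ) - Real.arctan (N / 2 * -δ) ≤ π := by linarith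
          gcongr
      _ = _ := by
          field_simp

lemma far {δ : ℝ} (hδ : 0 < δ) (k n : ℕ) {N : ℝ} (hN : 1 ≤ N) (hn : N ^ 4 = n) {x : ℝ}
    (h1 : δ ≤ |x|) (h2 : |x| ≤ π) :
    ‖Psi x * GG k n x‖ ≤ (18 * 32769 / δ ^ 2) / N ^ 7 := by
  have hN0 : 0 < N := by linarith
  have key1 : Real.exp (-(n * uu x ^ 4 / 128))
      = Real.exp (-((N * uu x) ^ 4 / 128)) := by
    rw [mul_pow, hn]
  have hu := uu_nonneg x
  have hu2 := uu_ge h2
  have hu3 : δ / 2 ≤ uu x := by linarith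
  rw [norm_mul]
  calc ‖Psi x‖ * ‖GG k n x‖ ≤ 9 / 2 * uu x ^ 5 * Real.exp (-(n * uu x ^ 4 / 128)) := by
        gcongr
        · exact Psi_norm x
        · exact GG_norm k n x
    _ = 9 / 2 * ((N * uu x) ^ 5 * Real.exp (-((N * uu x) ^ 4 / 128))) / N ^ 5 := by
        rw [key1]; field_simp
    _ ≤ 9 / 2 * (32769 / (N * (δ / 2)) ^ 2) / N ^ 5 := by
        have e7 := expb (x := N * uu x) (by positivity) (j := 7) (by norm_num)
        have : (N * uu x) ^ 5 * Real.exp (-((N * uu x) ^ 4 / 128))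
            ≤ 32769 / (N * (δ / 2)) ^ 2 := by
          rw [le_div_iff₀ (by positivity)]
          calc (N * uu x) ^ 5 * Real.exp (-((N * uu x) ^ 4 / 128)) * (N * (δ / 2)) ^ 2
              ≤ (N * uu x) ^ 5 * Real.exp (-((N * uu x) ^ 4 / 128)) * (N * uu x) ^ 2 := by
                gcongr
            _ = (N * uu x) ^ 7 * Real.exp (-((N * uu x) ^ 4 / 128)) := by ring
            _ ≤ _ := e7
        gcongr
    _ = _ := by
        field_simp
        norm_num

lemma hh_symm (k n : ℕ) :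
    2 * π * hh k n = ∫ x in (-π)..π, Psi x * GG k n x := by
  have e : ∀ θ : ℝ, exp (-(k * θ * I)) * fn n (exp (θ * I)) = Psi θ * GG k n θ := by
    intro θ
    rw [fn_eq n (norm_exp_I θ).le]
    unfold Psi GG UU QQ PP EE
    ring
  have hp : Function.Periodic (fun θ : ℝ => Psi θ * GG k n θ) (2 * π) := by
    intro θ
    simp only
    rw [← e, ← e]
    have h1 : exp (((θ + 2 * π : ℝ) : ℂ) * I) = exp (θ * I) := by
      have : (((θ + 2 * π : ℝ) : ℂ) * I) = θ * I + 2 * π * I := by push_cast; ring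
      rw [this, Complex.exp_add, Complex.exp_two_pi_mul_I, mul_one]
    have h2 : ∀ θ : ℝ, exp (-(k * θ * I)) = (exp (θ * I) ^ k)⁻¹ := by
      intro θ
      rw [Complex.exp_neg, ← Complex.exp_nat_mul]
      congr 2
      ring
    rw [h2, h2, h1]
  have h1 := hp.intervalIntegral_add_eq 0 (-π)
  have hpi : (π : ℂ) ≠ 0 := by exact_mod_cast Real.pi_ne_zero
  have hpi2 : (2 * π : ℂ) * (1 / (2 * π)) = 1 := by field_simp
  unfold hh
  rw [← mul_assoc, hpi2, one_mul]
  simp_rw [e]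
  rw [zero_add] at h1
  rw [h1]
  congr 1
  ring

lemma GG_cont (k n : ℕ) : Continuous (fun x => Psi x * GG k n x) := by
  rw [continuous_iff_continuousAt]
  intro x
  have cQ := (dQ x).continuousAt
  have cP := (dP x).continuousAt
  have c1 : ContinuousAt (fun θ : ℝ => exp (-(k * θ * I))) x := by
    apply Continuous.continuousAt
    fun_prop
  exact (dPsi x).continuousAt.mul (c1.mul ((cP.div cQ (QQ_ne x)).pow n))

/-- the coefficients decay in sup norm -/
lemma sup_decay : ∃ C : ℝ, 0 < C ∧ ∀ (k n : ℕ) (N : ℝ), 1 ≤ N → N ^ 4 = n →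
    ‖hh k n‖ ≤ C / N ^ 7 := by
  obtain ⟨δ, hδ, hδ1, hd⟩ := exists_delta
  have hpi := Real.pi_gt_three
  refine ⟨(54 + 2776 * π) * 32769 + (18 * 32769 / δ ^ 2) * (2 * π), by positivity, ?_⟩
  intro k n N hN hn
  have hN0 : 0 < N := by linarith
  have hc := GG_cont k n
  have hI : ∀ a b, IntervalIntegrable (fun x => Psi x * GG k n x) volume a b :=
    fun a b => hc.intervalIntegrable a b
  have h1 := near hδ hδ1 hd k n hN hn
  have h2 : ‖∫ x in (-π)..(-δ), Psi x * GG k n x‖ ≤ ((18 * 32769 / δ ^ 2) / N ^ 7) * |(-δ) - (-π)| := by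
    apply intervalIntegral.norm_integral_le_of_norm_le_const
    intro x hx
    rw [uIoc_of_le (by linarith)] at hx
    have hx0 : x < 0 := by linarith [hx.2]
    apply far hδ k n hN hn
    · rw [abs_of_neg hx0]; linarith [hx.2]
    · rw [abs_of_neg hx0]; linarith [hx.1]
  have h3 : ‖∫ x in δ..π, Psi x * GG k n x‖ ≤ ((18 * 32769 / δ ^ 2) / N ^ 7) * |π - δ| := by
    apply intervalIntegral.norm_integral_le_of_norm_le_const
    intro x hx
    rw [uIoc_of_le (by linarith)] at hx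
    have hx0 : 0 < x := by linarith [hx.1]
    apply far hδ k n hN hn
    · rw [abs_of_pos hx0]; linarith [hx.1]
    · rw [abs_of_pos hx0]; linarith [hx.2]
  have e2 : |(-δ) - (-π)| ≤ π := by rw [abs_le]; constructor <;> linarith
  have e3 : |π - δ| ≤ π := by rw [abs_le]; constructor <;> linarith
  have hs : ‖∫ x in (-π)..π, Psi x * GG k n x‖
      ≤ ((54 + 2776 * π) * 32769) / N ^ 7 + 2 * (((18 * 32769 / δ ^ 2) / N ^ 7) * π) := by
    rw [← intervalIntegral.integral_add_adjacent_intervals (hI (-π) δ) (hI δ π),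
      ← intervalIntegral.integral_add_adjacent_intervals (hI (-π) (-δ)) (hI (-δ) δ)]
    have h2' : ‖∫ x in (-π)..(-δ), Psi x * GG k n x‖ ≤ ((18 * 32769 / δ ^ 2) / N ^ 7) * π := by
      refine h2.trans ?_
      gcongr
    have h3' : ‖∫ x in δ..π, Psi x * GG k n x‖ ≤ ((18 * 32769 / δ ^ 2) / N ^ 7) * π := by
      refine h3.trans ?_
      gcongr
    refine (norm_add_le _ _).trans ?_
    have := norm_add_le (∫ x in (-π)..(-δ), Psi x * GG k n x) (∫ x in (-δ)..δ, Psi x * GG k n x)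
    linarith
  have h4 : ‖hh k n‖ ≤ ‖(2 * π : ℂ) * hh k n‖ := by
    rw [norm_mul, norm_mul, Complex.norm_real, Real.norm_of_nonneg (by linarith)]
    have : (1 : ℝ) ≤ ‖(2 : ℂ)‖ * π := by
      rw [Complex.norm_ofNat]; linarith
    have h5 := norm_nonneg (hh k n)
    nlinarith
  rw [hh_symm] at h4
  refine h4.trans (hs.trans (le_of_eq ?_))
  ring

end H10.Dau
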