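import Pool.Agent.H10.EllDefs

set_option autoImplicit false

open Set MeasureTheory Filter Topology

namespace Pool.Agent.H10.Ell

theorem pd0 (f : ℝ → ℝ → ℝ → ℝ) (p : Fin 3 → ℝ) :
    pd 0 (fun q : Fin 3 → ℝ => f (q 0) (q 1) (q 2)) p = deriv (fun t => f t (p 1) (p 2)) (p 0) := by
  unfold pd
  simp [Function.update]

theorem pd1 (f : ℝ → ℝ → ℝ → ℝ) (p : Fin 3 → ℝ) :
    pd 1 (fun q : Fin 3 → ℝ => f (q 0) (q 1) (q 2)) p = deriv (fun t => f (p 0) t (p 2)) (p 1) := by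
  unfold pd
  simp [Function.update]

theorem pd2 (f : ℝ → ℝ → ℝ → ℝ) (p : Fin 3 → ℝ) :
    pd 2 (fun q : Fin 3 → ℝ => f (q 0) (q 1) (q 2)) p = deriv (fun t => f (p 0) (p 1) t) (p 2) := by
  unfold pd
  simp [Function.update]

/-- computing the operator through the flux `V = A ∇u`, known off the axis -/
theorem op_eq (A : Fin 3 → Fin 3 → (Fin 3 → ℝ) → ℝ) (c u : (Fin 3 → ℝ) → ℝ)
    (V : Fin 3 → (Fin 3 → ℝ) → ℝ)
    (hV : ∀ q : Fin 3 → ℝ, 0 < q 0 ^ 2 + q 1 ^ 2 → ∀ i, ∑ j, A i j q * pd j u q = V i q)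
    (p : Fin 3 → ℝ) (hp : 0 < p 0 ^ 2 + p 1 ^ 2) :
    op A c u p = -∑ i, pd i (V i) p + c p * u p := by
  unfold op
  congr 2
  refine Finset.sum_congr rfl fun i _ => ?_
  unfold pd
  apply Filter.EventuallyEq.deriv_eq
  have hc : ContinuousAt (fun t : ℝ => (Function.update p i t) 0 ^ 2 + (Function.update p i t) 1 ^ 2)
      (p i) := by
    have h : Continuous (fun t : ℝ => Function.update p i t) := by fun_prop
    have h0 : Continuous (fun t : ℝ => (Function.update p i t) 0) := (continuous_apply 0).comp h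
    have h1 : Continuous (fun t : ℝ => (Function.update p i t) 1) := (continuous_apply 1).comp h
    exact ((h0.pow 2).add (h1.pow 2)).continuousAt
  have he : ∀ᶠ t in 𝓝 (p i), 0 < (Function.update p i t) 0 ^ 2 + (Function.update p i t) 1 ^ 2 := by
    apply hc.eventually_const_lt
    simpa using hp
  filter_upwards [he] with t ht
  exact hV _ ht i

/-! ### the explicit functions -/

/-- the defining function of the solid torus -/
noncomputable def wf (x y z : ℝ) : ℝ := 1 - (x ^ 2 + y ^ 2 - 4) ^ 2 - z ^ 2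

noncomputable def rh (x y : ℝ) : ℝ := x ^ 2 + y ^ 2
noncomputable def S1 (x y : ℝ) : ℝ := 2 * x ^ 2 + 4 * x * y + 3 * y ^ 2
noncomputable def S2 (x y : ℝ) : ℝ := 3 * x ^ 2 - 4 * x * y + 2 * y ^ 2

noncomputable def bet (x y z : ℝ) : ℝ := (1 + wf x y z) / (16 * rh x y)
noncomputable def bzf (x y z : ℝ) : ℝ := (1 + wf x y z) * rh x y / 4

noncomputable def D1 (x y : ℝ) : ℝ := 2 * x ^ 2 - 6 * x * y + 9 * y ^ 2
noncomputable def D2 (x y : ℝ) : ℝ := 9 * x ^ 2 + 6 * x * y + 2 * y ^ 2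

noncomputable def alL (x y : ℝ) : ℝ :=
  D1 x y ^ 2 * (2 * x ^ 2 + 3 * x * y + 5 * y ^ 2) / S1 x y
noncomputable def alM (x y : ℝ) : ℝ :=
  D2 x y ^ 2 * (5 * x ^ 2 - 3 * x * y + 2 * y ^ 2) / S2 x y

noncomputable def cof (al : ℝ → ℝ → ℝ) (i j : Fin 3) (x y z : ℝ) : ℝ :=
  (![![bet x y z * x ^ 2 + al x y * y ^ 2, (bet x y z - al x y) * x * y, 0],
    ![(bet x y z - al x y) * x * y, bet x y z * y ^ 2 + al x y * x ^ 2, 0],
    ![0, 0, bzf x y z]] : Fin 3 → Fin 3 → ℝ) i j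

noncomputable def AA (al : ℝ → ℝ → ℝ) (i j : Fin 3) (p : Fin 3 → ℝ) : ℝ :=
  cof al i j (p 0) (p 1) (p 2)

noncomputable def cL (x y z : ℝ) : ℝ :=
  rh x y * D1 x y - 2 * rh x y + (rh x y - 4) / 4 + (1 + wf x y z) / (16 * rh x y)
noncomputable def cM (x y z : ℝ) : ℝ :=
  rh x y * D2 x y - 2 * rh x y + (rh x y - 4) / 4 + (1 + wf x y z) / (16 * rh x y)

noncomputable def uf (x y z : ℝ) : ℝ := wf x y z * y / D1 x y
noncomputable def vf (x y z : ℝ) : ℝ := -(wf x y z * x / D2 x y)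

noncomputable def af (x y : ℝ) : ℝ := (x ^ 2 + 9 * x * y + 28 * y ^ 2) * D2 x y
noncomputable def bf (x y : ℝ) : ℝ := (28 * x ^ 2 - 9 * x * y + y ^ 2) * D1 x y

theorem D1_pos (x y : ℝ) (h : 0 < x ^ 2 + y ^ 2) : 0 < D1 x y := by
  unfold D1; nlinarith [sq_nonneg (5 * x - 18 * y), sq_nonneg (x - 3 * y), sq_nonneg (x - 2 * y)]

theorem D2_pos (x y : ℝ) (h : 0 < x ^ 2 + y ^ 2) : 0 < D2 x y := by
  unfold D2; nlinarith [sq_nonneg (3 * x + y), sq_nonneg (2 * x + y)]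

theorem S1_pos (x y : ℝ) (h : 0 < x ^ 2 + y ^ 2) : 0 < S1 x y := by
  unfold S1; nlinarith [sq_nonneg (x + y), sq_nonneg (2 * x + 3 * y), sq_nonneg (3 * x + 4 * y)]

theorem S2_pos (x y : ℝ) (h : 0 < x ^ 2 + y ^ 2) : 0 < S2 x y := by
  unfold S2; nlinarith [sq_nonneg (x - y), sq_nonneg (3 * x - 2 * y), sq_nonneg (4 * x - 3 * y)]

section derivs

variable (x y z : ℝ)

theorem dr0 : HasDerivAt (fun t => t ^ 2 + y ^ 2) (2 * x) x :=
  ((hasDerivAt_pow 2 x).add_const (y ^ 2)).congr_deriv (by simp)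

theorem dr1 : HasDerivAt (fun t => x ^ 2 + t ^ 2) (2 * y) y :=
  ((hasDerivAt_pow 2 y).const_add (x ^ 2)).congr_deriv (by simp)

theorem dw0 : HasDerivAt (fun t => wf t y z) (-4 * x * (x ^ 2 + y ^ 2 - 4)) x :=
  (((((dr0 x y).sub_const 4).pow 2).const_sub 1).sub_const (z ^ 2)).congr_deriv (by
    simp only [Nat.cast_ofNat, Nat.add_one_sub_one, pow_one]; ring)

theorem dw1 : HasDerivAt (fun t => wf x t z) (-4 * y * (x ^ 2 + y ^ 2 - 4)) y :=
  (((((dr1 x y).sub_const 4).pow 2).const_sub 1).sub_const (z ^ 2)).congr_deriv (by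
    simp only [Nat.cast_ofNat, Nat.add_one_sub_one, pow_one]; ring)

theorem dw2 : HasDerivAt (fun t => wf x y t) (-2 * z) z :=
  ((hasDerivAt_pow 2 z).const_sub (1 - (x ^ 2 + y ^ 2 - 4) ^ 2)).congr_deriv (by simp)

theorem quad0 (a b c : ℝ) : HasDerivAt (fun t => a * t ^ 2 + b * t * y + c * y ^ 2)
    (2 * a * x + b * y) x :=
  ((((hasDerivAt_pow 2 x).const_mul a).add
    (((hasDerivAt_id x).const_mul b).mul_const y)).add_const (c * y ^ 2)).congr_deriv (by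
      simp only [Nat.cast_ofNat, Nat.add_one_sub_one, pow_one, mul_one]; ring)

theorem quad1 (a b c : ℝ) : HasDerivAt (fun t => a * x ^ 2 + b * x * t + c * t ^ 2)
    (b * x + 2 * c * y) y :=
  (((hasDerivAt_const y (a * x ^ 2)).add ((hasDerivAt_id y).const_mul (b * x))).add
    ((hasDerivAt_pow 2 y).const_mul c)).congr_deriv (by
      simp only [Nat.cast_ofNat, Nat.add_one_sub_one, pow_one, mul_one]; ring)

theorem dD10 : HasDerivAt (fun t => D1 t y) (4 * x - 6 * y) x := by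
  have h := (quad0 x y 2 (-6) 9).congr_deriv (g' := 4 * x - 6 * y) (by ring)
  have e : (fun t => D1 t y) = (fun t => 2 * t ^ 2 + (-6) * t * y + 9 * y ^ 2) := by
    funext t; unfold D1; ring
  rw [e]; exact h

theorem dD11 : HasDerivAt (fun t => D1 x t) (-6 * x + 18 * y) y := by
  have h := (quad1 x y 2 (-6) 9).congr_deriv (g' := -6 * x + 18 * y) (by ring)
  have e : (fun t => D1 x t) = (fun t => 2 * x ^ 2 + (-6) * x * t + 9 * t ^ 2) := by
    funext t; unfold D1; ring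
  rw [e]; exact h

theorem dD20 : HasDerivAt (fun t => D2 t y) (18 * x + 6 * y) x :=
  (quad0 x y 9 6 2).congr_deriv (by ring)

theorem dD21 : HasDerivAt (fun t => D2 x t) (6 * x + 4 * y) y :=
  (quad1 x y 9 6 2).congr_deriv (by ring)

variable (h : 0 < x ^ 2 + y ^ 2)

include h

theorem du0 : HasDerivAt (fun t => uf t y z)
    (-4 * x * (x ^ 2 + y ^ 2 - 4) * y / D1 x y - wf x y z * y * (4 * x - 6 * y) / D1 x y ^ 2) x := by
  have hD := (D1_pos x y h).ne'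
  refine (((dw0 x y z).mul_const y).div (dD10 x y) hD).congr_deriv ?_
  field_simp

theorem du1 : HasDerivAt (fun t => uf x t z)
    ((-4 * y * (x ^ 2 + y ^ 2 - 4) * y + wf x y z) / D1 x y -
      wf x y z * y * (-6 * x + 18 * y) / D1 x y ^ 2) y := by
  have hD := (D1_pos x y h).ne'
  refine (((dw1 x y z).mul (hasDerivAt_id y)).div (dD11 x y) hD).congr_deriv ?_
  simp only [id, mul_one, Pi.mul_apply]
  field_simp

omit h in
theorem du2 : HasDerivAt (fun t => uf x y t) (-2 * z * y / D1 x y) z :=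
  ((dw2 x y z).mul_const y).div_const (D1 x y)

end derivs

/-- the flux of `u` -/
noncomputable def PL (x y z : ℝ) : ℝ :=
  -((1 + wf x y z) * (4 * rh x y * (rh x y - 4) + wf x y z) * y / (16 * rh x y * D1 x y))
noncomputable def JL (x y : ℝ) : ℝ := (x - 2 * y) * (2 * x ^ 2 + 3 * x * y + 5 * y ^ 2)

noncomputable def VL (i : Fin 3) (x y z : ℝ) : ℝ :=
  (![x * PL x y z - y * (wf x y z * JL x y), y * PL x y z + x * (wf x y z * JL x y),
    -((1 + wf x y z) * z * (rh x y * y / (2 * D1 x y)))] : Fin 3 → ℝ) i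

theorem flux_L (q : Fin 3 → ℝ) (hq : 0 < q 0 ^ 2 + q 1 ^ 2) (i : Fin 3) :
    ∑ j, AA alL i j q * pd j (fun p => uf (p 0) (p 1) (p 2)) q = VL i (q 0) (q 1) (q 2) := by
  rw [Fin.sum_univ_three, pd0, pd1, pd2, (du0 _ _ _ hq).deriv, (du1 _ _ _ hq).deriv,
    (du2 _ _ _).deriv]
  have hD := (D1_pos _ _ hq).ne'
  have hS := (S1_pos _ _ hq).ne'
  have hr : rh (q 0) (q 1) ≠ 0 := hq.ne'
  unfold AA VL
  generalize q 0 = x at *
  generalize q 1 = y at *
  generalize q 2 = z at *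
  obtain ⟨d, hd⟩ : ∃ d, d = D1 x y := ⟨_, rfl⟩
  obtain ⟨s, hs⟩ : ∃ s, s = S1 x y := ⟨_, rfl⟩
  obtain ⟨r, hrr⟩ : ∃ r, r = rh x y := ⟨_, rfl⟩
  obtain ⟨w, hw⟩ : ∃ w, w = wf x y z := ⟨_, rfl⟩
  rw [← hd] at hD
  rw [← hs] at hS
  rw [← hrr] at hr
  fin_cases i
  · simp only [cof, PL, JL, alL, bet, Fin.zero_eta, Matrix.cons_val_zero, Matrix.cons_val_one,
      Matrix.cons_val]
    rw [← hd, ← hs, ← hrr, ← hw]
    field_simp
    rw [hd, hs, hrr]
    unfold D1 S1 rh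
    ring
  · simp only [cof, PL, JL, alL, bet, Fin.mk_one, Matrix.cons_val_zero, Matrix.cons_val_one,
      Matrix.cons_val]
    rw [← hd, ← hs, ← hrr, ← hw]
    field_simp
    rw [hd, hs, hrr]
    unfold D1 S1 rh
    ring
  · simp only [cof, bzf, Fin.reduceFinMk, Matrix.cons_val_zero, Matrix.cons_val_one,
      Matrix.cons_val]
    rw [← hd, ← hrr, ← hw]
    field_simp
    ring

section dL

variable (x y z : ℝ)

theorem drh0 : HasDerivAt (fun t => rh t y) (2 * x) x := dr0 x y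
theorem drh1 : HasDerivAt (fun t => rh x t) (2 * y) y := dr1 x y

theorem dJL0 : HasDerivAt (fun t => JL t y)
    (2 * x ^ 2 + 3 * x * y + 5 * y ^ 2 + (x - 2 * y) * (4 * x + 3 * y)) x :=
  (((hasDerivAt_id x).sub_const (2 * y)).mul (quad0 x y 2 3 5)).congr_deriv (by
    simp only [id]; ring)

theorem dJL1 : HasDerivAt (fun t => JL x t)
    (-2 * (2 * x ^ 2 + 3 * x * y + 5 * y ^ 2) + (x - 2 * y) * (3 * x + 10 * y)) y :=
  ((((hasDerivAt_id y).const_mul 2).const_sub x).mul (quad1 x y 2 3 5)).congr_deriv (by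
    simp only [id]; ring)

variable (h : 0 < x ^ 2 + y ^ 2)

include h

theorem dPL0 : HasDerivAt (fun t => PL t y z)
    (-((((-4 * x * (x ^ 2 + y ^ 2 - 4)) * (4 * rh x y * (rh x y - 4) + wf x y z) +
      (1 + wf x y z) * (8 * x * (rh x y - 4) + 4 * rh x y * (2 * x) +
        (-4 * x * (x ^ 2 + y ^ 2 - 4)))) * y * (16 * rh x y * D1 x y) -
      (1 + wf x y z) * (4 * rh x y * (rh x y - 4) + wf x y z) * y *
        (16 * (2 * x) * D1 x y + 16 * rh x y * (4 * x - 6 * y))) /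
      (16 * rh x y * D1 x y) ^ 2)) x := by
  have hD := (D1_pos x y h).ne'
  have hr : rh x y ≠ 0 := h.ne'
  have hne : 16 * rh x y * D1 x y ≠ 0 := by positivity
  refine (((((dw0 x y z).const_add 1).mul ((((drh0 x y).const_mul 4).mul
    ((drh0 x y).sub_const 4)).add (dw0 x y z))).mul_const y).div
      (((drh0 x y).const_mul 16).mul (dD10 x y)) hne).neg.congr_deriv ?_
  simp only [Pi.mul_apply, Pi.add_apply]
  ring

theorem dPL1 : HasDerivAt (fun t => PL x t z)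
    (-(((((-4 * y * (x ^ 2 + y ^ 2 - 4)) * (4 * rh x y * (rh x y - 4) + wf x y z) +
      (1 + wf x y z) * (8 * y * (rh x y - 4) + 4 * rh x y * (2 * y) +
        (-4 * y * (x ^ 2 + y ^ 2 - 4)))) * y +
          (1 + wf x y z) * (4 * rh x y * (rh x y - 4) + wf x y z)) * (16 * rh x y * D1 x y) -
      (1 + wf x y z) * (4 * rh x y * (rh x y - 4) + wf x y z) * y *
        (16 * (2 * y) * D1 x y + 16 * rh x y * (-6 * x + 18 * y))) /
      (16 * rh x y * D1 x y) ^ 2)) y := by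
  have hD := (D1_pos x y h).ne'
  have hr : rh x y ≠ 0 := h.ne'
  have hne : 16 * rh x y * D1 x y ≠ 0 := by positivity
  refine (((((dw1 x y z).const_add 1).mul ((((drh1 x y).const_mul 4).mul
    ((drh1 x y).sub_const 4)).add (dw1 x y z))).mul (hasDerivAt_id y)).div
      (((drh1 x y).const_mul 16).mul (dD11 x y)) hne).neg.congr_deriv ?_
  simp only [Pi.mul_apply, Pi.add_apply, id]
  ring

end dL

theorem op_L (p : Fin 3 → ℝ) (hp : 0 < p 0 ^ 2 + p 1 ^ 2) :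
    op (AA alL) (fun q => cL (q 0) (q 1) (q 2)) (fun q => uf (q 0) (q 1) (q 2)) p +
      af (p 0) (p 1) * vf (p 0) (p 1) (p 2) = 0 := by
  rw [op_eq _ _ _ (fun i q => VL i (q 0) (q 1) (q 2)) flux_L p hp, Fin.sum_univ_three, pd0, pd1,
    pd2]
  have e0 : HasDerivAt (fun t => VL 0 t (p 1) (p 2)) _ (p 0) :=
    ((hasDerivAt_id (p 0)).mul (dPL0 (p 0) (p 1) (p 2) hp)).sub
      (((dw0 (p 0) (p 1) (p 2)).mul (dJL0 (p 0) (p 1))).const_mul (p 1))
  have e1 : HasDerivAt (fun t => VL 1 (p 0) t (p 2)) _ (p 1) :=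
    ((hasDerivAt_id (p 1)).mul (dPL1 (p 0) (p 1) (p 2) hp)).add
      (((dw1 (p 0) (p 1) (p 2)).mul (dJL1 (p 0) (p 1))).const_mul (p 0))
  have e2 : HasDerivAt (fun t => VL 2 (p 0) (p 1) t) _ (p 2) :=
    ((((dw2 (p 0) (p 1) (p 2)).const_add 1).mul (hasDerivAt_id (p 2))).mul_const
      (rh (p 0) (p 1) * (p 1) / (2 * D1 (p 0) (p 1)))).neg
  rw [e0.deriv, e1.deriv, e2.deriv]
  simp only [id]
  have hD := (D1_pos _ _ hp).ne'
  have hD2 := (D2_pos _ _ hp).ne'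
  have hr : rh (p 0) (p 1) ≠ 0 := hp.ne'
  generalize p 0 = x at *
  generalize p 1 = y at *
  generalize p 2 = z at *
  unfold PL cL uf af vf
  obtain ⟨d, hd⟩ : ∃ d, d = D1 x y := ⟨_, rfl⟩
  obtain ⟨d', hd'⟩ : ∃ d', d' = D2 x y := ⟨_, rfl⟩
  obtain ⟨r, hrr⟩ : ∃ r, r = rh x y := ⟨_, rfl⟩
  obtain ⟨w, hw⟩ : ∃ w, w = wf x y z := ⟨_, rfl⟩
  rw [← hd] at hD
  rw [← hd'] at hD2
  rw [← hrr] at hr
  rw [← hd, ← hrr, ← hw, ← hd']
  field_simp
  rw [hd, hrr, hw]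
  unfold D1 rh wf JL
  ring

/-! ### the operator `M` -/

section dM

variable (x y z : ℝ)

theorem dv2 : HasDerivAt (fun t => vf x y t) (2 * z * x / D2 x y) z :=
  (((dw2 x y z).mul_const x).div_const (D2 x y)).neg.congr_deriv (by ring)

variable (h : 0 < x ^ 2 + y ^ 2)

include h

theorem dv1 : HasDerivAt (fun t => vf x t z)
    (4 * y * (x ^ 2 + y ^ 2 - 4) * x / D2 x y + wf x y z * x * (6 * x + 4 * y) / D2 x y ^ 2) y := by
  have hD := (D2_pos x y h).ne'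
  refine (((dw1 x y z).mul_const x).div (dD21 x y) hD).neg.congr_deriv ?_
  field_simp
  ring

theorem dv0 : HasDerivAt (fun t => vf t y z)
    ((4 * x * (x ^ 2 + y ^ 2 - 4) * x - wf x y z) / D2 x y +
      wf x y z * x * (18 * x + 6 * y) / D2 x y ^ 2) x := by
  have hD := (D2_pos x y h).ne'
  refine (((dw0 x y z).mul (hasDerivAt_id x)).div (dD20 x y) hD).neg.congr_deriv ?_
  simp only [id, mul_one, Pi.mul_apply]
  field_simp
  ring

end dM

/-- the flux of `v` -/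
noncomputable def PM (x y z : ℝ) : ℝ :=
  (1 + wf x y z) * (4 * rh x y * (rh x y - 4) + wf x y z) * x / (16 * rh x y * D2 x y)
noncomputable def JM (x y : ℝ) : ℝ := (2 * x + y) * (5 * x ^ 2 + (-3) * x * y + 2 * y ^ 2)

noncomputable def VM (i : Fin 3) (x y z : ℝ) : ℝ :=
  (![x * PM x y z - y * (wf x y z * JM x y), y * PM x y z + x * (wf x y z * JM x y),
    (1 + wf x y z) * z * (rh x y * x / (2 * D2 x y))] : Fin 3 → ℝ) i

theorem flux_M (q : Fin 3 → ℝ) (hq : 0 < q 0 ^ 2 + q 1 ^ 2) (i : Fin 3) :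
    ∑ j, AA alM i j q * pd j (fun p => vf (p 0) (p 1) (p 2)) q = VM i (q 0) (q 1) (q 2) := by
  rw [Fin.sum_univ_three, pd0, pd1, pd2, (dv0 _ _ _ hq).deriv, (dv1 _ _ _ hq).deriv,
    (dv2 _ _ _).deriv]
  have hD := (D2_pos _ _ hq).ne'
  have hS := (S2_pos _ _ hq).ne'
  have hr : rh (q 0) (q 1) ≠ 0 := hq.ne'
  unfold AA VM
  generalize q 0 = x at *
  generalize q 1 = y at *
  generalize q 2 = z at *
  obtain ⟨d, hd⟩ : ∃ d, d = D2 x y := ⟨_, rfl⟩
  obtain ⟨s, hs⟩ : ∃ s, s = S2 x y := ⟨_, rfl⟩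
  obtain ⟨r, hrr⟩ : ∃ r, r = rh x y := ⟨_, rfl⟩
  obtain ⟨w, hw⟩ : ∃ w, w = wf x y z := ⟨_, rfl⟩
  rw [← hd] at hD
  rw [← hs] at hS
  rw [← hrr] at hr
  fin_cases i
  · simp only [cof, PM, JM, alM, bet, Fin.zero_eta, Matrix.cons_val_zero, Matrix.cons_val_one,
      Matrix.cons_val]
    rw [← hd, ← hs, ← hrr, ← hw]
    field_simp
    rw [hd, hs, hrr]
    unfold D2 S2 rh
    ring
  · simp only [cof, PM, JM, alM, bet, Fin.mk_one, Matrix.cons_val_zero, Matrix.cons_val_one,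
      Matrix.cons_val]
    rw [← hd, ← hs, ← hrr, ← hw]
    field_simp
    rw [hd, hs, hrr]
    unfold D2 S2 rh
    ring
  · simp only [cof, bzf, Fin.reduceFinMk, Matrix.cons_val_zero, Matrix.cons_val_one,
      Matrix.cons_val]
    rw [← hd, ← hrr, ← hw]
    field_simp
    ring

section dM'

variable (x y z : ℝ)

theorem dJM0 : HasDerivAt (fun t => JM t y)
    (2 * (5 * x ^ 2 + (-3) * x * y + 2 * y ^ 2) + (2 * x + y) * (10 * x - 3 * y)) x :=
  ((((hasDerivAt_id x).const_mul 2).add_const y).mul (quad0 x y 5 (-3) 2)).congr_deriv (by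
    simp only [id]; ring)

theorem dJM1 : HasDerivAt (fun t => JM x t)
    (5 * x ^ 2 + (-3) * x * y + 2 * y ^ 2 + (2 * x + y) * (-3 * x + 4 * y)) y :=
  (((hasDerivAt_id y).const_add (2 * x)).mul (quad1 x y 5 (-3) 2)).congr_deriv (by
    simp only [id]; ring)

variable (h : 0 < x ^ 2 + y ^ 2)

include h

theorem dPM1 : HasDerivAt (fun t => PM x t z)
    ((((-4 * y * (x ^ 2 + y ^ 2 - 4)) * (4 * rh x y * (rh x y - 4) + wf x y z) +
      (1 + wf x y z) * (8 * y * (rh x y - 4) + 4 * rh x y * (2 * y) +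
        (-4 * y * (x ^ 2 + y ^ 2 - 4)))) * x * (16 * rh x y * D2 x y) -
      (1 + wf x y z) * (4 * rh x y * (rh x y - 4) + wf x y z) * x *
        (16 * (2 * y) * D2 x y + 16 * rh x y * (6 * x + 4 * y))) /
      (16 * rh x y * D2 x y) ^ 2) y := by
  have hD := (D2_pos x y h).ne'
  have hr : rh x y ≠ 0 := h.ne'
  have hne : 16 * rh x y * D2 x y ≠ 0 := by positivity
  refine (((((dw1 x y z).const_add 1).mul ((((drh1 x y).const_mul 4).mul
    ((drh1 x y).sub_const 4)).add (dw1 x y z))).mul_const x).div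
      (((drh1 x y).const_mul 16).mul (dD21 x y)) hne).congr_deriv ?_
  simp only [Pi.mul_apply, Pi.add_apply]
  ring

theorem dPM0 : HasDerivAt (fun t => PM t y z)
    (((((-4 * x * (x ^ 2 + y ^ 2 - 4)) * (4 * rh x y * (rh x y - 4) + wf x y z) +
      (1 + wf x y z) * (8 * x * (rh x y - 4) + 4 * rh x y * (2 * x) +
        (-4 * x * (x ^ 2 + y ^ 2 - 4)))) * x +
          (1 + wf x y z) * (4 * rh x y * (rh x y - 4) + wf x y z)) * (16 * rh x y * D2 x y) -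
      (1 + wf x y z) * (4 * rh x y * (rh x y - 4) + wf x y z) * x *
        (16 * (2 * x) * D2 x y + 16 * rh x y * (18 * x + 6 * y))) /
      (16 * rh x y * D2 x y) ^ 2) x := by
  have hD := (D2_pos x y h).ne'
  have hr : rh x y ≠ 0 := h.ne'
  have hne : 16 * rh x y * D2 x y ≠ 0 := by positivity
  refine (((((dw0 x y z).const_add 1).mul ((((drh0 x y).const_mul 4).mul
    ((drh0 x y).sub_const 4)).add (dw0 x y z))).mul (hasDerivAt_id x)).div
      (((drh0 x y).const_mul 16).mul (dD20 x y)) hne).congr_deriv ?_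
  simp only [Pi.mul_apply, Pi.add_apply, id]
  ring

end dM'

theorem op_M (p : Fin 3 → ℝ) (hp : 0 < p 0 ^ 2 + p 1 ^ 2) :
    -(bf (p 0) (p 1) * uf (p 0) (p 1) (p 2)) +
    op (AA alM) (fun q => cM (q 0) (q 1) (q 2)) (fun q => vf (q 0) (q 1) (q 2)) p = 0 := by
  rw [op_eq _ _ _ (fun i q => VM i (q 0) (q 1) (q 2)) flux_M p hp, Fin.sum_univ_three, pd0, pd1,
    pd2]
  have e0 : HasDerivAt (fun t => VM 0 t (p 1) (p 2)) _ (p 0) :=
    ((hasDerivAt_id (p 0)).mul (dPM0 (p 0) (p 1) (p 2) hp)).sub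
      (((dw0 (p 0) (p 1) (p 2)).mul (dJM0 (p 0) (p 1))).const_mul (p 1))
  have e1 : HasDerivAt (fun t => VM 1 (p 0) t (p 2)) _ (p 1) :=
    ((hasDerivAt_id (p 1)).mul (dPM1 (p 0) (p 1) (p 2) hp)).add
      (((dw1 (p 0) (p 1) (p 2)).mul (dJM1 (p 0) (p 1))).const_mul (p 0))
  have e2 : HasDerivAt (fun t => VM 2 (p 0) (p 1) t) _ (p 2) :=
    ((((dw2 (p 0) (p 1) (p 2)).const_add 1).mul (hasDerivAt_id (p 2))).mul_const
      (rh (p 0) (p 1) * (p 0) / (2 * D2 (p 0) (p 1))))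
  rw [e0.deriv, e1.deriv, e2.deriv]
  simp only [id]
  have hD := (D2_pos _ _ hp).ne'
  have hD2 := (D1_pos _ _ hp).ne'
  have hr : rh (p 0) (p 1) ≠ 0 := hp.ne'
  generalize p 0 = x at *
  generalize p 1 = y at *
  generalize p 2 = z at *
  unfold PM cM uf bf vf
  obtain ⟨d, hd⟩ : ∃ d, d = D2 x y := ⟨_, rfl⟩
  obtain ⟨d', hd'⟩ : ∃ d', d' = D1 x y := ⟨_, rfl⟩
  obtain ⟨r, hrr⟩ : ∃ r, r = rh x y := ⟨_, rfl⟩
  obtain ⟨w, hw⟩ : ∃ w, w = wf x y z := ⟨_, rfl⟩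
  rw [← hd] at hD
  rw [← hd'] at hD2
  rw [← hrr] at hr
  rw [← hd, ← hrr, ← hw, ← hd']
  field_simp
  rw [hd, hrr, hw]
  unfold D2 rh wf JM
  ring

end Pool.Agent.H10.Ell
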