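import Mathlib

/-! Definitions for MP_f60174_an: coupled elliptic Dirichlet systems on smooth domains. -/

set_option autoImplicit false

open Set MeasureTheory
open scoped ContDiff

namespace Pool.Agent.H10.Ell

variable {n : ℕ}

/-- the partial derivative `∂f/∂x_i` at `p` -/
noncomputable def pd (i : Fin n) (f : (Fin n → ℝ) → ℝ) (p : Fin n → ℝ) : ℝ :=
  deriv (fun t => f (Function.update p i t)) (p i)

/-- `f` is of class `C^k` up to the boundary of `D`: it is `C^k` on an open set containing the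
closure of `D` -/
def SmoothUpTo (k : ℕ∞) (D : Set (Fin n → ℝ)) (f : (Fin n → ℝ) → ℝ) : Prop :=
  ∃ U, IsOpen U ∧ closure D ⊆ U ∧ ContDiffOn ℝ k f U

/-- `D` is a bounded domain whose boundary is smooth and connected; smoothness of the boundary
means that `D = {W > 0}`, `∂D = {W = 0}` for a smooth function `W` whose gradient does not vanish
on `∂D` -/
structure IsSmoothDomain (D : Set (Fin n → ℝ)) : Prop where
  isOpen : IsOpen D
  isConnected : IsConnected D
  isBounded : Bornology.IsBounded D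
  boundary_connected : IsConnected (frontier D)
  boundary_smooth : ∃ W : (Fin n → ℝ) → ℝ, ContDiff ℝ ∞ W ∧ D = {p | 0 < W p} ∧
    frontier D = {p | W p = 0} ∧ ∀ p ∈ frontier D, ∃ i, pd i W p ≠ 0

/-- the operator `w ↦ -∑ ∂_i (A_ij ∂_j w) + c w` -/
noncomputable def op (A : Fin n → Fin n → (Fin n → ℝ) → ℝ) (c : (Fin n → ℝ) → ℝ)
    (w : (Fin n → ℝ) → ℝ) (p : Fin n → ℝ) : ℝ :=
  -∑ i, pd i (fun q => ∑ j, A i j q * pd j w q) p + c p * w p

/-- `w ↦ -∑ ∂_i (A_ij ∂_j w) + c w` has smooth real coefficients, is formally selfadjoint,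
uniformly elliptic, and strictly positive as a Dirichlet operator on `D` -/
structure IsPosElliptic (D : Set (Fin n → ℝ)) (A : Fin n → Fin n → (Fin n → ℝ) → ℝ)
    (c : (Fin n → ℝ) → ℝ) : Prop where
  smooth_A : ∀ i j, SmoothUpTo ⊤ D (A i j)
  smooth_c : SmoothUpTo ⊤ D c
  symm : ∀ i j, A i j = A j i
  elliptic : ∃ lam : ℝ, 0 < lam ∧ ∀ p ∈ D, ∀ ξ : Fin n → ℝ,
    lam * ∑ i, ξ i ^ 2 ≤ ∑ i, ∑ j, A i j p * ξ i * ξ j
  positive : ∃ γ : ℝ, 0 < γ ∧ ∀ w : (Fin n → ℝ) → ℝ, SmoothUpTo 2 D w →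
    (∀ p ∈ frontier D, w p = 0) →
      γ * ∫ p in D, w p ^ 2 ≤ ∫ p in D, op A c w p * w p

end Pool.Agent.H10.Ell
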