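import Pool.Agent.H10.EllPos
import Pool.Agent.H10.EllCalc

set_option autoImplicit false

open Set MeasureTheory Filter Topology
open scoped ContDiff

namespace Pool.Agent.H10.Ell

/-- the solid torus -/
def DD : Set (Fin 3 → ℝ) := {p | 0 < wf (p 0) (p 1) (p 2)}

theorem smooth_wf : ContDiff ℝ ∞ (fun p : Fin 3 → ℝ => wf (p 0) (p 1) (p 2)) := by
  unfold wf; fun_prop

theorem cont_wf : Continuous (fun p : Fin 3 → ℝ => wf (p 0) (p 1) (p 2)) := smooth_wf.continuous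

theorem isOpen_DD : IsOpen DD := isOpen_lt continuous_const cont_wf

theorem wf_bounds (x y z : ℝ) (h : 0 ≤ wf x y z) : 3 ≤ rh x y ∧ rh x y ≤ 5 ∧ |z| ≤ 1 ∧
    wf x y z ≤ 1 := by
  unfold wf at *
  unfold rh
  refine ⟨?_, ?_, ?_, ?_⟩
  · nlinarith [sq_nonneg z]
  · nlinarith [sq_nonneg z]
  · rw [abs_le]; constructor <;> nlinarith [sq_nonneg (x ^ 2 + y ^ 2 - 4)]
  · nlinarith [sq_nonneg z, sq_nonneg (x ^ 2 + y ^ 2 - 4)]

theorem bounded_DD : Bornology.IsBounded DD := by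
  refine (Metric.isBounded_closedBall (x := (0 : Fin 3 → ℝ)) (r := 3)).subset ?_
  intro p hp
  obtain ⟨-, h2, h3, -⟩ := wf_bounds _ _ _ (le_of_lt hp)
  unfold rh at h2
  rw [mem_closedBall_zero_iff, pi_norm_le_iff_of_nonneg (by norm_num)]
  intro i
  rw [Real.norm_eq_abs]
  fin_cases i
  · show |p 0| ≤ 3
    rw [abs_le]; constructor <;> nlinarith [sq_nonneg (p 1)]
  · show |p 1| ≤ 3
    rw [abs_le]; constructor <;> nlinarith [sq_nonneg (p 0)]
  · show |p 2| ≤ 3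
    linarith

/-- parametrisation -/
noncomputable def Phi (q : ℝ × ℝ × ℝ) : Fin 3 → ℝ :=
  ![Real.sqrt (4 + q.1 * Real.cos q.2.2) * Real.cos q.2.1,
    Real.sqrt (4 + q.1 * Real.cos q.2.2) * Real.sin q.2.1, q.1 * Real.sin q.2.2]

theorem cont_Phi : Continuous Phi := by
  unfold Phi
  refine continuous_pi fun i => ?_
  fin_cases i
  · show Continuous fun q : ℝ × ℝ × ℝ => Real.sqrt (4 + q.1 * Real.cos q.2.2) * Real.cos q.2.1
    fun_prop
  · show Continuous fun q : ℝ × ℝ × ℝ => Real.sqrt (4 + q.1 * Real.cos q.2.2) * Real.sin q.2.1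
    fun_prop
  · show Continuous fun q : ℝ × ℝ × ℝ => q.1 * Real.sin q.2.2
    fun_prop

theorem wf_Phi (r a b : ℝ) (h0 : 0 ≤ r) (h1 : r ≤ 1) :
    wf (Phi (r, a, b) 0) (Phi (r, a, b) 1) (Phi (r, a, b) 2) = 1 - r ^ 2 := by
  have hc := Real.neg_one_le_cos b
  have hpos : 0 ≤ 4 + r * Real.cos b := by nlinarith [Real.cos_le_one b]
  have hs := Real.sq_sqrt hpos
  show wf (Real.sqrt (4 + r * Real.cos b) * Real.cos a) (Real.sqrt (4 + r * Real.cos b) *
    Real.sin a) (r * Real.sin b) = _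
  unfold wf
  have e1 : (Real.sqrt (4 + r * Real.cos b) * Real.cos a) ^ 2 +
      (Real.sqrt (4 + r * Real.cos b) * Real.sin a) ^ 2 = 4 + r * Real.cos b := by
    rw [mul_pow, mul_pow, hs, ← mul_add, Real.cos_sq_add_sin_sq, mul_one]
  rw [e1]
  linear_combination (-r ^ 2) * Real.cos_sq_add_sin_sq b

theorem polar (a b r : ℝ) (hr : 0 ≤ r) (h : a ^ 2 + b ^ 2 = r ^ 2) :
    ∃ t, a = r * Real.cos t ∧ b = r * Real.sin t := by
  have hn : ‖(⟨a, b⟩ : ℂ)‖ = r := by
    rw [Complex.norm_def, Complex.normSq_mk, show a * a + b * b = r ^ 2 by linarith,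
      Real.sqrt_sq hr]
  refine ⟨Complex.arg ⟨a, b⟩, ?_, ?_⟩
  · have := Complex.norm_mul_cos_arg ⟨a, b⟩
    rw [hn] at this
    exact this.symm
  · have := Complex.norm_mul_sin_arg ⟨a, b⟩
    rw [hn] at this
    exact this.symm

theorem exists_Phi (p : Fin 3 → ℝ) (r : ℝ) (h0 : 0 ≤ r) (h1 : r ≤ 1)
    (h : wf (p 0) (p 1) (p 2) = 1 - r ^ 2) : ∃ a b, Phi (r, a, b) = p := by
  have e : (p 0 ^ 2 + p 1 ^ 2 - 4) ^ 2 + p 2 ^ 2 = r ^ 2 := by
    unfold wf at h; linarith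
  obtain ⟨b, hb1, hb2⟩ := polar _ _ r h0 e
  have hpos : 0 ≤ 4 + r * Real.cos b := by nlinarith [Real.cos_le_one b, Real.neg_one_le_cos b]
  have e2 : p 0 ^ 2 + p 1 ^ 2 = Real.sqrt (4 + r * Real.cos b) ^ 2 := by
    rw [Real.sq_sqrt hpos]; linarith
  obtain ⟨a, ha1, ha2⟩ := polar _ _ _ (Real.sqrt_nonneg _) e2
  refine ⟨a, b, ?_⟩
  funext i
  fin_cases i
  · exact ha1.symm
  · exact ha2.symm
  · exact hb2.symm

theorem DD_eq : DD = Phi '' (Ico (0 : ℝ) 1 ×ˢ ((univ : Set ℝ) ×ˢ (univ : Set ℝ))) := by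
  ext p
  constructor
  · intro hp
    have hp' : 0 < wf (p 0) (p 1) (p 2) := hp
    have hle := (wf_bounds _ _ _ hp'.le).2.2.2
    have hr2 : Real.sqrt (1 - wf (p 0) (p 1) (p 2)) ^ 2 = 1 - wf (p 0) (p 1) (p 2) :=
      Real.sq_sqrt (by linarith)
    have hlt : Real.sqrt (1 - wf (p 0) (p 1) (p 2)) < 1 := by
      rw [Real.sqrt_lt' one_pos]; linarith
    obtain ⟨a, b, hab⟩ := exists_Phi p _ (Real.sqrt_nonneg _) hlt.le (by rw [hr2]; ring)
    exact ⟨_, ⟨⟨Real.sqrt_nonneg _, hlt⟩, mem_univ _, mem_univ _⟩, hab⟩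
  · rintro ⟨⟨r, a, b⟩, ⟨⟨h0, h1⟩, -⟩, rfl⟩
    show 0 < wf (Phi (r, a, b) 0) (Phi (r, a, b) 1) (Phi (r, a, b) 2)
    simp only at h0 h1
    rw [wf_Phi r a b h0 h1.le]
    nlinarith

theorem zero_eq : {p : Fin 3 → ℝ | wf (p 0) (p 1) (p 2) = 0} =
    Phi '' ({(1 : ℝ)} ×ˢ ((univ : Set ℝ) ×ˢ (univ : Set ℝ))) := by
  ext p
  constructor
  · intro hp
    have hp' : wf (p 0) (p 1) (p 2) = 0 := hp
    obtain ⟨a, b, hab⟩ := exists_Phi p 1 zero_le_one le_rfl (by rw [hp']; ring)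
    exact ⟨(1, a, b), ⟨mem_singleton _, mem_univ _, mem_univ _⟩, hab⟩
  · rintro ⟨⟨r, a, b⟩, ⟨h0, -⟩, rfl⟩
    have h0' : r = 1 := h0
    subst h0'
    show wf (Phi (1, a, b) 0) (Phi (1, a, b) 1) (Phi (1, a, b) 2) = 0
    rw [wf_Phi 1 a b zero_le_one le_rfl]
    ring

theorem frontier_DD : frontier DD = {p | wf (p 0) (p 1) (p 2) = 0} := by
  rw [isOpen_DD.frontier_eq]
  ext p
  constructor
  · rintro ⟨h1, h2⟩
    have h3 : 0 ≤ wf (p 0) (p 1) (p 2) := by
      have hcl : IsClosed {p : Fin 3 → ℝ | 0 ≤ wf (p 0) (p 1) (p 2)} :=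
        isClosed_le continuous_const cont_wf
      have hsub : DD ⊆ {p : Fin 3 → ℝ | 0 ≤ wf (p 0) (p 1) (p 2)} := fun q hq =>
    show 0 ≤ wf (q 0) (q 1) (q 2) from le_of_lt (show 0 < wf (q 0) (q 1) (q 2) from hq)
      exact closure_minimal hsub hcl h1
    exact le_antisymm (not_lt.1 h2) h3
  · intro hp
    refine ⟨?_, ?_⟩
    · rw [zero_eq] at hp
      obtain ⟨q, ⟨hq, -⟩, rfl⟩ := hp
      rw [DD_eq]
      apply image_closure_subset_closure_image cont_Phi
      refine ⟨q, ?_, rfl⟩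
      rw [closure_prod_eq, closure_Ico (by norm_num : (0 : ℝ) ≠ 1)]
      have hq' : q.1 = 1 := hq
      refine ⟨⟨by rw [hq']; norm_num, by rw [hq']⟩, ?_⟩
      rw [univ_prod_univ, closure_univ]
      exact mem_univ _
    · intro h
      have h' : 0 < wf (p 0) (p 1) (p 2) := h
      have hp' : wf (p 0) (p 1) (p 2) = 0 := hp
      linarith

theorem closure_sub (p : Fin 3 → ℝ) (hp : p ∈ closure DD) : 0 ≤ wf (p 0) (p 1) (p 2) := by
  have hcl : IsClosed {p : Fin 3 → ℝ | 0 ≤ wf (p 0) (p 1) (p 2)} :=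
    isClosed_le continuous_const cont_wf
  have hsub : DD ⊆ {p : Fin 3 → ℝ | 0 ≤ wf (p 0) (p 1) (p 2)} := fun q hq =>
    show 0 ≤ wf (q 0) (q 1) (q 2) from le_of_lt (show 0 < wf (q 0) (q 1) (q 2) from hq)
  exact closure_minimal hsub hcl hp

theorem smoothDomain : IsSmoothDomain DD where
  isOpen := isOpen_DD
  isConnected := by
    rw [DD_eq]
    exact ((isConnected_Ico one_pos).prod (isConnected_univ.prod isConnected_univ)).image _
      cont_Phi.continuousOn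
  isBounded := bounded_DD
  boundary_connected := by
    rw [frontier_DD, zero_eq]
    exact (isConnected_singleton.prod (isConnected_univ.prod isConnected_univ)).image _
      cont_Phi.continuousOn
  boundary_smooth := by
    refine ⟨fun p => wf (p 0) (p 1) (p 2), smooth_wf, rfl, frontier_DD, ?_⟩
    intro p hp
    rw [frontier_DD] at hp
    have hp' : wf (p 0) (p 1) (p 2) = 0 := hp
    by_cases hz : p 2 = 0
    · have hb := wf_bounds _ _ _ hp'.ge
      have hr : (p 0 ^ 2 + p 1 ^ 2 - 4) ≠ 0 := by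
        intro h
        unfold wf at hp'
        rw [h, hz] at hp'
        norm_num at hp'
      by_cases hx : p 0 = 0
      · refine ⟨1, ?_⟩
        rw [pd1, (dw1 _ _ _).deriv]
        have hy : p 1 ≠ 0 := by
          intro hy
          have := hb.1
          unfold rh at this
          rw [hx, hy] at this
          norm_num at this
        exact mul_ne_zero (mul_ne_zero (by norm_num) hy) hr
      · refine ⟨0, ?_⟩
        rw [pd0, (dw0 _ _ _).deriv]
        exact mul_ne_zero (mul_ne_zero (by norm_num) hx) hr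
    · refine ⟨2, ?_⟩
      rw [pd2, (dw2 _ _ _).deriv]
      exact mul_ne_zero (by norm_num) hz

theorem sq_finite (c : ℝ) : {t : ℝ | t ^ 2 = c}.Finite := by
  refine (Set.toFinite {Real.sqrt c, -Real.sqrt c}).subset ?_
  intro t ht
  have ht' : t ^ 2 = c := ht
  have h2 : |t| = Real.sqrt c := by rw [← ht', Real.sqrt_sq_eq_abs]
  rcases abs_choice t with h | h
  · left; rw [← h2, h]
  · right; rw [mem_singleton_iff, ← h2, h, neg_neg]

theorem quartic_finite (a c : ℝ) : {t : ℝ | (t ^ 2 + a) ^ 2 = c}.Finite := by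
  have h := (sq_finite c).image (fun s => s - a)
  refine (h.biUnion (t := fun s => {t : ℝ | t ^ 2 = s}) fun s _ => sq_finite s).subset ?_
  intro t ht
  exact mem_biUnion (x := t ^ 2) ⟨t ^ 2 + a, ht, by simp⟩ rfl

theorem slice_countable (i : Fin 3) (p : Fin 3 → ℝ) :
    {t | Function.update p i t ∈ frontier DD}.Countable := by
  rw [frontier_DD]
  apply Set.Finite.countable
  fin_cases i
  · refine (quartic_finite (p 1 ^ 2 - 4) (1 - p 2 ^ 2)).subset ?_
    intro t ht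
    have ht' : wf t (p 1) (p 2) = 0 := by simpa [Function.update] using ht
    show _ = _
    unfold wf at ht'
    have e : (t ^ 2 + (p 1 ^ 2 - 4)) ^ 2 = (t ^ 2 + p 1 ^ 2 - 4) ^ 2 := by ring
    rw [e]; linarith
  · refine (quartic_finite (p 0 ^ 2 - 4) (1 - p 2 ^ 2)).subset ?_
    intro t ht
    have ht' : wf (p 0) t (p 2) = 0 := by simpa [Function.update] using ht
    show _ = _
    unfold wf at ht'
    have e : (t ^ 2 + (p 0 ^ 2 - 4)) ^ 2 = (p 0 ^ 2 + t ^ 2 - 4) ^ 2 := by ring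
    rw [e]; linarith
  · refine (sq_finite (1 - (p 0 ^ 2 + p 1 ^ 2 - 4) ^ 2)).subset ?_
    intro t ht
    have ht' : wf (p 0) (p 1) t = 0 := by simpa [Function.update] using ht
    show _ = _
    unfold wf at ht'
    linarith

end Pool.Agent.H10.Ell
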