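import Pool.Agent.H10.EllDom

set_option autoImplicit false

open Set MeasureTheory Filter Topology
open scoped ContDiff

namespace Pool.Agent.H10.Ell

/-- off the axis -/
def UU : Set (Fin 3 → ℝ) := {p | 0 < p 0 ^ 2 + p 1 ^ 2}

theorem isOpen_UU : IsOpen UU := isOpen_lt continuous_const (by fun_prop)

theorem closure_UU : closure DD ⊆ UU := by
  intro p hp
  have h := (wf_bounds _ _ _ (closure_sub p hp)).1
  unfold rh at h
  show 0 < p 0 ^ 2 + p 1 ^ 2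
  linarith

theorem smoothUpTo_of (f : (Fin 3 → ℝ) → ℝ) (hf : ContDiffOn ℝ ∞ f UU) : SmoothUpTo ⊤ DD f :=
  ⟨UU, isOpen_UU, closure_UU, hf⟩

theorem s_rh : ContDiff ℝ ∞ (fun p : Fin 3 → ℝ => rh (p 0) (p 1)) := by unfold rh; fun_prop
theorem s_D1 : ContDiff ℝ ∞ (fun p : Fin 3 → ℝ => D1 (p 0) (p 1)) := by unfold D1; fun_prop
theorem s_D2 : ContDiff ℝ ∞ (fun p : Fin 3 → ℝ => D2 (p 0) (p 1)) := by unfold D2; fun_prop
theorem s_S1 : ContDiff ℝ ∞ (fun p : Fin 3 → ℝ => S1 (p 0) (p 1)) := by unfold S1; fun_prop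
theorem s_S2 : ContDiff ℝ ∞ (fun p : Fin 3 → ℝ => S2 (p 0) (p 1)) := by unfold S2; fun_prop
theorem s_0 : ContDiff ℝ ∞ (fun p : Fin 3 → ℝ => p 0) := by fun_prop
theorem s_1 : ContDiff ℝ ∞ (fun p : Fin 3 → ℝ => p 1) := by fun_prop

theorem s_bet : ContDiffOn ℝ ∞ (fun p : Fin 3 → ℝ => bet (p 0) (p 1) (p 2)) UU := by
  unfold bet
  refine ContDiffOn.div (contDiff_const.add smooth_wf).contDiffOn
    (contDiff_const.mul s_rh).contDiffOn ?_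
  intro p hp
  have : 0 < rh (p 0) (p 1) := hp
  positivity

theorem s_alL : ContDiffOn ℝ ∞ (fun p : Fin 3 → ℝ => alL (p 0) (p 1)) UU := by
  unfold alL
  refine ContDiffOn.div ?_ s_S1.contDiffOn (fun p hp => (S1_pos _ _ hp).ne')
  refine ContDiff.contDiffOn ((s_D1.pow 2).mul ?_)
  fun_prop

theorem s_alM : ContDiffOn ℝ ∞ (fun p : Fin 3 → ℝ => alM (p 0) (p 1)) UU := by
  unfold alM
  refine ContDiffOn.div ?_ s_S2.contDiffOn (fun p hp => (S2_pos _ _ hp).ne')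
  refine ContDiff.contDiffOn ((s_D2.pow 2).mul ?_)
  fun_prop

theorem s_AA (al : ℝ → ℝ → ℝ) (hal : ContDiffOn ℝ ∞ (fun p : Fin 3 → ℝ => al (p 0) (p 1)) UU)
    (i j : Fin 3) : ContDiffOn ℝ ∞ (AA al i j) UU := by
  have hx := (s_0.contDiffOn (s := UU))
  have hy := (s_1.contDiffOn (s := UU))
  have h00 : ContDiffOn ℝ ∞ (fun p : Fin 3 → ℝ => bet (p 0) (p 1) (p 2) * p 0 ^ 2 +
      al (p 0) (p 1) * p 1 ^ 2) UU := (s_bet.mul (hx.pow 2)).add (hal.mul (hy.pow 2))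
  have h01 : ContDiffOn ℝ ∞ (fun p : Fin 3 → ℝ => (bet (p 0) (p 1) (p 2) - al (p 0) (p 1)) *
      p 0 * p 1) UU := ((s_bet.sub hal).mul hx).mul hy
  have h11 : ContDiffOn ℝ ∞ (fun p : Fin 3 → ℝ => bet (p 0) (p 1) (p 2) * p 1 ^ 2 +
      al (p 0) (p 1) * p 0 ^ 2) UU := (s_bet.mul (hy.pow 2)).add (hal.mul (hx.pow 2))
  have h22 : ContDiffOn ℝ ∞ (fun p : Fin 3 → ℝ => bzf (p 0) (p 1) (p 2)) UU := by
    unfold bzf
    exact (((contDiff_const.add smooth_wf).mul s_rh).div_const 4).contDiffOn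
  fin_cases i <;> fin_cases j
  · exact h00
  · exact h01
  · exact contDiffOn_const
  · exact h01
  · exact h11
  · exact contDiffOn_const
  · exact contDiffOn_const
  · exact contDiffOn_const
  · exact h22

theorem s_c (d : ℝ → ℝ → ℝ) (hd : ContDiff ℝ ∞ (fun p : Fin 3 → ℝ => d (p 0) (p 1))) :
    ContDiffOn ℝ ∞ (fun p : Fin 3 → ℝ => rh (p 0) (p 1) * d (p 0) (p 1) - 2 * rh (p 0) (p 1) +
      (rh (p 0) (p 1) - 4) / 4 + (1 + wf (p 0) (p 1) (p 2)) / (16 * rh (p 0) (p 1))) UU := by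
  refine ContDiffOn.add ?_ s_bet
  exact (((s_rh.mul hd).sub (contDiff_const.mul s_rh)).add
    ((s_rh.sub contDiff_const).div_const 4)).contDiffOn

theorem quad_form (al : ℝ → ℝ → ℝ) (p ξ : Fin 3 → ℝ) :
    ∑ i, ∑ j, AA al i j p * ξ i * ξ j =
      bet (p 0) (p 1) (p 2) * (p 0 * ξ 0 + p 1 * ξ 1) ^ 2 +
      al (p 0) (p 1) * (p 1 * ξ 0 - p 0 * ξ 1) ^ 2 + bzf (p 0) (p 1) (p 2) * ξ 2 ^ 2 := by
  simp only [Fin.sum_univ_three, AA, cof, Matrix.cons_val_zero, Matrix.cons_val_one,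
    Matrix.cons_val]
  ring

theorem elliptic_of (al : ℝ → ℝ → ℝ) (hal : ∀ x y, 3 ≤ rh x y → rh x y ≤ 5 → 1 / 80 ≤ al x y)
    (p : Fin 3 → ℝ) (hp : p ∈ DD) (ξ : Fin 3 → ℝ) :
    1 / 80 * ∑ i, ξ i ^ 2 ≤ ∑ i, ∑ j, AA al i j p * ξ i * ξ j := by
  rw [quad_form, Fin.sum_univ_three]
  have hp' : 0 < wf (p 0) (p 1) (p 2) := hp
  obtain ⟨h3, h5, -, -⟩ := wf_bounds _ _ _ hp'.le
  have ha := hal _ _ h3 h5
  have hb : 1 / 80 ≤ bet (p 0) (p 1) (p 2) := by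
    unfold bet
    rw [div_le_div_iff₀ (by norm_num) (by linarith)]
    linarith
  have hz : 3 / 4 ≤ bzf (p 0) (p 1) (p 2) := by
    unfold bzf
    nlinarith
  have e : (p 0 * ξ 0 + p 1 * ξ 1) ^ 2 + (p 1 * ξ 0 - p 0 * ξ 1) ^ 2 =
      rh (p 0) (p 1) * (ξ 0 ^ 2 + ξ 1 ^ 2) := by
    unfold rh; ring
  have h1 := mul_le_mul_of_nonneg_right hb (sq_nonneg (p 0 * ξ 0 + p 1 * ξ 1))
  have h2 := mul_le_mul_of_nonneg_right ha (sq_nonneg (p 1 * ξ 0 - p 0 * ξ 1))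
  have h4 := mul_le_mul_of_nonneg_right hz (sq_nonneg (ξ 2))
  have h6 := mul_le_mul_of_nonneg_right h3 (add_nonneg (sq_nonneg (ξ 0)) (sq_nonneg (ξ 1)))
  nlinarith [sq_nonneg (ξ 0), sq_nonneg (ξ 1), sq_nonneg (ξ 2)]

theorem c_bound (r d w : ℝ) (h3 : 3 ≤ r) (hd : 4 / 5 * r ≤ d) (hw : 0 < w) :
    1 / 2 ≤ r * d - 2 * r + (r - 4) / 4 + (1 + w) / (16 * r) := by
  have h1 : 0 ≤ (1 + w) / (16 * r) := by positivity
  nlinarith

theorem D1_ge (x y : ℝ) : 4 / 5 * rh x y ≤ D1 x y := by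
  unfold D1 rh
  nlinarith [sq_nonneg (2 * x - 5 * y), sq_nonneg y]

theorem D2_ge (x y : ℝ) : 4 / 5 * rh x y ≤ D2 x y := by
  unfold D2 rh
  nlinarith [sq_nonneg (5 * x + 2 * y), sq_nonneg x]

theorem alL_ge (x y : ℝ) (h3 : 3 ≤ rh x y) (_ : rh x y ≤ 5) : 1 / 80 ≤ alL x y := by
  have hp : 0 < x ^ 2 + y ^ 2 := by unfold rh at h3; linarith
  unfold alL
  have hS := S1_pos x y hp
  rw [div_le_div_iff₀ (by norm_num) hS]
  have h1 : 1 ≤ D1 x y := by linarith [D1_ge x y]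
  have h2 : 1 ≤ D1 x y ^ 2 := one_le_pow₀ h1
  have h4 : S1 x y ≤ 5 * rh x y := by
    unfold S1 rh; nlinarith [sq_nonneg (3 * x - 2 * y), sq_nonneg y, sq_nonneg (x - y)]
  have h5 : rh x y ≤ 2 * x ^ 2 + 3 * x * y + 5 * y ^ 2 := by
    unfold rh; nlinarith [sq_nonneg (2 * x + 3 * y), sq_nonneg y]
  have h6 : 2 * x ^ 2 + 3 * x * y + 5 * y ^ 2 ≤
      D1 x y ^ 2 * (2 * x ^ 2 + 3 * x * y + 5 * y ^ 2) := by
    have : 0 ≤ 2 * x ^ 2 + 3 * x * y + 5 * y ^ 2 := by linarith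
    nlinarith
  linarith

theorem alM_ge (x y : ℝ) (h3 : 3 ≤ rh x y) (_ : rh x y ≤ 5) : 1 / 80 ≤ alM x y := by
  have hp : 0 < x ^ 2 + y ^ 2 := by unfold rh at h3; linarith
  unfold alM
  have hS := S2_pos x y hp
  rw [div_le_div_iff₀ (by norm_num) hS]
  have h1 : 1 ≤ D2 x y := by linarith [D2_ge x y]
  have h2 : 1 ≤ D2 x y ^ 2 := one_le_pow₀ h1
  have h4 : S2 x y ≤ 5 * rh x y := by
    unfold S2 rh; nlinarith [sq_nonneg (2 * x + 3 * y), sq_nonneg y, sq_nonneg (x + y)]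
  have h5 : rh x y ≤ 5 * x ^ 2 - 3 * x * y + 2 * y ^ 2 := by
    unfold rh; nlinarith [sq_nonneg (3 * x - 2 * y), sq_nonneg y, sq_nonneg x]
  have h6 : 5 * x ^ 2 - 3 * x * y + 2 * y ^ 2 ≤
      D2 x y ^ 2 * (5 * x ^ 2 - 3 * x * y + 2 * y ^ 2) := by
    have : 0 ≤ 5 * x ^ 2 - 3 * x * y + 2 * y ^ 2 := by linarith
    nlinarith
  linarith

theorem posElliptic (al d : ℝ → ℝ → ℝ)
    (hal : ContDiffOn ℝ ∞ (fun p : Fin 3 → ℝ => al (p 0) (p 1)) UU)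
    (hal' : ∀ x y, 3 ≤ rh x y → rh x y ≤ 5 → 1 / 80 ≤ al x y)
    (hd : ContDiff ℝ ∞ (fun p : Fin 3 → ℝ => d (p 0) (p 1)))
    (hd' : ∀ x y, 4 / 5 * rh x y ≤ d x y) :
    IsPosElliptic DD (AA al) (fun p => rh (p 0) (p 1) * d (p 0) (p 1) - 2 * rh (p 0) (p 1) +
      (rh (p 0) (p 1) - 4) / 4 + (1 + wf (p 0) (p 1) (p 2)) / (16 * rh (p 0) (p 1))) := by
  have hA : ∀ i j, SmoothUpTo ⊤ DD (AA al i j) := fun i j => smoothUpTo_of _ (s_AA al hal i j)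
  have hc := smoothUpTo_of _ (s_c d hd)
  refine ⟨hA, hc, ?_, ?_, ?_⟩
  · intro i j
    fin_cases i <;> fin_cases j <;> rfl
  · exact ⟨1 / 80, by norm_num, fun p hp ξ => elliptic_of al hal' p hp ξ⟩
  · refine ⟨1 / 2, by norm_num, fun w hw h0 => ?_⟩
    refine positive_of DD isOpen_DD bounded_DD slice_countable (AA al) _ hA hc ?_ (1 / 2) ?_ w hw h0
    · intro p hp ξ
      refine le_trans ?_ (elliptic_of al hal' p hp ξ)
      positivity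
    · intro p hp
      have hp' : 0 < wf (p 0) (p 1) (p 2) := hp
      exact c_bound _ _ _ (wf_bounds _ _ _ hp'.le).1 (hd' _ _) hp'

theorem Lpos : IsPosElliptic DD (AA alL) (fun q => cL (q 0) (q 1) (q 2)) :=
  posElliptic alL D1 s_alL alL_ge s_D1 D1_ge

theorem Mpos : IsPosElliptic DD (AA alM) (fun q => cM (q 0) (q 1) (q 2)) :=
  posElliptic alM D2 s_alM alM_ge s_D2 D2_ge

theorem s_uf : ContDiffOn ℝ ∞ (fun p : Fin 3 → ℝ => uf (p 0) (p 1) (p 2)) UU := by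
  unfold uf
  exact ContDiffOn.div (smooth_wf.mul s_1).contDiffOn s_D1.contDiffOn
    (fun p hp => (D1_pos _ _ hp).ne')

theorem s_vf : ContDiffOn ℝ ∞ (fun p : Fin 3 → ℝ => vf (p 0) (p 1) (p 2)) UU := by
  unfold vf
  exact (ContDiffOn.div (smooth_wf.mul s_0).contDiffOn s_D2.contDiffOn
    (fun p hp => (D2_pos _ _ hp).ne')).neg

theorem main : ∃ (n : ℕ) (_ : 1 < n) (D : Set (Fin n → ℝ))
    (AL : Fin n → Fin n → (Fin n → ℝ) → ℝ) (cL : (Fin n → ℝ) → ℝ)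
    (AM : Fin n → Fin n → (Fin n → ℝ) → ℝ) (cM : (Fin n → ℝ) → ℝ)
    (a b u v : (Fin n → ℝ) → ℝ),
    IsSmoothDomain D ∧ IsPosElliptic D AL cL ∧ IsPosElliptic D AM cM ∧
    SmoothUpTo ⊤ D a ∧ SmoothUpTo ⊤ D b ∧ (∀ p ∈ closure D, 0 < a p ∧ 0 < b p) ∧
    SmoothUpTo ⊤ D u ∧ SmoothUpTo ⊤ D v ∧ (∀ p ∈ frontier D, u p = 0 ∧ v p = 0) ∧
    (∀ p ∈ D, op AL cL u p + a p * v p = 0 ∧ -(b p * u p) + op AM cM v p = 0) ∧
    ∃ p ∈ D, u p ≠ 0 := by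
  refine ⟨3, by norm_num, DD, AA alL, fun q => cL (q 0) (q 1) (q 2), AA alM,
    fun q => cM (q 0) (q 1) (q 2), fun q => af (q 0) (q 1), fun q => bf (q 0) (q 1),
    fun q => uf (q 0) (q 1) (q 2), fun q => vf (q 0) (q 1) (q 2), smoothDomain, Lpos, Mpos,
    ?_, ?_, ?_, smoothUpTo_of _ s_uf, smoothUpTo_of _ s_vf, ?_, ?_, ?_⟩
  · apply smoothUpTo_of
    unfold af
    refine ContDiff.contDiffOn (ContDiff.mul ?_ s_D2)
    fun_prop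
  · apply smoothUpTo_of
    unfold bf
    refine ContDiff.contDiffOn (ContDiff.mul ?_ s_D1)
    fun_prop
  · intro p hp
    have h : 0 < p 0 ^ 2 + p 1 ^ 2 := closure_UU hp
    refine ⟨mul_pos ?_ (D2_pos _ _ h), mul_pos ?_ (D1_pos _ _ h)⟩
    · nlinarith [sq_nonneg (2 * p 0 + 9 * p 1), sq_nonneg (p 0), sq_nonneg (p 1),
        sq_nonneg (5 * p 1 + p 0)]
    · nlinarith [sq_nonneg (2 * p 1 - 9 * p 0), sq_nonneg (p 0), sq_nonneg (p 1),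
        sq_nonneg (5 * p 0 - p 1)]
  · intro p hp
    rw [frontier_DD] at hp
    have hp' : wf (p 0) (p 1) (p 2) = 0 := hp
    simp [uf, vf, hp']
  · intro p hp
    have h : 0 < p 0 ^ 2 + p 1 ^ 2 := closure_UU (subset_closure hp)
    exact ⟨op_L p h, op_M p h⟩
  · refine ⟨![0, 2, 0], ?_, ?_⟩
    · show 0 < wf 0 2 0
      norm_num [wf]
    · show uf 0 2 0 ≠ 0
      norm_num [uf, wf, D1]

end Pool.Agent.H10.Ell
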