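import Pool.Agent.H10.EllDefs

set_option autoImplicit false

open Set MeasureTheory Filter Topology
open scoped ContDiff

namespace Pool.Agent.H10.Ell

/-- one slice: a continuous compactly supported function, differentiable off a countable set, has
derivative of integral zero -/
theorem slice_zero (g g' : ℝ → ℝ) (s : Set ℝ) (hs : s.Countable) (R : ℝ) (hR : 0 ≤ R)
    (hc : Continuous g) (hd : ∀ t, t ∉ s → HasDerivAt g (g' t) t) (h0 : ∀ t, R < |t| → g t = 0)
    (h0' : ∀ t, R < |t| → g' t = 0) : ∫ t, g' t = 0 := by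
  by_cases hi : Integrable g'
  · have h1 := integral_eq_of_hasDerivAt_off_countable_of_le g g' (a := -(R + 1)) (b := R + 1)
      (by linarith) hs hc.continuousOn (fun x hx => hd x hx.2) hi.intervalIntegrable
    rw [h0 (R + 1) (by rw [abs_of_pos (by linarith)]; linarith),
      h0 (-(R + 1)) (by rw [abs_neg, abs_of_pos (by linarith)]; linarith), sub_zero,
      intervalIntegral.integral_of_le (by linarith)] at h1
    rw [← h1]
    symm
    apply setIntegral_eq_integral_of_forall_compl_eq_zero
    intro t ht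
    apply h0'
    by_contra hcon
    push Not at hcon
    rw [abs_le] at hcon
    exact ht ⟨by linarith, by linarith⟩
  · exact integral_undef hi

variable {n : ℕ}

theorem pd_eq (f : (Fin n → ℝ) → ℝ) (p : Fin n → ℝ) (i : Fin n) (hf : DifferentiableAt ℝ f p) :
    pd i f p = fderiv ℝ f p (Pi.single i 1) := by
  unfold pd
  have h1 : HasFDerivAt f (fderiv ℝ f p) (Function.update p i (p i)) := by
    rw [Function.update_eq_self]
    exact hf.hasFDerivAt
  exact (h1.comp_hasDerivAt (p i) (hasDerivAt_update p i (p i))).deriv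

theorem hasDerivAt_pd (f : (Fin n → ℝ) → ℝ) (p : Fin n → ℝ) (i : Fin n)
    (hf : DifferentiableAt ℝ f p) :
    HasDerivAt (fun t => f (Function.update p i t)) (pd i f p) (p i) := by
  have h1 : HasFDerivAt f (fderiv ℝ f p) (Function.update p i (p i)) := by
    rw [Function.update_eq_self]
    exact hf.hasFDerivAt
  rw [pd_eq f p i hf]
  exact h1.comp_hasDerivAt (p i) (hasDerivAt_update p i (p i))

/-- the divergence theorem for one component, for a field vanishing on the boundary -/
theorem int_pd_zero (D : Set (Fin (n + 1) → ℝ)) (hD : IsOpen D) (hb : Bornology.IsBounded D)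
    (i : Fin (n + 1)) (hcount : ∀ p, {t | Function.update p i t ∈ frontier D}.Countable)
    (V : (Fin (n + 1) → ℝ) → ℝ) (U : Set (Fin (n + 1) → ℝ)) (hU : IsOpen U) (hDU : closure D ⊆ U)
    (hV : ContDiffOn ℝ 1 V U) (h0 : ∀ p ∈ frontier D, V p = 0) :
    IntegrableOn (pd i V) D ∧ ∫ p in D, pd i V p = 0 := by
  have hdiff : ∀ p ∈ U, DifferentiableAt ℝ V p := fun p hp =>
    (hV.contDiffAt (hU.mem_nhds hp)).differentiableAt (by norm_num)
  have hcl : IsCompact (closure D) := hb.isCompact_closure
  -- continuity of the derivative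
  have hpc : ContinuousOn (pd i V) (closure D) := by
    have h1 : ContinuousOn (fun p => fderiv ℝ V p (Pi.single i 1)) U :=
      ((hV.fderiv_of_isOpen hU (m := 0) (by norm_num)).continuousOn).clm_apply continuousOn_const
    refine (h1.mono hDU).congr ?_
    intro p hp
    exact pd_eq V p i (hdiff p (hDU hp))
  have hint : IntegrableOn (pd i V) D := (hpc.integrableOn_compact hcl).mono_set subset_closure
  refine ⟨hint, ?_⟩
  have hind : Integrable (D.indicator (pd i V)) := (integrable_indicator_iff hD.measurableSet).2 hint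
  rw [← integral_indicator hD.measurableSet]
  have hmp := (volume_preserving_piFinSuccAbove (fun _ : Fin (n + 1) => ℝ) i)
  rw [← hmp.symm.integral_comp']
  have hind2 : Integrable (fun z => D.indicator (pd i V)
      ((MeasurableEquiv.piFinSuccAbove (fun _ : Fin (n + 1) => ℝ) i).symm z)) :=
    hmp.symm.integrable_comp_of_integrable hind
  rw [Measure.volume_eq_prod, integral_prod_symm _ hind2]
  apply integral_eq_zero_of_ae
  refine Filter.Eventually.of_forall fun y => ?_
  show ∫ t, D.indicator (pd i V) (i.insertNth t y) = 0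
  obtain ⟨R, hR⟩ := hb.subset_closedBall 0
  have hout : ∀ t : ℝ, max R 0 < |t| → i.insertNth t y ∉ D := by
    intro t ht hm
    have h1 := hR hm
    rw [mem_closedBall_zero_iff] at h1
    have h2 := (norm_le_pi_norm (i.insertNth t y : Fin (n + 1) → ℝ) i).trans h1
    rw [Fin.insertNth_apply_same, Real.norm_eq_abs] at h2
    exact absurd (h2.trans (le_max_left R 0)) (not_le.2 ht)
  have hcontG : Continuous (fun t : ℝ => (i.insertNth t y : Fin (n + 1) → ℝ)) := by
    refine continuous_pi fun j => ?_
    rcases Fin.eq_self_or_eq_succAbove i j with rfl | ⟨k, rfl⟩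
    · simp only [Fin.insertNth_apply_same]
      exact continuous_id
    · simp only [Fin.insertNth_apply_succAbove]
      exact continuous_const
  have hVc : Continuous (D.indicator V) :=
    continuous_indicator h0 (hV.continuousOn.mono hDU)
  refine slice_zero (fun t => D.indicator V (i.insertNth t y)) _
    {t | (i.insertNth t y : Fin (n + 1) → ℝ) ∈ frontier D} ?_ (max R 0) (le_max_right _ _)
    (hVc.comp hcontG) ?_ ?_ ?_
  · have := hcount (i.insertNth 0 y)
    simpa only [Fin.update_insertNth] using this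
  · intro t ht
    by_cases hm : (i.insertNth t y : Fin (n + 1) → ℝ) ∈ D
    · rw [indicator_of_mem hm]
      have h1 := hasDerivAt_pd V (i.insertNth t y) i (hdiff _ (hDU (subset_closure hm)))
      simp only [Fin.update_insertNth, Fin.insertNth_apply_same] at h1
      refine h1.congr_of_eventuallyEq ?_
      have : ∀ᶠ t' in 𝓝 t, (i.insertNth t' y : Fin (n + 1) → ℝ) ∈ D :=
        hcontG.continuousAt.eventually (hD.mem_nhds hm)
      filter_upwards [this] with t' ht'
      exact indicator_of_mem ht' V
    · rw [indicator_of_notMem hm]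
      have hm2 : (i.insertNth t y : Fin (n + 1) → ℝ) ∉ closure D := by
        intro hc
        apply ht
        rw [mem_ofPred_eq, hD.frontier_eq]
        exact ⟨hc, hm⟩
      refine (hasDerivAt_const t (0 : ℝ)).congr_of_eventuallyEq ?_
      have : ∀ᶠ t' in 𝓝 t, (i.insertNth t' y : Fin (n + 1) → ℝ) ∈ (closure D)ᶜ :=
        hcontG.continuousAt.eventually (isClosed_closure.isOpen_compl.mem_nhds hm2)
      filter_upwards [this] with t' ht'
      exact indicator_of_notMem (fun h => ht' (subset_closure h)) V
  · intro t ht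
    exact indicator_of_notMem (hout t ht) V
  · intro t ht
    exact indicator_of_notMem (hout t ht) _

/-- strict positivity from ellipticity and `c ≥ γ` -/
theorem positive_of (D : Set (Fin (n + 1) → ℝ)) (hD : IsOpen D) (hb : Bornology.IsBounded D)
    (hcount : ∀ i p, {t | Function.update p i t ∈ frontier D}.Countable)
    (A : Fin (n + 1) → Fin (n + 1) → (Fin (n + 1) → ℝ) → ℝ) (c : (Fin (n + 1) → ℝ) → ℝ)
    (hA : ∀ i j, SmoothUpTo ⊤ D (A i j)) (hc : SmoothUpTo ⊤ D c)
    (hell : ∀ p ∈ D, ∀ ξ : Fin (n + 1) → ℝ, 0 ≤ ∑ i, ∑ j, A i j p * ξ i * ξ j)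
    (γ : ℝ) (hγ : ∀ p ∈ D, γ ≤ c p) (w : (Fin (n + 1) → ℝ) → ℝ) (hw : SmoothUpTo 2 D w)
    (h0 : ∀ p ∈ frontier D, w p = 0) :
    γ * ∫ p in D, w p ^ 2 ≤ ∫ p in D, op A c w p * w p := by
  obtain ⟨U0, hU0, hDU0, hw⟩ := hw
  obtain ⟨Uc, hUc, hDUc, hcs⟩ := hc
  choose UA hUA hDUA hAs using hA
  -- a common neighbourhood
  obtain ⟨U, hU, hDU, hwU, hcU, hAU⟩ : ∃ U, IsOpen U ∧ closure D ⊆ U ∧ ContDiffOn ℝ 2 w U ∧
      ContDiffOn ℝ ∞ c U ∧ ∀ i j, ContDiffOn ℝ ∞ (A i j) U := by
    refine ⟨U0 ∩ (Uc ∩ ⋂ i, ⋂ j, UA i j), hU0.inter (hUc.inter (isOpen_iInter_of_finite fun i =>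
      isOpen_iInter_of_finite fun j => hUA i j)), ?_, hw.mono inter_subset_left,
      hcs.mono (inter_subset_right.trans inter_subset_left), ?_⟩
    · refine subset_inter hDU0 (subset_inter hDUc (subset_iInter fun i => subset_iInter fun j =>
        hDUA i j))
    · intro i j
      refine (hAs i j).mono ?_
      intro p hp
      exact mem_iInter.1 (mem_iInter.1 hp.2.2 i) j
  have hcl : IsCompact (closure D) := hb.isCompact_closure
  have hwd : ∀ p ∈ U, DifferentiableAt ℝ w p := fun p hp =>
    (hwU.contDiffAt (hU.mem_nhds hp)).differentiableAt (by norm_num)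
  have hpw : ∀ j, ContDiffOn ℝ 1 (pd j w) U := by
    intro j
    have h1 : ContDiffOn ℝ 1 (fun p => fderiv ℝ w p (Pi.single j 1)) U :=
      (hwU.fderiv_of_isOpen hU (m := 1) (by norm_num)).clm_apply contDiffOn_const
    refine h1.congr ?_
    intro p hp
    exact pd_eq w p j (hwd p hp)
  set Fl : Fin (n + 1) → (Fin (n + 1) → ℝ) → ℝ := fun i q => ∑ j, A i j q * pd j w q with hFl
  have hFlU : ∀ i, ContDiffOn ℝ 1 (Fl i) U := by
    intro i
    refine ContDiffOn.sum fun j _ => ?_
    exact ((hAU i j).of_le (by exact_mod_cast le_top)).mul (hpw j)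
  have hVU : ∀ i, ContDiffOn ℝ 1 (fun q => w q * Fl i q) U := fun i =>
    (hwU.of_le (by norm_num)).mul (hFlU i)
  have hV0 : ∀ i, ∀ p ∈ frontier D, w p * Fl i p = 0 := fun i p hp => by rw [h0 p hp, zero_mul]
  have hdiv := fun i => int_pd_zero D hD hb i (hcount i) _ U hU hDU (hVU i) (hV0 i)
  -- pointwise identity
  have hpt : ∀ p ∈ D, op A c w p * w p =
      (∑ i, ∑ j, A i j p * pd i w p * pd j w p) + c p * w p ^ 2 -
        ∑ i, pd i (fun q => w q * Fl i q) p := by
    intro p hp
    have hpU : p ∈ U := hDU (subset_closure hp)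
    have h1 : ∀ i, pd i (fun q => w q * Fl i q) p = pd i w p * Fl i p + w p * pd i (Fl i) p := by
      intro i
      have h2 := (hasDerivAt_pd w p i (hwd p hpU)).mul (hasDerivAt_pd (Fl i) p i
        (((hFlU i).contDiffAt (hU.mem_nhds hpU)).differentiableAt (by norm_num)))
      rw [Function.update_eq_self] at h2
      exact h2.deriv
    simp only [h1, Finset.sum_add_distrib]
    unfold op
    have h3 : ∑ i, pd i w p * Fl i p = ∑ i, ∑ j, A i j p * pd i w p * pd j w p := by
      refine Finset.sum_congr rfl fun i _ => ?_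
      rw [hFl]
      simp only [Finset.mul_sum]
      refine Finset.sum_congr rfl fun j _ => ?_
      ring
    rw [h3, ← Finset.mul_sum]
    ring
  have hw2 : IntegrableOn (fun p => w p ^ 2) D :=
    ((hwU.continuousOn.mono hDU).pow 2 |>.integrableOn_compact hcl).mono_set subset_closure
  have hE : IntegrableOn (fun p => (∑ i, ∑ j, A i j p * pd i w p * pd j w p) + c p * w p ^ 2) D := by
    have : ContinuousOn (fun p => (∑ i, ∑ j, A i j p * pd i w p * pd j w p) + c p * w p ^ 2)
        (closure D) := by
      refine ContinuousOn.add ?_ ?_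
      · refine continuousOn_finsetSum _ fun i _ => continuousOn_finsetSum _ fun j _ => ?_
        exact (((hAU i j).continuousOn.mono hDU).mul ((hpw i).continuousOn.mono hDU)).mul
          ((hpw j).continuousOn.mono hDU)
      · exact (hcU.continuousOn.mono hDU).mul ((hwU.continuousOn.mono hDU).pow 2)
    exact (this.integrableOn_compact hcl).mono_set subset_closure
  have hS : IntegrableOn (fun p => ∑ i, pd i (fun q => w q * Fl i q) p) D :=
    integrable_finsetSum _ fun i _ => (hdiv i).1
  rw [setIntegral_congr_fun hD.measurableSet hpt, integral_sub hE hS,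
    integral_finsetSum _ fun i _ => (hdiv i).1]
  simp only [(hdiv _).2, Finset.sum_const_zero, sub_zero]
  rw [← integral_const_mul]
  refine setIntegral_mono_on (hw2.const_mul γ) hE hD.measurableSet ?_
  intro p hp
  have h1 := hell p hp (fun i => pd i w p)
  have h2 := mul_le_mul_of_nonneg_right (hγ p hp) (sq_nonneg (w p))
  linarith

end Pool.Agent.H10.Ell
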