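import Pool.Agent.H10.HlDefs

/-!
Basic facts: recursion for the payoff, potential bounds.
-/

set_option autoImplicit false

namespace H10Hl

open scoped ENNReal

lemma cost_mono (h : ℝ) : ∀ (n : ℕ) (s : List Bool → ℝ), cost h n s ≤ cost h (n+1) s := by
  intro n
  induction n with
  | zero => intro s; simp [cost]
  | succ n ih =>
    intro s
    rw [cost, cost]
    split_ifs with hs
    · exact le_rfl
    · gcongr
      exact ih _

lemma payoff_rec (s : List Bool → ℝ) (h : ℝ) :
    payoff s h = ENNReal.ofReal |s [] - h| +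
      if s [] = h then 0 else payoff (fun l => s (decide (s [] < h) :: l)) h := by
  have h1 : payoff s h = ⨆ n, cost h (n+1) s := by
    unfold payoff
    have hm : Monotone (fun n => cost h n s) := monotone_nat_of_le_succ (fun n => cost_mono h n s)
    exact (hm.iSup_nat_add 1).symm
  rw [h1]
  simp only [cost]
  split_ifs with hs
  · simp
  · rw [payoff, ENNReal.add_iSup]

/-- relative position of the guess -/
lemma stateGuess_nil (lam : ℤ → ℝ) (k : ℤ) (a b : ℝ) :
    stateGuess lam [] k a b = lam k * a + (1 - lam k) * b := rfl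

lemma payoff_state (lam : ℤ → ℝ) (k : ℤ) (a b h : ℝ) :
    payoff (fun l => stateGuess lam l k a b) h =
      ENNReal.ofReal |lam k * a + (1 - lam k) * b - h| +
      if lam k * a + (1 - lam k) * b = h then 0 else
        if lam k * a + (1 - lam k) * b < h then
          payoff (fun l => stateGuess lam l (k+1) (lam k * a + (1 - lam k) * b) b) h
        else payoff (fun l => stateGuess lam l (k-1) a (lam k * a + (1 - lam k) * b)) h := by
  rw [payoff_rec]
  beta_reduce
  congr 1
  by_cases h1 : lam k * a + (1 - lam k) * b = h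
  · have h1' : stateGuess lam [] k a b = h := h1
    rw [if_pos h1, if_pos h1']
  · have h1' : ¬ stateGuess lam [] k a b = h := h1
    rw [if_neg h1, if_neg h1']
    by_cases h2 : lam k * a + (1 - lam k) * b < h
    · have h2' : stateGuess lam [] k a b < h := h2
      rw [if_pos h2]
      simp only [h2', decide_true]
      rfl
    · have h2' : ¬ stateGuess lam [] k a b < h := h2
      rw [if_neg h2]
      simp only [h2', decide_false]
      rfl

/-- super-solutions -/
structure SuperSol (lam C : ℤ → ℝ) : Prop where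
  lam0 : ∀ k, 0 ≤ lam k
  lam1 : ∀ k, lam k ≤ 1
  nonneg : ∀ k, 0 ≤ C k
  ge : ∀ k : ℤ, (k:ℝ) ≤ C k
  left : ∀ k : ℤ, (1 - lam k) * (1 + C (k-1)) ≤ C k
  right : ∀ k : ℤ, (k:ℝ) * (1 - lam k) + lam k * C (k+1) ≤ C k

lemma pot_nonneg {lam C : ℤ → ℝ} (hS : SuperSol lam C) (k : ℤ) (a b h : ℝ) (h1 : a ≤ h) (h2 : h ≤ b) :
    0 ≤ (b - a) * C k - k * (h - a) := by
  have hC0 := hS.nonneg k
  have hC1 := hS.ge k
  rcases le_or_gt (0:ℝ) (k:ℝ) with hk | hk
  · have : (k:ℝ) * (h - a) ≤ C k * (b - a) := by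
      apply mul_le_mul hC1 (by linarith) (by linarith) hC0
    linarith
  · have h3 : (k:ℝ) * (h - a) ≤ 0 := mul_nonpos_of_nonpos_of_nonneg hk.le (by linarith)
    have h4 : 0 ≤ (b - a) * C k := mul_nonneg (by linarith) hC0
    linarith

lemma cost_le {lam C : ℤ → ℝ} (hS : SuperSol lam C) (h : ℝ) : ∀ (n : ℕ) (k : ℤ) (a b : ℝ),
    a ≤ h → h ≤ b →
    cost h n (fun l => stateGuess lam l k a b) ≤ ENNReal.ofReal ((b - a) * C k - k * (h - a)) := by
  intro n
  induction n with
  | zero => intro k a b _ _; simp [cost]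
  | succ n ih =>
    intro k a b h1 h2
    have hab : a ≤ b := h1.trans h2
    set g := lam k * a + (1 - lam k) * b with hg
    have hga : g - a = (1 - lam k) * (b - a) := by rw [hg]; ring
    have hbg : b - g = lam k * (b - a) := by rw [hg]; ring
    rw [cost]
    beta_reduce
    by_cases e1 : g = h
    · have e1' : stateGuess lam [] k a b = h := e1
      rw [if_pos e1', e1']
      simp
    · have e1' : ¬ stateGuess lam [] k a b = h := e1
      rw [if_neg e1']
      by_cases e2 : g < h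
      · have e2' : stateGuess lam [] k a b < h := e2
        simp only [e2', decide_true]
        simp only [stateGuess]
        rw [← hg]
        refine (add_le_add le_rfl (ih (k+1) g b e2.le h2)).trans ?_
        rw [← ENNReal.ofReal_add (abs_nonneg _) (pot_nonneg hS (k+1) g b h e2.le h2)]
        apply ENNReal.ofReal_le_ofReal
        rw [abs_of_neg (by linarith)]
        push_cast
        have h3 := mul_le_mul_of_nonneg_left (hS.right k) (sub_nonneg.mpr hab)
        have h4 : (b - a) * ((k:ℝ) * (1 - lam k) + lam k * C (k+1)) = k * (g - a) + (b - g) * C (k+1) := by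
          rw [hga, hbg]; ring
        linarith
      · have e3 : h < g := lt_of_le_of_ne (not_lt.mp e2) (Ne.symm e1)
        have e2' : ¬ stateGuess lam [] k a b < h := e2
        simp only [e2', decide_false]
        simp only [stateGuess]
        rw [← hg]
        refine (add_le_add le_rfl (ih (k-1) a g h1 e3.le)).trans ?_
        rw [← ENNReal.ofReal_add (abs_nonneg _) (pot_nonneg hS (k-1) a g h h1 e3.le)]
        apply ENNReal.ofReal_le_ofReal
        rw [abs_of_pos (by linarith)]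
        push_cast
        have h3 := mul_le_mul_of_nonneg_left (hS.left k) (sub_nonneg.mpr hab)
        have h4 : (b - a) * ((1 - lam k) * (1 + C (k-1))) = (g - a) * (1 + C (k-1)) := by
          rw [hga]; ring
        linarith

lemma payoff_le {lam C : ℤ → ℝ} (hS : SuperSol lam C) (h : ℝ) (k : ℤ) (a b : ℝ)
    (h1 : a ≤ h) (h2 : h ≤ b) :
    payoff (fun l => stateGuess lam l k a b) h ≤ ENNReal.ofReal ((b - a) * C k - k * (h - a)) :=
  iSup_le fun n => cost_le hS h n k a b h1 h2

lemma stateGuess_mem {lam : ℤ → ℝ} (h0 : ∀ k, 0 ≤ lam k) (h1 : ∀ k, lam k ≤ 1) :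
    ∀ (l : List Bool) (k : ℤ) (a b : ℝ), a ∈ Set.Icc (0:ℝ) 1 → b ∈ Set.Icc (0:ℝ) 1 →
      stateGuess lam l k a b ∈ Set.Icc (0:ℝ) 1 := by
  have key : ∀ (k : ℤ) (a b : ℝ), a ∈ Set.Icc (0:ℝ) 1 → b ∈ Set.Icc (0:ℝ) 1 →
      lam k * a + (1 - lam k) * b ∈ Set.Icc (0:ℝ) 1 := by
    intro k a b ha hb
    exact (convex_Icc (0:ℝ) 1) ha hb (h0 k) (by linarith [h1 k]) (by ring)
  intro l
  induction l with
  | nil => intro k a b ha hb; exact key k a b ha hb
  | cons x l ih =>
    intro k a b ha hb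
    cases x with
    | false => exact ih _ _ _ ha (key k a b ha hb)
    | true => exact ih _ _ _ (key k a b ha hb) hb

/-- the state coefficients built from a sequence on the naturals -/
noncomputable def eta (d : ℕ → ℝ) (m : ℕ) : ℝ := d m / (1 + d (m+1))

noncomputable def lamOf (d : ℕ → ℝ) (k : ℤ) : ℝ :=
  if 0 ≤ k then eta d k.natAbs else 1 - eta d k.natAbs

noncomputable def COf (d : ℕ → ℝ) (k : ℤ) : ℝ := max (k:ℝ) 0 + d k.natAbs

lemma COf_nat (d : ℕ → ℝ) (m : ℕ) : COf d (m:ℤ) = m + d m := by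
  simp [COf]

lemma COf_neg (d : ℕ → ℝ) (m : ℕ) : COf d (-(m:ℤ)) = d m := by
  simp [COf]

lemma lamOf_nat (d : ℕ → ℝ) (m : ℕ) : lamOf d (m:ℤ) = eta d m := by
  simp [lamOf]

lemma lamOf_neg (d : ℕ → ℝ) (m : ℕ) (hm : 1 ≤ m) : lamOf d (-(m:ℤ)) = 1 - eta d m := by
  have h : ¬ (0 ≤ -(m:ℤ)) := by omega
  rw [lamOf, if_neg h, Int.natAbs_neg, Int.natAbs_natCast]

lemma eta_mul (d : ℕ → ℝ) (hd : ∀ m, 0 < d m) (m : ℕ) : eta d m * (1 + d (m+1)) = d m := by
  unfold eta
  have := hd (m+1)
  field_simp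

lemma int_cases (k : ℤ) : (∃ m : ℕ, k = (m:ℤ) + 1) ∨ k = 0 ∨ ∃ m : ℕ, k = -((m:ℤ) + 1) := by
  rcases lt_trichotomy k 0 with h | h | h
  · right; right; exact ⟨(-k - 1).toNat, by omega⟩
  · right; left; exact h
  · left; exact ⟨(k - 1).toNat, by omega⟩

lemma superSol_of (d : ℕ → ℝ) (hd : ∀ m, 0 < d m) (h0 : 2 * d 0 = 1 + d 1)
    (he : ∀ m, eta d m ≤ 1)
    (hk : ∀ m : ℕ, (1 - eta d (m+1)) * ((m:ℝ) + 1 + d m) ≤ (m:ℝ) + 1 + d (m+1)) :
    SuperSol (lamOf d) (COf d) := by
  have hpos : ∀ m, 0 < eta d m := fun m => div_pos (hd m) (by have := hd (m+1); linarith)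
  have e0 : eta d 0 = 1/2 := by
    unfold eta
    have := hd 1
    rw [div_eq_div_iff (by simp; linarith) (by norm_num)]
    simp only [zero_add]
    linarith
  refine ⟨?_, ?_, ?_, ?_, ?_, ?_⟩
  · intro k; unfold lamOf; split_ifs
    · exact (hpos _).le
    · linarith [he k.natAbs]
  · intro k; unfold lamOf; split_ifs
    · exact he _
    · linarith [hpos k.natAbs]
  · intro k; unfold COf
    have := hd k.natAbs
    have := le_max_right (k:ℝ) 0
    linarith
  · intro k; unfold COf
    have := hd k.natAbs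
    have := le_max_left (k:ℝ) 0
    linarith
  · intro k
    rcases int_cases k with ⟨m, rfl⟩ | rfl | ⟨m, rfl⟩
    · have e1 : ((m:ℤ) + 1) = ((m+1 : ℕ) : ℤ) := by push_cast; ring
      have e2 : ((m+1 : ℕ) : ℤ) - 1 = (m:ℤ) := by push_cast; ring
      rw [e1, e2, lamOf_nat, COf_nat, COf_nat]
      have := hk m
      push_cast
      linarith
    · have e1 : ((0:ℤ) - 1) = -((1:ℕ):ℤ) := by norm_num
      have e2 : (0:ℤ) = ((0:ℕ):ℤ) := rfl
      rw [e1, COf_neg, e2, lamOf_nat, COf_nat, e0]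
      push_cast
      linarith
    · have e1 : (-((m:ℤ) + 1)) = -((m+1 : ℕ) : ℤ) := by push_cast; ring
      have e2 : (-((m:ℤ) + 1)) - 1 = -((m+2 : ℕ) : ℤ) := by push_cast; ring
      rw [e2, e1, lamOf_neg _ _ (by omega), COf_neg, COf_neg]
      have := eta_mul d hd (m+1)
      have e3 : m + 2 = m + 1 + 1 := rfl
      rw [e3]
      linarith
  · intro k
    rcases int_cases k with ⟨m, rfl⟩ | rfl | ⟨m, rfl⟩
    · have e1 : ((m:ℤ) + 1) = ((m+1 : ℕ) : ℤ) := by push_cast; ring
      have e2 : ((m+1 : ℕ) : ℤ) + 1 = ((m+2:ℕ):ℤ) := by push_cast; ring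
      rw [e1, e2, lamOf_nat, COf_nat, COf_nat]
      have := eta_mul d hd (m+1)
      have e3 : m + 2 = m + 1 + 1 := rfl
      rw [e3]
      push_cast
      nlinarith
    · have e1 : ((0:ℤ) + 1) = ((1:ℕ):ℤ) := by norm_num
      have e2 : (0:ℤ) = ((0:ℕ):ℤ) := rfl
      rw [e1, COf_nat, e2, lamOf_nat, COf_nat, e0]
      push_cast
      linarith
    · have e1 : (-((m:ℤ) + 1)) = -((m+1 : ℕ) : ℤ) := by push_cast; ring
      have e2 : (-((m:ℤ) + 1)) + 1 = -((m : ℕ) : ℤ) := by ring
      rw [e2, e1, lamOf_neg _ _ (by omega), COf_neg, COf_neg]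
      have := hk m
      push_cast
      linarith

end H10Hl
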