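import Mathlib

/-!
Certificate data for the mixed strategy: search trees on a grid of 36 cells.
-/

set_option autoImplicit false

namespace H10Hl

/-- finite search trees -/
inductive T where
  | e : T
  | n : ℕ → T → T → T

open T

/-- grid points times 1000 -/
def gridL : List ℕ := [0, 12, 29, 49, 71, 95, 120, 146, 174, 203, 233, 264, 295, 328, 361, 394, 429, 464, 500, 536, 571, 606, 639, 672, 705, 736, 767, 797, 826, 854, 880, 905, 929, 951, 971, 988, 1000]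

def Bn (i : ℕ) : ℕ := gridL.getD i 1000

/-- the trees with their weights (out of 10000) -/
def trees : List (ℕ × T) := [
  (83, (n 20 (n 7 (n 1 e (n 4 (n 2 e (n 3 e e)) (n 6 (n 5 e e) e))) (n 16 (n 11 (n 8 e (n 9 e (n 10 e e))) (n 14 (n 12 e (n 13 e e)) (n 15 e e))) (n 18 (n 17 e e) (n 19 e e)))) (n 33 (n 27 (n 23 (n 21 e (n 22 e e)) (n 25 (n 24 e e) (n 26 e e))) (n 30 (n 29 (n 28 e e) e) (n 31 e (n 32 e e)))) (n 35 (n 34 e e) e)))),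
  (83, (n 16 (n 3 (n 1 e (n 2 e e)) (n 9 (n 6 (n 5 (n 4 e e) e) (n 7 e (n 8 e e))) (n 13 (n 11 (n 10 e e) (n 12 e e)) (n 15 (n 14 e e) e)))) (n 29 (n 20 (n 18 (n 17 e e) (n 19 e e)) (n 25 (n 22 (n 21 e e) (n 24 (n 23 e e) e)) (n 28 (n 27 (n 26 e e) e) e))) (n 35 (n 32 (n 30 e (n 31 e e)) (n 34 (n 33 e e) e)) e)))),
  (875, (n 17 (n 4 (n 1 e (n 2 e (n 3 e e))) (n 10 (n 7 (n 5 e (n 6 e e)) (n 8 e (n 9 e e))) (n 14 (n 12 (n 11 e e) (n 13 e e)) (n 16 (n 15 e e) e)))) (n 29 (n 21 (n 19 (n 18 e e) (n 20 e e)) (n 26 (n 23 (n 22 e e) (n 25 (n 24 e e) e)) (n 28 (n 27 e e) e))) (n 35 (n 32 (n 30 e (n 31 e e)) (n 34 (n 33 e e) e)) e)))),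
  (875, (n 19 (n 7 (n 1 e (n 4 (n 2 e (n 3 e e)) (n 6 (n 5 e e) e))) (n 15 (n 10 (n 8 e (n 9 e e)) (n 13 (n 11 e (n 12 e e)) (n 14 e e))) (n 17 (n 16 e e) (n 18 e e)))) (n 32 (n 26 (n 22 (n 20 e (n 21 e e)) (n 24 (n 23 e e) (n 25 e e))) (n 29 (n 28 (n 27 e e) e) (n 31 (n 30 e e) e))) (n 35 (n 34 (n 33 e e) e) e)))),
  (137, (n 17 (n 5 (n 1 e (n 2 e (n 4 (n 3 e e) e))) (n 11 (n 7 (n 6 e e) (n 9 (n 8 e e) (n 10 e e))) (n 15 (n 14 (n 13 (n 12 e e) e) e) (n 16 e e)))) (n 30 (n 22 (n 19 (n 18 e e) (n 20 e (n 21 e e))) (n 27 (n 25 (n 23 e (n 24 e e)) (n 26 e e)) (n 29 (n 28 e e) e))) (n 35 (n 32 (n 31 e e) (n 34 (n 33 e e) e)) e)))),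
  (137, (n 19 (n 6 (n 1 e (n 4 (n 2 e (n 3 e e)) (n 5 e e))) (n 14 (n 9 (n 7 e (n 8 e e)) (n 11 (n 10 e e) (n 13 (n 12 e e) e))) (n 17 (n 16 (n 15 e e) e) (n 18 e e)))) (n 31 (n 25 (n 21 (n 20 e e) (n 22 e (n 23 e (n 24 e e)))) (n 29 (n 27 (n 26 e e) (n 28 e e)) (n 30 e e))) (n 35 (n 34 (n 32 e (n 33 e e)) e) e)))),
  (157, (n 19 (n 7 (n 1 e (n 4 (n 2 e (n 3 e e)) (n 6 (n 5 e e) e))) (n 14 (n 9 (n 8 e e) (n 11 (n 10 e e) (n 13 (n 12 e e) e))) (n 17 (n 16 (n 15 e e) e) (n 18 e e)))) (n 31 (n 25 (n 21 (n 20 e e) (n 23 (n 22 e e) (n 24 e e))) (n 29 (n 27 (n 26 e e) (n 28 e e)) (n 30 e e))) (n 35 (n 34 (n 32 e (n 33 e e)) e) e)))),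
  (157, (n 17 (n 5 (n 1 e (n 2 e (n 4 (n 3 e e) e))) (n 11 (n 7 (n 6 e e) (n 9 (n 8 e e) (n 10 e e))) (n 15 (n 13 (n 12 e e) (n 14 e e)) (n 16 e e)))) (n 29 (n 22 (n 19 (n 18 e e) (n 20 e (n 21 e e))) (n 27 (n 25 (n 23 e (n 24 e e)) (n 26 e e)) (n 28 e e))) (n 35 (n 32 (n 30 e (n 31 e e)) (n 34 (n 33 e e) e)) e)))),
  (14, (n 16 (n 2 (n 1 e e) (n 9 (n 6 (n 4 (n 3 e e) (n 5 e e)) (n 7 e (n 8 e e))) (n 13 (n 11 (n 10 e e) (n 12 e e)) (n 15 (n 14 e e) e)))) (n 28 (n 20 (n 18 (n 17 e e) (n 19 e e)) (n 24 (n 22 (n 21 e e) (n 23 e e)) (n 27 (n 25 e (n 26 e e)) e))) (n 34 (n 30 (n 29 e e) (n 32 (n 31 e e) (n 33 e e))) (n 35 e e))))),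
  (14, (n 20 (n 8 (n 2 (n 1 e e) (n 6 (n 4 (n 3 e e) (n 5 e e)) (n 7 e e))) (n 16 (n 12 (n 9 e (n 11 (n 10 e e) e)) (n 14 (n 13 e e) (n 15 e e))) (n 18 (n 17 e e) (n 19 e e)))) (n 34 (n 27 (n 23 (n 21 e (n 22 e e)) (n 25 (n 24 e e) (n 26 e e))) (n 30 (n 29 (n 28 e e) e) (n 32 (n 31 e e) (n 33 e e)))) (n 35 e e)))),
  (458, (n 17 (n 5 (n 1 e (n 2 e (n 4 (n 3 e e) e))) (n 11 (n 7 (n 6 e e) (n 9 (n 8 e e) (n 10 e e))) (n 15 (n 13 (n 12 e e) (n 14 e e)) (n 16 e e)))) (n 29 (n 21 (n 19 (n 18 e e) (n 20 e e)) (n 26 (n 23 (n 22 e e) (n 25 (n 24 e e) e)) (n 28 (n 27 e e) e))) (n 35 (n 32 (n 30 e (n 31 e e)) (n 34 (n 33 e e) e)) e)))),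
  (458, (n 19 (n 7 (n 1 e (n 4 (n 2 e (n 3 e e)) (n 6 (n 5 e e) e))) (n 15 (n 10 (n 8 e (n 9 e e)) (n 13 (n 11 e (n 12 e e)) (n 14 e e))) (n 17 (n 16 e e) (n 18 e e)))) (n 31 (n 25 (n 21 (n 20 e e) (n 23 (n 22 e e) (n 24 e e))) (n 29 (n 27 (n 26 e e) (n 28 e e)) (n 30 e e))) (n 35 (n 34 (n 32 e (n 33 e e)) e) e)))),
  (460, (n 16 (n 3 (n 1 e (n 2 e e)) (n 9 (n 6 (n 5 (n 4 e e) e) (n 7 e (n 8 e e))) (n 13 (n 11 (n 10 e e) (n 12 e e)) (n 15 (n 14 e e) e)))) (n 28 (n 20 (n 18 (n 17 e e) (n 19 e e)) (n 24 (n 22 (n 21 e e) (n 23 e e)) (n 26 (n 25 e e) (n 27 e e)))) (n 34 (n 30 (n 29 e e) (n 32 (n 31 e e) (n 33 e e))) (n 35 e e))))),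
  (460, (n 20 (n 8 (n 2 (n 1 e e) (n 6 (n 4 (n 3 e e) (n 5 e e)) (n 7 e e))) (n 16 (n 12 (n 10 (n 9 e e) (n 11 e e)) (n 14 (n 13 e e) (n 15 e e))) (n 18 (n 17 e e) (n 19 e e)))) (n 33 (n 27 (n 23 (n 21 e (n 22 e e)) (n 25 (n 24 e e) (n 26 e e))) (n 30 (n 29 (n 28 e e) e) (n 31 e (n 32 e e)))) (n 35 (n 34 e e) e)))),
  (22, (n 16 (n 3 (n 1 e (n 2 e e)) (n 9 (n 6 (n 5 (n 4 e e) e) (n 7 e (n 8 e e))) (n 13 (n 11 (n 10 e e) (n 12 e e)) (n 15 (n 14 e e) e)))) (n 28 (n 20 (n 18 (n 17 e e) (n 19 e e)) (n 24 (n 22 (n 21 e e) (n 23 e e)) (n 27 (n 25 e (n 26 e e)) e))) (n 34 (n 30 (n 29 e e) (n 32 (n 31 e e) (n 33 e e))) (n 35 e e))))),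
  (22, (n 20 (n 8 (n 2 (n 1 e e) (n 6 (n 4 (n 3 e e) (n 5 e e)) (n 7 e e))) (n 16 (n 12 (n 9 e (n 11 (n 10 e e) e)) (n 14 (n 13 e e) (n 15 e e))) (n 18 (n 17 e e) (n 19 e e)))) (n 33 (n 27 (n 23 (n 21 e (n 22 e e)) (n 25 (n 24 e e) (n 26 e e))) (n 30 (n 29 (n 28 e e) e) (n 31 e (n 32 e e)))) (n 35 (n 34 e e) e)))),
  (786, (n 19 (n 6 (n 1 e (n 4 (n 2 e (n 3 e e)) (n 5 e e))) (n 14 (n 9 (n 7 e (n 8 e e)) (n 11 (n 10 e e) (n 13 (n 12 e e) e))) (n 17 (n 16 (n 15 e e) e) (n 18 e e)))) (n 31 (n 26 (n 22 (n 20 e (n 21 e e)) (n 24 (n 23 e e) (n 25 e e))) (n 29 (n 28 (n 27 e e) e) (n 30 e e))) (n 35 (n 34 (n 32 e (n 33 e e)) e) e)))),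
  (786, (n 17 (n 5 (n 1 e (n 2 e (n 4 (n 3 e e) e))) (n 10 (n 7 (n 6 e e) (n 8 e (n 9 e e))) (n 14 (n 12 (n 11 e e) (n 13 e e)) (n 16 (n 15 e e) e)))) (n 30 (n 22 (n 19 (n 18 e e) (n 20 e (n 21 e e))) (n 27 (n 25 (n 23 e (n 24 e e)) (n 26 e e)) (n 29 (n 28 e e) e))) (n 35 (n 32 (n 31 e e) (n 34 (n 33 e e) e)) e)))),
  (249, (n 16 (n 3 (n 1 e (n 2 e e)) (n 9 (n 6 (n 5 (n 4 e e) e) (n 7 e (n 8 e e))) (n 13 (n 11 (n 10 e e) (n 12 e e)) (n 15 (n 14 e e) e)))) (n 28 (n 20 (n 18 (n 17 e e) (n 19 e e)) (n 24 (n 22 (n 21 e e) (n 23 e e)) (n 27 (n 26 (n 25 e e) e) e))) (n 34 (n 30 (n 29 e e) (n 32 (n 31 e e) (n 33 e e))) (n 35 e e))))),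
  (249, (n 20 (n 8 (n 2 (n 1 e e) (n 6 (n 4 (n 3 e e) (n 5 e e)) (n 7 e e))) (n 16 (n 12 (n 9 e (n 10 e (n 11 e e))) (n 14 (n 13 e e) (n 15 e e))) (n 18 (n 17 e e) (n 19 e e)))) (n 33 (n 27 (n 23 (n 21 e (n 22 e e)) (n 25 (n 24 e e) (n 26 e e))) (n 30 (n 29 (n 28 e e) e) (n 31 e (n 32 e e)))) (n 35 (n 34 e e) e)))),
  (9, (n 18 (n 6 (n 1 e (n 4 (n 2 e (n 3 e e)) (n 5 e e))) (n 13 (n 8 (n 7 e e) (n 10 (n 9 e e) (n 11 e (n 12 e e)))) (n 16 (n 15 (n 14 e e) e) (n 17 e e)))) (n 30 (n 23 (n 20 (n 19 e e) (n 21 e (n 22 e e))) (n 28 (n 26 (n 25 (n 24 e e) e) (n 27 e e)) (n 29 e e))) (n 35 (n 32 (n 31 e e) (n 34 (n 33 e e) e)) e)))),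
  (9, (n 18 (n 6 (n 1 e (n 4 (n 2 e (n 3 e e)) (n 5 e e))) (n 13 (n 8 (n 7 e e) (n 10 (n 9 e e) (n 11 e (n 12 e e)))) (n 16 (n 15 (n 14 e e) e) (n 17 e e)))) (n 30 (n 23 (n 20 (n 19 e e) (n 21 e (n 22 e e))) (n 28 (n 26 (n 25 (n 24 e e) e) (n 27 e e)) (n 29 e e))) (n 35 (n 32 (n 31 e e) (n 34 (n 33 e e) e)) e)))),
  (371, (n 18 (n 5 (n 1 e (n 2 e (n 4 (n 3 e e) e))) (n 12 (n 8 (n 6 e (n 7 e e)) (n 10 (n 9 e e) (n 11 e e))) (n 16 (n 14 (n 13 e e) (n 15 e e)) (n 17 e e)))) (n 31 (n 24 (n 20 (n 19 e e) (n 22 (n 21 e e) (n 23 e e))) (n 28 (n 26 (n 25 e e) (n 27 e e)) (n 30 (n 29 e e) e))) (n 35 (n 34 (n 32 e (n 33 e e)) e) e)))),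
  (371, (n 18 (n 5 (n 1 e (n 2 e (n 4 (n 3 e e) e))) (n 12 (n 8 (n 6 e (n 7 e e)) (n 10 (n 9 e e) (n 11 e e))) (n 16 (n 14 (n 13 e e) (n 15 e e)) (n 17 e e)))) (n 31 (n 24 (n 20 (n 19 e e) (n 22 (n 21 e e) (n 23 e e))) (n 28 (n 26 (n 25 e e) (n 27 e e)) (n 30 (n 29 e e) e))) (n 35 (n 34 (n 32 e (n 33 e e)) e) e)))),
  (44, (n 16 (n 3 (n 1 e (n 2 e e)) (n 9 (n 6 (n 5 (n 4 e e) e) (n 7 e (n 8 e e))) (n 13 (n 11 (n 10 e e) (n 12 e e)) (n 15 (n 14 e e) e)))) (n 29 (n 20 (n 18 (n 17 e e) (n 19 e e)) (n 25 (n 22 (n 21 e e) (n 23 e (n 24 e e))) (n 28 (n 27 (n 26 e e) e) e))) (n 35 (n 32 (n 30 e (n 31 e e)) (n 34 (n 33 e e) e)) e)))),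
  (44, (n 20 (n 7 (n 1 e (n 4 (n 2 e (n 3 e e)) (n 6 (n 5 e e) e))) (n 16 (n 11 (n 8 e (n 9 e (n 10 e e))) (n 14 (n 13 (n 12 e e) e) (n 15 e e))) (n 18 (n 17 e e) (n 19 e e)))) (n 33 (n 27 (n 23 (n 21 e (n 22 e e)) (n 25 (n 24 e e) (n 26 e e))) (n 30 (n 29 (n 28 e e) e) (n 31 e (n 32 e e)))) (n 35 (n 34 e e) e)))),
  (186, (n 18 (n 6 (n 1 e (n 4 (n 2 e (n 3 e e)) (n 5 e e))) (n 13 (n 9 (n 7 e (n 8 e e)) (n 11 (n 10 e e) (n 12 e e))) (n 16 (n 15 (n 14 e e) e) (n 17 e e)))) (n 30 (n 23 (n 20 (n 19 e e) (n 21 e (n 22 e e))) (n 27 (n 25 (n 24 e e) (n 26 e e)) (n 29 (n 28 e e) e))) (n 35 (n 32 (n 31 e e) (n 34 (n 33 e e) e)) e)))),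
  (186, (n 18 (n 6 (n 1 e (n 4 (n 2 e (n 3 e e)) (n 5 e e))) (n 13 (n 9 (n 7 e (n 8 e e)) (n 11 (n 10 e e) (n 12 e e))) (n 16 (n 15 (n 14 e e) e) (n 17 e e)))) (n 30 (n 23 (n 20 (n 19 e e) (n 21 e (n 22 e e))) (n 27 (n 25 (n 24 e e) (n 26 e e)) (n 29 (n 28 e e) e))) (n 35 (n 32 (n 31 e e) (n 34 (n 33 e e) e)) e)))),
  (794, (n 17 (n 4 (n 1 e (n 2 e (n 3 e e))) (n 10 (n 7 (n 5 e (n 6 e e)) (n 8 e (n 9 e e))) (n 14 (n 12 (n 11 e e) (n 13 e e)) (n 16 (n 15 e e) e)))) (n 30 (n 22 (n 19 (n 18 e e) (n 20 e (n 21 e e))) (n 27 (n 25 (n 23 e (n 24 e e)) (n 26 e e)) (n 29 (n 28 e e) e))) (n 35 (n 33 (n 31 e (n 32 e e)) (n 34 e e)) e)))),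
  (794, (n 19 (n 6 (n 1 e (n 3 (n 2 e e) (n 5 (n 4 e e) e))) (n 14 (n 9 (n 7 e (n 8 e e)) (n 11 (n 10 e e) (n 13 (n 12 e e) e))) (n 17 (n 16 (n 15 e e) e) (n 18 e e)))) (n 32 (n 26 (n 22 (n 20 e (n 21 e e)) (n 24 (n 23 e e) (n 25 e e))) (n 29 (n 28 (n 27 e e) e) (n 31 (n 30 e e) e))) (n 35 (n 34 (n 33 e e) e) e)))),
  (44, (n 16 (n 3 (n 1 e (n 2 e e)) (n 9 (n 6 (n 5 (n 4 e e) e) (n 7 e (n 8 e e))) (n 13 (n 11 (n 10 e e) (n 12 e e)) (n 15 (n 14 e e) e)))) (n 28 (n 20 (n 18 (n 17 e e) (n 19 e e)) (n 23 (n 21 e (n 22 e e)) (n 26 (n 25 (n 24 e e) e) (n 27 e e)))) (n 34 (n 30 (n 29 e e) (n 32 (n 31 e e) (n 33 e e))) (n 35 e e))))),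
  (44, (n 20 (n 8 (n 2 (n 1 e e) (n 6 (n 4 (n 3 e e) (n 5 e e)) (n 7 e e))) (n 16 (n 13 (n 10 (n 9 e e) (n 11 e (n 12 e e))) (n 15 (n 14 e e) e)) (n 18 (n 17 e e) (n 19 e e)))) (n 33 (n 27 (n 23 (n 21 e (n 22 e e)) (n 25 (n 24 e e) (n 26 e e))) (n 30 (n 29 (n 28 e e) e) (n 31 e (n 32 e e)))) (n 35 (n 34 e e) e)))),
  (253, (n 18 (n 5 (n 1 e (n 2 e (n 4 (n 3 e e) e))) (n 12 (n 7 (n 6 e e) (n 9 (n 8 e e) (n 11 (n 10 e e) e))) (n 16 (n 14 (n 13 e e) (n 15 e e)) (n 17 e e)))) (n 31 (n 24 (n 20 (n 19 e e) (n 22 (n 21 e e) (n 23 e e))) (n 29 (n 27 (n 25 e (n 26 e e)) (n 28 e e)) (n 30 e e))) (n 35 (n 34 (n 32 e (n 33 e e)) e) e)))),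
  (253, (n 18 (n 5 (n 1 e (n 2 e (n 4 (n 3 e e) e))) (n 12 (n 7 (n 6 e e) (n 9 (n 8 e e) (n 11 (n 10 e e) e))) (n 16 (n 14 (n 13 e e) (n 15 e e)) (n 17 e e)))) (n 31 (n 24 (n 20 (n 19 e e) (n 22 (n 21 e e) (n 23 e e))) (n 29 (n 27 (n 25 e (n 26 e e)) (n 28 e e)) (n 30 e e))) (n 35 (n 34 (n 32 e (n 33 e e)) e) e)))),
  (58, (n 17 (n 5 (n 1 e (n 2 e (n 4 (n 3 e e) e))) (n 11 (n 7 (n 6 e e) (n 9 (n 8 e e) (n 10 e e))) (n 15 (n 13 (n 12 e e) (n 14 e e)) (n 16 e e)))) (n 30 (n 22 (n 19 (n 18 e e) (n 20 e (n 21 e e))) (n 27 (n 25 (n 23 e (n 24 e e)) (n 26 e e)) (n 29 (n 28 e e) e))) (n 35 (n 32 (n 31 e e) (n 34 (n 33 e e) e)) e)))),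
  (58, (n 19 (n 6 (n 1 e (n 4 (n 2 e (n 3 e e)) (n 5 e e))) (n 14 (n 9 (n 7 e (n 8 e e)) (n 11 (n 10 e e) (n 13 (n 12 e e) e))) (n 17 (n 16 (n 15 e e) e) (n 18 e e)))) (n 31 (n 25 (n 21 (n 20 e e) (n 23 (n 22 e e) (n 24 e e))) (n 29 (n 27 (n 26 e e) (n 28 e e)) (n 30 e e))) (n 35 (n 34 (n 32 e (n 33 e e)) e) e))))]

def dZ : ℕ → ℤ
  | 0 => 10935
  | (m+1) => 2 * 3 ^ (7 - m)

def CZ (k : ℤ) : ℤ := 17496 * max k 0 + dZ k.natAbs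

def VZ : T → ℤ → ℕ → ℕ → ℕ → ℤ
  | e, k, la, lb, _ => ((Bn lb : ℤ) - Bn la) * CZ k
  | n g l r, k, la, lb, i =>
      if i < g then ((Bn g : ℤ) - Bn la) * 17496 + VZ l (k-1) la g i
      else k * ((Bn g : ℤ) - Bn la) * 17496 + VZ r (k+1) g lb i

def WF : T → ℕ → ℕ → Bool
  | e, la, lb => decide (Bn la ≤ Bn lb)
  | n g l r, la, lb => decide (Bn la ≤ Bn g) && decide (Bn g ≤ Bn lb) && decide (g ≤ 35) &&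
      WF l la g && WF r g lb

lemma wf_all : ∀ p ∈ trees, WF p.2 0 36 = true := by decide +kernel

lemma weights_sum : (trees.map (fun p => p.1)).sum = 10000 := by decide +kernel

lemma grid_mono : ∀ i < 36, Bn i ≤ Bn (i+1) := by decide +kernel

lemma grid_le : ∀ i < 37, Bn i ≤ 1000 := by decide +kernel

lemma value_check : ∀ i < 36, (trees.map (fun p => (p.1 : ℤ) * VZ p.2 0 0 36 i)).sum ≤ 108694205208 := by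
  decide +kernel

end H10Hl
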