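import Pool.Agent.H10.HlA
import Pool.Agent.H10.HlCert

/-!
The mixed strategy and its guaranteed cost.
-/

set_option autoImplicit false

namespace H10Hl

open scoped ENNReal
open T

noncomputable def dd : ℕ → ℝ
  | 0 => 5/8
  | (m+1) => (1/4) * (1/3)^m

lemma dd_pos : ∀ m, 0 < dd m := by
  intro m
  cases m with
  | zero => norm_num [dd]
  | succ m => simp only [dd]; positivity

lemma dd_succ_le (m : ℕ) : dd (m+1) ≤ 1/4 := by
  simp only [dd]
  have : (1/3 : ℝ)^m ≤ 1 := pow_le_one₀ (by norm_num) (by norm_num)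
  linarith

lemma dd_sup : SuperSol (lamOf dd) (COf dd) := by
  apply superSol_of dd dd_pos
  · simp only [dd]; norm_num
  · intro m
    unfold eta
    rw [div_le_one (by have := dd_pos (m+1); linarith)]
    have h2 := dd_pos (m+1)
    cases m with
    | zero => simp only [dd]; norm_num
    | succ m => have := dd_succ_le m; linarith
  · intro m
    have hp := dd_pos (m+1)
    have hp2 := dd_pos (m+2)
    have h2 := dd_succ_le (m+1)
    have he : 0 < 1 + dd (m+1+1) := by linarith
    cases m with
    | zero =>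
      unfold eta
      simp only [dd]; norm_num
    | succ m =>
      -- dd (m+1) = 3 dd (m+2)
      have h3 : dd (m+1) = 3 * dd (m+1+1) := by
        simp only [dd]; rw [pow_succ]; ring
      have h4 : dd (m+1+1) = 3 * dd (m+1+1+1) := by
        simp only [dd]; rw [pow_succ (1/3 : ℝ) (m+1)]; ring
      have heta : eta dd (m+1+1) = dd (m+1+1) / (1 + dd (m+1+1+1)) := rfl
      rw [heta, h3, h4]
      have hyp : 0 < dd (m+1+1+1) := dd_pos _
      set y := dd (m+1+1+1) with hy
      have hm : (0:ℝ) ≤ m := Nat.cast_nonneg m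
      have e1 : 1 - 3 * y / (1 + y) = (1 - 2 * y) / (1 + y) := by
        field_simp; ring
      rw [e1, div_mul_eq_mul_div, div_le_iff₀ (by linarith)]
      push_cast
      nlinarith [mul_nonneg hm hyp.le, mul_pos hyp hyp]

lemma sum_map_div' {α : Type} (l : List α) (f : α → ℝ) (c : ℝ) :
    (l.map (fun p => f p / c)).sum = (l.map f).sum / c := by
  induction l with
  | nil => simp
  | cons x l ih => simp only [List.map_cons, List.sum_cons, ih, add_div]

lemma cast_sum_int {α : Type} (l : List α) (f : α → ℤ) :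
    (((l.map f).sum : ℤ) : ℝ) = (l.map (fun p => (f p : ℝ))).sum := by
  induction l with
  | nil => simp
  | cons x l ih => simp only [List.map_cons, List.sum_cons, Int.cast_add, ih]

lemma cast_sum_nat {α : Type} (l : List α) (f : α → ℕ) :
    (((l.map f).sum : ℕ) : ℝ) = (l.map (fun p => (f p : ℝ))).sum := by
  induction l with
  | nil => simp
  | cons x l ih => simp only [List.map_cons, List.sum_cons, Nat.cast_add, ih]

noncomputable def pos (i : ℕ) : ℝ := (Bn i : ℝ) / 1000

lemma Bn_le (i : ℕ) : Bn i ≤ 1000 := by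
  by_cases h : i < 37
  · exact grid_le i h
  · unfold Bn
    rw [List.getD_eq_default _ _ (by show gridL.length ≤ i; have : gridL.length = 37 := rfl; omega)]

lemma pos_mem (i : ℕ) : pos i ∈ Set.Icc (0:ℝ) 1 := by
  unfold pos
  constructor
  · positivity
  · rw [div_le_one (by norm_num)]
    exact_mod_cast Bn_le i

/-- strategy that follows a tree and then the explicit state strategy -/
noncomputable def treeGuess : T → List Bool → ℤ → ℝ → ℝ → ℝ
  | e, l, k, a, b => stateGuess (lamOf dd) l k a b
  | n g _ _, [], _, _, _ => pos g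
  | n g _ r, true :: l, k, _, b => treeGuess r l (k+1) (pos g) b
  | n g s _, false :: l, k, a, _ => treeGuess s l (k-1) a (pos g)

lemma treeGuess_mem : ∀ (t : T) (l : List Bool) (k : ℤ) (a b : ℝ), a ∈ Set.Icc (0:ℝ) 1 →
    b ∈ Set.Icc (0:ℝ) 1 → treeGuess t l k a b ∈ Set.Icc (0:ℝ) 1 := by
  intro t
  induction t with
  | e => intro l k a b ha hb; exact stateGuess_mem dd_sup.lam0 dd_sup.lam1 l k a b ha hb
  | n g s r ihs ihr =>
    intro l k a b ha hb
    cases l with
    | nil => exact pos_mem g
    | cons x l =>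
      cases x with
      | false => exact ihs l _ _ _ ha (pos_mem g)
      | true => exact ihr l _ _ _ (pos_mem g) hb

/-- potential -/
noncomputable def pot : T → ℤ → ℝ → ℝ → ℝ → ℝ
  | e, k, a, b, h => (b - a) * COf dd k - k * (h - a)
  | n g l r, k, a, b, h =>
      if h < pos g then (pos g - h) + pot l (k-1) a (pos g) h
      else (h - pos g) + pot r (k+1) (pos g) b h

/-- well formed real trees -/
def WFr : T → ℝ → ℝ → Prop
  | e, a, b => a ≤ b
  | n g l r, a, b => a ≤ pos g ∧ pos g ≤ b ∧ WFr l a (pos g) ∧ WFr r (pos g) b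

lemma pot_spec : ∀ (t : T) (k : ℤ) (a b h : ℝ), WFr t a b → a ≤ h → h ≤ b →
    0 ≤ pot t k a b h ∧
      payoff (fun l => treeGuess t l k a b) h ≤ ENNReal.ofReal (pot t k a b h) := by
  intro t
  induction t with
  | e =>
    intro k a b h _ h1 h2
    exact ⟨pot_nonneg dd_sup k a b h h1 h2, payoff_le dd_sup h k a b h1 h2⟩
  | n g s r ihs ihr =>
    intro k a b h hwf h1 h2
    obtain ⟨w1, w2, w3, w4⟩ := hwf
    by_cases hlt : h < pos g
    · obtain ⟨p1, p2⟩ := ihs (k-1) a (pos g) h w3 h1 hlt.le
      have e1 : pot (n g s r) k a b h = (pos g - h) + pot s (k-1) a (pos g) h := by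
        simp only [pot, if_pos hlt]
      rw [e1]
      refine ⟨by linarith, ?_⟩
      rw [payoff_rec]
      beta_reduce
      have g1 : ¬ treeGuess (n g s r) [] k a b = h := by
        show ¬ (pos g = h); intro hh; linarith
      have g2 : ¬ treeGuess (n g s r) [] k a b < h := by
        show ¬ (pos g < h); linarith
      rw [if_neg g1, ENNReal.ofReal_add (by linarith) p1]
      simp only [g2, decide_false]
      have g3 : |treeGuess (n g s r) [] k a b - h| = pos g - h := by
        show |pos g - h| = _
        rw [abs_of_pos (by linarith)]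
      rw [g3]
      exact add_le_add le_rfl p2
    · have hle : pos g ≤ h := not_lt.mp hlt
      obtain ⟨p1, p2⟩ := ihr (k+1) (pos g) b h w4 hle h2
      have e1 : pot (n g s r) k a b h = (h - pos g) + pot r (k+1) (pos g) b h := by
        simp only [pot, if_neg hlt]
      rw [e1]
      refine ⟨by linarith, ?_⟩
      rw [payoff_rec]
      beta_reduce
      rw [ENNReal.ofReal_add (by linarith) p1]
      have g3 : |treeGuess (n g s r) [] k a b - h| = h - pos g := by
        show |pos g - h| = _
        rw [abs_of_nonpos (by linarith)]; ring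
      rw [g3]
      refine add_le_add le_rfl ?_
      by_cases g1 : treeGuess (n g s r) [] k a b = h
      · rw [if_pos g1]; exact zero_le
      · rw [if_neg g1]
        have g2 : treeGuess (n g s r) [] k a b < h := by
          show pos g < h
          exact lt_of_le_of_ne hle g1
        simp only [g2, decide_true]
        exact p2

lemma dZ_ge (m : ℕ) : dd m * 17496 ≤ dZ m := by
  cases m with
  | zero => simp only [dd, dZ]; norm_num
  | succ m =>
    simp only [dd, dZ]
    push_cast
    by_cases hm : m ≤ 7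
    · have : (3:ℝ)^(7-m) * 3^m = 3^7 := by rw [← pow_add]; congr 1; omega
      have h3 : (0:ℝ) < 3^m := by positivity
      rw [one_div_pow]
      have : (3:ℝ)^(7-m) = 3^7 / 3^m := by rw [eq_div_iff h3.ne']; exact this
      rw [this]
      apply le_of_eq
      field_simp
      norm_num
    · have h7 : 7 - m = 0 := by omega
      rw [h7]
      have : (1/3 : ℝ)^m ≤ (1/3)^7 := pow_le_pow_of_le_one (by norm_num) (by norm_num) (by omega)
      norm_num at this ⊢
      linarith

lemma CZ_ge (k : ℤ) : COf dd k * 17496 ≤ CZ k := by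
  unfold COf CZ
  have := dZ_ge k.natAbs
  push_cast
  linarith

lemma Bn_mono {i j : ℕ} (hij : i ≤ j) : Bn i ≤ Bn j := by
  have key : ∀ m, Bn m ≤ Bn (m+1) := by
    intro m
    by_cases h : m < 36
    · exact grid_mono m h
    · have : Bn (m+1) = 1000 := by
        unfold Bn
        rw [List.getD_eq_default _ _ (by show gridL.length ≤ m+1; have : gridL.length = 37 := rfl; omega)]
      rw [this]; exact Bn_le m
  exact monotone_nat_of_le_succ key hij

lemma pos_mono {i j : ℕ} (hij : i ≤ j) : pos i ≤ pos j := by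
  unfold pos
  have := Bn_mono hij
  gcongr

lemma WFr_of : ∀ (t : T) (la lb : ℕ), WF t la lb = true → WFr t (pos la) (pos lb) := by
  intro t
  induction t with
  | e =>
    intro la lb h
    simp only [WF, decide_eq_true_eq] at h
    show pos la ≤ pos lb
    unfold pos
    gcongr
  | n g s r ihs ihr =>
    intro la lb h
    simp only [WF, Bool.and_eq_true, decide_eq_true_eq] at h
    obtain ⟨⟨⟨⟨h1, h2⟩, _⟩, h4⟩, h5⟩ := h
    refine ⟨?_, ?_, ihs _ _ h4, ihr _ _ h5⟩
    · unfold pos; gcongr
    · unfold pos; gcongr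

lemma pot_le : ∀ (t : T) (k : ℤ) (la lb : ℕ) (h : ℝ) (i : ℕ), WF t la lb = true →
    (∀ g, g ≤ 35 → (h < pos g ↔ i < g)) →
    pot t k (pos la) (pos lb) h ≤ (VZ t k la lb i : ℝ) / 17496000 - k * (h - pos la) := by
  intro t
  induction t with
  | e =>
    intro k la lb h i hwf hi
    simp only [WF, decide_eq_true_eq] at hwf
    simp only [pot, VZ]
    have h1 := CZ_ge k
    have h2 : (0:ℝ) ≤ (Bn lb : ℝ) - Bn la := by
      have : (Bn la : ℝ) ≤ Bn lb := by exact_mod_cast hwf
      linarith
    have h3 := mul_le_mul_of_nonneg_left h1 h2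
    have e1 : pos lb - pos la = ((Bn lb : ℝ) - Bn la) / 1000 := by unfold pos; ring
    rw [e1]
    push_cast
    have e2 : ((Bn lb : ℝ) - Bn la) / 1000 * COf dd k = ((Bn lb : ℝ) - Bn la) * (COf dd k * 17496) / 17496000 := by
      ring
    rw [e2]
    have : ((Bn lb : ℝ) - Bn la) * (COf dd k * 17496) / 17496000 ≤ ((Bn lb : ℝ) - Bn la) * (CZ k) / 17496000 := by
      gcongr
    linarith
  | n g s r ihs ihr =>
    intro k la lb h i hwf hi
    simp only [WF, Bool.and_eq_true, decide_eq_true_eq] at hwf
    obtain ⟨⟨⟨⟨h1, h2⟩, h3⟩, h4⟩, h5⟩ := hwf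
    simp only [pot, VZ]
    by_cases hlt : h < pos g
    · rw [if_pos hlt, if_pos ((hi g h3).mp hlt)]
      have := ihs (k-1) la g h i h4 hi
      push_cast at this ⊢
      have e1 : ((((Bn g : ℝ) - Bn la) * 17496 + (VZ s (k-1) la g i : ℝ)) / 17496000)
          = (pos g - pos la) + (VZ s (k-1) la g i : ℝ) / 17496000 := by
        unfold pos; ring
      rw [e1]
      linarith
    · rw [if_neg hlt, if_neg (fun hc => hlt ((hi g h3).mpr hc))]
      have := ihr (k+1) g lb h i h5 hi
      push_cast at this ⊢
      have e1 : (((k:ℝ) * ((Bn g : ℝ) - Bn la) * 17496 + (VZ r (k+1) g lb i : ℝ)) / 17496000)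
          = k * (pos g - pos la) + (VZ r (k+1) g lb i : ℝ) / 17496000 := by
        unfold pos; ring
      rw [e1]
      linarith

lemma exists_cell (h : ℝ) (h0 : 0 ≤ h) : ∃ i < 36, ∀ g, g ≤ 35 → (h < pos g ↔ i < g) := by
  classical
  set P : ℕ → Prop := fun i => pos i ≤ h with hP
  have hp0 : P 0 := by
    show pos 0 ≤ h
    have : pos 0 = 0 := by unfold pos; norm_num [Bn, gridL]
    rw [this]; exact h0
  refine ⟨Nat.findGreatest P 35, ?_, ?_⟩
  · have := Nat.findGreatest_le (P := P) 35
    omega
  · intro g hg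
    have hs : P (Nat.findGreatest P 35) := Nat.findGreatest_spec (P := P) (Nat.zero_le 35) hp0
    constructor
    · intro hlt
      by_contra hc
      push Not at hc
      have : pos g ≤ pos (Nat.findGreatest P 35) := pos_mono hc
      have h3 : pos (Nat.findGreatest P 35) ≤ h := hs
      linarith
    · intro hlt
      have := Nat.findGreatest_is_greatest hlt hg
      exact not_le.mp this

/-- the mixed strategy -/
noncomputable def sigma : MixedStrategy where
  m := trees.length
  w := fun i => ((trees[i]).1 : ℝ) / 10000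
  strat := fun i => ⟨fun l => treeGuess (trees[i]).2 l 0 0 1,
    fun l => treeGuess_mem _ l 0 0 1 (by simp) (by simp)⟩
  nonneg := fun i => by positivity
  sum_one := by
    have h := Fin.sum_univ_fun_getElem trees (fun p => (p.1 : ℝ) / 10000)
    have h2 : (trees.map (fun p => (p.1 : ℝ) / 10000)).sum
        = ((trees.map (fun p => p.1)).sum : ℕ) / 10000 := by
      rw [cast_sum_nat, sum_map_div']
    rw [h2, weights_sum] at h
    norm_num at h
    exact h

lemma pos0 : pos 0 = 0 := by unfold pos; norm_num [Bn, gridL]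

lemma pos36 : pos 36 = 1 := by unfold pos; norm_num [Bn, gridL]

lemma sigma_expected (h : ℝ) (h0 : 0 ≤ h) (h1 : h ≤ 1) :
    sigma.expected h ≤ ENNReal.ofReal (6213/10000) := by
  obtain ⟨i, hi, hc⟩ := exists_cell h h0
  have hpt : ∀ p ∈ trees, payoff (fun l => treeGuess p.2 l 0 0 1) h
      ≤ ENNReal.ofReal ((VZ p.2 0 0 36 i : ℝ) / 17496000) := by
    intro p hp
    have hwf := wf_all p hp
    have hw := WFr_of p.2 0 36 hwf
    rw [pos0, pos36] at hw
    have h2 := (pot_spec p.2 0 0 1 h hw h0 h1).2
    refine h2.trans (ENNReal.ofReal_le_ofReal ?_)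
    have h3 := pot_le p.2 0 0 36 h i hwf hc
    rw [pos0, pos36] at h3
    simpa using h3
  have hnn : ∀ p ∈ trees, 0 ≤ (VZ p.2 0 0 36 i : ℝ) / 17496000 := by
    intro p hp
    have hwf := wf_all p hp
    have hw := WFr_of p.2 0 36 hwf
    rw [pos0, pos36] at hw
    have h2 := (pot_spec p.2 0 0 1 h hw h0 h1).1
    have h3 := pot_le p.2 0 0 36 h i hwf hc
    rw [pos0, pos36] at h3
    have h4 : pot p.2 0 0 1 h ≤ (VZ p.2 0 0 36 i : ℝ) / 17496000 := by simpa using h3
    linarith
  have hexp : sigma.expected h ≤ ∑ j : Fin trees.length,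
      ENNReal.ofReal (((trees[j]).1 : ℝ) / 10000 * ((VZ (trees[j]).2 0 0 36 i : ℝ) / 17496000)) := by
    unfold MixedStrategy.expected
    apply Finset.sum_le_sum
    intro j _
    show ENNReal.ofReal (((trees[j]).1 : ℝ) / 10000) * payoff (fun l => treeGuess (trees[j]).2 l 0 0 1) h ≤ _
    rw [ENNReal.ofReal_mul (by positivity)]
    exact mul_le_mul' le_rfl (hpt _ (List.getElem_mem _))
  refine hexp.trans ?_
  rw [← ENNReal.ofReal_sum_of_nonneg]
  · apply ENNReal.ofReal_le_ofReal
    have h := Fin.sum_univ_fun_getElem trees (fun p => (p.1 : ℝ) / 10000 * ((VZ p.2 0 0 36 i : ℝ) / 17496000))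
    have h2 : (trees.map (fun p => (p.1 : ℝ) / 10000 * ((VZ p.2 0 0 36 i : ℝ) / 17496000))).sum
        = (((trees.map (fun p => (p.1 : ℤ) * VZ p.2 0 0 36 i)).sum : ℤ) : ℝ) / 174960000000 := by
      rw [cast_sum_int, ← sum_map_div']
      congr 1
      apply List.map_congr_left
      intro p _
      push_cast
      ring
    have hv := value_check i hi
    have hv' : (((trees.map (fun p => (p.1 : ℤ) * VZ p.2 0 0 36 i)).sum : ℤ) : ℝ) ≤ 108694205208 := by
      exact_mod_cast hv
    have h5 : ∑ j : Fin trees.length, (((trees[j]).1 : ℝ) / 10000 * ((VZ (trees[j]).2 0 0 36 i : ℝ) / 17496000))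
        = (((trees.map (fun p => (p.1 : ℤ) * VZ p.2 0 0 36 i)).sum : ℤ) : ℝ) / 174960000000 := by
      rw [← h2, ← h]
      rfl
    rw [h5, div_le_iff₀ (by norm_num)]
    linarith
  · intro j _
    exact mul_nonneg (by positivity) (hnn _ (List.getElem_mem _))

lemma sigma_guaranteed : sigma.guaranteed ≤ ENNReal.ofReal (6213/10000) :=
  iSup_le fun h => sigma_expected h h.2.1 h.2.2

end H10Hl
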