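import Pool.Agent.H10.HlA

/-!
Lower bound for the value of Alpern's strategy.
-/

set_option autoImplicit false

namespace H10Hl

open scoped ENNReal

lemma stateGuess_scale (lam : ℤ → ℝ) : ∀ (l : List Bool) (k : ℤ) (a r c d : ℝ),
    stateGuess lam l k (a + r * c) (a + r * d) = a + r * stateGuess lam l k c d := by
  intro l
  induction l with
  | nil => intro k a r c d; simp only [stateGuess]; ring
  | cons x l ih =>
    intro k a r c d
    cases x with
    | false =>
      simp only [stateGuess]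
      rw [← ih]
      congr 1; ring
    | true =>
      simp only [stateGuess]
      rw [← ih]
      congr 1; ring

lemma stateGuess_unit (lam : ℤ → ℝ) (l : List Bool) (k : ℤ) (a b : ℝ) :
    stateGuess lam l k a b = a + (b - a) * stateGuess lam l k 0 1 := by
  rw [← stateGuess_scale]
  congr 1 <;> ring

lemma cost_scale (a r x : ℝ) (hr : 0 < r) : ∀ (n : ℕ) (s : List Bool → ℝ),
    cost (a + r * x) n (fun l => a + r * s l) = ENNReal.ofReal r * cost x n s := by
  intro n
  induction n with
  | zero => intro s; simp [cost]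
  | succ n ih =>
    intro s
    rw [cost, cost]
    beta_reduce
    have e1 : |a + r * s [] - (a + r * x)| = r * |s [] - x| := by
      rw [show a + r * s [] - (a + r * x) = r * (s [] - x) by ring, abs_mul, abs_of_pos hr]
    rw [e1, ENNReal.ofReal_mul hr.le, mul_add]
    congr 1
    by_cases h1 : s [] = x
    · have h1' : a + r * s [] = a + r * x := by rw [h1]
      rw [if_pos h1, if_pos h1', mul_zero]
    · have h1' : ¬ (a + r * s [] = a + r * x) := by
        intro hc; apply h1
        have := mul_left_cancel₀ hr.ne' (add_left_cancel hc)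
        exact this
      rw [if_neg h1, if_neg h1']
      have h2 : (a + r * s [] < a + r * x) ↔ (s [] < x) := by
        constructor
        · intro h; by_contra hc; push Not at hc
          have := mul_le_mul_of_nonneg_left hc hr.le
          linarith
        · intro h
          have := mul_lt_mul_of_pos_left h hr
          linarith
      have h3 : decide (a + r * s [] < a + r * x) = decide (s [] < x) := by
        simp only [h2]
      rw [h3]
      exact ih _

lemma payoff_scale (a r x : ℝ) (hr : 0 < r) (s : List Bool → ℝ) :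
    payoff (fun l => a + r * s l) (a + r * x) = ENNReal.ofReal r * payoff s x := by
  unfold payoff
  rw [ENNReal.mul_iSup]
  congr 1
  funext n
  exact cost_scale a r x hr n s

/-- unit interval strategies -/
noncomputable def U (lam : ℤ → ℝ) (k : ℤ) : List Bool → ℝ := fun l => stateGuess lam l k 0 1

lemma payoff_unit (lam : ℤ → ℝ) (k : ℤ) (a b x : ℝ) (hab : a < b) :
    payoff (fun l => stateGuess lam l k a b) (a + (b - a) * x)
      = ENNReal.ofReal (b - a) * payoff (U lam k) x := by
  have : (fun l => stateGuess lam l k a b) = (fun l => a + (b - a) * U lam k l) := by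
    funext l; exact stateGuess_unit lam l k a b
  rw [this]
  exact payoff_scale a (b-a) x (by linarith) _

/-- non guess -/
def NG (lam : ℤ → ℝ) (k : ℤ) (x : ℝ) : Prop := ∀ l, U lam k l ≠ x

def Aff (lam : ℤ → ℝ) (k : ℤ) (α β : ℝ) : Prop :=
  ∀ x, 0 < x → x < 1 → NG lam k x → payoff (U lam k) x ≠ ⊤ ∧ (payoff (U lam k) x).toReal = α + β * x

variable {lam : ℤ → ℝ} (h0 : ∀ k, 0 < lam k) (h1 : ∀ k, lam k < 1)

include h0 h1 in
lemma U_mem (k : ℤ) (l : List Bool) : U lam k l ∈ Set.Icc (0:ℝ) 1 :=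
  stateGuess_mem (fun k => (h0 k).le) (fun k => (h1 k).le) l k 0 1 (by simp) (by simp)

include h0 h1 in
lemma NG_right (k : ℤ) (y : ℝ) (hy0 : 0 < y) (h : NG lam (k+1) y) :
    NG lam k ((1 - lam k) + lam k * y) := by
  intro l hc
  have hl := h0 k
  have hly := mul_pos hl hy0
  cases l with
  | nil =>
    have : U lam k [] = 1 - lam k := by simp [U, stateGuess]
    rw [this] at hc; linarith
  | cons b l =>
    cases b with
    | true =>
      have e : U lam k (true :: l) = (1 - lam k) + lam k * U lam (k+1) l := by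
        have : U lam k (true :: l) = stateGuess lam l (k+1) (lam k * 0 + (1 - lam k) * 1) 1 := rfl
        rw [this, stateGuess_unit]; unfold U; ring
      rw [e] at hc
      have := mul_left_cancel₀ hl.ne' (add_left_cancel hc)
      exact h l this
    | false =>
      have e : U lam k (false :: l) = (1 - lam k) * U lam (k-1) l := by
        have : U lam k (false :: l) = stateGuess lam l (k-1) 0 (lam k * 0 + (1 - lam k) * 1) := rfl
        rw [this, stateGuess_unit]; unfold U; ring
      rw [e] at hc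
      have h2 := (U_mem h0 h1 (k-1) l).2
      have h3 := h1 k
      nlinarith

include h0 h1 in
lemma NG_left (k : ℤ) (y : ℝ) (hy1 : y < 1) (h : NG lam (k-1) y) :
    NG lam k ((1 - lam k) * y) := by
  intro l hc
  have hl : 0 < 1 - lam k := by linarith [h1 k]
  have hly := mul_lt_mul_of_pos_left hy1 hl
  cases l with
  | nil =>
    have : U lam k [] = 1 - lam k := by simp [U, stateGuess]
    rw [this] at hc; linarith
  | cons b l =>
    cases b with
    | true =>
      have e : U lam k (true :: l) = (1 - lam k) + lam k * U lam (k+1) l := by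
        have : U lam k (true :: l) = stateGuess lam l (k+1) (lam k * 0 + (1 - lam k) * 1) 1 := rfl
        rw [this, stateGuess_unit]; unfold U; ring
      rw [e] at hc
      have h2 := (U_mem h0 h1 (k+1) l).1
      have h3 := mul_nonneg (h0 k).le h2
      linarith
    | false =>
      have e : U lam k (false :: l) = (1 - lam k) * U lam (k-1) l := by
        have : U lam k (false :: l) = stateGuess lam l (k-1) 0 (lam k * 0 + (1 - lam k) * 1) := rfl
        rw [this, stateGuess_unit]; unfold U; ring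
      rw [e] at hc
      exact h l (mul_left_cancel₀ hl.ne' hc)

include h0 h1 in
lemma Aff_right (k : ℤ) (α β : ℝ) (hA : Aff lam k α β) :
    Aff lam (k+1) ((α + β * (1 - lam k)) / lam k) (β - 1) := by
  intro y hy0 hy1 hng
  have hl := h0 k
  have hl1 := h1 k
  set x := (1 - lam k) + lam k * y with hx
  have hly := mul_pos hl hy0
  have hly1 := mul_lt_mul_of_pos_left hy1 hl
  obtain ⟨hA1, hA2⟩ := hA x (by linarith) (by linarith) (NG_right h0 h1 k y hy0 hng)
  have hrec : payoff (U lam k) x = ENNReal.ofReal (lam k * y)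
      + ENNReal.ofReal (lam k) * payoff (U lam (k+1)) y := by
    unfold U
    rw [payoff_state]
    have e0 : lam k * 0 + (1 - lam k) * 1 = 1 - lam k := by ring
    have hne : ¬ (lam k * 0 + (1 - lam k) * 1 = x) := by rw [e0]; intro hc; linarith
    have hlt : lam k * 0 + (1 - lam k) * 1 < x := by rw [e0]; linarith
    rw [if_neg hne, if_pos hlt]
    have e1 : |lam k * 0 + (1 - lam k) * 1 - x| = lam k * y := by
      rw [e0, abs_of_neg (by linarith)]; rw [hx]; ring
    rw [e1]
    congr 1
    have e2 : x = (1 - lam k) + (1 - (1 - lam k)) * y := by rw [hx]; ring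
    rw [e0]
    conv_lhs => rw [e2]
    rw [payoff_unit lam (k+1) (1 - lam k) 1 y (by linarith)]
    unfold U
    congr 2; ring
  rw [hrec] at hA1 hA2
  have hfin : payoff (U lam (k+1)) y ≠ ⊤ := by
    intro hc
    apply hA1
    rw [hc, ENNReal.mul_top (ENNReal.ofReal_pos.mpr hl).ne', add_top]
  refine ⟨hfin, ?_⟩
  rw [ENNReal.toReal_add ENNReal.ofReal_ne_top (ENNReal.mul_ne_top ENNReal.ofReal_ne_top hfin),
    ENNReal.toReal_mul, ENNReal.toReal_ofReal hly.le, ENNReal.toReal_ofReal hl.le] at hA2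
  rw [hx] at hA2
  field_simp
  linarith

include h0 h1 in
lemma Aff_left (k : ℤ) (α β : ℝ) (hA : Aff lam k α β) :
    Aff lam (k-1) ((α - (1 - lam k)) / (1 - lam k)) (β + 1) := by
  intro y hy0 hy1 hng
  have hl := h0 k
  have hl1 := h1 k
  have hp : 0 < 1 - lam k := by linarith
  set x := (1 - lam k) * y with hx
  have hly := mul_pos hp hy0
  have hly1 := mul_lt_mul_of_pos_left hy1 hp
  obtain ⟨hA1, hA2⟩ := hA x (by linarith) (by linarith) (NG_left h0 h1 k y hy1 hng)
  have hrec : payoff (U lam k) x = ENNReal.ofReal ((1 - lam k) * (1 - y))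
      + ENNReal.ofReal (1 - lam k) * payoff (U lam (k-1)) y := by
    unfold U
    rw [payoff_state]
    have e0 : lam k * 0 + (1 - lam k) * 1 = 1 - lam k := by ring
    have hne : ¬ (lam k * 0 + (1 - lam k) * 1 = x) := by rw [e0]; intro hc; linarith
    have hlt : ¬ (lam k * 0 + (1 - lam k) * 1 < x) := by rw [e0]; linarith
    rw [if_neg hne, if_neg hlt]
    have e1 : |lam k * 0 + (1 - lam k) * 1 - x| = (1 - lam k) * (1 - y) := by
      rw [e0, abs_of_pos (by linarith)]; rw [hx]; ring
    rw [e1]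
    congr 1
    have e2 : x = 0 + ((1 - lam k) - 0) * y := by rw [hx]; ring
    rw [e0]
    conv_lhs => rw [e2]
    rw [payoff_unit lam (k-1) 0 (1 - lam k) y (by linarith)]
    unfold U
    congr 2; ring
  rw [hrec] at hA1 hA2
  have hfin : payoff (U lam (k-1)) y ≠ ⊤ := by
    intro hc
    apply hA1
    rw [hc, ENNReal.mul_top (ENNReal.ofReal_pos.mpr hp).ne', add_top]
  refine ⟨hfin, ?_⟩
  rw [ENNReal.toReal_add ENNReal.ofReal_ne_top (ENNReal.mul_ne_top ENNReal.ofReal_ne_top hfin),
    ENNReal.toReal_mul, ENNReal.toReal_ofReal (by nlinarith), ENNReal.toReal_ofReal hp.le] at hA2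
  rw [hx] at hA2
  field_simp
  linarith

lemma exists_NG (lam : ℤ → ℝ) (k : ℤ) (u w : ℝ) (huw : u < w) : ∃ x, u < x ∧ x < w ∧ NG lam k x := by
  have hc : (Set.range (U lam k)).Countable := Set.countable_range _
  obtain ⟨x, hx1, hx2⟩ := (hc.dense_compl ℝ).exists_mem_open isOpen_Ioo (Set.nonempty_Ioo.mpr huw)
  refine ⟨x, hx2.1, hx2.2, fun l hl => hx1 ⟨l, hl⟩⟩

lemma Aff_unique (lam : ℤ → ℝ) (k : ℤ) (α α' β : ℝ) (hA : Aff lam k α β) (hA' : Aff lam k α' β) :
    α = α' := by
  obtain ⟨x, h0, h1, hng⟩ := exists_NG lam k 0 1 one_pos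
  have e1 := (hA x h0 h1 hng).2
  have e2 := (hA' x h0 h1 hng).2
  linarith

lemma alg (v p1 p2 C1 C2 : ℝ) (hv : 0 ≤ v) (hp1 : 0 < p1) (hp1' : p1 < 1) (hp2 : 0 < p2) (hp2' : p2 < 1)
    (e1 : C1 = p1 * (1 + v)) (e2 : C2 * (1 - p1) = v * p1) (e3 : C2 = p2 * (1 + C1))
    (e4 : 3 ≤ C2 + p2) (e5 : C1 ≤ 2 * v) : 6244/10000 ≤ v := by
  by_contra hlt
  push Not at hlt
  have hC1 : 0 < C1 := by rw [e1]; positivity
  -- C2 (2 + C1) ≥ 3 (1 + C1)
  have f1 : 3 * (1 + C1) ≤ C2 * (2 + C1) := by
    have : C2 * (2 + C1) = (C2 + p2) * (1 + C1) := by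
      have : p2 * (1 + C1) = C2 := e3.symm
      nlinarith
    rw [this]
    nlinarith
  have f2 : 3 * (1 + C1) * (1 - p1) ≤ v * p1 * (2 + C1) := by
    have := mul_le_mul_of_nonneg_right f1 (by linarith : (0:ℝ) ≤ 1 - p1)
    calc 3 * (1 + C1) * (1 - p1) ≤ C2 * (2 + C1) * (1 - p1) := this
      _ = (C2 * (1 - p1)) * (2 + C1) := by ring
      _ = v * p1 * (2 + C1) := by rw [e2]
  rw [e1] at f2
  have f3 : 3 ≤ p1^2 * (1+v) * (3+v) - p1 * v := by nlinarith
  have f4 : p1 ≤ 7688/10000 := by
    rw [e1] at e5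
    by_contra hc
    push Not at hc
    nlinarith
  have f5 : p1^2 * (1+v) * (3+v) - p1 * v ≤ (7688/10000)^2 * (1+v) * (3+v) - (7688/10000) * v := by
    have g1 : 0 ≤ (7688/10000 - p1) := by linarith
    have g2 : 0 ≤ (7688/10000 + p1) * ((1+v) * (3+v)) - v := by
      have : v ≤ (7688/10000) * ((1+v) * (3+v)) := by nlinarith
      have : 0 ≤ p1 * ((1+v) * (3+v)) := by positivity
      nlinarith
    nlinarith [mul_nonneg g1 g2]
  nlinarith

theorem alpern_ge (lam : ℤ → ℝ) (v : ℝ≥0∞) (h : IsAlpern lam v) : ENNReal.ofReal (6244/10000) ≤ v := by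
  obtain ⟨hl, hP⟩ := h
  have h0 : ∀ k, 0 < lam k := fun k => (hl k).1
  have h1 : ∀ k, lam k < 1 := fun k => (hl k).2
  by_cases htop : v = ⊤
  · rw [htop]; exact le_top
  set w := v.toReal with hw
  have hw0 : 0 ≤ w := ENNReal.toReal_nonneg
  have hA0 : Aff lam 0 w 0 := by
    intro x hx0 hx1 hng
    have := hP x ⟨hx0.le, hx1.le⟩ hng
    have e : payoff (U lam 0) x = v := this
    rw [e]
    exact ⟨htop, by rw [hw]; ring⟩
  rw [ENNReal.ofReal_le_iff_le_toReal htop]
  rcases le_or_gt (1/2) (lam 0) with hl0 | hl0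
  · -- p0 ≤ 1/2 : go right
    have hA1 := Aff_right h0 h1 0 w 0 hA0
    have hA10 := Aff_left h0 h1 (0+1) _ _ hA1
    have hA2 := Aff_right h0 h1 (0+1) _ _ hA1
    have hA21 := Aff_left h0 h1 (0+1+1) _ _ hA2
    have hA3 := Aff_right h0 h1 (0+1+1) _ _ hA2
    have s1 : (0:ℤ) + 1 - 1 = 0 := by norm_num
    have s2 : (0:ℤ) + 1 + 1 - 1 = 0 + 1 := by norm_num
    rw [s1] at hA10
    rw [s2] at hA21
    have b1 : (0:ℝ) - 1 + 1 = 0 := by norm_num
    have b2 : (0:ℝ) - 1 - 1 + 1 = 0 - 1 := by norm_num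
    rw [b1] at hA10
    rw [b2] at hA21
    have u1 := Aff_unique lam 0 _ _ _ hA10 hA0
    have u2 := Aff_unique lam (0+1) _ _ _ hA21 hA1
    set l0 := lam 0 with hl0'
    set l1 := lam (0+1) with hl1'
    set l2 := lam (0+1+1) with hl2'
    set C1 := (w + 0 * (1 - l0)) / l0 with hC1
    set C2 := (C1 + (0 - 1) * (1 - l1)) / l1 with hC2
    set C3 := (C2 + (0 - 1 - 1) * (1 - l2)) / l2 with hC3
    have p0 : 0 < l0 := h0 _
    have p1 : 0 < l1 := h0 _
    have p1' : l1 < 1 := h1 _
    have p2 : 0 < l2 := h0 _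
    have p2' : l2 < 1 := h1 _
    have hC3ge : 3 ≤ C3 := by
      by_contra hc
      push Not at hc
      obtain ⟨x, hx1, hx2, hng⟩ := exists_NG lam (0+1+1+1) (max 0 (C3/3)) 1
        (max_lt one_pos (by linarith))
      have hx0 : 0 < x := lt_of_le_of_lt (le_max_left _ _) hx1
      have hx3 : C3/3 < x := lt_of_le_of_lt (le_max_right _ _) hx1
      have := (hA3 x hx0 hx2 hng).2
      have hnn : 0 ≤ (payoff (U lam (0+1+1+1)) x).toReal := ENNReal.toReal_nonneg
      rw [this] at hnn
      linarith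
    have q1 : C1 - (1 - l1) = w * (1 - l1) := by
      rw [div_eq_iff (by linarith)] at u1; exact u1
    have q2 : C2 - (1 - l2) = C1 * (1 - l2) := by
      rw [div_eq_iff (by linarith)] at u2; exact u2
    have q3 : C2 * l1 = C1 - (1 - l1) := by
      rw [hC2, div_mul_cancel₀ _ p1.ne']; ring
    have q4 : C3 * l2 = C2 - 2 * (1 - l2) := by
      rw [hC3, div_mul_cancel₀ _ p2.ne']; ring
    have q5 : C1 * l0 = w := by
      rw [hC1, div_mul_cancel₀ _ p0.ne']; ring
    apply alg w (1 - l1) (1 - l2) C1 C2 hw0 (by linarith) (by linarith) (by linarith) (by linarith)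
    · linarith
    · have : 1 - (1 - l1) = l1 := by ring
      rw [this, q3, q1]
    · linarith
    · nlinarith
    · have : 0 ≤ C1 := by rw [hC1]; apply div_nonneg _ p0.le; linarith
      nlinarith
  · -- p0 > 1/2 : go left
    have hA1 := Aff_left h0 h1 0 w 0 hA0
    have hA10 := Aff_right h0 h1 (0-1) _ _ hA1
    have hA2 := Aff_left h0 h1 (0-1) _ _ hA1
    have hA21 := Aff_right h0 h1 (0-1-1) _ _ hA2
    have hA3 := Aff_left h0 h1 (0-1-1) _ _ hA2
    have s1 : (0:ℤ) - 1 + 1 = 0 := by norm_num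
    have s2 : (0:ℤ) - 1 - 1 + 1 = 0 - 1 := by norm_num
    rw [s1] at hA10
    rw [s2] at hA21
    have b1 : (0:ℝ) + 1 - 1 = 0 := by norm_num
    have b2 : (0:ℝ) + 1 + 1 - 1 = 0 + 1 := by norm_num
    rw [b1] at hA10
    rw [b2] at hA21
    have u1 := Aff_unique lam 0 _ _ _ hA10 hA0
    have u2 := Aff_unique lam (0-1) _ _ _ hA21 hA1
    set l0 := lam 0 with hl0'
    set l1 := lam (0-1) with hl1'
    set l2 := lam (0-1-1) with hl2'
    have p0 : 0 < l0 := h0 _
    have p0' : l0 < 1 := h1 _
    have p1 : 0 < l1 := h0 _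
    have p1' : l1 < 1 := h1 _
    have p2 : 0 < l2 := h0 _
    have p2' : l2 < 1 := h1 _
    set C1 := (w - (1 - l0)) / (1 - l0) with hC1
    set C2 := (C1 - (1 - l1)) / (1 - l1) with hC2
    set C3 := (C2 - (1 - l2)) / (1 - l2) with hC3
    have hC3ge : 0 ≤ C3 := by
      by_contra hc
      push Not at hc
      obtain ⟨x, hx1, hx2, hng⟩ := exists_NG lam (0-1-1-1) 0 (min 1 (-C3/3))
        (lt_min one_pos (by linarith))
      have hx0 : x < 1 := lt_of_lt_of_le hx2 (min_le_left _ _)
      have hx3 : x < -C3/3 := lt_of_lt_of_le hx2 (min_le_right _ _)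
      have := (hA3 x hx1 hx0 hng).2
      have hnn : 0 ≤ (payoff (U lam (0-1-1-1)) x).toReal := ENNReal.toReal_nonneg
      rw [this] at hnn
      linarith
    have q1 : C1 + (1 - l1) = w * l1 := by
      rw [div_eq_iff (by linarith)] at u1; linarith
    have q2 : C2 + 2 * (1 - l2) = C1 * l2 := by
      rw [div_eq_iff (by linarith)] at u2; linarith
    have q3 : C2 * (1 - l1) = C1 - (1 - l1) := by
      rw [hC2, div_mul_cancel₀ _ (by linarith)]
    have q4 : C3 * (1 - l2) = C2 - (1 - l2) := by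
      rw [hC3, div_mul_cancel₀ _ (by linarith)]
    have q5 : C1 * (1 - l0) = w - (1 - l0) := by
      rw [hC1, div_mul_cancel₀ _ (by linarith)]
    apply alg w l1 l2 (C1 + 1) (C2 + 2) hw0 p1 p1' p2 p2'
    · linarith
    · linarith
    · linarith
    · nlinarith [mul_nonneg hC3ge (by linarith : (0:ℝ) ≤ 1 - l2)]
    · have h3 : (C1 + 1) * (1 - l0) = w := by linarith
      have h4 : 0 ≤ C1 + 1 := by
        by_contra hc
        push Not at hc
        nlinarith
      nlinarith

end H10Hl
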