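import Pool.Agent.H10.HlA

/-!
Existence of Alpern's family.
-/

set_option autoImplicit false

namespace H10Hl

open scoped ENNReal

noncomputable def Fstep (m : ℕ) (x y : ℝ) : ℝ := (1 + y) * x / ((m:ℝ) + 2 + x + y)

lemma Fstep_mem (m : ℕ) (x y : ℝ) (hx : x ∈ Set.Icc (0:ℝ) 1) (hy : y ∈ Set.Icc (0:ℝ) 1) :
    Fstep m x y ∈ Set.Icc (0:ℝ) 1 := by
  obtain ⟨hx0, hx1⟩ := hx
  obtain ⟨hy0, hy1⟩ := hy
  have hm : (0:ℝ) ≤ m := Nat.cast_nonneg m
  unfold Fstep
  constructor
  · positivity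
  · rw [div_le_one (by positivity)]
    nlinarith [mul_nonneg hx0 hy0]

lemma Fstep_mono (m : ℕ) (x y x' y' : ℝ) (hx : x ∈ Set.Icc (0:ℝ) 1) (hy : y ∈ Set.Icc (0:ℝ) 1)
    (hx' : x' ∈ Set.Icc (0:ℝ) 1) (hy' : y' ∈ Set.Icc (0:ℝ) 1) (hxx : x ≤ x') (hyy : y ≤ y') :
    Fstep m x y ≤ Fstep m x' y' := by
  obtain ⟨hx0, hx1⟩ := hx
  obtain ⟨hy0, hy1⟩ := hy
  obtain ⟨hx0', hx1'⟩ := hx'
  obtain ⟨hy0', hy1'⟩ := hy'
  have hm : (0:ℝ) ≤ m := Nat.cast_nonneg m
  unfold Fstep
  rw [div_le_div_iff₀ (by positivity) (by positivity)]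
  have e1 : 0 ≤ x' - x := by linarith
  have e2 : 0 ≤ y' - y := by linarith
  have key : (1 + y') * x' * ((m:ℝ) + 2 + x + y) - (1 + y) * x * ((m:ℝ) + 2 + x' + y')
      = ((m:ℝ) + 2) * (x' - x) + ((m:ℝ) + 3) * (y * (x' - x)) + ((m:ℝ) + 1) * (x' * (y' - y))
        + (x' - x) * (y' - y) + x * x' * (y' - y) + y * y' * (x' - x) := by ring
  have : 0 ≤ ((m:ℝ) + 2) * (x' - x) + ((m:ℝ) + 3) * (y * (x' - x)) + ((m:ℝ) + 1) * (x' * (y' - y))
        + (x' - x) * (y' - y) + x * x' * (y' - y) + y * y' * (x' - x) := by positivity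
  linarith

/-- the monotone system, as iterates from the top -/
noncomputable def it : ℕ → ℕ → ℝ
  | 0, _ => 1
  | (n+1), 0 => (1 + it n 1) / 2
  | (n+1), (m+1) => Fstep m (it n m) (it n (m+2))

lemma it_mem : ∀ n m, it n m ∈ Set.Icc (0:ℝ) 1 := by
  intro n
  induction n with
  | zero => intro m; simp [it]
  | succ n ih =>
    intro m
    cases m with
    | zero =>
      obtain ⟨h1, h2⟩ := ih 1
      simp only [it]
      constructor <;> linarith
    | succ m => exact Fstep_mem m _ _ (ih m) (ih (m+2))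

lemma it_anti : ∀ n m, it (n+1) m ≤ it n m := by
  intro n
  induction n with
  | zero => intro m; exact (it_mem 1 m).2
  | succ n ih =>
    intro m
    cases m with
    | zero =>
      simp only [it]
      have := ih 1
      simp only [it] at this
      linarith
    | succ m =>
      show Fstep m (it (n+1) m) (it (n+1) (m+2)) ≤ Fstep m (it n m) (it n (m+2))
      exact Fstep_mono m _ _ _ _ (it_mem _ _) (it_mem _ _) (it_mem _ _) (it_mem _ _) (ih m) (ih (m+2))

noncomputable def dl (m : ℕ) : ℝ := ⨅ n, it n m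

lemma dl_tendsto (m : ℕ) : Filter.Tendsto (fun n => it n m) Filter.atTop (nhds (dl m)) := by
  apply tendsto_atTop_ciInf
  · exact antitone_nat_of_succ_le (fun n => it_anti n m)
  · exact ⟨0, by rintro _ ⟨n, rfl⟩; exact (it_mem n m).1⟩

lemma dl_mem (m : ℕ) : dl m ∈ Set.Icc (0:ℝ) 1 :=
  isClosed_Icc.mem_of_tendsto (dl_tendsto m) (Filter.Eventually.of_forall fun n => it_mem n m)

lemma dl_zero : dl 0 = (1 + dl 1) / 2 := by
  have h1 := (dl_tendsto 0).comp (Filter.tendsto_add_atTop_nat 1)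
  have h2 : Filter.Tendsto (fun n => (1 + it n 1) / 2) Filter.atTop (nhds ((1 + dl 1) / 2)) :=
    ((dl_tendsto 1).const_add 1).div_const 2
  exact tendsto_nhds_unique h1 h2

lemma dl_succ (m : ℕ) : dl (m+1) = Fstep m (dl m) (dl (m+2)) := by
  have h1 := (dl_tendsto (m+1)).comp (Filter.tendsto_add_atTop_nat 1)
  have h2 : Filter.Tendsto (fun n => Fstep m (it n m) (it n (m+2))) Filter.atTop
      (nhds (Fstep m (dl m) (dl (m+2)))) := by
    unfold Fstep
    apply Filter.Tendsto.div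
    · exact ((dl_tendsto (m+2)).const_add 1).mul (dl_tendsto m)
    · exact (((dl_tendsto m).const_add ((m:ℝ)+2))).add (dl_tendsto (m+2))
    · have h3 := (dl_mem m).1
      have h4 := (dl_mem (m+2)).1
      positivity
  exact tendsto_nhds_unique h1 h2

lemma dl_pos : ∀ m, 0 < dl m := by
  intro m
  induction m with
  | zero => rw [dl_zero]; have := (dl_mem 1).1; linarith
  | succ m ih =>
    rw [dl_succ]
    unfold Fstep
    have := (dl_mem (m+2)).1
    positivity

lemma dl_rel (m : ℕ) : (1 + dl (m+2)) * dl m = dl (m+1) * ((m:ℝ) + 2 + dl m + dl (m+2)) := by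
  have h := dl_succ m
  unfold Fstep at h
  have h1 := dl_pos m
  have h2 := dl_pos (m+2)
  rw [eq_div_iff (by positivity)] at h
  linarith

lemma eta_dl_le_half (m : ℕ) : eta dl m ≤ 1/2 := by
  unfold eta
  have hp := dl_pos (m+1)
  rw [div_le_iff₀ (by linarith)]
  cases m with
  | zero => rw [dl_zero]; linarith
  | succ m =>
    have h := dl_rel m
    have h1 := dl_mem m
    have h2 := dl_pos (m+2)
    have h3 := dl_pos (m+1)
    have h4 := dl_pos m
    have hm : (0:ℝ) ≤ m := Nat.cast_nonneg m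
    have h5 : dl (m+1) * (2 + dl m) ≤ (1 + dl (m+2)) * dl m := by
      rw [h]
      nlinarith [mul_nonneg h3.le hm, mul_pos h3 h2]
    have h6 : (1 + dl (m+2)) * dl m ≤ (1/2) * (1 + dl (m+2)) * (2 + dl m) := by
      have : dl m ≤ 1 := h1.2
      nlinarith
    have h7 : dl (m+1) * (2 + dl m) ≤ ((1/2) * (1 + dl (m+2))) * (2 + dl m) := h5.trans h6
    have h8 := le_of_mul_le_mul_right h7 (by linarith)
    simpa [show m + 1 + 1 = m + 2 from rfl] using h8

lemma eta_dl_pos (m : ℕ) : 0 < eta dl m := by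
  unfold eta
  have h1 := dl_pos m
  have h2 := dl_pos (m+1)
  positivity

lemma dl_exact (m : ℕ) : (1 - eta dl (m+1)) * ((m:ℝ) + 1 + dl m) = (m:ℝ) + 1 + dl (m+1) := by
  have h := dl_rel m
  have h2 := dl_pos (m+2)
  have e : eta dl (m+1) * (1 + dl (m+2)) = dl (m+1) := eta_mul dl dl_pos (m+1)
  have h3 : (0:ℝ) < 1 + dl (m+2) := by linarith
  have : ((1 - eta dl (m+1)) * ((m:ℝ) + 1 + dl m)) * (1 + dl (m+2))
      = ((m:ℝ) + 1 + dl (m+1)) * (1 + dl (m+2)) := by
    have : ((1 - eta dl (m+1)) * ((m:ℝ) + 1 + dl m)) * (1 + dl (m+2))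
      = ((m:ℝ) + 1 + dl m) * (1 + dl (m+2)) - (eta dl (m+1) * (1 + dl (m+2))) * ((m:ℝ) + 1 + dl m) := by ring
    rw [this, e]
    linarith
  exact mul_right_cancel₀ h3.ne' this

lemma dl_sup : SuperSol (lamOf dl) (COf dl) := by
  apply superSol_of dl dl_pos
  · rw [dl_zero]; ring
  · intro m; have := eta_dl_le_half m; linarith
  · intro m; exact (dl_exact m).le

/-- exact equations -/
lemma eta0 : eta dl 0 = 1/2 := by
  unfold eta
  have := dl_pos 1
  rw [dl_zero, div_eq_div_iff (by simp; linarith) (by norm_num)]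
  ring

lemma exact_left (k : ℤ) : (1 - lamOf dl k) * (1 + COf dl (k-1)) = COf dl k := by
  rcases int_cases k with ⟨m, rfl⟩ | rfl | ⟨m, rfl⟩
  · have e1 : ((m:ℤ) + 1) = ((m+1 : ℕ) : ℤ) := by push_cast; ring
    have e2 : ((m+1 : ℕ) : ℤ) - 1 = (m:ℤ) := by push_cast; ring
    rw [e1, e2, lamOf_nat, COf_nat, COf_nat]
    have := dl_exact m
    push_cast
    linarith
  · have e1 : ((0:ℤ) - 1) = -((1:ℕ):ℤ) := by norm_num
    have e2 : (0:ℤ) = ((0:ℕ):ℤ) := rfl
    rw [e1, COf_neg, e2, lamOf_nat, COf_nat, eta0, dl_zero]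
    push_cast
    ring
  · have e1 : (-((m:ℤ) + 1)) = -((m+1 : ℕ) : ℤ) := by push_cast; ring
    have e2 : (-((m:ℤ) + 1)) - 1 = -((m+2 : ℕ) : ℤ) := by push_cast; ring
    rw [e2, e1, lamOf_neg _ _ (by omega), COf_neg, COf_neg]
    have := eta_mul dl dl_pos (m+1)
    have e3 : m + 2 = m + 1 + 1 := rfl
    rw [e3]
    linarith

lemma exact_right (k : ℤ) : (k:ℝ) * (1 - lamOf dl k) + lamOf dl k * COf dl (k+1) = COf dl k := by
  rcases int_cases k with ⟨m, rfl⟩ | rfl | ⟨m, rfl⟩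
  · have e1 : ((m:ℤ) + 1) = ((m+1 : ℕ) : ℤ) := by push_cast; ring
    have e2 : ((m+1 : ℕ) : ℤ) + 1 = ((m+2:ℕ):ℤ) := by push_cast; ring
    rw [e1, e2, lamOf_nat, COf_nat, COf_nat]
    have := eta_mul dl dl_pos (m+1)
    have e3 : m + 2 = m + 1 + 1 := rfl
    rw [e3]
    push_cast
    linear_combination this
  · have e1 : ((0:ℤ) + 1) = ((1:ℕ):ℤ) := by norm_num
    have e2 : (0:ℤ) = ((0:ℕ):ℤ) := rfl
    rw [e1, COf_nat, e2, lamOf_nat, COf_nat, eta0, dl_zero]
    push_cast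
    ring
  · have e1 : (-((m:ℤ) + 1)) = -((m+1 : ℕ) : ℤ) := by push_cast; ring
    have e2 : (-((m:ℤ) + 1)) + 1 = -((m : ℕ) : ℤ) := by ring
    rw [e2, e1, lamOf_neg _ _ (by omega), COf_neg, COf_neg]
    have := dl_exact m
    push_cast
    linarith

/-- one step of the play -/
noncomputable def step (h : ℝ) (s : ℤ × ℝ × ℝ) : ℤ × ℝ × ℝ :=
  let g := lamOf dl s.1 * s.2.1 + (1 - lamOf dl s.1) * s.2.2
  if g < h then (s.1 + 1, g, s.2.2) else (s.1 - 1, s.2.1, g)

noncomputable def Rp (h : ℝ) (s : ℤ × ℝ × ℝ) : ℝ := (s.2.2 - s.2.1) * COf dl s.1 - s.1 * (h - s.2.1)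

def NGs (h : ℝ) (s : ℤ × ℝ × ℝ) : Prop := ∀ l, stateGuess (lamOf dl) l s.1 s.2.1 s.2.2 ≠ h

lemma NGs_step (h : ℝ) (s : ℤ × ℝ × ℝ) (hs : NGs h s) : NGs h (step h s) := by
  intro l
  unfold step
  simp only
  split_ifs with hg
  · exact hs (true :: l)
  · exact hs (false :: l)

lemma step_mem (h : ℝ) (s : ℤ × ℝ × ℝ) (h1 : s.2.1 ≤ h) (h2 : h ≤ s.2.2) :
    (step h s).2.1 ≤ h ∧ h ≤ (step h s).2.2 := by
  unfold step
  simp only
  split_ifs with hg
  · exact ⟨hg.le, h2⟩
  · exact ⟨h1, not_lt.mp hg⟩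

lemma Rp_step (h : ℝ) (s : ℤ × ℝ × ℝ) :
    Rp h s = |lamOf dl s.1 * s.2.1 + (1 - lamOf dl s.1) * s.2.2 - h| + Rp h (step h s) := by
  obtain ⟨k, a, b⟩ := s
  unfold step Rp
  simp only
  have hL := exact_left k
  have hR := exact_right k
  split_ifs with hg
  · simp only
    rw [abs_of_neg (by linarith)]
    push_cast
    linear_combination (-(b - a)) * hR
  · simp only
    rw [abs_of_nonneg (by linarith)]
    push_cast
    linear_combination (-(b - a)) * hL

lemma Rp_nonneg (h : ℝ) (s : ℤ × ℝ × ℝ) (h1 : s.2.1 ≤ h) (h2 : h ≤ s.2.2) : 0 ≤ Rp h s :=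
  pot_nonneg dl_sup s.1 s.2.1 s.2.2 h h1 h2

lemma cost_eq (h : ℝ) : ∀ (n : ℕ) (s : ℤ × ℝ × ℝ), NGs h s → s.2.1 ≤ h → h ≤ s.2.2 →
    cost h n (fun l => stateGuess (lamOf dl) l s.1 s.2.1 s.2.2) + ENNReal.ofReal (Rp h ((step h)^[n] s))
      = ENNReal.ofReal (Rp h s) := by
  intro n
  induction n with
  | zero => intro s _ _ _; simp [cost]
  | succ n ih =>
    intro s hs h1 h2
    have hm := step_mem h s h1 h2
    have ih' := ih (step h s) (NGs_step h s hs) hm.1 hm.2
    rw [Function.iterate_succ_apply]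
    have hR := Rp_nonneg h _ hm.1 hm.2
    rw [Rp_step h s, ENNReal.ofReal_add (abs_nonneg _) hR, ← ih', ← add_assoc]
    congr 1
    rw [cost]
    beta_reduce
    have hne : ¬ (stateGuess (lamOf dl) [] s.1 s.2.1 s.2.2 = h) := hs []
    rw [if_neg hne]
    congr 1
    by_cases hg : stateGuess (lamOf dl) [] s.1 s.2.1 s.2.2 < h
    · simp only [hg, decide_true]
      have hg' : lamOf dl s.1 * s.2.1 + (1 - lamOf dl s.1) * s.2.2 < h := hg
      have : step h s = (s.1 + 1, lamOf dl s.1 * s.2.1 + (1 - lamOf dl s.1) * s.2.2, s.2.2) := by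
        unfold step; simp only [if_pos hg']
      rw [this]
      rfl
    · simp only [hg, decide_false]
      have hg' : ¬ (lamOf dl s.1 * s.2.1 + (1 - lamOf dl s.1) * s.2.2 < h) := hg
      have : step h s = (s.1 - 1, s.2.1, lamOf dl s.1 * s.2.1 + (1 - lamOf dl s.1) * s.2.2) := by
        unfold step; simp only [if_neg hg']
      rw [this]
      rfl

/-- width -/
noncomputable def wd (s : ℤ × ℝ × ℝ) : ℝ := s.2.2 - s.2.1

/-- good step: right in a state at least 0, or left in a state at most 0 -/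
def Good (h : ℝ) (s : ℤ × ℝ × ℝ) : Prop :=
  (0 ≤ s.1 ∧ lamOf dl s.1 * s.2.1 + (1 - lamOf dl s.1) * s.2.2 < h) ∨
  (s.1 ≤ 0 ∧ ¬ (lamOf dl s.1 * s.2.1 + (1 - lamOf dl s.1) * s.2.2 < h))

lemma k_eta_le (m : ℕ) : (m:ℝ) * eta dl m ≤ 1 := by
  cases m with
  | zero => simp
  | succ m =>
    have h := dl_exact m
    have h1 := dl_mem m
    have h2 := dl_pos (m+1)
    have h3 := eta_dl_pos (m+1)
    have h4 := h1.2
    have h5 := h1.1
    push_cast
    nlinarith [mul_nonneg h3.le h5]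

lemma wd_step_le (h : ℝ) (s : ℤ × ℝ × ℝ) (hw : 0 ≤ wd s) : wd (step h s) ≤ wd s := by
  obtain ⟨k, a, b⟩ := s
  have h0 := dl_sup.lam0 k
  have h1 := dl_sup.lam1 k
  unfold wd at hw
  simp only at hw
  unfold step wd
  simp only
  split_ifs <;> simp only <;> nlinarith

lemma good_step (h : ℝ) (s : ℤ × ℝ × ℝ) (h1 : s.2.1 ≤ h) (h2 : h ≤ s.2.2) (hg : Good h s) :
    wd (step h s) ≤ wd s / 2 ∧ Rp h (step h s) ≤ 2 * wd s := by
  have hm := step_mem h s h1 h2
  have hw : 0 ≤ wd s := by unfold wd; linarith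
  obtain ⟨k, a, b⟩ := s
  simp only at h1 h2
  rcases hg with ⟨hk, hlt⟩ | ⟨hk, hlt⟩
  · simp only at hk hlt
    obtain ⟨m, rfl⟩ := Int.eq_ofNat_of_zero_le hk
    have hst : step h ((m:ℤ), a, b) = ((m:ℤ) + 1, lamOf dl m * a + (1 - lamOf dl m) * b, b) := by
      unfold step; simp only [if_pos hlt]
    rw [hst] at hm ⊢
    simp only at hm
    have hk1 : (m:ℤ) + 1 = ((m+1:ℕ):ℤ) := by push_cast; ring
    unfold wd Rp at *
    simp only at hw ⊢
    rw [hk1, COf_nat, lamOf_nat] at *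
    have he := eta_dl_le_half m
    have hep := eta_dl_pos m
    have hke := k_eta_le m
    have hmul := eta_mul dl dl_pos m
    have hd1 := (dl_mem m).2
    have hd2 := dl_pos (m+1)
    have e1 : b - (eta dl m * a + (1 - eta dl m) * b) = eta dl m * (b - a) := by ring
    rw [e1]
    refine ⟨by nlinarith, ?_⟩
    have e2 : eta dl m * (b - a) * (((m+1:ℕ):ℝ) + dl (m+1)) = ((m:ℝ) * eta dl m + eta dl m * (1 + dl (m+1))) * (b - a) := by
      push_cast; ring
    rw [e2, hmul]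
    have e3 : 0 ≤ (((m+1:ℕ):ℤ):ℝ) * (h - (eta dl m * a + (1 - eta dl m) * b)) := by
      apply mul_nonneg
      · positivity
      · linarith [hm.1]
    have e4 : ((m:ℝ) * eta dl m + dl m) * (b - a) ≤ 2 * (b - a) := by
      apply mul_le_mul_of_nonneg_right _ hw
      linarith
    linarith
  · simp only at hk hlt
    obtain ⟨m, hm'⟩ := Int.eq_ofNat_of_zero_le (by omega : 0 ≤ -k)
    have hkm : k = -(m:ℤ) := by omega
    subst hkm
    have hst : step h (-(m:ℤ), a, b) = (-(m:ℤ) - 1, a, lamOf dl (-(m:ℤ)) * a + (1 - lamOf dl (-(m:ℤ))) * b) := by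
      unfold step; simp only [if_neg hlt]
    have hl : 1 - lamOf dl (-(m:ℤ)) = eta dl m := by
      rcases Nat.eq_zero_or_pos m with rfl | hpos
      · have : (-((0:ℕ):ℤ)) = ((0:ℕ):ℤ) := by norm_num
        rw [this, lamOf_nat, eta0]; norm_num
      · rw [lamOf_neg _ _ hpos]; ring
    have hl' : lamOf dl (-(m:ℤ)) = 1 - eta dl m := by linarith
    rw [hst] at hm ⊢
    simp only at hm
    have hk1 : -(m:ℤ) - 1 = -((m+1:ℕ):ℤ) := by push_cast; ring
    unfold wd Rp at *
    simp only at hw ⊢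
    rw [hk1, COf_neg, hl']
    rw [hl'] at hm
    have he := eta_dl_le_half m
    have hep := eta_dl_pos m
    have hke := k_eta_le m
    have hmul := eta_mul dl dl_pos m
    have hd1 := (dl_mem m).2
    have hd2 := dl_pos (m+1)
    have e1 : (1 - eta dl m) * a + (1 - (1 - eta dl m)) * b - a = eta dl m * (b - a) := by ring
    have hh : h - a ≤ eta dl m * (b - a) := by rw [← e1]; linarith [hm.2]
    rw [e1]
    refine ⟨by nlinarith, ?_⟩
    push_cast
    have e5 : ((m:ℝ) + 1) * (h - a) ≤ ((m:ℝ) + 1) * (eta dl m * (b - a)) := by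
      apply mul_le_mul_of_nonneg_left hh; positivity
    have e2 : eta dl m * (b - a) * dl (m+1) + ((m:ℝ) + 1) * (eta dl m * (b - a))
        = ((m:ℝ) * eta dl m + eta dl m * (1 + dl (m+1))) * (b - a) := by ring
    have e4 : ((m:ℝ) * eta dl m + dl m) * (b - a) ≤ 2 * (b - a) := by
      apply mul_le_mul_of_nonneg_right _ hw
      linarith
    rw [hmul] at e2
    linarith

lemma good_exists (h : ℝ) (s0 : ℤ × ℝ × ℝ) : ∀ (q : ℕ) (n : ℕ),
    ((step h)^[n] s0).1.natAbs = q → ∃ n', n ≤ n' ∧ Good h ((step h)^[n'] s0) := by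
  intro q
  induction q with
  | zero =>
    intro n hn
    refine ⟨n, le_rfl, ?_⟩
    have hk : ((step h)^[n] s0).1 = 0 := by omega
    by_cases hlt : lamOf dl ((step h)^[n] s0).1 * ((step h)^[n] s0).2.1
        + (1 - lamOf dl ((step h)^[n] s0).1) * ((step h)^[n] s0).2.2 < h
    · exact Or.inl ⟨by omega, hlt⟩
    · exact Or.inr ⟨by omega, hlt⟩
  | succ q ih =>
    intro n hn
    by_cases hG : Good h ((step h)^[n] s0)
    · exact ⟨n, le_rfl, hG⟩
    · have hs : ((step h)^[n+1] s0) = step h ((step h)^[n] s0) := Function.iterate_succ_apply' _ _ _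
      have hk : ((step h)^[n+1] s0).1.natAbs = q := by
        rw [hs]
        set s := (step h)^[n] s0
        unfold Good at hG
        push Not at hG
        obtain ⟨hG1, hG2⟩ := hG
        unfold step
        simp only
        split_ifs with hlt
        · simp only
          have : ¬ (0 ≤ s.1) := fun hc => absurd hlt (not_lt.mpr (hG1 hc))
          omega
        · simp only
          have : ¬ (s.1 ≤ 0) := fun hc => hlt (hG2 hc)
          omega
      obtain ⟨n', hn1, hn2⟩ := ih (n+1) hk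
      exact ⟨n', by omega, hn2⟩

theorem exists_alpern : IsAlpern (lamOf dl) (ENNReal.ofReal (dl 0)) := by
  refine ⟨?_, ?_⟩
  · intro k
    unfold lamOf
    have h1 := eta_dl_pos k.natAbs
    have h2 := eta_dl_le_half k.natAbs
    split_ifs
    · exact ⟨h1, by linarith⟩
    · exact ⟨by linarith, by linarith⟩
  · intro h hh hng
    set s0 : ℤ × ℝ × ℝ := (0, 0, 1) with hs0
    have hNG : NGs h s0 := hng
    have hR0 : Rp h s0 = dl 0 := by
      have : COf dl 0 = dl 0 := by simp [COf]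
      simp [Rp, hs0, this]
    have hmem : ∀ n, ((step h)^[n] s0).2.1 ≤ h ∧ h ≤ ((step h)^[n] s0).2.2 := by
      intro n
      induction n with
      | zero => exact ⟨hh.1, hh.2⟩
      | succ n ih =>
        rw [Function.iterate_succ_apply']
        exact step_mem h _ ih.1 ih.2
    have hwnn : ∀ n, 0 ≤ wd ((step h)^[n] s0) := by
      intro n; unfold wd; have := hmem n; linarith
    have hwmono : ∀ n, wd ((step h)^[n+1] s0) ≤ wd ((step h)^[n] s0) := by
      intro n
      rw [Function.iterate_succ_apply']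
      exact wd_step_le h _ (hwnn n)
    have hanti : Antitone (fun n => wd ((step h)^[n] s0)) := antitone_nat_of_succ_le hwmono
    have hsmall : ∀ N : ℕ, ∃ n, wd ((step h)^[n] s0) ≤ (1/2)^N := by
      intro N
      induction N with
      | zero => exact ⟨0, by simp [wd, hs0]⟩
      | succ N ih =>
        obtain ⟨n, hn⟩ := ih
        obtain ⟨n', hn1, hn2⟩ := good_exists h s0 _ n rfl
        refine ⟨n'+1, ?_⟩
        rw [Function.iterate_succ_apply']
        have h3 := (good_step h _ (hmem n').1 (hmem n').2 hn2).1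
        have h4 : wd ((step h)^[n'] s0) ≤ wd ((step h)^[n] s0) := hanti hn1
        rw [pow_succ]
        linarith
    have hRsmall : ∀ ε : ℝ, 0 < ε → ∃ n, Rp h ((step h)^[n] s0) ≤ ε := by
      intro ε hε
      obtain ⟨N, hN⟩ := exists_pow_lt_of_lt_one (by positivity : (0:ℝ) < ε/2) (by norm_num : (1/2:ℝ) < 1)
      obtain ⟨n, hn⟩ := hsmall N
      obtain ⟨n', hn1, hn2⟩ := good_exists h s0 _ n rfl
      refine ⟨n'+1, ?_⟩
      rw [Function.iterate_succ_apply']
      have h3 := (good_step h _ (hmem n').1 (hmem n').2 hn2).2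
      have h4 : wd ((step h)^[n'] s0) ≤ wd ((step h)^[n] s0) := hanti hn1
      linarith
    apply le_antisymm
    · have h1 := payoff_le dl_sup h 0 0 1 hh.1 hh.2
      have : ((1:ℝ) - 0) * COf dl 0 - ((0:ℤ):ℝ) * (h - 0) = dl 0 := by
        have : COf dl 0 = dl 0 := by simp [COf]
        rw [this]; push_cast; ring
      rw [this] at h1
      exact h1
    · apply ENNReal.le_of_forall_pos_le_add
      intro ε hε _
      obtain ⟨n, hn⟩ := hRsmall ε (by exact_mod_cast hε)
      have h1 := cost_eq h n s0 hNG hh.1 hh.2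
      rw [hR0] at h1
      rw [← h1]
      apply add_le_add
      · exact le_iSup (fun n => cost h n (alpern (lamOf dl))) n
      · rw [← ENNReal.ofReal_coe_nnreal]
        exact ENNReal.ofReal_le_ofReal hn

end H10Hl
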