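import Mathlib

/-!
Definitions for MP_a09a4b_an: the continuous high-low game.
-/

set_option autoImplicit false

namespace H10Hl

open scoped ENNReal

/-- A pure searcher strategy: the guess made after each finite list of answers (oldest answer
first; `true` means that the guess was too low, `false` that it was too high). -/
structure PureStrategy where
  guess : List Bool → ℝ
  mem : ∀ l, guess l ∈ Set.Icc (0:ℝ) 1

/-- Total cost `∑ |g_i - h|` of the first `n` guesses (fewer if some guess hits `h`) when the
guesses are made by `s` and the hidden number is `h`. After a guess different from `h` the rest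
of the play is governed by `s` with the answer to this guess put in front. -/
noncomputable def cost (h : ℝ) : ℕ → (List Bool → ℝ) → ℝ≥0∞
  | 0, _ => 0
  | n + 1, s => ENNReal.ofReal |s [] - h| +
      if s [] = h then 0 else cost h n (fun l => s (decide (s [] < h) :: l))

/-- The payoff `P(h)`: the sum over all guesses made. -/
noncomputable def payoff (s : List Bool → ℝ) (h : ℝ) : ℝ≥0∞ := ⨆ n, cost h n s

/-- A (finitely supported) mixed searcher strategy. -/
structure MixedStrategy where
  m : ℕ
  w : Fin m → ℝ
  strat : Fin m → PureStrategy
  nonneg : ∀ i, 0 ≤ w i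
  sum_one : ∑ i, w i = 1

/-- Expected payoff of a mixed strategy against the hidden number `h`. -/
noncomputable def MixedStrategy.expected (σ : MixedStrategy) (h : ℝ) : ℝ≥0∞ :=
  ∑ i, ENNReal.ofReal (σ.w i) * payoff (σ.strat i).guess h

/-- The guaranteed cost of a mixed strategy: the supremum over all `h ∈ [0,1]`. -/
noncomputable def MixedStrategy.guaranteed (σ : MixedStrategy) : ℝ≥0∞ :=
  ⨆ h : Set.Icc (0:ℝ) 1, σ.expected h

/-- The guessing rule with parameters `lam`: in state `k` with current interval `[a,b]` guess
`lam k * a + (1 - lam k) * b`; the state goes up by one after a guess that was too low and down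
by one after a guess that was too high. -/
noncomputable def stateGuess (lam : ℤ → ℝ) : List Bool → ℤ → ℝ → ℝ → ℝ
  | [], k, a, b => lam k * a + (1 - lam k) * b
  | true :: l, k, a, b => stateGuess lam l (k + 1) (lam k * a + (1 - lam k) * b) b
  | false :: l, k, a, b => stateGuess lam l (k - 1) a (lam k * a + (1 - lam k) * b)

/-- The strategy on `[0,1]` starting in state `0`. -/
noncomputable def alpern (lam : ℤ → ℝ) : List Bool → ℝ := fun l => stateGuess lam l 0 0 1

/-- `lam` is Alpern's family of parameters and `v` is the common value of the payoff: the
strategy yields the payoff `v` for every `h ∈ [0,1]` that is not one of its guesses. -/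
def IsAlpern (lam : ℤ → ℝ) (v : ℝ≥0∞) : Prop :=
  (∀ k, 0 < lam k ∧ lam k < 1) ∧
    ∀ h ∈ Set.Icc (0:ℝ) 1, (∀ l, alpern lam l ≠ h) → payoff (alpern lam) h = v

end H10Hl
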