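import Pool.Agent.H10.IdioDefs

set_option autoImplicit false

open Set

namespace Pool.Agent.H10.Idio

@[simp] theorem pt_zero (a b : ℝ) : (pt a b) 0 = a := by simp [pt]
@[simp] theorem pt_one (a b : ℝ) : (pt a b) 1 = b := by simp [pt]

theorem E_ext {p q : E} (h0 : p 0 = q 0) (h1 : p 1 = q 1) : p = q := by
  ext i
  fin_cases i
  · exact h0
  · exact h1

theorem pt_eta (p : E) : pt (p 0) (p 1) = p := E_ext (by simp) (by simp)

theorem mem_sq (p q : E) : q ∈ sq p ↔ |q 0 - p 0| ≤ 1 / 2 ∧ |q 1 - p 1| ≤ 1 / 2 := Iff.rfl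

theorem cont0 : Continuous (fun q : E => q 0) := by fun_prop
theorem cont1 : Continuous (fun q : E => q 1) := by fun_prop

theorem sq_closed (p : E) : IsClosed (sq p) := by
  have h0 : IsClosed {q : E | |q 0 - p 0| ≤ 1 / 2} :=
    isClosed_le (by have := cont0; fun_prop) continuous_const
  have h1 : IsClosed {q : E | |q 1 - p 1| ≤ 1 / 2} :=
    isClosed_le (by have := cont1; fun_prop) continuous_const
  exact h0.inter h1

theorem sq_convex (p : E) : Convex ℝ (sq p) := by
  intro a ha b hb s t hs ht hst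
  rw [mem_sq] at *
  simp only [PiLp.add_apply, PiLp.smul_apply, smul_eq_mul]
  rw [abs_le, abs_le] at *
  have : t = 1 - s := by linarith
  subst this
  refine ⟨⟨?_, ?_⟩, ⟨?_, ?_⟩⟩ <;> nlinarith [ha.1.1, ha.1.2, ha.2.1, ha.2.2, hb.1.1, hb.1.2, hb.2.1, hb.2.2]

theorem sq_precon (p : E) : IsPreconnected (sq p) := (sq_convex p).isPreconnected

theorem self_mem_sq (p : E) : p ∈ sq p := by simp [mem_sq]

/-- the open square is in the interior -/
theorem mem_interior_of (s : Set E) (p q : E) (hs : sq p ⊆ s) (h0 : |q 0 - p 0| < 1 / 2)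
    (h1 : |q 1 - p 1| < 1 / 2) : q ∈ interior s := by
  rw [mem_interior]
  refine ⟨{q | |q 0 - p 0| < 1 / 2} ∩ {q | |q 1 - p 1| < 1 / 2}, ?_, ?_, ⟨h0, h1⟩⟩
  · rintro z ⟨hz0, hz1⟩
    exact hs ⟨hz0.le, hz1.le⟩
  · exact (isOpen_lt (by have := cont0; fun_prop) continuous_const).inter
      (isOpen_lt (by have := cont1; fun_prop) continuous_const)

theorem center_interior (s : Set E) (p : E) (hs : sq p ⊆ s) : p ∈ interior s :=
  mem_interior_of s p p hs (by simp) (by simp)

theorem sq_disj (p q : E) (h : 1 < |p 0 - q 0| ∨ 1 < |p 1 - q 1|) : Disjoint (sq p) (sq q) := by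
  rw [Set.disjoint_left]
  rintro z ⟨h1, h2⟩ ⟨h3, h4⟩
  rw [abs_le] at h1 h2 h3 h4
  rcases h with h | h
  · rcases lt_abs.1 h with h | h <;> linarith
  · rcases lt_abs.1 h with h | h <;> linarith

theorem dist_sq (p q : E) : dist p q ^ 2 = (p 0 - q 0) ^ 2 + (p 1 - q 1) ^ 2 := by
  rw [EuclideanSpace.dist_eq, Real.sq_sqrt (by positivity)]
  simp [Fin.sum_univ_two, Real.dist_eq, sq_abs]

/-- isometries mapping squares to squares map centres to centres -/
theorem center_map (g : E ≃ᵢ E) (a b : E) (h : g '' sq a = sq b) : g a = b := by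
  have key : ∀ q ∈ sq b, dist (g a) q ^ 2 ≤ 1 / 2 := by
    intro q hq
    rw [← h] at hq
    obtain ⟨r, hr, rfl⟩ := hq
    rw [g.dist_eq, dist_sq]
    obtain ⟨h1, h2⟩ := hr
    have e1 : (a 0 - r 0) ^ 2 ≤ 1 / 4 := by
      rw [← sq_abs, abs_sub_comm]
      nlinarith [abs_nonneg (r 0 - a 0)]
    have e2 : (a 1 - r 1) ^ 2 ≤ 1 / 4 := by
      rw [← sq_abs, abs_sub_comm]
      nlinarith [abs_nonneg (r 1 - a 1)]
    linarith
  have k1 := key (pt (b 0 + 1 / 2) (b 1 + 1 / 2)) (by simp [mem_sq, abs_of_pos])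
  have k2 := key (pt (b 0 - 1 / 2) (b 1 - 1 / 2)) (by simp [mem_sq, abs_of_pos])
  rw [dist_sq] at k1 k2
  simp only [pt_zero, pt_one] at k1 k2
  apply E_ext
  · nlinarith [sq_nonneg ((g a) 0 - b 0), sq_nonneg ((g a) 1 - b 1)]
  · nlinarith [sq_nonneg ((g a) 0 - b 0), sq_nonneg ((g a) 1 - b 1)]

theorem component_eq (A B : Set E) (hA : IsClosed A) (hB : IsClosed B) (hAp : IsPreconnected A)
    (hd : Disjoint A B) (p : E) (hp : p ∈ A) : connectedComponentIn (A ∪ B) p = A := by
  apply subset_antisymm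
  · have h1 : IsPreconnected (connectedComponentIn (A ∪ B) p) := isPreconnected_connectedComponentIn
    intro z hz
    by_contra hzA
    have hzB : z ∈ B := by
      rcases connectedComponentIn_subset _ _ hz with h | h
      · exact absurd h hzA
      · exact h
    rw [isPreconnected_closed_iff] at h1
    obtain ⟨w, -, hw⟩ := h1 A B hA hB (connectedComponentIn_subset _ _)
      ⟨p, mem_connectedComponentIn (Or.inl hp), hp⟩ ⟨z, hz, hzB⟩
    exact Set.disjoint_left.1 hd hw.1 hw.2
  · exact hAp.subset_connectedComponentIn hp subset_union_left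

theorem comp_left (a b : E) (hd : Disjoint (sq a) (sq b)) (p : E) (hp : p ∈ sq a) :
    connectedComponentIn (sq a ∪ sq b) p = sq a :=
  component_eq _ _ (sq_closed a) (sq_closed b) (sq_precon a) hd p hp

theorem comp_right (a b : E) (hd : Disjoint (sq a) (sq b)) (p : E) (hp : p ∈ sq b) :
    connectedComponentIn (sq a ∪ sq b) p = sq b := by
  rw [union_comm]
  exact component_eq _ _ (sq_closed b) (sq_closed a) (sq_precon b) hd.symm p hp

theorem image_comp (g : E ≃ᵢ E) (t : Set E) (p : E) (hp : p ∈ t) :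
    g '' connectedComponentIn t p = connectedComponentIn (g '' t) (g p) :=
  Homeomorph.image_connectedComponentIn g.toHomeomorph hp

/-- an isometry mapping a two square tile to a two square tile permutes the centres -/
theorem center_cases (g : E ≃ᵢ E) (a b a' b' : E) (hd : Disjoint (sq a) (sq b))
    (hd' : Disjoint (sq a') (sq b')) (h : g '' (sq a ∪ sq b) = sq a' ∪ sq b') :
    (g a = a' ∧ g b = b') ∨ (g a = b' ∧ g b = a') := by
  have h1 : g '' sq a = connectedComponentIn (sq a' ∪ sq b') (g a) := by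
    rw [← h, ← image_comp g _ a (Or.inl (self_mem_sq a)), comp_left a b hd a (self_mem_sq a)]
  have h2 : g '' sq b = connectedComponentIn (sq a' ∪ sq b') (g b) := by
    rw [← h, ← image_comp g _ b (Or.inr (self_mem_sq b)), comp_right a b hd b (self_mem_sq b)]
  have m1 : g a ∈ sq a' ∪ sq b' := by rw [← h]; exact ⟨a, Or.inl (self_mem_sq a), rfl⟩
  have m2 : g b ∈ sq a' ∪ sq b' := by rw [← h]; exact ⟨b, Or.inr (self_mem_sq b), rfl⟩
  have hne : a ≠ b := by
    rintro rfl
    exact Set.disjoint_left.1 hd (self_mem_sq a) (self_mem_sq a)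
  rcases m1 with m1 | m1
  · rw [comp_left a' b' hd' _ m1] at h1
    have c1 := center_map g a a' h1
    rcases m2 with m2 | m2
    · rw [comp_left a' b' hd' _ m2] at h2
      have c2 := center_map g b a' h2
      exact absurd (g.injective (c1.trans c2.symm)) hne
    · rw [comp_right a' b' hd' _ m2] at h2
      exact Or.inl ⟨c1, center_map g b b' h2⟩
  · rw [comp_right a' b' hd' _ m1] at h1
    have c1 := center_map g a b' h1
    rcases m2 with m2 | m2
    · rw [comp_left a' b' hd' _ m2] at h2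
      exact Or.inr ⟨c1, center_map g b a' h2⟩
    · rw [comp_right a' b' hd' _ m2] at h2
      have c2 := center_map g b b' h2
      exact absurd (g.injective (c1.trans c2.symm)) hne

end Pool.Agent.H10.Idio
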