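import Mathlib

/-! Definitions for MP_15d263_co: idiomeric tilings of the plane by two-square tiles. -/

set_option autoImplicit false

namespace Pool.Agent.H10.Idio

/-- the Euclidean plane -/
abbrev E := EuclideanSpace ℝ (Fin 2)

/-- the point with coordinates `(a, b)` -/
noncomputable def pt (a b : ℝ) : E := !₂[a, b]

/-- the closed unit square with sides parallel to the axes centred at `p` -/
def sq (p : E) : Set E := {q | |q 0 - p 0| ≤ 1 / 2 ∧ |q 1 - p 1| ≤ 1 / 2}

/-- the prototile `T(x,y)`: the union of the closed unit squares centred at `(0,0)` and `(x,y)` -/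
noncomputable def T (x y : ℤ) : Set E := sq (pt 0 0) ∪ sq (pt x y)

/-- a tiling: a countable family of closed sets covering the plane with pairwise disjoint
interiors -/
structure IsTiling (𝒯 : Set (Set E)) : Prop where
  countable : 𝒯.Countable
  closed : ∀ t ∈ 𝒯, IsClosed t
  cover : ⋃₀ 𝒯 = Set.univ
  disj : ∀ t ∈ 𝒯, ∀ t' ∈ 𝒯, t ≠ t' → Disjoint (interior t) (interior t')

/-- every tile is congruent to the prototile `P` (reflections allowed) -/
def IsMonohedral (P : Set E) (𝒯 : Set (Set E)) : Prop := ∀ t ∈ 𝒯, ∃ f : E ≃ᵢ E, f '' P = t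

/-- `g` is a symmetry of `𝒯`: it maps the family `𝒯` onto itself -/
def IsSymm (𝒯 : Set (Set E)) (g : E ≃ᵢ E) : Prop := (fun t => g '' t) '' 𝒯 = 𝒯

/-- the symmetry group acts transitively on the tiles -/
def IsIsohedral (𝒯 : Set (Set E)) : Prop :=
  ∀ t ∈ 𝒯, ∀ t' ∈ 𝒯, ∃ g : E ≃ᵢ E, IsSymm 𝒯 g ∧ g '' t = t'

/-- for every tile `t`, the induced tile group (symmetries of `𝒯` mapping `t` onto itself) acts
transitively on the connected components of `t` -/
def TransOnComponents (𝒯 : Set (Set E)) : Prop :=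
  ∀ t ∈ 𝒯, ∀ p ∈ t, ∀ q ∈ t, ∃ g : E ≃ᵢ E, IsSymm 𝒯 g ∧ g '' t = t ∧
    g '' connectedComponentIn t p = connectedComponentIn t q

/-- `𝒯` is an idiomeric tiling with prototile `P` -/
structure IsIdiomeric (P : Set E) (𝒯 : Set (Set E)) : Prop where
  tiling : IsTiling 𝒯
  monohedral : IsMonohedral P 𝒯
  isohedral : IsIsohedral 𝒯
  trans : TransOnComponents 𝒯

/-- the tiles lie on the regular tiling by unit squares centred at the points of `ℤ²`: every
connected component of every tile is one of these unit squares -/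
def OnGrid (𝒯 : Set (Set E)) : Prop :=
  ∀ t ∈ 𝒯, ∀ p ∈ t, ∃ a b : ℤ, connectedComponentIn t p = sq (pt a b)

end Pool.Agent.H10.Idio
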