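import Pool.Agent.H10.Idio

set_option autoImplicit false

open Set

namespace Pool.Agent.H10.Idio

theorem image_add (w p : E) : (IsometryEquiv.addRight w) '' sq p = sq (p + w) := by
  ext q
  simp only [mem_image, mem_sq]
  constructor
  · rintro ⟨r, ⟨h1, h2⟩, rfl⟩
    simp only [IsometryEquiv.addRight_apply, PiLp.add_apply]
    constructor
    · convert h1 using 2; ring
    · convert h2 using 2; ring
  · rintro ⟨h1, h2⟩
    simp only [PiLp.add_apply] at h1 h2
    refine ⟨q - w, ⟨?_, ?_⟩, by simp⟩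
    · simp only [PiLp.sub_apply]; convert h1 using 2; ring
    · simp only [PiLp.sub_apply]; convert h2 using 2; ring

theorem image_sub (w p : E) : (IsometryEquiv.subLeft w) '' sq p = sq (w - p) := by
  ext q
  simp only [mem_image, mem_sq]
  constructor
  · rintro ⟨r, ⟨h1, h2⟩, rfl⟩
    simp only [IsometryEquiv.subLeft_apply, PiLp.sub_apply]
    constructor
    · rw [abs_sub_comm]; convert h1 using 2; ring
    · rw [abs_sub_comm]; convert h2 using 2; ring
  · rintro ⟨h1, h2⟩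
    simp only [PiLp.sub_apply] at h1 h2
    refine ⟨w - q, ⟨?_, ?_⟩, by simp⟩
    · simp only [PiLp.sub_apply]; rw [abs_sub_comm]; convert h1 using 2; ring
    · simp only [PiLp.sub_apply]; rw [abs_sub_comm]; convert h2 using 2; ring

variable (α : ℝ) (x y k : ℤ)

/-- centres -/
noncomputable def ctr (m n : ℤ) : E := pt m (α * m + n)

/-- tiles -/
noncomputable def tile (p : ℤ × ℤ) : Set E :=
  sq (ctr α p.1 (2 * p.2)) ∪ sq (ctr α (p.1 + x) (2 * p.2 + 2 * k + 1))

/-- the tiling -/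
noncomputable def TT : Set (Set E) := range (tile α x k)

theorem ctr_zero (m n : ℤ) : (ctr α m n) 0 = m := by simp [ctr]
theorem ctr_one (m n : ℤ) : (ctr α m n) 1 = α * m + n := by simp [ctr]

variable (hy : (y : ℝ) = α * x + 2 * k + 1) (hxy : 2 ≤ |x| ∨ 2 ≤ |y|)

include hy hxy in
theorem tile_disj (p : ℤ × ℤ) :
    Disjoint (sq (ctr α p.1 (2 * p.2))) (sq (ctr α (p.1 + x) (2 * p.2 + 2 * k + 1))) := by
  apply sq_disj
  rw [ctr_zero, ctr_zero, ctr_one, ctr_one]
  rcases hxy with h | h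
  · left
    have : ((2 : ℤ) : ℝ) ≤ |(x : ℝ)| := by exact_mod_cast h
    push_cast at this ⊢
    have e : (p.1 : ℝ) - (p.1 + x) = -x := by ring
    rw [e, abs_neg]
    linarith
  · right
    have : ((2 : ℤ) : ℝ) ≤ |(y : ℝ)| := by exact_mod_cast h
    push_cast at this ⊢
    have e : α * (p.1 : ℝ) + 2 * p.2 - (α * (p.1 + x) + (2 * p.2 + 2 * k + 1)) = -y := by
      rw [hy]; ring
    rw [e, abs_neg]
    linarith

theorem exists_generic (U : Set E) (hU : IsOpen U) (z : E) (hz : z ∈ U) (B0 B1 : Set ℝ)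
    (h0 : B0.Countable) (h1 : B1.Countable) : ∃ q ∈ U, q 0 ∉ B0 ∧ q 1 ∉ B1 := by
  have c0 : Continuous (fun r : ℝ => pt r (z 1)) := by unfold pt; fun_prop
  obtain ⟨r0, hr0, hr0'⟩ := (h0.dense_compl ℝ).exists_mem_open (hU.preimage c0)
    ⟨z 0, by simp only [mem_preimage, pt_eta]; exact hz⟩
  have c1 : Continuous (fun r : ℝ => pt r0 r) := by unfold pt; fun_prop
  obtain ⟨r1, hr1, hr1'⟩ := (h1.dense_compl ℝ).exists_mem_open (hU.preimage c1) ⟨z 1, hr0'⟩
  exact ⟨pt r0 r1, hr1', by simpa using hr0, by simpa using hr1⟩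

theorem int_unique (r : ℝ) (m m' : ℤ) (h : |r - m| ≤ 1 / 2) (h' : |r - m'| ≤ 1 / 2)
    (hr : ∀ n : ℤ, r ≠ n + 1 / 2) : m = m' := by
  rw [abs_le] at h h'
  by_contra hne
  rcases lt_or_gt_of_ne hne with hlt | hlt
  · have : (m : ℝ) + 1 ≤ m' := by exact_mod_cast hlt
    exact hr m (by linarith)
  · have : (m' : ℝ) + 1 ≤ m := by exact_mod_cast hlt
    exact hr m' (by linarith)

theorem tiling : IsTiling (TT α x k) := by
  refine ⟨countable_range _, ?_, ?_, ?_⟩
  · rintro _ ⟨p, rfl⟩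
    exact (sq_closed _).union (sq_closed _)
  · rw [eq_univ_iff_forall]
    intro q
    set m := round (q 0) with hm
    set n := round (q 1 - α * m) with hn
    have e0 : |q 0 - m| ≤ 1 / 2 := abs_sub_round _
    have e1 : |q 1 - (α * m + n)| ≤ 1 / 2 := by
      have h3 := abs_sub_round (q 1 - α * m)
      rw [show q 1 - (α * m + n) = q 1 - α * m - n by ring]
      exact h3
    have hq : q ∈ sq (ctr α m n) := ⟨by rw [ctr_zero]; exact e0, by rw [ctr_one]; exact e1⟩
    rcases Int.even_or_odd' n with ⟨j, hj | hj⟩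
    · refine ⟨tile α x k (m, j), ⟨_, rfl⟩, Or.inl ?_⟩
      simp only
      rw [← hj]
      exact hq
    · refine ⟨tile α x k (m - x, j - k), ⟨_, rfl⟩, Or.inr ?_⟩
      simp only
      have e2 : m - x + x = m := by ring
      have e3 : 2 * (j - k) + 2 * k + 1 = n := by rw [hj]; ring
      rw [e2, e3]
      exact hq
  · rintro _ ⟨p, rfl⟩ _ ⟨p', rfl⟩ hne
    rw [Set.disjoint_left]
    intro z hz hz'
    let B0 : Set ℝ := range (fun n : ℤ => (n : ℝ) + 1 / 2)
    let B1 : Set ℝ := range (fun n : ℤ × ℤ => α * n.1 + n.2 + 1 / 2)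
    obtain ⟨q, hq, hq0, hq1⟩ := exists_generic _ (isOpen_interior.inter isOpen_interior) z
      ⟨hz, hz'⟩ B0 B1 (countable_range _) (countable_range _)
    have m1 := interior_subset hq.1
    have m2 := interior_subset hq.2
    have key : ∀ a b a' b' : ℤ, q ∈ sq (ctr α a b) → q ∈ sq (ctr α a' b') → a = a' ∧ b = b' := by
      rintro a b a' b' ⟨h1, h2⟩ ⟨h3, h4⟩
      rw [ctr_zero] at h1 h3
      rw [ctr_one] at h2 h4
      have e := int_unique (q 0) a a' h1 h3 (fun n hn => hq0 ⟨n, hn.symm⟩)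
      subst e
      refine ⟨rfl, int_unique (q 1 - α * a) b b' ?_ ?_ ?_⟩
      · convert h2 using 2; ring
      · convert h4 using 2; ring
      · intro n hn
        exact hq1 ⟨(a, n), by simp only; linarith⟩
    apply hne
    rcases m1 with m1 | m1 <;> rcases m2 with m2 | m2
    · obtain ⟨h1, h2⟩ := key _ _ _ _ m1 m2
      have : p = p' := Prod.ext h1 (by omega)
      rw [this]
    · obtain ⟨h1, h2⟩ := key _ _ _ _ m1 m2
      omega
    · obtain ⟨h1, h2⟩ := key _ _ _ _ m1 m2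
      omega
    · obtain ⟨h1, h2⟩ := key _ _ _ _ m1 m2
      have : p = p' := Prod.ext (by omega) (by omega)
      rw [this]

theorem isSymm_of (g : E ≃ᵢ E) (σ : ℤ × ℤ → ℤ × ℤ) (hσ : Function.Surjective σ)
    (h : ∀ p, g '' tile α x k p = tile α x k (σ p)) : IsSymm (TT α x k) g := by
  ext t
  constructor
  · rintro ⟨_, ⟨p, rfl⟩, rfl⟩
    exact ⟨σ p, (h p).symm⟩
  · rintro ⟨p, rfl⟩
    obtain ⟨p', rfl⟩ := hσ p
    exact ⟨tile α x k p', ⟨p', rfl⟩, h p'⟩

theorem translate (a b : ℤ) (p : ℤ × ℤ) :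
    (IsometryEquiv.addRight (ctr α a (2 * b))) '' tile α x k p = tile α x k (p.1 + a, p.2 + b) := by
  rw [tile, image_union, image_add, image_add, tile]
  congr 2
  · apply E_ext <;> simp [ctr_zero, ctr_one] <;> ring
  · apply E_ext <;> simp [ctr_zero, ctr_one] <;> ring

theorem reflect (c : ℤ × ℤ) (p : ℤ × ℤ) :
    (IsometryEquiv.subLeft (ctr α c.1 (2 * c.2) + ctr α (c.1 + x) (2 * c.2 + 2 * k + 1))) ''
      tile α x k p = tile α x k (2 * c.1 - p.1, 2 * c.2 - p.2) := by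
  rw [tile, image_union, image_sub, image_sub, tile, union_comm]
  congr 2
  · apply E_ext <;> simp [ctr_zero, ctr_one] <;> ring
  · apply E_ext <;> simp [ctr_zero, ctr_one] <;> ring

theorem reflect1 (c : ℤ × ℤ) :
    (IsometryEquiv.subLeft (ctr α c.1 (2 * c.2) + ctr α (c.1 + x) (2 * c.2 + 2 * k + 1))) ''
      sq (ctr α c.1 (2 * c.2)) = sq (ctr α (c.1 + x) (2 * c.2 + 2 * k + 1)) := by
  rw [image_sub]
  congr 1
  abel

theorem reflect2 (c : ℤ × ℤ) :
    (IsometryEquiv.subLeft (ctr α c.1 (2 * c.2) + ctr α (c.1 + x) (2 * c.2 + 2 * k + 1))) ''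
      sq (ctr α (c.1 + x) (2 * c.2 + 2 * k + 1)) = sq (ctr α c.1 (2 * c.2)) := by
  rw [image_sub]
  congr 1
  abel

theorem refl_image (t : Set E) : (IsometryEquiv.refl E) '' t = t := by
  show id '' t = t
  exact Set.image_id t

theorem symm_refl (𝒯 : Set (Set E)) : IsSymm 𝒯 (IsometryEquiv.refl E) := by
  unfold IsSymm
  simp only [refl_image]
  exact Set.image_id' 𝒯

include hy hxy in
theorem idiomeric : IsIdiomeric (T x y) (TT α x k) := by
  refine ⟨tiling α x k, ?_, ?_, ?_⟩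
  · rintro _ ⟨p, rfl⟩
    refine ⟨IsometryEquiv.addRight (ctr α p.1 (2 * p.2)), ?_⟩
    rw [T, image_union, image_add, image_add, tile]
    congr 2
    · apply E_ext <;> simp
    · apply E_ext
      · simp [ctr_zero]; ring
      · simp [ctr_one, hy]; ring
  · rintro _ ⟨p, rfl⟩ _ ⟨p', rfl⟩
    refine ⟨IsometryEquiv.addRight (ctr α (p'.1 - p.1) (2 * (p'.2 - p.2))), ?_, ?_⟩
    · apply isSymm_of α x k _ (fun q => (q.1 + (p'.1 - p.1), q.2 + (p'.2 - p.2)))
      · intro q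
        exact ⟨(q.1 - (p'.1 - p.1), q.2 - (p'.2 - p.2)), by simp⟩
      · exact translate α x k _ _
    · rw [translate]
      simp
  · rintro _ ⟨c, rfl⟩ p hp q hq
    have hd := tile_disj α x y k hy hxy c
    set g := IsometryEquiv.subLeft
      (ctr α c.1 (2 * c.2) + ctr α (c.1 + x) (2 * c.2 + 2 * k + 1)) with hg
    have hgs : IsSymm (TT α x k) g := by
      apply isSymm_of α x k _ (fun q => (2 * c.1 - q.1, 2 * c.2 - q.2))
      · intro q
        exact ⟨(2 * c.1 - q.1, 2 * c.2 - q.2), by simp⟩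
      · exact reflect α x k c
    have hgt : g '' tile α x k c = tile α x k c := by
      rw [hg, reflect]
      congr 1
      ext <;> simp <;> ring
    rcases hp with hp | hp <;> rcases hq with hq | hq
    · refine ⟨IsometryEquiv.refl E, symm_refl _, refl_image _, ?_⟩
      rw [tile, comp_left _ _ hd p hp, comp_left _ _ hd q hq]
      exact refl_image _
    · refine ⟨g, hgs, hgt, ?_⟩
      rw [tile, comp_left _ _ hd p hp, comp_right _ _ hd q hq]
      exact reflect1 α x k c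
    · refine ⟨g, hgs, hgt, ?_⟩
      rw [tile, comp_right _ _ hd p hp, comp_left _ _ hd q hq]
      exact reflect2 α x k c
    · refine ⟨IsometryEquiv.refl E, symm_refl _, refl_image _, ?_⟩
      rw [tile, comp_right _ _ hd p hp, comp_right _ _ hd q hq]
      exact refl_image _

include hxy in
theorem onGrid (hy : (y : ℝ) = 0 * x + 2 * k + 1) : OnGrid (TT 0 x k) := by
  rintro _ ⟨c, rfl⟩ p hp
  have hd := tile_disj 0 x y k hy hxy c
  rcases hp with hp | hp
  · refine ⟨c.1, 2 * c.2, ?_⟩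
    rw [tile, comp_left _ _ hd p hp]
    congr 1
    apply E_ext <;> simp [ctr_zero, ctr_one]
  · refine ⟨c.1 + x, 2 * c.2 + 2 * k + 1, ?_⟩
    rw [tile, comp_right _ _ hd p hp]
    congr 1
    apply E_ext <;> simp [ctr_zero, ctr_one]

/-- swapping the coordinates -/
noncomputable def swapE : E ≃ᵢ E :=
  (LinearIsometryEquiv.piLpCongrLeft 2 ℝ ℝ (Equiv.swap (0 : Fin 2) 1)).toIsometryEquiv

theorem swapE_zero (q : E) : (swapE q) 0 = q 1 := by
  simp [swapE]

theorem swapE_one (q : E) : (swapE q) 1 = q 0 := by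
  simp [swapE]

theorem swapE_sq (p : E) : swapE '' sq p = sq (swapE p) := by
  ext q
  simp only [mem_image, mem_sq, swapE_zero, swapE_one]
  constructor
  · rintro ⟨r, ⟨h1, h2⟩, rfl⟩
    rw [swapE_zero, swapE_one]
    exact ⟨h2, h1⟩
  · rintro ⟨h1, h2⟩
    refine ⟨swapE q, ⟨?_, ?_⟩, ?_⟩
    · rw [swapE_zero]; exact h2
    · rw [swapE_one]; exact h1
    · apply E_ext <;> simp [swapE_zero, swapE_one]

theorem swapE_T (x y : ℤ) : swapE '' T x y = T y x := by
  rw [T, image_union, swapE_sq, swapE_sq, T]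
  congr 2
  · apply E_ext <;> simp [swapE_zero, swapE_one]
  · apply E_ext <;> simp [swapE_zero, swapE_one]

theorem idiomeric_swap (x y : ℤ) (𝒯 : Set (Set E)) (h : IsIdiomeric (T y x) 𝒯) :
    IsIdiomeric (T x y) 𝒯 := by
  refine ⟨h.tiling, ?_, h.isohedral, h.trans⟩
  intro t ht
  obtain ⟨f, rfl⟩ := h.monohedral t ht
  refine ⟨swapE.trans f, ?_⟩
  rw [← swapE_T x y, ← Set.image_comp]
  rfl

theorem exists_general (x y : ℤ) (hxy : 2 ≤ |x| ∨ 2 ≤ |y|) :
    ∃ 𝒯, IsIdiomeric (T x y) 𝒯 := by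
  have main : ∀ x y : ℤ, x ≠ 0 → (2 ≤ |x| ∨ 2 ≤ |y|) → ∃ 𝒯, IsIdiomeric (T x y) 𝒯 := by
    intro x y hx hxy
    refine ⟨_, idiomeric (((y : ℝ) - 1) / x) x y 0 ?_ hxy⟩
    have : (x : ℝ) ≠ 0 := by exact_mod_cast hx
    field_simp
    push_cast
    ring
  by_cases hx : x = 0
  · have hy : y ≠ 0 := by
      rintro rfl
      subst hx
      simp at hxy
    obtain ⟨𝒯, h⟩ := main y x hy hxy.symm
    exact ⟨𝒯, idiomeric_swap x y 𝒯 h⟩
  · exact main x y hx hxy

theorem exists_grid (x y : ℤ) (hxy : 2 ≤ |x| ∨ 2 ≤ |y|) (h : ¬ (Even x ∧ Even y)) :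
    ∃ 𝒯, IsIdiomeric (T x y) 𝒯 ∧ OnGrid 𝒯 := by
  have main : ∀ x y : ℤ, ¬ Even y → (2 ≤ |x| ∨ 2 ≤ |y|) →
      ∃ 𝒯, IsIdiomeric (T x y) 𝒯 ∧ OnGrid 𝒯 := by
    intro x y hy hxy
    rw [Int.not_even_iff_odd] at hy
    obtain ⟨k, hk⟩ := hy
    have hy' : (y : ℝ) = 0 * x + 2 * k + 1 := by rw [hk]; push_cast; ring
    exact ⟨_, idiomeric 0 x y k hy' hxy, onGrid x y k hxy hy'⟩
  by_cases hy : Even y
  · have hx : ¬ Even x := fun hx => h ⟨hx, hy⟩
    obtain ⟨𝒯, h1, h2⟩ := main y x hx hxy.symm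
    exact ⟨𝒯, idiomeric_swap x y 𝒯 h1, h2⟩
  · exact main x y hy hxy

end Pool.Agent.H10.Idio
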