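import Pool.Agent.H10.Idio

set_option autoImplicit false

open Set

namespace Pool.Agent.H10.Idio

/-- integer points -/
noncomputable def P (u : ℤ × ℤ) : E := pt u.1 u.2

theorem P_zero (u : ℤ × ℤ) : (P u) 0 = u.1 := by simp [P]
theorem P_one (u : ℤ × ℤ) : (P u) 1 = u.2 := by simp [P]

theorem int_eq_of_abs (a b : ℤ) (h : |(a : ℝ) - b| ≤ 1 / 2) : a = b := by
  by_contra hne
  have h1 : 1 ≤ |a - b| := Int.one_le_abs (sub_ne_zero.2 hne)
  have h2 : (1 : ℝ) ≤ |(a : ℝ) - b| := by exact_mod_cast h1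
  linarith

theorem P_mem (u w : ℤ × ℤ) (h : P u ∈ sq (P w)) : u = w := by
  obtain ⟨h0, h1⟩ := h
  rw [P_zero, P_zero] at h0
  rw [P_one, P_one] at h1
  exact Prod.ext (int_eq_of_abs _ _ h0) (int_eq_of_abs _ _ h1)

theorem P_inj (u w : ℤ × ℤ) (h : P u = P w) : u = w := by
  apply P_mem
  rw [h]
  exact self_mem_sq _

/-- tiles with two integer centres -/
structure Tile (N : ℤ) (𝒯 : Set (Set E)) (u w : ℤ × ℤ) : Prop where
  mem : sq (P u) ∪ sq (P w) ∈ 𝒯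
  disj : Disjoint (sq (P u)) (sq (P w))
  dst : (w.1 - u.1) ^ 2 + (w.2 - u.2) ^ 2 = N

theorem Tile.symm {N : ℤ} {𝒯 : Set (Set E)} {u w : ℤ × ℤ} (h : Tile N 𝒯 u w) : Tile N 𝒯 w u :=
  ⟨by rw [union_comm]; exact h.mem, h.disj.symm, by rw [← h.dst]; ring⟩

theorem Tile.ne {N : ℤ} {𝒯 : Set (Set E)} {u w : ℤ × ℤ} (h : Tile N 𝒯 u w) : u ≠ w := by
  rintro rfl
  exact Set.disjoint_left.1 h.disj (self_mem_sq _) (self_mem_sq _)

variable {x y : ℤ} {𝒯 : Set (Set E)} (hxy : 2 ≤ |x| ∨ 2 ≤ |y|) (hI : IsIdiomeric (T x y) 𝒯)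
  (hG : OnGrid 𝒯)

include hxy in
theorem base_disj : Disjoint (sq (pt 0 0)) (sq (pt x y)) := by
  apply sq_disj
  simp only [pt_zero, pt_one, zero_sub, abs_neg]
  rcases hxy with h | h
  · left
    have : ((2 : ℤ) : ℝ) ≤ |(x : ℝ)| := by exact_mod_cast h
    push_cast at this
    linarith
  · right
    have : ((2 : ℤ) : ℝ) ≤ |(y : ℝ)| := by exact_mod_cast h
    push_cast at this
    linarith

include hxy hI hG in
theorem tile_of_mem (t : Set E) (ht : t ∈ 𝒯) :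
    ∃ u w : ℤ × ℤ, t = sq (P u) ∪ sq (P w) ∧ Tile (x ^ 2 + y ^ 2) 𝒯 u w := by
  obtain ⟨f, hf⟩ := hI.monohedral t ht
  have hd := base_disj hxy
  have m1 : f (pt 0 0) ∈ t := by rw [← hf]; exact ⟨_, Or.inl (self_mem_sq _), rfl⟩
  have m2 : f (pt x y) ∈ t := by rw [← hf]; exact ⟨_, Or.inr (self_mem_sq _), rfl⟩
  have h1 : f '' sq (pt 0 0) = connectedComponentIn t (f (pt 0 0)) := by
    rw [← hf, ← image_comp f _ _ (Or.inl (self_mem_sq _)), T, comp_left _ _ hd _ (self_mem_sq _)]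
  have h2 : f '' sq (pt x y) = connectedComponentIn t (f (pt x y)) := by
    rw [← hf, ← image_comp f _ _ (Or.inr (self_mem_sq _)), T, comp_right _ _ hd _ (self_mem_sq _)]
  obtain ⟨a, b, hab⟩ := hG t ht _ m1
  obtain ⟨c, d, hcd⟩ := hG t ht _ m2
  rw [hab] at h1
  rw [hcd] at h2
  have ht' : t = sq (P (a, b)) ∪ sq (P (c, d)) := by
    rw [← hf, T, image_union, h1, h2]
    rfl
  refine ⟨(a, b), (c, d), ht', ?_, ?_, ?_⟩
  · rw [← ht']; exact ht
  · show Disjoint (sq (pt a b)) (sq (pt c d))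
    rw [← h1, ← h2]
    exact (disjoint_image_iff f.injective).2 hd
  · have c1 := center_map f _ _ h1
    have c2 := center_map f _ _ h2
    have e := dist_sq (f (pt x y)) (f (pt 0 0))
    rw [f.dist_eq, dist_sq, c1, c2] at e
    simp only [pt_zero, pt_one, sub_zero] at e
    have : ((x ^ 2 + y ^ 2 : ℤ) : ℝ) = (((c - a) ^ 2 + (d - b) ^ 2 : ℤ) : ℝ) := by
      push_cast
      exact e
    exact_mod_cast this.symm

include hxy hI hG in
theorem exists_partner (u : ℤ × ℤ) : ∃ w, Tile (x ^ 2 + y ^ 2) 𝒯 u w := by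
  have hm : P u ∈ ⋃₀ 𝒯 := by rw [hI.tiling.cover]; exact mem_univ _
  obtain ⟨t, ht, hut⟩ := hm
  obtain ⟨a, b, rfl, hab⟩ := tile_of_mem hxy hI hG t ht
  rcases hut with h | h
  · have := P_mem _ _ h
    subst this
    exact ⟨b, hab⟩
  · have := P_mem _ _ h
    subst this
    exact ⟨a, hab.symm⟩

include hI in
theorem tile_eq_of_mem {t t' : Set E} (ht : t ∈ 𝒯) (ht' : t' ∈ 𝒯) (p : E) (h : sq p ⊆ t)
    (h' : sq p ⊆ t') : t = t' := by
  by_contra hne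
  exact Set.disjoint_left.1 (hI.tiling.disj t ht t' ht' hne) (center_interior _ p h)
    (center_interior _ p h')

include hI in
theorem partner_unique {N : ℤ} {u w w' : ℤ × ℤ} (h : Tile N 𝒯 u w) (h' : Tile N 𝒯 u w') :
    w = w' := by
  have e := tile_eq_of_mem hI h.mem h'.mem (P u) subset_union_left subset_union_left
  have m : P w ∈ sq (P u) ∪ sq (P w') := by
    rw [← e]
    exact Or.inr (self_mem_sq _)
  rcases m with m | m
  · exact absurd (P_mem _ _ m).symm h.ne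
  · exact P_mem _ _ m

theorem symm_mem {g : E ≃ᵢ E} (hg : IsSymm 𝒯 g) {t : Set E} (ht : t ∈ 𝒯) : g '' t ∈ 𝒯 := by
  rw [← hg]
  exact ⟨t, ht, rfl⟩

include hxy hI hG in
theorem map_tile {g : E ≃ᵢ E} (hg : IsSymm 𝒯 g) {u w : ℤ × ℤ}
    (h : Tile (x ^ 2 + y ^ 2) 𝒯 u w) :
    ∃ u' w', Tile (x ^ 2 + y ^ 2) 𝒯 u' w' ∧ g (P u) = P u' ∧ g (P w) = P w' := by
  obtain ⟨a, b, e, hab⟩ := tile_of_mem hxy hI hG _ (symm_mem hg h.mem)
  rcases center_cases g _ _ _ _ h.disj hab.disj e with ⟨h1, h2⟩ | ⟨h1, h2⟩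
  · exact ⟨a, b, hab, h1, h2⟩
  · exact ⟨b, a, hab.symm, h1, h2⟩

include hI in
theorem swap_symm {N : ℤ} {u w : ℤ × ℤ} (h : Tile N 𝒯 u w) :
    ∃ g : E ≃ᵢ E, IsSymm 𝒯 g ∧ g (P u) = P w ∧ g (P w) = P u := by
  obtain ⟨g, hg, hgt, hgc⟩ := hI.trans _ h.mem (P u) (Or.inl (self_mem_sq _)) (P w)
    (Or.inr (self_mem_sq _))
  rw [comp_left _ _ h.disj _ (self_mem_sq _), comp_right _ _ h.disj _ (self_mem_sq _)] at hgc
  have c1 := center_map g _ _ hgc
  rcases center_cases g _ _ _ _ h.disj h.disj hgt with ⟨h1, h2⟩ | ⟨h1, h2⟩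
  · exact absurd (P_inj _ _ (h1.symm.trans c1)) h.ne
  · exact ⟨g, hg, h1, h2⟩

/-- `c` is the midpoint of `u`, `w`, expressed through coordinates -/
theorem mid_iff (c u w : ℤ × ℤ) : (2 * c.1 = u.1 + w.1 ∧ 2 * c.2 = u.2 + w.2) ↔
    P c = midpoint ℝ (P u) (P w) := by
  constructor
  · rintro ⟨h1, h2⟩
    have h1' : (2 * c.1 : ℝ) = u.1 + w.1 := by exact_mod_cast h1
    have h2' : (2 * c.2 : ℝ) = u.2 + w.2 := by exact_mod_cast h2
    rw [midpoint_eq_smul_add]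
    apply E_ext
    · simp [P_zero]; linarith
    · simp [P_one]; linarith
  · intro h
    rw [midpoint_eq_smul_add] at h
    have h0 := congrArg (fun q : E => q 0) h
    have h1 := congrArg (fun q : E => q 1) h
    simp [P_zero] at h0
    simp [P_one] at h1
    constructor
    · have : (2 * c.1 : ℝ) = u.1 + w.1 := by linarith
      exact_mod_cast this
    · have : (2 * c.2 : ℝ) = u.2 + w.2 := by linarith
      exact_mod_cast this

/-- equidistance, in coordinates -/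
theorem dist_iff (d u w : ℤ × ℤ) : (d.1 - u.1) ^ 2 + (d.2 - u.2) ^ 2 =
    (d.1 - w.1) ^ 2 + (d.2 - w.2) ^ 2 ↔ dist (P d) (P u) = dist (P d) (P w) := by
  have e : dist (P d) (P u) = dist (P d) (P w) ↔ dist (P d) (P u) ^ 2 = dist (P d) (P w) ^ 2 :=
    (pow_left_inj₀ dist_nonneg dist_nonneg (by norm_num)).symm
  rw [e, dist_sq, dist_sq]
  simp only [P_zero, P_one]
  constructor
  · intro h
    exact_mod_cast h
  · intro h
    exact_mod_cast h

theorem both_even (p q x y : ℤ) (hx : Even x) (hy : Even y) (h : p ^ 2 + q ^ 2 = x ^ 2 + y ^ 2) :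
    Even p ∧ Even q := by
  obtain ⟨a, rfl⟩ := hx
  obtain ⟨b, rfl⟩ := hy
  rcases Int.even_or_odd' p with ⟨m, hm | hm⟩ <;> rcases Int.even_or_odd' q with ⟨n, hn | hn⟩
  · exact ⟨⟨m, by omega⟩, ⟨n, by omega⟩⟩
  · exfalso
    subst hm hn
    have : 4 * (m ^ 2 + n ^ 2 + n - a ^ 2 - b ^ 2) = -1 := by linarith
    omega
  · exfalso
    subst hm hn
    have : 4 * (m ^ 2 + n ^ 2 + m - a ^ 2 - b ^ 2) = -1 := by linarith
    omega
  · exfalso
    subst hm hn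
    have : 4 * (m ^ 2 + n ^ 2 + m + n - a ^ 2 - b ^ 2) = -2 := by linarith
    omega

include hxy hI hG in
/-- the midpoint cell of a tile lies in a perpendicular tile -/
theorem exists_perp (hx : Even x) (hy : Even y) (u w : ℤ × ℤ) (h : Tile (x ^ 2 + y ^ 2) 𝒯 u w) :
    ∃ c d : ℤ × ℤ, Tile (x ^ 2 + y ^ 2) 𝒯 c d ∧ (2 * c.1 = u.1 + w.1 ∧ 2 * c.2 = u.2 + w.2) ∧
      dist (P d) (P u) = dist (P d) (P w) := by
  obtain ⟨⟨m, hm⟩, ⟨n, hn⟩⟩ := both_even _ _ x y hx hy h.dst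
  obtain ⟨d, hd⟩ := exists_partner hxy hI hG (u.1 + m, u.2 + n)
  have hmid : 2 * (u.1 + m, u.2 + n).1 = u.1 + w.1 ∧ 2 * (u.1 + m, u.2 + n).2 = u.2 + w.2 := by
    constructor
    · simp only; omega
    · simp only; omega
  refine ⟨_, d, hd, hmid, ?_⟩
  obtain ⟨g, hg, g1, g2⟩ := swap_symm hI h
  have hc : g (P (u.1 + m, u.2 + n)) = P (u.1 + m, u.2 + n) := by
    rw [(mid_iff _ _ _).1 hmid, IsometryEquiv.map_midpoint, g1, g2, midpoint_comm]
  obtain ⟨c', d', hcd, h1, h2⟩ := map_tile hxy hI hG hg hd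
  have e1 := P_inj _ _ (hc.symm.trans h1)
  rw [← e1] at hcd
  have e2 := partner_unique hI hd hcd
  rw [← e2] at h2
  calc dist (P d) (P u) = dist (g (P d)) (g (P u)) := (g.dist_eq _ _).symm
    _ = dist (P d) (P w) := by rw [h2, g1]

theorem perp_cases (e1 e2 v1 v2 N : ℤ) (h0 : e1 * v1 + e2 * v2 = 0)
    (h1 : e1 ^ 2 + e2 ^ 2 = N) (h2 : v1 ^ 2 + v2 ^ 2 = N) :
    (v1 = -e2 ∧ v2 = e1) ∨ (v1 = e2 ∧ v2 = -e1) := by
  have h3 : (e1 * v2 - e2 * v1) ^ 2 = N ^ 2 := by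
    have : (e1 * v1 + e2 * v2) ^ 2 + (e1 * v2 - e2 * v1) ^ 2 =
      (e1 ^ 2 + e2 ^ 2) * (v1 ^ 2 + v2 ^ 2) := by ring
    rw [h0, h1, h2] at this
    nlinarith
  rcases sq_eq_sq_iff_eq_or_eq_neg.1 h3 with h | h
  · left
    have : (v1 + e2) ^ 2 + (v2 - e1) ^ 2 = 0 := by nlinarith
    have a1 : (v1 + e2) ^ 2 = 0 := by nlinarith [sq_nonneg (v1 + e2), sq_nonneg (v2 - e1)]
    have a2 : (v2 - e1) ^ 2 = 0 := by nlinarith [sq_nonneg (v1 + e2), sq_nonneg (v2 - e1)]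
    have b1 := pow_eq_zero_iff (two_ne_zero) |>.1 a1
    have b2 := pow_eq_zero_iff (two_ne_zero) |>.1 a2
    exact ⟨by linarith, by linarith⟩
  · right
    have : (v1 - e2) ^ 2 + (v2 + e1) ^ 2 = 0 := by nlinarith
    have a1 : (v1 - e2) ^ 2 = 0 := by nlinarith [sq_nonneg (v1 - e2), sq_nonneg (v2 + e1)]
    have a2 : (v2 + e1) ^ 2 = 0 := by nlinarith [sq_nonneg (v1 - e2), sq_nonneg (v2 + e1)]
    have b1 := pow_eq_zero_iff (two_ne_zero) |>.1 a1
    have b2 := pow_eq_zero_iff (two_ne_zero) |>.1 a2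
    exact ⟨by linarith, by linarith⟩

include hxy hI hG in
/-- every symmetry class: a tile `(a, b)` forces the tile perpendicular to it centred at `a` -/
theorem star (hx : Even x) (hy : Even y) (a b : ℤ × ℤ) (h : Tile (x ^ 2 + y ^ 2) 𝒯 a b) :
    ∃ u w : ℤ × ℤ, Tile (x ^ 2 + y ^ 2) 𝒯 u w ∧
      2 * u.1 = 2 * a.1 + (b.2 - a.2) ∧ 2 * u.2 = 2 * a.2 - (b.1 - a.1) ∧
      2 * w.1 = 2 * a.1 - (b.2 - a.2) ∧ 2 * w.2 = 2 * a.2 + (b.1 - a.1) := by
  obtain ⟨c, d, hcd, hmid, hdist⟩ := exists_perp hxy hI hG hx hy a b h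
  -- a symmetry mapping `c` to `a` and `d` to `b`
  have key : ∃ k : E ≃ᵢ E, IsSymm 𝒯 k ∧ k (P c) = P a ∧ k (P d) = P b := by
    obtain ⟨k, hk, hkt⟩ := hI.isohedral _ hcd.mem _ h.mem
    rcases center_cases k _ _ _ _ hcd.disj h.disj hkt with ⟨h1, h2⟩ | ⟨h1, h2⟩
    · exact ⟨k, hk, h1, h2⟩
    · obtain ⟨g, hg, g1, g2⟩ := swap_symm hI h
      refine ⟨k.trans g, ?_, ?_, ?_⟩
      · unfold IsSymm at hk hg ⊢
        have : (fun t => (k.trans g) '' t) = (fun t => g '' t) ∘ (fun t => k '' t) := by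
          funext t
          show (k.trans g) '' t = g '' (k '' t)
          rw [← Set.image_comp]
          rfl
        rw [this, Set.image_comp, hk, hg]
      · show g (k (P c)) = _
        rw [h1, g2]
      · show g (k (P d)) = _
        rw [h2, g1]
  obtain ⟨k, hk, k1, k2⟩ := key
  obtain ⟨u, w, huw, hu, hw⟩ := map_tile hxy hI hG hk h
  have m1 : P a = midpoint ℝ (P u) (P w) := by
    rw [← k1, (mid_iff _ _ _).1 hmid, IsometryEquiv.map_midpoint, hu, hw]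
  have m2 : dist (P b) (P u) = dist (P b) (P w) := by
    rw [← k2, ← hu, ← hw, k.dist_eq, k.dist_eq]
    exact hdist
  rw [← mid_iff] at m1
  rw [← dist_iff] at m2
  obtain ⟨m11, m12⟩ := m1
  have h0 : (b.1 - a.1) * (w.1 - u.1) + (b.2 - a.2) * (w.2 - u.2) = 0 := by
    have e1 : w.1 = 2 * a.1 - u.1 := by linarith
    have e2 : w.2 = 2 * a.2 - u.2 := by linarith
    rw [e1, e2] at m2 ⊢
    nlinarith
  rcases perp_cases _ _ _ _ _ h0 h.dst huw.dst with ⟨h1, h2⟩ | ⟨h1, h2⟩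
  · exact ⟨u, w, huw, by linarith, by linarith, by linarith, by linarith⟩
  · exact ⟨w, u, huw.symm, by linarith, by linarith, by linarith, by linarith⟩

include hxy hI hG in
theorem no_grid (hx : Even x) (hy : Even y) : False := by
  obtain ⟨b, hab⟩ := exists_partner hxy hI hG (0, 0)
  obtain ⟨u1, w1, t1, a1, a2, a3, a4⟩ := star hxy hI hG hx hy _ _ hab
  obtain ⟨u2, w2, t2, b1, b2, b3, b4⟩ := star hxy hI hG hx hy _ _ t1
  obtain ⟨u3, w3, t3, c1, c2, c3, c4⟩ := star hxy hI hG hx hy _ _ t1.symm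
  obtain ⟨u4, w4, t4, d1, d2, d3, d4⟩ := star hxy hI hG hx hy _ _ t2
  obtain ⟨u5, w5, t5, e1, e2, e3, e4⟩ := star hxy hI hG hx hy _ _ t3.symm
  simp only at a1 a2 a3 a4
  have h45 : u4 = w5 := Prod.ext (by linarith) (by linarith)
  rw [h45] at t4
  have h6 := partner_unique hI t4 t5.symm
  have h7 : w4.1 = u5.1 := by rw [h6]
  have h8 : w4.2 = u5.2 := by rw [h6]
  apply hab.ne
  exact Prod.ext (by simp only; linarith) (by simp only; linarith)

end Pool.Agent.H10.Idio
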