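import Pool.Agent.H10.IdioEx
import Pool.Agent.H10.IdioNo

set_option autoImplicit false

namespace Pool.Agent.H10.Idio

theorem main (x y : ℤ) (h : 2 ≤ max |x| |y|) :
    ((∃ 𝒯 : Set (Set E), IsIdiomeric (T x y) 𝒯 ∧ OnGrid 𝒯) ↔ ¬ (Even x ∧ Even y)) ∧
      ∃ 𝒯 : Set (Set E), IsIdiomeric (T x y) 𝒯 := by
  have hxy : 2 ≤ |x| ∨ 2 ≤ |y| := le_max_iff.1 h
  refine ⟨⟨?_, exists_grid x y hxy⟩, exists_general x y hxy⟩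
  rintro ⟨𝒯, hI, hG⟩ ⟨hx, hy⟩
  exact no_grid hxy hI hG hx hy

end Pool.Agent.H10.Idio
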