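import Mathlib

/-! Counterexample algebra for frozen statement S0382 (products of ideals of a Koszul
filtration).  `R = K[a,b,c,u]/(a^2, b^2, c^2+u^2, u(a+b+c))`. -/

set_option autoImplicit false

namespace Pool.Agent.H10.K382

section Abs

variable {R : Type} [CommRing R] (φ : ℚ →+* R) (a b c u : R)

/-- every element is a polynomial in `a b c u` -/
def Gen : Prop := ∀ P : R → Prop, (∀ q : ℚ, P (φ q)) → (∀ r s, P r → P s → P (r + s)) →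
  (∀ r, P r → P (r * a)) → (∀ r, P r → P (r * b)) → (∀ r, P r → P (r * c)) →
  (∀ r, P r → P (r * u)) → ∀ r, P r

/-- the relations -/
structure Rel : Prop where
  ha : a * a = 0
  hb : b * b = 0
  hc : c * c + u * u = 0
  hu : u * (a + b + c) = 0
  ht : ∀ q : ℚ, φ q * (a * b * u * u) = 0 → q = 0

variable {φ a b c u}

theorem Rel.hz (h : Rel φ a b c u) (q : ℚ) (hq : φ q * (a * b * u * u) = 0) : φ q = 0 := by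
  rw [h.ht q hq, map_zero]

theorem nfu (hG : Gen φ a b c u) (h : Rel φ a b c u) : ∀ r : R,
    ∃ c0 c1 c2 c3 c4 c5 c6 c7 : ℚ, ∃ s : R,
      r = φ c0 + φ c1 * a + φ c2 * b + φ c3 * c + φ c4 * (a * b) + φ c5 * (a * c) +
        φ c6 * (b * c) + φ c7 * (a * b * c) + u * s := by
  obtain ⟨ha, hb, hc, hu, -⟩ := h
  refine hG _ ?_ ?_ ?_ ?_ ?_ ?_
  · intro q
    exact ⟨q, 0, 0, 0, 0, 0, 0, 0, 0, by simp⟩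
  · rintro _ _ ⟨c0, c1, c2, c3, c4, c5, c6, c7, s, rfl⟩ ⟨d0, d1, d2, d3, d4, d5, d6, d7, s', rfl⟩
    refine ⟨c0 + d0, c1 + d1, c2 + d2, c3 + d3, c4 + d4, c5 + d5, c6 + d6, c7 + d7, s + s', ?_⟩
    simp only [map_add]
    ring
  · rintro _ ⟨c0, c1, c2, c3, c4, c5, c6, c7, s, rfl⟩
    refine ⟨0, c0, 0, 0, c2, c3, 0, c6, s * a, ?_⟩
    simp only [map_zero]
    linear_combination (c*b*φ c7 + c*φ c5 + b*φ c4 + φ c1)*ha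
  · rintro _ ⟨c0, c1, c2, c3, c4, c5, c6, c7, s, rfl⟩
    refine ⟨0, 0, c0, 0, c1, 0, c3, c5, s * b, ?_⟩
    simp only [map_zero]
    linear_combination (c*a*φ c7 + c*φ c6 + a*φ c4 + φ c2)*hb
  · rintro _ ⟨c0, c1, c2, c3, c4, c5, c6, c7, s, rfl⟩
    refine ⟨0, 0, 0, c0, 0, c1, c2, c4, s * c - u * (φ c3 + φ c5 * a + φ c6 * b + φ c7 * a * b), ?_⟩
    simp only [map_zero]
    linear_combination (a*b*φ c7 + a*φ c5 + b*φ c6 + φ c3)*hc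
  · intro r _
    exact ⟨0, 0, 0, 0, 0, 0, 0, 0, r, by simp [mul_comm]⟩

theorem nfy (hG : Gen φ a b c u) (h : Rel φ a b c u) : ∀ r : R,
    ∃ c0 c1 c2 c3 c4 c5 c6 c7 : ℚ, ∃ s : R,
      r = φ c0 + φ c1 * a + φ c2 * b + φ c3 * u + φ c4 * (a * b) + φ c5 * (a * u) +
        φ c6 * (b * u) + φ c7 * (a * b * u) + (a + b + c) * s := by
  obtain ⟨ha, hb, hc, hu, -⟩ := h
  set Q : R → Prop := fun r => ∃ c0 c1 c2 c3 c4 c5 c6 c7 : ℚ, ∃ s : R,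
      r = φ c0 + φ c1 * a + φ c2 * b + φ c3 * u + φ c4 * (a * b) + φ c5 * (a * u) +
        φ c6 * (b * u) + φ c7 * (a * b * u) + (a + b + c) * s with hQ
  have hQa : ∀ r, Q r → Q (r * a) := by
    rintro _ ⟨c0, c1, c2, c3, c4, c5, c6, c7, s, rfl⟩
    refine ⟨0, c0, 0, 0, c2, c3, 0, c6, s * a, ?_⟩
    simp only [map_zero]
    linear_combination (u*b*φ c7 + u*φ c5 + b*φ c4 + φ c1)*ha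
  have hQb : ∀ r, Q r → Q (r * b) := by
    rintro _ ⟨c0, c1, c2, c3, c4, c5, c6, c7, s, rfl⟩
    refine ⟨0, 0, c0, 0, c1, 0, c3, c5, s * b, ?_⟩
    simp only [map_zero]
    linear_combination (u*a*φ c7 + u*φ c6 + a*φ c4 + φ c2)*hb
  refine hG Q ?_ ?_ hQa hQb ?_ ?_
  · intro q
    exact ⟨q, 0, 0, 0, 0, 0, 0, 0, 0, by simp⟩
  · rintro _ _ ⟨c0, c1, c2, c3, c4, c5, c6, c7, s, rfl⟩ ⟨d0, d1, d2, d3, d4, d5, d6, d7, s', rfl⟩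
    refine ⟨c0 + d0, c1 + d1, c2 + d2, c3 + d3, c4 + d4, c5 + d5, c6 + d6, c7 + d7, s + s', ?_⟩
    simp only [map_add]
    ring
  · intro r hr
    obtain ⟨c0, c1, c2, c3, c4, c5, c6, c7, s, h1⟩ := hQa r hr
    obtain ⟨d0, d1, d2, d3, d4, d5, d6, d7, s', h2⟩ := hQb r hr
    refine ⟨-c0 - d0, -c1 - d1, -c2 - d2, -c3 - d3, -c4 - d4, -c5 - d5, -c6 - d6, -c7 - d7,
      r - s - s', ?_⟩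
    simp only [map_sub, map_neg]
    linear_combination -h1 - h2
  · rintro _ ⟨c0, c1, c2, c3, c4, c5, c6, c7, s, rfl⟩
    refine ⟨0, 0, 0, c0, -2 * c3, c1, c2, c4,
      s * u - (φ c3 + φ c5 * a + φ c6 * b + φ c7 * a * b) * (c - a - b), ?_⟩
    simp only [map_zero, map_mul, map_neg, map_ofNat]
    linear_combination (-a*b*φ c7 - a*φ c5 - 2*b^2*φ c7 - 2*b*φ c5 - b*φ c6 - φ c3)*ha + (-a*b*φ c7 - a*φ c5 - 2*a*φ c6 - b*φ c6 - φ c3)*hb + (a*b*φ c7 + a*φ c5 + b*φ c6 + φ c3)*hc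

/-- `0 : y = (u)` -/
theorem fact1 (hG : Gen φ a b c u) (h : Rel φ a b c u) (r : R) (hr : r * (a + b + c) = 0) :
    ∃ s, r = u * s := by
  obtain ⟨c0, c1, c2, c3, c4, c5, c6, c7, s, rfl⟩ := nfu hG h r
  have hz := h.hz
  obtain ⟨ha, hb, hc, hu, -⟩ := h
  have z0 : φ c0 = 0 := hz c0 (by
    linear_combination (-c*a*b)*hr + (c^3*b^2*φ c7 + c^3*b*φ c5 + c^2*a*b^2*φ c7 + c^2*a*b*φ c5 + c^2*b^3*φ c7 + c^2*b^2*φ c4 + c^2*b^2*φ c5 + c^2*b^2*φ c6 + c^2*b*φ c1 + c^2*b*φ c3 + c*u*b*s + c*a*b^2*φ c4 + c*a*b*φ c1 + c*b^3*φ c4 + c*b^2*φ c1 + c*b^2*φ c2 + c*b*φ c0 + u^2*b*φ c3 + u*a*b*s + 2*u*b^2*s)*ha + (c^3*a*φ c6 + c^2*a*b*φ c6 + c^2*a*φ c2 + c^2*a*φ c3 + c*u*a*s + c*a*b*φ c2 + c*a*φ c0 + u^2*a*φ c3 + u*a*b*s)*hb + (c*a*b*φ c3 + a*b*φ c0)*hc + (c*a*b*s - u*a*b*φ c3 - a^2*b*s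 - a*b^2*s)*hu)
  have z1 : φ c1 = 0 := hz c1 (by
    linear_combination (-c*b)*hr + (c^2*b + c*a*b + c*b^2)*z0 + (c^2*b^2*φ c7 + c^2*b*φ c5 + c*b^2*φ c4 + c*b*φ c1 + u^2*b*φ c5)*ha + (c^3*a*φ c7 + c^3*φ c6 + c^2*a*b*φ c7 + c^2*a*φ c4 + c^2*a*φ c5 + c^2*a*φ c6 + c^2*b*φ c6 + c^2*φ c2 + c^2*φ c3 + c*u*s + c*a*b*φ c4 + c*a*φ c1 + c*a*φ c2 + c*b*φ c2 + u^2*a*φ c5 + u^2*φ c3 + u*a*s + u*b*s)*hb + (c*a*b*φ c5 + c*b*φ c3 + a*b*φ c1 + a*b*φ c3)*hc + (c*b*s - u*a*b*φ c5 - u*b*φ c3 - b^2*s)*hu)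
  have z2 : φ c2 = 0 := hz c2 (by
    linear_combination (-c*a)*hr + (c^2*a + c*a^2 + c*a*b)*z0 + (c^2*a^2 + c*a^3 + c*a^2*b)*z1 + (c^3*b*φ c7 + c^3*φ c5 + c^2*a*b*φ c7 + c^2*a*φ c5 + c^2*b^2*φ c7 + c^2*b*φ c4 + c^2*b*φ c5 + c^2*b*φ c6 + c^2*φ c3 + c*u*s + c*a*b*φ c4 + c*b^2*φ c4 + c*b*φ c2 + u^2*b*φ c6 + u^2*φ c3 + u*a*s + u*b*s)*ha + (c^2*a*φ c6 + c*a*φ c2 + u^2*a*φ c6)*hb + (c*a*b*φ c6 + c*a*φ c3 + a*b*φ c2 + a*b*φ c3)*hc + (c*a*s - u*a*b*φ c6 - u*a*φ c3 - a^2*s)*hu)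
  have z3 : φ c3 = 0 := hz c3 (by
    linear_combination (-a*b)*hr + (c*a*b + a^2*b + a*b^2)*z0 + (c*a^2*b + a^3*b + a^2*b^2)*z1 + (c*a*b^2 + a^2*b^2 + a*b^3)*z2 + (c^2*b^2*φ c7 + c^2*b*φ c5 + c*a*b^2*φ c7 + c*a*b*φ c5 + c*b^3*φ c7 + c*b^2*φ c4 + c*b^2*φ c5 + c*b^2*φ c6 + c*b*φ c3 + a*b^2*φ c4 + b^3*φ c4)*ha + (c^2*a*φ c6 + c*a*b*φ c6 + c*a*φ c3)*hb + (a*b*φ c3)*hc + (a*b*s)*hu)
  have z4 : φ c4 = 0 := hz c4 (by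
    linear_combination (-c)*hr + (c^2 + c*a + c*b)*z0 + (c^2*a + c*a^2 + c*a*b)*z1 + (c^2*b + c*a*b + c*b^2)*z2 + (c^3 + c^2*a + c^2*b)*z3 + (c^2*b*φ c7 + c^2*φ c5 + c*b*φ c4 + u^2*b*φ c7 + u^2*φ c5)*ha + (c^2*a*φ c7 + c^2*φ c6 + c*a*φ c4 + u^2*a*φ c7 + u^2*φ c6)*hb + (c*a*b*φ c7 + c*a*φ c5 + c*b*φ c6 + a*b*φ c4 + a*b*φ c5 + a*b*φ c6)*hc + (c*s - u*a*b*φ c7 - u*a*φ c5 - u*b*φ c6)*hu)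
  have z5 : φ c5 = 0 := hz c5 (by
    linear_combination (-b)*hr + (c*b + a*b + b^2)*z0 + (c*a*b + a^2*b + a*b^2)*z1 + (c*b^2 + a*b^2 + b^3)*z2 + (c^2*b + c*a*b + c*b^2)*z3 + (c*a*b^2 + a^2*b^2 + a*b^3)*z4 + (c*b^2*φ c7 + c*b*φ c5)*ha + (c^2*a*φ c7 + c^2*φ c6 + c*a*b*φ c7 + c*a*φ c5 + c*a*φ c6 + c*b*φ c6)*hb + (a*b*φ c5)*hc + (b*s)*hu)
  have z6 : φ c6 = 0 := hz c6 (by
    linear_combination (-a)*hr + (c*a + a^2 + a*b)*z0 + (c*a^2 + a^3 + a^2*b)*z1 + (c*a*b + a^2*b + a*b^2)*z2 + (c^2*a + c*a^2 + c*a*b)*z3 + (c*a^2*b + a^3*b + a^2*b^2)*z4 + (c^2*a^2 + c*a^3 + c*a^2*b)*z5 + (c^2*b*φ c7 + c*a*b*φ c7 + c*b^2*φ c7 + c*b*φ c6)*ha + (c*a*φ c6)*hb + (a*b*φ c6)*hc + (a*s)*hu)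
  have z7 : φ c7 = 0 := hz c7 (by
    linear_combination (-1)*hr + (c + a + b)*z0 + (c*a + a^2 + a*b)*z1 + (c*b + a*b + b^2)*z2 + (c^2 + c*a + c*b)*z3 + (c*a*b + a^2*b + a*b^2)*z4 + (c^2*a + c*a^2 + c*a*b)*z5 + (c^2*b + c*a*b + c*b^2)*z6 + (c*b*φ c7)*ha + (c*a*φ c7)*hb + (a*b*φ c7)*hc + (s)*hu)

  exact ⟨s, by rw [z0, z1, z2, z3, z4, z5, z6, z7]; ring⟩

/-- `0 : u = (y)` -/
theorem fact2 (hG : Gen φ a b c u) (h : Rel φ a b c u) (r : R) (hr : r * u = 0) :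
    ∃ s, r = (a + b + c) * s := by
  obtain ⟨c0, c1, c2, c3, c4, c5, c6, c7, s, rfl⟩ := nfy hG h r
  have hz := h.hz
  obtain ⟨ha, hb, hc, hu, -⟩ := h
  have z0 : φ c0 = 0 := hz c0 (by
    linear_combination (u*a*b)*hr + (-u^3*b^2*φ c7 - u^3*b*φ c5 - u^2*b^2*φ c4 - u^2*b*φ c1 + u*a*b*φ c3 + 2*u*b^2*φ c3)*ha + (-u^3*a*φ c6 - u^2*a*φ c2 + u*a*b*φ c3)*hb + (-u*a*b*φ c3)*hc + (c*a*b*φ c3 - u*a*b*s - a^2*b*φ c3 - a*b^2*φ c3)*hu)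
  have z1 : φ c1 = 0 := hz c1 (by
    linear_combination (u*b)*hr + (-u^2*b)*z0 + (u*a*b*φ c5 + 2*u*b^2*φ c5 + u*b*φ c3)*ha + (-u^3*a*φ c7 - u^3*φ c6 - u^2*a*φ c4 - u^2*φ c2 + u*a*b*φ c5 + 2*u*a*φ c3 + u*b*φ c3)*hb + (-u*a*b*φ c5 - u*b*φ c3)*hc + (c*a*b*φ c5 + c*b*φ c3 - u*b*s - a^2*b*φ c5 - a*b^2*φ c5 - a*b*φ c3 - b^2*φ c3)*hu)
  have z2 : φ c2 = 0 := hz c2 (by
    linear_combination (u*a)*hr + (-u^2*a)*z0 + (-u^2*a^2)*z1 + (-u^3*b*φ c7 - u^3*φ c5 - u^2*b*φ c4 + u*a*b*φ c6 + u*a*φ c3 + 2*u*b^2*φ c6 + 2*u*b*φ c3)*ha + (u*a*b*φ c6 + u*a*φ c3)*hb + (-u*a*b*φ c6 - u*a*φ c3)*hc + (c*a*b*φ c6 + c*a*φ c3 - u*a*s - a^2*b*φ c6 - a^2*φ c3 - a*b^2*φ c6 - a*b*φ c3)*hu)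
  have z3 : φ c3 = 0 := hz c3 (by
    linear_combination (a*b)*hr + (-u*a*b)*z0 + (-u*a^2*b)*z1 + (-u*a*b^2)*z2 + (-u^2*b^2*φ c7 - u^2*b*φ c5 - u*b^2*φ c4)*ha + (-u^2*a*φ c6)*hb + (-a*b*s)*hu)
  have z4 : φ c4 = 0 := hz c4 (by
    linear_combination (u)*hr + (-u^2)*z0 + (-u^2*a)*z1 + (-u^2*b)*z2 + (-u^3)*z3 + (u*a*b*φ c7 + u*a*φ c5 + 2*u*b^2*φ c7 + 2*u*b*φ c5 + u*b*φ c6)*ha + (u*a*b*φ c7 + u*a*φ c5 + 2*u*a*φ c6 + u*b*φ c6)*hb + (-u*a*b*φ c7 - u*a*φ c5 - u*b*φ c6)*hc + (c*a*b*φ c7 + c*a*φ c5 + c*b*φ c6 - u*s - a^2*b*φ c7 - a^2*φ c5 - a*b^2*φ c7 - a*b*φ c5 - a*b*φ c6 - b^2*φ c6)*hu)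
  have z5 : φ c5 = 0 := hz c5 (by
    linear_combination (b)*hr + (-u*b)*z0 + (-u*a*b)*z1 + (-u*b^2)*z2 + (-u^2*b)*z3 + (-u*a*b^2)*z4 + (-u^2*a*φ c7 - u^2*φ c6)*hb + (-b*s)*hu)
  have z6 : φ c6 = 0 := hz c6 (by
    linear_combination (a)*hr + (-u*a)*z0 + (-u*a^2)*z1 + (-u*a*b)*z2 + (-u^2*a)*z3 + (-u*a^2*b)*z4 + (-u^2*a^2)*z5 + (-u^2*b*φ c7)*ha + (-a*s)*hu)
  have z7 : φ c7 = 0 := hz c7 (by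
    linear_combination (1)*hr + (-u)*z0 + (-u*a)*z1 + (-u*b)*z2 + (-u^2)*z3 + (-u*a*b)*z4 + (-u^2*a)*z5 + (-u^2*b)*z6 + (-s)*hu)

  exact ⟨s, by rw [z0, z1, z2, z3, z4, z5, z6, z7]; ring⟩

theorem fact3 (hG : Gen φ a b c u) (h : Rel φ a b c u) (r : R) (hr : r * a * (a + b + c) = 0) :
    ∃ p q, r = u * p + a * q := by
  obtain ⟨c0, c1, c2, c3, c4, c5, c6, c7, s, rfl⟩ := nfu hG h r
  have hz := h.hz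
  obtain ⟨ha, hb, hc, hu, -⟩ := h
  have z0 : φ c0 = 0 := hz c0 (by
    linear_combination (-c*b)*hr + (c^3*b^2*φ c7 + c^3*b*φ c5 + c^2*a*b^2*φ c7 + c^2*a*b*φ c5 + c^2*b^3*φ c7 + c^2*b^2*φ c4 + c^2*b^2*φ c5 + c^2*b^2*φ c6 + c^2*b*φ c1 + c^2*b*φ c3 + c*u*b*s + c*a*b^2*φ c4 + c*a*b*φ c1 + c*b^3*φ c4 + c*b^2*φ c1 + c*b^2*φ c2 + c*b*φ c0 + u^2*b*φ c3 + u*a*b*s + 2*u*b^2*s)*ha + (c^3*a*φ c6 + c^2*a*b*φ c6 + c^2*a*φ c2 + c^2*a*φ c3 + c*u*a*s + c*a*b*φ c2 + c*a*φ c0 + u^2*a*φ c3 + u*a*b*s)*hb + (c*a*b*φ c3 + a*b*φ c0)*hc + (c*a*b*s - u*a*b*φ c3 - a^2*b*s - a*b^2*s)*hu)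
  have z2 : φ c2 = 0 := hz c2 (by
    linear_combination (-c)*hr + (c^2*a + c*a^2 + c*a*b)*z0 + (c^3*b*φ c7 + c^3*φ c5 + c^2*a*b*φ c7 + c^2*a*φ c5 + c^2*b^2*φ c7 + c^2*b*φ c4 + c^2*b*φ c5 + c^2*b*φ c6 + c^2*φ c1 + c^2*φ c3 + c*u*s + c*a*b*φ c4 + c*a*φ c1 + c*b^2*φ c4 + c*b*φ c1 + c*b*φ c2 + u^2*b*φ c6 + u^2*φ c3 + u*a*s + u*b*s)*ha + (c^2*a*φ c6 + c*a*φ c2 + u^2*a*φ c6)*hb + (c*a*b*φ c6 + c*a*φ c3 + a*b*φ c2 + a*b*φ c3)*hc + (c*a*s - u*a*b*φ c6 - u*a*φ c3 - a^2*s)*hu)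
  have z3 : φ c3 = 0 := hz c3 (by
    linear_combination (-b)*hr + (c*a*b + a^2*b + a*b^2)*z0 + (c*a*b^2 + a^2*b^2 + a*b^3)*z2 + (c^2*b^2*φ c7 + c^2*b*φ c5 + c*a*b^2*φ c7 + c*a*b*φ c5 + c*b^3*φ c7 + c*b^2*φ c4 + c*b^2*φ c5 + c*b^2*φ c6 + c*b*φ c1 + c*b*φ c3 + a*b^2*φ c4 + a*b*φ c1 + b^3*φ c4 + b^2*φ c1)*ha + (c^2*a*φ c6 + c*a*b*φ c6 + c*a*φ c3)*hb + (a*b*φ c3)*hc + (a*b*s)*hu)
  have z6 : φ c6 = 0 := hz c6 (by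
    linear_combination (-1)*hr + (c*a + a^2 + a*b)*z0 + (c*a*b + a^2*b + a*b^2)*z2 + (c^2*a + c*a^2 + c*a*b)*z3 + (c^2*b*φ c7 + c^2*φ c5 + c*a*b*φ c7 + c*a*φ c5 + c*b^2*φ c7 + c*b*φ c4 + c*b*φ c5 + c*b*φ c6 + c*φ c1 + a*b*φ c4 + a*φ c1 + b^2*φ c4 + b*φ c1)*ha + (c*a*φ c6)*hb + (a*b*φ c6)*hc + (a*s)*hu)

  exact ⟨s, φ c1 + φ c4 * b + φ c5 * c + φ c7 * b * c, by rw [z0, z2, z3, z6]; ring⟩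

theorem fact4 (hG : Gen φ a b c u) (h : Rel φ a b c u) (r : R)
    (hr : r * b * a * (a + b + c) = 0) :
    ∃ p q v, r = u * p + a * q + b * v := by
  obtain ⟨c0, c1, c2, c3, c4, c5, c6, c7, s, rfl⟩ := nfu hG h r
  have hz := h.hz
  obtain ⟨ha, hb, hc, hu, -⟩ := h
  have z0 : φ c0 = 0 := hz c0 (by
    linear_combination (-c)*hr + (c^3*b^2*φ c7 + c^3*b*φ c5 + c^2*a*b^2*φ c7 + c^2*a*b*φ c5 + c^2*b^3*φ c7 + c^2*b^2*φ c4 + c^2*b^2*φ c5 + c^2*b^2*φ c6 + c^2*b*φ c1 + c^2*b*φ c3 + c*u*b*s + c*a*b^2*φ c4 + c*a*b*φ c1 + c*b^3*φ c4 + c*b^2*φ c1 + c*b^2*φ c2 + c*b*φ c0 + u^2*b*φ c3 + u*a*b*s + 2*u*b^2*s)*ha + (c^3*a*φ c6 + c^2*a*b*φ c6 + c^2*a*φ c2 + c^2*a*φ c3 + c*u*a*s + c*a*b*φ c2 + c*a*φ c0 + u^2*a*φ c3 + u*a*b*s)*hb + (c*a*b*φ c3 + a*b*φ c0)*hc + (c*a*b*s - u*a*b*φ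 c3 - a^2*b*s - a*b^2*s)*hu)
  have z3 : φ c3 = 0 := hz c3 (by
    linear_combination (-1)*hr + (c*a*b + a^2*b + a*b^2)*z0 + (c^2*b^2*φ c7 + c^2*b*φ c5 + c*a*b^2*φ c7 + c*a*b*φ c5 + c*b^3*φ c7 + c*b^2*φ c4 + c*b^2*φ c5 + c*b^2*φ c6 + c*b*φ c1 + c*b*φ c3 + a*b^2*φ c4 + a*b*φ c1 + b^3*φ c4 + b^2*φ c1 + b^2*φ c2)*ha + (c^2*a*φ c6 + c*a*b*φ c6 + c*a*φ c2 + c*a*φ c3 + a*b*φ c2)*hb + (a*b*φ c3)*hc + (a*b*s)*hu)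

  exact ⟨s, φ c1 + φ c4 * b + φ c5 * c + φ c7 * b * c, φ c2 + φ c6 * c, by rw [z0, z3]; ring⟩

theorem fact5 (hG : Gen φ a b c u) (h : Rel φ a b c u) (r : R)
    (hr : r * c * a * b * (a + b + c) = 0) :
    ∃ p q v w, r = u * p + a * q + b * v + c * w := by
  obtain ⟨c0, c1, c2, c3, c4, c5, c6, c7, s, rfl⟩ := nfu hG h r
  have hz := h.hz
  obtain ⟨ha, hb, hc, hu, -⟩ := h
  have z0 : φ c0 = 0 := hz c0 (by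
    linear_combination (-1)*hr + (c^3*b^2*φ c7 + c^3*b*φ c5 + c^2*a*b^2*φ c7 + c^2*a*b*φ c5 + c^2*b^3*φ c7 + c^2*b^2*φ c4 + c^2*b^2*φ c5 + c^2*b^2*φ c6 + c^2*b*φ c1 + c^2*b*φ c3 + c*u*b*s + c*a*b^2*φ c4 + c*a*b*φ c1 + c*b^3*φ c4 + c*b^2*φ c1 + c*b^2*φ c2 + c*b*φ c0 + u^2*b*φ c3 + u*a*b*s + 2*u*b^2*s)*ha + (c^3*a*φ c6 + c^2*a*b*φ c6 + c^2*a*φ c2 + c^2*a*φ c3 + c*u*a*s + c*a*b*φ c2 + c*a*φ c0 + u^2*a*φ c3 + u*a*b*s)*hb + (c*a*b*φ c3 + a*b*φ c0)*hc + (c*a*b*s - u*a*b*φ c3 - a^2*b*s - a*b^2*s)*hu)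

  exact ⟨s, φ c1 + φ c4 * b + φ c5 * c + φ c7 * b * c, φ c2 + φ c6 * c, φ c3, by
    rw [z0]; ring⟩

/-- a linear form killed by `y^2` is a multiple of `u` -/
theorem factl (h : Rel φ a b c u) (c0 c1 c2 c3 : ℚ)
    (hl : (φ c0 * a + φ c1 * b + φ c2 * c + φ c3 * u) * (a + b + c) * (a + b + c) = 0) :
    φ c0 * a + φ c1 * b + φ c2 * c + φ c3 * u = u * φ c3 := by
  have ht := h.ht
  obtain ⟨ha, hb, hc, hu, -⟩ := h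
  have h1 : c1 + c2 = 0 := ht (c1 + c2) (by
    rw [map_add]
    linear_combination (-a)*hl + (c^2*φ c0 + 2*c^2*φ c2 + 2*c*u*φ c3 + 2*c*a*φ c0 + c*a*φ c2 + 2*c*b*φ c0 + 2*c*b*φ c1 + 2*c*b*φ c2 + u^2*φ c2 + 2*u*a*φ c3 + 2*u*b*φ c3 + a^2*φ c0 + 2*a*b*φ c0 + a*b*φ c1 + b^2*φ c0 + 2*b^2*φ c1)*ha + (2*c*a*φ c1 + c*a*φ c2 + a*b*φ c1)*hb + (c*a*φ c2 + a*b*φ c1 + 2*a*b*φ c2)*hc + (c*a*φ c3 - u*a*φ c2 - a^2*φ c3 + a*b*φ c3)*hu)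
  have h2 : c0 + c2 = 0 := ht (c0 + c2) (by
    rw [map_add]
    linear_combination (-b)*hl + (2*c*b*φ c0 + c*b*φ c2 + a*b*φ c0 + 2*b^2*φ c0 + b^2*φ c1)*ha + (c^2*φ c1 + 2*c^2*φ c2 + 2*c*u*φ c3 + 2*c*a*φ c0 + 2*c*a*φ c1 + 2*c*a*φ c2 + 2*c*b*φ c1 + c*b*φ c2 + u^2*φ c2 + 2*u*a*φ c3 + 2*u*b*φ c3 + a*b*φ c0 + 2*a*b*φ c1 + b^2*φ c1)*hb + (c*b*φ c2 + a*b*φ c0 + 2*a*b*φ c2)*hc + (c*b*φ c3 - u*b*φ c2 + a*b*φ c3 - b^2*φ c3)*hu)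
  have h3 : c0 + c1 = 0 := ht (c0 + c1) (by
    rw [map_add]
    linear_combination (-c)*hl + (2*c^2*φ c0 + c^2*φ c2 + c*u*φ c3 + c*a*φ c0 + 2*c*b*φ c0 + c*b*φ c1 + u^2*φ c0 + u^2*φ c2 + u*a*φ c3 + u*b*φ c3)*ha + (2*c^2*φ c1 + c^2*φ c2 + c*u*φ c3 + c*a*φ c0 + 2*c*a*φ c1 + c*b*φ c1 + u^2*φ c1 + u^2*φ c2 + u*a*φ c3 + u*b*φ c3)*hb + (c^2*φ c2 + c*u*φ c3 + c*a*φ c0 + 2*c*a*φ c2 + c*b*φ c1 + 2*c*b*φ c2 + u*a*φ c3 + u*b*φ c3 + 2*a*b*φ c0 + 2*a*b*φ c1 + 2*a*b*φ c2)*hc + (-c*u*φ c2 + c*a*φ c3 + c*b*φ c3 - u^2*φ c3 - u*a*φ c0 - u*a*φ c2 - u*b*φ c1 - u*b*φ c2 - a^2*φ c3 - b^2*φ c3)*hu)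
  have e0 : c0 = 0 := by linarith
  have e1 : c1 = 0 := by linarith
  have e2 : c2 = 0 := by linarith
  rw [e0, e1, e2, map_zero]
  ring

theorem facty (h : Rel φ a b c u) : (a + b + c) * (a + b + c) * (a * b) = - (a * b * u * u) := by
  obtain ⟨ha, hb, hc, hu, -⟩ := h
  linear_combination (2*c*b + a*b + 2*b^2)*ha + (2*c*a + a*b)*hb + (a*b)*hc

theorem t_ne (h : Rel φ a b c u) : a * b * u * u ≠ 0 := by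
  intro h0
  have := h.ht 1 (by rw [h0, mul_zero])
  exact one_ne_zero this

theorem factq (h : Rel φ a b c u) : (a * b - a * c) * (a + b + c) = a * u * u := by
  obtain ⟨ha, hb, hc, hu, -⟩ := h
  linear_combination (-c + b)*ha + (a)*hb + (-a)*hc

theorem factqq (h : Rel φ a b c u) : (a * b - a * c) * ((a + b + c) * (a + b + c)) = 0 := by
  obtain ⟨ha, hb, hc, hu, -⟩ := h
  linear_combination (-2*c^2 - c*a - u^2 + a*b + 2*b^2)*ha + (c*a + a*b)*hb + (-c*a - a*b)*hc + (u*a)*hu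

end Abs

end Pool.Agent.H10.K382
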