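import Pool.Agent.H10.K382

set_option autoImplicit false

open MvPolynomial

namespace Pool.Agent.H10.K382

/-- the polynomial ring -/
abbrev S := MvPolynomial (Fin 4) ℚ

/-- the values of the socle functional on monomials -/
def W : ℕ → ℕ → ℕ → ℕ → ℤ
  | 1, 1, 0, 2 => 1
  | 1, 1, 2, 0 => -1
  | 1, 0, 1, 2 => -1
  | 0, 1, 1, 2 => -1
  | 1, 0, 3, 0 => 1
  | 0, 1, 3, 0 => 1
  | 0, 0, 2, 2 => 2
  | 0, 0, 0, 4 => -2
  | 0, 0, 4, 0 => -2
  | _, _, _, _ => 0

theorem W1 (i j k l : ℕ) : W (i + 2) j k l = 0 := by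
  simp [W]

theorem W2 (i j k l : ℕ) : W i (j + 2) k l = 0 := by
  simp [W]

theorem W3 (i j k l : ℕ) : W i j (k + 2) l + W i j k (l + 2) = 0 := by
  rcases i with _ | _ | i <;> rcases j with _ | _ | j <;> rcases k with _ | _ | _ | _ | _ | k <;>
    rcases l with _ | _ | _ | _ | _ | l <;> rfl

theorem W4 (i j k l : ℕ) :
    W (i + 1) j k (l + 1) + W i (j + 1) k (l + 1) + W i j (k + 1) (l + 1) = 0 := by
  rcases i with _ | _ | i <;> rcases j with _ | _ | j <;> rcases k with _ | _ | _ | _ | _ | k <;>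
    rcases l with _ | _ | _ | _ | _ | l <;> rfl

/-- the socle functional -/
noncomputable def lam : S →ₗ[ℚ] ℚ :=
  (MvPolynomial.basisMonomials (Fin 4) ℚ).constr ℚ (fun m => ((W (m 0) (m 1) (m 2) (m 3) : ℤ) : ℚ))

theorem lam_monomial (m : Fin 4 →₀ ℕ) (q : ℚ) :
    lam (monomial m q) = q * ((W (m 0) (m 1) (m 2) (m 3) : ℤ) : ℚ) := by
  have h1 : (monomial m q : S) = q • (MvPolynomial.basisMonomials (Fin 4) ℚ) m := by
    rw [MvPolynomial.coe_basisMonomials, smul_monomial, smul_eq_mul, mul_one]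
  rw [h1, map_smul, lam, Module.Basis.constr_basis, smul_eq_mul]

/-- the ideal -/
noncomputable def J : Ideal S :=
  Ideal.span {X 0 * X 0, X 1 * X 1, X 2 * X 2 + X 3 * X 3, X 3 * (X 0 + X 1 + X 2)}

theorem lam_mul_of (g : S) (hg : ∀ m : Fin 4 →₀ ℕ, lam (monomial m 1 * g) = 0) (f : S) :
    lam (f * g) = 0 := by
  induction f using MvPolynomial.induction_on' with
  | monomial m q =>
    have : (monomial m q : S) * g = q • (monomial m 1 * g) := by
      rw [← smul_mul_assoc, smul_monomial, smul_eq_mul, mul_one]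
    rw [this, map_smul, hg, smul_zero]
  | add p q hp hq => rw [add_mul, map_add, hp, hq, add_zero]

theorem lam_J (p : S) (hp : p ∈ J) : lam p = 0 := by
  have key : ∀ f : S, lam (f * p) = 0 := by
    refine Submodule.span_induction (p := fun p _ => ∀ f : S, lam (f * p) = 0) ?_ ?_ ?_ ?_ hp
    · intro x hx
      simp only [Set.mem_insert_iff, Set.mem_singleton_iff] at hx
      apply lam_mul_of
      intro m
      rcases hx with rfl | rfl | rfl | rfl
      · simp only [X, monomial_mul, lam_monomial]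
        simp [W1]
      · simp only [X, monomial_mul, lam_monomial]
        simp [W2]
      · simp only [X, monomial_mul, mul_add, map_add, lam_monomial]
        have := congrArg (fun z : ℤ => (z : ℚ)) (W3 (m 0) (m 1) (m 2) (m 3))
        simpa [Finsupp.single_apply, add_assoc] using this
      · simp only [X, monomial_mul, mul_add, map_add, lam_monomial]
        have := congrArg (fun z : ℤ => (z : ℚ)) (W4 (m 0) (m 1) (m 2) (m 3))
        simpa [Finsupp.single_apply, add_assoc] using this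
    · intro f; simp
    · intro x y _ _ hx hy f
      rw [mul_add, map_add, hx, hy, add_zero]
    · intro r x _ hx f
      rw [smul_eq_mul, ← mul_assoc]
      exact hx _
  simpa using key 1

/-- the algebra -/
abbrev A := S ⧸ J

noncomputable def φ : ℚ →+* A := (Ideal.Quotient.mk J).comp C
noncomputable def xa : A := Ideal.Quotient.mk J (X 0)
noncomputable def xb : A := Ideal.Quotient.mk J (X 1)
noncomputable def xc : A := Ideal.Quotient.mk J (X 2)
noncomputable def xu : A := Ideal.Quotient.mk J (X 3)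

theorem gen : Gen φ xa xb xc xu := by
  intro P hC hadd ha hb hc hu r
  obtain ⟨p, rfl⟩ := Ideal.Quotient.mk_surjective r
  induction p using MvPolynomial.induction_on with
  | C q => exact hC q
  | add p q hp hq => rw [map_add]; exact hadd _ _ hp hq
  | mul_X p i hp =>
    rw [map_mul]
    fin_cases i
    · exact ha _ hp
    · exact hb _ hp
    · exact hc _ hp
    · exact hu _ hp

theorem rel : Rel φ xa xb xc xu := by
  refine ⟨?_, ?_, ?_, ?_, ?_⟩
  · rw [xa, ← map_mul, Ideal.Quotient.eq_zero_iff_mem]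
    exact Ideal.subset_span (by simp)
  · rw [xb, ← map_mul, Ideal.Quotient.eq_zero_iff_mem]
    exact Ideal.subset_span (by simp)
  · rw [xc, xu, ← map_mul, ← map_mul, ← map_add, Ideal.Quotient.eq_zero_iff_mem]
    exact Ideal.subset_span (by simp)
  · rw [xa, xb, xc, xu, ← map_add, ← map_add, ← map_mul, Ideal.Quotient.eq_zero_iff_mem]
    exact Ideal.subset_span (by simp)
  · intro q hq
    have h1 : C q * (X 0 * X 1 * X 3 * X 3) ∈ J := by
      rw [← Ideal.Quotient.eq_zero_iff_mem]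
      simpa [φ, xa, xb, xu] using hq
    have h2 := lam_J _ h1
    have h3 : (C q * (X 0 * X 1 * X 3 * X 3) : S) =
        monomial (Finsupp.single 0 1 + Finsupp.single 1 1 + Finsupp.single 3 1 +
          Finsupp.single 3 1) q := by
      simp [X, monomial_mul, C_mul_monomial]
    rw [h3, lam_monomial] at h2
    simpa [Finsupp.single_apply, W] using h2

attribute [local instance] MvPolynomial.gradedAlgebra

theorem J_hom (p : S) (hp : p ∈ J) (i : ℕ) : homogeneousComponent i p ∈ J := by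
  refine homogeneousComponent_mem_of_mem ?_ hp i
  apply Ideal.homogeneous_span
  intro x hx
  simp only [Set.mem_insert_iff, Set.mem_singleton_iff] at hx
  refine ⟨2, ?_⟩
  rw [mem_homogeneousSubmodule]
  have hX : ∀ i : Fin 4, (X i : S).IsHomogeneous 1 := fun i => isHomogeneous_X ℚ i
  rcases hx with rfl | rfl | rfl | rfl
  · exact (hX 0).mul (hX 0)
  · exact (hX 1).mul (hX 1)
  · exact ((hX 2).mul (hX 2)).add ((hX 3).mul (hX 3))
  · exact (hX 3).mul (((hX 0).add (hX 1)).add (hX 2))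

/-- linear elements -/
def Lin (r : A) : Prop := ∃ p : S, p.IsHomogeneous 1 ∧ Ideal.Quotient.mk J p = r

theorem lin_form (r : A) (hr : Lin r) : ∃ c0 c1 c2 c3 : ℚ,
    r = φ c0 * xa + φ c1 * xb + φ c2 * xc + φ c3 * xu := by
  obtain ⟨p, hp, rfl⟩ := hr
  rw [← mem_homogeneousSubmodule, homogeneousSubmodule_one_eq_span_X,
    Submodule.mem_span_range_iff_exists_fun] at hp
  obtain ⟨e, rfl⟩ := hp
  refine ⟨e 0, e 1, e 2, e 3, ?_⟩
  simp [Fin.sum_univ_four, smul_eq_C_mul, φ, xa, xb, xc, xu]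

theorem lin_a : Lin xa := ⟨X 0, isHomogeneous_X ℚ 0, rfl⟩
theorem lin_b : Lin xb := ⟨X 1, isHomogeneous_X ℚ 1, rfl⟩
theorem lin_c : Lin xc := ⟨X 2, isHomogeneous_X ℚ 2, rfl⟩
theorem lin_u : Lin xu := ⟨X 3, isHomogeneous_X ℚ 3, rfl⟩
theorem lin_add {x y : A} (hx : Lin x) (hy : Lin y) : Lin (x + y) := by
  obtain ⟨p, hp, rfl⟩ := hx
  obtain ⟨q, hq, rfl⟩ := hy
  exact ⟨p + q, hp.add hq, map_add _ _ _⟩
theorem lin_zero : Lin 0 := ⟨0, isHomogeneous_zero _ _ 1, map_zero _⟩
theorem lin_smul (q : ℚ) {x : A} (hx : Lin x) : Lin (φ q * x) := by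
  obtain ⟨p, hp, rfl⟩ := hx
  exact ⟨C q * p, hp.C_mul q, map_mul _ _ _⟩
theorem lin_sum {ι : Type} (s : Finset ι) (f : ι → A) (h : ∀ i ∈ s, Lin (f i)) :
    Lin (∑ i ∈ s, f i) := by
  classical
  induction s using Finset.induction_on with
  | empty => simpa using lin_zero
  | insert i s hi ih =>
    rw [Finset.sum_insert hi]
    exact lin_add (h i (Finset.mem_insert_self _ _))
      (ih fun j hj => h j (Finset.mem_insert_of_mem hj))

/-- `y = a + b + c` -/
noncomputable def xy : A := xa + xb + xc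
theorem lin_y : Lin xy := lin_add (lin_add lin_a lin_b) lin_c

theorem lin_span (T : Set A) (hT : ∀ x ∈ T, Lin x) :
    Ideal.span T = Ideal.span {y : A | y ∈ Ideal.span T ∧
      ∃ p : S, p.IsHomogeneous 1 ∧ Ideal.Quotient.mk J p = y} := by
  apply le_antisymm
  · rw [Ideal.span_le]
    intro x hx
    exact Ideal.subset_span ⟨Ideal.subset_span hx, hT x hx⟩
  · rw [Ideal.span_le]
    intro x hx
    exact hx.1

theorem max_eq : Ideal.span {y : A | ∃ p : S, p.IsHomogeneous 1 ∧ Ideal.Quotient.mk J p = y} =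
    Ideal.span {xu, xa, xb, xc} := by
  apply le_antisymm
  · rw [Ideal.span_le]
    intro x hx
    obtain ⟨c0, c1, c2, c3, rfl⟩ := lin_form x hx
    have h1 : xa ∈ Ideal.span {xu, xa, xb, xc} := Ideal.subset_span (by simp)
    have h2 : xb ∈ Ideal.span {xu, xa, xb, xc} := Ideal.subset_span (by simp)
    have h3 : xc ∈ Ideal.span {xu, xa, xb, xc} := Ideal.subset_span (by simp)
    have h4 : xu ∈ Ideal.span {xu, xa, xb, xc} := Ideal.subset_span (by simp)
    exact add_mem (add_mem (add_mem (Ideal.mul_mem_left _ _ h1) (Ideal.mul_mem_left _ _ h2))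
      (Ideal.mul_mem_left _ _ h3)) (Ideal.mul_mem_left _ _ h4)
  · apply Ideal.span_mono
    intro x hx
    simp only [Set.mem_insert_iff, Set.mem_singleton_iff] at hx
    rcases hx with rfl | rfl | rfl | rfl
    · exact lin_u
    · exact lin_a
    · exact lin_b
    · exact lin_c

theorem mem1 (x z : A) : z ∈ Ideal.span {x} ↔ ∃ p, z = x * p := by
  rw [Ideal.mem_span_singleton]
  rfl

theorem mem2 (x y z : A) : z ∈ Ideal.span {x, y} ↔ ∃ p q, z = x * p + y * q := by
  rw [Ideal.mem_span_pair]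
  constructor
  · rintro ⟨p, q, rfl⟩; exact ⟨p, q, by ring⟩
  · rintro ⟨p, q, rfl⟩; exact ⟨p, q, by ring⟩

theorem mem3 (x y v z : A) : z ∈ Ideal.span {x, y, v} ↔ ∃ p q r, z = x * p + y * q + v * r := by
  rw [Ideal.mem_span_insert]
  constructor
  · rintro ⟨p, t, ht, rfl⟩
    obtain ⟨q, r, rfl⟩ := (mem2 _ _ _).1 ht
    exact ⟨p, q, r, by ring⟩
  · rintro ⟨p, q, r, rfl⟩
    exact ⟨p, _, (mem2 _ _ _).2 ⟨q, r, rfl⟩, by ring⟩

theorem mem4 (x y v w z : A) : z ∈ Ideal.span {x, y, v, w} ↔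
    ∃ p q r s, z = x * p + y * q + v * r + w * s := by
  rw [Ideal.mem_span_insert]
  constructor
  · rintro ⟨p, t, ht, rfl⟩
    obtain ⟨q, r, s, rfl⟩ := (mem3 _ _ _ _).1 ht
    exact ⟨p, q, r, s, by ring⟩
  · rintro ⟨p, q, r, s, rfl⟩
    exact ⟨p, _, (mem3 _ _ _ _).2 ⟨q, r, s, rfl⟩, by ring⟩

/-- the Koszul filtration -/
noncomputable def F : Set (Ideal A) :=
  {⊥, Ideal.span {xu}, Ideal.span {xy}, Ideal.span {xu, xa}, Ideal.span {xu, xa, xb},
    Ideal.span {xu, xa, xb, xc}}

theorem F_lin : ∀ I ∈ F, I = Ideal.span {y : A | y ∈ I ∧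
    ∃ p : S, p.IsHomogeneous 1 ∧ Ideal.Quotient.mk J p = y} := by
  intro I hI
  simp only [F, Set.mem_insert_iff, Set.mem_singleton_iff] at hI
  rcases hI with rfl | rfl | rfl | rfl | rfl | rfl
  · apply le_antisymm bot_le
    rw [Ideal.span_le]
    intro x hx
    exact hx.1
  all_goals
    apply lin_span
    intro x hx
    simp only [Set.mem_insert_iff, Set.mem_singleton_iff] at hx
  · rw [hx]; exact lin_u
  · rw [hx]; exact lin_y
  · rcases hx with rfl | rfl
    · exact lin_u
    · exact lin_a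
  · rcases hx with rfl | rfl | rfl
    · exact lin_u
    · exact lin_a
    · exact lin_b
  · rcases hx with rfl | rfl | rfl | rfl
    · exact lin_u
    · exact lin_a
    · exact lin_b
    · exact lin_c

theorem sup1 (x y : A) : Ideal.span {x, y} = Ideal.span {x} ⊔ Ideal.span {y} := by
  rw [← Ideal.span_union]; congr 1

theorem F_col : ∀ I ∈ F, I ≠ ⊥ → ∃ I' ∈ F, I' ≤ I ∧
    (∃ x : A, (∃ p : S, p.IsHomogeneous 1 ∧ Ideal.Quotient.mk J p = x) ∧
      I = I' ⊔ Ideal.span {x}) ∧
    ∃ D ∈ F, ∀ r : A, r ∈ D ↔ ∀ y ∈ I, r * y ∈ I' := by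
  have hrel := rel
  obtain ⟨ha, hb, hc, hu, -⟩ := rel
  intro I hI hne
  simp only [F, Set.mem_insert_iff, Set.mem_singleton_iff] at hI
  rcases hI with rfl | rfl | rfl | rfl | rfl | rfl
  · exact absurd rfl hne
  · refine ⟨⊥, by simp [F], bot_le, ⟨xu, lin_u, by simp⟩, Ideal.span {xy}, by simp [F], ?_⟩
    intro r
    constructor
    · intro hr z hz
      obtain ⟨p, rfl⟩ := (mem1 _ _).1 hr
      obtain ⟨q, rfl⟩ := (mem1 _ _).1 hz
      rw [Ideal.mem_bot, xy]
      linear_combination p * q * hu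
    · intro hr
      have h1 := hr xu (Ideal.subset_span rfl)
      rw [Ideal.mem_bot] at h1
      exact (mem1 _ _).2 (fact2 gen hrel r h1)
  · refine ⟨⊥, by simp [F], bot_le, ⟨xy, lin_y, by simp⟩, Ideal.span {xu}, by simp [F], ?_⟩
    intro r
    constructor
    · intro hr z hz
      obtain ⟨p, rfl⟩ := (mem1 _ _).1 hr
      obtain ⟨q, rfl⟩ := (mem1 _ _).1 hz
      rw [Ideal.mem_bot, xy]
      linear_combination p * q * hu
    · intro hr
      have h1 := hr xy (Ideal.subset_span rfl)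
      rw [Ideal.mem_bot] at h1
      exact (mem1 _ _).2 (fact1 gen hrel r h1)
  · refine ⟨Ideal.span {xu}, by simp [F], Ideal.span_mono (by simp), ⟨xa, lin_a, ?_⟩,
      Ideal.span {xu, xa}, by simp [F], ?_⟩
    · rw [← Ideal.span_union]; congr 1
    intro r
    constructor
    · intro hr z hz
      obtain ⟨p, q, rfl⟩ := (mem2 _ _ _).1 hr
      obtain ⟨p', q', rfl⟩ := (mem2 _ _ _).1 hz
      refine (mem1 _ _).2 ⟨p * (xu * p' + xa * q') + xa * q * p', ?_⟩
      linear_combination q * q' * ha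
    · intro hr
      have h1 := hr xa (Ideal.subset_span (by simp))
      obtain ⟨s, hs⟩ := (mem1 _ _).1 h1
      refine (mem2 _ _ _).2 (fact3 gen hrel r ?_)
      rw [hs]
      linear_combination s * hu
  · refine ⟨Ideal.span {xu, xa}, by simp [F], Ideal.span_mono ?_, ⟨xb, lin_b, ?_⟩,
      Ideal.span {xu, xa, xb}, by simp [F], ?_⟩
    · intro x hx
      simp only [Set.mem_insert_iff, Set.mem_singleton_iff] at hx ⊢
      tauto
    · rw [← Ideal.span_union]; congr 1
      ext x
      simp only [Set.mem_insert_iff, Set.mem_singleton_iff, Set.mem_union]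
      tauto
    intro r
    constructor
    · intro hr z hz
      obtain ⟨p, q, v, rfl⟩ := (mem3 _ _ _ _).1 hr
      obtain ⟨p', q', v', rfl⟩ := (mem3 _ _ _ _).1 hz
      refine (mem2 _ _ _).2 ⟨p * (xu * p' + xa * q' + xb * v') + (xa * q + xb * v) * p',
        q * (xa * q' + xb * v') + xb * v * q', ?_⟩
      linear_combination v * v' * hb
    · intro hr
      have h1 := hr xb (Ideal.subset_span (by simp))
      obtain ⟨s, s', hs⟩ := (mem2 _ _ _).1 h1
      refine (mem3 _ _ _ _).2 (fact4 gen hrel r ?_)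
      rw [hs]
      linear_combination s * xa * hu + s' * (xa + xb + xc) * ha
  · refine ⟨Ideal.span {xu, xa, xb}, by simp [F], Ideal.span_mono ?_, ⟨xc, lin_c, ?_⟩,
      Ideal.span {xu, xa, xb, xc}, by simp [F], ?_⟩
    · intro x hx
      simp only [Set.mem_insert_iff, Set.mem_singleton_iff] at hx ⊢
      tauto
    · rw [← Ideal.span_union]; congr 1
      ext x
      simp only [Set.mem_insert_iff, Set.mem_singleton_iff, Set.mem_union]
      tauto
    intro r
    constructor
    · intro hr z hz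
      obtain ⟨p, q, v, w, rfl⟩ := (mem4 _ _ _ _ _).1 hr
      obtain ⟨p', q', v', w', rfl⟩ := (mem4 _ _ _ _ _).1 hz
      refine (mem3 _ _ _ _).2 ⟨p * (xu * p' + xa * q' + xb * v' + xc * w') +
          (xa * q + xb * v + xc * w) * p' - w * w' * xu,
        q * (xa * q' + xb * v' + xc * w') + (xb * v + xc * w) * q',
        v * (xb * v' + xc * w') + xc * w * v', ?_⟩
      linear_combination w * w' * hc
    · intro hr
      have h1 := hr xc (Ideal.subset_span (by simp))
      obtain ⟨s, s', s'', hs⟩ := (mem3 _ _ _ _).1 h1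
      refine (mem4 _ _ _ _ _).2 (fact5 gen hrel r ?_)
      rw [hs]
      linear_combination s * xa * xb * hu + s' * xb * (xa + xb + xc) * ha +
        s'' * xa * (xa + xb + xc) * hb

end Pool.Agent.H10.K382
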