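import Pool.Agent.H10.K382b

set_option autoImplicit false

open MvPolynomial

namespace Pool.Agent.H10.K382

theorem comp_mul (Y T : S) (d : ℕ) (hY : Y.IsHomogeneous d) :
    homogeneousComponent d (Y * T) = Y * C (coeff 0 T) := by
  induction T using MvPolynomial.induction_on' with
  | monomial m q =>
    have h1 : (Y * monomial m q).IsHomogeneous (d + m.degree) :=
      hY.mul (isHomogeneous_monomial q rfl)
    rw [homogeneousComponent_of_mem h1]
    by_cases hm : m = 0
    · subst hm
      simp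
    · have h2 : m.degree ≠ 0 := by
        rw [Ne, Finsupp.degree_eq_zero_iff]
        exact hm
      rw [if_neg (by omega), coeff_monomial, if_neg hm, C_0, mul_zero]
  | add p q hp hq =>
    rw [mul_add, map_add, hp, hq, coeff_add, C_add, mul_add]

/-- degree two elements of `(y^2)` are scalar multiples of `y^2` -/
theorem deg2 (g : A) (hg : ∃ p : S, p.IsHomogeneous 2 ∧ Ideal.Quotient.mk J p = g)
    (hm : g ∈ Ideal.span {xy * xy}) : ∃ q : ℚ, g = φ q * (xy * xy) := by
  obtain ⟨p, hp, rfl⟩ := hg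
  obtain ⟨s, hs⟩ := (mem1 _ _).1 hm
  obtain ⟨T, rfl⟩ := Ideal.Quotient.mk_surjective s
  set Y : S := (X 0 + X 1 + X 2) * (X 0 + X 1 + X 2) with hYdef
  have hX : ∀ i : Fin 4, (X i : S).IsHomogeneous 1 := fun i => isHomogeneous_X ℚ i
  have hY : Y.IsHomogeneous 2 :=
    (((hX 0).add (hX 1)).add (hX 2)).mul (((hX 0).add (hX 1)).add (hX 2))
  have hYm : Ideal.Quotient.mk J Y = xy * xy := by
    simp [hYdef, xy, xa, xb, xc]
  have h1 : p - Y * T ∈ J := by
    rw [← Ideal.Quotient.eq_zero_iff_mem, map_sub, map_mul, hYm, hs, sub_self]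
  have h2 := J_hom _ h1 2
  rw [map_sub, homogeneousComponent_eq_self hp, comp_mul Y T 2 hY] at h2
  refine ⟨coeff 0 T, ?_⟩
  rw [← Ideal.Quotient.eq_zero_iff_mem, map_sub, map_mul, hYm, sub_eq_zero] at h2
  rw [h2, φ, RingHom.comp_apply, mul_comm]

theorem yy_ne : xy * xy ≠ 0 := by
  intro h0
  have h1 := facty rel
  change xy * xy * (xa * xb) = _ at h1
  rw [h0, zero_mul] at h1
  exact t_ne rel (neg_eq_zero.1 h1.symm)

theorem no_res (b : ℕ → ℕ) (g : Fin (b 0) → A)
    (M : (i : ℕ) → Matrix (Fin (b i)) (Fin (b (i + 1))) A)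
    (hg : ∀ j, ∃ p : S, p.IsHomogeneous 2 ∧ Ideal.Quotient.mk J p = g j)
    (hM : ∀ i a c, ∃ p : S, p.IsHomogeneous 1 ∧ Ideal.Quotient.mk J p = M i a c)
    (hs : Ideal.span (Set.range g) = Ideal.span {xy * xy})
    (h0 : ∀ v : Fin (b 0) → A, ∑ j, v j * g j = 0 ↔ ∃ w, (M 0).mulVec w = v) : False := by
  classical
  have hgs : ∀ j, ∃ q : ℚ, g j = φ q * (xy * xy) := by
    intro j
    apply deg2 (g j) (hg j)
    rw [← hs]
    exact Ideal.subset_span ⟨j, rfl⟩
  choose q hq using hgs
  have hne : ∃ j, q j ≠ 0 := by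
    by_contra hcon
    push Not at hcon
    have : Ideal.span (Set.range g) = ⊥ := by
      rw [eq_bot_iff, Ideal.span_le]
      rintro _ ⟨j, rfl⟩
      rw [hq j, hcon j, map_zero, zero_mul]
      exact Submodule.zero_mem _
    rw [this] at hs
    have h1 : xy * xy ∈ (⊥ : Ideal A) := by
      rw [hs]; exact Ideal.subset_span rfl
    exact yy_ne ((Submodule.mem_bot _).1 h1)
  obtain ⟨j0, hj0⟩ := hne
  -- the kernel element
  set Q : A := xa * xb - xa * xc with hQ
  set v : Fin (b 0) → A := Pi.single j0 (Q * φ (q j0)⁻¹) with hv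
  have hφ : φ (q j0)⁻¹ * φ (q j0) = 1 := by
    rw [← map_mul, inv_mul_cancel₀ hj0, map_one]
  have hker : ∑ j, v j * g j = 0 := by
    rw [Finset.sum_eq_single j0]
    · rw [hv, Pi.single_eq_same, hq j0]
      have h1 : Q * (xy * xy) = 0 := factqq rel
      linear_combination (φ (q j0)⁻¹ * φ (q j0)) * h1
    · intro j _ hj
      rw [hv, Pi.single_eq_of_ne hj, zero_mul]
    · intro h; exact absurd (Finset.mem_univ _) h
  obtain ⟨w, hw⟩ := (h0 v).1 hker
  -- the linear forms
  set l : Fin (b 1) → A := fun c => ∑ j, φ (q j) * M 0 j c with hl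
  have hlin : ∀ c, Lin (l c) := fun c => lin_sum _ _ fun j _ => lin_smul _ (hM 0 j c)
  have hly : ∀ c, l c * (xa + xb + xc) * (xa + xb + xc) = 0 := by
    intro c
    have h1 : ∑ j, M 0 j c * g j = 0 := by
      have h2 := (h0 ((M 0).mulVec (Pi.single c 1))).2 ⟨_, rfl⟩
      simpa [Matrix.mulVec_single_one] using h2
    calc l c * (xa + xb + xc) * (xa + xb + xc) = ∑ j, M 0 j c * g j := by
          rw [hl, Finset.sum_mul, Finset.sum_mul]
          apply Finset.sum_congr rfl
          intro j _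
          rw [hq j, xy]
          ring
      _ = 0 := h1
  have hlu : ∀ c, ∃ s, l c = xu * s := by
    intro c
    obtain ⟨c0, c1, c2, c3, h1⟩ := lin_form _ (hlin c)
    have h2 := hly c
    rw [h1] at h2
    rw [h1]
    exact ⟨_, factl rel c0 c1 c2 c3 h2⟩
  choose s hs' using hlu
  have hsum : Q = ∑ j, φ (q j) * v j := by
    rw [Finset.sum_eq_single j0]
    · rw [hv, Pi.single_eq_same]
      linear_combination (-Q) * hφ
    · intro j _ hj
      rw [hv, Pi.single_eq_of_ne hj, mul_zero]
    · intro h; exact absurd (Finset.mem_univ _) h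
  have hQu : Q = xu * ∑ c, s c * w c := by
    rw [hsum, ← hw]
    simp only [Matrix.mulVec, dotProduct, Finset.mul_sum]
    rw [Finset.sum_comm]
    apply Finset.sum_congr rfl
    intro c _
    have h3 : l c * w c = xu * (s c * w c) := by rw [hs' c, mul_assoc]
    rw [← h3, hl, Finset.sum_mul]
    apply Finset.sum_congr rfl
    intro j _
    rw [mul_assoc]
  have h4 : Q * (xa + xb + xc) = xa * xu * xu := factq rel
  have h5 := rel.hu
  have h6 : xa * xb * xu * xu = 0 := by
    have : xa * xb * xu * xu = xb * (Q * (xa + xb + xc)) := by rw [h4]; ring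
    rw [this, hQu]
    linear_combination (xb * ∑ c, s c * w c) * h5
  exact t_ne rel h6

end Pool.Agent.H10.K382
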