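import Mathlib

/-! Compactly generated prodiscrete compact-free abelian groups are discrete (S0531). -/

set_option autoImplicit false

open Filter Topology Set

namespace Pool.Agent.H10.PD

section Alg

variable {G : Type} [AddCommGroup G]

/-- saturation -/
def sat (M : AddSubgroup G) : AddSubgroup G where
  carrier := {x | ∃ n : ℕ, 0 < n ∧ n • x ∈ M}
  zero_mem' := ⟨1, one_pos, by simp⟩
  add_mem' := by
    rintro x y ⟨n, hn, hx⟩ ⟨m, hm, hy⟩
    refine ⟨n * m, mul_pos hn hm, ?_⟩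
    rw [smul_add]
    refine M.add_mem ?_ ?_
    · rw [mul_comm, mul_smul]; exact M.nsmul_mem hx m
    · rw [mul_smul]; exact M.nsmul_mem hy n
  neg_mem' := by
    rintro x ⟨n, hn, hx⟩
    refine ⟨n, hn, ?_⟩
    rw [smul_neg]
    exact M.neg_mem hx

theorem mem_sat (M : AddSubgroup G) (x : G) : x ∈ sat M ↔ ∃ n : ℕ, 0 < n ∧ n • x ∈ M := Iff.rfl

theorem le_sat (M : AddSubgroup G) : M ≤ sat M := fun x hx => ⟨1, one_pos, by simpa using hx⟩

theorem sat_mono {M N : AddSubgroup G} (h : M ≤ N) : sat M ≤ sat N := by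
  rintro x ⟨n, hn, hx⟩
  exact ⟨n, hn, h hx⟩

theorem sat_sat {M : AddSubgroup G} {x : G} {n : ℕ} (hn : 0 < n) (h : n • x ∈ sat M) :
    x ∈ sat M := by
  obtain ⟨m, hm, hx⟩ := h
  refine ⟨m * n, mul_pos hm hn, ?_⟩
  rw [mul_smul]
  exact hx

/-- the quotient by a saturated subgroup is torsion free -/
theorem tf_quot (M : AddSubgroup G) : Module.IsTorsionFree ℤ (G ⧸ sat M) := by
  apply Module.IsTorsionFree.of_smul_eq_zero
  intro r q h
  induction q using QuotientAddGroup.induction_on with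
  | H x =>
    by_cases hr : r = 0
    · exact Or.inl hr
    · right
      have h1 : ((r • x : G) : G ⧸ sat M) = 0 := h
      rw [QuotientAddGroup.eq_zero_iff] at h1 ⊢
      have h2 : r.natAbs • x ∈ sat M := by
        rcases Int.natAbs_eq r with h3 | h3
        · rw [h3, natCast_zsmul] at h1
          exact h1
        · rw [h3, neg_smul, natCast_zsmul] at h1
          simpa using (sat M).neg_mem h1
      exact sat_sat (Int.natAbs_pos.2 hr) h2

end Alg

variable {G : Type} [AddCommGroup G] [UniformSpace G] [IsUniformAddGroup G]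

theorem open_sat {M : AddSubgroup G} (h : IsOpen (M : Set G)) : IsOpen (sat M : Set G) :=
  AddSubgroup.isOpen_mono (le_sat M) h

/-- the quotient by an open subgroup is finitely generated -/
theorem fg_quot (K : Set G) (hK : IsCompact K) (hKg : AddSubgroup.closure K = ⊤)
    (M : AddSubgroup G) (hM : IsOpen (M : Set G)) : Module.Finite ℤ (G ⧸ M) := by
  have hd : DiscreteTopology (G ⧸ M) := QuotientAddGroup.discreteTopology hM
  have hfin : ((QuotientAddGroup.mk' M) '' K).Finite := by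
    have : IsCompact ((QuotientAddGroup.mk' M) '' K) := hK.image continuous_quot_mk
    exact this.finite_of_discrete
  rw [Module.Finite.iff_addGroup_fg, AddGroup.fg_iff]
  refine ⟨(QuotientAddGroup.mk' M) '' K, ?_, hfin⟩
  rw [← AddMonoidHom.map_closure, hKg, ← AddMonoidHom.range_eq_map]
  exact AddMonoidHom.range_eq_top.2 (QuotientAddGroup.mk'_surjective M)

theorem fin_sat (K : Set G) (hK : IsCompact K) (hKg : AddSubgroup.closure K = ⊤)
    (M : AddSubgroup G) (hM : IsOpen (M : Set G)) :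
    ∃ T : Set G, T.Finite ∧ ∀ x ∈ sat M, ∃ t ∈ T, x - t ∈ M := by
  have := fg_quot K hK hKg M hM
  have hfin : Finite (Submodule.torsion ℤ (G ⧸ M)) :=
    Module.finite_of_fg_torsion _ (Submodule.torsion_isTorsion)
  refine ⟨Set.range (fun q : Submodule.torsion ℤ (G ⧸ M) => (q : G ⧸ M).out),
    Set.finite_range _, ?_⟩
  rintro x ⟨n, hn, hx⟩
  have hq : ((x : G) : G ⧸ M) ∈ Submodule.torsion ℤ (G ⧸ M) := by
    rw [Submodule.mem_torsion_iff]
    refine ⟨⟨(n : ℤ), ?_⟩, ?_⟩
    · rw [mem_nonZeroDivisors_iff_ne_zero]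
      exact_mod_cast hn.ne'
    · change ((((n : ℤ) • x : G)) : G ⧸ M) = 0
      rw [QuotientAddGroup.eq_zero_iff, natCast_zsmul]
      exact hx
  refine ⟨_, ⟨⟨_, hq⟩, rfl⟩, ?_⟩
  have h1 : ((((x : G) : G ⧸ M).out : G) : G ⧸ M) = (x : G ⧸ M) := QuotientAddGroup.out_eq' _
  rw [← QuotientAddGroup.eq_zero_iff, QuotientAddGroup.mk_sub, h1, sub_self]

variable (hB : ∀ s ∈ 𝓝 (0 : G), ∃ U : AddSubgroup G, IsOpen (U : Set G) ∧ (U : Set G) ⊆ s)

include hB in
theorem cauchy_of (f : Filter G) [f.NeBot]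
    (h : ∀ M : AddSubgroup G, IsOpen (M : Set G) → ∃ t : G, {x | x - t ∈ M} ∈ f) : Cauchy f := by
  rw [cauchy_iff]
  refine ⟨inferInstance, ?_⟩
  intro s hs
  rw [uniformity_eq_comap_nhds_zero] at hs
  obtain ⟨t, ht, hts⟩ := hs
  obtain ⟨M, hM, hMt⟩ := hB t ht
  obtain ⟨c, hc⟩ := h M hM
  refine ⟨_, hc, ?_⟩
  rintro ⟨x, y⟩ ⟨hx, hy⟩
  apply hts
  apply hMt
  have : y - x = (y - c) - (x - c) := by abel
  change y - x ∈ M
  rw [this]
  exact M.sub_mem hy hx

variable [CompleteSpace G] (K : Set G) (hK : IsCompact K) (hKg : AddSubgroup.closure K = ⊤)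

include hB hK hKg in
theorem conv (f : Ultrafilter G)
    (h : ∀ M : AddSubgroup G, IsOpen (M : Set G) → (sat M : Set G) ∈ f) :
    ∃ g, (f : Filter G) ≤ 𝓝 g ∧ ∀ M : AddSubgroup G, IsOpen (M : Set G) → g ∈ sat M := by
  have hc : Cauchy (f : Filter G) := by
    apply cauchy_of hB
    intro M hM
    obtain ⟨T, hT, hTM⟩ := fin_sat K hK hKg M hM
    have h1 : (⋃ t ∈ T, {x | x - t ∈ M}) ∈ f := by
      apply Filter.mem_of_superset (h M hM)
      intro x hx
      obtain ⟨t, ht, hxt⟩ := hTM x hx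
      simp only [Set.mem_iUnion]
      exact ⟨t, ht, hxt⟩
    rw [Ultrafilter.finite_biUnion_mem_iff hT] at h1
    obtain ⟨t, -, ht⟩ := h1
    exact ⟨t, ht⟩
  obtain ⟨g, hg⟩ := CompleteSpace.complete hc
  refine ⟨g, hg, ?_⟩
  intro M hM
  have hcl : IsClosed (sat M : Set G) := AddSubgroup.isClosed_of_isOpen _ (open_sat hM)
  exact isClosed_iff_ultrafilter.1 hcl g f hg (h M hM)

variable (hC : ∀ H : AddSubgroup G, IsCompact (H : Set G) → H = ⊥)

include hB hK hKg hC in
theorem inter_sat (g : G) (hg : ∀ M : AddSubgroup G, IsOpen (M : Set G) → g ∈ sat M) : g = 0 := by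
  let H : AddSubgroup G := ⨅ M : {M : AddSubgroup G // IsOpen (M : Set G)}, sat M.1
  have hH : ∀ x, x ∈ H ↔ ∀ M : AddSubgroup G, IsOpen (M : Set G) → x ∈ sat M := by
    intro x
    simp only [H, AddSubgroup.mem_iInf, Subtype.forall]
  have hcomp : IsCompact (H : Set G) := by
    rw [isCompact_iff_ultrafilter_le_nhds']
    intro f hf
    obtain ⟨g, hg1, hg2⟩ := conv hB K hK hKg f (fun M hM => Filter.mem_of_superset hf
      fun x hx => (hH x).1 hx M hM)
    exact ⟨g, (hH g).2 hg2, hg1⟩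
  have := hC H hcomp
  have h1 : g ∈ H := (hH g).2 hg
  rw [this] at h1
  simpa using h1

include hB hK hKg hC in
theorem sat_basis (s : Set G) (hs : s ∈ 𝓝 (0 : G)) :
    ∃ M : AddSubgroup G, IsOpen (M : Set G) ∧ (sat M : Set G) ⊆ s := by
  by_contra hcon
  push Not at hcon
  have h1 : ∀ M : OpenAddSubgroup G, ∃ x, x ∈ sat (M : AddSubgroup G) ∧ x ∉ s := by
    intro M
    have := hcon (M : AddSubgroup G) M.isOpen
    rw [Set.not_subset] at this
    exact this
  choose x hx1 hx2 using h1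
  have : (atBot : Filter (OpenAddSubgroup G)).NeBot := atBot_neBot
  let f : Ultrafilter G := (Ultrafilter.of (atBot : Filter (OpenAddSubgroup G))).map x
  have hf : ∀ M : AddSubgroup G, IsOpen (M : Set G) → (sat M : Set G) ∈ f := by
    intro M hM
    have h2 : {M' : OpenAddSubgroup G | M' ≤ ⟨M, hM⟩} ∈ (atBot : Filter (OpenAddSubgroup G)) :=
      mem_atBot _
    have h3 := Ultrafilter.of_le (atBot : Filter (OpenAddSubgroup G)) h2
    change x ⁻¹' _ ∈ Ultrafilter.of _
    apply Filter.mem_of_superset h3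
    intro M' hM'
    exact sat_mono (M := (M' : AddSubgroup G)) (N := M) hM' (hx1 M')
  obtain ⟨g, hg1, hg2⟩ := conv hB K hK hKg f hf
  have hg0 := inter_sat hB K hK hKg hC g hg2
  rw [hg0] at hg1
  have h4 : s ∈ (f : Filter G) := hg1 hs
  have h5 : x ⁻¹' s ∈ (Ultrafilter.of (atBot : Filter (OpenAddSubgroup G)) : Filter _) := h4
  have h6 : x ⁻¹' s = ∅ := by
    ext M
    simp only [Set.mem_preimage, Set.mem_empty_iff_false, iff_false]
    exact hx2 M
  rw [h6] at h5
  exact Filter.empty_notMem _ h5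

end Pool.Agent.H10.PD
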