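import Pool.Agent.H10.PD

set_option autoImplicit false

open Filter Topology Set

namespace Pool.Agent.H10.PD

/-- unbounded solution of a triangular system -/
noncomputable def sseq (a : ℕ → ℕ → ℤ) (B : ℕ → ℤ) : ℕ → ℤ
  | n => |∑ m : Fin n, a n m * sseq a B m| + |B n| + 1
termination_by n => n
decreasing_by exact m.2

theorem sseq_spec (a : ℕ → ℕ → ℤ) (B : ℕ → ℤ) (ha : ∀ n, a n n ≠ 0) (n : ℕ) :
    B n < |∑ m ∈ Finset.range (n + 1), a n m * sseq a B m| := by
  rw [Finset.sum_range_succ]
  have h1 : sseq a B n = |∑ m ∈ Finset.range n, a n m * sseq a B m| + |B n| + 1 := by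
    rw [sseq, Finset.sum_range]
  set A := ∑ m ∈ Finset.range n, a n m * sseq a B m with hA
  have h2 : |a n n| ≥ 1 := Int.one_le_abs (ha n)
  have h3 : |a n n * sseq a B n| ≥ sseq a B n := by
    rw [abs_mul]
    have h5 : sseq a B n ≥ 0 := by rw [h1]; positivity
    rw [abs_of_nonneg h5]
    nlinarith
  have h4 : |a n n * sseq a B n| ≤ |A + a n n * sseq a B n| + |A| := by
    have := abs_sub (A + a n n * sseq a B n) A
    simpa using this
  have h6 := le_abs_self (B n)
  rw [h1] at h3
  rw [h1] at h4 ⊢
  linarith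

variable {G : Type} [AddCommGroup G] [UniformSpace G] [IsUniformAddGroup G]

/-- continuous integer valued homomorphisms -/
def Γ (G : Type) [AddCommGroup G] [UniformSpace G] : Submodule ℤ (G →+ ℤ) where
  carrier := {f | Continuous f}
  zero_mem' := continuous_const
  add_mem' := fun hf hg => hf.add hg
  smul_mem' := fun c _ hf => hf.const_smul c

/-- pull back of a functional on `G/M` -/
noncomputable def pull (M : AddSubgroup G) (hM : IsOpen (M : Set G)) :
    Module.Dual ℤ (G ⧸ M) →ₗ[ℤ] Γ G where
  toFun h := ⟨h.toAddMonoidHom.comp (QuotientAddGroup.mk' M), by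
    have hd : DiscreteTopology (G ⧸ M) := QuotientAddGroup.discreteTopology hM
    change Continuous (fun x => h (QuotientAddGroup.mk' M x))
    exact (continuous_of_discreteTopology (f := fun q : G ⧸ M => h q)).comp continuous_quot_mk⟩
  map_add' := fun _ _ => rfl
  map_smul' := fun _ _ => rfl

theorem pull_apply (M : AddSubgroup G) (hM : IsOpen (M : Set G)) (h : Module.Dual ℤ (G ⧸ M))
    (x : G) : (pull M hM h).1 x = h (x : G ⧸ M) := rfl

/-- the push forward -/
theorem exists_pull (M : AddSubgroup G) (hM : IsOpen (M : Set G)) (f : Γ G)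
    (hf : ∀ x ∈ M, f.1 x = 0) : ∃ h, pull M hM h = f := by
  refine ⟨(QuotientAddGroup.lift M f.1 hf).toIntLinearMap, ?_⟩
  apply Subtype.ext
  apply AddMonoidHom.ext
  intro x
  rfl

variable [CompleteSpace G]
variable (hB : ∀ s ∈ 𝓝 (0 : G), ∃ U : AddSubgroup G, IsOpen (U : Set G) ∧ (U : Set G) ⊆ s)
variable (K : Set G) (hK : IsCompact K) (hKg : AddSubgroup.closure K = ⊤)
variable (hC : ∀ H : AddSubgroup G, IsCompact (H : Set G) → H = ⊥)

include hK hKg in
/-- functionals separate points of `G / sat M` -/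
theorem sep_quot (M : AddSubgroup G) (hM : IsOpen (M : Set G)) (x : G)
    (h : ∀ f : Γ G, (∀ y ∈ sat M, f.1 y = 0) → f.1 x = 0) : x ∈ sat M := by
  have := fg_quot K hK hKg (sat M) (open_sat hM)
  have := tf_quot M
  rw [← QuotientAddGroup.eq_zero_iff, ← Module.forall_dual_apply_eq_zero_iff ℤ]
  intro φ
  have h1 := h (pull (sat M) (open_sat hM) φ) (by
    intro y hy
    rw [pull_apply, (QuotientAddGroup.eq_zero_iff y).2 hy, map_zero])
  rw [pull_apply] at h1
  exact h1

include hK hKg in
/-- finite level duality -/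
theorem dual_quot (φ : Γ G →ₗ[ℤ] ℤ) (M : AddSubgroup G) (hM : IsOpen (M : Set G)) :
    ∃ g : G, ∀ f : Γ G, (∀ y ∈ sat M, f.1 y = 0) → f.1 g = φ f := by
  have := fg_quot K hK hKg (sat M) (open_sat hM)
  have := tf_quot M
  obtain ⟨q, hq⟩ := (Module.bijective_dual_eval ℤ (G ⧸ sat M)).2
    (φ.comp (pull (sat M) (open_sat hM)))
  obtain ⟨g, rfl⟩ := QuotientAddGroup.mk_surjective q
  refine ⟨g, ?_⟩
  intro f hf
  obtain ⟨h, rfl⟩ := exists_pull (sat M) (open_sat hM) f hf
  have h1 := LinearMap.congr_fun hq h
  rw [pull_apply]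
  exact h1

include hB hK hKg hC in
theorem duality (φ : Γ G →ₗ[ℤ] ℤ) : ∃ g : G, ∀ f : Γ G, f.1 g = φ f := by
  have h1 := fun M : OpenAddSubgroup G => dual_quot K hK hKg φ (M : AddSubgroup G) M.isOpen
  choose g hg using h1
  have : (atBot : Filter (OpenAddSubgroup G)).NeBot := atBot_neBot
  have hdiff : ∀ M M' : OpenAddSubgroup G, M' ≤ M → g M' - g M ∈ sat (M : AddSubgroup G) := by
    intro M M' hMM
    apply sep_quot K hK hKg _ M.isOpen
    intro f hf
    rw [map_sub, hg M f hf, hg M' f (fun y hy => hf y (sat_mono (M := (M' : AddSubgroup G))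
      (N := (M : AddSubgroup G)) hMM hy)), sub_self]
  have hc : Cauchy (Filter.map g atBot) := by
    apply cauchy_of hB
    intro N hN
    obtain ⟨M, hM, hMN⟩ := sat_basis hB K hK hKg hC (N : Set G) (hN.mem_nhds N.zero_mem)
    refine ⟨g ⟨M, hM⟩, ?_⟩
    rw [Filter.mem_map]
    apply Filter.mem_of_superset (mem_atBot (⟨M, hM⟩ : OpenAddSubgroup G))
    intro M' hM'
    exact hMN (hdiff ⟨M, hM⟩ M' hM')
  obtain ⟨g0, hg0⟩ := CompleteSpace.complete hc
  refine ⟨g0, ?_⟩
  intro f
  have hker : IsOpen ((f.1.ker : AddSubgroup G) : Set G) := by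
    have : ((f.1.ker : AddSubgroup G) : Set G) = f.1 ⁻¹' {0} := by
      ext x; simp [AddMonoidHom.mem_ker]
    rw [this]
    exact (isOpen_discrete _).preimage f.2
  have h2 : Tendsto (fun M => f.1 (g M)) atBot (𝓝 (f.1 g0)) :=
    ((show Continuous f.1 from f.2).tendsto g0).comp hg0
  have h3 : ∀ᶠ M in (atBot : Filter (OpenAddSubgroup G)), f.1 (g M) = φ f := by
    apply Filter.mem_of_superset (mem_atBot (⟨f.1.ker, hker⟩ : OpenAddSubgroup G))
    intro M hM
    apply hg M f
    rintro y ⟨n, hn, hy⟩
    have h4 : n • y ∈ f.1.ker := hM hy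
    rw [AddMonoidHom.mem_ker, map_nsmul, smul_eq_zero] at h4
    rcases h4 with h4 | h4
    · omega
    · exact h4
  have h4 : Tendsto (fun M => f.1 (g M)) atBot (𝓝 (φ f)) :=
    (tendsto_congr' h3).2 tendsto_const_nhds
  exact tendsto_nhds_unique h2 h4

variable [T2Space G]

include hB hK hKg hC in
theorem sep (x : G) (h : ∀ f : Γ G, f.1 x = 0) : x = 0 := by
  by_contra hne
  obtain ⟨u, v, hu, hv, hxu, h0v, huv⟩ := t2_separation hne
  obtain ⟨M, hM, hMv⟩ := sat_basis hB K hK hKg hC v (hv.mem_nhds h0v)
  have h1 : x ∈ sat M := sep_quot K hK hKg M hM x (fun f _ => h f)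
  exact Set.disjoint_left.1 huv hxu (hMv h1)

include hK in
theorem bound (f : Γ G) : ∃ c : ℤ, ∀ k ∈ K, |f.1 k| ≤ c := by
  have h1 : (f.1 '' K).Finite := (hK.image f.2).finite_of_discrete
  obtain ⟨c, hc⟩ := (h1.image abs).bddAbove
  exact ⟨c, fun k hk => hc ⟨_, ⟨k, hk, rfl⟩, rfl⟩⟩

include hKg in
theorem growth (g : G) : ∃ N : ℕ, ∀ (f : Γ G) (c : ℤ), (∀ k ∈ K, |f.1 k| ≤ c) → 0 ≤ c →
    |f.1 g| ≤ N * c := by
  have hg : g ∈ AddSubgroup.closure K := by rw [hKg]; trivial
  induction hg using AddSubgroup.closure_induction with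
  | mem x hx => exact ⟨1, fun f c hc _ => by simpa using hc x hx⟩
  | zero => exact ⟨0, fun f c _ _ => by simp⟩
  | add x y _ _ hx hy =>
    obtain ⟨N, hN⟩ := hx
    obtain ⟨N', hN'⟩ := hy
    refine ⟨N + N', fun f c hc h0 => ?_⟩
    rw [map_add]
    push_cast
    have := abs_add_le (f.1 x) (f.1 y)
    have h1 := hN f c hc h0
    have h2 := hN' f c hc h0
    nlinarith
  | neg x _ hx =>
    obtain ⟨N, hN⟩ := hx
    refine ⟨N, fun f c hc h0 => ?_⟩
    rw [map_neg, abs_neg]
    exact hN f c hc h0

/-- restriction to `K` -/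
def res : Γ G →ₗ[ℤ] LocallyConstant K ℤ where
  toFun f := ⟨fun k => f.1 k, (IsLocallyConstant.iff_continuous _).2
    ((show Continuous f.1 from f.2).comp continuous_subtype_val)⟩
  map_add' := fun _ _ => rfl
  map_smul' := fun _ _ => rfl

include hKg in
theorem res_inj : Function.Injective (res K : Γ G →ₗ[ℤ] LocallyConstant K ℤ) := by
  rw [← LinearMap.ker_eq_bot, LinearMap.ker_eq_bot']
  intro f hf
  apply Subtype.ext
  have h1 : AddSubgroup.closure K ≤ f.1.ker := by
    rw [AddSubgroup.closure_le]
    intro k hk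
    have := congrArg (fun l : LocallyConstant K ℤ => l ⟨k, hk⟩) hf
    exact this
  apply AddMonoidHom.ext
  intro x
  have : x ∈ AddSubgroup.closure K := by rw [hKg]; trivial
  exact h1 this

include hB hK in
theorem free_lc : Module.Free ℤ (LocallyConstant K ℤ) := by
  have : NonarchimedeanAddGroup G := by
    refine { is_nonarchimedean := ?_ }
    intro s hs
    obtain ⟨U, hU, hUs⟩ := hB s hs
    exact ⟨⟨U, hU⟩, hUs⟩
  have : CompactSpace K := isCompact_iff_compactSpace.1 hK
  exact LocallyConstant.freeOfProfinite (Profinite.of K)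

include hB hK hKg hC in
theorem fin_gamma : Module.Finite ℤ (Γ G) := by
  have hfree := free_lc hB K hK
  let e := Module.Free.chooseBasis ℤ (LocallyConstant K ℤ)
  by_cases hA : ∃ J0 : Finset (Module.Free.ChooseBasisIndex ℤ (LocallyConstant K ℤ)),
      ∀ f : Γ G, ∀ j ∉ J0, e.repr (res K f) j = 0
  · obtain ⟨J0, hJ⟩ := hA
    let r : Γ G →ₗ[ℤ] (J0 → ℤ) :=
      { toFun := fun f j => e.repr (res K f) j
        map_add' := fun f f' => by funext j; simp
        map_smul' := fun c f => by funext j; rw [map_smul, map_smul]; rfl }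
    apply Module.Finite.of_injective r
    rw [← LinearMap.ker_eq_bot, LinearMap.ker_eq_bot']
    intro f hf
    apply res_inj K hKg
    rw [map_zero]
    apply e.repr.injective
    rw [map_zero]
    ext j
    by_cases hj : j ∈ J0
    · exact congrFun hf ⟨j, hj⟩
    · exact hJ f j hj
  · exfalso
    push Not at hA
    classical
    obtain ⟨F, hF1, hF2⟩ := exists_seq_of_forall_finset_exists
      (fun p : Γ G × Module.Free.ChooseBasisIndex ℤ (LocallyConstant K ℤ) =>
        e.repr (res K p.1) p.2 ≠ 0)
      (fun p q => e.repr (res K p.1) q.2 = 0) (by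
        intro s _
        obtain ⟨f, j, hj, hne⟩ := hA (s.biUnion fun p => (e.repr (res K p.1)).support)
        refine ⟨(f, j), hne, ?_⟩
        intro p hp
        by_contra hcon
        apply hj
        rw [Finset.mem_biUnion]
        exact ⟨p, hp, Finsupp.mem_support_iff.2 hcon⟩)
    have hbd := fun n => bound K hK (F n).1
    choose c hc using hbd
    set a : ℕ → ℕ → ℤ := fun n m => e.repr (res K (F n).1) (F m).2 with ha
    set B : ℕ → ℤ := fun n => n * |c n| with hBdef
    have hs := sseq_spec a B hF1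
    set s := sseq a B with hsdef
    have hinj : Function.Injective (fun n => (F n).2) := by
      intro m n hmn
      rcases lt_trichotomy m n with h | h | h
      · exfalso
        have h1 := hF2 m n h
        simp only at hmn h1
        rw [← hmn] at h1
        exact hF1 m h1
      · exact h
      · exfalso
        have h1 := hF2 n m h
        simp only at hmn h1
        rw [hmn] at h1
        exact hF1 n h1
    set ψ := Function.extend (fun n => (F n).2) s 0 with hψ
    let φ : Γ G →ₗ[ℤ] ℤ := (e.constr ℤ ψ).comp (res K)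
    obtain ⟨g, hg⟩ := duality hB K hK hKg hC φ
    obtain ⟨N, hN⟩ := growth K hKg g
    have hval : ∀ n, φ (F n).1 = ∑ m ∈ Finset.range (n + 1), a n m * s m := by
      intro n
      change e.constr ℤ ψ (res K (F n).1) = _
      rw [Module.Basis.constr_apply, Finsupp.sum]
      have hI : ∑ m ∈ Finset.range (n + 1), a n m * s m =
          ∑ j ∈ (Finset.range (n + 1)).image (fun n => (F n).2),
            e.repr (res K (F n).1) j • ψ j := by
        rw [Finset.sum_image (fun x _ y _ h => hinj h)]
        apply Finset.sum_congr rfl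
        intro m _
        rw [hψ, hinj.extend_apply, smul_eq_mul]
      rw [hI]
      set I := (Finset.range (n + 1)).image (fun n => (F n).2) with hIdef
      have q1 : ∑ j ∈ (e.repr (res K (F n).1)).support, e.repr (res K (F n).1) j • ψ j =
          ∑ j ∈ (e.repr (res K (F n).1)).support ∪ I, e.repr (res K (F n).1) j • ψ j := by
        apply Finset.sum_subset Finset.subset_union_left
        intro j _ hjI
        rw [Finsupp.notMem_support_iff.1 hjI, zero_smul]
      have q2 : ∑ j ∈ I, e.repr (res K (F n).1) j • ψ j =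
          ∑ j ∈ (e.repr (res K (F n).1)).support ∪ I, e.repr (res K (F n).1) j • ψ j := by
        apply Finset.sum_subset Finset.subset_union_right
        intro j _ hjI
        by_cases hex : ∃ m, (F m).2 = j
        · obtain ⟨m, rfl⟩ := hex
          have hmn : n < m := by
            by_contra hle
            apply hjI
            rw [hIdef, Finset.mem_image]
            exact ⟨m, Finset.mem_range.2 (by omega), rfl⟩
          rw [hF2 n m hmn, zero_smul]
        · rw [hψ, Function.extend_apply' _ _ _ hex]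
          exact smul_zero _
      rw [q1, q2]
    have h1 := hN (F N).1 |c N| (fun k hk => (hc N k hk).trans (le_abs_self _)) (abs_nonneg _)
    rw [hg, hval] at h1
    have h2 := hs N
    simp only [hBdef] at h2
    omega

include hB hK hKg hC in
theorem disc : DiscreteTopology G := by
  have hfin := fin_gamma hB K hK hKg hC
  obtain ⟨S, hS⟩ := hfin.fg_top
  apply discreteTopology_of_isOpen_singleton_zero
  have h1 : ({0} : Set G) = ⋂ f ∈ S, {x | f.1 x = 0} := by
    ext x
    simp only [Set.mem_singleton_iff, Set.mem_iInter, Set.mem_ofPred_eq]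
    constructor
    · rintro rfl f _
      exact map_zero _
    · intro h
      apply sep hB K hK hKg hC
      intro f
      have hf : f ∈ Submodule.span ℤ (S : Set (Γ G)) := by rw [hS]; trivial
      induction hf using Submodule.span_induction with
      | mem f hf => exact h f hf
      | zero => rfl
      | add f f' _ _ hf hf' =>
        change f.1 x + f'.1 x = 0
        rw [hf, hf', add_zero]
      | smul c f _ hf =>
        change c • f.1 x = 0
        rw [hf, smul_zero]
  rw [h1]
  apply isOpen_biInter_finset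
  intro f _
  exact (isOpen_discrete ({0} : Set ℤ)).preimage f.2

include hB hK hKg hC in
theorem main : DiscreteTopology G ∧ ∃ n : ℕ, Nonempty (G ≃+ (Fin n → ℤ)) := by
  have hd := disc hB K hK hKg hC
  refine ⟨hd, ?_⟩
  have hfg : Module.Finite ℤ G := by
    rw [Module.Finite.iff_addGroup_fg, AddGroup.fg_iff]
    exact ⟨K, hKg, hK.finite_of_discrete⟩
  have htf : Module.IsTorsionFree ℤ G := by
    apply Module.IsTorsionFree.of_smul_eq_zero
    intro r x h
    by_cases hr : r = 0
    · exact Or.inl hr
    · right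
      have h1 : IsOfFinAddOrder x := by
        rw [isOfFinAddOrder_iff_zsmul_eq_zero]
        exact ⟨r, hr, h⟩
      have h2 : (AddSubgroup.zmultiples x : Set G).Finite := h1.finite_zmultiples
      have h3 := hC _ h2.isCompact
      simpa using h3
  let e := Module.Free.chooseBasis ℤ G
  exact ⟨Module.finrank ℤ G, ⟨(Module.finBasis ℤ G).equivFun.toAddEquiv⟩⟩

end Pool.Agent.H10.PD
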