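import Pool.Agent.H10.QhDefs

set_option autoImplicit false

open MvPolynomial

namespace Pool.Agent.H10.Qh

/-- the map of points attached to an algebra homomorphism -/
noncomputable def phi (b : Poly →ₐ[ℂ] Poly) (v : C3) : C3 := fun i => eval v (b (X i))

theorem eval_phi (b : Poly →ₐ[ℂ] Poly) (v : C3) (f : Poly) : eval v (b f) = eval (phi b v) f := by
  have : ((aeval v : Poly →ₐ[ℂ] ℂ).comp b) = aeval (phi b v) := by
    apply MvPolynomial.algHom_ext
    intro i
    simp [phi, aeval_eq_eval]
  have h := congrArg (fun g => g f) this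
  simpa [aeval_eq_eval] using h

theorem phi_phi (b c : Poly →ₐ[ℂ] Poly) (h : ∀ f, b (c f) = f) (v : C3) : phi c (phi b v) = v := by
  funext i
  show eval (phi b v) (c (X i)) = v i
  rw [← eval_phi, h, eval_X]

/-- the chain rule -/
theorem chain (b : Poly →ₐ[ℂ] Poly) (i : Fin 3) (g : Poly) :
    pderiv i (b g) = ∑ j, b (pderiv j g) * pderiv i (b (X j)) := by
  induction g using MvPolynomial.induction_on with
  | C a =>
    have : b (C a) = C a := by
      rw [← algebraMap_eq, b.commutes]
    simp [this]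
  | add p q hp hq => simp [hp, hq, add_mul, Finset.sum_add_distrib]
  | mul_X p n hp =>
    rw [map_mul, Derivation.leibniz, hp]
    simp only [Derivation.leibniz, map_add, smul_eq_mul, map_mul, add_mul, Finset.sum_add_distrib]
    congr 1
    · rw [Finset.sum_eq_single n]
      · simp
      · intro j _ hj
        rw [pderiv_X_of_ne hj.symm]
        simp
      · simp
    · rw [Finset.mul_sum]
      refine Finset.sum_congr rfl fun j _ => ?_
      ring

/-- the chain rule along a polynomial curve -/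
theorem chain_curve (c : Fin 3 → Polynomial ℂ) (g : Poly) :
    Polynomial.derivative (aeval c g) = ∑ j, aeval c (pderiv j g) * Polynomial.derivative (c j) := by
  induction g using MvPolynomial.induction_on with
  | C a =>
    rw [aeval_C]
    simp [Polynomial.algebraMap_eq]
  | add p q hp hq => simp [hp, hq, add_mul, Finset.sum_add_distrib]
  | mul_X p n hp =>
    rw [map_mul, Polynomial.derivative_mul, hp, aeval_X]
    simp only [Derivation.leibniz, map_add, smul_eq_mul, map_mul, add_mul, Finset.sum_add_distrib]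
    rw [add_comm]
    congr 1
    · rw [Finset.sum_eq_single n]
      · simp
      · intro j _ hj
        rw [pderiv_X_of_ne hj.symm]
        simp
      · simp
    · rw [Finset.sum_mul]
      refine Finset.sum_congr rfl fun j _ => ?_
      rw [aeval_X]
      ring

theorem eval_aeval (c : Fin 3 → Polynomial ℂ) (g : Poly) (m : ℂ) :
    Polynomial.eval m (aeval c g) = eval (fun i => Polynomial.eval m (c i)) g := by
  have : ((Polynomial.aeval m : Polynomial ℂ →ₐ[ℂ] ℂ).comp (aeval c)) =
      aeval (fun i => Polynomial.eval m (c i)) := by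
    apply MvPolynomial.algHom_ext
    intro i
    simp [Polynomial.coe_aeval_eq_eval]
  have h := congrArg (fun f => f g) this
  simpa [aeval_eq_eval, Polynomial.coe_aeval_eq_eval] using h

/-- a polynomial vanishing on a polynomial curve has zero derivative along it -/
theorem curve_deriv (S : Set C3) (c : Fin 3 → Polynomial ℂ)
    (hc : ∀ m, (fun i => Polynomial.eval m (c i)) ∈ S) (f : Poly) (hf : ∀ x ∈ S, eval x f = 0)
    (m : ℂ) : ∑ j, eval (fun i => Polynomial.eval m (c i)) (pderiv j f) *
      Polynomial.eval m (Polynomial.derivative (c j)) = 0 := by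
  have h0 : aeval c f = 0 := by
    apply Polynomial.funext
    intro m
    rw [eval_aeval, hf _ (hc m), Polynomial.eval_zero]
  have h1 := chain_curve c f
  rw [h0, Polynomial.derivative_zero] at h1
  have h2 := congrArg (Polynomial.eval m) h1.symm
  rw [Polynomial.eval_finsetSum] at h2
  simpa [eval_aeval] using h2

theorem sing_map (b : Poly ≃ₐ[ℂ] Poly) (A B : Set C3)
    (h : ∀ v, v ∈ B ↔ phi b.toAlgHom v ∈ A) (v : C3) (hv : v ∈ singLocus B) :
    phi b.toAlgHom v ∈ singLocus A := by
  refine ⟨(h v).1 hv.1, ?_⟩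
  intro f hf i
  have h1 : ∀ x ∈ B, eval x (b f) = 0 := by
    intro x hx
    have := eval_phi b.toAlgHom x f
    rw [hf _ ((h x).1 hx)] at this
    exact this
  have h2 := hv.2 (b f) h1
  have h3 : f = b.symm.toAlgHom (b f) := by simp
  rw [h3, chain, map_sum]
  refine Finset.sum_eq_zero fun j _ => ?_
  rw [map_mul, eval_phi, phi_phi b.toAlgHom b.symm.toAlgHom (by simp), h2 j, zero_mul]

/-- the polynomial `z² - x y (y - 1)` -/
noncomputable def p0 : Poly := X 2 ^ 2 - X 0 * X 1 * (X 1 - 1)

theorem mem_Z (v : C3) : v ∈ Z p0 ↔ v 2 ^ 2 - v 0 * v 1 * (v 1 - 1) = 0 := by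
  simp [Z, p0]

theorem sing_sub (v : C3) (hv : v ∈ singLocus (Z p0)) : v = ![0, 0, 0] ∨ v = ![0, 1, 0] := by
  have h := hv.2 p0 (fun x hx => hx)
  have h0 := h 0
  have h1 := h 1
  have h2 := h 2
  simp [p0, Derivation.leibniz, Derivation.leibniz_pow] at h0 h1 h2
  rcases h0 with h0 | h0
  · right
    have h0' : v 1 = 1 := by linear_combination h0
    have h3 : v 0 = 0 := by
      rw [h0'] at h1
      linear_combination -h1
    funext i
    fin_cases i
    · simpa using h3
    · simpa using h0'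
    · simpa using h2
  · left
    have h3 : v 0 = 0 := by
      rw [h0] at h1
      linear_combination h1
    funext i
    fin_cases i
    · simpa using h3
    · simpa using h0
    · simpa using h2

/-- the two singular points -/
theorem sing_zero : (![0, 0, 0] : C3) ∈ singLocus (Z p0) := by
  refine ⟨by rw [mem_Z]; simp, ?_⟩
  intro f hf
  have c1 := curve_deriv (Z p0) ![Polynomial.X, 0, 0] (by intro m; rw [mem_Z]; simp) f hf 0
  have c2 := curve_deriv (Z p0) ![0, Polynomial.X, 0] (by intro m; rw [mem_Z]; simp) f hf 0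
  have c3 := curve_deriv (Z p0) ![-(1 - Polynomial.X ^ 2), 1 - Polynomial.X ^ 2,
    Polynomial.X * (1 - Polynomial.X ^ 2)] (by intro m; rw [mem_Z]; simp; ring) f hf 1
  have e1 : (fun i => Polynomial.eval 0 ((![Polynomial.X, 0, 0] : Fin 3 → Polynomial ℂ) i)) =
      ![0, 0, 0] := by
    funext i; fin_cases i <;> simp
  have e2 : (fun i => Polynomial.eval 0 ((![0, Polynomial.X, 0] : Fin 3 → Polynomial ℂ) i)) =
      ![0, 0, 0] := by
    funext i; fin_cases i <;> simp
  have e3 : (fun i => Polynomial.eval 1 ((![-(1 - Polynomial.X ^ 2), 1 - Polynomial.X ^ 2,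
    Polynomial.X * (1 - Polynomial.X ^ 2)] : Fin 3 → Polynomial ℂ) i)) = ![0, 0, 0] := by
    funext i; fin_cases i <;> simp
  rw [e1] at c1
  rw [e2] at c2
  rw [e3] at c3
  simp [Fin.sum_univ_three] at c1 c2 c3
  rw [c1, c2] at c3
  simp at c3
  intro i
  fin_cases i
  · exact c1
  · exact c2
  · simpa using c3

theorem sing_one : (![0, 1, 0] : C3) ∈ singLocus (Z p0) := by
  refine ⟨by rw [mem_Z]; simp, ?_⟩
  intro f hf
  have c1 := curve_deriv (Z p0) ![Polynomial.X, 1, 0] (by intro m; rw [mem_Z]; simp) f hf 0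
  have c2 := curve_deriv (Z p0) ![0, Polynomial.X, 0] (by intro m; rw [mem_Z]; simp) f hf 1
  have c3 := curve_deriv (Z p0) ![-(1 - Polynomial.X ^ 2), Polynomial.X ^ 2,
    Polynomial.X * (1 - Polynomial.X ^ 2)] (by intro m; rw [mem_Z]; simp; ring) f hf 1
  have e1 : (fun i => Polynomial.eval 0 ((![Polynomial.X, 1, 0] : Fin 3 → Polynomial ℂ) i)) =
      ![0, 1, 0] := by
    funext i; fin_cases i <;> simp
  have e2 : (fun i => Polynomial.eval 1 ((![0, Polynomial.X, 0] : Fin 3 → Polynomial ℂ) i)) =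
      ![0, 1, 0] := by
    funext i; fin_cases i <;> simp
  have e3 : (fun i => Polynomial.eval 1 ((![-(1 - Polynomial.X ^ 2), Polynomial.X ^ 2,
    Polynomial.X * (1 - Polynomial.X ^ 2)] : Fin 3 → Polynomial ℂ) i)) = ![0, 1, 0] := by
    funext i; fin_cases i <;> simp
  rw [e1] at c1
  rw [e2] at c2
  rw [e3] at c3
  simp [Fin.sum_univ_three] at c1 c2 c3
  rw [c1, c2] at c3
  simp at c3
  intro i
  fin_cases i
  · exact c1
  · exact c2
  · simpa using c3

theorem singLocus_eq : singLocus (Z p0) = {![0, 0, 0], ![0, 1, 0]} := by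
  ext v
  constructor
  · intro hv
    exact sing_sub v hv
  · rintro (rfl | rfl)
    · exact sing_zero
    · exact sing_one

theorem isolated (v : C3) (hv : v ∈ singLocus (Z p0)) : IsIsolatedSing (Z p0) v := by
  have hfin : (singLocus (Z p0)).Finite := by rw [singLocus_eq]; exact Set.toFinite _
  refine ⟨hv, (singLocus (Z p0) \ {v})ᶜ, (hfin.subset Set.sdiff_subset).isClosed.isOpen_compl,
    by simp, ?_⟩
  ext x
  constructor
  · rintro ⟨h1, h2⟩
    by_contra hx
    exact h1 ⟨h2, hx⟩
  · rintro rfl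
    exact ⟨by simp, hv⟩

/-- contraction of the surface to the line `x = z = 0` -/
noncomputable def toLine : C(Z p0, ℂ) :=
  ⟨fun v => v.1 1, (continuous_apply 1).comp continuous_subtype_val⟩

noncomputable def ofLine : C(ℂ, Z p0) :=
  ⟨fun y => ⟨![0, y, 0], by rw [mem_Z]; simp⟩, by
    refine Continuous.subtype_mk ?_ _
    refine continuous_pi fun i => ?_
    fin_cases i
    · exact continuous_const
    · exact continuous_id
    · exact continuous_const⟩

noncomputable def hty : ContinuousMap.Homotopy (ofLine.comp toLine) (ContinuousMap.id (Z p0)) where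
  toFun q := ⟨![((q.1 : ℝ) : ℂ) ^ 2 * q.2.1 0, q.2.1 1, ((q.1 : ℝ) : ℂ) * q.2.1 2], by
    rw [mem_Z]
    have h := (mem_Z q.2.1).1 q.2.2
    simp
    linear_combination ((q.1 : ℝ) : ℂ) ^ 2 * h⟩
  continuous_toFun := by
    refine Continuous.subtype_mk ?_ _
    refine continuous_pi fun i => ?_
    have h (i : Fin 3) : Continuous (fun q : unitInterval × Z p0 => q.2.1 i) :=
      (continuous_apply i).comp (continuous_subtype_val.comp continuous_snd)
    have ht : Continuous (fun q : unitInterval × Z p0 => ((q.1 : ℝ) : ℂ)) :=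
      Complex.continuous_ofReal.comp (continuous_subtype_val.comp continuous_fst)
    fin_cases i
    · exact (ht.pow 2).mul (h 0)
    · exact h 1
    · exact ht.mul (h 2)
  map_zero_left := by
    intro v
    apply Subtype.ext
    funext i
    fin_cases i <;> simp [ofLine, toLine]
  map_one_left := by
    intro v
    apply Subtype.ext
    funext i
    fin_cases i <;> simp

theorem contractible : ContractibleSpace (Z p0) := by
  let e : ContinuousMap.HomotopyEquiv (Z p0) ℂ :=
    { toFun := toLine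
      invFun := ofLine
      left_inv := ⟨hty⟩
      right_inv := by
        have : toLine.comp ofLine = ContinuousMap.id ℂ := by
          ext y
          simp [toLine, ofLine]
        rw [this] }
  exact e.contractibleSpace

/-- scaling by weights as an automorphism -/
noncomputable def scaleHom (t : ℂ) (w : Fin 3 → ℕ) : Poly →ₐ[ℂ] Poly :=
  aeval (fun i => C (t ^ w i) * X i)

theorem scale_inv (t : ℂ) (ht : t ≠ 0) (w : Fin 3 → ℕ) :
    (scaleHom t w).comp (scaleHom t⁻¹ w) = AlgHom.id ℂ Poly := by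
  apply MvPolynomial.algHom_ext
  intro i
  simp only [scaleHom, AlgHom.comp_apply, aeval_X, map_mul, AlgHom.id_apply]
  rw [← algebraMap_eq, AlgHom.commutes, algebraMap_eq, ← mul_assoc, ← C_mul, ← mul_pow,
    inv_mul_cancel₀ ht, one_pow, C_1, one_mul]

noncomputable def scale (t : ℂ) (ht : t ≠ 0) (w : Fin 3 → ℕ) : Poly ≃ₐ[ℂ] Poly :=
  AlgEquiv.ofAlgHom (scaleHom t w) (scaleHom t⁻¹ w) (scale_inv t ht w) (by
    have := scale_inv t⁻¹ (inv_ne_zero ht) w
    rwa [inv_inv] at this)

theorem phi_scale (t : ℂ) (ht : t ≠ 0) (w : Fin 3 → ℕ) (v : C3) :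
    phi (scale t ht w).toAlgHom v = fun i => t ^ w i * v i := by
  funext i
  show eval v (scaleHom t w (X i)) = _
  simp [scaleHom]

theorem fixed_zero (w : ℕ) (hw : 0 < w) (s a : ℂ) (h2 : (2 : ℂ) ^ w * s = s ∨ (2 : ℂ) ^ w * s = a)
    (h4 : (4 : ℂ) ^ w * s = s ∨ (4 : ℂ) ^ w * s = a) : s = 0 := by
  by_contra hs
  have k2 : (2 : ℂ) ^ w ≠ 1 := by
    have : (2 : ℕ) ^ w ≠ 1 := (Nat.one_lt_two_pow hw.ne').ne'
    exact_mod_cast this
  have k4 : (4 : ℂ) ^ w ≠ 1 := by
    have : (4 : ℕ) ^ w ≠ 1 := (Nat.one_lt_pow hw.ne' (by norm_num)).ne'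
    exact_mod_cast this
  have k24 : (2 : ℂ) ^ w ≠ (4 : ℂ) ^ w := by
    have : (2 : ℕ) ^ w ≠ (4 : ℕ) ^ w := (Nat.pow_lt_pow_left (by norm_num) hw.ne').ne
    exact_mod_cast this
  rcases h2 with h2 | h2
  · exact k2 (mul_right_cancel₀ hs (by rw [h2, one_mul]))
  · rcases h4 with h4 | h4
    · exact k4 (mul_right_cancel₀ hs (by rw [h4, one_mul]))
    · exact k24 (mul_right_cancel₀ hs (h2.trans h4.symm))

/-- isolated singularities of a quasihomogeneous hypersurface -/
theorem sing_fixed (q : Poly) (hq : IsQuasihomogeneous q) (s a : C3)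
    (h : singLocus (Z q) = {s, a}) : s = 0 := by
  obtain ⟨w, d, hw, hd⟩ := hq
  have key : ∀ t : ℂ, t ≠ 0 → (fun i => t ^ w i * s i) ∈ singLocus (Z q) := by
    intro t ht
    rw [← phi_scale t ht]
    apply sing_map (scale t ht w) (Z q) (Z q)
    · intro v
      rw [phi_scale]
      simp only [Z, Set.mem_ofPred_eq]
      rw [hd t ht v]
      simp [zpow_ne_zero, ht]
    · rw [h]
      exact Or.inl rfl
  have k2 := key 2 (by norm_num)
  have k4 := key 4 (by norm_num)
  rw [h] at k2 k4
  funext i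
  apply fixed_zero (w i) (hw i) (s i) (a i)
  · rcases k2 with k | k
    · exact Or.inl (congrFun k i)
    · exact Or.inr (congrFun k i)
  · rcases k4 with k | k
    · exact Or.inl (congrFun k i)
    · exact Or.inr (congrFun k i)

theorem not_qh (α : Poly ≃ₐ[ℂ] Poly) (q : Poly) (hq : IsQuasihomogeneous q) :
    Z (α p0) ≠ Z q := by
  intro hZ
  have hY : ∀ v, v ∈ Z q ↔ phi α.toAlgHom v ∈ Z p0 := by
    intro v
    rw [← hZ]
    show eval v (α.toAlgHom p0) = 0 ↔ _
    rw [eval_phi]
    rfl
  have hinv : ∀ v, phi α.toAlgHom (phi α.symm.toAlgHom v) = v := by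
    intro v
    exact phi_phi _ _ (by simp) v
  have hinv' : ∀ v, phi α.symm.toAlgHom (phi α.toAlgHom v) = v := by
    intro v
    exact phi_phi _ _ (by simp) v
  have hX : ∀ v, v ∈ Z p0 ↔ phi α.symm.toAlgHom v ∈ Z q := by
    intro v
    rw [hY, hinv]
  have hS : singLocus (Z q) = {phi α.symm.toAlgHom ![0, 0, 0], phi α.symm.toAlgHom ![0, 1, 0]} := by
    ext v
    constructor
    · intro hv
      have h1 := sing_map α (Z p0) (Z q) hY v hv
      rcases sing_sub _ h1 with h2 | h2
      · left
        rw [← h2, hinv']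
      · right
        rw [Set.mem_singleton_iff, ← h2, hinv']
    · rintro (rfl | rfl)
      · exact sing_map α.symm (Z q) (Z p0) hX _ sing_zero
      · exact sing_map α.symm (Z q) (Z p0) hX _ sing_one
  have h1 := sing_fixed q hq _ _ hS
  have h2 := sing_fixed q hq _ _ (hS.trans (Set.pair_comm _ _))
  have h3 := congrArg (phi α.toAlgHom) (h1.trans h2.symm)
  rw [hinv, hinv] at h3
  have h4 := congrFun h3 1
  simp at h4

theorem main : ∃ p : Poly, ContractibleSpace (Z p) ∧ (∃ v, IsIsolatedSing (Z p) v) ∧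
    (∀ v ∈ singLocus (Z p), IsIsolatedSing (Z p) v) ∧
    (∀ α : Poly ≃ₐ[ℂ] Poly, ¬ IsQuasihomogeneous (α p)) ∧
    ∀ (α : Poly ≃ₐ[ℂ] Poly) (q : Poly), IsQuasihomogeneous q → Z (α p) ≠ Z q :=
  ⟨p0, contractible, ⟨_, isolated _ sing_zero⟩, isolated,
    fun α h => not_qh α _ h rfl, not_qh⟩

end Pool.Agent.H10.Qh
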