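import Mathlib

/-! Definitions for MP_c4712b_ag: surfaces in complex 3-space, quasihomogeneous polynomials. -/

set_option autoImplicit false

open MvPolynomial

namespace Pool.Agent.H10.Qh

/-- points of complex 3-space, with the Euclidean (product) topology -/
abbrev C3 := Fin 3 → ℂ

/-- polynomials in three variables -/
abbrev Poly := MvPolynomial (Fin 3) ℂ

/-- the zero set of `p` -/
def Z (p : Poly) : Set C3 := {v | eval v p = 0}

/-- the singular locus of the hypersurface `X` with its reduced structure: the points of `X` at
which every polynomial vanishing on `X` has zero gradient -/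
def singLocus (X : Set C3) : Set C3 :=
  {v | v ∈ X ∧ ∀ f : Poly, (∀ x ∈ X, eval x f = 0) → ∀ i, eval v (pderiv i f) = 0}

/-- an isolated singular point: an isolated point of the singular locus -/
def IsIsolatedSing (X : Set C3) (v : C3) : Prop :=
  v ∈ singLocus X ∧ ∃ U : Set C3, IsOpen U ∧ v ∈ U ∧ U ∩ singLocus X = {v}

/-- quasihomogeneous polynomials with positive integer weights -/
def IsQuasihomogeneous (q : Poly) : Prop :=
  ∃ (w : Fin 3 → ℕ) (d : ℤ), (∀ i, 0 < w i) ∧
    ∀ t : ℂ, t ≠ 0 → ∀ v : C3, eval (fun i => t ^ w i * v i) q = t ^ d * eval v q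

end Pool.Agent.H10.Qh
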