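import Mathlib

open Complex MeasureTheory Metric Set
open scoped Real NNReal

namespace H10.Rtv

/-- exponent -/
noncomputable def g (z : ℂ) : ℂ := 30 * z / (1 + (9 / 10) * z)
/-- the outer function -/
noncomputable def f (z : ℂ) : ℂ := exp (g z)

lemma den_ne {z : ℂ} (hz : ‖z‖ ≤ 11 / 10) : 1 + (9 / 10 : ℂ) * z ≠ 0 := by
  intro h
  have h1 : z = -(10 / 9) := by linear_combination (10 / 9) * h
  rw [h1, norm_neg] at hz
  norm_num at hz

lemma g_diff {z : ℂ} (hz : ‖z‖ ≤ 11 / 10) : DifferentiableAt ℂ g z := by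
  unfold g
  exact DifferentiableAt.div (by fun_prop) (by fun_prop) (den_ne hz)

lemma f_diff {z : ℂ} (hz : ‖z‖ ≤ 11 / 10) : DifferentiableAt ℂ f z := (g_diff hz).cexp

lemma g_re {z : ℂ} (hz : ‖z‖ = 11 / 10) : (g z).re ≤ 17 := by
  have hne := den_ne hz.le
  have hx : z.re ≤ 11 / 10 := (Complex.re_le_norm z).trans hz.le
  have hn : z.re * z.re + z.im * z.im = (11 / 10) ^ 2 := by
    rw [← hz, ← Complex.normSq_eq_norm_sq, Complex.normSq_apply]
  have hpos : 0 < Complex.normSq (1 + (9 / 10 : ℂ) * z) := Complex.normSq_pos.2 hne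
  have h1 : Complex.normSq (1 + (9 / 10 : ℂ) * z) = 1 + 2 * (9 / 10) * z.re + (99 / 100) ^ 2 := by
    rw [Complex.normSq_apply]
    simp
    nlinarith
  have h2 : (g z).re = 30 * (z.re + 9 / 10 * (11 / 10) ^ 2) / Complex.normSq (1 + (9 / 10 : ℂ) * z) := by
    unfold g
    rw [Complex.div_re]
    simp
    rw [← hn]
    field_simp
    ring
  rw [h2, div_le_iff₀ hpos, h1]
  nlinarith

lemma f_le {z : ℂ} (hz : ‖z‖ = 11 / 10) : ‖f z‖ ≤ Real.exp 17 := by
  unfold f
  rw [Complex.norm_exp]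
  exact Real.exp_le_exp.2 (g_re hz)

lemma f_dc : DiffContOnCl ℂ f (ball 0 ((11 / 10 : ℝ≥0) : ℝ)) := by
  apply DifferentiableOn.diffContOnCl
  rw [closure_ball _ (by norm_num)]
  intro z hz
  rw [mem_closedBall, dist_zero_right] at hz
  exact (f_diff (by simpa using hz)).differentiableWithinAt

/-- Taylor series -/
noncomputable def P : FormalMultilinearSeries ℂ ℂ ℂ := cauchyPowerSeries f 0 ((11 / 10 : ℝ≥0) : ℝ)

lemma hP : HasFPowerSeriesOnBall f P 0 ((11 / 10 : ℝ≥0)) :=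
  f_dc.hasFPowerSeriesOnBall (by norm_num)

/-- Taylor coefficients -/
noncomputable def a (j : ℕ) : ℂ := P.coeff j

lemma hs {z : ℂ} (hz : ‖z‖ < 11 / 10) : HasSum (fun j => a j * z ^ j) (f z) := by
  have h1 := hP.hasSum (y := z) (by
    rw [Metric.mem_eball, edist_zero_right, enorm_eq_nnnorm, ENNReal.coe_lt_coe]
    rw [← NNReal.coe_lt_coe]
    simpa using hz)
  rw [zero_add] at h1
  have e : (fun j => a j * z ^ j) = fun n => P n fun _ => z := by
    funext n
    rw [FormalMultilinearSeries.apply_eq_pow_smul_coeff, smul_eq_mul, mul_comm]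
    rfl
  rw [e]
  exact h1

lemma a_le (j : ℕ) : ‖a j‖ ≤ Real.exp 17 * (10 / 11) ^ j := by
  unfold a
  rw [← FormalMultilinearSeries.norm_apply_eq_norm_coef]
  refine (norm_cauchyPowerSeries_le f 0 _ j).trans ?_
  have hp := Real.pi_pos
  have h1 : ∫ θ in (0 : ℝ)..2 * π, ‖f (circleMap 0 ((11 / 10 : ℝ≥0) : ℝ) θ)‖
      ≤ Real.exp 17 * (2 * π) := by
    refine (le_abs_self _).trans ?_
    rw [← Real.norm_eq_abs]
    refine (intervalIntegral.norm_integral_le_of_norm_le_const (C := Real.exp 17) ?_).trans ?_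
    · intro θ _
      rw [norm_norm]
      apply f_le
      rw [norm_circleMap_zero]
      norm_num
    · rw [sub_zero, abs_of_pos (by positivity)]
  have h2 : (|((11 / 10 : ℝ≥0) : ℝ)|⁻¹) = 10 / 11 := by
    norm_num
  rw [h2]
  have h3 : (2 * π)⁻¹ * ∫ θ in (0 : ℝ)..2 * π, ‖f (circleMap 0 ((11 / 10 : ℝ≥0) : ℝ) θ)‖
      ≤ Real.exp 17 := by
    calc _ ≤ (2 * π)⁻¹ * (Real.exp 17 * (2 * π)) := by gcongr
      _ = Real.exp 17 := by field_simp
  gcongr

lemma a_zero : a 0 = 1 := by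
  have h := hP.coeff_zero (fun _ => 1)
  have h2 : a 0 = P 0 (fun _ => 1) := rfl
  rw [h2, h]
  simp [f, g]

lemma a_one : a 1 = 30 := by
  have h := hP.hasFPowerSeriesAt.deriv
  have h2 : a 1 = P 1 (fun _ => 1) := rfl
  rw [h2, ← h]
  have h3 : HasDerivAt g ((30 * (1 + (9 / 10) * (0 : ℂ)) - 30 * 0 * (9 / 10))
      / (1 + (9 / 10) * (0 : ℂ)) ^ 2) 0 := by
    have d1 : HasDerivAt (fun z : ℂ => 30 * z) 30 0 := by
      simpa using (hasDerivAt_id (0 : ℂ)).const_mul 30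
    have d2 : HasDerivAt (fun z : ℂ => 1 + (9 / 10) * z) (9 / 10) 0 := by
      simpa using ((hasDerivAt_id (0 : ℂ)).const_mul (9 / 10)).const_add 1
    exact d1.div d2 (by simp)
  have h4 : HasDerivAt f _ 0 := h3.cexp
  rw [h4.deriv]
  simp [g]

end H10.Rtv
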