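import Pool.Agent.H10.RtvA

open Complex MeasureTheory Metric Set
open scoped Real NNReal

namespace H10.Rtv

lemma a_sum : Summable (fun j => ‖a j‖) :=
  Summable.of_nonneg_of_le (fun _ => norm_nonneg _) a_le
    ((summable_geometric_of_lt_one (by norm_num) (by norm_num)).mul_left _)

/-- the Wiener norm -/
noncomputable def S : ℝ := ∑' j, ‖a j‖

lemma S_le : S ≤ 2 ^ 29 := by
  have h1 : S ≤ ∑' j : ℕ, Real.exp 17 * (10 / 11) ^ j :=
    a_sum.tsum_le_tsum a_le
      ((summable_geometric_of_lt_one (by norm_num) (by norm_num)).mul_left _)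
  rw [tsum_mul_left, tsum_geometric_of_lt_one (by norm_num) (by norm_num)] at h1
  have h2 : Real.exp 17 ≤ 2.7182818286 ^ 17 := by
    have : Real.exp 17 = Real.exp 1 ^ 17 := by
      rw [← Real.exp_nat_mul]; norm_num
    rw [this]
    have := Real.exp_one_lt_d9
    have := Real.exp_pos 1
    gcongr
  calc S ≤ Real.exp 17 * (1 - 10 / 11)⁻¹ := h1
    _ ≤ 2.7182818286 ^ 17 * (1 - 10 / 11)⁻¹ := by gcongr
    _ ≤ 2 ^ 29 := by norm_num

lemma T_eq : ∑ j ∈ Finset.range 2, ‖a j‖ = 31 := by
  rw [Finset.sum_range_succ, Finset.sum_range_one, a_zero, a_one]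
  norm_num

lemma S_gt : 31 < S := by
  have h1 : 31 ≤ S := by
    rw [← T_eq]
    exact a_sum.sum_le_tsum _ (fun _ _ => norm_nonneg _)
  refine lt_of_le_of_ne h1 ?_
  intro h
  have h2 : ∀ j, 2 ≤ j → a j = 0 := by
    intro j hj
    by_contra hne
    have h3 : ∑ i ∈ insert j (Finset.range 2), ‖a i‖ ≤ S :=
      a_sum.sum_le_tsum _ (fun _ _ => norm_nonneg _)
    rw [Finset.sum_insert (by simp; omega), T_eq, ← h] at h3
    have := norm_pos_iff.2 hne
    linarith
  have h4 := hs (z := -(1 / 30)) (by rw [norm_neg]; norm_num)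
  have h5 : HasSum (fun j => a j * (-(1 / 30) : ℂ) ^ j)
      (∑ j ∈ Finset.range 2, a j * (-(1 / 30) : ℂ) ^ j) := by
    apply hasSum_sum_of_ne_finset_zero
    intro j hj
    rw [Finset.mem_range, not_lt] at hj
    rw [h2 j hj, zero_mul]
  have h6 := h4.unique h5
  rw [Finset.sum_range_succ, Finset.sum_range_one, a_zero, a_one] at h6
  norm_num at h6
  exact Complex.exp_ne_zero _ h6

lemma int_zero : ∫ θ in (0 : ℝ)..2 * π, Real.log ‖∑' j, a j * Complex.exp ((θ : ℂ) * Complex.I) ^ j‖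
    = 0 := by
  have e1 : ∀ θ : ℝ, Real.log ‖∑' j, a j * Complex.exp ((θ : ℂ) * Complex.I) ^ j‖
      = (g (Complex.exp (θ * I))).re := by
    intro θ
    have hn : ‖Complex.exp (θ * I)‖ < 11 / 10 := by
      rw [Complex.norm_exp_ofReal_mul_I]; norm_num
    rw [(hs hn).tsum_eq]
    unfold f
    rw [Complex.norm_exp, Real.log_exp]
  simp_rw [e1]
  have hdc : DiffContOnCl ℂ g (ball 0 1) := by
    apply DifferentiableOn.diffContOnCl
    rw [closure_ball _ one_ne_zero]
    intro z hz
    rw [mem_closedBall, dist_zero_right] at hz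
    exact (g_diff (by linarith)).differentiableWithinAt
  have h1 := hdc.circleIntegral_sub_inv_smul (w := 0) (mem_ball_self one_pos)
  have hg0 : g 0 = 0 := by simp [g]
  rw [hg0, smul_zero, circleIntegral] at h1
  have e2 : ∀ θ : ℝ, deriv (circleMap 0 1) θ • (circleMap 0 1 θ - 0)⁻¹ • g (circleMap 0 1 θ)
      = I * g (Complex.exp (θ * I)) := by
    intro θ
    have h2 : Complex.exp (θ * I) ≠ 0 := Complex.exp_ne_zero _
    rw [deriv_circleMap]
    simp only [circleMap_zero, sub_zero, smul_eq_mul, ofReal_one, one_mul]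
    field_simp
  simp_rw [e2] at h1
  rw [intervalIntegral.integral_const_mul] at h1
  have h3 := (mul_eq_zero.1 h1).resolve_left Complex.I_ne_zero
  have hcont : Continuous (fun θ : ℝ => g (Complex.exp (θ * I))) := by
    rw [continuous_iff_continuousAt]
    intro θ
    have hn : ‖Complex.exp (θ * I)‖ ≤ 11 / 10 := by
      rw [Complex.norm_exp_ofReal_mul_I]; norm_num
    have hc : Continuous (fun θ : ℝ => Complex.exp (θ * I)) := by fun_prop
    exact (g_diff hn).continuousAt.comp (f := fun θ : ℝ => Complex.exp (θ * I)) hc.continuousAt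
  have h4 := Complex.reCLM.intervalIntegral_comp_comm (hcont.intervalIntegrable 0 (2 * π) (μ := volume))
  simp only [Complex.reCLM_apply] at h4
  rw [h4, h3]
  simp

/-- the concentration -/
noncomputable def d : ℝ := 31 / S

lemma main : ∃ N : ℕ, (∑ j ∈ Finset.range (1 + 1), ((N + 1).choose j : ℝ)) / 2 ^ (N + 1) ≤ d ∧
    d < (∑ j ∈ Finset.range (1 + 1), ((N + 1 - 1).choose j : ℝ)) / 2 ^ (N + 1 - 1) ∧
    -Real.log S < (Real.log
        ((((N + 1 - 1).choose 1 : ℝ) /
            ((∑ j ∈ Finset.range (1 + 1), ((N + 1 - 1).choose j : ℝ)) - d * 2 ^ (N + 1 - 1)) - 1) /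
          (((((N + 1 - 1).choose 1 : ℝ) /
            ((∑ j ∈ Finset.range (1 + 1), ((N + 1 - 1).choose j : ℝ)) - d * 2 ^ (N + 1 - 1)) - 1) + 1)
            * 2 ^ (N + 1 - 1)))) := by
  classical
  have hS := S_le
  have hS1 := S_gt
  have hS0 : 0 < S := by linarith
  have hd1 : d < 1 := by unfold d; rw [div_lt_one hS0]; exact hS1
  have hex : ∃ n : ℕ, ((n : ℝ) + 1) / 2 ^ n ≤ d := by
    refine ⟨29, ?_⟩
    unfold d
    rw [div_le_div_iff₀ (by positivity) hS0]
    push_cast
    linarith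
  set n := Nat.find hex with hn
  have hn1 : ((n : ℝ) + 1) / 2 ^ n ≤ d := Nat.find_spec hex
  have hn29 : n ≤ 29 := by
    apply Nat.find_min'
    unfold d
    rw [div_le_div_iff₀ (by positivity) hS0]
    push_cast
    linarith
  have hnne0 : n ≠ 0 := by
    intro h
    rw [h] at hn1
    norm_num at hn1
    linarith
  have hnne1 : n ≠ 1 := by
    intro h
    rw [h] at hn1
    norm_num at hn1
    linarith
  obtain ⟨N, hN⟩ : ∃ N, n = N + 1 := ⟨n - 1, by omega⟩
  have hN1 : 1 ≤ N := by omega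
  have hN28 : N ≤ 28 := by omega
  have hlt : d < ((N : ℝ) + 1) / 2 ^ N := by
    have : N < Nat.find hex := by omega
    have := Nat.find_min hex this
    push Not at this
    exact this
  rw [hN] at hn1
  push_cast at hn1
  have sum1 : ∀ M : ℕ, ∑ j ∈ Finset.range (1 + 1), (M.choose j : ℝ) = 1 + M := by
    intro M
    rw [Finset.sum_range_succ, Finset.sum_range_one]
    simp
  refine ⟨N, ?_, ?_, ?_⟩
  · rw [sum1]; push_cast
    convert hn1 using 2
    ring
  · rw [sum1, Nat.add_sub_cancel]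
    convert hlt using 2
    ring
  · rw [sum1, Nat.add_sub_cancel, Nat.choose_one_right]
    have hNr : (1 : ℝ) ≤ N := by exact_mod_cast hN1
    have hNr28 : (N : ℝ) ≤ 28 := by exact_mod_cast hN28
    have hp : (0 : ℝ) < 2 ^ N := by positivity
    have hD : 0 < 1 + (N : ℝ) - d * 2 ^ N := by
      rw [lt_div_iff₀ hp] at hlt
      linarith
    have hdN : (N : ℝ) / 2 ≤ d * 2 ^ N - 1 := by
      rw [div_le_iff₀ (by positivity), pow_succ] at hn1
      linarith
    have e : ((N : ℝ) / (1 + N - d * 2 ^ N) - 1) /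
        (((N : ℝ) / (1 + N - d * 2 ^ N) - 1 + 1) * 2 ^ N) = (d * 2 ^ N - 1) / (N * 2 ^ N) := by
      have h1 : (1 + (N : ℝ) - d * 2 ^ N) ≠ 0 := hD.ne'
      have h2 : (N : ℝ) ≠ 0 := by positivity
      rw [sub_add_cancel]
      field_simp
      ring
    rw [e, ← Real.log_inv]
    apply Real.log_lt_log (by positivity)
    rw [← one_div, div_lt_div_iff₀ hS0 (by positivity)]
    -- N * 2^N < (d * 2^N - 1) * S
    have e2 : (d * 2 ^ N - 1) * S = 31 * 2 ^ N - S := by
      unfold d
      field_simp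
    rw [e2, one_mul]
    have h3 : S * (N + 2) ≤ 62 * 2 ^ N := by
      unfold d at hn1
      rw [div_le_div_iff₀ (by positivity) hS0, pow_succ] at hn1
      linarith
    have h4 : 62 < (31 - (N : ℝ)) * (N + 2) := by nlinarith
    have h5 : S * (N + 2) < ((31 - (N : ℝ)) * 2 ^ N) * (N + 2) := by
      calc S * (N + 2) ≤ 62 * 2 ^ N := h3
        _ < (31 - (N : ℝ)) * (N + 2) * 2 ^ N := by gcongr
        _ = _ := by ring
    have h6 := lt_of_mul_lt_mul_right h5 (by positivity)
    linarith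

end H10.Rtv
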