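import Pool.Agent.H10.SvdDefs

set_option autoImplicit false

open MeasureTheory Matrix

namespace Pool.Agent.H10.Svd

/-! ### counting lemmas -/

/-- signs -/
def sgn (b : Bool) : ℝ := if b then 1 else -1

theorem sgn_sq (b : Bool) : sgn b ^ 2 = 1 := by cases b <;> simp [sgn]
theorem sgn_not (b : Bool) : sgn (!b) = -sgn b := by cases b <;> simp [sgn]

theorem sum_cons {B : Type} [Fintype B] {n : ℕ} (g : (Fin (n + 1) → B) → ℝ) :
    ∑ e, g e = ∑ b, ∑ e', g (Fin.cons b e') := by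
  rw [← Fintype.sum_prod_type' (f := fun b e' => g (Fin.cons b e'))]
  exact (Fintype.sum_equiv (Fin.consEquiv (fun _ => B)) _ _ (fun x => rfl)).symm

/-- orthogonality of independent centred variables -/
theorem indep {B : Type} [Fintype B] (f : B → ℝ) (hf : ∑ b, f b = 0) (n : ℕ) :
    (∑ e : Fin n → B, ∑ i, f (e i) = 0) ∧
    (Fintype.card B : ℝ) * ∑ e : Fin n → B, (∑ i, f (e i)) ^ 2 =
      n * (Fintype.card B : ℝ) ^ n * ∑ b, f b ^ 2 := by
  induction n with
  | zero => simp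
  | succ n ih =>
    obtain ⟨ih1, ih2⟩ := ih
    constructor
    · rw [sum_cons]
      simp only [Fin.sum_univ_succ, Fin.cons_zero, Fin.cons_succ, Finset.sum_add_distrib]
      rw [ih1]
      simp only [Finset.sum_const, Finset.card_univ, nsmul_eq_mul, add_zero, mul_zero]
      rw [← Finset.mul_sum, hf, mul_zero]
    · rw [sum_cons]
      simp only [Fin.sum_univ_succ, Fin.cons_zero, Fin.cons_succ]
      have h1 : ∀ b : B, ∑ e' : Fin n → B, (f b + ∑ i, f (e' i)) ^ 2 =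
          (Fintype.card B : ℝ) ^ n * f b ^ 2 + ∑ e' : Fin n → B, (∑ i, f (e' i)) ^ 2 := by
        intro b
        have : ∀ e' : Fin n → B, (f b + ∑ i, f (e' i)) ^ 2 =
            f b ^ 2 + 2 * f b * (∑ i, f (e' i)) + (∑ i, f (e' i)) ^ 2 := fun e' => by ring
        simp only [this, Finset.sum_add_distrib]
        rw [← Finset.mul_sum, ih1]
        simp [Fintype.card_fun]
      simp only [h1, Finset.sum_add_distrib, Finset.sum_const, Finset.card_univ, nsmul_eq_mul]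
      rw [← Finset.mul_sum, mul_add, ih2]
      push_cast
      ring

theorem Y2 (d : ℕ) (x : Fin d → ℝ) :
    ∑ b : Fin d → Bool, (∑ a, sgn (b a) * x a) ^ 2 = 2 ^ d * ∑ a, x a ^ 2 := by
  induction d with
  | zero => simp
  | succ d ih =>
    rw [sum_cons]
    simp only [Fin.sum_univ_succ, Fin.cons_zero, Fin.cons_succ, Fintype.sum_bool, sgn,
      Bool.false_eq_true, if_true, if_false]
    have h := ih (fun a => x a.succ)
    rw [← Finset.sum_add_distrib]
    have e : ∀ b : Fin d → Bool, (1 * x 0 + ∑ a : Fin d, (if b a = true then (1 : ℝ) else -1) *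
        x a.succ) ^ 2 + (-1 * x 0 + ∑ a : Fin d, (if b a = true then (1 : ℝ) else -1) *
        x a.succ) ^ 2 = 2 * x 0 ^ 2 + 2 * (∑ a : Fin d, sgn (b a) * x a.succ) ^ 2 := by
      intro b
      simp only [sgn]
      ring
    rw [Finset.sum_congr rfl fun b _ => e b, Finset.sum_add_distrib]
    simp only [← Finset.mul_sum]
    rw [h]
    simp only [Finset.sum_const, Finset.card_univ, nsmul_eq_mul, Fintype.card_fun,
      Fintype.card_bool, Fintype.card_fin]
    push_cast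
    ring

theorem Y4 (d : ℕ) (x : Fin d → ℝ) :
    ∑ b : Fin d → Bool, (∑ a, sgn (b a) * x a) ^ 4 ≤ 3 * 2 ^ d * (∑ a, x a ^ 2) ^ 2 := by
  induction d with
  | zero => simp
  | succ d ih =>
    rw [sum_cons]
    simp only [Fin.sum_univ_succ, Fin.cons_zero, Fin.cons_succ, Fintype.sum_bool]
    have h := ih (fun a => x a.succ)
    have h2 := Y2 d (fun a => x a.succ)
    rw [← Finset.sum_add_distrib]
    have e : ∀ b : Fin d → Bool, (sgn true * x 0 + ∑ a : Fin d, sgn (b a) * x a.succ) ^ 4 +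
        (sgn false * x 0 + ∑ a : Fin d, sgn (b a) * x a.succ) ^ 4 =
        2 * x 0 ^ 4 + 12 * x 0 ^ 2 * (∑ a : Fin d, sgn (b a) * x a.succ) ^ 2 +
          2 * (∑ a : Fin d, sgn (b a) * x a.succ) ^ 4 := by
      intro b
      simp only [sgn, if_true, Bool.false_eq_true, if_false]
      ring
    rw [Finset.sum_congr rfl fun b _ => e b, Finset.sum_add_distrib, Finset.sum_add_distrib]
    simp only [← Finset.mul_sum]
    rw [h2]
    simp only [Finset.sum_const, Finset.card_univ, nsmul_eq_mul, Fintype.card_fun,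
      Fintype.card_bool, Fintype.card_fin]
    push_cast
    have h3 : 0 ≤ (2 : ℝ) ^ d := by positivity
    have h4 : 0 ≤ x 0 ^ 4 := by positivity
    have h5 : (2 : ℝ) ^ (d + 1) = 2 * 2 ^ d := pow_succ' _ _
    rw [h5]
    have h6 : 3 * (2 * (2 : ℝ) ^ d) * (x 0 ^ 2 + ∑ a : Fin d, x a.succ ^ 2) ^ 2 =
        6 * (2 ^ d * x 0 ^ 4) + 12 * x 0 ^ 2 * (2 ^ d * ∑ a : Fin d, x a.succ ^ 2) +
          2 * (3 * 2 ^ d * (∑ a : Fin d, x a.succ ^ 2) ^ 2) := by ring
    rw [h6]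
    linarith [mul_nonneg h3 h4]

/-- the column statistic -/
theorem col_stat (d : ℕ) (x : Fin d → ℝ) :
    (∑ b : Fin d → Bool, ((∑ a, sgn (b a) * x a) ^ 2 - ∑ a, x a ^ 2) = 0) ∧
    ∑ b : Fin d → Bool, ((∑ a, sgn (b a) * x a) ^ 2 - ∑ a, x a ^ 2) ^ 2 ≤
      2 * 2 ^ d * (∑ a, x a ^ 2) ^ 2 := by
  have h2 := Y2 d x
  have h4 := Y4 d x
  constructor
  · rw [Finset.sum_sub_distrib, h2]
    simp [Fintype.card_fun]
  · have e : ∀ b : Fin d → Bool, ((∑ a, sgn (b a) * x a) ^ 2 - ∑ a, x a ^ 2) ^ 2 =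
        (∑ a, sgn (b a) * x a) ^ 4 - 2 * (∑ a, x a ^ 2) * (∑ a, sgn (b a) * x a) ^ 2 +
          (∑ a, x a ^ 2) ^ 2 := fun b => by ring
    rw [Finset.sum_congr rfl fun b _ => e b, Finset.sum_add_distrib, Finset.sum_sub_distrib,
      ← Finset.mul_sum, h2]
    simp only [Finset.sum_const, Finset.card_univ, nsmul_eq_mul, Fintype.card_fun,
      Fintype.card_bool, Fintype.card_fin]
    push_cast
    linarith

/-- Chebyshev's inequality by counting -/
theorem cheb {α : Type} [Fintype α] (g : α → ℝ) (t : ℝ) (P : α → Prop) [DecidablePred P]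
    (hP : ∀ a, P a → t ≤ g a) (hg : ∀ a, 0 ≤ g a) :
    ((Finset.univ.filter P).card : ℝ) * t ≤ ∑ a, g a := by
  calc ((Finset.univ.filter P).card : ℝ) * t = ∑ a ∈ Finset.univ.filter P, t := by
        rw [Finset.sum_const, nsmul_eq_mul]
    _ ≤ ∑ a ∈ Finset.univ.filter P, g a := by
        apply Finset.sum_le_sum
        intro a ha
        exact hP a (Finset.mem_filter.1 ha).2
    _ ≤ ∑ a, g a := Finset.sum_le_sum_of_subset_of_nonneg (Finset.filter_subset _ _)
        (fun a _ _ => hg a)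

/-- few sign matrices shrink the vector `x` -/
theorem few_shrink (d s m : ℕ) (hm : 0 < m) (hs : 2 * m ^ 3 ≤ s) (x : Fin d → ℝ)
    (P : (Fin d → Fin s → Bool) → Prop) [DecidablePred P]
    (hP : ∀ e, P e → ∑ j, (∑ a, sgn (e a j) * x a) ^ 2 < (1 - 1 / (m : ℝ)) * s * ∑ a, x a ^ 2) :
    ((Finset.univ.filter P).card : ℝ) * m ≤ Fintype.card (Fin d → Fin s → Bool) := by
  by_cases hx : ∑ a, x a ^ 2 = 0
  · have : Finset.univ.filter P = ∅ := by
      rw [Finset.filter_eq_empty_iff]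
      intro e _ he
      have := hP e he
      rw [hx, mul_zero] at this
      have h0 : 0 ≤ ∑ j, (∑ a, sgn (e a j) * x a) ^ 2 := Finset.sum_nonneg fun _ _ => sq_nonneg _
      linarith
    rw [this]
    simp
  have hX : 0 < ∑ a, x a ^ 2 :=
    lt_of_le_of_ne (Finset.sum_nonneg fun _ _ => sq_nonneg _) (Ne.symm hx)
  set X := ∑ a, x a ^ 2 with hXd
  have hs0 : 0 < s := lt_of_lt_of_le (by positivity) hs
  obtain ⟨c1, c2⟩ := col_stat d x
  have hind := (indep (fun b : Fin d → Bool => (∑ a, sgn (b a) * x a) ^ 2 - ∑ a, x a ^ 2) c1 s).2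
  rw [← hXd] at c2
  simp only [← hXd] at hind
  have hcardB : (Fintype.card (Fin d → Bool) : ℝ) = 2 ^ d := by simp
  rw [hcardB] at hind
  -- transfer to the transposed index
  have htr : ∑ e : Fin d → Fin s → Bool, (∑ j, ((∑ a, sgn (e a j) * x a) ^ 2 - X)) ^ 2 =
      ∑ e : Fin s → Fin d → Bool, (∑ j, ((∑ a, sgn (e j a) * x a) ^ 2 - X)) ^ 2 :=
    Fintype.sum_equiv (Equiv.piComm (fun _ _ => Bool)) _ _ (fun e => rfl)
  have h2d : (0 : ℝ) < 2 ^ d := by positivity
  have hS : ∑ e : Fin d → Fin s → Bool, (∑ j, ((∑ a, sgn (e a j) * x a) ^ 2 - X)) ^ 2 ≤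
      2 * s * (2 ^ d) ^ s * X ^ 2 := by
    rw [htr]
    have h3 : (2 : ℝ) ^ d * ∑ e : Fin s → Fin d → Bool,
        (∑ j, ((∑ a, sgn (e j a) * x a) ^ 2 - X)) ^ 2 ≤ 2 ^ d * (2 * s * (2 ^ d) ^ s * X ^ 2) := by
      rw [hind]
      have h4 : (0 : ℝ) ≤ s * (2 ^ d) ^ s := by positivity
      have h5 := mul_le_mul_of_nonneg_left c2 h4
      calc (s : ℝ) * (2 ^ d) ^ s * ∑ b : Fin d → Bool, ((∑ a, sgn (b a) * x a) ^ 2 - X) ^ 2
          ≤ s * (2 ^ d) ^ s * (2 * 2 ^ d * X ^ 2) := h5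
        _ = 2 ^ d * (2 * s * (2 ^ d) ^ s * X ^ 2) := by ring
    exact le_of_mul_le_mul_left h3 h2d
  have hmR : (0 : ℝ) < m := by exact_mod_cast hm
  have hsR : (0 : ℝ) < s := by exact_mod_cast hs0
  have hch := cheb (fun e : Fin d → Fin s → Bool => (∑ j, ((∑ a, sgn (e a j) * x a) ^ 2 - X)) ^ 2)
    ((s / m * X) ^ 2) P (by
      intro e he
      have h6 := hP e he
      have h7 : ∑ j, ((∑ a, sgn (e a j) * x a) ^ 2 - X) =
          ∑ j, (∑ a, sgn (e a j) * x a) ^ 2 - s * X := by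
        rw [Finset.sum_sub_distrib]; simp
      rw [h7]
      have h8 : s / m * X ≤ s * X - ∑ j, (∑ a, sgn (e a j) * x a) ^ 2 := by
        have : (1 - 1 / (m : ℝ)) * s * X = s * X - s / m * X := by field_simp
        linarith
      have h9 : 0 ≤ s / m * X := by positivity
      nlinarith) (fun e => sq_nonneg _)
  have hcard : (Fintype.card (Fin d → Fin s → Bool) : ℝ) = (2 ^ d) ^ s := by
    simp only [Fintype.card_fun, Fintype.card_bool, Fintype.card_fin]
    push_cast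
    rw [← pow_mul, ← pow_mul, mul_comm]
  rw [hcard]
  have h10 : ((Finset.univ.filter P).card : ℝ) * ((s / m * X) ^ 2) ≤
      2 * s * (2 ^ d) ^ s * X ^ 2 := hch.trans hS
  have hs' : (2 : ℝ) * m ^ 3 ≤ s := by exact_mod_cast hs
  have hN : (0 : ℝ) ≤ ((Finset.univ.filter P).card : ℝ) := Nat.cast_nonneg _
  have h11 : ((Finset.univ.filter P).card : ℝ) * s ≤ 2 * m ^ 2 * (2 ^ d) ^ s := by
    have h12 : ((Finset.univ.filter P).card : ℝ) * s * (s * X ^ 2 / m ^ 2) ≤
        2 * m ^ 2 * (2 ^ d) ^ s * (s * X ^ 2 / m ^ 2) := by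
      calc ((Finset.univ.filter P).card : ℝ) * s * (s * X ^ 2 / m ^ 2)
          = ((Finset.univ.filter P).card : ℝ) * ((s / m * X) ^ 2) := by field_simp
        _ ≤ 2 * s * (2 ^ d) ^ s * X ^ 2 := h10
        _ = 2 * m ^ 2 * (2 ^ d) ^ s * (s * X ^ 2 / m ^ 2) := by field_simp
    exact le_of_mul_le_mul_right h12 (by positivity)
  have h13 : ((Finset.univ.filter P).card : ℝ) * m * (2 * m ^ 2) ≤ (2 ^ d) ^ s * (2 * m ^ 2) := by
    calc ((Finset.univ.filter P).card : ℝ) * m * (2 * m ^ 2)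
        = ((Finset.univ.filter P).card : ℝ) * (2 * m ^ 3) := by ring
      _ ≤ ((Finset.univ.filter P).card : ℝ) * s := mul_le_mul_of_nonneg_left hs' hN
      _ ≤ 2 * m ^ 2 * (2 ^ d) ^ s := h11
      _ = (2 ^ d) ^ s * (2 * m ^ 2) := by ring
  exact le_of_mul_le_mul_right h13 (by positivity)

end Pool.Agent.H10.Svd
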