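import Pool.Agent.H10.SvdA

set_option autoImplicit false

open MeasureTheory Matrix

namespace Pool.Agent.H10.Svd

theorem sgn_pair (s : ℕ) (j l : Fin s) (h : j ≠ l) :
    ∑ b : Fin s → Bool, sgn (b j) * sgn (b l) = 0 := by
  have hinv : Function.Involutive (fun b : Fin s → Bool => Function.update b j (!b j)) := by
    intro b
    funext i
    by_cases hi : i = j
    · subst hi; simp
    · simp [Function.update_of_ne hi]
  have h1 := Equiv.sum_comp (Function.Involutive.toPerm _ hinv) (fun b : Fin s → Bool => sgn (b j) * sgn (b l))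
  have h2 : ∀ b : Fin s → Bool, sgn ((Function.Involutive.toPerm _ hinv b) j) *
      sgn ((Function.Involutive.toPerm _ hinv b) l) = -(sgn (b j) * sgn (b l)) := by
    intro b
    show sgn (Function.update b j (!b j) j) * sgn (Function.update b j (!b j) l) = _
    rw [Function.update_self, Function.update_of_ne h.symm, sgn_not]
    ring
  simp only [h2, Finset.sum_neg_distrib] at h1
  linarith

theorem gram_pair (d s : ℕ) (j l : Fin s) (h : j ≠ l) :
    ∑ e : Fin d → Fin s → Bool, (∑ a, sgn (e a j) * sgn (e a l)) ^ 2 =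
      d * (Fintype.card (Fin d → Fin s → Bool) : ℝ) := by
  have h1 := (indep (fun b : Fin s → Bool => sgn (b j) * sgn (b l)) (sgn_pair s j l h) d).2
  have h2 : ∀ b : Fin s → Bool, (sgn (b j) * sgn (b l)) ^ 2 = 1 := by
    intro b; rw [mul_pow, sgn_sq, sgn_sq, one_mul]
  simp only [h2, Finset.sum_const, Finset.card_univ, nsmul_eq_mul, mul_one] at h1
  have hpos : (0 : ℝ) < Fintype.card (Fin s → Bool) := by
    exact_mod_cast Fintype.card_pos
  have h3 : (Fintype.card (Fin s → Bool) : ℝ) *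
      ∑ e : Fin d → Fin s → Bool, (∑ a, sgn (e a j) * sgn (e a l)) ^ 2 =
      (Fintype.card (Fin s → Bool) : ℝ) * (d * (Fintype.card (Fin d → Fin s → Bool) : ℝ)) := by
    rw [h1, Fintype.card_fun (α := Fin d), Fintype.card_fin]
    push_cast
    ring
  exact mul_left_cancel₀ hpos.ne' h3

/-- the sign matrix `e` has a bad Gram matrix -/
def Bad (d s : ℕ) (e : Fin d → Fin s → Bool) : Prop :=
  ∃ j l : Fin s, j ≠ l ∧ (d : ℝ) / (2 * s) < |∑ a, sgn (e a j) * sgn (e a l)|

theorem few_bad (d s : ℕ) (hd : 0 < d) (hs : 0 < s) [DecidablePred (Bad d s)] :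
    ((Finset.univ.filter (Bad d s)).card : ℝ) * d ≤
      4 * s ^ 4 * Fintype.card (Fin d → Fin s → Bool) := by
  have hdR : (0 : ℝ) < d := by exact_mod_cast hd
  have hsR : (0 : ℝ) < s := by exact_mod_cast hs
  have hch := cheb (fun e : Fin d → Fin s → Bool => ∑ j, ∑ l, if j = l then 0 else
    (∑ a, sgn (e a j) * sgn (e a l)) ^ 2) (((d : ℝ) / (2 * s)) ^ 2) (Bad d s) (by
      rintro e ⟨j, l, hjl, hlt⟩
      have h1 : (∑ a, sgn (e a j) * sgn (e a l)) ^ 2 ≤ ∑ j, ∑ l, if j = l then 0 else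
          (∑ a, sgn (e a j) * sgn (e a l)) ^ 2 := by
        calc (∑ a, sgn (e a j) * sgn (e a l)) ^ 2 = (if j = l then 0 else
              (∑ a, sgn (e a j) * sgn (e a l)) ^ 2) := by rw [if_neg hjl]
          _ ≤ ∑ l, (if j = l then 0 else (∑ a, sgn (e a j) * sgn (e a l)) ^ 2) :=
              Finset.single_le_sum (f := fun l => if j = l then (0 : ℝ) else
                (∑ a, sgn (e a j) * sgn (e a l)) ^ 2)
                (fun l _ => by split_ifs <;> positivity) (Finset.mem_univ l)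
          _ ≤ _ :=
              Finset.single_le_sum (f := fun j => ∑ l, if j = l then (0 : ℝ) else
                (∑ a, sgn (e a j) * sgn (e a l)) ^ 2)
                (fun j _ => Finset.sum_nonneg fun l _ => by split_ifs <;> positivity)
                (Finset.mem_univ j)
      refine le_trans ?_ h1
      rw [← sq_abs (∑ a, sgn (e a j) * sgn (e a l))]
      exact pow_le_pow_left₀ (by positivity) hlt.le 2)
      (fun e => Finset.sum_nonneg fun j _ => Finset.sum_nonneg fun l _ => by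
        split_ifs <;> positivity)
  have h2 : ∑ e : Fin d → Fin s → Bool, (∑ j, ∑ l, if j = l then (0 : ℝ) else
      (∑ a, sgn (e a j) * sgn (e a l)) ^ 2) ≤
      s ^ 2 * (d * (Fintype.card (Fin d → Fin s → Bool) : ℝ)) := by
    rw [Finset.sum_comm]
    have h3 : ∀ j : Fin s, ∑ e : Fin d → Fin s → Bool, (∑ l, if j = l then (0 : ℝ) else
        (∑ a, sgn (e a j) * sgn (e a l)) ^ 2) ≤
        s * (d * (Fintype.card (Fin d → Fin s → Bool) : ℝ)) := by
      intro j
      rw [Finset.sum_comm]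
      have h4 : ∀ l : Fin s, ∑ e : Fin d → Fin s → Bool, (if j = l then (0 : ℝ) else
          (∑ a, sgn (e a j) * sgn (e a l)) ^ 2) ≤
          (d * (Fintype.card (Fin d → Fin s → Bool) : ℝ)) := by
        intro l
        by_cases hjl : j = l
        · simp only [hjl, if_true, Finset.sum_const_zero]
          positivity
        · simp only [hjl, if_false]
          exact (gram_pair d s j l hjl).le
      calc _ ≤ ∑ l : Fin s, (d * (Fintype.card (Fin d → Fin s → Bool) : ℝ)) :=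
            Finset.sum_le_sum fun l _ => h4 l
        _ = _ := by simp
    calc _ ≤ ∑ j : Fin s, (s * (d * (Fintype.card (Fin d → Fin s → Bool) : ℝ))) :=
          Finset.sum_le_sum fun j _ => h3 j
      _ = _ := by
          rw [Finset.sum_const, Finset.card_univ, Fintype.card_fin, nsmul_eq_mul]
          ring
  have h5 := hch.trans h2
  have h6 : ((Finset.univ.filter (Bad d s)).card : ℝ) * d * (d / (4 * s ^ 2)) ≤
      4 * s ^ 4 * Fintype.card (Fin d → Fin s → Bool) * (d / (4 * s ^ 2)) := by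
    calc ((Finset.univ.filter (Bad d s)).card : ℝ) * d * (d / (4 * s ^ 2))
        = ((Finset.univ.filter (Bad d s)).card : ℝ) * ((d : ℝ) / (2 * s)) ^ 2 := by
          field_simp; ring
      _ ≤ s ^ 2 * (d * (Fintype.card (Fin d → Fin s → Bool) : ℝ)) := h5
      _ = _ := by field_simp
  exact le_of_mul_le_mul_right h6 (by positivity)

/-- a good sign matrix is almost an isometry -/
theorem good_gram (d s : ℕ) (hs : 0 < s) (e : Fin d → Fin s → Bool) (he : ¬ Bad d s e)
    (w : Fin s → ℝ) :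
    (d : ℝ) / 2 * ∑ j, w j ^ 2 ≤ ∑ a, (∑ j, sgn (e a j) * w j) ^ 2 := by
  have hsR : (0 : ℝ) < s := by exact_mod_cast hs
  have h1 : ∑ a, (∑ j, sgn (e a j) * w j) ^ 2 =
      ∑ j, ∑ l, w j * w l * ∑ a, sgn (e a j) * sgn (e a l) := by
    have h0 : ∀ a, (∑ j, sgn (e a j) * w j) ^ 2 =
        ∑ j, ∑ l, (sgn (e a j) * w j) * (sgn (e a l) * w l) := fun a => by
      rw [sq, Finset.sum_mul_sum]
    simp only [h0]
    rw [Finset.sum_comm]
    refine Finset.sum_congr rfl fun j _ => ?_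
    rw [Finset.sum_comm]
    refine Finset.sum_congr rfl fun l _ => ?_
    rw [Finset.mul_sum]
    refine Finset.sum_congr rfl fun a _ => ?_
    ring
  have h2 : ∀ j l : Fin s, (if j = l then (d : ℝ) * w j ^ 2 else 0) -
      (d : ℝ) / (2 * s) * (|w j| * |w l|) ≤ w j * w l * ∑ a, sgn (e a j) * sgn (e a l) := by
    intro j l
    by_cases hjl : j = l
    · subst hjl
      rw [if_pos rfl]
      have : ∑ a, sgn (e a j) * sgn (e a j) = d := by
        have : ∀ a, sgn (e a j) * sgn (e a j) = 1 := fun a => by rw [← sq, sgn_sq]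
        simp [this]
      rw [this]
      have : 0 ≤ (d : ℝ) / (2 * s) * (|w j| * |w j|) := by positivity
      nlinarith
    · rw [if_neg hjl]
      have h3 : |∑ a, sgn (e a j) * sgn (e a l)| ≤ (d : ℝ) / (2 * s) := by
        by_contra hcon
        exact he ⟨j, l, hjl, not_le.1 hcon⟩
      have h4 : |w j * w l * ∑ a, sgn (e a j) * sgn (e a l)| ≤
          (d : ℝ) / (2 * s) * (|w j| * |w l|) := by
        rw [abs_mul, abs_mul, mul_comm]
        exact mul_le_mul_of_nonneg_right h3 (by positivity)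
      linarith [(abs_le.1 h4).1]
  rw [h1]
  have h5 : ∑ j, ∑ l, ((if j = l then (d : ℝ) * w j ^ 2 else 0) -
      (d : ℝ) / (2 * s) * (|w j| * |w l|)) = d * ∑ j, w j ^ 2 -
        (d : ℝ) / (2 * s) * (∑ j, |w j|) ^ 2 := by
    simp only [Finset.sum_sub_distrib, Finset.sum_ite_eq, Finset.mem_univ, if_true]
    rw [← Finset.mul_sum, sq (∑ j, |w j|), Finset.sum_mul_sum, Finset.mul_sum]
    simp only [Finset.mul_sum]
  have h6 : (∑ j, |w j|) ^ 2 ≤ s * ∑ j, w j ^ 2 := by
    have := sq_sum_le_card_mul_sum_sq (s := Finset.univ) (f := fun j : Fin s => |w j|)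
    simpa [sq_abs] using this
  calc (d : ℝ) / 2 * ∑ j, w j ^ 2 = d * ∑ j, w j ^ 2 - (d : ℝ) / (2 * s) * (s * ∑ j, w j ^ 2) := by
        field_simp; ring
    _ ≤ d * ∑ j, w j ^ 2 - (d : ℝ) / (2 * s) * (∑ j, |w j|) ^ 2 := by
        have : 0 ≤ (d : ℝ) / (2 * s) := by positivity
        linarith [mul_le_mul_of_nonneg_left h6 this]
    _ = _ := h5.symm
    _ ≤ _ := Finset.sum_le_sum fun j _ => Finset.sum_le_sum fun l _ => h2 j l

/-! ### projections -/

theorem proj_diag {n : ℕ} (Q : Matrix (Fin n) (Fin n) ℝ) (h1 : Qᵀ = Q) (h2 : Q * Q = Q)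
    (j : Fin n) : ∑ i, Q i j ^ 2 = Q j j := by
  have h3 := congrFun (congrFun h2 j) j
  rw [mul_apply] at h3
  rw [← h3]
  refine Finset.sum_congr rfl fun i _ => ?_
  rw [sq, ← transpose_apply Q i j, h1]

theorem proj_diag_le {n : ℕ} (Q : Matrix (Fin n) (Fin n) ℝ) (h1 : Qᵀ = Q) (h2 : Q * Q = Q)
    (j : Fin n) : 0 ≤ Q j j ∧ Q j j ≤ 1 := by
  have h := proj_diag Q h1 h2 j
  have h3 : Q j j ^ 2 ≤ ∑ i, Q i j ^ 2 :=
    Finset.single_le_sum (f := fun i => Q i j ^ 2) (fun i _ => sq_nonneg _) (Finset.mem_univ j)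
  have h4 : 0 ≤ ∑ i, Q i j ^ 2 := Finset.sum_nonneg fun i _ => sq_nonneg _
  rw [h] at h3 h4
  exact ⟨h4, by nlinarith⟩

theorem trace_proj_le {n k : ℕ} (M : Matrix (Fin n) (Fin k) ℝ) (X : Matrix (Fin k) (Fin n) ℝ)
    (h : IsPinv M X) : ∑ j, (M * X) j j ≤ k := by
  have h1 : ∑ j, (M * X) j j = ∑ j, (X * M) j j := trace_mul_comm M X
  rw [h1]
  have h2 : (X * M) * (X * M) = X * M := by
    rw [← Matrix.mul_assoc, h.2.1]
  calc ∑ j, (X * M) j j ≤ ∑ _j : Fin k, (1 : ℝ) :=
        Finset.sum_le_sum fun j _ => (proj_diag_le _ h.2.2.2 h2 j).2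
    _ = k := by simp

/-- the deterministic lower bound -/
theorem det_err (D s : ℕ) (hs : 0 < s) (hD : 4 * s ≤ D + 1) (σ κ : ℝ) (hσ : σ ^ 2 = D + 1)
    (F : Matrix (Fin (D + 1)) (Fin s) ℝ) (hF : ∀ a j, F a j ^ 2 = 1)
    (hgood : ∀ w : Fin s → ℝ, ((D + 1 : ℕ) : ℝ) / 2 * ∑ j, w j ^ 2 ≤ ∑ a, (∑ j, F a j * w j) ^ 2)
    (X : Matrix (Fin s) (Fin (D + 1)) ℝ)
    (hX : IsPinv (diagonal (fun i : Fin (D + 1) => if i = 0 then σ else 1) * (κ • F)) X) :
    ((D : ℝ) + 1) / (4 * s + 1) + D - s ≤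
      ∑ i, ∑ j, ((diagonal (fun i : Fin (D + 1) => if i = 0 then σ else 1) -
        (diagonal (fun i : Fin (D + 1) => if i = 0 then σ else 1) * (κ • F)) * X *
        diagonal (fun i : Fin (D + 1) => if i = 0 then σ else 1) :
          Matrix (Fin (D + 1)) (Fin (D + 1)) ℝ) i j) ^ 2 := by
  set a : Fin (D + 1) → ℝ := fun i => if i = 0 then σ else 1 with ha
  set M := diagonal a * (κ • F) with hM
  have hsR : (0 : ℝ) < s := by exact_mod_cast hs
  have hDR : (4 : ℝ) * s ≤ D + 1 := by exact_mod_cast hD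
  set Q : Matrix (Fin (D + 1)) (Fin (D + 1)) ℝ := 1 - M * X with hQ
  have hQt : Qᵀ = Q := by rw [hQ, transpose_sub, transpose_one, hX.2.2.1]
  have hPP : (M * X) * (M * X) = M * X := by rw [← Matrix.mul_assoc, hX.1]
  have hQQ : Q * Q = Q := by
    rw [hQ, Matrix.sub_mul, Matrix.one_mul, Matrix.mul_sub, Matrix.mul_one, hPP, sub_self,
      sub_zero]
  have hE : diagonal a - M * X * diagonal a = Q * diagonal a := by
    rw [hQ, Matrix.sub_mul, Matrix.one_mul]
  have h1 : ∑ i, ∑ j, ((diagonal a - M * X * diagonal a) i j) ^ 2 = ∑ j, a j ^ 2 * Q j j := by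
    rw [hE, Finset.sum_comm]
    refine Finset.sum_congr rfl fun j _ => ?_
    rw [← proj_diag Q hQt hQQ j, Finset.mul_sum]
    refine Finset.sum_congr rfl fun i _ => ?_
    rw [mul_diagonal]
    ring
  rw [h1]
  -- the first diagonal entry
  have hQ0 : 1 / (4 * (s : ℝ) + 1) ≤ Q 0 0 := by
    rw [← proj_diag Q hQt hQQ 0]
    set w : Fin s → ℝ := fun j => κ * X j 0 with hw
    have hMy : ∀ i, (M * X) i 0 = a i * ∑ j, F i j * w j := by
      intro i
      rw [mul_apply, Finset.mul_sum]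
      refine Finset.sum_congr rfl fun j _ => ?_
      rw [hM, diagonal_mul, Matrix.smul_apply, smul_eq_mul, hw]
      ring
    have h2 : ∑ i, Q i 0 ^ 2 = (1 - σ * ∑ j, F 0 j * w j) ^ 2 +
        (∑ i, (∑ j, F i j * w j) ^ 2 - (∑ j, F 0 j * w j) ^ 2) := by
      rw [Fin.sum_univ_succ, Fin.sum_univ_succ (fun i => (∑ j, F i j * w j) ^ 2)]
      have e0 : Q 0 0 = 1 - σ * ∑ j, F 0 j * w j := by
        rw [hQ, Matrix.sub_apply, one_apply_eq, hMy]
        simp [ha]
      have e1 : ∀ i : Fin D, Q i.succ 0 = -∑ j, F i.succ j * w j := by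
        intro i
        rw [hQ, Matrix.sub_apply, one_apply_ne (Fin.succ_ne_zero i), hMy]
        simp [ha, Fin.succ_ne_zero]
      simp only [e0, e1, neg_sq]
      ring
    rw [h2]
    have h3 := hgood w
    have h4 : (∑ j, F 0 j * w j) ^ 2 ≤ s * ∑ j, w j ^ 2 := by
      have := Finset.sum_mul_sq_le_sq_mul_sq Finset.univ (fun j => F 0 j) w
      simpa [hF] using this
    set v := ∑ j, F 0 j * w j
    set W := ∑ j, w j ^ 2
    set u := σ * v with hu
    have hu2 : u ^ 2 = (D + 1) * v ^ 2 := by rw [hu, mul_pow, hσ]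
    have hWv : v ^ 2 / s ≤ W := by
      rw [div_le_iff₀ hsR]; linarith
    have h5 : (1 / (4 * s)) * u ^ 2 ≤ ((D + 1 : ℕ) : ℝ) / 2 * W - v ^ 2 := by
      rw [hu2]
      push_cast
      have h6 : ((D : ℝ) + 1) / 2 * (v ^ 2 / s) ≤ ((D : ℝ) + 1) / 2 * W :=
        mul_le_mul_of_nonneg_left hWv (by positivity)
      have h7 : v ^ 2 ≤ ((D : ℝ) + 1) / (4 * s) * v ^ 2 := by
        have : 1 ≤ ((D : ℝ) + 1) / (4 * s) := by
          rw [le_div_iff₀ (by positivity)]; linarith
        nlinarith [sq_nonneg v]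
      have h8 : ((D : ℝ) + 1) / 2 * (v ^ 2 / s) = 2 * (((D : ℝ) + 1) / (4 * s) * v ^ 2) := by
        field_simp; ring
      have h9 : 1 / (4 * (s : ℝ)) * ((D + 1) * v ^ 2) = ((D : ℝ) + 1) / (4 * s) * v ^ 2 := by
        field_simp
      rw [h9]
      linarith
    have h10 : 1 / (4 * (s : ℝ) + 1) ≤ (1 - u) ^ 2 + 1 / (4 * s) * u ^ 2 := by
      rw [div_le_iff₀ (by positivity)]
      have h11 : ((1 - u) ^ 2 + 1 / (4 * s) * u ^ 2) * (4 * (s : ℝ) + 1) - 1 =
          (4 * s) * (1 - (1 + 1 / (4 * s)) * u) ^ 2 := by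
        field_simp
        ring
      have h12 : 0 ≤ (4 * s) * (1 - (1 + 1 / (4 * s)) * u) ^ 2 := by positivity
      linarith
    linarith
  have htr := trace_proj_le M X hX
  have hP0 := (proj_diag_le (M * X) hX.2.2.1 hPP 0).1
  have hQj : ∀ j, Q j j = 1 - (M * X) j j := fun j => by rw [hQ, Matrix.sub_apply, one_apply_eq]
  rw [Fin.sum_univ_succ]
  rw [Fin.sum_univ_succ] at htr
  have h20 : ∑ i : Fin D, a i.succ ^ 2 * Q i.succ i.succ = D - ∑ i : Fin D, (M * X) i.succ i.succ := by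
    simp [ha, Fin.succ_ne_zero, hQj, Finset.sum_sub_distrib]
  have h21 : a 0 ^ 2 = D + 1 := by simp [ha, hσ]
  rw [h20, h21]
  have h22 := mul_le_mul_of_nonneg_left hQ0 (by positivity : (0 : ℝ) ≤ D + 1)
  have h23 : ((D : ℝ) + 1) * (1 / (4 * s + 1)) = (D + 1) / (4 * s + 1) := by ring
  rw [h23] at h22
  linarith

end Pool.Agent.H10.Svd
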