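import Pool.Agent.H10.SvdDefs
set_option autoImplicit false
open MeasureTheory Matrix
namespace Pool.Agent.H10.Svd

theorem sym_pinv {k : ℕ} (S : Matrix (Fin k) (Fin k) ℝ) (hS : Sᵀ = S) :
    ∃ T : Matrix (Fin k) (Fin k) ℝ, Tᵀ = T ∧ S * T * S = S ∧ T * S * T = T ∧ S * T = T * S := by
  have hH : S.IsHermitian := by
    rw [Matrix.IsHermitian, conjTranspose_eq_transpose_of_trivial]
    exact hS
  obtain ⟨U, D, hU, hSU⟩ : ∃ (U : Matrix (Fin k) (Fin k) ℝ) (D : Fin k → ℝ), Uᵀ * U = 1 ∧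
      S = U * diagonal D * Uᵀ := by
    refine ⟨hH.eigenvectorUnitary, hH.eigenvalues, ?_, ?_⟩
    · have := Unitary.coe_star_mul_self hH.eigenvectorUnitary
      rwa [star_eq_conjTranspose, conjTranspose_eq_transpose_of_trivial] at this
    · have := hH.spectral_theorem
      simpa [Unitary.conjStarAlgAut_apply, star_eq_conjTranspose, conjTranspose_eq_transpose_of_trivial] using this
  have hmul : ∀ a b : Fin k → ℝ, (U * diagonal a * Uᵀ) * (U * diagonal b * Uᵀ) =
      U * diagonal (fun i => a i * b i) * Uᵀ := by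
    intro a b
    calc (U * diagonal a * Uᵀ) * (U * diagonal b * Uᵀ)
        = U * diagonal a * (Uᵀ * U) * diagonal b * Uᵀ := by simp only [Matrix.mul_assoc]
      _ = _ := by rw [hU, Matrix.mul_one, Matrix.mul_assoc U, diagonal_mul_diagonal]
  refine ⟨U * diagonal (fun i => (D i)⁻¹) * Uᵀ, ?_, ?_, ?_, ?_⟩
  · simp only [transpose_mul, transpose_transpose, diagonal_transpose, Matrix.mul_assoc]
  · rw [hSU, hmul, hmul]
    congr 3
    funext i
    by_cases h : D i = 0
    · simp [h]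
    · field_simp
  · rw [hSU, hmul, hmul]
    congr 3
    funext i
    by_cases h : D i = 0
    · simp [h]
    · field_simp
  · rw [hSU, hmul, hmul]
    congr 3
    funext i
    ring

theorem exists_pinv {m k : ℕ} (M : Matrix (Fin m) (Fin k) ℝ) : ∃ X, IsPinv M X := by
  obtain ⟨T, hT, h1, h2, h3⟩ := sym_pinv (Mᵀ * M) (by rw [transpose_mul, transpose_transpose])
  have ht : (M * (T * (Mᵀ * M)))ᵀ = (Mᵀ * M) * T * Mᵀ := by
    simp only [transpose_mul, transpose_transpose, hT, Matrix.mul_assoc]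
  have hz : M * (T * (Mᵀ * M)) = M := by
    have h6 : (M * (T * (Mᵀ * M)) - M)ᵀ * M = 0 := by
      rw [transpose_sub, ht, Matrix.sub_mul, Matrix.mul_assoc _ Mᵀ M, h1, sub_self]
    have h4 : (M * (T * (Mᵀ * M)) - M)ᵀ * (M * (T * (Mᵀ * M)) - M) = 0 := by
      rw [Matrix.mul_sub, ← Matrix.mul_assoc, h6, Matrix.zero_mul, sub_self]
    have h7 : M * (T * (Mᵀ * M)) - M = 0 := by
      rw [← conjTranspose_eq_transpose_of_trivial] at h4
      exact conjTranspose_mul_self_eq_zero.1 h4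
    exact sub_eq_zero.1 h7
  refine ⟨T * Mᵀ, ?_, ?_, ?_, ?_⟩
  · rw [Matrix.mul_assoc M, Matrix.mul_assoc T, hz]
  · rw [Matrix.mul_assoc T, ← Matrix.mul_assoc _ T, h2]
  · rw [transpose_mul, transpose_mul, transpose_transpose, hT, Matrix.mul_assoc]
  · rw [Matrix.mul_assoc, transpose_mul, transpose_mul, transpose_transpose, hT]
    exact h3

theorem pinv_spec {m k : ℕ} (M : Matrix (Fin m) (Fin k) ℝ) : IsPinv M (pinv M) := by
  unfold pinv
  rw [dif_pos (exists_pinv M)]
  exact (exists_pinv M).choose_spec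

end Pool.Agent.H10.Svd
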