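import Pool.Agent.H10.SvdB
import Pool.Agent.H10.SvdP

set_option autoImplicit false

open MeasureTheory Matrix
open scoped ENNReal

namespace Pool.Agent.H10.Svd

/-! ### uniform measures on finite types -/

/-- uniform measure on a finite type -/
noncomputable def unif (α : Type) [Fintype α] [MeasurableSpace α] : Measure α :=
  (Fintype.card α : ℝ≥0∞)⁻¹ • Measure.count

section unif

variable {α : Type} [Fintype α] [Nonempty α] [MeasurableSpace α] [MeasurableSingletonClass α]

theorem unif_real (P : α → Prop) [DecidablePred P] :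
    (unif α).real {x | P x} = ((Finset.univ.filter P).card : ℝ) / Fintype.card α := by
  have h : {x | P x} = ((Finset.univ.filter P : Finset α) : Set α) := by ext; simp
  rw [h, Measure.real, unif, Measure.smul_apply, Measure.count_apply_finset, smul_eq_mul,
    ENNReal.toReal_mul, ENNReal.toReal_inv, ENNReal.toReal_natCast, ENNReal.toReal_natCast]
  ring

theorem unif_prob : IsProbabilityMeasure (unif α) := by
  constructor
  rw [unif, Measure.smul_apply, Measure.count_univ, smul_eq_mul, ENat.card_eq_coe_fintype_card]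
  have h : (Fintype.card α : ℝ≥0∞) ≠ 0 := by
    exact_mod_cast Fintype.card_ne_zero
  exact ENNReal.inv_mul_cancel h (ENNReal.natCast_ne_top _)

theorem unif_integral (f : α → ℝ) : ∫ x, f x ∂(unif α) = (∑ x, f x) / Fintype.card α := by
  classical
  have := unif_prob (α := α)
  rw [integral_fintype (Integrable.of_finite)]
  have h : ∀ x : α, (unif α).real {x} = 1 / Fintype.card α := by
    intro x
    rw [show ({x} : Set α) = {y | y = x} from rfl, unif_real (fun y => y = x)]
    have h1 : (Finset.univ.filter (fun y => y = x)).card = 1 :=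
      Finset.card_eq_one.2 ⟨x, by ext y; simp⟩
    rw [h1, Nat.cast_one]
  simp only [h, smul_eq_mul]
  rw [← Finset.mul_sum]
  ring

end unif

/-! ### the random matrix -/

noncomputable def kap (m s : ℕ) (i : Fin m) : ℝ :=
  if (i : ℕ) = 0 then 0 else Real.sqrt (1 / (s * (1 - 1 / (m : ℝ))))

noncomputable def OM (m s d : ℕ) (ω : Fin m × (Fin d → Fin s → Bool)) :
    Matrix (Fin d) (Fin s) ℝ := kap m s ω.1 • (fun a j => sgn (ω.2 a j))

theorem nsq_OM (m s d : ℕ) (ω : Fin m × (Fin d → Fin s → Bool)) (x : Fin d → ℝ) :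
    nsq ((OM m s d ω)ᵀ *ᵥ x) = kap m s ω.1 ^ 2 * ∑ j, (∑ a, sgn (ω.2 a j) * x a) ^ 2 := by
  unfold nsq
  rw [Finset.mul_sum]
  refine Finset.sum_congr rfl fun j _ => ?_
  rw [← mul_pow]
  congr 1
  rw [Finset.mul_sum]
  simp only [OM, mulVec, dotProduct]
  refine Finset.sum_congr rfl fun a _ => ?_
  show kap m s ω.1 * sgn (ω.2 a j) * x a = _
  ring

theorem sum_all (s d : ℕ) (x : Fin d → ℝ) :
    ∑ e : Fin d → Fin s → Bool, ∑ j, (∑ a, sgn (e a j) * x a) ^ 2 =
      s * (∑ a, x a ^ 2) * (Fintype.card (Fin d → Fin s → Bool) : ℝ) := by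
  have htr : ∑ e : Fin d → Fin s → Bool, ∑ j, (∑ a, sgn (e a j) * x a) ^ 2 =
      ∑ e : Fin s → Fin d → Bool, ∑ j, (∑ a, sgn (e j a) * x a) ^ 2 :=
    Fintype.sum_equiv (Equiv.piComm (fun _ _ => Bool)) _ _ (fun e => rfl)
  have h := (indep (fun b : Fin d → Bool => (∑ a, sgn (b a) * x a) ^ 2 - ∑ a, x a ^ 2)
    (col_stat d x).1 s).1
  simp only [Finset.sum_sub_distrib, Finset.sum_const, Finset.card_univ, Fintype.card_fin,
    nsmul_eq_mul] at h
  have hc : Fintype.card (Fin s → Fin d → Bool) = Fintype.card (Fin d → Fin s → Bool) :=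
    Fintype.card_congr (Equiv.piComm (fun _ _ => Bool))
  rw [htr]
  rw [hc] at h
  linarith

theorem sum_kap (m s : ℕ) (hm : 2 ≤ m) (hs : 0 < s) :
    ∑ i : Fin m, kap m s i ^ 2 = m / s := by
  obtain ⟨m', rfl⟩ : ∃ m', m = m' + 1 := ⟨m - 1, by omega⟩
  have hm' : (0 : ℝ) < m' := by
    have : 1 ≤ m' := by omega
    exact_mod_cast this
  have hsR : (0 : ℝ) < s := by exact_mod_cast hs
  rw [Fin.sum_univ_succ]
  have h0 : kap (m' + 1) s 0 = 0 := by simp [kap]
  have h1 : ∀ i : Fin m', kap (m' + 1) s i.succ ^ 2 = ((m' : ℝ) + 1) / (s * m') := by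
    intro i
    have hpos : 0 ≤ 1 / ((s : ℝ) * (1 - 1 / ((m' + 1 : ℕ) : ℝ))) := by
      apply div_nonneg zero_le_one
      apply mul_nonneg hsR.le
      rw [sub_nonneg, div_le_one (by positivity)]
      push_cast
      linarith
    simp only [kap, Fin.val_succ, Nat.add_eq_zero_iff, one_ne_zero, and_false, if_false]
    rw [Real.sq_sqrt hpos]
    push_cast
    have e : 1 - 1 / ((m' : ℝ) + 1) = m' / (m' + 1) := by field_simp; ring
    rw [e]
    field_simp
  simp only [h0, h1, Finset.sum_const, Finset.card_univ, Fintype.card_fin, nsmul_eq_mul]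
  push_cast
  field_simp
  ring

theorem kap_sq (m s : ℕ) (hm : 2 ≤ m) (hs : 0 < s) (i : Fin m) (hi : (i : ℕ) ≠ 0) :
    kap m s i ^ 2 * ((1 - 1 / (m : ℝ)) * s) = 1 := by
  have hmR : (2 : ℝ) ≤ m := by exact_mod_cast hm
  have hsR : (0 : ℝ) < s := by exact_mod_cast hs
  have h1 : 0 < 1 - 1 / (m : ℝ) := by
    rw [sub_pos, div_lt_one (by positivity)]
    linarith
  simp only [kap, hi, if_false]
  obtain ⟨q, hq⟩ : ∃ q, q = 1 - 1 / (m : ℝ) := ⟨_, rfl⟩
  rw [← hq] at h1 ⊢
  rw [Real.sq_sqrt (by positivity)]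
  field_simp

theorem osi (m s d : ℕ) (hm : 2 ≤ m) (hs : 2 * m ^ 3 ≤ s) (ε δ : ℝ) (hε : 0 ≤ ε)
    (hδ : 2 / (m : ℝ) ≤ δ) :
    IsOSI (unif (Fin m × (Fin d → Fin s → Bool))) (OM m s d) 1 (1 - ε) δ := by
  have : Nonempty (Fin m) := ⟨⟨0, by omega⟩⟩
  have hm0 : 0 < m := by omega
  have hs0 : 0 < s := lt_of_lt_of_le (by positivity) hs
  have hmR : (2 : ℝ) ≤ m := by exact_mod_cast hm
  have hsR : (0 : ℝ) < s := by exact_mod_cast hs0
  have hE : (0 : ℝ) < Fintype.card (Fin d → Fin s → Bool) := by exact_mod_cast Fintype.card_pos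
  refine ⟨fun i j => measurable_of_countable _, ?_, ?_⟩
  · intro x
    rw [unif_integral, Fintype.sum_prod_type]
    simp only [nsq_OM]
    simp only [← Finset.mul_sum]
    rw [← Finset.sum_mul, sum_kap m s hm hs0, sum_all, Fintype.card_prod, Fintype.card_fin]
    push_cast
    unfold nsq
    field_simp
  · intro V hV
    classical
    obtain ⟨x, hx0, hx⟩ := finrank_eq_one_iff'.1 hV
    set P : (Fin d → Fin s → Bool) → Prop := fun e =>
      ∑ j, (∑ a, sgn (e a j) * (x : Fin d → ℝ) a) ^ 2 <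
        (1 - 1 / (m : ℝ)) * s * ∑ a, (x : Fin d → ℝ) a ^ 2 with hP
    have hfew := few_shrink d s m hm0 hs (x : Fin d → ℝ) P (fun e he => he)
    set G : Fin m × (Fin d → Fin s → Bool) → Prop := fun ω => (ω.1 : ℕ) ≠ 0 ∧ ¬ P ω.2 with hG
    have hsub : {ω | G ω} ⊆ {ω | ∀ y ∈ V, (1 - ε) * nsq y ≤ nsq ((OM m s d ω)ᵀ *ᵥ y)} := by
      rintro ω ⟨h1, h2⟩ y hy
      obtain ⟨c, hc⟩ := hx ⟨y, hy⟩
      have hc' : c • (x : Fin d → ℝ) = y := by
        have := congrArg Subtype.val hc
        simpa using this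
      have h3 : nsq (x : Fin d → ℝ) ≤ nsq ((OM m s d ω)ᵀ *ᵥ (x : Fin d → ℝ)) := by
        rw [nsq_OM]
        have h4 := not_lt.1 h2
        have h5 := kap_sq m s hm hs0 ω.1 h1
        calc nsq (x : Fin d → ℝ) = kap m s ω.1 ^ 2 * ((1 - 1 / (m : ℝ)) * s) *
              ∑ a, (x : Fin d → ℝ) a ^ 2 := by rw [h5, one_mul]; rfl
          _ = kap m s ω.1 ^ 2 * ((1 - 1 / (m : ℝ)) * s * ∑ a, (x : Fin d → ℝ) a ^ 2) := by ring
          _ ≤ _ := mul_le_mul_of_nonneg_left h4 (sq_nonneg _)
      have h6 : ∀ {n : ℕ} (z : Fin n → ℝ), nsq (c • z) = c ^ 2 * nsq z := by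
        intro n z
        unfold nsq
        rw [Finset.mul_sum]
        refine Finset.sum_congr rfl fun i _ => ?_
        rw [Pi.smul_apply, smul_eq_mul, mul_pow]
      rw [← hc', mulVec_smul, h6, h6]
      have h7 : 0 ≤ nsq (x : Fin d → ℝ) := Finset.sum_nonneg fun _ _ => sq_nonneg _
      have h8 := mul_le_mul_of_nonneg_left h3 (sq_nonneg c)
      nlinarith [mul_nonneg (mul_nonneg hε (sq_nonneg c)) h7]
    have := unif_prob (α := Fin m × (Fin d → Fin s → Bool))
    refine le_trans ?_ (measureReal_mono hsub)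
    rw [unif_real]
    have hcardS : (Fintype.card (Fin m × (Fin d → Fin s → Bool)) : ℝ) =
        m * Fintype.card (Fin d → Fin s → Bool) := by
      rw [Fintype.card_prod, Fintype.card_fin]; push_cast; rfl
    have hneg : ((Finset.univ.filter fun ω => ¬ G ω).card : ℝ) ≤
        Fintype.card (Fin d → Fin s → Bool) + m * (Finset.univ.filter P).card := by
      have hss : (Finset.univ.filter fun ω => ¬ G ω) ⊆
          ({⟨0, hm0⟩} : Finset (Fin m)) ×ˢ (Finset.univ : Finset (Fin d → Fin s → Bool)) ∪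
          (Finset.univ : Finset (Fin m)) ×ˢ (Finset.univ.filter P) := by
        rintro ⟨i, e⟩ h
        rw [Finset.mem_filter] at h
        have h2 := h.2
        simp only [hG, not_and, not_not, ne_eq] at h2
        rw [Finset.mem_union, Finset.mem_product, Finset.mem_product]
        by_cases hi : (i : ℕ) = 0
        · left
          refine ⟨Finset.mem_singleton.2 (Fin.ext hi), Finset.mem_univ _⟩
        · right
          exact ⟨Finset.mem_univ _, Finset.mem_filter.2 ⟨Finset.mem_univ _, h2 hi⟩⟩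
      have hc := (Finset.card_le_card hss).trans (Finset.card_union_le _ _)
      rw [Finset.card_product, Finset.card_product, Finset.card_singleton, one_mul,
        Finset.card_univ, Finset.card_univ, Fintype.card_fin] at hc
      exact_mod_cast hc
    have hsum : ((Finset.univ.filter G).card : ℝ) + ((Finset.univ.filter fun ω => ¬ G ω).card : ℝ) =
        m * Fintype.card (Fin d → Fin s → Bool) := by
      rw [← hcardS]
      exact_mod_cast Finset.card_filter_add_card_filter_not (s := Finset.univ) G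
    rw [hcardS, le_div_iff₀ (by positivity)]
    have h9 : 2 / (m : ℝ) * (m * (Fintype.card (Fin d → Fin s → Bool) : ℝ)) =
        2 * Fintype.card (Fin d → Fin s → Bool) := by field_simp
    have h10 : 2 / (m : ℝ) * (m * (Fintype.card (Fin d → Fin s → Bool) : ℝ)) ≤
        δ * (m * (Fintype.card (Fin d → Fin s → Bool) : ℝ)) :=
      mul_le_mul_of_nonneg_right hδ (by positivity)
    nlinarith

theorem frob_sq {m n : ℕ} (A : Matrix (Fin m) (Fin n) ℝ) : frob A ^ 2 = ∑ i, ∑ j, A i j ^ 2 :=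
  Real.sq_sqrt (Finset.sum_nonneg fun _ _ => Finset.sum_nonneg fun _ _ => sq_nonneg _)

theorem frob_nonneg {m n : ℕ} (A : Matrix (Fin m) (Fin n) ℝ) : 0 ≤ frob A := Real.sqrt_nonneg _

theorem optErr_le {n d : ℕ} (A B : Matrix (Fin n) (Fin d) ℝ) (r : ℕ) (hB : B.rank ≤ r) :
    optErr A r ≤ frob (A - B) :=
  csInf_le ⟨0, by rintro _ ⟨B, -, rfl⟩; exact frob_nonneg _⟩ ⟨B, hB, rfl⟩

/-- the test matrix -/
noncomputable def AD (D : ℕ) : Matrix (Fin (D + 1)) (Fin (D + 1)) ℝ :=
  diagonal (fun i => if i = 0 then Real.sqrt (D + 1) else 1)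

theorem optErr_AD (D : ℕ) : optErr (AD D) 1 ≤ Real.sqrt D := by
  refine (optErr_le (AD D) (diagonal (fun i => if i = 0 then Real.sqrt (D + 1) else 0)) 1 ?_).trans
    ?_
  · rw [rank_diagonal]
    rw [Fintype.card_le_one_iff_subsingleton]
    constructor
    rintro ⟨i, hi⟩ ⟨j, hj⟩
    have h1 : i = 0 := by
      by_contra h
      exact hi (by simp [h])
    have h2 : j = 0 := by
      by_contra h
      exact hj (by simp [h])
    subst h1 h2
    rfl
  · unfold frob
    apply le_of_eq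
    congr 1
    have h : AD D - diagonal (fun i => if i = 0 then Real.sqrt (D + 1) else 0) =
        diagonal (fun i : Fin (D + 1) => if i = 0 then (0 : ℝ) else 1) := by
      rw [AD, diagonal_sub]
      congr 1
      funext i
      by_cases hi : i = 0 <;> simp [hi]
    rw [h]
    have h2 : ∀ i : Fin (D + 1), ∑ j, (diagonal (fun i : Fin (D + 1) =>
        if i = 0 then (0 : ℝ) else 1) i j) ^ 2 = if i = 0 then 0 else 1 := by
      intro i
      rw [Finset.sum_eq_single i]
      · rw [diagonal_apply_eq]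
        by_cases hi : i = 0 <;> simp [hi]
      · intro j _ hj
        rw [diagonal_apply_ne _ hj.symm]
        ring
      · simp
    simp only [h2]
    rw [Fin.sum_univ_succ]
    simp [Fin.succ_ne_zero]

theorem main1 (δ C p0 ε0 : ℝ) (hδ : 0 < δ) (hC : 0 < C) (hp0 : 0 < p0) (hε0 : 0 < ε0) :
    ∃ ε : ℝ, 0 < ε ∧ ε < ε0 ∧ ε < 1 ∧ ∃ (n d k : ℕ) (A : Matrix (Fin n) (Fin d) ℝ) (S : Type)
      (_ : MeasurableSpace S) (μ : Measure S) (Om : S → Matrix (Fin d) (Fin k) ℝ),
      IsProbabilityMeasure μ ∧ IsOSI μ Om 1 (1 - ε) δ ∧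
      μ.real {ω | frob (A - rsvd A (Om ω)) ≤ (1 + C * ε) * optErr A 1} < p0 := by
  classical
  -- parameters
  obtain ⟨m, hm1⟩ := exists_nat_gt (max 2 (2 / δ))
  have hm2 : (2 : ℝ) < m := lt_of_le_of_lt (le_max_left _ _) hm1
  have hm3 : 2 / δ < m := lt_of_le_of_lt (le_max_right _ _) hm1
  have hm : 2 ≤ m := by exact_mod_cast hm2.le
  have hmδ : 2 / (m : ℝ) ≤ δ := by
    rw [div_lt_iff₀ hδ] at hm3
    rw [div_le_iff₀ (by linarith)]
    linarith
  set s := 2 * m ^ 3 with hs
  have hs0 : 0 < s := by positivity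
  have hsR : (0 : ℝ) < s := by exact_mod_cast hs0
  obtain ⟨D, hD1⟩ := exists_nat_gt (max ((s : ℝ) * (8 * s + 2)) (4 * s ^ 4 / p0))
  have hD2 : (s : ℝ) * (8 * s + 2) < D := lt_of_le_of_lt (le_max_left _ _) hD1
  have hD3 : 4 * (s : ℝ) ^ 4 / p0 < D := lt_of_le_of_lt (le_max_right _ _) hD1
  have hs1 : (1 : ℝ) ≤ s := by exact_mod_cast hs0
  have hDpos : (0 : ℝ) < D := by nlinarith
  have hD4 : 4 * s ≤ D + 1 := by
    have : (4 : ℝ) * s ≤ D + 1 := by nlinarith
    exact_mod_cast this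
  set c : ℝ := 1 / (4 * (8 * s + 2)) with hc
  have hcpos : 0 < c := by positivity
  refine ⟨min (ε0 / 2) (min (1 / 2) (c / C)), by positivity, ?_, ?_, ?_⟩
  · exact lt_of_le_of_lt (min_le_left _ _) (by linarith)
  · exact lt_of_le_of_lt ((min_le_right _ _).trans (min_le_left _ _)) (by norm_num)
  set ε := min (ε0 / 2) (min (1 / 2) (c / C)) with hε
  have hεpos : 0 < ε := by positivity
  have hCε : C * ε ≤ c := by
    have : ε ≤ c / C := (min_le_right _ _).trans (min_le_right _ _)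
    calc C * ε ≤ C * (c / C) := mul_le_mul_of_nonneg_left this hC.le
      _ = c := by field_simp
  have : Nonempty (Fin m) := ⟨⟨0, by omega⟩⟩
  refine ⟨D + 1, D + 1, s, AD D, Fin m × (Fin (D + 1) → Fin s → Bool), inferInstance, unif _,
    OM m s (D + 1), unif_prob, osi m s (D + 1) hm le_rfl ε δ hεpos.le hmδ, ?_⟩
  have hprob := unif_prob (α := Fin m × (Fin (D + 1) → Fin s → Bool))
  have hsub : {ω : Fin m × (Fin (D + 1) → Fin s → Bool) |
      frob (AD D - rsvd (AD D) (OM m s (D + 1) ω)) ≤ (1 + C * ε) * optErr (AD D) 1} ⊆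
      {ω | Bad (D + 1) s ω.2} := by
    intro ω hω
    by_contra hbad
    have hω' : frob (AD D - rsvd (AD D) (OM m s (D + 1) ω)) ≤ (1 + C * ε) * optErr (AD D) 1 := hω
    have hgood := good_gram (D + 1) s hs0 ω.2 hbad
    have hdet := det_err D s hs0 hD4 (Real.sqrt (D + 1)) (kap m s ω.1)
      (Real.sq_sqrt (by positivity)) (fun a j => sgn (ω.2 a j)) (fun a j => sgn_sq _) hgood
      (pinv (AD D * OM m s (D + 1) ω)) (pinv_spec _)
    have h1 : ((D : ℝ) + 1) / (4 * s + 1) + D - s ≤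
        frob (AD D - rsvd (AD D) (OM m s (D + 1) ω)) ^ 2 := by
      rw [frob_sq]
      exact hdet
    have h2 : (1 + 1 / (8 * (s : ℝ) + 2)) * D ≤ ((D : ℝ) + 1) / (4 * s + 1) + D - s := by
      have h3 : (s : ℝ) ≤ D / (8 * s + 2) := by
        rw [le_div_iff₀ (by positivity)]; linarith
      have h4 : ((D : ℝ) + 1) / (4 * s + 1) = 2 * (D / (8 * s + 2)) + 1 / (4 * s + 1) := by
        field_simp; ring
      have h5 : (1 + 1 / (8 * (s : ℝ) + 2)) * D = D + D / (8 * s + 2) := by field_simp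
      have h6 : 0 ≤ 1 / (4 * (s : ℝ) + 1) := by positivity
      rw [h4, h5]
      linarith
    have h7 : frob (AD D - rsvd (AD D) (OM m s (D + 1) ω)) ^ 2 ≤ (1 + c) ^ 2 * D := by
      have h8 : frob (AD D - rsvd (AD D) (OM m s (D + 1) ω)) ≤ (1 + c) * Real.sqrt D := by
        refine hω'.trans ?_
        refine (mul_le_mul_of_nonneg_left (optErr_AD D) (by positivity)).trans ?_
        exact mul_le_mul_of_nonneg_right (by linarith) (Real.sqrt_nonneg _)
      have h9 := pow_le_pow_left₀ (frob_nonneg _) h8 2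
      rwa [mul_pow, Real.sq_sqrt hDpos.le] at h9
    have h10 : (1 + c) ^ 2 < 1 + 1 / (8 * (s : ℝ) + 2) := by
      have h11 : 1 / (8 * (s : ℝ) + 2) = 4 * c := by rw [hc]; field_simp
      have h12 : c ≤ 1 / 4 := by
        rw [hc, div_le_div_iff₀ (by positivity) (by norm_num)]
        nlinarith
      rw [h11]
      nlinarith
    have h13 := mul_lt_mul_of_pos_right h10 hDpos
    linarith
  refine lt_of_le_of_lt (measureReal_mono hsub) ?_
  rw [unif_real]
  have hbad := few_bad (D + 1) s (by omega) hs0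
  have hcard : (Finset.univ.filter fun ω : Fin m × (Fin (D + 1) → Fin s → Bool) =>
      Bad (D + 1) s ω.2).card = m * (Finset.univ.filter (Bad (D + 1) s)).card := by
    have : (Finset.univ.filter fun ω : Fin m × (Fin (D + 1) → Fin s → Bool) =>
        Bad (D + 1) s ω.2) = (Finset.univ : Finset (Fin m)) ×ˢ
          (Finset.univ.filter (Bad (D + 1) s)) := by
      ext ⟨i, e⟩
      simp
    rw [this, Finset.card_product, Finset.card_univ, Fintype.card_fin]
  rw [hcard, Fintype.card_prod, Fintype.card_fin]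
  push_cast
  have hmpos : (0 : ℝ) < m := by linarith
  have hE : (0 : ℝ) < Fintype.card (Fin (D + 1) → Fin s → Bool) := by
    exact_mod_cast Fintype.card_pos
  rw [mul_div_mul_left _ _ hmpos.ne', div_lt_iff₀ hE]
  push_cast at hbad
  rw [div_lt_iff₀ hp0] at hD3
  have h20 : ((Finset.univ.filter (Bad (D + 1) s)).card : ℝ) * (D + 1) <
      p0 * Fintype.card (Fin (D + 1) → Fin s → Bool) * (D + 1) := by
    refine lt_of_le_of_lt hbad ?_
    nlinarith
  exact lt_of_mul_lt_mul_right h20 (by positivity)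

end Pool.Agent.H10.Svd
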