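import Mathlib

/-! Definitions for MP_082b65_an: randomized SVD and oblivious subspace injections. -/

set_option autoImplicit false

open MeasureTheory Matrix

namespace Pool.Agent.H10.Svd

variable {m n d k : ℕ}

/-- squared Euclidean norm of a vector -/
def nsq (x : Fin m → ℝ) : ℝ := ∑ i, x i ^ 2

/-- Frobenius norm of a matrix -/
noncomputable def frob (A : Matrix (Fin m) (Fin n) ℝ) : ℝ := Real.sqrt (∑ i, ∑ j, A i j ^ 2)

/-- the four Penrose conditions: `X` is the Moore-Penrose pseudoinverse of `M` -/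
def IsPinv (M : Matrix (Fin m) (Fin k) ℝ) (X : Matrix (Fin k) (Fin m) ℝ) : Prop :=
  M * X * M = M ∧ X * M * X = X ∧ (M * X)ᵀ = M * X ∧ (X * M)ᵀ = X * M

open Classical in
/-- the Moore-Penrose pseudoinverse -/
noncomputable def pinv (M : Matrix (Fin m) (Fin k) ℝ) : Matrix (Fin k) (Fin m) ℝ :=
  if h : ∃ X, IsPinv M X then h.choose else 0

/-- the randomized SVD approximation `(A Ω)(A Ω)⁺ A` -/
noncomputable def rsvd (A : Matrix (Fin n) (Fin d) ℝ) (Om : Matrix (Fin d) (Fin k) ℝ) :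
    Matrix (Fin n) (Fin d) ℝ :=
  (A * Om) * pinv (A * Om) * A

/-- `‖A - A_r‖_F`, the error of the best rank `r` approximation -/
noncomputable def optErr (A : Matrix (Fin n) (Fin d) ℝ) (r : ℕ) : ℝ :=
  sInf {e | ∃ B : Matrix (Fin n) (Fin d) ℝ, B.rank ≤ r ∧ e = frob (A - B)}

/-- oblivious subspace injection with dimension `r`, injectivity `α` and failure probability `δ` -/
structure IsOSI {S : Type} [MeasurableSpace S] (μ : Measure S)
    (Om : S → Matrix (Fin d) (Fin k) ℝ) (r : ℕ) (α δ : ℝ) : Prop where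
  measurable : ∀ i j, Measurable fun ω => Om ω i j
  isotropy : ∀ x : Fin d → ℝ, ∫ ω, nsq ((Om ω)ᵀ *ᵥ x) ∂μ = nsq x
  injectivity : ∀ V : Submodule ℝ (Fin d → ℝ), Module.finrank ℝ V = r →
    1 - δ ≤ μ.real {ω | ∀ x ∈ V, α * nsq x ≤ nsq ((Om ω)ᵀ *ᵥ x)}

end Pool.Agent.H10.Svd
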