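import Pool.Agent.H10.SvdC

set_option autoImplicit false

open MeasureTheory Matrix

namespace Pool.Agent.H10.Svd

variable {n d k r : ℕ}

theorem nsq_nonneg {m : ℕ} (x : Fin m → ℝ) : 0 ≤ nsq x := Finset.sum_nonneg fun _ _ => sq_nonneg _

theorem nsq_eq_dot {m : ℕ} (x : Fin m → ℝ) : nsq x = x ⬝ᵥ x := by
  unfold nsq dotProduct
  exact Finset.sum_congr rfl fun i _ => sq (x i)

theorem adj {m n : ℕ} (A : Matrix (Fin m) (Fin n) ℝ) (x : Fin n → ℝ) (y : Fin m → ℝ) :
    (A *ᵥ x) ⬝ᵥ y = x ⬝ᵥ (Aᵀ *ᵥ y) := by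
  rw [dotProduct_mulVec, vecMul_transpose]

/-- symmetric idempotents contract -/
theorem proj_nsq_le {m : ℕ} (Q : Matrix (Fin m) (Fin m) ℝ) (h1 : Qᵀ = Q) (h2 : Q * Q = Q)
    (x : Fin m → ℝ) : nsq (Q *ᵥ x) ≤ nsq x := by
  have h3 : (Q *ᵥ x) ⬝ᵥ (Q *ᵥ x) = x ⬝ᵥ (Q *ᵥ x) := by
    rw [adj, h1, mulVec_mulVec, h2]
  have h4 : 0 ≤ nsq (x - Q *ᵥ x) := nsq_nonneg _
  rw [nsq_eq_dot, sub_dotProduct, dotProduct_sub, dotProduct_sub, h3, dotProduct_comm (Q *ᵥ x) x]
    at h4
  rw [nsq_eq_dot, nsq_eq_dot, h3]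
  linarith

theorem frob_cols (A : Matrix (Fin n) (Fin d) ℝ) : frob A ^ 2 = ∑ j, nsq (fun i => A i j) := by
  rw [frob_sq, Finset.sum_comm]
  rfl

theorem frob_rows (A : Matrix (Fin n) (Fin d) ℝ) : frob A ^ 2 = ∑ i, nsq (A i) := by
  rw [frob_sq]
  rfl

theorem frob_transpose (A : Matrix (Fin n) (Fin d) ℝ) : frob Aᵀ = frob A := by
  unfold frob
  rw [Finset.sum_comm]
  rfl

theorem frob_proj_left (Q : Matrix (Fin n) (Fin n) ℝ) (h1 : Qᵀ = Q) (h2 : Q * Q = Q)
    (Z : Matrix (Fin n) (Fin d) ℝ) : frob (Q * Z) ≤ frob Z := by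
  rw [← Real.sqrt_sq (frob_nonneg (Q * Z)), ← Real.sqrt_sq (frob_nonneg Z)]
  apply Real.sqrt_le_sqrt
  rw [frob_cols, frob_cols]
  exact Finset.sum_le_sum fun j _ => proj_nsq_le Q h1 h2 (fun i => Z i j)

theorem frob_proj_right (Q : Matrix (Fin d) (Fin d) ℝ) (h1 : Qᵀ = Q) (h2 : Q * Q = Q)
    (Z : Matrix (Fin n) (Fin d) ℝ) : frob (Z * Q) ≤ frob Z := by
  rw [← frob_transpose, ← frob_transpose Z, transpose_mul, h1]
  exact frob_proj_left Q h1 h2 _

/-- the randomized SVD error is optimal over the range -/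
theorem rsvd_le (A : Matrix (Fin n) (Fin d) ℝ) (Om : Matrix (Fin d) (Fin k) ℝ)
    (Y : Matrix (Fin k) (Fin d) ℝ) : frob (A - rsvd A Om) ≤ frob (A - A * Om * Y) := by
  have hX := pinv_spec (A * Om)
  set M := A * Om with hM
  set P := M * pinv M with hP
  have hQt : (1 - P)ᵀ = 1 - P := by rw [transpose_sub, transpose_one, hX.2.2.1]
  have hPP : P * P = P := by rw [hP, ← Matrix.mul_assoc, hX.1]
  have hQQ : (1 - P) * (1 - P) = 1 - P := by
    rw [Matrix.sub_mul, Matrix.one_mul, Matrix.mul_sub, Matrix.mul_one, hPP, sub_self, sub_zero]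
  have h := frob_proj_left (1 - P) hQt hQQ (A - M * Y)
  have e : (1 - P) * (A - M * Y) = A - rsvd A Om := by
    have h1 : P * (M * Y) = M * Y := by rw [← Matrix.mul_assoc, hX.1]
    rw [Matrix.mul_sub, Matrix.sub_mul, Matrix.sub_mul, Matrix.one_mul, Matrix.one_mul, h1,
      sub_self, sub_zero]
    rfl
  rwa [e] at h

/-! ### frames -/

theorem exists_frame (hr : r ≤ d) (B : Matrix (Fin n) (Fin d) ℝ) (hB : B.rank ≤ r) :
    ∃ V : Matrix (Fin d) (Fin r) ℝ, Vᵀ * V = 1 ∧ B * (V * Vᵀ) = B := by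
  let E := EuclideanSpace ℝ (Fin d)
  let e : (Fin d → ℝ) ≃ₗ[ℝ] E := (WithLp.linearEquiv 2 ℝ (Fin d → ℝ)).symm
  let R : Submodule ℝ E := (Submodule.span ℝ (Set.range B.row)).map (e : (Fin d → ℝ) →ₗ[ℝ] E)
  have hfin : Module.finrank ℝ R ≤ r := by
    have : Module.finrank ℝ R = Module.finrank ℝ (Submodule.span ℝ (Set.range B.row)) :=
      LinearEquiv.finrank_map_eq e _
    rw [this, ← Matrix.rank_eq_finrank_span_row]
    exact hB
  set q := Module.finrank ℝ R with hq
  let u : OrthonormalBasis (Fin q) ℝ R := stdOrthonormalBasis ℝ R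
  let v : Fin d → E := fun i => if h : (i : ℕ) < q then (u ⟨i, h⟩ : E) else 0
  have hv : Orthonormal ℝ (({i : Fin d | (i : ℕ) < q}).restrict v) := by
    have h1 : ({i : Fin d | (i : ℕ) < q}).restrict v =
        (fun i : Fin q => (u i : E)) ∘ (fun i : {i : Fin d | (i : ℕ) < q} => ⟨i.1, i.2⟩) := by
      funext i
      have hi : ((i : Fin d) : ℕ) < q := i.2
      show v i.1 = (u ⟨i.1, hi⟩ : E)
      simp only [v]
      rw [dif_pos hi]
    rw [h1]
    apply Orthonormal.comp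
    · exact u.orthonormal.comp_linearIsometry R.subtypeₗᵢ
    · intro i j hij
      apply Subtype.ext
      apply Fin.ext
      simpa using hij
  obtain ⟨b, hb⟩ := hv.exists_orthonormalBasis_extension_of_card_eq (by simp [E])
  let V : Matrix (Fin d) (Fin r) ℝ := fun i j => (b (Fin.castLE hr j)) i
  have hVV : Vᵀ * V = 1 := by
    ext i j
    have h2 := b.orthonormal
    rw [orthonormal_iff_ite] at h2
    have h3 := h2 (Fin.castLE hr i) (Fin.castLE hr j)
    rw [mul_apply, one_apply]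
    have h4 : inner ℝ (b (Fin.castLE hr i)) (b (Fin.castLE hr j)) = ∑ l, Vᵀ i l * V l j := by
      rw [PiLp.inner_apply]
      refine Finset.sum_congr rfl fun l _ => ?_
      simp only [RCLike.inner_apply, conj_trivial]
      show _ = (b (Fin.castLE hr i)) l * (b (Fin.castLE hr j)) l
      ring
    rw [← h4, h3]
    by_cases hij : i = j
    · simp [hij]
    · rw [if_neg hij, if_neg]
      intro h
      exact hij (Fin.castLE_injective hr h)
  refine ⟨V, hVV, ?_⟩
  -- rows of `B` are fixed by the projection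
  have hfix : ∀ x : Fin d → ℝ, x ∈ Submodule.span ℝ (Set.range B.row) → (V * Vᵀ) *ᵥ x = x := by
    intro x hx
    have hxR : e x ∈ R := Submodule.mem_map_of_mem hx
    have h5 := u.sum_repr ⟨e x, hxR⟩
    have h6 : e x = ∑ i, (u.repr ⟨e x, hxR⟩) i • (u i : E) := by
      have := congrArg (Subtype.val) h5.symm
      simpa using this
    have h7 : x = ∑ i, (u.repr ⟨e x, hxR⟩) i • (e.symm (u i : E)) := by
      have := congrArg e.symm h6
      simpa using this
    have h8 : ∀ i : Fin q, (V * Vᵀ) *ᵥ (e.symm (u i : E)) = e.symm (u i : E) := by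
      intro i
      have hiR : (i : ℕ) < r := lt_of_lt_of_le i.2 hfin
      have h9 : e.symm (u i : E) = V *ᵥ (Pi.single ⟨i, hiR⟩ 1) := by
        funext l
        have h10 := hb ⟨i, lt_of_lt_of_le hiR hr⟩ i.2
        have h11 : v ⟨i, lt_of_lt_of_le hiR hr⟩ = (u i : E) := by
          simp only [v]
          rw [dif_pos i.2]
        rw [h11] at h10
        rw [mulVec_single_one]
        show (u i : E) l = b (Fin.castLE hr ⟨i, hiR⟩) l
        rw [← h10]
        rfl
      rw [h9, ← mulVec_mulVec, mulVec_mulVec _ Vᵀ V, hVV, one_mulVec]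
    conv_rhs => rw [h7]
    conv_lhs => rw [h7]
    rw [mulVec_sum]
    refine Finset.sum_congr rfl fun i _ => ?_
    rw [mulVec_smul, h8]
  have hsym : (V * Vᵀ)ᵀ = V * Vᵀ := by rw [transpose_mul, transpose_transpose]
  ext i j
  have h12 := hfix (B i) (Submodule.subset_span ⟨i, rfl⟩)
  have h13 := congrFun h12 j
  rw [← h13, mul_apply]
  simp only [mulVec, dotProduct]
  refine Finset.sum_congr rfl fun l _ => ?_
  rw [mul_comm, ← transpose_apply (V * Vᵀ) j l, hsym]

theorem frame_proj (V : Matrix (Fin d) (Fin r) ℝ) (hV : Vᵀ * V = 1) :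
    (V * Vᵀ)ᵀ = V * Vᵀ ∧ (V * Vᵀ) * (V * Vᵀ) = V * Vᵀ := by
  constructor
  · rw [transpose_mul, transpose_transpose]
  · rw [Matrix.mul_assoc, ← Matrix.mul_assoc Vᵀ, hV, Matrix.one_mul]

/-- a best rank `r` approximation through an orthonormal frame -/
theorem exists_best (hr : r ≤ d) (A : Matrix (Fin n) (Fin d) ℝ) :
    ∃ V : Matrix (Fin d) (Fin r) ℝ, Vᵀ * V = 1 ∧
      ∀ B : Matrix (Fin n) (Fin d) ℝ, B.rank ≤ r → frob (A - A * (V * Vᵀ)) ≤ frob (A - B) := by
  let K : Set (Fin d → Fin r → ℝ) := {V | (Matrix.of V)ᵀ * (Matrix.of V) = 1}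
  have hKc : IsCompact K := by
    have hcl : IsClosed K := by
      have hcont : Continuous (fun V : Fin d → Fin r → ℝ => (Matrix.of V)ᵀ * (Matrix.of V)) := by
        fun_prop
      exact isClosed_eq hcont continuous_const
    have hsub : K ⊆ Set.Icc (fun _ _ => -1) (fun _ _ => 1) := by
      intro V hV
      have h1 : ∀ i j, V i j ^ 2 ≤ 1 := by
        intro i j
        have h2 := congrFun (congrFun (show (Matrix.of V)ᵀ * (Matrix.of V) = 1 from hV) j) j
        rw [mul_apply, one_apply_eq] at h2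
        rw [← h2]
        have : ∑ l, (Matrix.of V)ᵀ j l * (Matrix.of V) l j = ∑ l, V l j ^ 2 :=
          Finset.sum_congr rfl fun l _ => by
            show V l j * V l j = _
            ring
        rw [this]
        exact Finset.single_le_sum (f := fun l => V l j ^ 2) (fun _ _ => sq_nonneg _)
          (Finset.mem_univ i)
      constructor
      · intro i j
        have := h1 i j
        nlinarith [abs_le_one_iff_mul_self_le_one.2 (by nlinarith : V i j * V i j ≤ 1),
          neg_abs_le (V i j)]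
      · intro i j
        have := h1 i j
        nlinarith [abs_le_one_iff_mul_self_le_one.2 (by nlinarith : V i j * V i j ≤ 1),
          le_abs_self (V i j)]
    exact isCompact_Icc.of_isClosed_subset hcl hsub
  have hKn : K.Nonempty := by
    obtain ⟨V, hV, -⟩ := exists_frame hr (0 : Matrix (Fin n) (Fin d) ℝ) (by simp)
    exact ⟨V, hV⟩
  have hcf : Continuous (fun V : Fin d → Fin r → ℝ =>
      frob (A - A * ((Matrix.of V) * (Matrix.of V)ᵀ))) := by
    unfold frob
    fun_prop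
  obtain ⟨V, hVK, hmin⟩ := hKc.exists_isMinOn hKn hcf.continuousOn
  refine ⟨Matrix.of V, hVK, ?_⟩
  intro B hB
  obtain ⟨W, hW, hBW⟩ := exists_frame hr B hB
  have h1 : frob (A - A * (Matrix.of V * (Matrix.of V)ᵀ)) ≤ frob (A - A * (W * Wᵀ)) :=
    hmin (show W ∈ K from hW)
  refine h1.trans ?_
  obtain ⟨h2, h3⟩ := frame_proj W hW
  have hQt : (1 - W * Wᵀ)ᵀ = 1 - W * Wᵀ := by rw [transpose_sub, transpose_one, h2]
  have hQQ : (1 - W * Wᵀ) * (1 - W * Wᵀ) = 1 - W * Wᵀ := by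
    rw [Matrix.sub_mul, Matrix.one_mul, Matrix.mul_sub, Matrix.mul_one, h3, sub_self, sub_zero]
  have h4 := frob_proj_right (1 - W * Wᵀ) hQt hQQ (A - B)
  have e : (A - B) * (1 - W * Wᵀ) = A - A * (W * Wᵀ) := by
    rw [Matrix.mul_sub, Matrix.mul_one, Matrix.sub_mul, hBW]
    abel
  rwa [e] at h4

end Pool.Agent.H10.Svd
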