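import Pool.Agent.H10.SvdQ

set_option autoImplicit false

open MeasureTheory Matrix

namespace Pool.Agent.H10.Svd

variable {n d k r ρ : ℕ}

section meas

variable {S : Type} [MeasurableSpace S] (Om : S → Matrix (Fin d) (Fin k) ℝ)
  (hOm : ∀ i j, Measurable fun ω => Om ω i j)

include hOm

theorem meas_F : Measurable (fun ω => (fun i j => Om ω i j : Fin d → Fin k → ℝ)) :=
  measurable_pi_iff.2 fun i => measurable_pi_iff.2 fun j => hOm i j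

omit hOm in
theorem cont_nsq (x : Fin d → ℝ) :
    Continuous (fun M : Fin d → Fin k → ℝ => nsq ((Matrix.of M)ᵀ *ᵥ x)) := by
  unfold nsq mulVec dotProduct
  simp only [transpose_apply, of_apply]
  fun_prop

theorem meas_nsq (x : Fin d → ℝ) : Measurable (fun ω => nsq ((Om ω)ᵀ *ᵥ x)) :=
  (cont_nsq x).measurable.comp (meas_F Om hOm)

theorem meas_G (α : ℝ) (W : Submodule ℝ (Fin d → ℝ)) :
    MeasurableSet {ω | ∀ x ∈ W, α * nsq x ≤ nsq ((Om ω)ᵀ *ᵥ x)} := by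
  have hcl : IsClosed {M : Fin d → Fin k → ℝ | ∀ x ∈ W, α * nsq x ≤
      nsq ((Matrix.of M)ᵀ *ᵥ x)} := by
    have : {M : Fin d → Fin k → ℝ | ∀ x ∈ W, α * nsq x ≤ nsq ((Matrix.of M)ᵀ *ᵥ x)} =
        ⋂ x ∈ W, {M | α * nsq x ≤ nsq ((Matrix.of M)ᵀ *ᵥ x)} := by
      ext M; simp
    rw [this]
    exact isClosed_biInter fun x _ => isClosed_le continuous_const (cont_nsq x)
  exact (meas_F Om hOm) hcl.measurableSet

end meas

/-! ### deterministic facts -/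

theorem nsq_frame (V : Matrix (Fin d) (Fin r) ℝ) (hV : Vᵀ * V = 1) (s : Fin r → ℝ) :
    nsq (V *ᵥ s) = nsq s := by
  rw [nsq_eq_dot, adj, mulVec_mulVec, hV, one_mulVec, ← nsq_eq_dot]

theorem nsq_ortho (V : Matrix (Fin d) (Fin r) ℝ) (hV : Vᵀ * V = 1) (b : Fin d → ℝ)
    (hb : Vᵀ *ᵥ b = 0) (c : ℝ) (s : Fin r → ℝ) :
    nsq (c • b - V *ᵥ s) = c ^ 2 * nsq b + nsq s := by
  have h1 : (V *ᵥ s) ⬝ᵥ b = 0 := by rw [adj, hb, dotProduct_zero]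
  have h2 := nsq_frame V hV s
  have h1' : b ⬝ᵥ (V *ᵥ s) = 0 := by rw [dotProduct_comm, h1]
  rw [nsq_eq_dot] at h2
  rw [nsq_eq_dot, sub_dotProduct, dotProduct_sub, dotProduct_sub, h2]
  simp only [smul_dotProduct, dotProduct_smul, h1, h1', smul_eq_mul]
  rw [nsq_eq_dot b]
  ring

theorem nsq_smul {m : ℕ} (c : ℝ) (z : Fin m → ℝ) : nsq (c • z) = c ^ 2 * nsq z := by
  unfold nsq
  rw [Finset.mul_sum]
  refine Finset.sum_congr rfl fun i _ => ?_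
  rw [Pi.smul_apply, smul_eq_mul, mul_pow]

theorem nsq_eq_zero {m : ℕ} (z : Fin m → ℝ) (h : nsq z = 0) : z = 0 := by
  funext i
  have := (Finset.sum_eq_zero_iff_of_nonneg (fun i _ => sq_nonneg (z i))).1 h i (Finset.mem_univ i)
  exact pow_eq_zero_iff two_ne_zero |>.1 this

/-- normal equations -/
theorem det_step (V : Matrix (Fin d) (Fin r) ℝ) (hV : Vᵀ * V = 1) (Om : Matrix (Fin d) (Fin k) ℝ)
    (ε : ℝ) (hε : ε ≤ 1 / 2)
    (hG : ∀ x ∈ LinearMap.range V.mulVecLin, (1 - ε) * nsq x ≤ nsq (Omᵀ *ᵥ x)) :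
    ∃ H : Matrix (Fin r) (Fin d) ℝ,
      (∀ b t, nsq (Omᵀ *ᵥ (b - V *ᵥ t)) = nsq (Omᵀ *ᵥ (b - V *ᵥ (H *ᵥ b))) +
        nsq (Omᵀ *ᵥ (V *ᵥ (t - H *ᵥ b)))) ∧
      ∀ A : Matrix (Fin n) (Fin d) ℝ, ∃ Y : Matrix (Fin k) (Fin d) ℝ, A - A * Om * Y =
        (A - A * (V * Vᵀ)) - (A - A * (V * Vᵀ)) * Hᵀ * Vᵀ := by
  obtain ⟨K, hK⟩ : ∃ K, K = Om * Omᵀ := ⟨_, rfl⟩
  have hKt : Kᵀ = K := by rw [hK, transpose_mul, transpose_transpose]
  obtain ⟨Gm, hGm⟩ : ∃ Gm, Gm = Vᵀ * K * V := ⟨_, rfl⟩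
  have hGt : Gmᵀ = Gm := by
    rw [hGm, transpose_mul, transpose_mul, transpose_transpose, hKt, Matrix.mul_assoc]
  have hdot : ∀ x y : Fin d → ℝ, (Omᵀ *ᵥ x) ⬝ᵥ (Omᵀ *ᵥ y) = x ⬝ᵥ (K *ᵥ y) := by
    intro x y
    rw [adj, transpose_transpose, mulVec_mulVec, hK]
  have hunit : IsUnit Gm.det := by
    rw [← Matrix.isUnit_iff_isUnit_det, ← Matrix.mulVec_injective_iff_isUnit]
    intro y y' hyy
    have h0 : Gm *ᵥ (y - y') = 0 := by
      rw [mulVec_sub, sub_eq_zero]; exact hyy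
    have h1 : nsq (Omᵀ *ᵥ (V *ᵥ (y - y'))) = 0 := by
      rw [nsq_eq_dot, hdot, adj, mulVec_mulVec, mulVec_mulVec, ← hGm, h0, dotProduct_zero]
    have h2 := hG (V *ᵥ (y - y')) ⟨y - y', rfl⟩
    rw [h1, nsq_frame V hV] at h2
    have h3 : nsq (y - y') = 0 := by
      have := nsq_nonneg (y - y')
      nlinarith
    exact sub_eq_zero.1 (nsq_eq_zero _ h3)
  have hinvt : (Gm⁻¹)ᵀ = Gm⁻¹ := by rw [transpose_nonsing_inv, hGt]
  refine ⟨Gm⁻¹ * (Vᵀ * K), ?_, ?_⟩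
  · intro b t
    obtain ⟨H, hH⟩ : ∃ H, H = Gm⁻¹ * (Vᵀ * K) := ⟨_, rfl⟩
    rw [← hH]
    have hne : Vᵀ *ᵥ (K *ᵥ (b - V *ᵥ (H *ᵥ b))) = 0 := by
      rw [mulVec_sub, mulVec_sub, mulVec_mulVec, mulVec_mulVec, mulVec_mulVec, mulVec_mulVec]
      have : Vᵀ * K * V * H = Vᵀ * K := by
        rw [hH, ← hGm, ← Matrix.mul_assoc, Matrix.mul_nonsing_inv _ hunit, Matrix.one_mul]
      rw [this, sub_self]
    have hx : b - V *ᵥ t = (b - V *ᵥ (H *ᵥ b)) - V *ᵥ (t - H *ᵥ b) := by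
      rw [mulVec_sub]
      abel
    have hcross : (Omᵀ *ᵥ (V *ᵥ (t - H *ᵥ b))) ⬝ᵥ (Omᵀ *ᵥ (b - V *ᵥ (H *ᵥ b))) = 0 := by
      rw [hdot, adj, hne, dotProduct_zero]
    rw [hx, mulVec_sub Omᵀ (b - V *ᵥ (H *ᵥ b)), nsq_eq_dot, sub_dotProduct, dotProduct_sub,
      dotProduct_sub, dotProduct_comm (Omᵀ *ᵥ (b - V *ᵥ (H *ᵥ b))) (Omᵀ *ᵥ (V *ᵥ (t - H *ᵥ b))),
      hcross, nsq_eq_dot, nsq_eq_dot]
    ring
  · intro A
    refine ⟨Omᵀ * V * Gm⁻¹ * Vᵀ, ?_⟩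
    have h1 : (Gm⁻¹ * (Vᵀ * K))ᵀ = K * V * Gm⁻¹ := by
      rw [transpose_mul, transpose_mul, transpose_transpose, hKt, hinvt]
    have h2 : A * Om * (Omᵀ * V * Gm⁻¹ * Vᵀ) = A * (K * V * Gm⁻¹) * Vᵀ := by
      rw [hK]; simp only [Matrix.mul_assoc]
    have h3 : A * (V * Vᵀ) * (K * V * Gm⁻¹) * Vᵀ = A * (V * Vᵀ) := by
      have : A * (V * Vᵀ) * (K * V * Gm⁻¹) * Vᵀ = A * V * (Gm * Gm⁻¹) * Vᵀ := by
        rw [hGm]; simp only [Matrix.mul_assoc]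
      rw [this, Matrix.mul_nonsing_inv _ hunit, Matrix.mul_one, Matrix.mul_assoc]
    rw [h1, h2, Matrix.sub_mul, Matrix.sub_mul, h3]
    abel

/-- the shifted frame -/
noncomputable def shiftV (V : Matrix (Fin d) (Fin (ρ + 1)) ℝ) (b : Fin d → ℝ) (τ : ℝ) :
    Matrix (Fin d) (Fin (ρ + 1)) ℝ := fun i l => if l = 0 then b i - τ * V i 0 else V i l

theorem shiftV_mulVec (V : Matrix (Fin d) (Fin (ρ + 1)) ℝ) (b : Fin d → ℝ) (τ : ℝ)
    (y : Fin (ρ + 1) → ℝ) :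
    shiftV V b τ *ᵥ y = y 0 • b - V *ᵥ (fun l => if l = 0 then τ * y 0 else -y l) := by
  funext i
  simp only [mulVec, dotProduct, Pi.sub_apply, Pi.smul_apply, smul_eq_mul]
  rw [Fin.sum_univ_succ, Fin.sum_univ_succ]
  simp only [shiftV, if_true, Fin.succ_ne_zero, if_false]
  have : ∑ x : Fin ρ, V i x.succ * -y x.succ = -∑ x : Fin ρ, V i x.succ * y x.succ := by
    rw [← Finset.sum_neg_distrib]
    exact Finset.sum_congr rfl fun x _ => by ring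
  rw [this]
  ring

theorem shiftV_finrank (V : Matrix (Fin d) (Fin (ρ + 1)) ℝ) (hV : Vᵀ * V = 1) (b : Fin d → ℝ)
    (hb : Vᵀ *ᵥ b = 0) (hb1 : nsq b = 1) (τ : ℝ) :
    Module.finrank ℝ (LinearMap.range (shiftV V b τ).mulVecLin) = ρ + 1 := by
  rw [LinearMap.finrank_range_of_inj, Module.finrank_fin_fun]
  rw [injective_iff_map_eq_zero]
  intro y hy
  have h1 : shiftV V b τ *ᵥ y = 0 := hy
  rw [shiftV_mulVec] at h1
  have h2 := nsq_ortho V hV b hb (y 0) (fun l => if l = 0 then τ * y 0 else -y l)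
  rw [h1, hb1, mul_one] at h2
  have h3 : nsq (0 : Fin d → ℝ) = 0 := by simp [nsq]
  rw [h3] at h2
  have h4 := nsq_nonneg (fun l : Fin (ρ + 1) => if l = 0 then τ * y 0 else -y l)
  have h5 : y 0 = 0 := by
    have : y 0 ^ 2 = 0 := by nlinarith [sq_nonneg (y 0)]
    exact pow_eq_zero_iff two_ne_zero |>.1 this
  have h6 := nsq_eq_zero _ (by nlinarith [sq_nonneg (y 0)] :
    nsq (fun l : Fin (ρ + 1) => if l = 0 then τ * y 0 else -y l) = 0)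
  funext l
  by_cases hl : l = 0
  · rw [hl]; exact h5
  · have := congrFun h6 l
    simp only [hl, if_false, Pi.zero_apply, neg_eq_zero] at this
    exact this

theorem frame_finrank (V : Matrix (Fin d) (Fin r) ℝ) (hV : Vᵀ * V = 1) :
    Module.finrank ℝ (LinearMap.range V.mulVecLin) = r := by
  rw [LinearMap.finrank_range_of_inj, Module.finrank_fin_fun]
  rw [injective_iff_map_eq_zero]
  intro y hy
  have h1 : V *ᵥ y = 0 := hy
  have h2 := nsq_frame V hV y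
  rw [h1] at h2
  exact nsq_eq_zero _ (by rw [← h2]; simp [nsq])

end Pool.Agent.H10.Svd
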