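import Pool.Agent.H10.SvdR

set_option autoImplicit false

open MeasureTheory Matrix

namespace Pool.Agent.H10.Svd

variable {n d k r ρ : ℕ}

/-- the family of good events -/
def GG {S : Type} (Om : S → Matrix (Fin d) (Fin k) ℝ) (α : ℝ) (W : Submodule ℝ (Fin d → ℝ)) :
    Set S := {ω | ∀ x ∈ W, α * nsq x ≤ nsq ((Om ω)ᵀ *ᵥ x)}

/-- `H` solves the normal equations -/
def Normal (V : Matrix (Fin d) (Fin r) ℝ) (Om : Matrix (Fin d) (Fin k) ℝ)
    (H : Matrix (Fin r) (Fin d) ℝ) : Prop :=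
  ∀ b t, nsq (Omᵀ *ᵥ (b - V *ᵥ t)) = nsq (Omᵀ *ᵥ (b - V *ᵥ (H *ᵥ b))) +
    nsq (Omᵀ *ᵥ (V *ᵥ (t - H *ᵥ b)))

theorem lemD {S : Type} [MeasurableSpace S] (μ : Measure S) [IsProbabilityMeasure μ]
    (Om : S → Matrix (Fin d) (Fin k) ℝ) (ε δ : ℝ) (hε0 : 0 < ε) (hε : ε ≤ 1 / 2)
    (hδ : δ ≤ ε ^ 2) (hO : IsOSI μ Om (ρ + 1) (1 - ε) δ)
    (V : Matrix (Fin d) (Fin (ρ + 1)) ℝ) (hV : Vᵀ * V = 1) (b : Fin d → ℝ) (hb : Vᵀ *ᵥ b = 0)
    (hb1 : nsq b = 1) :
    ∃ R : S → ℝ, Integrable R μ ∧ (∀ ω, 0 ≤ R ω) ∧ ∫ ω, R ω ∂μ ≤ 8 * ε ∧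
      ∀ ω ∈ GG Om (1 - ε) (LinearMap.range V.mulVecLin), ∀ H, Normal V (Om ω) H →
        nsq (H *ᵥ b) ≤ 2 * R ω := by
  set e : Fin d → ℝ := V *ᵥ Pi.single 0 1 with he
  have he1 : nsq e = 1 := by
    rw [he, nsq_frame V hV]
    simp [nsq, Fin.sum_univ_succ]
  set a : S → ℝ := fun ω => nsq ((Om ω)ᵀ *ᵥ b) with ha
  set z : S → ℝ := fun ω => nsq ((Om ω)ᵀ *ᵥ e) with hz
  have ia : ∫ ω, a ω ∂μ = 1 := by rw [ha, hO.isotropy b, hb1]
  have iz : ∫ ω, z ω ∂μ = 1 := by rw [hz, hO.isotropy e, he1]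
  have inta : Integrable a μ := by
    by_contra h
    rw [integral_undef h] at ia
    exact zero_ne_one ia
  have intz : Integrable z μ := by
    by_contra h
    rw [integral_undef h] at iz
    exact zero_ne_one iz
  obtain ⟨J, hJ1, hJ2⟩ : ∃ J : ℕ, 1 / ε ≤ J ∧ (J : ℝ) ≤ 1 / ε + 1 :=
    ⟨⌈1 / ε⌉₊, Nat.le_ceil _, (Nat.ceil_lt_add_one (by positivity)).le⟩
  set h := Real.sqrt ε with hh
  have hh2 : h ^ 2 = ε := Real.sq_sqrt hε0.le
  have hhpos : 0 < h := Real.sqrt_pos.2 hε0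
  set W : ℤ → Submodule ℝ (Fin d → ℝ) := fun j =>
    LinearMap.range (shiftV V b (j * h)).mulVecLin with hW
  set G0 := GG Om (1 - ε) (LinearMap.range V.mulVecLin) with hG0
  set T2 : ℝ := (J : ℝ) ^ 2 * ε with hT2
  have hT2' : 1 / ε ≤ T2 := by
    rw [hT2]
    have h1 : (1 / ε) ^ 2 * ε ≤ (J : ℝ) ^ 2 * ε :=
      mul_le_mul_of_nonneg_right (pow_le_pow_left₀ (by positivity) hJ1 2) hε0.le
    have h2 : (1 / ε) ^ 2 * ε = 1 / ε := by field_simp
    linarith
  have hT2pos : 0 < T2 := lt_of_lt_of_le (by positivity) hT2'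
  -- the bad set
  set N : Set S := (G0ᶜ ∪ ⋃ j ∈ Finset.Icc (-(J : ℤ)) J, (GG Om (1 - ε) (W j))ᶜ) ∪
    {ω | T2 / 2 ≤ a ω} with hN
  have mG : ∀ W : Submodule ℝ (Fin d → ℝ), MeasurableSet (GG Om (1 - ε) W) := fun W => meas_G Om hO.measurable (1 - ε) W
  have mN : MeasurableSet N := by
    refine ((mG _).compl.union (Finset.measurableSet_biUnion _ fun j _ => (mG _).compl)).union ?_
    exact measurableSet_le measurable_const (meas_nsq Om hO.measurable b)
  have pG : ∀ W : Submodule ℝ (Fin d → ℝ), Module.finrank ℝ W = ρ + 1 → μ.real (GG Om (1 - ε) W)ᶜ ≤ δ := by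
    intro W hW
    rw [measureReal_compl (mG W), probReal_univ]
    have := hO.injectivity W hW
    have h3 : μ.real (GG Om (1 - ε) W) = μ.real {ω | ∀ x ∈ W, (1 - ε) * nsq x ≤
      nsq ((Om ω)ᵀ *ᵥ x)} := rfl
    linarith
  have hδ0 : 0 ≤ δ := le_trans measureReal_nonneg (pG _ (frame_finrank V hV))
  have pN : μ.real N ≤ 6 * ε := by
    have h1 : μ.real (⋃ j ∈ Finset.Icc (-(J : ℤ)) J, (GG Om (1 - ε) (W j))ᶜ) ≤ (2 * J + 1) * δ := by
      refine (measureReal_biUnion_finset_le _ _).trans ?_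
      refine (Finset.sum_le_sum (g := fun _ => δ) fun j _ =>
        pG _ (shiftV_finrank V hV b hb hb1 _)).trans ?_
      rw [Finset.sum_const, Int.card_Icc, nsmul_eq_mul]
      have : ((J : ℤ) + 1 - -(J : ℤ)).toNat = 2 * J + 1 := by omega
      rw [this]
      push_cast
      exact le_rfl
    have h2 : μ.real {ω | T2 / 2 ≤ a ω} ≤ 2 * ε := by
      have h3 := mul_meas_ge_le_integral_of_nonneg
        (Filter.Eventually.of_forall fun ω => nsq_nonneg ((Om ω)ᵀ *ᵥ b)) inta (T2 / 2)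
      rw [ia] at h3
      have h4 : μ.real {ω | T2 / 2 ≤ a ω} ≤ 2 / T2 := by
        rw [le_div_iff₀ hT2pos]
        have : T2 / 2 * μ.real {ω | T2 / 2 ≤ a ω} ≤ 1 := h3
        linarith
      refine h4.trans ?_
      rw [div_le_iff₀ hT2pos]
      have : 1 ≤ ε * T2 := by
        rw [div_le_iff₀ hε0] at hT2'
        linarith
      linarith
    have h5 : μ.real N ≤ (δ + (2 * J + 1) * δ) + 2 * ε := by
      refine (measureReal_union_le _ _).trans (add_le_add ?_ h2)
      exact (measureReal_union_le _ _).trans (add_le_add (pG _ (frame_finrank V hV)) h1)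
    have h6 : (2 * (J : ℝ) + 2) * δ ≤ (2 * (1 / ε + 1) + 2) * ε ^ 2 := by
      apply mul_le_mul (by linarith) hδ hδ0 (by positivity)
    have h7 : (2 * (1 / ε + 1) + 2) * ε ^ 2 = 2 * ε + 4 * ε ^ 2 := by field_simp; ring
    nlinarith
  have key : ∀ ω ∈ G0, ∀ H, Normal V (Om ω) H → (1 - ε) * nsq (H *ᵥ b) ≤
      a ω - (1 - ε) * Nᶜ.indicator (fun _ => (1 : ℝ)) ω + ε * z ω := by
    intro ω hω H hH
    obtain ⟨s, hs⟩ : ∃ s, s = H *ᵥ b := ⟨_, rfl⟩
    obtain ⟨c, hc⟩ : ∃ c, c = nsq ((Om ω)ᵀ *ᵥ (b - V *ᵥ s)) := ⟨_, rfl⟩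
    have hcn : 0 ≤ c := by rw [hc]; exact nsq_nonneg _
    have hzn : 0 ≤ z ω := nsq_nonneg _
    have h0 := hH b 0
    rw [mulVec_zero, sub_zero, ← hs, ← hc] at h0
    have hg := hω (V *ᵥ (0 - s)) ⟨_, rfl⟩
    rw [nsq_frame V hV] at hg
    have hneg : nsq (0 - s) = nsq s := by
      unfold nsq
      exact Finset.sum_congr rfl fun i _ => by simp
    rw [hneg] at hg
    have key1 : (1 - ε) * nsq s ≤ a ω - c := by
      have : a ω = c + nsq ((Om ω)ᵀ *ᵥ V *ᵥ (0 - s)) := h0
      linarith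
    rw [← hs]
    by_cases hωN : ω ∈ N
    · rw [Set.indicator_of_notMem (Set.notMem_compl_iff.2 hωN)]
      have := mul_nonneg hε0.le hzn
      linarith
    · rw [Set.indicator_of_mem (show ω ∈ Nᶜ from hωN)]
      have hsn := nsq_nonneg s
      have haT : a ω < T2 / 2 := by
        by_contra hcon
        exact hωN (Or.inr (not_lt.1 hcon))
      have hsT : nsq s < T2 := by
        have h5 : 1 / 2 * nsq s ≤ (1 - ε) * nsq s :=
          mul_le_mul_of_nonneg_right (by linarith) hsn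
        linarith
      have hs0 : s 0 ^ 2 ≤ nsq s :=
        Finset.single_le_sum (f := fun i => s i ^ 2) (fun _ _ => sq_nonneg _) (Finset.mem_univ 0)
      have hs1 : s 0 ^ 2 < ((J : ℝ) * h) ^ 2 := by
        rw [mul_pow, hh2]
        exact lt_of_le_of_lt hs0 hsT
      have hs2 : |s 0| < J * h := abs_lt_of_sq_lt_sq hs1 (by positivity)
      have hs3 : |s 0 / h| < J := by
        rw [abs_div, abs_of_pos hhpos, div_lt_iff₀ hhpos]
        exact hs2
      obtain ⟨j, hj⟩ : ∃ j, j = round (s 0 / h) := ⟨_, rfl⟩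
      have hr := abs_sub_round (s 0 / h)
      rw [← hj] at hr
      have hjJ : |j| ≤ (J : ℤ) := by
        have h8 : |(j : ℝ)| < J + 1 := by
          have h9 : |(j : ℝ)| ≤ |s 0 / h| + |s 0 / h - j| := by
            have := abs_sub_abs_le_abs_sub (j : ℝ) (s 0 / h)
            rw [abs_sub_comm (j : ℝ)] at this
            linarith
          linarith
        have h10 : |j| < (J : ℤ) + 1 := by exact_mod_cast h8
        omega
      have hjm : j ∈ Finset.Icc (-(J : ℤ)) J := by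
        rw [Finset.mem_Icc]
        exact abs_le.1 hjJ
      have hωG : ω ∈ GG Om (1 - ε) (W j) := by
        by_contra hcon
        exact hωN (Or.inl (Or.inr (Set.mem_biUnion (Finset.mem_coe.2 hjm) hcon)))
      obtain ⟨t, ht⟩ : ∃ t : Fin (ρ + 1) → ℝ, t = fun l => if l = 0 then j * h else s l :=
        ⟨_, rfl⟩
      have h11 := hH b t
      rw [← hs, ← hc] at h11
      have h12 : V *ᵥ (t - s) = (j * h - s 0) • e := by
        have h13 : t - s = (j * h - s 0) • Pi.single 0 1 := by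
          funext l
          by_cases hl : l = 0
          · subst hl; simp [ht]
          · simp [ht, hl]
        rw [h13, mulVec_smul]
      rw [h12, mulVec_smul, nsq_smul] at h11
      have h14 : b - V *ᵥ t = shiftV V b (j * h) *ᵥ (fun l => if l = 0 then 1 else -s l) := by
        rw [shiftV_mulVec, ht]
        simp only [if_true, one_smul, mul_one]
        congr 2
        funext l
        by_cases hl : l = 0
        · simp [hl]
        · simp [hl]
      have h15 := hωG (b - V *ᵥ t) ⟨_, h14.symm⟩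
      have h16 : 1 ≤ nsq (b - V *ᵥ t) := by
        have := nsq_ortho V hV b hb 1 t
        rw [one_smul, hb1] at this
        rw [this]
        linarith [nsq_nonneg t]
      have h17 : (j * h - s 0) ^ 2 ≤ ε := by
        have h18 : |(j : ℝ) * h - s 0| ≤ h := by
          have h19 : (j : ℝ) * h - s 0 = -(h * (s 0 / h - j)) := by field_simp; ring
          rw [h19, abs_neg, abs_mul, abs_of_pos hhpos]
          calc h * |s 0 / h - j| ≤ h * 1 := mul_le_mul_of_nonneg_left (by linarith) hhpos.le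
            _ = h := mul_one h
        rw [← sq_abs, ← hh2]
        exact pow_le_pow_left₀ (abs_nonneg _) h18 2
      have h20 : (1 - ε) ≤ c + ε * z ω := by
        have h21 : (j * h - s 0) ^ 2 * nsq ((Om ω)ᵀ *ᵥ e) ≤ ε * z ω :=
          mul_le_mul_of_nonneg_right h17 hzn
        have h22 := mul_le_mul_of_nonneg_left h16 (by linarith : (0 : ℝ) ≤ 1 - ε)
        linarith
      linarith
  refine ⟨fun ω => a ω - (1 - ε) * Nᶜ.indicator (fun _ => (1 : ℝ)) ω + ε * z ω, ?_, ?_, ?_, ?_⟩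
  · exact (inta.sub (((integrable_const (1 : ℝ)).indicator mN.compl).const_mul _)).add
      (intz.const_mul _)
  · intro ω
    by_cases hω : ω ∈ G0
    · obtain ⟨H, hH, -⟩ := det_step (n := 0) V hV (Om ω) ε hε hω
      refine le_trans ?_ (key ω hω H hH)
      exact mul_nonneg (by linarith) (nsq_nonneg _)
    · have hωN : ω ∈ N := Or.inl (Or.inl hω)
      simp only
      rw [Set.indicator_of_notMem (Set.notMem_compl_iff.2 hωN)]
      have h1 : 0 ≤ a ω := nsq_nonneg _
      have h2 : 0 ≤ z ω := nsq_nonneg _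
      nlinarith
  · rw [integral_add, integral_sub, integral_const_mul, integral_const_mul,
      integral_indicator mN.compl, ia, iz]
    · simp only [integral_const, smul_eq_mul, mul_one]
      rw [measureReal_restrict_apply MeasurableSet.univ, Set.univ_inter, measureReal_compl mN,
        probReal_univ]
      nlinarith [measureReal_nonneg (μ := μ) (s := N)]
    · exact inta
    · exact ((integrable_const (1 : ℝ)).indicator mN.compl).const_mul _
    · exact inta.sub (((integrable_const (1 : ℝ)).indicator mN.compl).const_mul _)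
    · exact intz.const_mul _
  · intro ω hω H hH
    have h1 := key ω hω H hH
    have h2 := nsq_nonneg (H *ᵥ b)
    simp only
    nlinarith

end Pool.Agent.H10.Svd
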