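import Pool.Agent.H10.SvdS

set_option autoImplicit false

open MeasureTheory Matrix

namespace Pool.Agent.H10.Svd

variable {n d k r ρ : ℕ}

theorem lemD' {S : Type} [MeasurableSpace S] (μ : Measure S) [IsProbabilityMeasure μ]
    (Om : S → Matrix (Fin d) (Fin k) ℝ) (ε δ : ℝ) (hε0 : 0 < ε) (hε : ε ≤ 1 / 2)
    (hδ : δ ≤ ε ^ 2) (hO : IsOSI μ Om (ρ + 1) (1 - ε) δ)
    (V : Matrix (Fin d) (Fin (ρ + 1)) ℝ) (hV : Vᵀ * V = 1) (b : Fin d → ℝ) (hb : Vᵀ *ᵥ b = 0) :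
    ∃ R : S → ℝ, Integrable R μ ∧ (∀ ω, 0 ≤ R ω) ∧ ∫ ω, R ω ∂μ ≤ 8 * ε * nsq b ∧
      ∀ ω ∈ GG Om (1 - ε) (LinearMap.range V.mulVecLin), ∀ H, Normal V (Om ω) H →
        nsq (H *ᵥ b) ≤ 2 * R ω := by
  by_cases hb0 : nsq b = 0
  · refine ⟨fun _ => 0, integrable_zero _ _ _, fun _ => le_rfl, by simp [hb0], ?_⟩
    intro ω _ H _
    rw [nsq_eq_zero b hb0, mulVec_zero]
    simp [nsq]
  · have hpos : 0 < nsq b := lt_of_le_of_ne (nsq_nonneg b) (Ne.symm hb0)
    have hs : Real.sqrt (nsq b) ≠ 0 := (Real.sqrt_pos.2 hpos).ne'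
    obtain ⟨R, h1, h2, h3, h4⟩ := lemD μ Om ε δ hε0 hε hδ hO V hV ((Real.sqrt (nsq b))⁻¹ • b)
      (by rw [mulVec_smul, hb, smul_zero])
      (by rw [nsq_smul, inv_pow, Real.sq_sqrt hpos.le, inv_mul_cancel₀ hb0])
    refine ⟨fun ω => nsq b * R ω, h1.const_mul _, fun ω => mul_nonneg hpos.le (h2 ω), ?_, ?_⟩
    · rw [integral_const_mul]
      nlinarith
    · intro ω hω H hH
      have h5 := h4 ω hω H hH
      rw [mulVec_smul, nsq_smul, inv_pow, Real.sq_sqrt hpos.le] at h5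
      have h6 := mul_le_mul_of_nonneg_left h5 hpos.le
      have h7 : nsq b * ((nsq b)⁻¹ * nsq (H *ᵥ b)) = nsq (H *ᵥ b) := by
        rw [← mul_assoc, mul_inv_cancel₀ hb0, one_mul]
      rw [h7] at h6
      linarith

theorem le_optErr (A : Matrix (Fin n) (Fin d) ℝ) (c : ℝ)
    (h : ∀ B : Matrix (Fin n) (Fin d) ℝ, B.rank ≤ r → c ≤ frob (A - B)) : c ≤ optErr A r := by
  apply le_csInf
  · exact ⟨_, 0, by simp, rfl⟩
  · rintro _ ⟨B, hB, rfl⟩
    exact h B hB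

theorem main2 (ε δ : ℝ) (hε0 : 0 < ε) (hε : ε ≤ 1 / 2) (hδ : δ ≤ ε ^ 2) (hr1 : 1 ≤ r)
    (hrd : r ≤ d) (A : Matrix (Fin n) (Fin d) ℝ) (S : Type) [MeasurableSpace S] (μ : Measure S)
    [IsProbabilityMeasure μ] (Om : S → Matrix (Fin d) (Fin k) ℝ)
    (hO : IsOSI μ Om r (1 - ε) δ) :
    1 / 2 ≤ μ.real {ω | frob (A - rsvd A (Om ω)) ≤ (1 + 32 * ε) * optErr A r} := by
  obtain ⟨ρ, rfl⟩ : ∃ ρ, r = ρ + 1 := ⟨r - 1, by omega⟩
  obtain ⟨V, hV, hbest⟩ := exists_best hrd A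
  obtain ⟨B, hB⟩ : ∃ B, B = A - A * (V * Vᵀ) := ⟨_, rfl⟩
  have hopt : frob B ≤ optErr A (ρ + 1) := by
    rw [hB]; exact le_optErr A _ hbest
  have hBV : ∀ i, Vᵀ *ᵥ (B i) = 0 := by
    intro i
    have h1 : B * V = 0 := by
      rw [hB, Matrix.sub_mul, Matrix.mul_assoc A, Matrix.mul_assoc V, hV, Matrix.mul_one, sub_self]
    funext j
    have h2 := congrFun (congrFun h1 i) j
    rw [mul_apply] at h2
    simp only [mulVec, dotProduct, transpose_apply, Pi.zero_apply]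
    rw [← show (0 : Matrix (Fin n) (Fin (ρ + 1)) ℝ) i j = 0 from rfl, ← h2]
    exact Finset.sum_congr rfl fun l _ => mul_comm _ _
  choose R hR1 hR2 hR3 hR4 using fun i => lemD' μ Om ε δ hε0 hε hδ hO V hV (B i) (hBV i)
  obtain ⟨G0, hG0⟩ : ∃ G0, G0 = GG Om (1 - ε) (LinearMap.range V.mulVecLin) := ⟨_, rfl⟩
  have mG0 : MeasurableSet G0 := by
    rw [hG0]; exact meas_G Om hO.measurable _ _
  have pG0 : μ.real G0ᶜ ≤ δ := by
    rw [measureReal_compl mG0, probReal_univ]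
    have h1 := hO.injectivity _ (frame_finrank V hV)
    have h2 : μ.real G0 = μ.real {ω | ∀ x ∈ LinearMap.range V.mulVecLin, (1 - ε) * nsq x ≤
      nsq ((Om ω)ᵀ *ᵥ x)} := by rw [hG0]; rfl
    linarith
  have hNrm : ∑ i, nsq (B i) = frob B ^ 2 := (frob_rows B).symm
  -- the error on the good event
  have herr : ∀ ω ∈ G0, frob (A - rsvd A (Om ω)) ^ 2 ≤ frob B ^ 2 + 2 * ∑ i, R i ω := by
    intro ω hω
    rw [hG0] at hω
    obtain ⟨H, hH, hY⟩ := det_step (n := n) V hV (Om ω) ε hε hω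
    obtain ⟨Y, hY⟩ := hY A
    have h1 := rsvd_le A (Om ω) Y
    rw [hY, ← hB] at h1
    have h2 := pow_le_pow_left₀ (frob_nonneg _) h1 2
    refine h2.trans ?_
    rw [frob_rows (B - B * Hᵀ * Vᵀ)]
    have h3 : ∀ i, nsq ((B - B * Hᵀ * Vᵀ) i) = nsq (B i) + nsq (H *ᵥ (B i)) := by
      intro i
      have h4 : (B - B * Hᵀ * Vᵀ) i = (1 : ℝ) • B i - V *ᵥ (H *ᵥ (B i)) := by
        rw [one_smul]
        funext j
        rw [Matrix.sub_apply, Pi.sub_apply, Matrix.mul_assoc, mulVec_mulVec]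
        congr 1
        rw [mul_apply]
        simp only [mulVec, dotProduct]
        refine Finset.sum_congr rfl fun l _ => ?_
        rw [mul_comm, ← transpose_mul, transpose_apply]
      rw [h4, nsq_ortho V hV (B i) (hBV i), one_pow, one_mul]
    rw [Finset.sum_congr rfl fun i _ => h3 i, Finset.sum_add_distrib, hNrm, Finset.mul_sum]
    have h5 : ∑ i, nsq (H *ᵥ B i) ≤ ∑ i, 2 * R i ω :=
      Finset.sum_le_sum fun i _ => hR4 i ω hω H hH
    linarith
  obtain ⟨N, hN⟩ : ∃ N, N = frob B ^ 2 := ⟨_, rfl⟩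
  have hN0 : 0 ≤ N := by rw [hN]; positivity
  have hint : Integrable (fun ω => ∑ i, R i ω) μ := integrable_finsetSum _ fun i _ => hR1 i
  have hIR : ∫ ω, ∑ i, R i ω ∂μ ≤ 8 * ε * N := by
    rw [integral_finsetSum _ fun i _ => hR1 i]
    refine (Finset.sum_le_sum fun i _ => hR3 i).trans ?_
    rw [← Finset.mul_sum, hNrm, hN]
  have hRn : ∀ ω, 0 ≤ ∑ i, R i ω := fun ω => Finset.sum_nonneg fun i _ => hR2 i ω
  -- the bad event for the sum
  obtain ⟨E, hE, hE2, hE3⟩ : ∃ E : Set S, μ.real E ≤ 1 / 4 ∧ NullMeasurableSet E μ ∧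
      ∀ ω ∈ G0, ω ∉ E → frob (A - rsvd A (Om ω)) ^ 2 ≤ (1 + 64 * ε) * N := by
    by_cases hNz : N = 0
    · refine ⟨{ω | 0 < ∑ i, R i ω}, ?_, ?_, ?_⟩
      · have h1 : ∫ ω, ∑ i, R i ω ∂μ = 0 := by
          apply le_antisymm
          · rw [hNz, mul_zero] at hIR
            exact hIR
          · exact integral_nonneg hRn
        have h2 := (integral_eq_zero_iff_of_nonneg hRn hint).1 h1
        have h3 : μ {ω | 0 < ∑ i, R i ω} = 0 := by
          rw [← nonpos_iff_eq_zero]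
          refine (measure_mono ?_).trans (le_of_eq (ae_iff.1 h2))
          intro ω hω
          exact ne_of_gt hω
        rw [Measure.real, h3]
        norm_num
      · exact nullMeasurableSet_lt aemeasurable_const hint.aemeasurable
      · intro ω h1 h2
        have h3 := herr ω h1
        have h4 : ∑ i, R i ω ≤ 0 := not_lt.1 h2
        rw [← hN, hNz] at h3
        rw [hNz]
        linarith
    · have hNp : 0 < N := lt_of_le_of_ne hN0 (Ne.symm hNz)
      refine ⟨{ω | 32 * ε * N ≤ ∑ i, R i ω}, ?_, ?_, ?_⟩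
      · have h1 := mul_meas_ge_le_integral_of_nonneg (Filter.Eventually.of_forall hRn) hint
          (32 * ε * N)
        have h2 : 32 * ε * N * μ.real {ω | 32 * ε * N ≤ ∑ i, R i ω} ≤ 32 * ε * N * (1 / 4) := by
          refine h1.trans (hIR.trans (le_of_eq (by ring)))
        exact le_of_mul_le_mul_left h2 (by positivity)
      · exact nullMeasurableSet_le aemeasurable_const hint.aemeasurable
      · intro ω h1 h2
        have h3 := herr ω h1
        have h4 : ∑ i, R i ω < 32 * ε * N := not_le.1 h2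
        rw [← hN] at h3
        nlinarith
  have hsub : (G0ᶜ ∪ E)ᶜ ⊆ {ω | frob (A - rsvd A (Om ω)) ≤ (1 + 32 * ε) * optErr A (ρ + 1)} := by
    intro ω hω
    rw [Set.mem_compl_iff, Set.mem_union, not_or, Set.mem_compl_iff, not_not] at hω
    have h1 := hE3 ω hω.1 hω.2
    have h2 : frob (A - rsvd A (Om ω)) ^ 2 ≤ ((1 + 32 * ε) * frob B) ^ 2 := by
      rw [mul_pow, ← hN]
      nlinarith [mul_nonneg (sq_nonneg ε) hN0]
    have h3 : frob (A - rsvd A (Om ω)) ≤ (1 + 32 * ε) * frob B :=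
      le_of_sq_le_sq h2 (mul_nonneg (by positivity) (frob_nonneg _))
    exact h3.trans (mul_le_mul_of_nonneg_left hopt (by positivity))
  refine le_trans ?_ (measureReal_mono hsub)
  rw [measureReal_compl₀ (mG0.compl.nullMeasurableSet.union hE2), probReal_univ]
  have h1 : μ.real (G0ᶜ ∪ E) ≤ δ + 1 / 4 :=
    (measureReal_union_le _ _).trans (add_le_add pG0 hE)
  have h2 : δ ≤ 1 / 4 := by nlinarith
  linarith

end Pool.Agent.H10.Svd
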