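import Pool.Agent.H10.UKFam

/-! The algebra `K[x,y,z,t]/(z^2,t^2)` is universally Koszul. -/

set_option autoImplicit false

open MvPolynomial

namespace Pool.Agent.H10.UK

/-- transport of a linear resolution along an automorphism -/
theorem linres_transport {K : Type*} [Field K] {n : ℕ} {J : Ideal (MvPolynomial (Fin n) K)}
    (σ : (MvPolynomial (Fin n) K ⧸ J) ≃+* (MvPolynomial (Fin n) K ⧸ J))
    (hσ : ∀ r, IsHom J 1 r → IsHom J 1 (σ r)) (I : Ideal (MvPolynomial (Fin n) K ⧸ J))
    (h : HasLinearResolution J 1 (I.comap (σ : (MvPolynomial (Fin n) K ⧸ J) →+* _))) :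
    HasLinearResolution J 1 I := by
  obtain ⟨b, g, A, hg, hA, hs, h0, h1⟩ := h
  have hmv : ∀ (i : ℕ) (w : Fin (b (i + 1)) → MvPolynomial (Fin n) K ⧸ J),
      Matrix.mulVec (fun j c => σ (A i j c)) (fun c => σ (w c)) =
        fun j => σ ((A i).mulVec w j) := by
    intro i w
    funext j
    simp [Matrix.mulVec, dotProduct]
  have hex : ∀ (i : ℕ) (v : Fin (b i) → MvPolynomial (Fin n) K ⧸ J),
      (∃ w, (A i).mulVec w = fun j => σ.symm (v j)) ↔
        ∃ w, Matrix.mulVec (fun j c => σ (A i j c)) w = v := by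
    intro i v
    constructor
    · rintro ⟨w, hw⟩
      refine ⟨fun c => σ (w c), ?_⟩
      rw [hmv, hw]
      funext j
      simp
    · rintro ⟨w, hw⟩
      refine ⟨fun c => σ.symm (w c), ?_⟩
      have h2 := hmv i (fun c => σ.symm (w c))
      simp only [RingEquiv.apply_symm_apply] at h2
      rw [hw] at h2
      funext j
      have h3 := congrFun h2 j
      rw [h3]
      simp
  refine ⟨b, fun j => σ (g j), fun i j c => σ (A i j c), fun j => hσ _ (hg j),
    fun i a c => hσ _ (hA i a c), ?_, ?_, ?_⟩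
  · have : Set.range (fun j => σ (g j)) = (σ : (MvPolynomial (Fin n) K ⧸ J) →+* _) '' Set.range g := by
      ext y; simp
    rw [this, ← Ideal.map_span, hs]
    exact Ideal.map_comap_of_surjective _ σ.surjective I
  · intro v
    rw [← hex 0 v, ← h0]
    constructor
    · intro h
      have := congrArg σ.symm h
      simpa [map_sum, map_mul] using this
    · intro h
      have := congrArg σ h
      simpa [map_sum, map_mul] using this
  · intro i v
    rw [← hex (i + 1) v, ← h1]
    constructor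
    · intro h
      have h2 := hmv i (fun c => σ.symm (v c))
      simp only [RingEquiv.apply_symm_apply] at h2
      have h' : Matrix.mulVec (fun j c => σ (A i j c)) v = 0 := h
      rw [h'] at h2
      funext j
      have h3 := congrFun h2 j
      have h4 := congrArg σ.symm h3
      simpa using h4.symm
    · intro h
      have h2 := hmv i (fun c => σ.symm (v c))
      simp only [RingEquiv.apply_symm_apply] at h2
      change Matrix.mulVec (fun j c => σ (A i j c)) v = 0
      rw [h2, h]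
      funext j
      simp

variable (K : Type*) [Field K]

theorem lin_form (r : RR K) (hr : IsHom (J0 K) 1 r) : ∃ c0 c1 c2 c3 : K,
    r = φ K c0 * vx K + φ K c1 * vy K + ww K c2 c3 := by
  obtain ⟨p, hp, rfl⟩ := hr
  rw [← mem_homogeneousSubmodule, homogeneousSubmodule_one_eq_span_X,
    Submodule.mem_span_range_iff_exists_fun] at hp
  obtain ⟨e, rfl⟩ := hp
  refine ⟨e 0, e 1, e 2, e 3, ?_⟩
  simp [Fin.sum_univ_four, smul_eq_C_mul, φ_mk, vx, vy, vz, vt, ww, add_assoc]

theorem mem_LL_of_mem (l : List (RR K)) (x : RR K) (hx : x ∈ l) : x ∈ LL K l :=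
  Submodule.subset_span hx

theorem LL_le (l : List (RR K)) (C : Ideal (RR K)) (h : ∀ x ∈ l, x ∈ C) : LL K l ≤ C :=
  Submodule.span_le.2 h

theorem LL_mono (l l' : List (RR K)) (h : ∀ x ∈ l, x ∈ l') : LL K l ≤ LL K l' :=
  Submodule.span_mono h

/-- classification in `z,t` -/
theorem classW (C : Ideal (RR K)) : ∃ W, IsW K W ∧ (∀ x ∈ W, x ∈ C) ∧
    ∀ γ δ : K, ww K γ δ ∈ C → ww K γ δ ∈ LL K W := by
  by_cases h1 : vz K ∈ C ∧ vt K ∈ C
  · refine ⟨[vt K, vz K], Or.inr (Or.inr rfl), ?_, ?_⟩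
    · intro x hx
      simp only [List.mem_cons, List.not_mem_nil, or_false] at hx
      rcases hx with rfl | rfl
      · exact h1.2
      · exact h1.1
    · intro γ δ _
      exact Ideal.add_mem _ (Ideal.mul_mem_left _ _ (mem_LL_of_mem K _ _ (by simp)))
        (Ideal.mul_mem_left _ _ (mem_LL_of_mem K _ _ (by simp)))
  · by_cases h2 : ∃ γ δ : K, (γ ≠ 0 ∨ δ ≠ 0) ∧ ww K γ δ ∈ C
    · obtain ⟨γ, δ, hγδ, hw⟩ := h2
      refine ⟨[ww K γ δ], Or.inr (Or.inl ⟨γ, δ, hγδ, rfl⟩), ?_, ?_⟩
      · intro x hx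
        simp only [List.mem_singleton] at hx
        rw [hx]; exact hw
      · intro γ' δ' hw'
        have hdet : γ * δ' - γ' * δ = 0 := by
          by_contra hne
          apply h1
          have e : φ K (γ * δ' - γ' * δ)⁻¹ * φ K (γ * δ' - γ' * δ) = 1 := by
            rw [← map_mul, inv_mul_cancel₀ hne, map_one]
          have ed : φ K (γ * δ' - γ' * δ) = φ K γ * φ K δ' - φ K γ' * φ K δ := by
            rw [map_sub, map_mul, map_mul]
          constructor
          · have : vz K = φ K (γ * δ' - γ' * δ)⁻¹ * φ K δ' * ww K γ δ -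
                φ K (γ * δ' - γ' * δ)⁻¹ * φ K δ * ww K γ' δ' := by
              rw [ww, ww]
              linear_combination (-(vz K)) * e + (φ K (γ * δ' - γ' * δ)⁻¹ * vz K) * ed
            rw [this]
            exact Ideal.sub_mem _ (Ideal.mul_mem_left _ _ hw) (Ideal.mul_mem_left _ _ hw')
          · have : vt K = φ K (γ * δ' - γ' * δ)⁻¹ * φ K γ * ww K γ' δ' -
                φ K (γ * δ' - γ' * δ)⁻¹ * φ K γ' * ww K γ δ := by
              rw [ww, ww]
              linear_combination (-(vt K)) * e + (φ K (γ * δ' - γ' * δ)⁻¹ * vt K) * ed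
            rw [this]
            exact Ideal.sub_mem _ (Ideal.mul_mem_left _ _ hw') (Ideal.mul_mem_left _ _ hw)
        have hc : ∃ c : K, γ' = c * γ ∧ δ' = c * δ := by
          rcases hγδ with h | h
          · refine ⟨γ' / γ, by field_simp, ?_⟩
            field_simp
            linear_combination hdet
          · refine ⟨δ' / δ, ?_, by field_simp⟩
            field_simp
            linear_combination -hdet
        obtain ⟨c, rfl, rfl⟩ := hc
        have : ww K (c * γ) (c * δ) = φ K c * ww K γ δ := by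
          rw [ww, ww, map_mul, map_mul]; ring
        rw [this]
        exact Ideal.mul_mem_left _ _ (mem_LL_of_mem K _ _ (by simp))
    · refine ⟨[], Or.inl rfl, by simp, ?_⟩
      intro γ δ hw
      have : γ = 0 ∧ δ = 0 := by
        by_contra hcon
        apply h2
        refine ⟨γ, δ, ?_, hw⟩
        by_contra h3
        apply hcon
        push Not at h3
        exact h3
      rw [this.1, this.2]
      simp [ww]

theorem le_of_lin (C D : Ideal (RR K)) (hC : GenByLinear (J0 K) C)
    (h : ∀ c0 c1 c2 c3 : K, φ K c0 * vx K + φ K c1 * vy K + ww K c2 c3 ∈ C →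
      φ K c0 * vx K + φ K c1 * vy K + ww K c2 c3 ∈ D) : C ≤ D := by
  rw [hC, Ideal.span_le]
  rintro r ⟨hr, hlin⟩
  obtain ⟨c0, c1, c2, c3, rfl⟩ := lin_form K r hlin
  exact h _ _ _ _ hr

theorem class0 (C : Ideal (RR K)) (hC : GenByLinear (J0 K) C)
    (h : ∀ c0 c1 c2 c3 : K, φ K c0 * vx K + φ K c1 * vy K + ww K c2 c3 ∈ C → c0 = 0 ∧ c1 = 0) :
    C ∈ FF K := by
  obtain ⟨W, hW, hWC, hall⟩ := classW K C
  refine ⟨[], W, Or.inl rfl, hW, ?_⟩
  apply le_antisymm
  · apply le_of_lin K C _ hC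
    intro c0 c1 c2 c3 hm
    obtain ⟨rfl, rfl⟩ := h _ _ _ _ hm
    simp only [map_zero, zero_mul, zero_add] at hm ⊢
    exact hall _ _ hm
  · exact LL_le K _ _ hWC

theorem class1 (C : Ideal (RR K)) (hC : GenByLinear (J0 K) C) (hx : vx K ∈ C)
    (h : ∀ c0 c1 c2 c3 : K, φ K c0 * vx K + φ K c1 * vy K + ww K c2 c3 ∈ C → c1 = 0) :
    C ∈ FF K := by
  obtain ⟨W, hW, hWC, hall⟩ := classW K C
  refine ⟨[vx K], W, Or.inr (Or.inl rfl), hW, ?_⟩
  apply le_antisymm
  · apply le_of_lin K C _ hC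
    intro c0 c1 c2 c3 hm
    obtain rfl := h _ _ _ _ hm
    have hw : ww K c2 c3 ∈ C := by
      have : ww K c2 c3 = (φ K c0 * vx K + φ K 0 * vy K + ww K c2 c3) - φ K c0 * vx K := by
        rw [map_zero]; ring
      rw [this]
      exact Ideal.sub_mem _ hm (Ideal.mul_mem_left _ _ hx)
    have hw' := hall _ _ hw
    rw [map_zero, zero_mul, add_zero]
    refine Ideal.add_mem _ (Ideal.mul_mem_left _ _ (mem_LL_of_mem K _ _ (by simp))) ?_
    exact LL_mono K _ _ (by intro x hx; simp [hx]) hw'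
  · apply LL_le K
    intro x hx'
    simp only [List.mem_append, List.mem_singleton] at hx'
    rcases hx' with rfl | hx'
    · exact hx
    · exact hWC _ hx'

theorem class2 (C : Ideal (RR K)) (hC : GenByLinear (J0 K) C) (hx : vx K ∈ C) (hy : vy K ∈ C) :
    C ∈ FF K := by
  obtain ⟨W, hW, hWC, hall⟩ := classW K C
  refine ⟨[vy K, vx K], W, Or.inr (Or.inr rfl), hW, ?_⟩
  apply le_antisymm
  · apply le_of_lin K C _ hC
    intro c0 c1 c2 c3 hm
    have hw : ww K c2 c3 ∈ C := by
      have : ww K c2 c3 = (φ K c0 * vx K + φ K c1 * vy K + ww K c2 c3) -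
          (φ K c0 * vx K + φ K c1 * vy K) := by ring
      rw [this]
      exact Ideal.sub_mem _ hm (Ideal.add_mem _ (Ideal.mul_mem_left _ _ hx)
        (Ideal.mul_mem_left _ _ hy))
    have hw' := hall _ _ hw
    refine Ideal.add_mem _ (Ideal.add_mem _
      (Ideal.mul_mem_left _ _ (mem_LL_of_mem K _ _ (by simp)))
      (Ideal.mul_mem_left _ _ (mem_LL_of_mem K _ _ (by simp)))) ?_
    exact LL_mono K _ _ (by intro x hx; simp [hx]) hw'
  · apply LL_le K
    intro x hx'
    simp only [List.mem_append, List.mem_cons, List.not_mem_nil, or_false] at hx'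
    rcases hx' with (rfl | rfl) | hx'
    · exact hy
    · exact hx
    · exact hWC _ hx'

/-- substitution `X0 ↦ f`, `X1 ↦ g` -/
noncomputable def sub0 (f g : MvPolynomial (Fin 4) K) : MvPolynomial (Fin 4) K →+* RR K :=
  (Ideal.Quotient.mk (J0 K)).comp (eval₂Hom C ![f, g, X 2, X 3])

theorem sub0_J (f g p : MvPolynomial (Fin 4) K) (hp : p ∈ J0 K) : sub0 K f g p = 0 := by
  have : J0 K ≤ RingHom.ker (sub0 K f g) := by
    refine Ideal.span_le.2 ?_
    intro x hx
    simp only [Set.mem_insert_iff, Set.mem_singleton_iff] at hx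
    rcases hx with rfl | rfl
    · have h := zz K
      simp only [vz] at h
      simp [RingHom.mem_ker, sub0, pow_two, h]
    · have h := tt K
      simp only [vt] at h
      simp [RingHom.mem_ker, sub0, pow_two, h]
  exact this hp

noncomputable def sub (f g : MvPolynomial (Fin 4) K) : RR K →+* RR K :=
  Ideal.Quotient.lift (J0 K) (sub0 K f g) (sub0_J K f g)

theorem sub_x (f g : MvPolynomial (Fin 4) K) : sub K f g (vx K) = Ideal.Quotient.mk _ f := by
  simp [sub, vx, sub0]
theorem sub_y (f g : MvPolynomial (Fin 4) K) : sub K f g (vy K) = Ideal.Quotient.mk _ g := by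
  simp [sub, vy, sub0]
theorem sub_z (f g : MvPolynomial (Fin 4) K) : sub K f g (vz K) = vz K := by
  simp [sub, vz, sub0]
theorem sub_t (f g : MvPolynomial (Fin 4) K) : sub K f g (vt K) = vt K := by
  simp [sub, vt, sub0]
theorem sub_φ (f g : MvPolynomial (Fin 4) K) (c : K) : sub K f g (φ K c) = φ K c := by
  simp [sub, φ_mk, sub0]
theorem sub_w (f g : MvPolynomial (Fin 4) K) (c d : K) : sub K f g (ww K c d) = ww K c d := by
  rw [ww, map_add, map_mul, map_mul, sub_φ, sub_φ, sub_z, sub_t]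

theorem sub_hom (f g : MvPolynomial (Fin 4) K) (hf : f.IsHomogeneous 1) (hg : g.IsHomogeneous 1)
    (r : RR K) (hr : IsHom (J0 K) 1 r) : IsHom (J0 K) 1 (sub K f g r) := by
  obtain ⟨c0, c1, c2, c3, rfl⟩ := lin_form K r hr
  rw [map_add, map_add, map_mul, map_mul, sub_φ, sub_φ, sub_x, sub_y, sub_w]
  exact isHom_add (isHom_add (hom_smul K _ ⟨f, hf, rfl⟩) (hom_smul K _ ⟨g, hg, rfl⟩)) (hom_w K _ _)

theorem hom_id (σ : RR K →+* RR K) (h : ∀ c, σ (φ K c) = φ K c) (hx : σ (vx K) = vx K)
    (hy : σ (vy K) = vy K) (hz : σ (vz K) = vz K) (ht : σ (vt K) = vt K) (r : RR K) : σ r = r := by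
  obtain ⟨p, rfl⟩ := Ideal.Quotient.mk_surjective r
  have : σ.comp (Ideal.Quotient.mk (J0 K)) = Ideal.Quotient.mk (J0 K) := by
    apply MvPolynomial.ringHom_ext
    · intro c
      have := h c
      rw [φ_mk] at this
      exact this
    · intro i
      fin_cases i
      · exact hx
      · exact hy
      · exact hz
      · exact ht
  exact congrArg (fun f => f p) this

/-- the equivalence from two mutually inverse substitutions -/
noncomputable def subEquiv (f g f' g' : MvPolynomial (Fin 4) K)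
    (h1 : sub K f g (Ideal.Quotient.mk _ f') = vx K) (h2 : sub K f g (Ideal.Quotient.mk _ g') = vy K)
    (h3 : sub K f' g' (Ideal.Quotient.mk _ f) = vx K)
    (h4 : sub K f' g' (Ideal.Quotient.mk _ g) = vy K) : RR K ≃+* RR K :=
  RingEquiv.ofRingHom (sub K f g) (sub K f' g')
    (by
      apply RingHom.ext
      intro r
      apply hom_id K
      · intro c
        simp only [RingHom.comp_apply, sub_φ]
      · simp only [RingHom.comp_apply, sub_x, h1]
      · simp only [RingHom.comp_apply, sub_y, h2]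
      · simp only [RingHom.comp_apply, sub_z]
      · simp only [RingHom.comp_apply, sub_t])
    (by
      apply RingHom.ext
      intro r
      apply hom_id K
      · intro c
        simp only [RingHom.comp_apply, sub_φ]
      · simp only [RingHom.comp_apply, sub_x, h3]
      · simp only [RingHom.comp_apply, sub_y, h4]
      · simp only [RingHom.comp_apply, sub_z]
      · simp only [RingHom.comp_apply, sub_t])

/-- transport along a substitution -/
theorem transport (f g f' g' : MvPolynomial (Fin 4) K)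
    (hf : f.IsHomogeneous 1) (hg : g.IsHomogeneous 1)
    (hf' : f'.IsHomogeneous 1) (hg' : g'.IsHomogeneous 1)
    (h1 : sub K f g (Ideal.Quotient.mk _ f') = vx K) (h2 : sub K f g (Ideal.Quotient.mk _ g') = vy K)
    (h3 : sub K f' g' (Ideal.Quotient.mk _ f) = vx K)
    (h4 : sub K f' g' (Ideal.Quotient.mk _ g) = vy K)
    (C : Ideal (RR K)) (hC : GenByLinear (J0 K) C)
    (h : GenByLinear (J0 K) (C.comap (sub K f g)) →
      HasLinearResolution (J0 K) 1 (C.comap (sub K f g))) :
    HasLinearResolution (J0 K) 1 C := by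
  apply linres_transport (subEquiv K f g f' g' h1 h2 h3 h4) (fun r hr => sub_hom K f g hf hg r hr)
  apply h
  have hinv : ∀ r, sub K f g (sub K f' g' r) = r := fun r =>
    (subEquiv K f g f' g' h1 h2 h3 h4).apply_symm_apply r
  have hinv' : ∀ r, sub K f' g' (sub K f g r) = r := fun r =>
    (subEquiv K f g f' g' h1 h2 h3 h4).symm_apply_apply r
  apply le_antisymm
  · intro r hr
    have h5 : sub K f g r ∈ C := hr
    have h6 : Ideal.map (sub K f' g') C ≤
        Ideal.span {y | y ∈ C.comap (sub K f g) ∧ IsHom (J0 K) 1 y} := by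
      rw [hC, Ideal.map_span, Ideal.span_le]
      rintro _ ⟨y, ⟨hy1, hy2⟩, rfl⟩
      apply Ideal.subset_span
      refine ⟨?_, sub_hom K f' g' hf' hg' y hy2⟩
      rw [Ideal.mem_comap, hinv]
      rw [← hC]
      exact hy1
    have h7 : sub K f' g' (sub K f g r) ∈ Ideal.map (sub K f' g') C :=
      Ideal.mem_map_of_mem _ h5
    rw [hinv'] at h7
    exact h6 h7
  · rw [Ideal.span_le]
    intro y hy
    exact hy.1

theorem swap_hyp : sub K (X 1) (X 0) (Ideal.Quotient.mk _ (X 1)) = vx K ∧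
    sub K (X 1) (X 0) (Ideal.Quotient.mk _ (X 0)) = vy K :=
  ⟨sub_y K _ _, sub_x K _ _⟩

/-- case `x, ` and something with `y` -/
theorem uk2 (I : Ideal (RR K)) (hC : GenByLinear (J0 K) I) (hx : vx K ∈ I) :
    HasLinearResolution (J0 K) 1 I := by
  by_cases h : ∀ c0 c1 c2 c3 : K, φ K c0 * vx K + φ K c1 * vy K + ww K c2 c3 ∈ I → c1 = 0
  · exact linres_FF K I (class1 K I hC hx h)
  · push Not at h
    obtain ⟨c0, c1, c2, c3, hm, hc1⟩ := h
    have hm' : φ K c1 * vy K + ww K c2 c3 ∈ I := by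
      have : φ K c1 * vy K + ww K c2 c3 = (φ K c0 * vx K + φ K c1 * vy K + ww K c2 c3) -
          φ K c0 * vx K := by ring
      rw [this]
      exact Ideal.sub_mem _ hm (Ideal.mul_mem_left _ _ hx)
    have e : φ K c1⁻¹ * φ K c1 = 1 := by rw [← map_mul, inv_mul_cancel₀ hc1, map_one]
    have hX : ∀ i : Fin 4, (X i : MvPolynomial (Fin 4) K).IsHomogeneous 1 :=
      fun i => isHomogeneous_X K i
    have hg : (Ideal.Quotient.mk (J0 K)) (C c1 * X 1 + (C c2 * X 2 + C c3 * X 3)) =
        φ K c1 * vy K + ww K c2 c3 := by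
      simp only [map_add, map_mul, φ_mk, ww, vy, vz, vt]
    have hg' : (Ideal.Quotient.mk (J0 K)) (C c1⁻¹ * (X 1 - (C c2 * X 2 + C c3 * X 3))) =
        φ K c1⁻¹ * (vy K - ww K c2 c3) := by
      simp only [map_add, map_sub, map_mul, φ_mk, ww, vy, vz, vt]
    apply transport K (X 0) (C c1 * X 1 + (C c2 * X 2 + C c3 * X 3)) (X 0)
      (C c1⁻¹ * (X 1 - (C c2 * X 2 + C c3 * X 3))) (hX 0)
      (((hX 1).C_mul _).add (((hX 2).C_mul _).add ((hX 3).C_mul _))) (hX 0)
      (((hX 1).sub (((hX 2).C_mul _).add ((hX 3).C_mul _))).C_mul _) (sub_x K _ _) ?_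
      (sub_x K _ _) ?_ I hC
    · intro hC'
      apply linres_FF
      apply class2 K _ hC'
      · rw [Ideal.mem_comap, sub_x]; exact hx
      · rw [Ideal.mem_comap, sub_y, hg]; exact hm'
    · rw [hg', map_mul, map_sub, sub_φ, sub_y, sub_w, hg]
      linear_combination (vy K) * e
    · rw [hg, map_add, map_mul, sub_φ, sub_y, sub_w, hg']
      linear_combination (vy K - ww K c2 c3) * e

theorem uk1 (I : Ideal (RR K)) (hC : GenByLinear (J0 K) I) (c0 c1 c2 c3 : K)
    (hm : φ K c0 * vx K + φ K c1 * vy K + ww K c2 c3 ∈ I) (hc0 : c0 ≠ 0) :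
    HasLinearResolution (J0 K) 1 I := by
  have e : φ K c0⁻¹ * φ K c0 = 1 := by rw [← map_mul, inv_mul_cancel₀ hc0, map_one]
  have hX : ∀ i : Fin 4, (X i : MvPolynomial (Fin 4) K).IsHomogeneous 1 :=
    fun i => isHomogeneous_X K i
  have hf : (Ideal.Quotient.mk (J0 K)) (C c0 * X 0 + (C c1 * X 1 + (C c2 * X 2 + C c3 * X 3))) =
      φ K c0 * vx K + (φ K c1 * vy K + ww K c2 c3) := by
    simp only [map_add, map_mul, φ_mk, ww, vy, vz, vt, vx]
  have hf' : (Ideal.Quotient.mk (J0 K))
      (C c0⁻¹ * (X 0 - (C c1 * X 1 + (C c2 * X 2 + C c3 * X 3)))) =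
      φ K c0⁻¹ * (vx K - (φ K c1 * vy K + ww K c2 c3)) := by
    simp only [map_add, map_sub, map_mul, φ_mk, ww, vy, vz, vt, vx]
  have hh : (C c1 * X 1 + (C c2 * X 2 + C c3 * X 3) : MvPolynomial (Fin 4) K).IsHomogeneous 1 :=
    ((hX 1).C_mul _).add (((hX 2).C_mul _).add ((hX 3).C_mul _))
  apply transport K (C c0 * X 0 + (C c1 * X 1 + (C c2 * X 2 + C c3 * X 3))) (X 1)
    (C c0⁻¹ * (X 0 - (C c1 * X 1 + (C c2 * X 2 + C c3 * X 3)))) (X 1)
    (((hX 0).C_mul _).add hh) (hX 1) (((hX 0).sub hh).C_mul _) (hX 1) ?_ (sub_y K _ _) ?_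
    (sub_y K _ _) I hC
  · intro hC'
    apply uk2 K _ hC'
    rw [Ideal.mem_comap, sub_x, hf, ← add_assoc]
    exact hm
  · rw [hf', map_mul, map_sub, map_add, map_mul, sub_φ, sub_φ, sub_x, sub_y, sub_w, hf]
    change φ K c0⁻¹ * (φ K c0 * vx K + (φ K c1 * vy K + ww K c2 c3) -
      (φ K c1 * vy K + ww K c2 c3)) = vx K
    linear_combination (vx K) * e
  · rw [hf, map_add, map_add, map_mul, map_mul, sub_φ, sub_φ, sub_x, sub_y, sub_w, hf']
    change φ K c0 * (φ K c0⁻¹ * (vx K - (φ K c1 * vy K + ww K c2 c3))) +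
      (φ K c1 * vy K + ww K c2 c3) = vx K
    linear_combination (vx K - (φ K c1 * vy K + ww K c2 c3)) * e

theorem uk : UniversallyKoszul (J0 K) := by
  intro I hI _
  by_cases h : ∀ c0 c1 c2 c3 : K, φ K c0 * vx K + φ K c1 * vy K + ww K c2 c3 ∈ I →
      c0 = 0 ∧ c1 = 0
  · exact linres_FF K I (class0 K I hI h)
  · push Not at h
    obtain ⟨c0, c1, c2, c3, hm, hc⟩ := h
    by_cases hc0 : c0 = 0
    · have hc1 := hc hc0
      have hX : ∀ i : Fin 4, (X i : MvPolynomial (Fin 4) K).IsHomogeneous 1 :=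
        fun i => isHomogeneous_X K i
      apply transport K (X 1) (X 0) (X 1) (X 0) (hX 1) (hX 0) (hX 1) (hX 0) (swap_hyp K).1
        (swap_hyp K).2 (swap_hyp K).1 (swap_hyp K).2 I hI
      intro hC'
      apply uk1 K _ hC' c1 c0 c2 c3 _ hc1
      rw [Ideal.mem_comap, map_add, map_add, map_mul, map_mul, sub_φ, sub_φ, sub_x, sub_y, sub_w]
      change φ K c1 * vy K + φ K c0 * vx K + ww K c2 c3 ∈ I
      rw [add_comm (φ K c1 * vy K)]
      exact hm
    · exact uk1 K I hI c0 c1 c2 c3 hm hc0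

end Pool.Agent.H10.UK
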