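import Mathlib

/-! Definitions for the universally Koszul problem MP_49092c_al.  Throughout, `K` is a field,
`S = K[x_1,...,x_n]` is `MvPolynomial (Fin n) K`, `J` is an ideal of `S` and `R = S ⧸ J`. -/

set_option autoImplicit false

namespace Pool.Agent.H10.UK

variable {K : Type*} [Field K] {n : ℕ}

/-- `r ∈ R = S/J` is homogeneous of degree `d`: it is the class of a homogeneous polynomial of
degree `d`. -/
def IsHom (J : Ideal (MvPolynomial (Fin n) K)) (d : ℕ) (r : MvPolynomial (Fin n) K ⧸ J) : Prop :=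
  ∃ p : MvPolynomial (Fin n) K, p.IsHomogeneous d ∧ Ideal.Quotient.mk J p = r

/-- The ideal `I` of `R = S/J` is generated by elements of degree `1`. -/
def GenByLinear (J : Ideal (MvPolynomial (Fin n) K)) (I : Ideal (MvPolynomial (Fin n) K ⧸ J)) :
    Prop :=
  I = Ideal.span {y | y ∈ I ∧ IsHom J 1 y}

/-- The ideal `I` of `R = S/J` has a `d`-linear graded free resolution
`⋯ → R(-d-2)^{b 2} → R(-d-1)^{b 1} → R(-d)^{b 0} → I → 0`: generators `g j` of degree `d`, and
matrices `A i` all of whose entries are homogeneous of degree `1`, the whole sequence being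
exact.  (Such a resolution is automatically minimal, so for a nonzero ideal this says exactly
that `reg_R(I) = d`.) -/
def HasLinearResolution (J : Ideal (MvPolynomial (Fin n) K)) (d : ℕ)
    (I : Ideal (MvPolynomial (Fin n) K ⧸ J)) : Prop :=
  ∃ b : ℕ → ℕ, ∃ g : Fin (b 0) → MvPolynomial (Fin n) K ⧸ J,
    ∃ A : (i : ℕ) → Matrix (Fin (b i)) (Fin (b (i + 1))) (MvPolynomial (Fin n) K ⧸ J),
      (∀ j, IsHom J d (g j)) ∧
      (∀ i a c, IsHom J 1 (A i a c)) ∧
      Ideal.span (Set.range g) = I ∧
      (∀ v : Fin (b 0) → MvPolynomial (Fin n) K ⧸ J,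
        ∑ j, v j * g j = 0 ↔ ∃ w, (A 0).mulVec w = v) ∧
      (∀ (i : ℕ) (v : Fin (b (i + 1)) → MvPolynomial (Fin n) K ⧸ J),
        (A i).mulVec v = 0 ↔ ∃ w, (A (i + 1)).mulVec w = v)

/-- `R = S/J` is universally Koszul: every nonzero ideal generated by elements of degree `1` has
a linear resolution over `R`. -/
def UniversallyKoszul (J : Ideal (MvPolynomial (Fin n) K)) : Prop :=
  ∀ I : Ideal (MvPolynomial (Fin n) K ⧸ J), GenByLinear J I → I ≠ ⊥ → HasLinearResolution J 1 I

end Pool.Agent.H10.UK
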