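import Pool.Agent.H10.UKRing

/-! The algebra `K[x,y,z,t]/(z^2,t^2)`: a Koszul filtration. -/

set_option autoImplicit false

open MvPolynomial

namespace Pool.Agent.H10.UK

variable (K : Type*) [Field K]

/-- scalars -/
noncomputable def φ : K →+* RR K := (ψ K).comp C

/-- a form in `z, t` -/
noncomputable def ww (γ δ : K) : RR K := φ K γ * vz K + φ K δ * vt K

theorem nf_mul (p0 p1 p2 p3 q0 q1 q2 q3 : PP K) :
    nf K p0 p1 p2 p3 * nf K q0 q1 q2 q3 =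
      nf K (p0 * q0) (p0 * q1 + p1 * q0) (p0 * q2 + p2 * q0)
        (p0 * q3 + p3 * q0 + p1 * q2 + p2 * q1) := by
  have hz := zz K
  have ht := tt K
  simp only [nf, map_mul, map_add]
  linear_combination (ψ K p1 * ψ K q1 + ψ K p3 * ψ K q1 * vt K + ψ K p1 * ψ K q3 * vt K +
    ψ K p3 * ψ K q3 * vt K * vt K) * hz + (ψ K p2 * ψ K q2 + ψ K p3 * ψ K q2 * vz K +
    ψ K p2 * ψ K q3 * vz K) * ht

theorem nf_add (p0 p1 p2 p3 q0 q1 q2 q3 : PP K) :
    nf K p0 p1 p2 p3 + nf K q0 q1 q2 q3 = nf K (p0 + q0) (p1 + q1) (p2 + q2) (p3 + q3) := by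
  simp only [nf, map_add]
  ring

theorem ww_nf (γ δ : K) : ww K γ δ = nf K 0 (C γ) (C δ) 0 := by
  simp [nf, ww, φ]
theorem ψ_nf (a : PP K) : ψ K a = nf K a 0 0 0 := by simp [nf]
theorem vz_nf : vz K = nf K 0 1 0 0 := by simp [nf]
theorem vt_nf : vt K = nf K 0 0 1 0 := by simp [nf]

/-- the ideal spanned by a list -/
noncomputable abbrev LL (l : List (RR K)) : Ideal (RR K) := Submodule.span (RR K) {y | y ∈ l}

theorem mem_LL_cons (x : RR K) (l : List (RR K)) (r : RR K) :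
    r ∈ LL K (x :: l) ↔ ∃ u, ∃ s ∈ LL K l, r = u * x + s := by
  have : {y | y ∈ x :: l} = insert x {y | y ∈ l} := by ext y; simp
  rw [LL, this, Submodule.mem_span_insert]
  rfl

theorem mem_LL_nil (r : RR K) : r ∈ LL K [] ↔ r = 0 := by
  simp [LL]

theorem LL_zero_cons (l : List (RR K)) : LL K (0 :: l) = LL K l := by
  ext r
  rw [mem_LL_cons]
  constructor
  · rintro ⟨u, s, hs, rfl⟩; simpa using hs
  · intro h; exact ⟨0, r, h, by simp⟩

theorem condN (a p0 p1 p2 p3 : PP K) :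
    nf K p0 p1 p2 p3 ∈ LL K [ψ K a] ↔ a ∣ p0 ∧ a ∣ p1 ∧ a ∣ p2 ∧ a ∣ p3 := by
  constructor
  · intro h
    rw [mem_LL_cons] at h
    obtain ⟨u, s, hs, h⟩ := h
    rw [mem_LL_nil] at hs
    subst hs
    obtain ⟨u0, u1, u2, u3, rfl⟩ := nf_surj K u
    rw [ψ_nf, nf_mul, add_zero] at h
    obtain ⟨h0, h1, h2, h3⟩ := nf_inj K h
    exact ⟨⟨u0, by rw [h0]; ring⟩, ⟨u1, by rw [h1]; ring⟩, ⟨u2, by rw [h2]; ring⟩,
      ⟨u3, by rw [h3]; ring⟩⟩
  · rintro ⟨⟨c0, rfl⟩, ⟨c1, rfl⟩, ⟨c2, rfl⟩, ⟨c3, rfl⟩⟩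
    rw [mem_LL_cons]
    refine ⟨nf K c0 c1 c2 c3, 0, by rw [mem_LL_nil], ?_⟩
    rw [ψ_nf, nf_mul, add_zero]
    congr 1 <;> ring

theorem condW (γ δ : K) (hγδ : γ ≠ 0 ∨ δ ≠ 0) (a p0 p1 p2 p3 : PP K) :
    nf K p0 p1 p2 p3 ∈ LL K [ψ K a, ww K γ δ] ↔ a ∣ p0 ∧ a ∣ C δ * p1 - C γ * p2 := by
  constructor
  · intro h
    rw [mem_LL_cons] at h
    obtain ⟨u, s, hs, h⟩ := h
    rw [mem_LL_cons] at hs
    obtain ⟨v, s', hs', rfl⟩ := hs
    rw [mem_LL_nil] at hs'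
    subst hs'
    obtain ⟨u0, u1, u2, u3, rfl⟩ := nf_surj K u
    obtain ⟨v0, v1, v2, v3, rfl⟩ := nf_surj K v
    rw [ψ_nf, ww_nf, nf_mul, nf_mul, add_zero, nf_add] at h
    obtain ⟨h0, h1, h2, h3⟩ := nf_inj K h
    refine ⟨⟨u0, by rw [h0]; ring⟩, ⟨C δ * u1 - C γ * u2, by rw [h1, h2]; ring⟩⟩
  · rintro ⟨⟨c0, rfl⟩, ⟨c, hc⟩⟩
    rw [mem_LL_cons]
    rcases hγδ with h | h
    · have e : (C γ⁻¹ * C γ : PP K) = 1 := by rw [← C_mul, inv_mul_cancel₀ h, C_1]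
      refine ⟨nf K c0 0 (-(C γ⁻¹ * c)) 0, nf K (C γ⁻¹ * p1) 0 0 0 * ww K γ δ +
        nf K 0 0 (C γ⁻¹ * p3) 0 * ww K γ δ, ?_, ?_⟩
      · rw [mem_LL_cons]
        exact ⟨nf K (C γ⁻¹ * p1) 0 0 0 + nf K 0 0 (C γ⁻¹ * p3) 0, 0, by rw [mem_LL_nil], by ring⟩
      · rw [ψ_nf, ww_nf, nf_mul, nf_mul, nf_mul, nf_add, nf_add]
        congr 1
        · ring
        · linear_combination (-p1) * e
        · linear_combination (-(C γ⁻¹)) * hc - p2 * e
        · linear_combination (-p3) * e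
    · have e : (C δ⁻¹ * C δ : PP K) = 1 := by rw [← C_mul, inv_mul_cancel₀ h, C_1]
      refine ⟨nf K c0 (C δ⁻¹ * c) 0 0, nf K (C δ⁻¹ * p2) 0 0 0 * ww K γ δ +
        nf K 0 (C δ⁻¹ * p3) 0 0 * ww K γ δ, ?_, ?_⟩
      · rw [mem_LL_cons]
        exact ⟨nf K (C δ⁻¹ * p2) 0 0 0 + nf K 0 (C δ⁻¹ * p3) 0 0, 0, by rw [mem_LL_nil], by ring⟩
      · rw [ψ_nf, ww_nf, nf_mul, nf_mul, nf_mul, nf_add, nf_add]
        congr 1
        · ring
        · linear_combination (C δ⁻¹) * hc - p1 * e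
        · linear_combination (-p2) * e
        · linear_combination (-p3) * e

theorem condZ (a p0 p1 p2 p3 : PP K) :
    nf K p0 p1 p2 p3 ∈ LL K [ψ K a, vt K, vz K] ↔ a ∣ p0 := by
  constructor
  · intro h
    rw [mem_LL_cons] at h
    obtain ⟨u, s, hs, h⟩ := h
    rw [mem_LL_cons] at hs
    obtain ⟨v, s', hs', rfl⟩ := hs
    rw [mem_LL_cons] at hs'
    obtain ⟨v', s'', hs'', rfl⟩ := hs'
    rw [mem_LL_nil] at hs''
    subst hs''
    obtain ⟨u0, u1, u2, u3, rfl⟩ := nf_surj K u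
    obtain ⟨v0, v1, v2, v3, rfl⟩ := nf_surj K v
    obtain ⟨w0, w1, w2, w3, rfl⟩ := nf_surj K v'
    rw [ψ_nf, vt_nf, vz_nf, nf_mul, nf_mul, nf_mul, add_zero, nf_add, nf_add] at h
    obtain ⟨h0, h1, h2, h3⟩ := nf_inj K h
    exact ⟨u0, by rw [h0]; ring⟩
  · rintro ⟨c0, rfl⟩
    rw [mem_LL_cons]
    refine ⟨nf K c0 0 0 0, nf K p2 0 0 0 * vt K + nf K p1 0 p3 0 * vz K, ?_, ?_⟩
    · rw [mem_LL_cons]
      refine ⟨_, nf K p1 0 p3 0 * vz K, ?_, rfl⟩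
      rw [mem_LL_cons]
      exact ⟨_, 0, by rw [mem_LL_nil], by rw [add_zero]⟩
    · rw [ψ_nf, vt_nf, vz_nf, nf_mul, nf_mul, nf_mul, nf_add, nf_add]
      congr 1 <;> ring

/-- admissible lists in `z,t` -/
def IsW (l : List (RR K)) : Prop :=
  l = [] ∨ (∃ γ δ : K, (γ ≠ 0 ∨ δ ≠ 0) ∧ l = [ww K γ δ]) ∨ l = [vt K, vz K]

theorem col_ab (a b : PP K) (hab : ∀ q, a ∣ q * b → a ∣ q) (l : List (RR K)) (hl : IsW K l) :
    col (ψ K a :: l) (ψ K b) = LL K (ψ K a :: l) := by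
  ext r
  rw [mem_col, smul_eq_mul]
  constructor
  · intro h
    obtain ⟨p0, p1, p2, p3, rfl⟩ := nf_surj K r
    have e : nf K p0 p1 p2 p3 * ψ K b = nf K (p0 * b) (p1 * b) (p2 * b) (p3 * b) := by
      rw [ψ_nf, nf_mul]
      congr 1 <;> ring
    rw [e] at h
    rcases hl with rfl | ⟨γ, δ, hγδ, rfl⟩ | rfl
    · rw [condN] at h ⊢
      exact ⟨hab _ h.1, hab _ h.2.1, hab _ h.2.2.1, hab _ h.2.2.2⟩
    · rw [condW _ _ _ hγδ] at h ⊢
      refine ⟨hab _ h.1, hab _ ?_⟩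
      convert h.2 using 1
      ring
    · rw [condZ] at h ⊢
      exact hab _ h
  · intro h
    exact Ideal.mul_mem_right _ _ h

theorem col_b (b : PP K) (hb : b ≠ 0) (l : List (RR K)) (hl : IsW K l) :
    col l (ψ K b) = LL K l := by
  have h1 := col_ab K 0 b (fun q hq => by
    rw [zero_dvd_iff] at hq ⊢
    rcases mul_eq_zero.1 hq with h | h
    · exact h
    · exact absurd h hb) l hl
  rw [map_zero, LL_zero_cons] at h1
  rw [← h1]
  ext r
  rw [mem_col, mem_col]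
  have := LL_zero_cons K l
  rw [LL, LL] at this
  rw [this]

theorem col_w (γ δ : K) (hγδ : γ ≠ 0 ∨ δ ≠ 0) : col [] (ww K γ δ) = LL K [ww K γ (-δ)] := by
  ext r
  rw [mem_col, smul_eq_mul]
  obtain ⟨p0, p1, p2, p3, rfl⟩ := nf_surj K r
  have h0 : γ ≠ 0 ∨ -δ ≠ 0 := by
    rcases hγδ with h | h
    · exact Or.inl h
    · exact Or.inr (neg_ne_zero.2 h)
  have e : nf K p0 p1 p2 p3 ∈ LL K [ww K γ (-δ)] ↔ nf K p0 p1 p2 p3 ∈ LL K [ψ K 0, ww K γ (-δ)] := by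
    rw [map_zero, LL_zero_cons]
  rw [e, condW _ _ _ h0]
  change nf K p0 p1 p2 p3 * ww K γ δ ∈ LL K [] ↔ _
  rw [mem_LL_nil, ww_nf, nf_mul]
  constructor
  · intro h
    obtain ⟨h0, h1, h2, h3⟩ := nf_zero K _ _ _ _ h
    constructor
    · rw [zero_dvd_iff]
      rcases hγδ with hh | hh
      · have e : (C γ⁻¹ * C γ : PP K) = 1 := by rw [← C_mul, inv_mul_cancel₀ hh, C_1]
        linear_combination (C γ⁻¹) * h1 - p0 * e
      · have e : (C δ⁻¹ * C δ : PP K) = 1 := by rw [← C_mul, inv_mul_cancel₀ hh, C_1]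
        linear_combination (C δ⁻¹) * h2 - p0 * e
    · rw [zero_dvd_iff, C_neg]
      linear_combination -h3
  · rintro ⟨h0, h1⟩
    rw [zero_dvd_iff] at h0 h1
    rw [h0]
    rw [C_neg] at h1
    have h2 : (0 : PP K) * 0 + p3 * 0 + p1 * C δ + p2 * C γ = 0 := by linear_combination -h1
    rw [h2]
    simp [nf]

theorem col_zt : col [vz K] (vt K) = LL K [vt K, vz K] := by
  ext r
  rw [mem_col, smul_eq_mul]
  obtain ⟨p0, p1, p2, p3, rfl⟩ := nf_surj K r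
  have e : nf K p0 p1 p2 p3 ∈ LL K [vt K, vz K] ↔
      nf K p0 p1 p2 p3 ∈ LL K [ψ K 0, vt K, vz K] := by
    rw [map_zero, LL_zero_cons]
  have e' : ∀ s, s ∈ LL K [vz K] ↔ s ∈ LL K [ψ K 0, ww K 1 0] := by
    intro s
    rw [map_zero, LL_zero_cons]
    have : ww K 1 0 = vz K := by simp [ww]
    rw [this]
  rw [e, condZ]
  change nf K p0 p1 p2 p3 * vt K ∈ LL K [vz K] ↔ _
  rw [e', vt_nf, nf_mul, condW _ _ _ (Or.inl one_ne_zero)]
  simp only [zero_dvd_iff]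
  constructor
  · rintro ⟨h1, h2⟩
    simpa using h2
  · intro h
    rw [h]
    simp

/-- tops -/
def IsT (l : List (RR K)) : Prop := l = [] ∨ l = [vx K] ∨ l = [vy K, vx K]

/-- the family -/
def FF : Set (Ideal (RR K)) := {I | ∃ T W, IsT K T ∧ IsW K W ∧ I = LL K (T ++ W)}

theorem ψx : ψ K (X 0) = vx K := by simp [ψ, vx]
theorem ψy : ψ K (X 1) = vy K := by simp [ψ, vy]

theorem hom_x : IsHom (J0 K) 1 (vx K) := ⟨X 0, isHomogeneous_X _ _, rfl⟩
theorem hom_y : IsHom (J0 K) 1 (vy K) := ⟨X 1, isHomogeneous_X _ _, rfl⟩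
theorem hom_z : IsHom (J0 K) 1 (vz K) := ⟨X 2, isHomogeneous_X _ _, rfl⟩
theorem hom_t : IsHom (J0 K) 1 (vt K) := ⟨X 3, isHomogeneous_X _ _, rfl⟩
theorem φ_mk (c : K) : φ K c = Ideal.Quotient.mk (J0 K) (C c) := by simp [φ, ψ]
theorem hom_smul (c : K) {r : RR K} {d : ℕ} (h : IsHom (J0 K) d r) :
    IsHom (J0 K) d (φ K c * r) := by
  obtain ⟨p, hp, rfl⟩ := h
  exact ⟨C c * p, hp.C_mul c, by rw [φ_mk, map_mul]⟩
theorem hom_w (γ δ : K) : IsHom (J0 K) 1 (ww K γ δ) :=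
  isHom_add (hom_smul K γ (hom_z K)) (hom_smul K δ (hom_t K))

theorem filtW (l : List (RR K)) (hl : IsW K l) : Filt (FF K) l := by
  rcases hl with rfl | ⟨γ, δ, hγδ, rfl⟩ | rfl
  · trivial
  · refine ⟨trivial, ?_⟩
    rw [col_w K γ δ hγδ]
    refine ⟨[], [ww K γ (-δ)], Or.inl rfl, Or.inr (Or.inl ⟨γ, -δ, ?_, rfl⟩), rfl⟩
    rcases hγδ with h | h
    · exact Or.inl h
    · exact Or.inr (neg_ne_zero.2 h)
  · refine ⟨⟨trivial, ?_⟩, ?_⟩
    · have : vz K = ww K 1 0 := by simp [ww]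
      rw [this, col_w K 1 0 (Or.inl one_ne_zero)]
      exact ⟨[], [ww K 1 (-0)], Or.inl rfl, Or.inr (Or.inl ⟨1, -0, Or.inl one_ne_zero, rfl⟩), rfl⟩
    · rw [col_zt]
      exact ⟨[], [vt K, vz K], Or.inl rfl, Or.inr (Or.inr rfl), rfl⟩

theorem x_ndvd (q : PP K) (h : (X 0 : PP K) ∣ q * X 1) : (X 0 : PP K) ∣ q := by
  rcases (X_prime (i := (0 : Fin 2)) (R := K)).dvd_or_dvd h with h | h
  · exact h
  · rw [X_dvd_X] at h
    exact absurd h (by decide)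

theorem good : Good (J0 K) (FF K) := by
  rintro C ⟨T, W, hT, hW, rfl⟩
  refine ⟨T ++ W, ?_, rfl, ?_⟩
  · intro r hr
    have hWl : ∀ r ∈ W, IsHom (J0 K) 1 r := by
      intro r hr
      rcases hW with rfl | ⟨γ, δ, -, rfl⟩ | rfl
      · simp at hr
      · simp only [List.mem_singleton] at hr
        rw [hr]; exact hom_w K γ δ
      · simp only [List.mem_cons, List.not_mem_nil, or_false] at hr
        rcases hr with rfl | rfl
        · exact hom_t K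
        · exact hom_z K
    rw [List.mem_append] at hr
    rcases hr with hr | hr
    · rcases hT with rfl | rfl | rfl
      · simp at hr
      · simp only [List.mem_singleton] at hr
        rw [hr]; exact hom_x K
      · simp only [List.mem_cons, List.not_mem_nil, or_false] at hr
        rcases hr with rfl | rfl
        · exact hom_y K
        · exact hom_x K
    · exact hWl r hr
  · rcases hT with rfl | rfl | rfl
    · exact filtW K W hW
    · refine ⟨filtW K W hW, ?_⟩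
      have := col_b K (X 0) (X_ne_zero 0) W hW
      rw [ψx] at this
      change col W (vx K) ∈ FF K
      rw [this]
      exact ⟨[], W, Or.inl rfl, hW, rfl⟩
    · refine ⟨⟨filtW K W hW, ?_⟩, ?_⟩
      · have := col_b K (X 0) (X_ne_zero 0) W hW
        rw [ψx] at this
        change col W (vx K) ∈ FF K
        rw [this]
        exact ⟨[], W, Or.inl rfl, hW, rfl⟩
      · have := col_ab K (X 0) (X 1) (x_ndvd K) W hW
        rw [ψx, ψy] at this
        change col (vx K :: W) (vy K) ∈ FF K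
        rw [this]
        exact ⟨[vx K], W, Or.inr (Or.inl rfl), hW, rfl⟩

attribute [local instance] MvPolynomial.gradedAlgebra in
theorem J0_hom (p : MvPolynomial (Fin 4) K) (hp : p ∈ J0 K) (i : ℕ) :
    homogeneousComponent i p ∈ J0 K := by
  refine homogeneousComponent_mem_of_mem ?_ hp i
  apply Ideal.homogeneous_span
  intro x hx
  simp only [Set.mem_insert_iff, Set.mem_singleton_iff] at hx
  refine ⟨2, ?_⟩
  rw [mem_homogeneousSubmodule]
  rcases hx with rfl | rfl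
  · exact isHomogeneous_X_pow _ 2
  · exact isHomogeneous_X_pow _ 2

theorem linres_FF (I : Ideal (RR K)) (hI : I ∈ FF K) : HasLinearResolution (J0 K) 1 I :=
  linres_of_filt (J0_hom K) (FF K) (good K) I hI

end Pool.Agent.H10.UK
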