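import Pool.Agent.H10.UKDefs

/-! A Koszul filtration gives linear resolutions. -/

set_option autoImplicit false

open MvPolynomial

namespace Pool.Agent.H10.UK

section Gen

variable {R : Type*} [CommRing R]

/-- colon ideal `(span l : x)` -/
def col {M : Type*} [AddCommGroup M] [Module R M] (l : List M) (x : M) : Ideal R :=
  (Submodule.span R {y | y ∈ l}).comap (LinearMap.toSpanSingleton R M x)

theorem mem_col {M : Type*} [AddCommGroup M] [Module R M] (l : List M) (x : M) (r : R) :
    r ∈ col l x ↔ r • x ∈ Submodule.span R {y | y ∈ l} := by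
  simp [col]

/-- list filtered with colon ideals in `F` -/
def Filt {M : Type*} [AddCommGroup M] [Module R M] (F : Set (Ideal R)) : List M → Prop
  | [] => True
  | x :: l => Filt F l ∧ col l x ∈ F

theorem col_map {M N : Type*} [AddCommGroup M] [Module R M] [AddCommGroup N] [Module R N]
    (f : M →ₗ[R] N) (hf : Function.Injective f) (l : List M) (x : M) :
    col (l.map f) (f x) = (col l x : Ideal R) := by
  ext r
  rw [mem_col, mem_col, ← map_smul]
  have : {y | y ∈ l.map f} = f '' {y | y ∈ l} := by
    ext y; simp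
  rw [this, ← Submodule.map_span]
  constructor
  · rintro ⟨z, hz, hzx⟩
    rwa [← hf hzx]
  · intro h
    exact ⟨_, h, rfl⟩

theorem filt_map {M N : Type*} [AddCommGroup M] [Module R M] [AddCommGroup N] [Module R N]
    (F : Set (Ideal R)) (f : M →ₗ[R] N) (hf : Function.Injective f) (l : List M)
    (h : Filt F l) : Filt F (l.map f) := by
  induction l with
  | nil => trivial
  | cons x l ih =>
    refine ⟨ih h.1, ?_⟩
    rw [col_map f hf]
    exact h.2

theorem filt_top {N : Type*} [AddCommGroup N] [Module R N] (F : Set (Ideal R))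
    (π : N →ₗ[R] R) (Z : Submodule R N) (rest : List N) (top : R → N)
    (h1 : ∀ w ∈ rest, π w = 0 ∧ w ∈ Z)
    (h2 : ∀ v ∈ Z, π v = 0 → v ∈ Submodule.span R {y | y ∈ rest})
    (hr : Filt F rest) (xs : List R) (hx : ∀ x ∈ xs, top x ∈ Z ∧ π (top x) = x)
    (hxs : Filt F xs) :
    Filt F (xs.map top ++ rest) ∧
      ∀ v ∈ Z, π v ∈ Submodule.span R {y | y ∈ xs} →
        v ∈ Submodule.span R {y | y ∈ xs.map top ++ rest} := by
  induction xs with
  | nil =>
    refine ⟨hr, ?_⟩
    intro v hv hv'
    apply h2 v hv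
    simpa using hv'
  | cons x xs ih =>
    obtain ⟨ih1, ih2⟩ := ih (fun y hy => hx y (List.mem_cons_of_mem _ hy)) hxs.1
    have hxx := hx x List.mem_cons_self
    constructor
    · refine ⟨ih1, ?_⟩
      have : col (xs.map top ++ rest) (top x) = (col xs x : Ideal R) := by
        ext r
        rw [mem_col, mem_col]
        constructor
        · intro h
          have h3 : π (r • top x) ∈ Submodule.map π (Submodule.span R
              {y | y ∈ xs.map top ++ rest}) := ⟨_, h, rfl⟩
          rw [Submodule.map_span] at h3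
          rw [map_smul, hxx.2] at h3
          refine Submodule.span_le.2 ?_ h3
          rintro _ ⟨y, hy, rfl⟩
          simp only [Set.mem_ofPred_eq, List.mem_append, List.mem_map] at hy
          rcases hy with ⟨z, hz, rfl⟩ | hy
          · rw [(hx z (List.mem_cons_of_mem _ hz)).2]
            exact Submodule.subset_span hz
          · rw [(h1 y hy).1]
            exact Submodule.zero_mem _
        · intro h
          apply ih2 _ (Z.smul_mem r hxx.1)
          rw [map_smul, hxx.2]
          exact h
      change col (xs.map top ++ rest) (top x) ∈ F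
      rw [this]
      exact hxs.2
    · intro v hv hv'
      have e1 : {y | y ∈ x :: xs} = insert x {y | y ∈ xs} := by
        ext y; simp
      rw [e1, Submodule.mem_span_insert] at hv'
      obtain ⟨c, s, hs, hcs⟩ := hv'
      have h3 : v - c • top x ∈ Submodule.span R {y | y ∈ xs.map top ++ rest} := by
        apply ih2 _ (Z.sub_mem hv (Z.smul_mem c hxx.1))
        rw [map_sub, map_smul, hxx.2, hcs]
        simpa using hs
      have h4 : v = (v - c • top x) + c • top x := by abel
      rw [h4]
      refine Submodule.add_mem _ ?_ ?_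
      · refine Submodule.span_mono ?_ h3
        intro y hy
        exact List.mem_cons_of_mem _ hy
      · refine Submodule.smul_mem _ _ (Submodule.subset_span ?_)
        simp

end Gen

variable {K : Type*} [Field K] {n : ℕ} {J : Ideal (MvPolynomial (Fin n) K)}

theorem comp_mul_hom {m : ℕ} (G : MvPolynomial (Fin m) K) (d k : ℕ) (hG : G.IsHomogeneous d)
    (T : MvPolynomial (Fin m) K) :
    homogeneousComponent (k + d) (T * G) = homogeneousComponent k T * G := by
  induction T using MvPolynomial.induction_on' with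
  | monomial m q =>
    have h0 : (monomial m q : MvPolynomial (Fin _) K).IsHomogeneous m.degree :=
      isHomogeneous_monomial q rfl
    have h1 : (monomial m q * G).IsHomogeneous (m.degree + d) := h0.mul hG
    rw [homogeneousComponent_of_mem h1, homogeneousComponent_of_mem h0]
    by_cases hm : k = m.degree
    · rw [if_pos (by omega), if_pos hm]
    · rw [if_neg (by omega), if_neg hm, zero_mul]
  | add p q hp hq => rw [add_mul, map_add, hp, hq, map_add, add_mul]

theorem lincoef (hJ : ∀ p ∈ J, ∀ i : ℕ, homogeneousComponent i p ∈ J) {ι : Type*} {k : ℕ}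
    (g : Fin k → ι → MvPolynomial (Fin n) K ⧸ J) (hg : ∀ i t, IsHom J 1 (g i t))
    (g0 : ι → MvPolynomial (Fin n) K ⧸ J) (hg0 : ∀ t, IsHom J 1 (g0 t))
    (x : MvPolynomial (Fin n) K ⧸ J) (hx : IsHom J 1 x)
    (h : x • g0 ∈ Submodule.span (MvPolynomial (Fin n) K ⧸ J) (Set.range g)) :
    ∃ a : Fin k → MvPolynomial (Fin n) K ⧸ J, (∀ i, IsHom J 1 (a i)) ∧
      ∑ i, a i • g i = x • g0 := by
  rw [Submodule.mem_span_range_iff_exists_fun] at h
  obtain ⟨a', ha'⟩ := h
  have hlift : ∀ i, ∃ A : MvPolynomial (Fin n) K, Ideal.Quotient.mk J A = a' i := fun i =>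
    Ideal.Quotient.mk_surjective (a' i)
  choose A hA using hlift
  choose G hG1 hG2 using hg
  choose G0 hG01 hG02 using hg0
  obtain ⟨X', hX1, hX2⟩ := hx
  refine ⟨fun i => Ideal.Quotient.mk J (homogeneousComponent 1 (A i)), fun i =>
    ⟨_, homogeneousComponent_isHomogeneous 1 _, rfl⟩, ?_⟩
  funext t
  have h1 : ∑ i, A i * G i t - X' * G0 t ∈ J := by
    rw [← Ideal.Quotient.eq_zero_iff_mem, map_sub, map_sum, map_mul, hX2, hG02]
    simp only [map_mul, hA, hG2]
    have := congrFun ha' t
    simp only [Finset.sum_apply, Pi.smul_apply, smul_eq_mul] at this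
    rw [this, sub_self]
  have h2 := hJ _ h1 2
  have h3 : homogeneousComponent 2 (X' * G0 t) = X' * G0 t :=
    homogeneousComponent_eq_self (hX1.mul (hG01 t))
  rw [map_sub, map_sum, h3] at h2
  have h4 : ∀ i, homogeneousComponent 2 (A i * G i t) = homogeneousComponent 1 (A i) * G i t :=
    fun i => comp_mul_hom (G i t) 1 1 (hG1 i t) (A i)
  simp only [h4] at h2
  rw [← Ideal.Quotient.eq_zero_iff_mem, map_sub, map_sum, map_mul, hX2, hG02, sub_eq_zero] at h2
  simp only [map_mul, hG2] at h2
  simp only [Finset.sum_apply, Pi.smul_apply, smul_eq_mul]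
  exact h2

/-- insert a zero coordinate -/
def consZ (R : Type*) [CommRing R] (k : ℕ) : (Fin k → R) →ₗ[R] (Fin (k + 1) → R) where
  toFun v := Fin.cons 0 v
  map_add' v w := by
    funext i
    refine Fin.cases ?_ (fun j => ?_) i <;> simp
  map_smul' c v := by
    funext i
    refine Fin.cases ?_ (fun j => ?_) i <;> simp

theorem isHom_zero (d : ℕ) : IsHom J d 0 := ⟨0, isHomogeneous_zero _ _ d, map_zero _⟩
theorem isHom_neg {d : ℕ} {x : MvPolynomial (Fin n) K ⧸ J} (hx : IsHom J d x) :
    IsHom J d (-x) := by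
  obtain ⟨p, hp, rfl⟩ := hx
  exact ⟨-p, hp.neg, map_neg _ _⟩
theorem isHom_add {d : ℕ} {x y : MvPolynomial (Fin n) K ⧸ J} (hx : IsHom J d x)
    (hy : IsHom J d y) : IsHom J d (x + y) := by
  obtain ⟨p, hp, rfl⟩ := hx
  obtain ⟨q, hq, rfl⟩ := hy
  exact ⟨p + q, hp.add hq, map_add _ _ _⟩

theorem range_get {M : Type*} (l : List M) : Set.range l.get = {y | y ∈ l} := by
  ext y
  simp only [Set.mem_range, Set.mem_ofPred_eq, List.mem_iff_get]

/-- the sets of ideals for which each member has a good chain of linear generators -/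
def Good (J : Ideal (MvPolynomial (Fin n) K)) (F : Set (Ideal (MvPolynomial (Fin n) K ⧸ J))) :
    Prop :=
  ∀ C ∈ F, ∃ xs : List (MvPolynomial (Fin n) K ⧸ J), (∀ x ∈ xs, IsHom J 1 x) ∧
    Submodule.span (MvPolynomial (Fin n) K ⧸ J) {x | x ∈ xs} = C ∧ Filt F xs

theorem syz (hJ : ∀ p ∈ J, ∀ i : ℕ, homogeneousComponent i p ∈ J)
    (F : Set (Ideal (MvPolynomial (Fin n) K ⧸ J))) (hF : Good J F)
    {ι : Type} (g : List (ι → MvPolynomial (Fin n) K ⧸ J))
    (hg : ∀ v ∈ g, ∀ t, IsHom J 1 (v t)) (hf : Filt F g) :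
    ∃ h : List (Fin g.length → MvPolynomial (Fin n) K ⧸ J), (∀ v ∈ h, ∀ t, IsHom J 1 (v t)) ∧
      Filt F h ∧ ∀ v : Fin g.length → MvPolynomial (Fin n) K ⧸ J,
        ∑ i, v i • g.get i = 0 ↔ v ∈ Submodule.span (MvPolynomial (Fin n) K ⧸ J) {y | y ∈ h} := by
  induction g with
  | nil =>
    refine ⟨[], by simp, trivial, ?_⟩
    intro v
    have : v = 0 := by
      funext i; exact i.elim0
    rw [this]
    simp
  | cons g0 g ih =>
    obtain ⟨h', hlin', hfilt', hsyz'⟩ := ih (fun v hv => hg v (List.mem_cons_of_mem _ hv)) hf.1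
    obtain ⟨xs, hxlin, hxspan, hxfilt⟩ := hF _ hf.2
    have hcoef : ∀ x ∈ xs, ∃ a : Fin g.length → MvPolynomial (Fin n) K ⧸ J,
        (∀ i, IsHom J 1 (a i)) ∧ ∑ i, a i • g.get i = x • g0 := by
      intro x hx
      apply lincoef hJ _ _ _ (hg g0 List.mem_cons_self) x (hxlin x hx)
      · rw [range_get, ← mem_col, ← hxspan]
        exact Submodule.subset_span hx
      · intro i t
        exact hg _ (List.mem_cons_of_mem _ (List.get_mem g i)) t
    classical
    set cf : (MvPolynomial (Fin n) K ⧸ J) → (Fin g.length → MvPolynomial (Fin n) K ⧸ J) :=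
      fun x => if hx : x ∈ xs then (hcoef x hx).choose else 0 with hcf
    have hcf1 : ∀ x ∈ xs, (∀ i, IsHom J 1 (cf x i)) ∧ ∑ i, cf x i • g.get i = x • g0 := by
      intro x hx
      have := (hcoef x hx).choose_spec
      simp only [hcf, dif_pos hx]
      exact this
    set top : (MvPolynomial (Fin n) K ⧸ J) → (Fin (g.length + 1) → MvPolynomial (Fin n) K ⧸ J) :=
      fun x => Fin.cons x (-(cf x)) with htop
    set rest := h'.map (consZ (MvPolynomial (Fin n) K ⧸ J) g.length) with hrest
    let Z : Submodule (MvPolynomial (Fin n) K ⧸ J)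
        (Fin (g.length + 1) → MvPolynomial (Fin n) K ⧸ J) :=
      LinearMap.ker (Fintype.linearCombination (MvPolynomial (Fin n) K ⧸ J)
        (fun i : Fin (g.length + 1) => (g0 :: g).get i))
    have hZ : ∀ v, v ∈ Z ↔ v 0 • g0 + ∑ i : Fin g.length, v i.succ • g.get i = 0 := by
      intro v
      rw [LinearMap.mem_ker, Fintype.linearCombination_apply, Fin.sum_univ_succ]
      rfl
    let π : (Fin (g.length + 1) → MvPolynomial (Fin n) K ⧸ J) →ₗ[MvPolynomial (Fin n) K ⧸ J]
      MvPolynomial (Fin n) K ⧸ J := LinearMap.proj 0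
    have h1 : ∀ w ∈ rest, π w = 0 ∧ w ∈ Z := by
      intro w hw
      rw [hrest, List.mem_map] at hw
      obtain ⟨v, hv, rfl⟩ := hw
      refine ⟨rfl, ?_⟩
      rw [hZ]
      have := (hsyz' v).2 (Submodule.subset_span hv)
      simpa [consZ] using this
    have h2 : ∀ v ∈ Z, π v = 0 →
        v ∈ Submodule.span (MvPolynomial (Fin n) K ⧸ J) {y | y ∈ rest} := by
      intro v hv hv0
      rw [hZ] at hv
      have hv0' : v 0 = 0 := hv0
      have hz : v 0 • g0 = 0 := by rw [hv0']; exact zero_smul (MvPolynomial (Fin n) K ⧸ J) g0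
      rw [hz, zero_add] at hv
      have h3 := (hsyz' (fun i => v i.succ)).1 hv
      have h4 : v = consZ (MvPolynomial (Fin n) K ⧸ J) g.length (fun i => v i.succ) := by
        funext i
        refine Fin.cases ?_ (fun j => ?_) i
        · simp [consZ, hv0']
        · simp [consZ]
      have h5 : {y | y ∈ rest} = (consZ (MvPolynomial (Fin n) K ⧸ J) g.length) '' {y | y ∈ h'} := by
        ext y; simp [hrest]
      rw [h5, ← Submodule.map_span, h4]
      exact ⟨_, h3, rfl⟩
    have hinj : Function.Injective (consZ (MvPolynomial (Fin n) K ⧸ J) g.length) := by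
      intro v w hvw
      funext i
      have := congrFun hvw i.succ
      simpa [consZ] using this
    have hx : ∀ x ∈ xs, top x ∈ Z ∧ π (top x) = x := by
      intro x hx
      refine ⟨?_, rfl⟩
      rw [hZ]
      have := (hcf1 x hx).2
      simp only [htop, Fin.cons_zero, Fin.cons_succ, Pi.neg_apply, neg_smul,
        Finset.sum_neg_distrib, this]
      abel
    obtain ⟨hA, hB⟩ := filt_top F π Z rest top h1 h2 (filt_map F _ hinj h' hfilt') xs hx hxfilt
    refine ⟨xs.map top ++ rest, ?_, hA, ?_⟩
    · intro v hv t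
      rw [List.mem_append, List.mem_map] at hv
      rcases hv with ⟨x, hx, rfl⟩ | hv
      · refine Fin.cases ?_ (fun j => ?_) t
        · simpa [htop] using hxlin x hx
        · simpa [htop] using isHom_neg ((hcf1 x hx).1 j)
      · rw [hrest, List.mem_map] at hv
        obtain ⟨w, hw, rfl⟩ := hv
        refine Fin.cases ?_ (fun j => ?_) t
        · simpa [consZ] using isHom_zero 1
        · simpa [consZ] using hlin' w hw j
    · intro v
      constructor
      · intro hv
        have hvZ : v ∈ Z := by
          rw [LinearMap.mem_ker, Fintype.linearCombination_apply]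
          exact hv
        apply hB v hvZ
        rw [hxspan, mem_col]
        have h3 := (hZ v).1 hvZ
        have h4 : v 0 • g0 = - ∑ i : Fin g.length, v i.succ • g.get i := by
          rw [eq_neg_iff_add_eq_zero]; exact h3
        change v 0 • g0 ∈ _
        rw [h4]
        refine Submodule.neg_mem _ (Submodule.sum_mem _ fun i _ => Submodule.smul_mem _ _
          (Submodule.subset_span (List.get_mem g i)))
      · intro hv
        have hle : Submodule.span (MvPolynomial (Fin n) K ⧸ J) {y | y ∈ xs.map top ++ rest} ≤ Z := by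
          rw [Submodule.span_le]
          intro y hy
          simp only [Set.mem_ofPred_eq, List.mem_append, List.mem_map] at hy
          rcases hy with ⟨x, hx', rfl⟩ | hy
          · exact (hx x hx').1
          · exact (h1 y hy).2
        have := hle hv
        rw [LinearMap.mem_ker, Fintype.linearCombination_apply] at this
        exact this

/-- state of the construction -/
structure St (J : Ideal (MvPolynomial (Fin n) K)) (F : Set (Ideal (MvPolynomial (Fin n) K ⧸ J)))
    where
  r : ℕ
  l : List (Fin r → MvPolynomial (Fin n) K ⧸ J)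
  lin : ∀ v ∈ l, ∀ t, IsHom J 1 (v t)
  filt : Filt F l

/-- next state -/
noncomputable def St.next (hJ : ∀ p ∈ J, ∀ i : ℕ, homogeneousComponent i p ∈ J)
    {F : Set (Ideal (MvPolynomial (Fin n) K ⧸ J))} (hF : Good J F) (s : St J F) : St J F where
  r := s.l.length
  l := (syz hJ F hF s.l s.lin s.filt).choose
  lin := (syz hJ F hF s.l s.lin s.filt).choose_spec.1
  filt := (syz hJ F hF s.l s.lin s.filt).choose_spec.2.1

theorem St.next_spec (hJ : ∀ p ∈ J, ∀ i : ℕ, homogeneousComponent i p ∈ J)
    {F : Set (Ideal (MvPolynomial (Fin n) K ⧸ J))} (hF : Good J F) (s : St J F)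
    (v : Fin s.l.length → MvPolynomial (Fin n) K ⧸ J) :
    ∑ i, v i • s.l.get i = 0 ↔
      v ∈ Submodule.span (MvPolynomial (Fin n) K ⧸ J) {y | y ∈ (s.next hJ hF).l} :=
  (syz hJ F hF s.l s.lin s.filt).choose_spec.2.2 v

/-- the sequence of states -/
noncomputable def stSeq (hJ : ∀ p ∈ J, ∀ i : ℕ, homogeneousComponent i p ∈ J)
    {F : Set (Ideal (MvPolynomial (Fin n) K ⧸ J))} (hF : Good J F) (s0 : St J F) : ℕ → St J F
  | 0 => s0
  | i + 1 => (stSeq hJ hF s0 i).next hJ hF

theorem mem_span_list {R : Type*} [CommRing R] {k : ℕ} (l : List (Fin k → R)) (v : Fin k → R) :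
    v ∈ Submodule.span R {y | y ∈ l} ↔
      ∃ w : Fin l.length → R, Matrix.mulVec (fun j c => l.get c j) w = v := by
  rw [← range_get, Submodule.mem_span_range_iff_exists_fun]
  constructor
  · rintro ⟨c, rfl⟩
    refine ⟨c, ?_⟩
    funext j
    simp [Matrix.mulVec, dotProduct, mul_comm]
  · rintro ⟨c, rfl⟩
    refine ⟨c, ?_⟩
    funext j
    simp [Matrix.mulVec, dotProduct, mul_comm]

theorem mulVec_list {R : Type*} [CommRing R] {k : ℕ} (l : List (Fin k → R))
    (v : Fin l.length → R) :
    Matrix.mulVec (fun j c => l.get c j) v = 0 ↔ ∑ i, v i • l.get i = 0 := by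
  have : Matrix.mulVec (fun j c => l.get c j) v = ∑ i, v i • l.get i := by
    funext j
    simp [Matrix.mulVec, dotProduct, mul_comm]
  rw [this]

theorem linres_of_filt (hJ : ∀ p ∈ J, ∀ i : ℕ, homogeneousComponent i p ∈ J)
    (F : Set (Ideal (MvPolynomial (Fin n) K ⧸ J))) (hF : Good J F)
    (I : Ideal (MvPolynomial (Fin n) K ⧸ J)) (hI : I ∈ F) : HasLinearResolution J 1 I := by
  obtain ⟨xs, hxlin, hxspan, hxfilt⟩ := hF I hI
  let f : (MvPolynomial (Fin n) K ⧸ J) →ₗ[MvPolynomial (Fin n) K ⧸ J]
    (Fin 1 → MvPolynomial (Fin n) K ⧸ J) := LinearMap.pi (fun _ => LinearMap.id)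
  have hf : Function.Injective f := by
    intro x y hxy
    exact congrFun hxy 0
  let s0 : St J F := ⟨1, xs.map f, by
    intro v hv t
    rw [List.mem_map] at hv
    obtain ⟨x, hx, rfl⟩ := hv
    exact hxlin x hx, filt_map F f hf xs hxfilt⟩
  let s : ℕ → St J F := stSeq hJ hF s0
  have hs0 : Submodule.span (MvPolynomial (Fin n) K ⧸ J) (Set.range fun j => s0.l.get j 0) = I := by
    rw [← hxspan]
    congr 1
    ext y
    simp only [Set.mem_range, Set.mem_ofPred_eq]
    constructor
    · rintro ⟨j, rfl⟩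
      have := List.get_mem s0.l j
      change s0.l.get j ∈ xs.map f at this
      rw [List.mem_map] at this
      obtain ⟨x, hx, hx'⟩ := this
      rw [← hx']
      exact hx
    · intro hy
      have : f y ∈ s0.l := List.mem_map.2 ⟨y, hy, rfl⟩
      obtain ⟨j, hj⟩ := List.mem_iff_get.1 this
      exact ⟨j, by rw [hj]; rfl⟩
  refine ⟨fun i => (s i).l.length, fun j => s0.l.get j (0 : Fin 1),
    fun i j c => (s (i + 1)).l.get c j, ?_, ?_, hs0, ?_, ?_⟩
  · intro j
    exact s0.lin _ (List.get_mem _ j) (0 : Fin 1)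
  · intro i a c
    exact (s (i + 1)).lin _ (List.get_mem _ c) a
  · intro v
    refine Iff.trans ?_ ((St.next_spec hJ hF s0 v).trans (mem_span_list (s0.next hJ hF).l v))
    constructor
    · intro h
      funext t
      have ht : t = (0 : Fin 1) := Subsingleton.elim (α := Fin 1) _ _
      rw [ht, Finset.sum_apply]
      exact h
    · intro h
      have h3 := congrFun h (0 : Fin 1)
      rw [Finset.sum_apply] at h3
      exact h3
  · intro i v
    exact (mulVec_list (s (i + 1)).l v).trans ((St.next_spec hJ hF (s (i + 1)) v).trans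
      (mem_span_list ((s (i + 1)).next hJ hF).l v))

end Pool.Agent.H10.UK
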