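import Pool.Agent.H10.UKClass

/-! The product `(x,y)(x-t,y-z)` in `K[x,y,z,t]/(z^2,t^2)` has no linear resolution. -/

set_option autoImplicit false

open MvPolynomial

namespace Pool.Agent.H10.UK

variable (K : Type*) [Field K]

abbrev SS := MvPolynomial (Fin 4) K

noncomputable def h1 : SS K := X 0 * (X 0 - X 3)
noncomputable def h2 : SS K := X 0 * (X 1 - X 2)
noncomputable def h3 : SS K := X 1 * (X 0 - X 3)
noncomputable def h4 : SS K := X 1 * (X 1 - X 2)

/-- degree two part of the product -/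
def InH (p : SS K) : Prop :=
  ∃ a1 a2 a3 a4 : K, p = C a1 * h1 K + C a2 * h2 K + C a3 * h3 K + C a4 * h4 K

noncomputable def ev1 : SS K →+* Polynomial K :=
  eval₂Hom Polynomial.C ![0, 0, 1, Polynomial.X]
noncomputable def ev2 : SS K →+* Polynomial K :=
  eval₂Hom Polynomial.C ![Polynomial.X, 1, 1, Polynomial.X]
noncomputable def ev3 : SS K →+* Polynomial K :=
  eval₂Hom Polynomial.C ![Polynomial.X, 0, 1, Polynomial.X ^ 5]

theorem hX (i : Fin 4) : (X i : SS K).IsHomogeneous 1 := isHomogeneous_X K i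

theorem h1_hom : (h1 K).IsHomogeneous 2 := (hX K 0).mul ((hX K 0).sub (hX K 3))
theorem h2_hom : (h2 K).IsHomogeneous 2 := (hX K 0).mul ((hX K 1).sub (hX K 2))
theorem h3_hom : (h3 K).IsHomogeneous 2 := (hX K 1).mul ((hX K 0).sub (hX K 3))
theorem h4_hom : (h4 K).IsHomogeneous 2 := (hX K 1).mul ((hX K 1).sub (hX K 2))

theorem InH.hom {p : SS K} (h : InH K p) : p.IsHomogeneous 2 := by
  obtain ⟨a1, a2, a3, a4, rfl⟩ := h
  exact ((((h1_hom K).C_mul _).add ((h2_hom K).C_mul _)).add ((h3_hom K).C_mul _)).add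
    ((h4_hom K).C_mul _)

theorem InH.e1 {p : SS K} (h : InH K p) : ev1 K p = 0 := by
  obtain ⟨a1, a2, a3, a4, rfl⟩ := h
  simp [ev1, h1, h2, h3, h4]

theorem InH.e2 {p : SS K} (h : InH K p) : ev2 K p = 0 := by
  obtain ⟨a1, a2, a3, a4, rfl⟩ := h
  simp [ev2, h1, h2, h3, h4]

theorem InH.smul {p : SS K} (h : InH K p) (c : K) : InH K (C c * p) := by
  obtain ⟨a1, a2, a3, a4, rfl⟩ := h
  exact ⟨c * a1, c * a2, c * a3, c * a4, by simp only [C_mul]; ring⟩

theorem InH.add {p q : SS K} (h : InH K p) (h' : InH K q) : InH K (p + q) := by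
  obtain ⟨a1, a2, a3, a4, rfl⟩ := h
  obtain ⟨b1, b2, b3, b4, rfl⟩ := h'
  exact ⟨a1 + b1, a2 + b2, a3 + b3, a4 + b4, by simp only [C_add]; ring⟩

theorem InH.zero : InH K 0 := ⟨0, 0, 0, 0, by simp⟩

theorem InH.sum {ι : Type*} (s : Finset ι) (f : ι → SS K) (h : ∀ i ∈ s, InH K (f i)) :
    InH K (∑ i ∈ s, f i) := by
  classical
  induction s using Finset.induction_on with
  | empty => simpa using InH.zero K
  | insert i s hi ih =>
    rw [Finset.sum_insert hi]
    exact (h i (Finset.mem_insert_self _ _)).add K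
      (ih fun j hj => h j (Finset.mem_insert_of_mem hj))

theorem J2 (p : SS K) (hp : p.IsHomogeneous 2) (hJ : p ∈ J0 K) :
    ∃ α β : K, p = C α * X 2 ^ 2 + C β * X 3 ^ 2 := by
  obtain ⟨a, b, hab⟩ := Ideal.mem_span_pair.1 hJ
  refine ⟨coeff 0 a, coeff 0 b, ?_⟩
  have e1 := comp_mul_hom (X 2 ^ 2 : SS K) 2 0 (isHomogeneous_X_pow _ 2) a
  have e2 := comp_mul_hom (X 3 ^ 2 : SS K) 2 0 (isHomogeneous_X_pow _ 2) b
  have e3 := homogeneousComponent_eq_self hp
  rw [zero_add, homogeneousComponent_zero] at e1 e2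
  rw [← e3, ← hab, map_add, e1, e2]

theorem lin4 (l : SS K) (hl : l.IsHomogeneous 1) : ∃ c0 c1 c2 c3 : K,
    l = C c0 * X 0 + C c1 * X 1 + C c2 * X 2 + C c3 * X 3 := by
  rw [← mem_homogeneousSubmodule, homogeneousSubmodule_one_eq_span_X,
    Submodule.mem_span_range_iff_exists_fun] at hl
  obtain ⟨e, rfl⟩ := hl
  exact ⟨e 0, e 1, e 2, e 3, by simp [Fin.sum_univ_four, smul_eq_C_mul]⟩

theorem cubic_zero (a b c d : K) (h : Polynomial.C a + Polynomial.C b * Polynomial.X +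
    Polynomial.C c * Polynomial.X ^ 2 + Polynomial.C d * Polynomial.X ^ 3 = 0) :
    a = 0 ∧ b = 0 ∧ c = 0 ∧ d = 0 := by
  have g0 := congrArg (fun q => Polynomial.coeff q 0) h
  have g1 := congrArg (fun q => Polynomial.coeff q 1) h
  have g2 := congrArg (fun q => Polynomial.coeff q 2) h
  have g3 := congrArg (fun q => Polynomial.coeff q 3) h
  simp [Polynomial.coeff_X, Polynomial.coeff_X_pow, Polynomial.coeff_C] at g0 g1 g2 g3
  exact ⟨g0, g1, g2, g3⟩

theorem J3 (p : SS K) (hp : p.IsHomogeneous 3) (hJ : p ∈ J0 K) (he1 : ev1 K p = 0)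
    (he2 : ev2 K p = 0) : p = 0 := by
  obtain ⟨a, b, hab⟩ := Ideal.mem_span_pair.1 hJ
  have e1 := comp_mul_hom (X 2 ^ 2 : SS K) 2 1 (isHomogeneous_X_pow _ 2) a
  have e2 := comp_mul_hom (X 3 ^ 2 : SS K) 2 1 (isHomogeneous_X_pow _ 2) b
  have e3 := homogeneousComponent_eq_self hp
  rw [← hab, map_add] at e3
  change homogeneousComponent (1 + 2) _ + homogeneousComponent (1 + 2) _ = _ at e3
  rw [e1, e2] at e3
  obtain ⟨c0, c1, c2, c3, hc⟩ := lin4 K _ (homogeneousComponent_isHomogeneous 1 a)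
  obtain ⟨d0, d1, d2, d3, hd⟩ := lin4 K _ (homogeneousComponent_isHomogeneous 1 b)
  rw [hc, hd] at e3
  rw [← hab, ← e3] at he1 he2 ⊢
  have f1 : Polynomial.C c2 + Polynomial.C c3 * Polynomial.X +
      Polynomial.C d2 * Polynomial.X ^ 2 + Polynomial.C d3 * Polynomial.X ^ 3 = 0 := by
    rw [← he1]
    simp [ev1]
    ring
  have f2 : Polynomial.C (c1 + c2) + Polynomial.C (c0 + c3) * Polynomial.X +
      Polynomial.C (d1 + d2) * Polynomial.X ^ 2 +
      Polynomial.C (d0 + d3) * Polynomial.X ^ 3 = 0 := by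
    rw [← he2]
    simp [ev2]
    ring
  obtain ⟨rfl, rfl, rfl, rfl⟩ := cubic_zero K _ _ _ _ f1
  obtain ⟨k0, k1, k2, k3⟩ := cubic_zero K _ _ _ _ f2
  simp only [add_zero] at k0 k1 k2 k3
  subst k0 k1 k2 k3
  simp

theorem J2z (p : SS K) (hp : p.IsHomogeneous 2) (hJ : p ∈ J0 K) (he1 : ev1 K p = 0) : p = 0 := by
  obtain ⟨α, β, rfl⟩ := J2 K p hp hJ
  have f1 : Polynomial.C α + Polynomial.C 0 * Polynomial.X +
      Polynomial.C β * Polynomial.X ^ 2 + Polynomial.C 0 * Polynomial.X ^ 3 = 0 := by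
    rw [← he1]
    simp [ev1]
  obtain ⟨rfl, -, rfl, -⟩ := cubic_zero K _ _ _ _ f1
  simp

theorem last_step (p q : SS K) (hp : InH K p) (hq : InH K q)
    (h : X 0 ^ 2 * X 2 ^ 2 - X 1 ^ 2 * X 3 ^ 2 = X 2 ^ 2 * p + X 3 ^ 2 * q) : False := by
  obtain ⟨a1, a2, a3, a4, rfl⟩ := hp
  obtain ⟨b1, b2, b3, b4, rfl⟩ := hq
  have e := congrArg (ev3 K) h
  have e' : (Polynomial.X : Polynomial K) ^ 2 = Polynomial.C a1 * Polynomial.X ^ 2 -
      Polynomial.C a1 * Polynomial.X ^ 6 - Polynomial.C a2 * Polynomial.X ^ 1 +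
      Polynomial.C b1 * Polynomial.X ^ 12 - Polynomial.C b1 * Polynomial.X ^ 16 -
      Polynomial.C b2 * Polynomial.X ^ 11 := by
    simp [ev3, h1, h2, h3, h4] at e
    linear_combination e
  have g2 := congrArg (fun q => Polynomial.coeff q 2) e'
  have g6 := congrArg (fun q => Polynomial.coeff q 6) e'
  simp only [Polynomial.coeff_sub, Polynomial.coeff_add, Polynomial.coeff_C_mul,
    Polynomial.coeff_X_pow] at g2 g6
  norm_num at g2 g6
  rw [g6] at g2
  exact one_ne_zero g2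

theorem fid : (X 0 ^ 2 * X 2 ^ 2 - X 1 ^ 2 * X 3 ^ 2 : SS K) =
    X 2 ^ 2 * h1 K + (-(X 2 * X 3)) * h2 K + (X 2 * X 3) * h3 K + (-(X 3 ^ 2)) * h4 K := by
  rw [h1, h2, h3, h4]
  ring

/-- first ideal -/
noncomputable def I1 : Ideal (RR K) := Ideal.span {vx K, vy K}
/-- second ideal -/
noncomputable def I2 : Ideal (RR K) := Ideal.span {vx K - vt K, vy K - vz K}

theorem prod_eq : I1 K * I2 K = Ideal.span {Ideal.Quotient.mk _ (h1 K), Ideal.Quotient.mk _ (h2 K),
    Ideal.Quotient.mk _ (h3 K), Ideal.Quotient.mk _ (h4 K)} := by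
  rw [I1, I2, Ideal.span_pair_mul_span_pair]
  simp only [h1, h2, h3, h4, map_mul, map_sub, vx, vy, vz, vt]

theorem mem_prod (r : RR K) (hr : r ∈ I1 K * I2 K) : ∃ s1 s2 s3 s4 : SS K,
    r = Ideal.Quotient.mk _ (s1 * h1 K + s2 * h2 K + s3 * h3 K + s4 * h4 K) := by
  rw [prod_eq, Ideal.mem_span_insert] at hr
  obtain ⟨u1, z, hz, rfl⟩ := hr
  rw [Ideal.mem_span_insert] at hz
  obtain ⟨u2, z', hz', rfl⟩ := hz
  rw [Ideal.mem_span_pair] at hz'
  obtain ⟨u3, u4, rfl⟩ := hz'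
  obtain ⟨s1, rfl⟩ := Ideal.Quotient.mk_surjective u1
  obtain ⟨s2, rfl⟩ := Ideal.Quotient.mk_surjective u2
  obtain ⟨s3, rfl⟩ := Ideal.Quotient.mk_surjective u3
  obtain ⟨s4, rfl⟩ := Ideal.Quotient.mk_surjective u4
  refine ⟨s1, s2, s3, s4, ?_⟩
  simp only [map_add, map_mul]
  ring

theorem lift_deg2 (r : RR K) (hr : r ∈ I1 K * I2 K) (hr2 : IsHom (J0 K) 2 r) :
    ∃ G : SS K, InH K G ∧ Ideal.Quotient.mk _ G = r := by
  obtain ⟨s1, s2, s3, s4, hs⟩ := mem_prod K r hr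
  obtain ⟨p, hp, rfl⟩ := hr2
  have e0 : p - (s1 * h1 K + s2 * h2 K + s3 * h3 K + s4 * h4 K) ∈ J0 K := by
    rw [← Ideal.Quotient.eq_zero_iff_mem, map_sub, hs, sub_self]
  have e1 := J0_hom K _ e0 2
  have c1 := comp_mul_hom (h1 K) 2 0 (h1_hom K) s1
  have c2 := comp_mul_hom (h2 K) 2 0 (h2_hom K) s2
  have c3 := comp_mul_hom (h3 K) 2 0 (h3_hom K) s3
  have c4 := comp_mul_hom (h4 K) 2 0 (h4_hom K) s4
  rw [zero_add, homogeneousComponent_zero] at c1 c2 c3 c4
  rw [map_sub, map_add, map_add, map_add, c1, c2, c3, c4, homogeneousComponent_eq_self hp] at e1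
  refine ⟨_, ⟨coeff 0 s1, coeff 0 s2, coeff 0 s3, coeff 0 s4, rfl⟩, ?_⟩
  rw [← Ideal.Quotient.eq_zero_iff_mem, map_sub, sub_eq_zero] at e1
  exact e1.symm

/-- every element of `H` in the span of the generators is a scalar combination -/
theorem rep {b : ℕ} (G : Fin b → SS K) (hG : ∀ j, InH K (G j)) (h : SS K) (hh : InH K h)
    (hm : Ideal.Quotient.mk (J0 K) h ∈
      Ideal.span (Set.range fun j => Ideal.Quotient.mk (J0 K) (G j))) :
    ∃ d : Fin b → K, h = ∑ j, C (d j) * G j := by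
  rw [Ideal.span, Submodule.mem_span_range_iff_exists_fun] at hm
  obtain ⟨s, hs⟩ := hm
  have hl : ∀ j, ∃ t : SS K, Ideal.Quotient.mk (J0 K) t = s j := fun j =>
    Ideal.Quotient.mk_surjective (s j)
  choose t ht using hl
  have e0 : h - ∑ j, t j * G j ∈ J0 K := by
    rw [← Ideal.Quotient.eq_zero_iff_mem, map_sub, map_sum, ← hs]
    simp only [map_mul, ht, smul_eq_mul, sub_self]
  have e1 := J0_hom K _ e0 2
  have c1 : ∀ j, homogeneousComponent 2 (t j * G j) = C (coeff 0 (t j)) * G j := by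
    intro j
    have := comp_mul_hom (G j) 2 0 (hG j).hom (t j)
    rw [zero_add, homogeneousComponent_zero] at this
    exact this
  rw [map_sub, map_sum, homogeneousComponent_eq_self hh.hom] at e1
  simp only [c1] at e1
  refine ⟨fun j => coeff 0 (t j), ?_⟩
  have hsum : InH K (∑ j, C (coeff 0 (t j)) * G j) := InH.sum K _ _ fun j _ => (hG j).smul K _
  have hd : InH K (h - ∑ j, C (coeff 0 (t j)) * G j) := by
    have := hh.add K (hsum.smul K (-1))
    rw [C_neg, C_1, neg_one_mul, ← sub_eq_add_neg] at this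
    exact this
  exact sub_eq_zero.1 (J2z K _ hd.hom e1 hd.e1)

theorem no_linres : ¬ HasLinearResolution (J0 K) 2 (I1 K * I2 K) := by
  rintro ⟨b, g, A, hg, hA, hs, h0, -⟩
  have hgl : ∀ j, ∃ G : SS K, InH K G ∧ Ideal.Quotient.mk (J0 K) G = g j := by
    intro j
    apply lift_deg2 K (g j) _ (hg j)
    rw [← hs]
    exact Ideal.subset_span ⟨j, rfl⟩
  choose G hG1 hG2 using hgl
  have hgr : (Set.range fun j => Ideal.Quotient.mk (J0 K) (G j)) = Set.range g := by
    congr 1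
    funext j
    exact hG2 j
  have H1 : InH K (h1 K) := ⟨1, 0, 0, 0, by simp⟩
  have H2 : InH K (h2 K) := ⟨0, 1, 0, 0, by simp⟩
  have H3 : InH K (h3 K) := ⟨0, 0, 1, 0, by simp⟩
  have H4 : InH K (h4 K) := ⟨0, 0, 0, 1, by simp⟩
  have hmem : ∀ h ∈ ({Ideal.Quotient.mk _ (h1 K), Ideal.Quotient.mk _ (h2 K),
      Ideal.Quotient.mk _ (h3 K), Ideal.Quotient.mk _ (h4 K)} : Set (RR K)),
      h ∈ Ideal.span (Set.range fun j => Ideal.Quotient.mk (J0 K) (G j)) := by
    intro h hh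
    rw [hgr, hs, prod_eq]
    exact Ideal.subset_span hh
  obtain ⟨d1, hd1⟩ := rep K G hG1 (h1 K) H1 (hmem _ (by simp))
  obtain ⟨d2, hd2⟩ := rep K G hG1 (h2 K) H2 (hmem _ (by simp))
  obtain ⟨d3, hd3⟩ := rep K G hG1 (h3 K) H3 (hmem _ (by simp))
  obtain ⟨d4, hd4⟩ := rep K G hG1 (h4 K) H4 (hmem _ (by simp))
  -- the quadratic syzygy
  set V : Fin (b 0) → SS K := fun j => X 2 ^ 2 * C (d1 j) + (-(X 2 * X 3)) * C (d2 j) +
    (X 2 * X 3) * C (d3 j) + (-(X 3 ^ 2)) * C (d4 j) with hV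
  have hVh : ∀ j, (V j).IsHomogeneous 2 := by
    intro j
    have q1 : (X 2 ^ 2 : SS K).IsHomogeneous 2 := isHomogeneous_X_pow _ 2
    have q2 : (X 3 ^ 2 : SS K).IsHomogeneous 2 := isHomogeneous_X_pow _ 2
    have q3 : (X 2 * X 3 : SS K).IsHomogeneous 2 := (hX K 2).mul (hX K 3)
    have q0 : ∀ c : K, (C c : SS K).IsHomogeneous 0 := fun c => isHomogeneous_C _ c
    exact (((q1.mul (q0 _)).add (q3.neg.mul (q0 _))).add (q3.mul (q0 _))).add (q2.neg.mul (q0 _))
  have hVf : ∑ j, V j * G j = X 0 ^ 2 * X 2 ^ 2 - X 1 ^ 2 * X 3 ^ 2 := by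
    rw [fid, hd1, hd2, hd3, hd4, Finset.mul_sum, Finset.mul_sum, Finset.mul_sum, Finset.mul_sum,
      ← Finset.sum_add_distrib, ← Finset.sum_add_distrib, ← Finset.sum_add_distrib]
    apply Finset.sum_congr rfl
    intro j _
    rw [hV]
    ring
  have hker : ∑ j, Ideal.Quotient.mk (J0 K) (V j) * g j = 0 := by
    have e : ∑ j, Ideal.Quotient.mk (J0 K) (V j) * g j =
        Ideal.Quotient.mk (J0 K) (∑ j, V j * G j) := by
      rw [map_sum]
      apply Finset.sum_congr rfl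
      intro j _
      rw [map_mul, hG2]
    rw [e, hVf, Ideal.Quotient.eq_zero_iff_mem]
    refine Ideal.sub_mem _ (Ideal.mul_mem_left _ _ (Ideal.subset_span ?_))
      (Ideal.mul_mem_left _ _ (Ideal.subset_span ?_)) <;> simp
  obtain ⟨w, hw⟩ := (h0 fun j => Ideal.Quotient.mk (J0 K) (V j)).1 hker
  choose At hAt1 hAt2 using hA 0
  have hwl : ∀ c, ∃ t : SS K, Ideal.Quotient.mk (J0 K) t = w c := fun c =>
    Ideal.Quotient.mk_surjective (w c)
  choose W hW using hwl
  -- linear relations hold in the polynomial ring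
  have hcol : ∀ c, ∑ j, At j c * G j = 0 := by
    intro c
    have e1 : ∑ j, A 0 j c * g j = 0 := by
      classical
      have h2 := (h0 ((A 0).mulVec (Pi.single c 1))).2 ⟨_, rfl⟩
      simpa [Matrix.mulVec_single_one] using h2
    have e2 : ∑ j, At j c * G j ∈ J0 K := by
      rw [← Ideal.Quotient.eq_zero_iff_mem, map_sum, ← e1]
      apply Finset.sum_congr rfl
      intro j _
      rw [map_mul, hAt2, hG2]
    have e3 : (∑ j, At j c * G j).IsHomogeneous 3 :=
      IsHomogeneous.sum _ _ _ fun j _ => (hAt1 j c).mul (hG1 j).hom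
    apply J3 K _ e3 e2
    · rw [map_sum]
      apply Finset.sum_eq_zero
      intro j _
      rw [map_mul, (hG1 j).e1, mul_zero]
    · rw [map_sum]
      apply Finset.sum_eq_zero
      intro j _
      rw [map_mul, (hG1 j).e2, mul_zero]
  have hVj : ∀ j, ∃ α β : K, V j - ∑ c, homogeneousComponent 1 (W c) * At j c =
      C α * X 2 ^ 2 + C β * X 3 ^ 2 := by
    intro j
    have e0 : V j - ∑ c, W c * At j c ∈ J0 K := by
      have e1 := congrFun hw j
      rw [← Ideal.Quotient.eq_zero_iff_mem, map_sub, ← e1, map_sum]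
      simp only [Matrix.mulVec, dotProduct, map_mul, hW, hAt2]
      rw [sub_eq_zero]
      apply Finset.sum_congr rfl
      intro c _
      exact mul_comm _ _
    have e1 := J0_hom K _ e0 2
    have e2 : ∀ c, homogeneousComponent 2 (W c * At j c) = homogeneousComponent 1 (W c) * At j c :=
      fun c => comp_mul_hom (At j c) 1 1 (hAt1 j c) (W c)
    rw [map_sub, map_sum, homogeneousComponent_eq_self (hVh j)] at e1
    simp only [e2] at e1
    apply J2 K _ _ e1
    exact (hVh j).sub (IsHomogeneous.sum _ _ _ fun c _ =>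
      (homogeneousComponent_isHomogeneous 1 (W c)).mul (hAt1 j c))
  choose α β hαβ using hVj
  apply last_step K (∑ j, C (α j) * G j) (∑ j, C (β j) * G j)
    (InH.sum K _ _ fun j _ => (hG1 j).smul K _) (InH.sum K _ _ fun j _ => (hG1 j).smul K _)
  rw [← hVf]
  have e5 : ∑ j, (∑ c, homogeneousComponent 1 (W c) * At j c) * G j = 0 := by
    simp only [Finset.sum_mul]
    rw [Finset.sum_comm]
    apply Finset.sum_eq_zero
    intro c _
    have := hcol c
    calc ∑ j, homogeneousComponent 1 (W c) * At j c * G j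
        = homogeneousComponent 1 (W c) * ∑ j, At j c * G j := by
          rw [Finset.mul_sum]
          apply Finset.sum_congr rfl
          intro j _
          ring
      _ = 0 := by rw [this, mul_zero]
  rw [Finset.mul_sum, Finset.mul_sum, ← Finset.sum_add_distrib, ← sub_eq_zero,
    ← Finset.sum_sub_distrib]
  rw [← e5]
  apply Finset.sum_congr rfl
  intro j _
  linear_combination (G j) * (hαβ j)

end Pool.Agent.H10.UK

namespace Pool.Agent.H10.UK

variable (K : Type*) [Field K]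

theorem gen_of_lin {n : ℕ} (J : Ideal (MvPolynomial (Fin n) K))
    (T : Set (MvPolynomial (Fin n) K ⧸ J)) (hT : ∀ x ∈ T, IsHom J 1 x) :
    GenByLinear J (Ideal.span T) := by
  apply le_antisymm
  · rw [Ideal.span_le]
    intro x hx
    exact Ideal.subset_span ⟨Ideal.subset_span hx, hT x hx⟩
  · rw [Ideal.span_le]
    intro x hx
    exact hx.1

theorem gen1 : GenByLinear (J0 K) (I1 K) := by
  apply gen_of_lin
  intro x hx
  simp only [Set.mem_insert_iff, Set.mem_singleton_iff] at hx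
  rcases hx with rfl | rfl
  · exact hom_x K
  · exact hom_y K

theorem gen2 : GenByLinear (J0 K) (I2 K) := by
  apply gen_of_lin
  intro x hx
  simp only [Set.mem_insert_iff, Set.mem_singleton_iff] at hx
  rcases hx with rfl | rfl
  · rw [sub_eq_add_neg]
    exact isHom_add (hom_x K) (isHom_neg (hom_t K))
  · rw [sub_eq_add_neg]
    exact isHom_add (hom_y K) (isHom_neg (hom_z K))

theorem prod_ne : I1 K * I2 K ≠ ⊥ := by
  intro h
  have e0 : Ideal.Quotient.mk (J0 K) (h1 K) ∈ I1 K * I2 K := by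
    rw [prod_eq]
    exact Ideal.subset_span (by simp)
  rw [h, Ideal.mem_bot, Ideal.Quotient.eq_zero_iff_mem] at e0
  have H1 : InH K (h1 K) := ⟨1, 0, 0, 0, by simp⟩
  have e1 := J2z K _ (h1_hom K) e0 H1.e1
  have e2 := congrArg (eval ![(1 : K), 0, 0, 0]) e1
  simp [h1] at e2

theorem J0_sq : J0 K ≤ Ideal.span (Set.range X) ^ 2 := by
  refine Ideal.span_le.2 ?_
  intro x hx
  simp only [Set.mem_insert_iff, Set.mem_singleton_iff] at hx
  rcases hx with rfl | rfl
  · exact Ideal.pow_mem_pow (Ideal.subset_span (Set.mem_range_self 2)) 2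
  · exact Ideal.pow_mem_pow (Ideal.subset_span (Set.mem_range_self 3)) 2

theorem main :
    ∃ J : Ideal (MvPolynomial (Fin 4) K),
      J = Ideal.span {X 2 ^ 2, X 3 ^ 2} ∧
      (∀ p ∈ J, ∀ i : ℕ, homogeneousComponent i p ∈ J) ∧
      J ≤ Ideal.span (Set.range X) ^ 2 ∧
      UniversallyKoszul J ∧
      ∃ I₁ I₂ : Ideal (MvPolynomial (Fin 4) K ⧸ J),
        I₁ = Ideal.span {Ideal.Quotient.mk J (X 0), Ideal.Quotient.mk J (X 1)} ∧
        I₂ = Ideal.span {Ideal.Quotient.mk J (X 0 - X 3), Ideal.Quotient.mk J (X 1 - X 2)} ∧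
        GenByLinear J I₁ ∧ GenByLinear J I₂ ∧ I₁ * I₂ ≠ ⊥ ∧
        ¬ HasLinearResolution J 2 (I₁ * I₂) := by
  refine ⟨J0 K, rfl, J0_hom K, J0_sq K, uk K, I1 K, I2 K, rfl, ?_, gen1 K, gen2 K, prod_ne K,
    no_linres K⟩
  rw [I2, vx, vy, vz, vt, ← map_sub, ← map_sub]

end Pool.Agent.H10.UK
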