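import Pool.Agent.H10.UKFilt

/-! The algebra `K[x,y,z,t]/(z^2,t^2)`: normal forms. -/

set_option autoImplicit false

open MvPolynomial

namespace Pool.Agent.H10.UK

section Model

variable (A : Type*) [CommRing A]

/-- auxiliary model -/
def DD := DualNumber (DualNumber A)

noncomputable instance : CommRing (DD A) := inferInstanceAs (CommRing (DualNumber (DualNumber A)))

noncomputable def jD : A →+* DD A :=
  (TrivSqZeroExt.inlHom (DualNumber A) (DualNumber A)).comp (TrivSqZeroExt.inlHom A A)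

noncomputable def e1 : DD A :=
  (TrivSqZeroExt.inl (DualNumber.eps : DualNumber A) : DualNumber (DualNumber A))
noncomputable def e2 : DD A := (DualNumber.eps : DualNumber (DualNumber A))

theorem e1_sq : e1 A * e1 A = 0 := by
  change (TrivSqZeroExt.inl (DualNumber.eps : DualNumber A) : DualNumber (DualNumber A)) *
    (TrivSqZeroExt.inl (DualNumber.eps : DualNumber A) : DualNumber (DualNumber A)) = 0
  rw [← TrivSqZeroExt.inl_mul, DualNumber.eps_mul_eps, TrivSqZeroExt.inl_zero]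

theorem e2_sq : e2 A * e2 A = 0 :=
  (DualNumber.eps_mul_eps : (DualNumber.eps : DualNumber (DualNumber A)) * _ = 0)

theorem dd_zero (p0 p1 p2 p3 : A)
    (h : jD A p0 + jD A p1 * e1 A + jD A p2 * e2 A + jD A p3 * (e1 A * e2 A) = 0) :
    p0 = 0 ∧ p1 = 0 ∧ p2 = 0 ∧ p3 = 0 := by
  have h1 : (TrivSqZeroExt.inl (TrivSqZeroExt.inl p0) +
      TrivSqZeroExt.inl (TrivSqZeroExt.inl p1) * TrivSqZeroExt.inl DualNumber.eps +
      TrivSqZeroExt.inl (TrivSqZeroExt.inl p2) * DualNumber.eps +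
      TrivSqZeroExt.inl (TrivSqZeroExt.inl p3) *
        (TrivSqZeroExt.inl DualNumber.eps * DualNumber.eps) : DualNumber (DualNumber A)) = 0 := h
  have a0 := congrArg (fun v : DualNumber (DualNumber A) => v.fst.fst) h1
  have a1 := congrArg (fun v : DualNumber (DualNumber A) => v.fst.snd) h1
  have a2 := congrArg (fun v : DualNumber (DualNumber A) => v.snd.fst) h1
  have a3 := congrArg (fun v : DualNumber (DualNumber A) => v.snd.snd) h1
  simp at a0 a1 a2 a3
  exact ⟨a0, a1, a2, a3⟩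

end Model

variable (K : Type*) [Field K]

/-- the defining ideal `(z^2, t^2)` -/
noncomputable def J0 : Ideal (MvPolynomial (Fin 4) K) := Ideal.span {X 2 ^ 2, X 3 ^ 2}

/-- the algebra -/
abbrev RR := MvPolynomial (Fin 4) K ⧸ J0 K
/-- polynomials in two variables -/
abbrev PP := MvPolynomial (Fin 2) K

noncomputable def vx : RR K := Ideal.Quotient.mk _ (X 0)
noncomputable def vy : RR K := Ideal.Quotient.mk _ (X 1)
noncomputable def vz : RR K := Ideal.Quotient.mk _ (X 2)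
noncomputable def vt : RR K := Ideal.Quotient.mk _ (X 3)

noncomputable def ψ : PP K →+* RR K :=
  (Ideal.Quotient.mk (J0 K)).comp (eval₂Hom C ![X 0, X 1])

noncomputable def θ0 : MvPolynomial (Fin 4) K →+* DD (PP K) :=
  eval₂Hom ((jD (PP K)).comp C) ![jD (PP K) (X 0), jD (PP K) (X 1), e1 (PP K), e2 (PP K)]

theorem θ0_J (p : MvPolynomial (Fin 4) K) (hp : p ∈ J0 K) : θ0 K p = 0 := by
  have : J0 K ≤ RingHom.ker (θ0 K) := by
    rw [J0, Ideal.span_le]
    intro x hx
    simp only [Set.mem_insert_iff, Set.mem_singleton_iff] at hx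
    rcases hx with rfl | rfl
    · simp [RingHom.mem_ker, θ0, pow_two, e1_sq]
    · simp [RingHom.mem_ker, θ0, pow_two, e2_sq]
  exact this hp

noncomputable def θ : RR K →+* DD (PP K) := Ideal.Quotient.lift (J0 K) (θ0 K) (θ0_J K)

theorem θψ (p : PP K) : θ K (ψ K p) = jD (PP K) p := by
  have : (θ K).comp (ψ K) = jD (PP K) := by
    apply MvPolynomial.ringHom_ext
    · intro r
      simp [θ, ψ, θ0]
    · intro i
      fin_cases i <;> simp [θ, ψ, θ0]
  exact congrArg (fun f => f p) this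

theorem θz : θ K (vz K) = e1 (PP K) := by simp [θ, vz, θ0]
theorem θt : θ K (vt K) = e2 (PP K) := by simp [θ, vt, θ0]

/-- normal form -/
noncomputable def nf (p0 p1 p2 p3 : PP K) : RR K :=
  ψ K p0 + ψ K p1 * vz K + ψ K p2 * vt K + ψ K p3 * (vz K * vt K)

theorem zz : vz K * vz K = 0 := by
  rw [vz, ← map_mul, Ideal.Quotient.eq_zero_iff_mem]
  exact Ideal.subset_span (by simp [pow_two])

theorem tt : vt K * vt K = 0 := by
  rw [vt, ← map_mul, Ideal.Quotient.eq_zero_iff_mem]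
  exact Ideal.subset_span (by simp [pow_two])

theorem nf_zero (p0 p1 p2 p3 : PP K) (h : nf K p0 p1 p2 p3 = 0) :
    p0 = 0 ∧ p1 = 0 ∧ p2 = 0 ∧ p3 = 0 := by
  have h1 := congrArg (θ K) h
  rw [nf, map_add, map_add, map_add, map_mul, map_mul, map_mul, map_mul, θψ, θψ, θψ, θψ, θz, θt,
    map_zero] at h1
  exact dd_zero _ _ _ _ _ h1

theorem nf_sub (p0 p1 p2 p3 q0 q1 q2 q3 : PP K) :
    nf K p0 p1 p2 p3 - nf K q0 q1 q2 q3 = nf K (p0 - q0) (p1 - q1) (p2 - q2) (p3 - q3) := by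
  simp only [nf, map_sub]
  ring

theorem nf_inj {p0 p1 p2 p3 q0 q1 q2 q3 : PP K} (h : nf K p0 p1 p2 p3 = nf K q0 q1 q2 q3) :
    p0 = q0 ∧ p1 = q1 ∧ p2 = q2 ∧ p3 = q3 := by
  have h1 := nf_zero K (p0 - q0) (p1 - q1) (p2 - q2) (p3 - q3) (by rw [← nf_sub, h, sub_self])
  exact ⟨sub_eq_zero.1 h1.1, sub_eq_zero.1 h1.2.1, sub_eq_zero.1 h1.2.2.1,
    sub_eq_zero.1 h1.2.2.2⟩

theorem nf_surj (r : RR K) : ∃ p0 p1 p2 p3 : PP K, r = nf K p0 p1 p2 p3 := by
  obtain ⟨p, rfl⟩ := Ideal.Quotient.mk_surjective r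
  have hz := zz K
  have ht := tt K
  induction p using MvPolynomial.induction_on with
  | C q =>
    refine ⟨C q, 0, 0, 0, ?_⟩
    simp [nf, ψ]
  | add p q hp hq =>
    obtain ⟨p0, p1, p2, p3, hp⟩ := hp
    obtain ⟨q0, q1, q2, q3, hq⟩ := hq
    refine ⟨p0 + q0, p1 + q1, p2 + q2, p3 + q3, ?_⟩
    rw [map_add, hp, hq]
    simp only [nf, map_add]
    ring
  | mul_X p i hp =>
    obtain ⟨p0, p1, p2, p3, hp⟩ := hp
    have hx0 : ψ K (X 0) = vx K := by simp [ψ, vx]
    have hx1 : ψ K (X 1) = vy K := by simp [ψ, vy]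
    rw [map_mul, hp]
    fin_cases i
    · refine ⟨p0 * X 0, p1 * X 0, p2 * X 0, p3 * X 0, ?_⟩
      change _ * vx K = _
      simp only [nf, map_mul, hx0]
      ring
    · refine ⟨p0 * X 1, p1 * X 1, p2 * X 1, p3 * X 1, ?_⟩
      change _ * vy K = _
      simp only [nf, map_mul, hx1]
      ring
    · refine ⟨0, p0, 0, p2, ?_⟩
      change _ * vz K = _
      simp only [nf, map_zero]
      linear_combination (ψ K p1 + ψ K p3 * vt K) * hz
    · refine ⟨0, 0, p0, p1, ?_⟩
      change _ * vt K = _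
      simp only [nf, map_zero]
      linear_combination (ψ K p2 + ψ K p3 * vz K) * ht

end Pool.Agent.H10.UK
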