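import Pool.Agent.H10.VirDefs

set_option autoImplicit false

open Submodule

namespace Pool.Agent.H10.Vir

variable {K V : Type} [Field K] [AddCommGroup V] [Module K V] {c h : K}
  {L : ℤ → V →ₗ[K] V} {v : V}

/-- integer graded version of the degree parts -/
def MonZ (L : ℤ → V →ₗ[K] V) (u : V) (z : ℤ) : Submodule K V :=
  span K {x | ∃ l : List ℕ, (∀ i ∈ l, 0 < i) ∧ (l.sum : ℤ) = z ∧ x = mono L u l}

theorem degPart_eq (k : ℕ) : degPart L v k = MonZ L v k := by
  unfold degPart MonZ
  congr 1
  ext x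
  simp only [Set.mem_ofPred_eq, Nat.cast_inj]

theorem monZ_neg (u : V) (z : ℤ) (hz : z < 0) : MonZ L u z = ⊥ := by
  unfold MonZ
  rw [span_eq_bot]
  rintro x ⟨l, -, hl, -⟩
  omega

theorem cons_mem (u : V) (z : ℤ) (i : ℕ) (hi : 0 < i) (x : V) (hx : x ∈ MonZ L u z) :
    L (-(i : ℤ)) x ∈ MonZ L u (z + i) := by
  unfold MonZ at *
  induction hx using span_induction with
  | mem x hx =>
    obtain ⟨l, h1, h2, rfl⟩ := hx
    refine subset_span ⟨i :: l, ?_, ?_, rfl⟩
    · intro j hj
      rcases List.mem_cons.1 hj with rfl | hj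
      · exact hi
      · exact h1 j hj
    · rw [List.sum_cons, Nat.cast_add]
      omega
  | zero => rw [map_zero]; exact Submodule.zero_mem _
  | add x y _ _ hx hy => rw [map_add]; exact Submodule.add_mem _ hx hy
  | smul a x _ hx => rw [map_smul]; exact Submodule.smul_mem _ _ hx

/-- the relations -/
def Rel (L : ℤ → V →ₗ[K] V) (c : K) : Prop :=
  (∀ m n : ℤ, m + n ≠ 0 → ∀ x,
    L m (L n x) - L n (L m x) = ((m - n : ℤ) : K) • L (m + n) x) ∧
  ∀ (m : ℤ) (x : V), L m (L (-m) x) - L (-m) (L m x) =
    ((2 * m : ℤ) : K) • L 0 x + (1 / 2 * (((m + 1) * m * (m - 1) / 6 : ℤ) : K) * c) • x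

theorem sw (R : Rel L c) (n : ℤ) (i : ℤ) (hn : n ≠ i) (x : V) :
    L n (L (-i) x) = L (-i) (L n x) + ((n + i : ℤ) : K) • L (n - i) x := by
  have h := R.1 n (-i) (by omega) x
  have e1 : n - -i = n + i := by ring
  have e2 : n + -i = n - i := by ring
  rw [e1, e2] at h
  rw [← h]
  abel

theorem sw0 (R : Rel L c) (i : ℤ) (x : V) :
    L i (L (-i) x) = L (-i) (L i x) + (((2 * i : ℤ) : K) • L 0 x +
      (1 / 2 * (((i + 1) * i * (i - 1) / 6 : ℤ) : K) * c) • x) := by
  rw [← R.2 i x]
  abel

theorem act_mem (R : Rel L c) (u : V) (lam : K) (hu0 : L 0 u = lam • u)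
    (hup : ∀ n : ℤ, 0 < n → L n u = 0) (l : List ℕ) (hl : ∀ i ∈ l, 0 < i) :
    ∀ n : ℤ, L n (mono L u l) ∈ MonZ L u ((l.sum : ℤ) - n) := by
  have hu : u ∈ MonZ L u 0 := subset_span ⟨[], by simp, by simp, rfl⟩
  induction l with
  | nil =>
    intro n
    show L n u ∈ _
    rcases lt_trichotomy n 0 with hn | hn | hn
    · obtain ⟨i, hi⟩ : ∃ i : ℕ, n = -(i : ℤ) := ⟨n.natAbs, by omega⟩
      subst hi
      have := cons_mem (L := L) u 0 i (by omega) u hu
      simpa using this
    · subst hn
      rw [hu0]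
      simpa using Submodule.smul_mem _ lam hu
    · rw [hup n hn]
      exact Submodule.zero_mem _
  | cons i l ih =>
    have hl' : ∀ i ∈ l, 0 < i := fun j hj => hl j (List.mem_cons_of_mem _ hj)
    have hi : 0 < i := hl i List.mem_cons_self
    have ih' := ih hl'
    intro n
    show L n (L (-(i : ℤ)) (mono L u l)) ∈ _
    have h1 := cons_mem (L := L) u _ i hi _ (ih' n)
    have e1 : (l.sum : ℤ) - n + i = ((i :: l).sum : ℤ) - n := by
      rw [List.sum_cons]; push_cast; ring
    rw [e1] at h1
    by_cases hni : n = i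
    · subst hni
      rw [sw0 R]
      refine Submodule.add_mem _ h1 (Submodule.add_mem _ (Submodule.smul_mem _ _ ?_)
        (Submodule.smul_mem _ _ ?_))
      · have := ih' 0
        have e2 : (l.sum : ℤ) - 0 = ((i :: l).sum : ℤ) - i := by
          rw [List.sum_cons]; push_cast; ring
        rwa [e2] at this
      · refine subset_span ⟨l, hl', ?_, rfl⟩
        rw [List.sum_cons]; push_cast; ring
    · rw [sw R n i hni]
      refine Submodule.add_mem _ h1 (Submodule.smul_mem _ _ ?_)
      have := ih' (n - i)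
      have e2 : (l.sum : ℤ) - (n - i) = ((i :: l).sum : ℤ) - n := by
        rw [List.sum_cons]; push_cast; ring
      rwa [e2] at this

theorem act_mem' (R : Rel L c) (u : V) (lam : K) (hu0 : L 0 u = lam • u)
    (hup : ∀ n : ℤ, 0 < n → L n u = 0) (z n : ℤ) (x : V) (hx : x ∈ MonZ L u z) :
    L n x ∈ MonZ L u (z - n) := by
  unfold MonZ at hx
  induction hx using span_induction with
  | mem x hx =>
    obtain ⟨l, h1, h2, rfl⟩ := hx
    rw [← h2]
    exact act_mem R u lam hu0 hup l h1 n
  | zero => rw [map_zero]; exact Submodule.zero_mem _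
  | add x y _ _ hx hy => rw [map_add]; exact Submodule.add_mem _ hx hy
  | smul a x _ hx => rw [map_smul]; exact Submodule.smul_mem _ _ hx

theorem L0_mono (R : Rel L c) (u : V) (lam : K) (hu0 : L 0 u = lam • u) (l : List ℕ)
    (hl : ∀ i ∈ l, 0 < i) : L 0 (mono L u l) = (lam + (l.sum : K)) • mono L u l := by
  induction l with
  | nil =>
    show L 0 u = _
    rw [hu0]
    simp [mono]
  | cons i l ih =>
    have hl' : ∀ i ∈ l, 0 < i := fun j hj => hl j (List.mem_cons_of_mem _ hj)
    have hi : 0 < i := hl i List.mem_cons_self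
    show L 0 (L (-(i : ℤ)) (mono L u l)) = _ • L (-(i : ℤ)) (mono L u l)
    rw [sw R 0 i (by omega), ih hl', map_smul, zero_sub, zero_add, ← add_smul]
    congr 1
    rw [List.sum_cons]
    push_cast
    ring

/-- a singular vector of degree between 1 and 4 of a simple highest weight module is zero -/
theorem sing (X : IsSimpleHW K V c h L v) (h2 : (2 : K) ≠ 0) (k : ℕ) (hk : 1 ≤ k) (hk4 : k ≤ 4)
    (w : V) (hw : w ∈ degPart L v k) (w1 : L 1 w = 0) (w2 : L 2 w = 0) : w = 0 := by
  have R : Rel L c := ⟨X.comm, X.comm_neg⟩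
  -- weight
  have hw0 : L 0 w = (h + (k : K)) • w := by
    unfold degPart at hw
    clear w1 w2
    induction hw using span_induction with
    | mem x hx =>
      obtain ⟨l, h1, h2, rfl⟩ := hx
      rw [L0_mono R v h X.weight l h1, h2]
    | zero => simp
    | add x y _ _ hx hy => rw [map_add, hx, hy, smul_add]
    | smul a x _ hx => rw [map_smul, hx, smul_comm]
  have w3 : L 3 w = 0 := by
    have := X.comm 2 1 (by norm_num) w
    rw [w1, w2, map_zero, map_zero, sub_zero] at this
    norm_num at this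
    exact this.symm
  have w4 : L 4 w = 0 := by
    have := X.comm 3 1 (by norm_num) w
    rw [w1, w3, map_zero, map_zero, sub_zero] at this
    norm_num at this
    rcases smul_eq_zero.1 this.symm with h | h
    · exact absurd h h2
    · exact h
  have hwZ : w ∈ MonZ L v k := by rw [← degPart_eq]; exact hw
  have hwp : ∀ n : ℤ, 0 < n → L n w = 0 := by
    intro n hn
    by_cases hn4 : n ≤ 4
    · interval_cases n
      · exact w1
      · exact w2
      · exact w3
      · exact w4
    · have := act_mem' R v h X.weight X.high k n w hwZ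
      rw [monZ_neg v _ (by omega)] at this
      exact this
  -- the submodule generated by `w`
  let N : Submodule K V := span K {x | ∃ l : List ℕ, (∀ i ∈ l, 0 < i) ∧ x = mono L w l}
  have hle : ∀ z, MonZ L w z ≤ N := fun z => span_mono (by
    rintro x ⟨l, h1, -, h3⟩
    exact ⟨l, h1, h3⟩)
  have hinv : ∀ n, ∀ x ∈ N, L n x ∈ N := by
    intro n x hx
    induction hx using span_induction with
    | mem x hx =>
      obtain ⟨l, h1, rfl⟩ := hx
      exact hle _ (act_mem R w _ hw0 hwp l h1 n)
    | zero => rw [map_zero]; exact Submodule.zero_mem _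
    | add x y _ _ hx hy => rw [map_add]; exact Submodule.add_mem _ hx hy
    | smul a x _ hx => rw [map_smul]; exact Submodule.smul_mem _ _ hx
  have hdeg : ∀ l : List ℕ, (∀ i ∈ l, 0 < i) → mono L w l ∈ degPart L v (k + l.sum) := by
    intro l hl
    induction l with
    | nil => simpa [mono] using hw
    | cons i l ih =>
      have hl' : ∀ i ∈ l, 0 < i := fun j hj => hl j (List.mem_cons_of_mem _ hj)
      have hi : 0 < i := hl i List.mem_cons_self
      have h1 := ih hl'
      rw [degPart_eq] at h1 ⊢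
      have h2 := cons_mem v _ i hi _ h1
      have e : ((k + l.sum : ℕ) : ℤ) + i = ((k + (i :: l).sum : ℕ) : ℤ) := by
        rw [List.sum_cons]; push_cast; ring
      rwa [e] at h2
  have hhom : N ≤ ⨆ k, N ⊓ degPart L v k := by
    refine span_le.2 ?_
    rintro x ⟨l, h1, rfl⟩
    exact (le_iSup (fun k => N ⊓ degPart L v k) (k + l.sum))
      ⟨subset_span ⟨l, h1, rfl⟩, hdeg l h1⟩
  rcases X.simple N hinv hhom with hN | hN
  · have : w ∈ N := subset_span ⟨[], by simp, rfl⟩
    rw [hN] at this
    exact this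
  · exfalso
    have hind := X.graded.submodule_iSupIndep
    have hd := hind 0
    have hv0 : v ∈ degPart L v 0 := subset_span ⟨[], by simp, by simp, rfl⟩
    have hvN : v ∈ ⨆ j, ⨆ (_ : j ≠ 0), degPart L v j := by
      have hNle : N ≤ ⨆ j, ⨆ (_ : j ≠ 0), degPart L v j := by
        refine span_le.2 ?_
        rintro x ⟨l, h1, rfl⟩
        exact (le_iSup₂ (f := fun j (_ : j ≠ 0) => degPart L v j) (k + l.sum) (by omega))
          (hdeg l h1)
      rw [hN] at hNle
      exact hNle (Submodule.mem_top)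
    exact X.ne_zero (Submodule.disjoint_def.1 hd v hv0 hvN)

end Pool.Agent.H10.Vir
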