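import Mathlib

/-! Definitions for MP_b4de2f_al: graded simple highest weight modules of the Virasoro algebra. -/

set_option autoImplicit false

namespace Pool.Agent.H10.Vir

/-- the monomial vector `L_{-i₁} ⋯ L_{-iᵣ} v` for `l = [i₁, …, iᵣ]` -/
def mono {K V : Type} [Field K] [AddCommGroup V] [Module K V] (L : ℤ → V →ₗ[K] V) (v : V)
    (l : List ℕ) : V := l.foldr (fun i x => L (-(i : ℤ)) x) v

/-- the degree `k` part: the span of the monomials `L_{-i₁} ⋯ L_{-iᵣ} v`, all `iⱼ > 0`, with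
`i₁ + ⋯ + iᵣ = k` -/
def degPart {K V : Type} [Field K] [AddCommGroup V] [Module K V] (L : ℤ → V →ₗ[K] V) (v : V)
    (k : ℕ) : Submodule K V :=
  Submodule.span K {x | ∃ l : List ℕ, (∀ i ∈ l, 0 < i) ∧ l.sum = k ∧ x = mono L v l}

/-- `V` is (a model of) the module `L_{c,h}`: the operators `L n` satisfy the Virasoro relations
with `C` acting as the scalar `c`, `v` is a nonzero highest weight vector of weight `h`, `V` is the
direct sum of its degree `k` parts, and `V` is simple (as a graded module) -/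
structure IsSimpleHW (K V : Type) [Field K] [AddCommGroup V] [Module K V] (c h : K)
    (L : ℤ → V →ₗ[K] V) (v : V) : Prop where
  comm : ∀ m n : ℤ, m + n ≠ 0 → ∀ x,
    L m (L n x) - L n (L m x) = ((m - n : ℤ) : K) • L (m + n) x
  comm_neg : ∀ (m : ℤ) (x : V), L m (L (-m) x) - L (-m) (L m x) =
    ((2 * m : ℤ) : K) • L 0 x + (1 / 2 * (((m + 1) * m * (m - 1) / 6 : ℤ) : K) * c) • x
  ne_zero : v ≠ 0
  high : ∀ n : ℤ, 0 < n → L n v = 0
  weight : L 0 v = h • v
  graded : DirectSum.IsInternal (fun k : ℕ => degPart L v k)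
  simple : ∀ N : Submodule K V, (∀ n, ∀ x ∈ N, L n x ∈ N) → N ≤ ⨆ k, N ⊓ degPart L v k →
    N = ⊥ ∨ N = ⊤

/-- the central charge `c_ℓ = 1 - 6 / ((ℓ+1)(ℓ+2))` -/
def cc (K : Type) [Field K] (l : ℕ) : K := 1 - 6 / (((l : K) + 1) * (l + 2))

/-- the weight `h_{m,n} = (((ℓ+2)m - (ℓ+1)n)² - 1) / (4(ℓ+1)(ℓ+2))` -/
def hh (K : Type) [Field K] (l m n : ℕ) : K :=
  (((l + 2) * m - (l + 1) * n) ^ 2 - 1) / (4 * ((l : K) + 1) * (l + 2))

end Pool.Agent.H10.Vir
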