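import Pool.Agent.H10.Vir

set_option autoImplicit false

open Submodule

namespace Pool.Agent.H10.Vir

variable {K V : Type} [Field K] [AddCommGroup V] [Module K V] {c h : K}
  {L : ℤ → V →ₗ[K] V} {v : V}

section rules

variable (R : Rel L c) (x : V)

include R

theorem r11 : L 1 (L (-1) x) = L (-1) (L 1 x) + (2 : K) • L 0 x := by
  have := sw0 R 1 x; norm_num at this; exact this
theorem r12 : L 1 (L (-2) x) = L (-2) (L 1 x) + (3 : K) • L (-1) x := by
  have := sw R 1 2 (by norm_num) x; norm_num at this; exact this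
theorem r13 : L 1 (L (-3) x) = L (-3) (L 1 x) + (4 : K) • L (-2) x := by
  have := sw R 1 3 (by norm_num) x; norm_num at this; exact this
theorem r14 : L 1 (L (-4) x) = L (-4) (L 1 x) + (5 : K) • L (-3) x := by
  have := sw R 1 4 (by norm_num) x; norm_num at this; exact this
theorem r21 : L 2 (L (-1) x) = L (-1) (L 2 x) + (3 : K) • L 1 x := by
  have := sw R 2 1 (by norm_num) x; norm_num at this; exact this
theorem r22 : L 2 (L (-2) x) = L (-2) (L 2 x) + ((4 : K) • L 0 x + (1 / 2 * c) • x) := by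
  have := sw0 R 2 x; norm_num at this; rw [this]; norm_num
theorem r23 : L 2 (L (-3) x) = L (-3) (L 2 x) + (5 : K) • L (-1) x := by
  have := sw R 2 3 (by norm_num) x; norm_num at this; exact this
theorem r24 : L 2 (L (-4) x) = L (-4) (L 2 x) + (6 : K) • L (-2) x := by
  have := sw R 2 4 (by norm_num) x; norm_num at this; exact this
theorem r31 : L 3 (L (-1) x) = L (-1) (L 3 x) + (4 : K) • L 2 x := by
  have := sw R 3 1 (by norm_num) x; norm_num at this; exact this
theorem r32 : L 3 (L (-2) x) = L (-2) (L 3 x) + (5 : K) • L 1 x := by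
  have := sw R 3 2 (by norm_num) x; norm_num at this; exact this
theorem r41 : L 4 (L (-1) x) = L (-1) (L 4 x) + (5 : K) • L 3 x := by
  have := sw R 4 1 (by norm_num) x; norm_num at this; exact this
theorem r42 : L 4 (L (-2) x) = L (-2) (L 4 x) + (6 : K) • L 2 x := by
  have := sw R 4 2 (by norm_num) x; norm_num at this; exact this
theorem r44 : L 4 (L (-4) x) = L (-4) (L 4 x) + ((8 : K) • L 0 x + (1 / 2 * 10 * c) • x) := by
  have := sw0 R 4 x; norm_num at this; rw [this]; norm_num
theorem r01 : L 0 (L (-1) x) = L (-1) (L 0 x) + L (-1) x := by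
  have := sw R 0 1 (by norm_num) x; norm_num at this; exact this
theorem r02 : L 0 (L (-2) x) = L (-2) (L 0 x) + (2 : K) • L (-2) x := by
  have := sw R 0 2 (by norm_num) x; norm_num at this; exact this
theorem n12 : L (-1) (L (-2) x) = L (-2) (L (-1) x) + L (-3) x := by
  have := sw R (-1) 2 (by norm_num) x; norm_num at this; exact this
theorem n13 : L (-1) (L (-3) x) = L (-3) (L (-1) x) + (2 : K) • L (-4) x := by
  have := sw R (-1) 3 (by norm_num) x; norm_num at this; exact this

end rules

theorem comp4 (l : List ℕ) (hl : ∀ i ∈ l, 0 < i) (hs : l.sum = 4) :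
    l = [4] ∨ l = [3, 1] ∨ l = [1, 3] ∨ l = [2, 2] ∨ l = [2, 1, 1] ∨ l = [1, 2, 1] ∨
      l = [1, 1, 2] ∨ l = [1, 1, 1, 1] := by
  match l, hl, hs with
  | [], _, hs => simp at hs
  | [a], hl, hs =>
    simp at hs hl ⊢
    omega
  | [a, b], hl, hs =>
    simp at hs hl ⊢
    omega
  | [a, b, c], hl, hs =>
    simp at hs hl ⊢
    omega
  | [a, b, c, d], hl, hs =>
    simp at hs hl ⊢
    omega
  | a :: b :: c :: d :: e :: l, hl, hs =>
    exfalso
    simp at hs hl
    omega

/-- the five partition vectors span degree four -/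
theorem deg4_le (R : Rel L c) : degPart L v 4 ≤ span K
    {L (-4) v, L (-3) (L (-1) v), L (-2) (L (-2) v), L (-2) (L (-1) (L (-1) v)),
      L (-1) (L (-1) (L (-1) (L (-1) v)))} := by
  set S := span K
    {L (-4) v, L (-3) (L (-1) v), L (-2) (L (-2) v), L (-2) (L (-1) (L (-1) v)),
      L (-1) (L (-1) (L (-1) (L (-1) v)))} with hS
  have m4 : L (-4) v ∈ S := subset_span (by simp)
  have m31 : L (-3) (L (-1) v) ∈ S := subset_span (by simp)
  have m22 : L (-2) (L (-2) v) ∈ S := subset_span (by simp)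
  have m211 : L (-2) (L (-1) (L (-1) v)) ∈ S := subset_span (by simp)
  have m1111 : L (-1) (L (-1) (L (-1) (L (-1) v))) ∈ S := subset_span (by simp)
  refine span_le.2 ?_
  rintro x ⟨l, h1, h2, rfl⟩
  rcases comp4 l h1 h2 with rfl | rfl | rfl | rfl | rfl | rfl | rfl | rfl
  · exact m4
  · exact m31
  · show L (-1) (L (-3) v) ∈ S
    rw [n13 R]
    exact add_mem m31 (smul_mem _ _ m4)
  · exact m22
  · exact m211
  · show L (-1) (L (-2) (L (-1) v)) ∈ S
    rw [n12 R]
    exact add_mem m211 m31
  · show L (-1) (L (-1) (L (-2) v)) ∈ S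
    rw [n12 R, map_add, n12 R, n13 R]
    exact add_mem (add_mem m211 m31) (add_mem m31 (smul_mem _ _ m4))
  · exact m1111

section modp

variable [CharP K 23]

theorem two_ne23 : (2 : K) ≠ 0 := by
  have : ((2 : ℕ) : K) ≠ 0 := by
    rw [Ne, CharP.cast_eq_zero_iff K 23]
    norm_num
  simpa using this

theorem half23 : (1 / 2 : K) = 12 := by
  have h23 : (23 : K) = 0 := by exact_mod_cast CharP.cast_eq_zero K 23
  rw [div_eq_iff two_ne23]
  linear_combination -h23

theorem w3z (X : IsSimpleHW K V 3 19 L v) :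
    (12 : K) • L (-3) v + (6 : K) • L (-2) (L (-1) v) + L (-1) (L (-1) (L (-1) v)) = 0 := by
  have R : Rel L 3 := ⟨X.comm, X.comm_neg⟩
  have h23 : (23 : K) = 0 := by exact_mod_cast CharP.cast_eq_zero K 23
  have p1 := X.high 1 (by norm_num)
  have p2 := X.high 2 (by norm_num)
  refine sing X two_ne23 3 (by norm_num) (by norm_num) _ ?_ ?_ ?_
  · refine add_mem (add_mem (smul_mem _ _ ?_) (smul_mem _ _ ?_)) ?_
    · exact subset_span ⟨[3], by simp, by simp, rfl⟩
    · exact subset_span ⟨[2, 1], by simp, by simp, rfl⟩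
    · exact subset_span ⟨[1, 1, 1], by simp, by simp, rfl⟩
  · simp only [map_add, map_smul, r11 R, r12 R, r13 R, r01 R, p1, X.weight, map_zero]
    match_scalars
    · linear_combination (12 : K) * h23
    · linear_combination (6 : K) * h23
  · simp only [map_add, map_smul, r21 R, r22 R, r23 R, r11 R, r01 R, p1, p2,
      X.weight, map_zero, half23]
    match_scalars
    linear_combination (48 : K) * h23

theorem k1z (X : IsSimpleHW K V 3 19 L v) :
    (2 : K) • L (-4) v + (22 : K) • L (-3) (L (-1) v) + (6 : K) • L (-2) (L (-2) v) +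
      L (-2) (L (-1) (L (-1) v)) = 0 := by
  have R : Rel L 3 := ⟨X.comm, X.comm_neg⟩
  have h23 : (23 : K) = 0 := by exact_mod_cast CharP.cast_eq_zero K 23
  have p1 := X.high 1 (by norm_num)
  have p2 := X.high 2 (by norm_num)
  have hw := w3z X
  refine sing X two_ne23 4 (by norm_num) (by norm_num) _ ?_ ?_ ?_
  · refine add_mem (add_mem (add_mem (smul_mem _ _ ?_) (smul_mem _ _ ?_)) (smul_mem _ _ ?_)) ?_
    · exact subset_span ⟨[4], by simp, by simp, rfl⟩
    · exact subset_span ⟨[3, 1], by simp, by simp, rfl⟩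
    · exact subset_span ⟨[2, 2], by simp, by simp, rfl⟩
    · exact subset_span ⟨[2, 1, 1], by simp, by simp, rfl⟩
  · simp only [map_add, map_smul, r11 R, r12 R, r13 R, r14 R, r01 R, r02 R, p1, X.weight, map_zero,
      n12 R]
    have e : (0 : V) = (3 : K) • ((12 : K) • L (-3) v + (6 : K) • L (-2) (L (-1) v) +
      L (-1) (L (-1) (L (-1) v))) := by rw [hw, smul_zero]
    refine Eq.trans ?_ e.symm
    match_scalars <;>
      first
        | linear_combination (0 : K) * h23
        | linear_combination (36 : K) * h23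
        | linear_combination (8 : K) * h23
  · simp only [map_add, map_smul, r21 R, r22 R, r23 R, r24 R, r11 R, r12 R, r01 R, r02 R, p1, p2,
      X.weight, map_zero, half23]
    match_scalars <;>
      first
        | linear_combination (66 : K) * h23
        | linear_combination (10 : K) * h23

theorem k2z (X : IsSimpleHW K V 3 19 L v) :
    (12 : K) • L (-4) v + L (-3) (L (-1) v) + (10 : K) • L (-2) (L (-2) v) +
      L (-1) (L (-1) (L (-1) (L (-1) v))) = 0 := by
  have R : Rel L 3 := ⟨X.comm, X.comm_neg⟩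
  have h23 : (23 : K) = 0 := by exact_mod_cast CharP.cast_eq_zero K 23
  have p1 := X.high 1 (by norm_num)
  have p2 := X.high 2 (by norm_num)
  have hw := w3z X
  refine sing X two_ne23 4 (by norm_num) (by norm_num) _ ?_ ?_ ?_
  · refine add_mem (add_mem (add_mem (smul_mem _ _ ?_) ?_) (smul_mem _ _ ?_)) ?_
    · exact subset_span ⟨[4], by simp, by simp, rfl⟩
    · exact subset_span ⟨[3, 1], by simp, by simp, rfl⟩
    · exact subset_span ⟨[2, 2], by simp, by simp, rfl⟩
    · exact subset_span ⟨[1, 1, 1, 1], by simp, by simp, rfl⟩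
  · simp only [map_add, map_smul, r11 R, r12 R, r13 R, r14 R, r01 R, r02 R, p1, X.weight, map_zero,
      n12 R]
    have e : (0 : V) = (3 : K) • ((12 : K) • L (-3) v + (6 : K) • L (-2) (L (-1) v) +
      L (-1) (L (-1) (L (-1) v))) := by rw [hw, smul_zero]
    refine Eq.trans ?_ e.symm
    match_scalars <;>
      first
        | linear_combination (4 : K) * h23
        | linear_combination (2 : K) * h23
        | linear_combination (7 : K) * h23
  · simp only [map_add, map_smul, r21 R, r22 R, r23 R, r24 R, r11 R, r12 R, r01 R, r02 R, p1, p2,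
      X.weight, map_zero, half23]
    match_scalars <;>
      first
        | linear_combination (104 : K) * h23
        | linear_combination (31 : K) * h23

/-- in characteristic 23 the degree four part has dimension at most three -/
theorem dim_le (X : IsSimpleHW K V 3 19 L v) : Module.finrank K (degPart L v 4) ≤ 3 := by
  classical
  have R : Rel L 3 := ⟨X.comm, X.comm_neg⟩
  have hk1 := k1z X
  have hk2 := k2z X
  set T : Finset V := {L (-4) v, L (-3) (L (-1) v), L (-2) (L (-2) v)} with hT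
  have m4 : L (-4) v ∈ span K (T : Set V) := subset_span (by simp [hT])
  have m31 : L (-3) (L (-1) v) ∈ span K (T : Set V) := subset_span (by simp [hT])
  have m22 : L (-2) (L (-2) v) ∈ span K (T : Set V) := subset_span (by simp [hT])
  have hle : degPart L v 4 ≤ span K (T : Set V) := by
    refine (deg4_le R).trans (span_le.2 ?_)
    intro x hx
    simp only [Set.mem_insert_iff, Set.mem_singleton_iff] at hx
    rcases hx with rfl | rfl | rfl | rfl | rfl
    · exact m4
    · exact m31
    · exact m22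
    · have e : L (-2) (L (-1) (L (-1) v)) = -((2 : K) • L (-4) v + (22 : K) • L (-3) (L (-1) v) +
        (6 : K) • L (-2) (L (-2) v)) := by
        rw [eq_neg_iff_add_eq_zero, add_comm]
        exact hk1
      show _ ∈ span K (T : Set V)
      rw [e]
      exact neg_mem (add_mem (add_mem (smul_mem _ _ m4) (smul_mem _ _ m31)) (smul_mem _ _ m22))
    · have e : L (-1) (L (-1) (L (-1) (L (-1) v))) = -((12 : K) • L (-4) v + L (-3) (L (-1) v) +
        (10 : K) • L (-2) (L (-2) v)) := by
        rw [eq_neg_iff_add_eq_zero, add_comm]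
        exact hk2
      show _ ∈ span K (T : Set V)
      rw [e]
      exact neg_mem (add_mem (add_mem (smul_mem _ _ m4) m31) (smul_mem _ _ m22))
  calc Module.finrank K (degPart L v 4) ≤ Module.finrank K (span K (T : Set V)) :=
        Submodule.finrank_mono hle
    _ ≤ T.card := finrank_span_finset_le_card T
    _ ≤ 3 := Finset.card_le_three

end modp

/-- over the complex numbers the degree four part has dimension at least four -/
theorem dim_ge {V : Type} [AddCommGroup V] [Module ℂ V] {L : ℤ → V →ₗ[ℂ] V} {v : V}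
    (X : IsSimpleHW ℂ V (7 / 10) (3 / 5) L v) : 4 ≤ Module.finrank ℂ (degPart L v 4) := by
  have R : Rel L (7 / 10 : ℂ) := ⟨X.comm, X.comm_neg⟩
  have p1 := X.high 1 (by norm_num)
  have p2 := X.high 2 (by norm_num)
  have p3 := X.high 3 (by norm_num)
  have p4 := X.high 4 (by norm_num)
  have hfin : Module.Finite ℂ (degPart L v 4) := by
    have : FiniteDimensional ℂ (span ℂ
      {L (-4) v, L (-3) (L (-1) v), L (-2) (L (-2) v), L (-2) (L (-1) (L (-1) v)),
      L (-1) (L (-1) (L (-1) (L (-1) v)))}) := FiniteDimensional.span_of_finite ℂ (by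
        simp)
    exact Submodule.finiteDimensional_of_le (deg4_le R)
  have m4 : L (-4) v ∈ degPart L v 4 := subset_span ⟨[4], by simp, by simp, rfl⟩
  have m22 : L (-2) (L (-2) v) ∈ degPart L v 4 := subset_span ⟨[2, 2], by simp, by simp, rfl⟩
  have m211 : L (-2) (L (-1) (L (-1) v)) ∈ degPart L v 4 :=
    subset_span ⟨[2, 1, 1], by simp, by simp, rfl⟩
  have m1111 : L (-1) (L (-1) (L (-1) (L (-1) v))) ∈ degPart L v 4 :=
    subset_span ⟨[1, 1, 1, 1], by simp, by simp, rfl⟩
  let b : Fin 4 → degPart L v 4 := ![⟨_, m4⟩, ⟨_, m22⟩, ⟨_, m211⟩, ⟨_, m1111⟩]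
  have hb : LinearIndependent ℂ b := by
    rw [Fintype.linearIndependent_iff]
    intro g hg
    rw [Fin.sum_univ_four] at hg
    have hg' : g 0 • L (-4) v + g 1 • L (-2) (L (-2) v) + g 2 • L (-2) (L (-1) (L (-1) v)) +
        g 3 • L (-1) (L (-1) (L (-1) (L (-1) v))) = 0 := by
      have := congrArg Subtype.val hg
      simpa [b] using this
    obtain ⟨x0, hx0⟩ : ∃ t, g 0 = t := ⟨_, rfl⟩
    obtain ⟨x1, hx1⟩ : ∃ t, g 1 = t := ⟨_, rfl⟩
    obtain ⟨x2, hx2⟩ : ∃ t, g 2 = t := ⟨_, rfl⟩
    obtain ⟨x3, hx3⟩ : ∃ t, g 3 = t := ⟨_, rfl⟩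
    rw [hx0, hx1, hx2, hx3] at hg'
    have sc : ∀ t : ℂ, t • v = 0 → t = 0 := fun t ht => by
      rcases smul_eq_zero.1 ht with h | h
      · exact h
      · exact absurd h X.ne_zero
    have E1 : 83 / 10 * x0 + 33 / 2 * x1 + 108 / 5 * x2 + 72 * x3 = 0 := by
      apply sc
      have e : (0 : V) = L 4 (x0 • L (-4) v + x1 • L (-2) (L (-2) v) +
        x2 • L (-2) (L (-1) (L (-1) v)) + x3 • L (-1) (L (-1) (L (-1) (L (-1) v)))) := by
        rw [hg', map_zero]
      refine Eq.trans ?_ e.symm
      simp only [map_add, map_smul, r11 R, r12 R, r13 R, r14 R, r21 R, r22 R, r31 R, r32 R,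
        r41 R, r42 R, r44 R, r01 R, r02 R, p1, p2, p3, p4, X.weight, map_zero]
      match_scalars
      ring
    have E2 : 33 / 2 * x0 + 297 / 8 * x1 + 243 / 5 * x2 + 4104 / 25 * x3 = 0 := by
      apply sc
      have e : (0 : V) = L 2 (L 2 (x0 • L (-4) v + x1 • L (-2) (L (-2) v) + x2 • L (-2) (L (-1) (L (-1) v)) + x3 • L (-1) (L (-1) (L (-1) (L (-1) v))))) := by
        rw [hg']
        simp only [map_zero]
      refine Eq.trans ?_ e.symm
      simp only [map_add, map_smul, map_zero, r11 R, r12 R, r13 R, r14 R, r21 R, r22 R, r23 R,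
        r24 R, r31 R, r32 R, r41 R, r42 R, r44 R, r01 R, r02 R, p1, p2, p3, p4, X.weight]
      match_scalars
      ring
    have E3 : 108 / 5 * x0 + 243 / 5 * x1 + 1743 / 25 * x2 + 30096 / 125 * x3 = 0 := by
      apply sc
      have e : (0 : V) = L 1 (L 1 (L 2 (x0 • L (-4) v + x1 • L (-2) (L (-2) v) + x2 • L (-2) (L (-1) (L (-1) v)) + x3 • L (-1) (L (-1) (L (-1) (L (-1) v)))))) := by
        rw [hg']
        simp only [map_zero]
      refine Eq.trans ?_ e.symm
      simp only [map_add, map_smul, map_zero, r11 R, r12 R, r13 R, r14 R, r21 R, r22 R, r23 R,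
        r24 R, r31 R, r32 R, r41 R, r42 R, r44 R, r01 R, r02 R, p1, p2, p3, p4, X.weight]
      match_scalars
      ring
    have E4 : 72 * x0 + 4104 / 25 * x1 + 30096 / 125 * x2 + 532224 / 625 * x3 = 0 := by
      apply sc
      have e : (0 : V) = L 1 (L 1 (L 1 (L 1 (x0 • L (-4) v + x1 • L (-2) (L (-2) v) + x2 • L (-2) (L (-1) (L (-1) v)) + x3 • L (-1) (L (-1) (L (-1) (L (-1) v))))))) := by
        rw [hg']
        simp only [map_zero]
      refine Eq.trans ?_ e.symm
      simp only [map_add, map_smul, map_zero, r11 R, r12 R, r13 R, r14 R, r21 R, r22 R, r23 R,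
        r24 R, r31 R, r32 R, r41 R, r42 R, r44 R, r01 R, r02 R, p1, p2, p3, p4, X.weight]
      match_scalars
      ring
    have Z0 : x0 = 0 := by
      linear_combination (1240/1127 : ℂ) * E1 + (-200/483 : ℂ) * E2 + (-950/3381 : ℂ) * E3 + (5375/81144 : ℂ) * E4
    have Z1 : x1 = 0 := by
      linear_combination (-200/483 : ℂ) * E1 + (488/897 : ℂ) * E2 + (-7720/18837 : ℂ) * E3 + (200/4347 : ℂ) * E4
    have Z2 : x2 = 0 := by
      linear_combination (-950/3381 : ℂ) * E1 + (-7720/18837 : ℂ) * E2 + (179875/131859 : ℂ) * E3 + (-68875/243432 : ℂ) * E4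
    have Z3 : x3 = 0 := by
      linear_combination (5375/81144 : ℂ) * E1 + (200/4347 : ℂ) * E2 + (-68875/243432 : ℂ) * E3 + (779375/11684736 : ℂ) * E4
    intro i
    fin_cases i
    · exact hx0.trans Z0
    · exact hx1.trans Z1
    · exact hx2.trans Z2
    · exact hx3.trans Z3
  have := hb.fintype_card_le_finrank
  simpa using this

theorem main : ∃ l m n p k : ℕ, 2 ≤ l ∧ 1 ≤ n ∧ n ≤ m ∧ m ≤ l ∧ p.Prime ∧ 2 * l ^ 2 + l - 3 < p ∧
    ∀ (F V W : Type) [Field F] [IsAlgClosed F] [CharP F p] [AddCommGroup V] [Module F V]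
      [AddCommGroup W] [Module ℂ W] (L : ℤ → V →ₗ[F] V) (v : V) (L' : ℤ → W →ₗ[ℂ] W) (w : W),
      IsSimpleHW F V (cc F l) (hh F l m n) L v →
      IsSimpleHW ℂ W (cc ℂ l) (hh ℂ l m n) L' w →
      Module.finrank F (degPart L v k) < Module.finrank ℂ (degPart L' w k) := by
  refine ⟨3, 3, 2, 23, 4, by norm_num, by norm_num, by norm_num, by norm_num, by norm_num,
    by norm_num, ?_⟩
  intro F V W _ _ _ _ _ _ _ L v L' w X Y
  have h23 : (23 : F) = 0 := by exact_mod_cast CharP.cast_eq_zero F 23
  have ne : ∀ a : ℕ, ¬ 23 ∣ a → (a : F) ≠ 0 := fun a ha => by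
    rw [Ne, CharP.cast_eq_zero_iff F 23]
    exact ha
  have h20 : (20 : F) ≠ 0 := by exact_mod_cast ne 20 (by norm_num)
  have h80 : (80 : F) ≠ 0 := by exact_mod_cast ne 80 (by norm_num)
  have e1 : cc F 3 = 3 := by
    unfold cc
    have : ((3 : ℕ) : F) + 1 = 4 := by norm_num
    have e' : (((3 : ℕ) : F) + 1) * ((3 : ℕ) + 2) = 20 := by norm_num
    rw [e', sub_eq_iff_eq_add, ← sub_eq_iff_eq_add', eq_div_iff h20]
    linear_combination (-2 : F) * h23
  have e2 : hh F 3 3 2 = 19 := by
    unfold hh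
    have e' : 4 * (((3 : ℕ) : F) + 1) * ((3 : ℕ) + 2) = 80 := by norm_num
    rw [e', div_eq_iff h80]
    push_cast
    linear_combination (-64 : F) * h23
  rw [e1, e2] at X
  have f1 : cc ℂ 3 = 7 / 10 := by unfold cc; norm_num
  have f2 : hh ℂ 3 3 2 = 3 / 5 := by unfold hh; norm_num
  rw [f1, f2] at Y
  have := dim_le X
  have := dim_ge Y
  omega

end Pool.Agent.H10.Vir
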