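import Mathlib

set_option autoImplicit false

namespace Pool.Agent.H10.Vol

open MeasureTheory Set

/-- the `n`-th power of the positive measure `μ` in `M(0,1)` (truncated convolution):
`E ↦ (μ × ... × μ) {(x_1,...,x_n) : x_1 + ... + x_n ∈ E}` for `E ⊆ (0,1)`. -/
noncomputable def pw (μ : Measure ℝ) (n : ℕ) : Measure ℝ :=
  ((Measure.pi (fun _ : Fin n => μ)).map (fun x => ∑ i, x i)).restrict (Ioo 0 1)

/-- the conditions (i)-(iv) on a sequence `(ω_n)_{n ≥ 1}` -/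
def Admissible (ω : ℕ → ℝ) : Prop :=
  (∀ n, 1 ≤ n → 0 ≤ ω n) ∧ (∀ m n, 1 ≤ m → 1 ≤ n → ω (m + n) ≤ ω m * ω n) ∧
  Filter.Tendsto (fun n : ℕ => (ω n) ^ ((1 : ℝ) / n)) Filter.atTop (nhds 0) ∧
  (∀ m n, 1 ≤ m → m ≤ n → (ω n) ^ ((1 : ℝ) / n) ≤ (ω m) ^ ((1 : ℝ) / m))

end Pool.Agent.H10.Vol
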