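import Pool.Agent.H10.VolDefs

set_option autoImplicit false

namespace Pool.Agent.H10.Vol

open MeasureTheory Set

noncomputable def om (n : ℕ) : ℝ := if n ≤ 2 then 1 else if n ≤ 12 then (1 / 100) ^ n else 0

noncomputable def vv (n : ℕ) : ℝ := if n ≤ 2 then 1 else if n ≤ 12 then 1 / 100 else 0

theorem vv_nonneg (n : ℕ) : 0 ≤ vv n := by unfold vv; split_ifs <;> norm_num

theorem vv_anti {m n : ℕ} (h : m ≤ n) : vv n ≤ vv m := by
  unfold vv; split_ifs <;> first | (exfalso; omega) | norm_num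

theorem om_eq (n : ℕ) (hn : 1 ≤ n) : om n = (vv n) ^ n := by
  unfold om vv
  split_ifs
  · simp
  · rfl
  · rw [zero_pow (by omega)]

theorem om_root (n : ℕ) (hn : 1 ≤ n) : (om n) ^ ((1 : ℝ) / n) = vv n := by
  rw [om_eq n hn, ← Real.rpow_natCast, ← Real.rpow_mul (vv_nonneg n)]
  have : (n : ℝ) ≠ 0 := by positivity
  rw [mul_one_div_cancel this, Real.rpow_one]

theorem om_adm : Admissible om := by
  refine ⟨?_, ?_, ?_, ?_⟩
  · intro n hn; rw [om_eq n hn]; exact pow_nonneg (vv_nonneg n) n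
  · intro m n hm hn
    rw [om_eq m hm, om_eq n hn, om_eq (m + n) (by omega), pow_add]
    exact mul_le_mul (pow_le_pow_left₀ (vv_nonneg _) (vv_anti (by omega)) _)
      (pow_le_pow_left₀ (vv_nonneg _) (vv_anti (by omega)) _) (pow_nonneg (vv_nonneg _) _)
      (pow_nonneg (vv_nonneg _) _)
  · apply tendsto_const_nhds.congr'
    filter_upwards [Filter.eventually_ge_atTop 13] with n hn
    rw [om_root n (by omega)]
    unfold vv
    rw [if_neg (by omega), if_neg (by omega)]
  · intro m n hm hmn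
    rw [om_root n (by omega), om_root m hm]
    exact vv_anti hmn

theorem pw_mass (μ : Measure ℝ) (n : ℕ) : (pw μ n) univ =
    (Measure.pi (fun _ : Fin n => μ)) {x | ∑ i, x i ∈ Ioo (0:ℝ) 1} := by
  unfold pw
  rw [Measure.restrict_apply MeasurableSet.univ, univ_inter, Measure.map_apply (by fun_prop) measurableSet_Ioo]
  rfl

theorem main (μ : Measure ℝ) [IsFiniteMeasure μ] (hμ : μ (Ioo 0 1)ᶜ = 0)
    (h : ∀ n, 1 ≤ n → (pw μ n) univ = ENNReal.ofReal (om n)) : False := by
  have hpos : ∀ n : ℕ, ∀ᵐ x ∂(Measure.pi (fun _ : Fin n => μ)), ∀ i, x i ∈ Ioo (0:ℝ) 1 := by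
    intro n
    rw [Filter.eventually_all]
    intro i
    have h1 : ∀ᵐ t ∂μ, t ∈ Ioo (0:ℝ) 1 := hμ
    exact (Measure.quasiMeasurePreserving_eval (μ := fun _ : Fin n => μ) i).ae h1
  -- mass one
  have h1 := h 1 le_rfl
  have hmass : μ univ = 1 := by
    rw [pw_mass] at h1
    have e1 : (Measure.pi (fun _ : Fin 1 => μ)) {x | ∑ i, x i ∈ Ioo (0:ℝ) 1} = (Measure.pi (fun _ : Fin 1 => μ)) univ := by
      apply measure_congr
      filter_upwards [hpos 1] with x hx
      have : x ∈ {x : Fin 1 → ℝ | ∑ i, x i ∈ Ioo (0:ℝ) 1} := by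
        simpa using hx 0
      exact propext ⟨fun _ => trivial, fun _ => this⟩
    rw [e1, Measure.pi_univ] at h1
    simpa [om] using h1
  haveI : IsProbabilityMeasure μ := ⟨hmass⟩
  -- no mass on [1/2, ∞)
  have h2 := h 2 (by norm_num)
  rw [pw_mass] at h2
  have hhalf : μ (Ici (1/2)) = 0 := by
    have e1 : (Measure.pi (fun _ : Fin 2 => μ)) {x | ∑ i, x i ∈ Ioo (0:ℝ) 1}ᶜ = 0 := by
      rw [prob_compl_eq_zero_iff (by measurability)]
      rw [h2]; simp [om]
    have e2 : (Measure.pi (fun _ : Fin 2 => μ)) (Set.pi univ (fun _ => Ici (1/2))) = 0 := by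
      refine measure_mono_null ?_ e1
      intro x hx
      simp only [mem_pi, mem_univ, true_implies, mem_Ici] at hx
      simp only [mem_compl_iff, mem_Ioo, not_and, not_lt]
      intro hcon
      have a0 := hx 0
      have a1 := hx 1
      rcases hcon with ⟨_, hcon⟩
      rw [Fin.sum_univ_two] at hcon
      linarith
    rw [Measure.pi_pi, Fin.prod_univ_two] at e2
    exact mul_self_eq_zero.1 e2
  obtain ⟨u, hu⟩ : ∃ u, u = μ (Ioo 0 (1/4)) := ⟨_, rfl⟩
  have hlt : μ (Iio (1/2)) = 1 := by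
    have : (Iio (1/2 : ℝ)) = (Ici (1/2))ᶜ := by simp
    rw [this, prob_compl_eq_one_iff measurableSet_Ici]
    exact hhalf
  -- third power
  have h3 := h 3 (by norm_num)
  rw [pw_mass] at h3
  have hu2 : u * u ≤ ENNReal.ofReal ((1/100) ^ 3) := by
    have e1 : (Measure.pi (fun _ : Fin 3 => μ)) (Set.pi univ (fun i => if i = 2 then Iio (1/2 : ℝ) else Ioo 0 (1/4))) ≤
        (Measure.pi (fun _ : Fin 3 => μ)) {x | ∑ i, x i ∈ Ioo (0:ℝ) 1} := by
      apply measure_mono_ae
      filter_upwards [hpos 3] with x hp hx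
      have hx' : x ∈ Set.pi univ (fun i => if i = 2 then Iio (1/2 : ℝ) else Ioo 0 (1/4)) := hx
      simp only [mem_pi, mem_univ, true_implies] at hx'
      have a0 := hx' 0
      have a1 := hx' 1
      have a2 := hx' 2
      have b2 := (hp 2).1
      simp only [Fin.isValue, Fin.reduceEq, if_false, mem_Ioo, if_true, mem_Iio] at a0 a1 a2
      show (∑ i, x i) ∈ Ioo (0:ℝ) 1
      rw [Fin.sum_univ_three]
      constructor <;> linarith [a0.1, a0.2, a1.1, a1.2]
    rw [Measure.pi_pi, Fin.prod_univ_three, h3] at e1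
    simp only [Fin.isValue, Fin.reduceEq, if_false, if_true, hlt, mul_one, ← hu] at e1
    refine e1.trans (le_of_eq ?_)
    simp [om]
  have hufin : u ≠ ⊤ := by rw [hu]; exact measure_ne_top _ _
  have hur : u.toReal ≤ 1 / 1000 := by
    have e1 := ENNReal.toReal_mono ENNReal.ofReal_ne_top hu2
    rw [ENNReal.toReal_mul, ENNReal.toReal_ofReal (by positivity)] at e1
    nlinarith [ENNReal.toReal_nonneg (a := u)]
  -- twelfth power
  have h12 := h 12 (by norm_num)
  rw [pw_mass] at h12
  have hcov : (Measure.pi (fun _ : Fin 12 => μ)) {x | ∑ i, x i ∈ Ioo (0:ℝ) 1} ≤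
      ∑ T ∈ (Finset.univ : Finset (Fin 12)).powersetCard 9, u ^ 9 := by
    have e1 : (Measure.pi (fun _ : Fin 12 => μ)) {x | ∑ i, x i ∈ Ioo (0:ℝ) 1} ≤
        (Measure.pi (fun _ : Fin 12 => μ)) (⋃ T ∈ (Finset.univ : Finset (Fin 12)).powersetCard 9,
          Set.pi univ (fun i => if i ∈ T then Ioo (0:ℝ) (1/4) else univ)) := by
      apply measure_mono_ae
      filter_upwards [hpos 12] with x hp hx
      have hx' : ∑ i, x i ∈ Ioo (0:ℝ) 1 := hx
      have hB : 9 ≤ (Finset.univ.filter (fun i => x i < 1/4)).card := by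
        by_contra hcon
        push Not at hcon
        have e2 : (Finset.univ.filter (fun i => x i < 1/4)).card + (Finset.univ.filter (fun i => ¬ x i < 1/4)).card = 12 := by
          rw [Finset.card_filter_add_card_filter_not]; simp
        have e3 : 4 ≤ (Finset.univ.filter (fun i => ¬ x i < 1/4)).card := by omega
        have e4 : ∑ i ∈ Finset.univ.filter (fun i => ¬ x i < 1/4), (1/4 : ℝ) ≤ ∑ i ∈ Finset.univ.filter (fun i => ¬ x i < 1/4), x i := by
          apply Finset.sum_le_sum
          intro i hi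
          exact not_lt.1 (Finset.mem_filter.1 hi).2
        have e5 : ∑ i ∈ Finset.univ.filter (fun i => ¬ x i < 1/4), x i ≤ ∑ i, x i := by
          apply Finset.sum_le_sum_of_subset_of_nonneg (Finset.filter_subset _ _)
          intro i _ _
          exact (hp i).1.le
        rw [Finset.sum_const, nsmul_eq_mul] at e4
        have e6 : (4 : ℝ) ≤ ((Finset.univ.filter (fun i => ¬ x i < 1/4)).card : ℝ) := by exact_mod_cast e3
        have e7 := hx'.2
        linarith
      obtain ⟨T, hT1, hT2⟩ := Finset.exists_subset_card_eq hB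
      show x ∈ (⋃ T ∈ (Finset.univ : Finset (Fin 12)).powersetCard 9, Set.pi univ (fun i => if i ∈ T then Ioo (0:ℝ) (1/4) else univ))
      rw [mem_iUnion₂]
      refine ⟨T, Finset.mem_powersetCard.2 ⟨Finset.subset_univ _, hT2⟩, ?_⟩
      intro i _
      by_cases hi : i ∈ T
      · simp only [if_pos hi]
        exact ⟨(hp i).1, (Finset.mem_filter.1 (hT1 hi)).2⟩
      · simp only [if_neg hi]; trivial
    refine e1.trans ((measure_biUnion_finset_le _ _).trans ?_)
    apply Finset.sum_le_sum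
    intro T hT
    rw [Measure.pi_pi]
    have e2 : ∀ i : Fin 12, μ (if i ∈ T then Ioo (0:ℝ) (1/4) else univ) = if i ∈ T then u else 1 := by
      intro i
      by_cases hi : i ∈ T
      · rw [if_pos hi, if_pos hi, hu]
      · rw [if_neg hi, if_neg hi, hmass]
    rw [Finset.prod_congr rfl (fun i _ => e2 i), Finset.prod_ite_mem, Finset.univ_inter, Finset.prod_const,
      (Finset.mem_powersetCard.1 hT).2]
  rw [h12, Finset.sum_const, Finset.card_powersetCard] at hcov
  have e3 : om 12 = (1/100) ^ 12 := by simp [om]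
  rw [e3] at hcov
  have e4 := ENNReal.toReal_mono (by
    rw [nsmul_eq_mul]
    exact ENNReal.mul_ne_top (by simp) (ENNReal.pow_ne_top hufin)) hcov
  rw [ENNReal.toReal_ofReal (by positivity), nsmul_eq_mul, ENNReal.toReal_mul, ENNReal.toReal_pow, ENNReal.toReal_natCast] at e4
  have e5 : (Nat.choose (Finset.univ : Finset (Fin 12)).card 9 : ℝ) = 220 := by
    rw [Finset.card_univ, Fintype.card_fin]; norm_num [Nat.choose]
  rw [e5] at e4
  have e6 : u.toReal ^ 9 ≤ (1/1000) ^ 9 := pow_le_pow_left₀ ENNReal.toReal_nonneg hur 9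
  have e7 : (220 : ℝ) * (1/1000) ^ 9 < (1/100) ^ 12 := by norm_num
  linarith

end Pool.Agent.H10.Vol
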