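import Mathlib

/-!
Scalar part of the disproof of MP_3fe7c1_an.
-/

namespace H10Wo

open Real Filter Topology
open scoped Nat

/-- nested approximation sequence -/
noncomputable def sq (α : ℕ → ℝ) (T : ℝ) : ℕ → ℝ
  | 0 => T
  | (j+1) => sq α T j + Int.fract (α j - ((j+1)! : ℝ) * sq α T j) / ((j+1)! : ℝ)

lemma sq_mono (α : ℕ → ℝ) (T : ℝ) : Monotone (sq α T) := by
  apply monotone_nat_of_le_succ
  intro n
  simp only [sq]
  have : 0 ≤ Int.fract (α n - ((n+1)! : ℝ) * sq α T n) / ((n+1)! : ℝ) := by positivity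
  linarith

lemma sq_anti (α : ℕ → ℝ) (T : ℝ) : Antitone (fun i => sq α T i + 2 / ((i+1)! : ℝ)) := by
  apply antitone_nat_of_succ_le
  intro n
  simp only [sq]
  have h1 : Int.fract (α n - ((n+1)! : ℝ) * sq α T n) / ((n+1)! : ℝ) ≤ 1 / ((n+1)! : ℝ) := by
    gcongr
    exact (Int.fract_lt_one _).le
  have h2 : 2 / (((n+1+1)! : ℕ) : ℝ) ≤ 1 / ((n+1)! : ℝ) := by
    rw [Nat.factorial_succ (n+1)]
    push_cast
    have hf : (0:ℝ) < ((n+1)! : ℝ) := by positivity
    rw [div_le_div_iff₀ (by positivity) hf]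
    nlinarith [hf, (Nat.cast_nonneg n : (0:ℝ) ≤ n), mul_nonneg (Nat.cast_nonneg n : (0:ℝ) ≤ n) hf.le]
  have h3 : 2 / ((n+1)! : ℝ) = 1 / ((n+1)! : ℝ) + 1 / ((n+1)! : ℝ) := by ring
  linarith

lemma exists_time (α : ℕ → ℝ) (T : ℝ) : ∃ t : ℝ, T ≤ t ∧ t ≤ T + 2 ∧
    ∀ j : ℕ, ∃ m : ℤ, |((j+1)! : ℝ) * t - α j - m| ≤ 2 / (j+2) := by
  have hle : sq α T ≤ (fun i => sq α T i + 2 / ((i+1)! : ℝ)) := by
    intro i
    have : (0:ℝ) ≤ 2 / ((i+1)! : ℝ) := by positivity
    simp only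
    linarith
  have hmem := (sq_mono α T).ciSup_mem_iInter_Icc_of_antitone (sq_anti α T) hle
  rw [Set.mem_iInter] at hmem
  refine ⟨⨆ n, sq α T n, (hmem 0).1, ?_, ?_⟩
  · have := (hmem 0).2
    simpa [sq] using this
  intro j
  obtain ⟨h1, h2⟩ := hmem (j+1)
  set t := ⨆ n, sq α T n
  have hf : (0:ℝ) < ((j+1)! : ℝ) := by positivity
  have hs : ((j+1)! : ℝ) * sq α T (j+1) = α j - (⌊α j - ((j+1)! : ℝ) * sq α T j⌋ : ℝ) := by
    simp only [sq]
    rw [mul_add, mul_div_cancel₀ _ hf.ne']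
    rw [← Int.self_sub_floor]
    ring
  refine ⟨-⌊α j - ((j+1)! : ℝ) * sq α T j⌋, ?_⟩
  have e : ((j+1)! : ℝ) * t - α j - ((-⌊α j - ((j+1)! : ℝ) * sq α T j⌋ : ℤ) : ℝ)
      = ((j+1)! : ℝ) * (t - sq α T (j+1)) := by
    push_cast
    rw [mul_sub, hs]
    ring
  rw [e, abs_of_nonneg (mul_nonneg hf.le (by linarith))]
  have h4 : t - sq α T (j+1) ≤ 2 / (((j+1+1)! : ℕ) : ℝ) := by linarith
  calc ((j+1)! : ℝ) * (t - sq α T (j+1)) ≤ ((j+1)! : ℝ) * (2 / (((j+1+1)! : ℕ) : ℝ)) := by gcongr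
    _ = 2 / (j+2) := by
      rw [Nat.factorial_succ (j+1)]
      push_cast
      field_simp
      ring

lemma exists_time' (u : ℕ → ℂ) (hu : ∀ j, ‖u j‖ = 1) (T : ℝ) : ∃ t : ℝ, T ≤ t ∧ t ≤ T + 2 ∧
    ∀ j : ℕ, ‖Complex.exp ((2 * π * ((j+1)! : ℝ) * t : ℝ) * Complex.I) - u j‖ ≤ 14 / (j+1) := by
  have hα : ∀ j, ∃ α : ℝ, Complex.exp ((2 * π * α : ℝ) * Complex.I) = u j := by
    intro j
    refine ⟨Complex.arg (u j) / (2 * π), ?_⟩
    have h := Complex.norm_mul_exp_arg_mul_I (u j)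
    rw [hu j] at h
    rw [mul_div_cancel₀ _ (by positivity)]
    simpa using h
  choose α hα using hα
  obtain ⟨t, h1, h2, h3⟩ := exists_time α T
  refine ⟨t, h1, h2, fun j => ?_⟩
  obtain ⟨m, hm⟩ := h3 j
  rw [← hα j]
  set x : ℝ := ((j+1)! : ℝ) * t - α j - m with hx
  have e1 : Complex.exp ((2 * π * ((j+1)! : ℝ) * t : ℝ) * Complex.I)
      = Complex.exp ((2 * π * α j : ℝ) * Complex.I) * Complex.exp (Complex.I * ((2 * π * x : ℝ) : ℂ)) := by
    have e2 : ((2 * π * ((j+1)! : ℝ) * t : ℝ) : ℂ) * Complex.I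
        = ((2 * π * α j : ℝ) : ℂ) * Complex.I + Complex.I * ((2 * π * x : ℝ) : ℂ)
          + m * (2 * π * Complex.I) := by
      rw [hx]
      push_cast
      ring
    rw [e2, Complex.exp_add, Complex.exp_add, Complex.exp_int_mul_two_pi_mul_I, mul_one]
  rw [e1]
  have e3 : Complex.exp ((2 * π * α j : ℝ) * Complex.I) * Complex.exp (Complex.I * ((2 * π * x : ℝ) : ℂ))
      - Complex.exp ((2 * π * α j : ℝ) * Complex.I)
      = Complex.exp ((2 * π * α j : ℝ) * Complex.I) * (Complex.exp (Complex.I * ((2 * π * x : ℝ) : ℂ)) - 1) := by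
    ring
  rw [e3, norm_mul, Complex.norm_exp_ofReal_mul_I, one_mul]
  refine (Real.norm_exp_I_mul_ofReal_sub_one_le).trans ?_
  rw [Real.norm_eq_abs, abs_mul, abs_of_pos (by positivity : (0:ℝ) < 2 * π)]
  have hpi : π < 3.15 := Real.pi_lt_d2
  have hj : (0:ℝ) ≤ (j:ℝ) := Nat.cast_nonneg j
  calc 2 * π * |x| ≤ 2 * 3.15 * (2 / (j+2)) := by gcongr
    _ ≤ 14 / (j+1) := by
      rw [← mul_div_assoc, div_le_div_iff₀ (by positivity) (by positivity)]
      nlinarith

/-- the damping -/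
noncomputable def ee (j : ℕ) : ℝ := 1 / ((j:ℝ) + 1)

/-- the multiplier -/
noncomputable def W (j : ℕ) (t : ℝ) : ℂ :=
  Complex.exp ((-(ee j) + (2 * π * ((j+1)! : ℝ) : ℝ) * Complex.I) * t)

lemma ee_pos (j : ℕ) : 0 < ee j := by unfold ee; positivity

lemma W_eq (j : ℕ) (t : ℝ) : W j t = ((Real.exp (-(ee j) * t) : ℝ) : ℂ) *
    Complex.exp ((2 * π * ((j+1)! : ℝ) * t : ℝ) * Complex.I) := by
  unfold W
  rw [Complex.ofReal_exp, ← Complex.exp_add]
  congr 1
  push_cast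
  ring

lemma norm_W (j : ℕ) (t : ℝ) : ‖W j t‖ = Real.exp (-(ee j) * t) := by
  rw [W_eq, norm_mul, Complex.norm_exp_ofReal_mul_I, mul_one, Complex.norm_real, Real.norm_eq_abs,
    abs_of_pos (Real.exp_pos _)]

lemma norm_W_le (j : ℕ) {t : ℝ} (ht : 0 ≤ t) : ‖W j t‖ ≤ 1 := by
  rw [norm_W]
  apply Real.exp_le_one_iff.mpr
  have := ee_pos j
  nlinarith [mul_nonneg this.le ht]

lemma ee_exp_le (j : ℕ) {T : ℝ} (hT : 0 < T) : Real.exp (-(ee j) * T) * ee j ≤ 1 / T := by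
  have h1 : ee j * T ≤ Real.exp (ee j * T) := by
    have := Real.add_one_le_exp (ee j * T)
    linarith
  have h2 : Real.exp (-(ee j) * T) = (Real.exp (ee j * T))⁻¹ := by
    rw [neg_mul, Real.exp_neg]
  rw [h2, le_div_iff₀ hT]
  have h3 := Real.exp_pos (ee j * T)
  rw [mul_assoc, inv_mul_le_iff₀ h3]
  linarith

lemma W_near (j : ℕ) (u : ℂ) (T t : ℝ) (hu : ‖u‖ = 1) (hT : 0 < T) (h1 : T ≤ t) (h2 : t ≤ T + 2)
    (h : ‖Complex.exp ((2 * π * ((j+1)! : ℝ) * t : ℝ) * Complex.I) - u‖ ≤ 14 / (j+1)) :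
    ‖W j t - (Real.exp (-(ee j) * T) : ℝ) * u‖ ≤ 16 / T := by
  set z := Complex.exp ((2 * π * ((j+1)! : ℝ) * t : ℝ) * Complex.I) with hz
  have hz1 : ‖z‖ = 1 := by rw [hz]; exact Complex.norm_exp_ofReal_mul_I _
  have e1 : Real.exp (-(ee j) * t) = Real.exp (-(ee j) * T) * Real.exp (-(ee j * (t - T))) := by
    rw [← Real.exp_add]; congr 1; ring
  have e2 : W j t - (Real.exp (-(ee j) * T) : ℝ) * u
      = (Real.exp (-(ee j) * T) : ℝ) * ((((Real.exp (-(ee j * (t - T))) - 1 : ℝ)) : ℂ) * z + (z - u)) := by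
    rw [W_eq, ← hz, e1]
    push_cast
    ring
  have hj := ee_pos j
  rw [e2, norm_mul, Complex.norm_real, Real.norm_eq_abs, abs_of_pos (Real.exp_pos _)]
  have h3 : ‖(((Real.exp (-(ee j * (t - T))) - 1 : ℝ)) : ℂ) * z‖ ≤ 2 * ee j := by
    rw [norm_mul, hz1, mul_one, Complex.norm_real, Real.norm_eq_abs, abs_of_nonpos]
    · have := Real.add_one_le_exp (-(ee j * (t - T)))
      nlinarith
    · have : Real.exp (-(ee j * (t - T))) ≤ 1 := by
        apply Real.exp_le_one_iff.mpr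
        have := mul_nonneg hj.le (sub_nonneg.mpr h1)
        linarith
      linarith
  have h4 : ‖z - u‖ ≤ 14 * ee j := by
    refine h.trans (le_of_eq ?_)
    unfold ee; ring
  calc Real.exp (-(ee j) * T) * ‖(((Real.exp (-(ee j * (t - T))) - 1 : ℝ)) : ℂ) * z + (z - u)‖
      ≤ Real.exp (-(ee j) * T) * (2 * ee j + 14 * ee j) := by
        gcongr
        exact (norm_add_le _ _).trans (add_le_add h3 h4)
    _ = 16 * (Real.exp (-(ee j) * T) * ee j) := by ring
    _ ≤ 16 * (1 / T) := by gcongr; exact ee_exp_le j hT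
    _ = 16 / T := by ring

lemma near_zero (c : ℕ → ℂ) (hc : Summable fun j => ‖c j‖) (u : ℕ → ℂ) (hu : ∀ j, ‖u j‖ = 1)
    (T : ℝ) (hT : 0 < T) (h0 : ∑' j, c j * ((Real.exp (-(ee j) * T) : ℝ) * u j) = 0) :
    ∃ t : ℝ, T ≤ t ∧ t ≤ T + 2 ∧ ‖∑' j, c j * W j t‖ ≤ 16 * (∑' j, ‖c j‖) / T := by
  obtain ⟨t, h1, h2, h3⟩ := exists_time' u hu T
  refine ⟨t, h1, h2, ?_⟩
  have ht : 0 ≤ t := by linarith
  have hs1 : Summable fun j => c j * W j t := by
    apply Summable.of_norm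
    refine Summable.of_nonneg_of_le (fun j => norm_nonneg _) (fun j => ?_) hc
    rw [norm_mul]
    exact mul_le_of_le_one_right (norm_nonneg _) (norm_W_le j ht)
  have hs2 : Summable fun j => c j * ((Real.exp (-(ee j) * T) : ℝ) * u j) := by
    apply Summable.of_norm
    refine Summable.of_nonneg_of_le (fun j => norm_nonneg _) (fun j => ?_) hc
    rw [norm_mul, norm_mul, hu j, mul_one, Complex.norm_real, Real.norm_eq_abs,
      abs_of_pos (Real.exp_pos _)]
    refine mul_le_of_le_one_right (norm_nonneg _) ?_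
    apply Real.exp_le_one_iff.mpr
    have := mul_pos (ee_pos j) hT
    linarith
  have e1 : ∑' j, c j * W j t = ∑' j, c j * (W j t - (Real.exp (-(ee j) * T) : ℝ) * u j) := by
    have := hs1.tsum_sub hs2
    rw [h0, sub_zero] at this
    rw [← this]
    apply tsum_congr
    intro j
    ring
  rw [e1]
  have hb : ∀ j, ‖c j * (W j t - (Real.exp (-(ee j) * T) : ℝ) * u j)‖ ≤ ‖c j‖ * (16 / T) := by
    intro j
    rw [norm_mul]
    gcongr
    exact W_near j (u j) T t (hu j) hT h1 h2 (h3 j)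
  calc ‖∑' j, c j * (W j t - (Real.exp (-(ee j) * T) : ℝ) * u j)‖
      ≤ ∑' j, ‖c j‖ * (16 / T) := tsum_of_norm_bounded (hc.mul_right _).hasSum hb
    _ = 16 * (∑' j, ‖c j‖) / T := by rw [tsum_mul_right]; ring

lemma triangle (A B C : ℝ) (hA : 0 ≤ A) (hB : 0 ≤ B) (hC : 0 ≤ C) (h1 : A ≤ B + C)
    (h2 : B ≤ A + C) (h3 : C ≤ A + B) : ∃ p q : ℂ, ‖p‖ = 1 ∧ ‖q‖ = 1 ∧ (A:ℂ) + B * p + C * q = 0 := by
  have hcont : ContinuousOn (fun θ : ℝ => ‖(A:ℂ) + B * Complex.exp (θ * Complex.I)‖) (Set.Icc 0 π) := by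
    fun_prop
  have hiv := intermediate_value_Icc' (Real.pi_pos.le) hcont
  have hg0 : ‖(A:ℂ) + B * Complex.exp ((0:ℝ) * Complex.I)‖ = A + B := by
    simp only [Complex.ofReal_zero, zero_mul, Complex.exp_zero, mul_one]
    rw [← Complex.ofReal_add, Complex.norm_real, Real.norm_eq_abs, abs_of_nonneg (by linarith)]
  have hgp : ‖(A:ℂ) + B * Complex.exp ((π:ℝ) * Complex.I)‖ = |A - B| := by
    rw [Complex.exp_pi_mul_I, mul_neg_one, ← sub_eq_add_neg, ← Complex.ofReal_sub, Complex.norm_real,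
      Real.norm_eq_abs]
  have hCm : C ∈ Set.Icc (‖(A:ℂ) + B * Complex.exp ((π:ℝ) * Complex.I)‖)
      (‖(A:ℂ) + B * Complex.exp ((0:ℝ) * Complex.I)‖) := by
    rw [hg0, hgp]
    exact ⟨abs_le.mpr ⟨by linarith, by linarith⟩, h3⟩
  obtain ⟨θ, -, hθ⟩ := hiv hCm
  simp only at hθ
  by_cases hC0 : C = 0
  · refine ⟨Complex.exp (θ * Complex.I), 1, Complex.norm_exp_ofReal_mul_I _, by simp, ?_⟩
    rw [hC0] at hθ ⊢
    have := norm_eq_zero.mp hθ
    rw [this]; simp
  · have hCne : (C:ℂ) ≠ 0 := by exact_mod_cast hC0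
    refine ⟨Complex.exp (θ * Complex.I), -((A:ℂ) + B * Complex.exp (θ * Complex.I)) / C,
      Complex.norm_exp_ofReal_mul_I _, ?_, ?_⟩
    · rw [norm_div, norm_neg, hθ, Complex.norm_real, Real.norm_eq_abs, abs_of_nonneg hC, div_self hC0]
    · rw [mul_div_cancel₀ _ hCne]; ring

lemma closing (r : ℕ → ℝ) (hr : ∀ j, 0 ≤ r j) (hs : Summable r) (h : ∀ n, 2 * r n ≤ ∑' j, r j) :
    ∃ u : ℕ → ℂ, (∀ j, ‖u j‖ = 1) ∧ ∑' j, (r j : ℂ) * u j = 0 := by
  set S := ∑' j, r j with hS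
  have hS0 : 0 ≤ S := tsum_nonneg hr
  rcases eq_or_lt_of_le hS0 with hz | hpos
  · refine ⟨fun _ => 1, by simp, ?_⟩
    have : ∀ j, r j = 0 := by
      intro j
      have := h j
      have := hr j
      linarith
    simp [this]
  have htend := hs.hasSum.tendsto_sum_nat
  have hev : ∀ᶠ n in atTop, S / 2 < ∑ i ∈ Finset.range n, r i :=
    htend.eventually (lt_mem_nhds (by rw [← hS]; linarith))
  have hex : ∃ n, S / 2 ≤ ∑ i ∈ Finset.range n, r i := by
    obtain ⟨n, hn⟩ := hev.exists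
    exact ⟨n, hn.le⟩
  classical
  obtain ⟨n, hn, hmin⟩ : ∃ n, S / 2 ≤ ∑ i ∈ Finset.range n, r i ∧
      ∀ m < n, ∑ i ∈ Finset.range m, r i < S / 2 :=
    ⟨Nat.find hex, Nat.find_spec hex, fun m hm => not_le.mp (Nat.find_min hex hm)⟩
  have hn0 : n ≠ 0 := by
    rintro rfl
    simp at hn
    linarith
  obtain ⟨k, rfl⟩ := Nat.exists_eq_succ_of_ne_zero hn0
  have hk := hmin k (Nat.lt_succ_self k)
  rw [Finset.sum_range_succ] at hn
  set A := ∑ i ∈ Finset.range k, r i with hA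
  have hsplit := hs.sum_add_tsum_nat_add (k+1)
  rw [Finset.sum_range_succ, ← hS, ← hA] at hsplit
  set C := ∑' i, r (i + (k+1)) with hC
  have hA0 : 0 ≤ A := Finset.sum_nonneg fun i _ => hr i
  have hC0 : 0 ≤ C := tsum_nonneg fun i => hr _
  have hkk := h k
  obtain ⟨p, q, hp, hq, hpq⟩ := triangle A (r k) C hA0 (hr k) hC0 (by linarith) (by linarith) (by linarith)
  refine ⟨fun j => if j < k then 1 else if j = k then p else q, ?_, ?_⟩
  · intro j
    by_cases h1 : j < k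
    · simp [h1]
    · by_cases h2 : j = k
      · simp [h2, hp]
      · simp [h1, h2, hq]
  · have hsum : Summable fun j => (r j : ℂ) * (if j < k then 1 else if j = k then p else q) := by
      apply Summable.of_norm
      refine Summable.of_nonneg_of_le (fun j => norm_nonneg _) (fun j => ?_) hs
      rw [norm_mul, Complex.norm_real, Real.norm_eq_abs, abs_of_nonneg (hr j)]
      refine mul_le_of_le_one_right (hr j) (le_of_eq ?_)
      by_cases h1 : j < k
      · simp [h1]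
      · by_cases h2 : j = k
        · simp [h2, hp]
        · simp [h1, h2, hq]
    rw [← hsum.sum_add_tsum_nat_add (k+1), Finset.sum_range_succ]
    have e1 : ∑ x ∈ Finset.range k, (r x : ℂ) * (if x < k then 1 else if x = k then p else q) = (A : ℂ) := by
      rw [hA, Complex.ofReal_sum]
      apply Finset.sum_congr rfl
      intro x hx
      simp [Finset.mem_range.mp hx]
    have e2 : ∑' i, (r (i + (k+1)) : ℂ) * (if i + (k+1) < k then 1 else if i + (k+1) = k then p else q)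
        = (C : ℂ) * q := by
      rw [hC, Complex.ofReal_tsum, ← tsum_mul_right]
      apply tsum_congr
      intro i
      have h1 : ¬ (i + (k+1) < k) := by omega
      have h2 : ¬ (i + (k+1) = k) := by omega
      rw [if_neg h1, if_neg h2]
    rw [e1, e2]
    simp only [lt_irrefl, if_false, if_true]
    exact hpq

lemma rate_ineq (K T : ℝ) (hK : 0 ≤ K) (hT3 : 3 ≤ T) (hT : 2 * K ^ 2 < T) :
    K / T < 1 / Real.sqrt (3 + T) := by
  have hT0 : 0 < T := by linarith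
  rw [div_lt_div_iff₀ hT0 (by positivity), one_mul]
  apply lt_of_pow_lt_pow_left₀ 2 hT0.le
  rw [mul_pow, Real.sq_sqrt (by linarith)]
  have : K^2 * (3 + T) ≤ K^2 * (2 * T) := by gcongr; linarith
  nlinarith

theorem scalar_main (c : ℕ → ℂ) (hc : Summable fun j => ‖c j‖) (N : ℝ) :
    ∃ t : ℝ, 0 ≤ t ∧ N ≤ t ∧ ‖∑' j, c j * W j t‖ < 1 / Real.sqrt (1 + t) := by
  set K := ∑' j, ‖c j‖ with hK
  have hK0 : 0 ≤ K := tsum_nonneg fun _ => norm_nonneg _
  set T0 : ℝ := max N (max 3 (2 * (16 * K) ^ 2 + 1)) with hT0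
  have hT0N : N ≤ T0 := le_max_left _ _
  have hT03 : 3 ≤ T0 := (le_max_left _ _).trans (le_max_right _ _)
  have hT0K : 2 * (16 * K) ^ 2 + 1 ≤ T0 := (le_max_right _ _).trans (le_max_right _ _)
  -- summability
  have hsum : ∀ T : ℝ, 0 ≤ T → Summable fun j => ‖c j‖ * Real.exp (-(ee j) * T) := by
    intro T hT
    refine Summable.of_nonneg_of_le (fun j => by positivity) (fun j => ?_) hc
    refine mul_le_of_le_one_right (norm_nonneg _) ?_
    apply Real.exp_le_one_iff.mpr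
    have := mul_nonneg (ee_pos j).le hT
    linarith
  -- final step from the balanced case
  have hfin : ∀ T : ℝ, T0 ≤ T →
      (∀ n, 2 * (‖c n‖ * Real.exp (-(ee n) * T)) ≤ ∑' j, ‖c j‖ * Real.exp (-(ee j) * T)) →
      ∃ t : ℝ, 0 ≤ t ∧ N ≤ t ∧ ‖∑' j, c j * W j t‖ < 1 / Real.sqrt (1 + t) := by
    intro T hT hbal
    have hTpos : 0 < T := by linarith
    obtain ⟨u, hu, hu0⟩ := closing (fun j => ‖c j‖ * Real.exp (-(ee j) * T))
      (fun j => by positivity) (hsum T hTpos.le) hbal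
    have hv : ∀ j, ∃ v : ℂ, ‖v‖ = 1 ∧ c j * v = (‖c j‖ : ℂ) * u j := by
      intro j
      by_cases h0 : c j = 0
      · exact ⟨1, by simp, by simp [h0]⟩
      · have hn : (‖c j‖ : ℂ) ≠ 0 := by simpa using h0
        refine ⟨(‖c j‖ : ℂ) * u j / c j, ?_, ?_⟩
        · rw [norm_div, norm_mul, hu j, mul_one, Complex.norm_real, norm_norm]
          exact div_self (by simpa using h0)
        · rw [mul_div_cancel₀ _ h0]
    choose v hv1 hv2 using hv
    obtain ⟨t, ht1, ht2, ht3⟩ := near_zero c hc v hv1 T hTpos (by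
      rw [← hu0]
      apply tsum_congr
      intro j
      have := hv2 j
      push_cast
      linear_combination (Complex.exp (-(ee j) * T)) * this)
    refine ⟨t, by linarith, by linarith, ?_⟩
    refine ht3.trans_lt ?_
    refine (rate_ineq (16 * K) T (by positivity) (by linarith) (by linarith)).trans_le ?_
    apply one_div_le_one_div_of_le
    · apply Real.sqrt_pos.mpr; linarith
    · apply Real.sqrt_le_sqrt; linarith
  by_cases hA : ∃ T : ℝ, T0 ≤ T ∧
      ∀ n, 2 * (‖c n‖ * Real.exp (-(ee n) * T)) ≤ ∑' j, ‖c j‖ * Real.exp (-(ee j) * T)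
  · obtain ⟨T, hT, hbal⟩ := hA
    exact hfin T hT hbal
  push Not at hA
  obtain ⟨n, hn⟩ := hA T0 le_rfl
  -- n is dominant at T0, hence forever
  have hdom : ∀ T : ℝ, T0 ≤ T →
      ∑' j, ‖c j‖ * Real.exp (-(ee j) * T) < 2 * (‖c n‖ * Real.exp (-(ee n) * T)) := by
    intro T1 hT1
    by_contra hcon
    push Not at hcon
    have hcS : ContinuousOn (fun T : ℝ => ∑' j, ‖c j‖ * Real.exp (-(ee j) * T)) (Set.Icc T0 T1) := by
      apply continuousOn_tsum (u := fun j => ‖c j‖)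
      · intro j; fun_prop
      · exact hc
      · intro j x hx
        rw [norm_mul, norm_norm, Real.norm_eq_abs, abs_of_pos (Real.exp_pos _)]
        refine mul_le_of_le_one_right (norm_nonneg _) ?_
        apply Real.exp_le_one_iff.mpr
        have hx0 : 0 ≤ x := by linarith [hx.1]
        have := mul_nonneg (ee_pos j).le hx0
        linarith
    have hcf : ContinuousOn (fun T : ℝ => 2 * (‖c n‖ * Real.exp (-(ee n) * T))
        - ∑' j, ‖c j‖ * Real.exp (-(ee j) * T)) (Set.Icc T0 T1) := by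
      apply ContinuousOn.sub _ hcS
      fun_prop
    have hiv := intermediate_value_Icc' hT1 hcf
    have h0m : (0:ℝ) ∈ Set.Icc (2 * (‖c n‖ * Real.exp (-(ee n) * T1))
        - ∑' j, ‖c j‖ * Real.exp (-(ee j) * T1)) (2 * (‖c n‖ * Real.exp (-(ee n) * T0))
        - ∑' j, ‖c j‖ * Real.exp (-(ee j) * T0)) := ⟨by linarith, by linarith⟩
    obtain ⟨T, hTm, hT⟩ := hiv h0m
    simp only at hT
    obtain ⟨m, hm⟩ := hA T hTm.1
    have hTpos : 0 ≤ T := by linarith [hTm.1]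
    have hne : m ≠ n := by rintro rfl; linarith
    have hpair : ‖c m‖ * Real.exp (-(ee m) * T) + ‖c n‖ * Real.exp (-(ee n) * T)
        ≤ ∑' j, ‖c j‖ * Real.exp (-(ee j) * T) := by
      have := (hsum T hTpos).sum_le_tsum {m, n} (fun j _ => by positivity)
      rwa [Finset.sum_pair hne] at this
    linarith
  -- choose T large
  have hen := ee_pos n
  set K' : ℝ := 2 * ‖c n‖ / ee n with hK'
  have hK'0 : 0 ≤ K' := by positivity
  set T := max T0 (2 * K' ^ 2 + 1) with hT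
  have hTT0 : T0 ≤ T := le_max_left _ _
  have hTpos : 0 < T := by linarith
  have hTK : 2 * K' ^ 2 < T := lt_of_lt_of_le (by linarith) (le_max_right _ _)
  refine ⟨T, hTpos.le, by linarith, ?_⟩
  have h1 : ‖∑' j, c j * W j T‖ ≤ ∑' j, ‖c j‖ * Real.exp (-(ee j) * T) := by
    apply tsum_of_norm_bounded (hsum T hTpos.le).hasSum
    intro j
    rw [norm_mul, norm_W]
  have h2 : 2 * (‖c n‖ * Real.exp (-(ee n) * T)) ≤ K' / T := by
    have := ee_exp_le n hTpos
    have h3 : Real.exp (-(ee n) * T) ≤ 1 / T / ee n := by rwa [le_div_iff₀ hen]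
    calc 2 * (‖c n‖ * Real.exp (-(ee n) * T)) ≤ 2 * (‖c n‖ * (1 / T / ee n)) := by gcongr
      _ = K' / T := by rw [hK']; field_simp
  have h4 := rate_ineq K' T hK'0 (by linarith) hTK
  have h5 : 1 / Real.sqrt (3 + T) ≤ 1 / Real.sqrt (1 + T) := by
    apply one_div_le_one_div_of_le
    · apply Real.sqrt_pos.mpr; linarith
    · apply Real.sqrt_le_sqrt; linarith
  have h6 := hdom T hTT0
  linarith

end H10Wo
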