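import Mathlib

/-!
Definitions for MP_3fe7c1_an: strongly continuous one-parameter semigroups of bounded
operators on a complex Banach space, indexed by the nonnegative reals.
-/

namespace H10Wo

open Filter Topology
open scoped NNReal

variable {X : Type} [NormedAddCommGroup X] [NormedSpace ℂ X]

/-- `T` is a strongly continuous semigroup of bounded operators. -/
structure IsC0Semigroup (T : ℝ≥0 → X →L[ℂ] X) : Prop where
  map_zero : T 0 = ContinuousLinearMap.id ℂ X
  map_add : ∀ s t, T (s + t) = (T s).comp (T t)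
  strongly_continuous : ∀ x, Continuous fun t => T t x

/-- All weak orbits tend to zero. -/
def WeaklyStable (T : ℝ≥0 → X →L[ℂ] X) : Prop :=
  ∀ (x : X) (y : X →L[ℂ] ℂ), Tendsto (fun t => y (T t x)) atTop (𝓝 0)

/-- Uniform exponential decay of the operator norms. -/
def ExponentiallyStable (T : ℝ≥0 → X →L[ℂ] X) : Prop :=
  ∃ M : ℝ, 1 ≤ M ∧ ∃ ε : ℝ, 0 < ε ∧ ∀ t : ℝ≥0, ‖T t‖ ≤ M * Real.exp (-ε * t)

/-- Admissible rates: positive, non-increasing, tending to zero. -/
def AdmissibleRate (a : ℝ≥0 → ℝ) : Prop :=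
  (∀ t, 0 < a t) ∧ Antitone a ∧ Tendsto a atTop (𝓝 0)

end H10Wo
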