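import Pool.Agent.H10.WoA
import Pool.Agent.H10.WoDefs

/-!
The diagonal semigroup on little l one.
-/

namespace H10Wo

open Filter Topology
open scoped NNReal

/-- little l one -/
noncomputable abbrev L1 := lp (fun _ : ℕ => ℂ) 1

lemma L1_norm (x : L1) : ‖x‖ = ∑' j, ‖x j‖ := by
  rw [lp.norm_eq_tsum_rpow (by simp)]
  simp

lemma L1_summ (x : L1) : Summable fun j => ‖x j‖ := by
  have := (lp.memℓp x).summable (by simp)
  simpa using this

/-- diagonal operator -/
noncomputable def diag (m : ℕ → ℂ) (hm : ∀ j, ‖m j‖ ≤ 1) : L1 →L[ℂ] L1 :=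
  LinearMap.mkContinuous
    { toFun := fun x => ⟨fun j => m j * x j, (lp.memℓp x).mono' (fun j => by
        rw [norm_mul]
        exact mul_le_of_le_one_left (norm_nonneg _) (hm j))⟩
      map_add' := by
        intro x y
        ext j
        exact mul_add _ _ _
      map_smul' := by
        intro a x
        ext j
        exact mul_left_comm _ _ _ } 1 (by
      intro x
      rw [one_mul]
      apply lp.norm_mono (by simp)
      intro j
      simp only [LinearMap.coe_mk, AddHom.coe_mk, norm_mul]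
      exact mul_le_of_le_one_left (norm_nonneg _) (hm j))

lemma diag_apply (m : ℕ → ℂ) (hm : ∀ j, ‖m j‖ ≤ 1) (x : L1) (j : ℕ) :
    diag m hm x j = m j * x j := rfl

/-- the semigroup -/
noncomputable def Sg (t : ℝ≥0) : L1 →L[ℂ] L1 := diag (fun j => W j t) (fun j => norm_W_le j t.2)

lemma Sg_apply (t : ℝ≥0) (x : L1) (j : ℕ) : Sg t x j = W j t * x j := rfl

lemma W_cont (j : ℕ) : Continuous fun t : ℝ => W j t := by
  unfold W
  fun_prop

lemma Sg_c0 : IsC0Semigroup Sg where
  map_zero := by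
    ext x j
    simp [Sg_apply, W]
  map_add := by
    intro s t
    ext x j
    simp only [ContinuousLinearMap.comp_apply, Sg_apply]
    rw [← mul_assoc]
    congr 1
    unfold W
    rw [← Complex.exp_add]
    congr 1
    push_cast
    ring
  strongly_continuous := by
    intro x
    rw [continuous_iff_continuousAt]
    intro s
    rw [ContinuousAt, tendsto_iff_norm_sub_tendsto_zero]
    have e : ∀ t : ℝ≥0, ‖Sg t x - Sg s x‖ = ∑' j, ‖(W j t - W j s) * x j‖ := by
      intro t
      rw [L1_norm]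
      apply tsum_congr
      intro j
      rw [lp.coeFn_sub, Pi.sub_apply, Sg_apply, Sg_apply, sub_mul]
    simp_rw [e]
    have h0 : (0:ℝ) = ∑' j : ℕ, (0:ℝ) := by simp
    rw [h0]
    apply tendsto_tsum_of_dominated_convergence (bound := fun j => 2 * ‖x j‖)
    · exact (L1_summ x).mul_left 2
    · intro j
      have hc : Continuous fun t : ℝ≥0 => ‖(W j t - W j s) * x j‖ := by
        have := (W_cont j).comp NNReal.continuous_coe
        fun_prop
      have := hc.tendsto s
      simpa using this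
    · refine Eventually.of_forall fun t j => ?_
      rw [norm_norm, norm_mul]
      gcongr
      calc ‖W j t - W j s‖ ≤ ‖W j t‖ + ‖W j s‖ := norm_sub_le _ _
        _ ≤ 1 + 1 := add_le_add (norm_W_le j t.2) (norm_W_le j s.2)
        _ = 2 := by norm_num

lemma W_tendsto (j : ℕ) : Tendsto (fun t : ℝ≥0 => ‖W j t‖) atTop (𝓝 0) := by
  have h1 : Tendsto (fun t : ℝ => Real.exp (-(ee j) * t)) atTop (𝓝 0) := by
    apply Real.tendsto_exp_atBot.comp
    exact tendsto_id.const_mul_atTop_of_neg (by have := ee_pos j; linarith)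
  have h2 := h1.comp (NNReal.tendsto_coe_atTop.mpr (tendsto_id (α := ℝ≥0)))
  simpa [norm_W, Function.comp_def] using h2

lemma Sg_strong (x : L1) : Tendsto (fun t => Sg t x) atTop (𝓝 0) := by
  rw [tendsto_zero_iff_norm_tendsto_zero]
  have e : ∀ t : ℝ≥0, ‖Sg t x‖ = ∑' j, ‖W j t‖ * ‖x j‖ := by
    intro t
    rw [L1_norm]
    apply tsum_congr
    intro j
    rw [Sg_apply, norm_mul]
  simp_rw [e]
  have h0 : (0:ℝ) = ∑' j : ℕ, (0:ℝ) := by simp
  rw [h0]
  apply tendsto_tsum_of_dominated_convergence (bound := fun j => ‖x j‖)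
  · exact L1_summ x
  · intro j
    have := (W_tendsto j).mul_const ‖x j‖
    simpa using this
  · refine Eventually.of_forall fun t j => ?_
    rw [norm_mul, norm_norm, norm_norm]
    exact mul_le_of_le_one_left (norm_nonneg _) (norm_W_le j t.2)

lemma Sg_weak : WeaklyStable Sg := by
  intro x y
  have := (y.continuous.tendsto 0).comp (Sg_strong x)
  simpa [Function.comp_def] using this

lemma Sg_norm_ge (t : ℝ≥0) (j : ℕ) : Real.exp (-(ee j) * t) ≤ ‖Sg t‖ := by
  have h := (Sg t).le_opNorm (lp.single 1 j (1:ℂ))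
  have h1 : ‖lp.single (E := fun _ : ℕ => ℂ) 1 j (1:ℂ)‖ = 1 := by
    rw [lp.norm_single (by simp)]; simp
  rw [h1, mul_one] at h
  refine le_trans ?_ h
  have h2 := lp.norm_apply_le_norm (by simp : (1 : ENNReal) ≠ 0) (Sg t (lp.single 1 j (1:ℂ))) j
  rw [Sg_apply, lp.single_apply_self, mul_one, norm_W] at h2
  exact h2

lemma Sg_not_exp : ¬ ExponentiallyStable Sg := by
  rintro ⟨M, hM, ε, hε, h⟩
  have h1 : ∀ t : ℝ≥0, 1 ≤ M * Real.exp (-ε * t) := by
    intro t
    have h2 : Tendsto (fun j : ℕ => Real.exp (-(ee j) * t)) atTop (𝓝 1) := by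
      have h3 : Tendsto (fun j : ℕ => -(ee j) * (t:ℝ)) atTop (𝓝 0) := by
        have := (tendsto_one_div_add_atTop_nhds_zero_nat (𝕜 := ℝ)).neg.mul_const (t:ℝ)
        simpa [ee] using this
      have := (Real.continuous_exp.tendsto 0).comp h3
      simpa [Function.comp_def] using this
    refine le_of_tendsto h2 (Eventually.of_forall fun j => ?_)
    exact (Sg_norm_ge t j).trans (h t)
  have h4 : Tendsto (fun t : ℝ => M * Real.exp (-ε * t)) atTop (𝓝 0) := by
    have : Tendsto (fun t : ℝ => Real.exp (-ε * t)) atTop (𝓝 0) := by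
      apply Real.tendsto_exp_atBot.comp
      exact tendsto_id.const_mul_atTop_of_neg (by linarith)
    simpa using this.const_mul M
  have h5 := (h4.eventually (gt_mem_nhds (zero_lt_one))).and (eventually_ge_atTop (0:ℝ))
  obtain ⟨t, ht, ht0⟩ := h5.exists
  have := h1 (Real.toNNReal t)
  rw [Real.coe_toNNReal t ht0] at this
  linarith

lemma orbit_eq (x : L1) (y : L1 →L[ℂ] ℂ) (t : ℝ≥0) :
    y (Sg t x) = ∑' j, (x j * y (lp.single 1 j (1:ℂ))) * W j t := by
  have h := lp.hasSum_single (E := fun _ : ℕ => ℂ) (p := 1) (by simp) (Sg t x)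
  have h2 := h.mapL y
  rw [← h2.tsum_eq]
  apply tsum_congr
  intro j
  have e : lp.single (E := fun _ : ℕ => ℂ) 1 j (Sg t x j) = (Sg t x j) • lp.single (E := fun _ : ℕ => ℂ) 1 j (1:ℂ) := by
    rw [← lp.single_smul]; simp
  rw [e, map_smul, Sg_apply, smul_eq_mul]
  ring

lemma coeff_summ (x : L1) (y : L1 →L[ℂ] ℂ) :
    Summable fun j => ‖x j * y (lp.single 1 j (1:ℂ))‖ := by
  refine Summable.of_nonneg_of_le (fun j => norm_nonneg _) (fun j => ?_) ((L1_summ x).mul_right ‖y‖)
  rw [norm_mul]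
  gcongr
  have h := y.le_opNorm (lp.single 1 j (1:ℂ))
  have h1 : ‖lp.single (E := fun _ : ℕ => ℂ) 1 j (1:ℂ)‖ = 1 := by
    rw [lp.norm_single (by simp)]; simp
  rwa [h1, mul_one] at h

/-- the rate -/
noncomputable def rate (t : ℝ≥0) : ℝ := 1 / Real.sqrt (1 + t)

lemma rate_adm : AdmissibleRate rate := by
  refine ⟨fun t => ?_, fun s t hst => ?_, ?_⟩
  · unfold rate; positivity
  · unfold rate
    apply one_div_le_one_div_of_le (by positivity)
    apply Real.sqrt_le_sqrt
    have : (s:ℝ) ≤ t := by exact_mod_cast hst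
    linarith
  · unfold rate
    simp only [one_div]
    apply Tendsto.inv_tendsto_atTop
    apply Real.tendsto_sqrt_atTop.comp
    apply tendsto_atTop_add_const_left
    exact NNReal.tendsto_coe_atTop.mpr tendsto_id

theorem main : ∃ (X : Type) (_ : NormedAddCommGroup X) (_ : NormedSpace ℂ X) (_ : CompleteSpace X)
    (T : ℝ≥0 → X →L[ℂ] X) (a : ℝ≥0 → ℝ),
    IsC0Semigroup T ∧ WeaklyStable T ∧ ¬ ExponentiallyStable T ∧ AdmissibleRate a ∧
      ∀ (x : X) (y : X →L[ℂ] ℂ) (N : ℝ≥0), ∃ t : ℝ≥0, N ≤ t ∧ ‖y (T t x)‖ < a t := by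
  refine ⟨L1, inferInstance, inferInstance, inferInstance, Sg, rate, Sg_c0, Sg_weak, Sg_not_exp,
    rate_adm, fun x y N => ?_⟩
  obtain ⟨t, ht0, htN, ht⟩ := scalar_main _ (coeff_summ x y) N
  refine ⟨Real.toNNReal t, ?_, ?_⟩
  · rw [← NNReal.coe_le_coe, Real.coe_toNNReal t ht0]
    exact htN
  · rw [orbit_eq, rate, Real.coe_toNNReal t ht0]
    exact ht

end H10Wo
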